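import Mathlib
import Pool.Agent.helper67.ND.Defs

/-!
Module D of the `n/d` project of helper67: integrality of the functional on products of affine
functions.
-/

set_option linter.unusedSectionVars false

namespace Pool.Agent.helper31.NDD

open scoped BigOperators
open Pool.Agent.helper67.ND

variable {k K F : Type} [Field k] [Field K] [Field F] [Algebra k K] [Algebra K F] {N : ℕ}

/-! ### affine functions -/

section Aff

variable (En : Env K F N)

/-- scalars of `k` in `F` -/
noncomputable def kF (k K F : Type) [Field k] [Field K] [Field F] [Algebra k K] [Algebra K F] :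
    k →+* F := (algebraMap K F).comp (algebraMap k K)

lemma aff_eq (v : Vec k N) : En.aff v = kF k K F (v 0) + ∑ i, kF k K F (v i.succ) * En.y i := rfl

lemma aff_add (v w : Vec k N) : En.aff (v + w) = En.aff v + En.aff w := by
  simp only [aff_eq, Pi.add_apply, map_add, add_mul, Finset.sum_add_distrib]; ring

lemma aff_smul (c : k) (v : Vec k N) : En.aff (c • v) = kF k K F c * En.aff v := by
  simp only [aff_eq, Pi.smul_apply, smul_eq_mul, map_mul, mul_add, Finset.mul_sum, mul_assoc]

lemma aff_sub (v w : Vec k N) : En.aff (v - w) = En.aff v - En.aff w := by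
  simp only [aff_eq, Pi.sub_apply, map_sub, sub_mul, Finset.sum_sub_distrib]; ring

lemma aff_zero : En.aff (0 : Vec k N) = 0 := by simp [aff_eq]

lemma aff_e0 : En.aff (e0 k N) = 1 := by
  have : ∀ i : Fin N, (e0 k N) i.succ = 0 := fun i => by
    unfold e0; rw [Pi.single_eq_of_ne (Fin.succ_ne_zero i)]
  have h0 : (e0 k N) 0 = 1 := by unfold e0; simp
  simp [aff_eq, this, h0]

lemma D_kF (i : Fin N) (c : k) : En.D i (kF k K F c) = 0 :=
  Derivation.map_algebraMap (En.D i) _

lemma D_aff (i : Fin N) (v : Vec k N) : En.D i (En.aff v) = kF k K F (v i.succ) := by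
  rw [aff_eq, map_add, D_kF, zero_add, map_sum]
  rw [Finset.sum_eq_single i]
  · rw [Derivation.leibniz, D_kF, En.D_y]; simp
  · intro j _ hj
    rw [Derivation.leibniz, D_kF, En.D_y, if_neg (Ne.symm hj)]; simp
  · intro h; exact absurd (Finset.mem_univ _) h

lemma kF_inj : Function.Injective (kF k K F) := (kF k K F).injective

lemma aff_ne_zero {v : Vec k N} (hv : v ≠ 0) : En.aff v ≠ 0 := by
  intro h
  have h1 : ∀ i : Fin N, v i.succ = 0 := fun i => by
    have := D_aff En i v
    rw [h, map_zero] at this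
    exact kF_inj (by rw [← this, map_zero])
  apply hv
  have h0 : v 0 = 0 := by
    rw [aff_eq] at h
    simp only [h1, map_zero, zero_mul, Finset.sum_const_zero, add_zero] at h
    exact kF_inj (by rw [h, map_zero])
  funext i
  refine Fin.cases h0 (fun i => h1 i) i

/-- the Euler field centred at the point of the functional `φ` -/
noncomputable def eul (φ : Vec k N →ₗ[k] k) : Derivation K F F :=
  ∑ i : Fin N, (En.y i - kF k K F (φ (Pi.single i.succ 1))) • En.D i

lemma eul_apply (φ : Vec k N →ₗ[k] k) (f : F) :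
    eul En φ f = ∑ i : Fin N, (En.y i - kF k K F (φ (Pi.single i.succ 1))) * En.D i f := by
  unfold eul
  let ev : Derivation K F F →+ F := ⟨⟨fun D => D f, rfl⟩, fun _ _ => rfl⟩
  exact map_sum ev _ _

lemma phi_expand (φ : Vec k N →ₗ[k] k) (h0 : φ (e0 k N) = 1) (v : Vec k N) :
    φ v = v 0 + ∑ i : Fin N, v i.succ * φ (Pi.single i.succ 1) := by
  have : v = v 0 • e0 k N + ∑ i : Fin N, v i.succ • (Pi.single i.succ 1 : Vec k N) := by
    conv_lhs => rw [pi_eq_sum_univ v]
    rw [Fin.sum_univ_succ]
    congr 1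
    · congr 1
      funext j
      unfold e0
      simp [Pi.single_apply, eq_comm]
    · refine Finset.sum_congr rfl fun i _ => ?_
      congr 1
      funext j
      simp [Pi.single_apply, eq_comm]
  conv_lhs => rw [this]
  rw [map_add, map_smul, h0, map_sum]
  simp only [map_smul, smul_eq_mul, mul_one]

lemma eul_aff_sum (φ : Vec k N →ₗ[k] k) (h0 : φ (e0 k N) = 1) (v : Vec k N) :
    ∑ i : Fin N, (En.y i - kF k K F (φ (Pi.single i.succ 1))) * kF k K F (v i.succ)
      = En.aff v - kF k K F (φ v) := by
  rw [phi_expand φ h0 v, aff_eq]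
  simp only [sub_mul, Finset.sum_sub_distrib, map_add, map_sum, map_mul]
  have e1 : ∑ i : Fin N, En.y i * kF k K F (v i.succ)
      = ∑ i : Fin N, kF k K F (v i.succ) * En.y i := Finset.sum_congr rfl fun i _ => mul_comm _ _
  have e2 : ∑ i : Fin N, kF k K F (φ (Pi.single i.succ 1)) * kF k K F (v i.succ)
      = ∑ i : Fin N, kF k K F (v i.succ) * kF k K F (φ (Pi.single i.succ 1)) :=
    Finset.sum_congr rfl fun i _ => mul_comm _ _
  rw [e1, e2]; ring

lemma eul_aff (φ : Vec k N →ₗ[k] k) (h0 : φ (e0 k N) = 1) (v : Vec k N) :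
    eul En φ (En.aff v) = En.aff v - kF k K F (φ v) := by
  rw [eul_apply, ← eul_aff_sum En φ h0 v]
  exact Finset.sum_congr rfl fun i _ => by rw [D_aff]

lemma eul_aff_inv (φ : Vec k N →ₗ[k] k) (h0 : φ (e0 k N) = 1) (v : Vec k N) (hv : φ v = 0) :
    eul En φ (En.aff v)⁻¹ = - (En.aff v)⁻¹ := by
  rw [Derivation.leibniz_inv, eul_aff En φ h0, hv, map_zero, sub_zero, smul_eq_mul]
  by_cases h : En.aff v = 0
  · simp [h]
  · field_simp

lemma eul_kF (φ : Vec k N →ₗ[k] k) (c : k) : eul En φ (kF k K F c) = 0 := by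
  rw [eul_apply]; simp [D_kF]

lemma eul_algebraMap (φ : Vec k N →ₗ[k] k) (c : K) : eul En φ (algebraMap K F c) = 0 :=
  Derivation.map_algebraMap _ _

/-- divergence formula -/
lemma sum_D (φ : Vec k N →ₗ[k] k) (f : F) :
    ∑ i : Fin N, En.D i ((En.y i - kF k K F (φ (Pi.single i.succ 1))) * f)
      = N * f + eul En φ f := by
  rw [eul_apply]
  have : ∀ i : Fin N, En.D i ((En.y i - kF k K F (φ (Pi.single i.succ 1))) * f)
      = f + (En.y i - kF k K F (φ (Pi.single i.succ 1))) * En.D i f := fun i => by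
    rw [Derivation.leibniz, map_sub, D_kF, En.D_y, if_pos rfl]
    simp only [smul_eq_mul, sub_zero, mul_one]
    ring
  simp only [this]
  rw [Finset.sum_add_distrib]
  simp

end Aff

/-! ### products of affine functions -/

section G

variable (k)
variable (En : Env K F N)

/-- multiples of products of `m` affine functions -/
inductive IsG : ℕ → F → Prop
  | const (c : k) : IsG 0 (kF k K F c)
  | mul {m : ℕ} {g : F} (v : Vec k N) (h : IsG m g) : IsG (m + 1) (En.aff v * g)

/-- sums of such products -/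
def GG (m : ℕ) : AddSubgroup F := AddSubgroup.closure {g | IsG k En m g}

variable {k}

lemma IsG.smul {m : ℕ} {g : F} (h : IsG k En m g) (c : k) : IsG k En m (kF k K F c * g) := by
  induction h with
  | const c' => rw [← map_mul]; exact IsG.const _
  | mul v h ih =>
    rw [mul_left_comm]
    exact IsG.mul v ih

lemma GG.smul {m : ℕ} {g : F} (h : g ∈ GG k En m) (c : k) : kF k K F c * g ∈ GG k En m := by
  unfold GG at h ⊢
  induction h using AddSubgroup.closure_induction with
  | mem x hx => exact AddSubgroup.subset_closure (IsG.smul En hx c)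
  | zero => rw [mul_zero]; exact zero_mem _
  | add x y _ _ hx hy => rw [mul_add]; exact add_mem hx hy
  | neg x _ hx => rw [mul_neg]; exact neg_mem hx

lemma GG.mul {m : ℕ} {g : F} (h : g ∈ GG k En m) (v : Vec k N) :
    En.aff v * g ∈ GG k En (m + 1) := by
  unfold GG at h ⊢
  induction h using AddSubgroup.closure_induction with
  | mem x hx => exact AddSubgroup.subset_closure (IsG.mul v hx)
  | zero => rw [mul_zero]; exact zero_mem _
  | add x y _ _ hx hy => rw [mul_add]; exact add_mem hx hy
  | neg x _ hx => rw [mul_neg]; exact neg_mem hx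

/-- Euler formula for products -/
lemma eul_G (φ : Vec k N →ₗ[k] k) (h0 : φ (e0 k N) = 1) {m : ℕ} {g : F} (h : IsG k En m g) :
    (m = 0 ∧ eul En φ g = 0) ∨
      ∃ m', m = m' + 1 ∧ ∃ g' ∈ GG k En m', eul En φ g = m * g - g' := by
  induction h with
  | const c => exact Or.inl ⟨rfl, eul_kF En φ c⟩
  | @mul m g v h ih =>
    right
    refine ⟨m, rfl, ?_⟩
    rcases ih with ⟨hm, he⟩ | ⟨m', hm, g', hg', he⟩
    · subst hm
      refine ⟨kF k K F (φ v) * g, GG.smul En (AddSubgroup.subset_closure h) _, ?_⟩
      rw [Derivation.leibniz, he, eul_aff En φ h0]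
      simp only [smul_eq_mul]
      push_cast
      ring
    · subst hm
      refine ⟨En.aff v * g' + kF k K F (φ v) * g,
        add_mem (GG.mul En hg' v) (GG.smul En (AddSubgroup.subset_closure h) _), ?_⟩
      rw [Derivation.leibniz, he, eul_aff En φ h0]
      simp only [smul_eq_mul]
      push_cast
      ring

lemma isG_prod : ∀ (m : ℕ) (g : Fin m → Vec k N), IsG k En m (∏ a, En.aff (g a))
  | 0, g => by
    have := IsG.const (k := k) (En := En) (1 : k)
    simpa using this
  | m + 1, g => by
    rw [Fin.prod_univ_succ]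
    exact IsG.mul _ (isG_prod m _)

end G

/-! ### flags -/

section Flag

variable {ι : Type} [Fintype ι]

open Classical in
/-- one step of a flag -/
noncomputable def gam (En : Env K F N) (l : ι → Vec k N) (α : ι → K)
    (φ : Submodule k (Vec k N) → (Vec k N →ₗ[k] k)) (W W' : Submodule k (Vec k N)) : F :=
  ∑ e, if (l e ∈ W' ∧ l e ∉ W) then
    algebraMap K F (α e * algebraMap k K (φ W (l e))) * (En.aff (l e))⁻¹ else 0

/-- product of the steps of a flag -/
inductive IsC (En : Env K F N) (l : ι → Vec k N) (α : ι → K)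
    (φ : Submodule k (Vec k N) → (Vec k N →ₗ[k] k)) : ℕ → Submodule k (Vec k N) → F → Prop
  | zero : IsC En l α φ 0 ⊥ 1
  | succ {j : ℕ} {W : Submodule k (Vec k N)} {c : F} (i : ι) (h : IsC En l α φ j W c)
      (hi : l i ∉ W) : IsC En l α φ (j + 1) (W ⊔ Submodule.span k {l i})
        (c * gam En l α φ W (W ⊔ Submodule.span k {l i}))

variable {En : Env K F N} {l : ι → Vec k N} {α : ι → K}
  {φ : Submodule k (Vec k N) → (Vec k N →ₗ[k] k)}

lemma IsC.finrank {j : ℕ} {W : Submodule k (Vec k N)} {c : F} (h : IsC En l α φ j W c) :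
    Module.finrank k W = j := by
  induction h with
  | zero => simp
  | succ i h hi ih => rw [Submodule.finrank_sup_span_singleton hi, ih]

/-- the flats -/
def Flat (l : ι → Vec k N) (W : Submodule k (Vec k N)) : Prop :=
  W ≤ Submodule.span k (l '' {i | l i ∈ W})

lemma IsC.flat {j : ℕ} {W : Submodule k (Vec k N)} {c : F} (h : IsC En l α φ j W c) :
    Flat l W := by
  induction h with
  | zero => exact bot_le
  | @succ j W c i h hi ih =>
    refine sup_le (ih.trans (Submodule.span_mono (Set.image_mono fun x hx => ?_))) ?_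
    · exact Submodule.mem_sup_left hx
    · rw [Submodule.span_singleton_le_iff_mem]
      refine Submodule.subset_span ⟨i, ?_, rfl⟩
      exact Submodule.mem_sup_right (Submodule.mem_span_singleton_self _)

lemma exchange {W : Submodule k (Vec k N)} {x y : Vec k N} (hx : x ∈ W ⊔ Submodule.span k {y})
    (hxW : x ∉ W) : W ⊔ Submodule.span k {x} = W ⊔ Submodule.span k {y} := by
  apply le_antisymm
  · refine sup_le le_sup_left ?_
    rw [Submodule.span_singleton_le_iff_mem]; exact hx
  · refine sup_le le_sup_left ?_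
    rw [Submodule.span_singleton_le_iff_mem]
    rw [Submodule.mem_sup] at hx
    obtain ⟨w, hw, z, hz, hwz⟩ := hx
    rw [Submodule.mem_span_singleton] at hz
    obtain ⟨a, ha⟩ := hz
    have ha0 : a ≠ 0 := by
      intro h
      rw [h, zero_smul] at ha
      rw [← ha, add_zero] at hwz
      exact hxW (hwz ▸ hw)
    have : y = a⁻¹ • (x - w) := by
      rw [← hwz, add_sub_cancel_left, ← ha, smul_smul, inv_mul_cancel₀ ha0, one_smul]
    rw [this]
    refine Submodule.smul_mem _ _ (Submodule.sub_mem _ ?_ ?_)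
    · exact Submodule.mem_sup_right (Submodule.mem_span_singleton_self _)
    · exact Submodule.mem_sup_left hw

/-- splitting a sum according to the covers of `W` -/
lemma sum_covers {M : Type} [AddCommMonoid M] (l : ι → Vec k N) (W : Submodule k (Vec k N))
    (s : Finset ι) (hs : ∀ e ∈ s, l e ∉ W) :
    ∃ (T : Finset (Submodule k (Vec k N))),
      (∀ W' ∈ T, ∃ i ∈ s, l i ∉ W ∧ W' = W ⊔ Submodule.span k {l i}) ∧
      ∀ f : ι → M,
        ∑ e ∈ s, f e = ∑ W' ∈ T, ∑ e ∈ s, (open Classical in if l e ∈ W' then f e else 0) := by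
  classical
  refine ⟨s.image fun e => W ⊔ Submodule.span k {l e}, ?_, fun f => ?_⟩
  · intro W' hW'
    obtain ⟨i, hi, rfl⟩ := Finset.mem_image.1 hW'
    exact ⟨i, hi, hs i hi, rfl⟩
  · rw [Finset.sum_comm]
    refine Finset.sum_congr rfl fun e he => ?_
    rw [Finset.sum_eq_single (W ⊔ Submodule.span k {l e})]
    · rw [if_pos]
      exact Submodule.mem_sup_right (Submodule.mem_span_singleton_self _)
    · intro W' hW' hne
      obtain ⟨i, hi, rfl⟩ := Finset.mem_image.1 hW'
      rw [if_neg]
      intro hmem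
      exact hne (exchange hmem (hs e he)).symm
    · intro hnot
      exact absurd (Finset.mem_image_of_mem _ he) hnot

lemma gam_eul (ψ : Vec k N →ₗ[k] k) (h0 : ψ (e0 k N) = 1) (W W' : Submodule k (Vec k N))
    (hW' : ∀ e, l e ∈ W' → ψ (l e) = 0) :
    eul En ψ (gam En l α φ W W') = - gam En l α φ W W' := by
  unfold gam
  rw [map_sum, ← Finset.sum_neg_distrib]
  refine Finset.sum_congr rfl fun e _ => ?_
  split_ifs with h
  · rw [Derivation.leibniz, eul_algebraMap, eul_aff_inv En ψ h0 _ (hW' e h.1)]
    simp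
  · simp

lemma IsC.eul {j : ℕ} {W : Submodule k (Vec k N)} {c : F} (h : IsC En l α φ j W c)
    (ψ : Vec k N →ₗ[k] k) (h0 : ψ (e0 k N) = 1) (hW : W ≤ LinearMap.ker ψ) :
    eul En ψ c = - (j : F) * c := by
  induction h with
  | zero => simp
  | @succ j W c i h hi ih =>
    rw [Derivation.leibniz, ih (le_sup_left.trans hW),
      gam_eul ψ h0 _ _ (fun e he => LinearMap.mem_ker.1 (hW he))]
    simp only [smul_eq_mul]
    push_cast
    ring

/-- the ring of functions -/
def Rg (En : Env K F N) (l : ι → Vec k N) : Subalgebra K F :=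
  Algebra.adjoin K (Set.range En.y ∪ Set.range (fun e => (En.aff (l e))⁻¹))

lemma y_mem (i : Fin N) : En.y i ∈ Rg En l := Algebra.subset_adjoin (Or.inl ⟨i, rfl⟩)

lemma inv_mem (e : ι) : (En.aff (l e))⁻¹ ∈ Rg En l := Algebra.subset_adjoin (Or.inr ⟨e, rfl⟩)

lemma kF_mem (c : k) : kF k K F c ∈ Rg En l := Subalgebra.algebraMap_mem _ _

lemma aff_mem (v : Vec k N) : En.aff v ∈ Rg En l := by
  rw [aff_eq]
  exact add_mem (kF_mem _) (sum_mem fun i _ => mul_mem (kF_mem _) (y_mem i))

lemma IsG.mem {m : ℕ} {g : F} (h : IsG k En m g) : g ∈ Rg En l := by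
  induction h with
  | const c => exact kF_mem c
  | mul v h ih => exact mul_mem (aff_mem v) ih

lemma gam_mem (W W' : Submodule k (Vec k N)) : gam En l α φ W W' ∈ Rg En l := by
  unfold gam
  refine sum_mem fun e _ => ?_
  split_ifs
  · exact mul_mem (Subalgebra.algebraMap_mem _ _) (inv_mem e)
  · exact zero_mem _

lemma IsC.mem {j : ℕ} {W : Submodule k (Vec k N)} {c : F} (h : IsC En l α φ j W c) :
    c ∈ Rg En l := by
  induction h with
  | zero => exact one_mem _
  | succ i h hi ih => exact mul_mem ih (gam_mem _ _)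

/-- The properties of the functionals. -/
structure Phi (l : ι → Vec k N) (φ : Submodule k (Vec k N) → (Vec k N →ₗ[k] k))
    (W : Submodule k (Vec k N)) : Prop where
  one : φ W (e0 k N) = 1
  ker : W ≤ LinearMap.ker (φ W)
  ne : ∀ i, l i ∉ W → φ W (l i) ≠ 0

lemma exists_phi [Infinite k] (l : ι → Vec k N) (W : Submodule k (Vec k N)) (hW : e0 k N ∉ W) :
    ∃ ψ : Vec k N →ₗ[k] k, ψ (e0 k N) = 1 ∧ W ≤ LinearMap.ker ψ ∧ ∀ i, l i ∉ W → ψ (l i) ≠ 0 := by
  classical
  let v : Option {i : ι // l i ∉ W} → (Vec k N ⧸ W) := fun o => match o with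
    | none => W.mkQ (e0 k N)
    | some i => W.mkQ (l i)
  have hv : ∀ o, v o ≠ 0 := by
    intro o
    rcases o with _ | i
    · simpa [v] using hW
    · simpa [v] using i.2
  obtain ⟨f, hf⟩ := Module.exists_dual_forall_apply_ne_zero (K := k) v hv
  have h0 : f (W.mkQ (e0 k N)) ≠ 0 := hf none
  refine ⟨(f (W.mkQ (e0 k N)))⁻¹ • (f ∘ₗ W.mkQ), ?_, ?_, ?_⟩
  · simp only [LinearMap.smul_apply, LinearMap.comp_apply, smul_eq_mul]
    exact inv_mul_cancel₀ h0
  · intro w hw
    rw [LinearMap.mem_ker, LinearMap.smul_apply, LinearMap.comp_apply]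
    have : W.mkQ w = 0 := (Submodule.Quotient.mk_eq_zero W).2 hw
    rw [this, map_zero, smul_zero]
  · intro i hi
    simp only [LinearMap.smul_apply, LinearMap.comp_apply, smul_eq_mul]
    exact mul_ne_zero (inv_ne_zero h0) (hf (some ⟨i, hi⟩))

/-- the basic recursion for the functional -/
lemma euler_step {L : F →ₗ[K] K} (hl : ∀ i, l i ≠ 0)
    (hL : ∀ (i : Fin N), ∀ s ∈ Rg En l,
      L (En.D i s) = - ∑ e, α e * (algebraMap k K (l e i.succ)) * L (s * (En.aff (l e))⁻¹))
    (ψ : Vec k N →ₗ[k] k) (h0 : ψ (e0 k N) = 1) (f : F) (hf : f ∈ Rg En l) :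
    L ((N : F) * f + eul En ψ f) + (∑ e, α e) * L f =
      ∑ e, α e * algebraMap k K (ψ (l e)) * L (f * (En.aff (l e))⁻¹) := by
  have hLk : ∀ (c : k) (g : F), L (kF k K F c * g) = algebraMap k K c * L g := fun c g => by
    have : kF k K F c * g = (algebraMap k K c) • g := by rw [Algebra.smul_def]; rfl
    rw [this, map_smul, smul_eq_mul]
  rw [← sum_D, map_sum]
  have hstep : ∀ i : Fin N, L (En.D i ((En.y i - kF k K F (ψ (Pi.single i.succ 1))) * f)) =
      - ∑ e, α e * L ((En.y i - kF k K F (ψ (Pi.single i.succ 1))) * kF k K F (l e i.succ) *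
        (f * (En.aff (l e))⁻¹)) := fun i => by
    rw [hL i _ (mul_mem (sub_mem (y_mem i) (kF_mem _)) hf)]
    congr 1
    refine Finset.sum_congr rfl fun e _ => ?_
    rw [mul_assoc, ← hLk]
    congr 2
    ring
  simp only [hstep]
  rw [Finset.sum_neg_distrib, Finset.sum_comm]
  have hsum : ∀ e, ∑ i : Fin N, α e * L ((En.y i - kF k K F (ψ (Pi.single i.succ 1))) *
      kF k K F (l e i.succ) * (f * (En.aff (l e))⁻¹)) =
      α e * (L f - algebraMap k K (ψ (l e)) * L (f * (En.aff (l e))⁻¹)) := fun e => by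
    rw [← Finset.mul_sum, ← map_sum, ← Finset.sum_mul, eul_aff_sum En ψ h0]
    congr 1
    rw [← hLk, ← map_sub]
    congr 1
    have := aff_ne_zero En (hl e)
    field_simp
  rw [Finset.sum_congr rfl fun e _ => hsum e, Finset.sum_mul, ← Finset.sum_neg_distrib,
    ← Finset.sum_add_distrib]
  refine Finset.sum_congr rfl fun e _ => ?_
  ring

/-! ### the rho lemma -/

/-- generators -/
def TG (En : Env K F N) (l : ι → Vec k N) (α : ι → K)
    (φ : Submodule k (Vec k N) → (Vec k N →ₗ[k] k)) (R : Subring K) (j : ℕ)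
    (W : Submodule k (Vec k N)) : Set (Vec k N → F) :=
  {T | ∃ (j' : ℕ) (G : Submodule k (Vec k N)) (c : F) (ρ : K), j' + 1 = j ∧
    IsC En l α φ j' G c ∧ G ≤ W ∧ ρ ∈ R ∧
      T = fun v => algebraMap K F (ρ * algebraMap k K (φ G v)) * c}

/-- sums of generators -/
def TT (En : Env K F N) (l : ι → Vec k N) (α : ι → K)
    (φ : Submodule k (Vec k N) → (Vec k N →ₗ[k] k)) (R : Subring K) (j : ℕ)
    (W : Submodule k (Vec k N)) : AddSubgroup (Vec k N → F) :=
  AddSubgroup.closure (TG En l α φ R j W)

lemma sub_mem_of {W : Submodule k (Vec k N)} {x v : Vec k N} {ψ : Vec k N →ₗ[k] k}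
    (hW : W ≤ LinearMap.ker ψ) (hx : ψ x ≠ 0) (hv : v ∈ W ⊔ Submodule.span k {x}) :
    v - (ψ v / ψ x) • x ∈ W := by
  rw [Submodule.mem_sup] at hv
  obtain ⟨w, hw, z, hz, hwz⟩ := hv
  rw [Submodule.mem_span_singleton] at hz
  obtain ⟨a, ha⟩ := hz
  have h1 : ψ v = a * ψ x := by
    rw [← hwz, ← ha, map_add, map_smul, LinearMap.mem_ker.1 (hW hw), zero_add, smul_eq_mul]
  rw [h1, mul_div_cancel_right₀ _ hx, ← hwz, ← ha, add_sub_cancel_right]
  exact hw

open Classical in
/-- the contribution of one cover -/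
lemma rho_cover {R : Subring K} (hk : ∀ c : k, algebraMap k K c ∈ R)
    {j' : ℕ} {G W : Submodule k (Vec k N)} {cG cW : F} (i i0 : ι) (ρ : K) (hρ : ρ ∈ R)
    (hG : IsC En l α φ j' G cG) (hW : IsC En l α φ (j' + 1) W cW) (hGW : G ≤ W)
    (hi : l i ∉ W) (hi0X : l i0 ∈ W ⊔ Submodule.span k {l i}) (hi0 : l i0 ∉ W)
    (PG : Phi l φ G) (PW : Phi l φ W) (PW2 : Phi l φ (G ⊔ Submodule.span k {l i0})) :
    ∃ T ∈ TT En l α φ R (j' + 2) (W ⊔ Submodule.span k {l i}),
      ∀ v ∈ W ⊔ Submodule.span k {l i},
        (∑ e ∈ Finset.univ.filter (fun e => l e ∈ W ⊔ Submodule.span k {l i} ∧ l e ∉ W),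
          if l e ∈ G ⊔ Submodule.span k {l i0} then
            algebraMap K F (α e * algebraMap k K (φ W (l e))) * (En.aff (l e))⁻¹ *
              (algebraMap K F (ρ * algebraMap k K (φ G (v - (φ W v / φ W (l e)) • l e))) * cG)
          else 0) = T v := by
  set X := W ⊔ Submodule.span k {l i} with hX
  set W2 := G ⊔ Submodule.span k {l i0} with hW2
  have hi0G : l i0 ∉ G := fun h => hi0 (hGW h)
  have hW2X : W2 ≤ X := by
    refine sup_le (hGW.trans le_sup_left) ?_
    rw [Submodule.span_singleton_le_iff_mem]; exact hi0X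
  -- elements of `W2` outside `G` are outside `W`
  have hout : ∀ x : Vec k N, x ∈ W2 → x ∉ G → x ∉ W := by
    intro x hx hxG hxW
    have := exchange hx hxG
    apply hi0
    have h1 : l i0 ∈ G ⊔ Submodule.span k {x} := by
      rw [this]; exact Submodule.mem_sup_right (Submodule.mem_span_singleton_self _)
    refine (sup_le hGW ?_ : G ⊔ Submodule.span k {x} ≤ W) h1
    rw [Submodule.span_singleton_le_iff_mem]; exact hxW
  -- an element of `W` outside `G`
  obtain ⟨f0, hf0W, hf0G⟩ : ∃ f0, l f0 ∈ W ∧ l f0 ∉ G := by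
    by_contra hcon
    push Not at hcon
    have h1 : W ≤ G := by
      refine hW.flat.trans ?_
      rw [Submodule.span_le]
      rintro _ ⟨e, he, rfl⟩
      exact hcon e he
    have h2 : W = G := le_antisymm h1 hGW
    have h3 := hW.finrank
    rw [h2, hG.finrank] at h3
    omega
  have hf0W2 : l f0 ∉ W2 := fun h => hout _ h hf0G hf0W
  have hXeq : X = W2 ⊔ Submodule.span k {l f0} := by
    symm
    apply Submodule.eq_of_le_of_finrank_eq
    · refine sup_le hW2X ?_
      rw [Submodule.span_singleton_le_iff_mem]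
      exact Submodule.mem_sup_left hf0W
    · rw [Submodule.finrank_sup_span_singleton hf0W2, hW2,
        Submodule.finrank_sup_span_singleton hi0G, hG.finrank, hX,
        Submodule.finrank_sup_span_singleton hi, hW.finrank]
  set r : k := φ W (l i0) * φ G (l f0) * (φ G (l i0))⁻¹ * (φ W2 (l f0))⁻¹ with hr
  have hGi0 : φ G (l i0) ≠ 0 := PG.ne _ hi0G
  have hW2f0 : φ W2 (l f0) ≠ 0 := PW2.ne _ hf0W2
  have key : ∀ e, l e ∈ W2 → l e ∉ G → ∀ v ∈ X,
      φ W (l e) * φ G (v - (φ W v / φ W (l e)) • l e) = r * φ W2 v * φ G (l e) := by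
    intro e heW2 heG v hv
    have heW := hout _ heW2 heG
    have hne : φ W (l e) ≠ 0 := PW.ne _ heW
    -- first: reduce to the antisymmetric expression
    have h1 : φ W (l e) * φ G (v - (φ W v / φ W (l e)) • l e) =
        φ W (l e) * φ G v - φ W v * φ G (l e) := by
      rw [map_sub, map_smul, smul_eq_mul]; field_simp
    rw [h1]
    -- proportionality
    have h2 : l e - (φ G (l e) / φ G (l i0)) • l i0 ∈ G := sub_mem_of PG.ker hGi0 heW2
    have h3 : φ W (l e) = φ G (l e) / φ G (l i0) * φ W (l i0) := by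
      have := LinearMap.mem_ker.1 (PW.ker (hGW h2))
      rw [map_sub, map_smul, smul_eq_mul] at this
      linear_combination this
    rw [hXeq] at hv
    have h4 : v - (φ W2 v / φ W2 (l f0)) • l f0 ∈ W2 := sub_mem_of PW2.ker hW2f0 hv
    set a := φ W2 v / φ W2 (l f0) with ha
    have hva : φ W2 v = a * φ W2 (l f0) := by rw [ha]; field_simp
    -- the expression vanishes on W2
    have h5 : ∀ w ∈ W2, φ W (l e) * φ G w - φ W w * φ G (l e) = 0 := by
      intro w hw
      have hw' : w - (φ G w / φ G (l i0)) • l i0 ∈ G := sub_mem_of PG.ker hGi0 hw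
      have hw2 : φ W w = φ G w / φ G (l i0) * φ W (l i0) := by
        have := LinearMap.mem_ker.1 (PW.ker (hGW hw'))
        rw [map_sub, map_smul, smul_eq_mul] at this
        linear_combination this
      rw [hw2, h3]; ring
    have h6 := h5 _ h4
    rw [map_sub, map_smul, map_sub, map_smul, smul_eq_mul, smul_eq_mul,
      LinearMap.mem_ker.1 (PW.ker hf0W)] at h6
    have h7 : φ W (l e) * φ G v - φ W v * φ G (l e) = a * (φ W (l e) * φ G (l f0)) := by
      linear_combination h6
    rw [h7, hva, h3, hr]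
    field_simp
  refine ⟨fun v => algebraMap K F (ρ * algebraMap k K r * algebraMap k K (φ W2 v)) *
      (cG * gam En l α φ G W2), ?_, ?_⟩
  · exact AddSubgroup.subset_closure ⟨j' + 1, W2, _, ρ * algebraMap k K r, rfl,
      IsC.succ i0 hG hi0G, hW2X, mul_mem hρ (hk _), rfl⟩
  · intro v hv
    simp only
    unfold gam
    rw [Finset.sum_filter, Finset.mul_sum, Finset.mul_sum]
    refine Finset.sum_congr rfl fun e _ => ?_
    by_cases he : l e ∈ W2 ∧ l e ∉ G
    · have h1 : l e ∈ X ∧ l e ∉ W := ⟨hW2X he.1, hout _ he.1 he.2⟩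
      rw [if_pos h1, if_pos he.1, if_pos he]
      have h2 := congrArg (algebraMap k K) (key e he.1 he.2 v hv)
      simp only [map_mul] at h2
      have h3 := congrArg (algebraMap K F) h2
      simp only [map_mul] at h3 ⊢
      linear_combination (algebraMap K F (α e) * (En.aff (l e))⁻¹ * algebraMap K F ρ * cG) * h3
    · rw [if_neg he]
      by_cases h1 : l e ∈ X ∧ l e ∉ W
      · rw [if_pos h1, if_neg, mul_zero, mul_zero]
        intro h2
        exact he ⟨h2, fun h3 => h1.2 (hGW h3)⟩
      · rw [if_neg h1, mul_zero, mul_zero]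

open Classical in
theorem rho_lemma {R : Subring K} (hk : ∀ c : k, algebraMap k K c ∈ R) (hα : ∀ i, α i ∈ R)
    (hl : ∀ i, l i ≠ 0)
    (hΦ : ∀ j W c, IsC En l α φ j W c → j ≤ N → Phi l φ W) {j : ℕ}
    {W : Submodule k (Vec k N)} {c : F} (h : IsC En l α φ j W c) (hj : j ≤ N) :
    ∃ T ∈ TT En l α φ R j W, ∀ v ∈ W, En.aff v * c = T v := by
  induction h with
  | zero =>
    refine ⟨0, zero_mem _, fun v hv => ?_⟩
    rw [Submodule.mem_bot] at hv
    rw [hv, aff_zero, zero_mul]; rfl
  | @succ j W c i h hi ih =>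
    have hjN : j ≤ N := by omega
    have PW := hΦ j W c h hjN
    obtain ⟨T', hT', hTv⟩ := ih hjN
    set X := W ⊔ Submodule.span k {l i} with hX
    set E : Finset ι := Finset.univ.filter (fun e => l e ∈ X ∧ l e ∉ W) with hE
    have hXe : ∀ e ∈ E, X = W ⊔ Submodule.span k {l e} := fun e he =>
      (exchange (Finset.mem_filter.1 he).2.1 (Finset.mem_filter.1 he).2.2).symm
    -- the operator
    have claim : ∀ T' ∈ TT En l α φ R j W, ∃ T ∈ TT En l α φ R (j + 1) X, ∀ v ∈ X,
        (∑ e ∈ E, algebraMap K F (α e * algebraMap k K (φ W (l e))) * (En.aff (l e))⁻¹ *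
          T' (v - (φ W v / φ W (l e)) • l e)) = T v := by
      intro T' hT'
      unfold TT at hT'
      induction hT' using AddSubgroup.closure_induction with
      | mem T' hT' =>
        obtain ⟨j', G, cG, ρ, hj', hG, hGW, hρ, rfl⟩ := hT'
        subst hj'
        have PG := hΦ j' G cG hG (by omega)
        obtain ⟨S, hS, hsum⟩ := sum_covers (M := F) l G E
          (fun e he hh => (Finset.mem_filter.1 he).2.2 (hGW hh))
        have hex : ∀ W2 : Submodule k (Vec k N), ∃ T : Vec k N → F, W2 ∈ S →
            (T ∈ TT En l α φ R (j' + 2) X ∧ ∀ v ∈ X,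
            (∑ e ∈ E, if l e ∈ W2 then
              algebraMap K F (α e * algebraMap k K (φ W (l e))) * (En.aff (l e))⁻¹ *
              (algebraMap K F (ρ * algebraMap k K (φ G (v - (φ W v / φ W (l e)) • l e))) * cG)
              else 0) = T v) := by
          intro W2
          by_cases hW2 : W2 ∈ S
          · obtain ⟨i0, hi0E, hi0G, rfl⟩ := hS W2 hW2
            have hi0 := (Finset.mem_filter.1 hi0E).2
            obtain ⟨T, hT, hTT⟩ := rho_cover hk i i0 ρ hρ hG h hGW hi hi0.1 hi0.2 PG PW
              (hΦ _ _ _ (IsC.succ i0 hG hi0G) hjN)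
            exact ⟨T, fun _ => ⟨hT, hTT⟩⟩
          · exact ⟨0, fun hh => absurd hh hW2⟩
        choose Tf hTf using hex
        refine ⟨∑ W2 ∈ S, Tf W2, sum_mem fun W2 hW2 => (hTf W2 hW2).1, fun v hv => ?_⟩
        rw [hsum, Finset.sum_apply]
        exact Finset.sum_congr rfl fun W2 hW2 => (hTf W2 hW2).2 v hv
      | zero =>
        refine ⟨0, zero_mem _, fun v _ => ?_⟩
        simp
      | add x y _ _ hx hy =>
        obtain ⟨Tx, hTx, hx'⟩ := hx
        obtain ⟨Ty, hTy, hy'⟩ := hy
        refine ⟨Tx + Ty, add_mem hTx hTy, fun v hv => ?_⟩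
        rw [Pi.add_apply, ← hx' v hv, ← hy' v hv, ← Finset.sum_add_distrib]
        refine Finset.sum_congr rfl fun e _ => ?_
        rw [Pi.add_apply]; ring
      | neg x _ hx =>
        obtain ⟨Tx, hTx, hx'⟩ := hx
        refine ⟨-Tx, neg_mem hTx, fun v hv => ?_⟩
        rw [Pi.neg_apply, ← hx' v hv, ← Finset.sum_neg_distrib]
        refine Finset.sum_congr rfl fun e _ => ?_
        rw [Pi.neg_apply]; ring
    obtain ⟨T2, hT2, hT2v⟩ := claim T' hT'
    refine ⟨(fun v => algebraMap K F ((∑ e ∈ E, α e) * algebraMap k K (φ W v)) * c) + T2,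
      add_mem (AddSubgroup.subset_closure ⟨j, W, c, _, rfl, h, le_sup_left,
        sum_mem fun e _ => hα e, rfl⟩) hT2, fun v hv => ?_⟩
    rw [Pi.add_apply, ← hT2v v hv]
    unfold gam
    rw [Finset.mul_sum, Finset.mul_sum, ← Finset.sum_filter_add_sum_filter_not Finset.univ
      (fun e => l e ∈ X ∧ l e ∉ W)]
    have hz : ∑ e ∈ Finset.univ.filter (fun e => ¬ (l e ∈ X ∧ l e ∉ W)),
        En.aff v * (c * if l e ∈ X ∧ l e ∉ W then
          algebraMap K F (α e * algebraMap k K (φ W (l e))) * (En.aff (l e))⁻¹ else 0) = 0 := by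
      refine Finset.sum_eq_zero fun e he => ?_
      rw [if_neg (Finset.mem_filter.1 he).2, mul_zero, mul_zero]
    rw [hz, add_zero, Finset.sum_mul, map_sum, Finset.sum_mul, ← Finset.sum_add_distrib]
    refine Finset.sum_congr rfl fun e he => ?_
    have he' := (Finset.mem_filter.1 he).2
    rw [if_pos he']
    have hne : φ W (l e) ≠ 0 := PW.ne _ he'.2
    have hv' : v - (φ W v / φ W (l e)) • l e ∈ W :=
      sub_mem_of PW.ker hne (by rw [← hXe e he]; exact hv)
    rw [← hTv _ hv', aff_sub, aff_smul]
    have ha := aff_ne_zero En (hl e)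
    have hne' : kF k K F (φ W (l e)) ≠ 0 := by
      intro hh; exact hne (kF_inj (by rw [hh, map_zero]))
    have e1 : algebraMap K F (α e * algebraMap k K (φ W (l e))) =
        algebraMap K F (α e) * kF k K F (φ W (l e)) := by rw [map_mul]; rfl
    have e2 : algebraMap K F (α e * algebraMap k K (φ W v)) =
        algebraMap K F (α e) * kF k K F (φ W v) := by rw [map_mul]; rfl
    rw [e1, e2, map_div₀]
    field_simp
    ring

/-! ### the base case -/

lemma IsC.chain {j : ℕ} {W : Submodule k (Vec k N)} {c : F} (h : IsC En l α φ j W c) :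
    ∃ ch : Fin (j + 1) → Submodule k (Vec k N), ch 0 = W ∧ ch (Fin.last j) = ⊥ ∧
      (∀ a : Fin j, ∃ i, l i ∉ ch a.succ ∧
        ch a.castSucc = ch a.succ ⊔ Submodule.span k {l i}) ∧
      (∀ a, ∃ j' c', j' ≤ j ∧ IsC En l α φ j' (ch a) c') ∧
      c = ∏ a : Fin j, gam En l α φ (ch a.succ) (ch a.castSucc) := by
  induction h with
  | zero => exact ⟨fun _ => ⊥, rfl, rfl, fun a => a.elim0, fun a => ⟨0, 1, le_rfl, IsC.zero⟩,
      by simp⟩
  | @succ j W c i h hi ih =>
    obtain ⟨ch, h0, hb, hs, hC, hc⟩ := ih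
    refine ⟨Fin.cons (W ⊔ Submodule.span k {l i}) ch, rfl, ?_, ?_, ?_, ?_⟩
    · rw [← Fin.succ_last, Fin.cons_succ]; exact hb
    · intro a
      refine Fin.cases ?_ (fun a => ?_) a
      · refine ⟨i, ?_, ?_⟩
        · rw [Fin.cons_succ, h0]; exact hi
        · rw [Fin.cons_succ, h0]; rfl
      · obtain ⟨i', hi', he⟩ := hs a
        refine ⟨i', ?_, ?_⟩
        · rw [Fin.cons_succ]; exact hi'
        · rw [Fin.cons_succ, ← Fin.succ_castSucc, Fin.cons_succ]; exact he
    · intro a
      refine Fin.cases ?_ (fun a => ?_) a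
      · exact ⟨j + 1, _, le_rfl, IsC.succ i h hi⟩
      · obtain ⟨j', c', hj', hc'⟩ := hC a
        rw [Fin.cons_succ]
        exact ⟨j', c', by omega, hc'⟩
    · rw [Fin.prod_univ_succ, hc, mul_comm]
      congr 1
      rw [Fin.cons_succ, h0]; rfl

/-- the product of the functionals along a flag is a multiple of the determinant -/
lemma prod_phi (ch : Fin (N + 1) → Submodule k (Vec k N))
    (hch : ∀ a : Fin N, ch a.succ ≤ ch a.castSucc)
    (hP : ∀ a, Phi l φ (ch a)) :
    ∃ κ : k, ∀ v : Fin N → Vec k N, (∀ a, v a ∈ ch a.castSucc) →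
      ∏ a : Fin N, φ (ch a.succ) (v a) = κ * ldet le_rfl v := by
  have hanti : Antitone ch := Fin.antitone_iff_succ_le.2 hch
  have hidx : ∀ i : Fin N, N - (i : ℕ) < N + 1 := fun i => by omega
  let q : Fin N → Fin (N + 1) := fun i => ⟨N - (i : ℕ), hidx i⟩
  let Q : Matrix (Fin N) (Fin N) k := Matrix.of fun a i =>
    φ (ch a.succ) (Pi.single (q i) 1) - φ (ch 0) (Pi.single (q i) 1)
  refine ⟨Q.det, fun v hv => ?_⟩
  let Lm : Matrix (Fin N) (Fin N) k := Matrix.of fun b i => v b (q i)
  have hld : ldet le_rfl v = Lm.det := rfl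
  have hPhi : Q * Lm.transpose = Matrix.of fun a b => φ (ch a.succ) (v b) := by
    ext a b
    rw [Matrix.mul_apply]
    simp only [Matrix.transpose_apply, Matrix.of_apply, Q, Lm]
    have h1 := phi_expand (φ (ch a.succ)) (hP _).one (v b)
    have h2 := phi_expand (φ (ch 0)) (hP _).one (v b)
    have h3 : φ (ch 0) (v b) = 0 :=
      LinearMap.mem_ker.1 ((hP 0).ker (hanti (Fin.zero_le _) (hv b)))
    rw [h3] at h2
    have h4 : φ (ch a.succ) (v b) = ∑ i : Fin N, v b i.succ *
        (φ (ch a.succ) (Pi.single i.succ 1) - φ (ch 0) (Pi.single i.succ 1)) := by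
      rw [h1]
      simp only [mul_sub, Finset.sum_sub_distrib]
      linear_combination -h2
    rw [h4]
    refine Finset.sum_bij' (fun i _ => Fin.rev i) (fun i _ => Fin.rev i) (by simp) (by simp)
      (by simp) (by simp) ?_
    intro i _
    have : (Fin.rev i).succ = q i := by
      apply Fin.ext
      simp only [Fin.val_succ, Fin.val_rev, q]
      omega
    rw [this]; ring
  have htri : (Matrix.of fun a b => φ (ch a.succ) (v b) : Matrix (Fin N) (Fin N) k).BlockTriangular
      OrderDual.toDual := by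
    intro a b hab
    have hab' : a < b := hab
    simp only [Matrix.of_apply]
    refine LinearMap.mem_ker.1 ((hP _).ker (hanti ?_ (hv b)))
    rw [Fin.le_def, Fin.val_succ, Fin.val_castSucc]
    exact hab'
  have h5 := Matrix.det_of_isLowerTriangular _ htri
  simp only [Matrix.of_apply] at h5
  rw [← h5, ← hPhi, Matrix.det_mul, Matrix.det_transpose, hld]

open Classical in
lemma base_case {R : Subring K} (hk : ∀ c : k, algebraMap k K c ∈ R) {L : F →ₗ[K] K}
    (hΦ : ∀ j W c, IsC En l α φ j W c → j ≤ N → Phi l φ W)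
    (hflag : ∀ ch : Fin (N + 1) → Submodule k (Vec k N), ch (Fin.last N) = ⊥ →
      (∀ a : Fin N, ∃ i, l i ∉ ch a.succ ∧
        ch a.castSucc = ch a.succ ⊔ Submodule.span k {l i}) →
      ∑ e ∈ (Finset.univ : Finset (Fin N → ι)).filter
        (fun e => ∀ a, l (e a) ∈ ch a.castSucc ∧ l (e a) ∉ ch a.succ),
      (∏ a, α (e a)) * L (En.logf le_rfl (l ∘ e)) ∈ R)
    {W : Submodule k (Vec k N)} {c : F} (h : IsC En l α φ N W c) : L c ∈ R := by
  obtain ⟨ch, h0, hb, hs, hC, hc⟩ := h.chain
  have hP : ∀ a, Phi l φ (ch a) := fun a => by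
    obtain ⟨j', c', hj', hc'⟩ := hC a
    exact hΦ _ _ _ hc' hj'
  have hle : ∀ a : Fin N, ch a.succ ≤ ch a.castSucc := fun a => by
    obtain ⟨i, _, he⟩ := hs a
    rw [he]; exact le_sup_left
  obtain ⟨κ, hκ⟩ := prod_phi ch hle hP
  have hf := hflag ch hb hs
  have key : L c = algebraMap k K κ * ∑ e ∈ (Finset.univ : Finset (Fin N → ι)).filter
        (fun e => ∀ a, l (e a) ∈ ch a.castSucc ∧ l (e a) ∉ ch a.succ),
      (∏ a, α (e a)) * L (En.logf le_rfl (l ∘ e)) := by
    rw [hc]
    unfold gam
    rw [Finset.prod_univ_sum, Fintype.piFinset_univ, map_sum, Finset.mul_sum, Finset.sum_filter]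
    refine Finset.sum_congr rfl fun e _ => ?_
    rw [Finset.prod_ite_zero]
    by_cases he : ∀ a, l (e a) ∈ ch a.castSucc ∧ l (e a) ∉ ch a.succ
    · rw [if_pos (fun a _ => he a), if_pos he]
      have h1 := hκ (l ∘ e) (fun a => (he a).1)
      have h2 : ∏ a : Fin N, (algebraMap K F (α (e a) * algebraMap k K (φ (ch a.succ) (l (e a)))) *
          (En.aff (l (e a)))⁻¹) =
          ((∏ a, α (e a)) * algebraMap k K κ) • En.logf le_rfl (l ∘ e) := by
        unfold Env.logf
        rw [Finset.prod_mul_distrib, ← map_prod, Finset.prod_mul_distrib, ← map_prod]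
        simp only [Function.comp_apply] at h1
        rw [h1, Algebra.smul_def]
        simp only [map_mul, Function.comp_apply]
        ring
      rw [h2, map_smul, smul_eq_mul]
      ring
    · rw [if_neg (fun hh => he fun a => hh a (Finset.mem_univ a)), if_neg he, map_zero]
  rw [key]
  exact mul_mem (hk _) hf

end Flag

open Classical in
/-- **Module D** -/
theorem integral [CharZero k] {ι : Type} [Fintype ι] (En : Env K F N) (l : ι → Vec k N)
    (hl : ∀ i, l i ≠ 0)
    (hgen : ∀ s : Set ι, Submodule.span k (l '' s) ≠ ⊤ →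
      e0 k N ∉ Submodule.span k (l '' s))
    (R : Subring K) (hk : ∀ c : k, algebraMap k K c ∈ R)
    (α : ι → K) (hα : ∀ i, α i ∈ R)
    (hunit : ∀ m : ℕ, 1 ≤ m → ∃ u ∈ R, u * ((m : K) + ∑ i, α i) = 1)
    (L : F →ₗ[K] K)
    (hL : ∀ (i : Fin N), ∀ s ∈ Algebra.adjoin K (Set.range En.y ∪
        Set.range (fun e => (En.aff (l e))⁻¹)),
      L (En.D i s) = - ∑ e, α e * (algebraMap k K (l e i.succ)) * L (s * (En.aff (l e))⁻¹))
    (hflag : ∀ ch : Fin (N + 1) → Submodule k (Vec k N), ch (Fin.last N) = ⊥ →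
      (∀ a : Fin N, ∃ i, l i ∉ ch a.succ ∧
        ch a.castSucc = ch a.succ ⊔ Submodule.span k {l i}) →
      ∑ e ∈ (Finset.univ : Finset (Fin N → ι)).filter
        (fun e => ∀ a, l (e a) ∈ ch a.castSucc ∧ l (e a) ∉ ch a.succ),
      (∏ a, α (e a)) * L (En.logf le_rfl (l ∘ e)) ∈ R) :
    ∀ (m : ℕ) (g : Fin m → Vec k N), L (∏ a, En.aff (g a)) ∈ R := by
  have hex : ∀ W : Submodule k (Vec k N), ∃ ψ : Vec k N →ₗ[k] k, e0 k N ∉ W →
      (ψ (e0 k N) = 1 ∧ W ≤ LinearMap.ker ψ ∧ ∀ i, l i ∉ W → ψ (l i) ≠ 0) := by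
    intro W
    by_cases hW : e0 k N ∈ W
    · exact ⟨0, fun hh => absurd hW hh⟩
    · obtain ⟨ψ, hψ⟩ := exists_phi l W hW
      exact ⟨ψ, fun _ => hψ⟩
  choose φ hφ using hex
  have hΦ : ∀ j W c, IsC En l α φ j W c → j ≤ N → Phi l φ W := by
    intro j W c h hj
    have hW : W = Submodule.span k (l '' {i | l i ∈ W}) := by
      refine le_antisymm h.flat ?_
      rw [Submodule.span_le]
      rintro _ ⟨i, hi, rfl⟩
      exact hi
    have hne : e0 k N ∉ W := by
      rw [hW]
      apply hgen
      rw [← hW]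
      intro htop
      have := h.finrank
      rw [htop, finrank_top, Module.finrank_fin_fun] at this
      omega
    obtain ⟨h1, h2, h3⟩ := hφ W hne
    exact ⟨h1, h2, h3⟩
  have hGG : ∀ (m : ℕ) (c : F), (∀ g, IsG k En m g → L (g * c) ∈ R) →
      ∀ g ∈ GG k En m, L (g * c) ∈ R := by
    intro m c hc g hg
    unfold GG at hg
    induction hg using AddSubgroup.closure_induction with
    | mem x hx => exact hc x hx
    | zero => rw [zero_mul, map_zero]; exact zero_mem _
    | add x y _ _ hx hy => rw [add_mul, map_add]; exact add_mem hx hy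
    | neg x _ hx => rw [neg_mul, map_neg]; exact neg_mem hx
  have hLk : ∀ (c : k) (g : F), L (kF k K F c * g) = algebraMap k K c * L g := fun c g => by
    have : kF k K F c * g = (algebraMap k K c) • g := by rw [Algebra.smul_def]; rfl
    rw [this, map_smul, smul_eq_mul]
  have hLK : ∀ (c : K) (g : F), L (algebraMap K F c * g) = c * L g := fun c g => by
    rw [← Algebra.smul_def, map_smul, smul_eq_mul]
  -- the statement
  have main : ∀ D : ℕ, ∀ j m : ℕ, j ≤ N → N - j + m = D → ∀ W c g, IsC En l α φ j W c →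
      IsG k En m g → L (g * c) ∈ R := by
    intro D
    induction D with
    | zero =>
      intro j m hj hD W c g hc hg
      have hjN : j = N := by omega
      have hm : m = 0 := by omega
      subst hjN; subst hm
      cases hg with
      | const c0 =>
        rw [hLk]
        exact mul_mem (hk _) (base_case hk hΦ hflag hc)
    | succ D ih =>
      have h1 : ∀ j m : ℕ, j < N → N - j + m = D + 1 → ∀ W c g, IsC En l α φ j W c →
          IsG k En m g → L (g * c) ∈ R := by
        intro j m hj hD W c g hc hg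
        have PW := hΦ j W c hc hj.le
        have hmem : g * c ∈ Rg En l := mul_mem hg.mem hc.mem
        have he := euler_step hl hL (φ W) PW.one (g * c) hmem
        -- right hand side
        have hR : ∑ e, α e * algebraMap k K (φ W (l e)) * L (g * c * (En.aff (l e))⁻¹) ∈ R := by
          have hz : ∑ e, α e * algebraMap k K (φ W (l e)) * L (g * c * (En.aff (l e))⁻¹) =
              ∑ e ∈ Finset.univ.filter (fun e => l e ∉ W),
                α e * algebraMap k K (φ W (l e)) * L (g * c * (En.aff (l e))⁻¹) := by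
            rw [Finset.sum_filter]
            refine Finset.sum_congr rfl fun e _ => ?_
            by_cases h : l e ∈ W
            · rw [if_neg (not_not.2 h), LinearMap.mem_ker.1 (PW.ker h)]; simp
            · rw [if_pos h]
          rw [hz]
          obtain ⟨S, hS, hsum⟩ := sum_covers (M := K) l W
            (Finset.univ.filter (fun e => l e ∉ W)) (fun e he' => (Finset.mem_filter.1 he').2)
          rw [hsum]
          refine sum_mem fun W' hW' => ?_
          obtain ⟨i, _, hi, rfl⟩ := hS W' hW'
          have h2 := ih (j + 1) m (by omega) (by omega) _ _ g (IsC.succ i hc hi) hg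
          have h3 : L (g * (c * gam En l α φ W (W ⊔ Submodule.span k {l i}))) =
              ∑ e ∈ Finset.univ.filter (fun e => l e ∉ W),
                if l e ∈ W ⊔ Submodule.span k {l i} then
                  α e * algebraMap k K (φ W (l e)) * L (g * c * (En.aff (l e))⁻¹) else 0 := by
            unfold gam
            rw [Finset.mul_sum, Finset.mul_sum, map_sum, Finset.sum_filter]
            refine Finset.sum_congr rfl fun e _ => ?_
            by_cases ha : l e ∈ W
            · rw [if_neg (fun hh => hh.2 ha), if_neg (not_not.2 ha), mul_zero, mul_zero, map_zero]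
            · rw [if_pos ha]
              by_cases hb : l e ∈ W ⊔ Submodule.span k {l i}
              · rw [if_pos ⟨hb, ha⟩, if_pos hb, ← hLK]
                congr 1; ring
              · rw [if_neg (fun hh => hb hh.1), if_neg hb, mul_zero, mul_zero, map_zero]
          rw [← h3]
          exact h2
        -- left hand side
        obtain ⟨u, hu, hu1⟩ := hunit (N - j + m) (by omega)
        have hcast : ((N - j + m : ℕ) : K) = (N : K) - j + m := by
          push_cast [Nat.cast_sub hj.le]; ring
        rw [hcast] at hu1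
        have hsol : ∀ x ∈ R, ((N : K) - j + m + ∑ i, α i) * L (g * c) = x → L (g * c) ∈ R := by
          intro x hx hxe
          have : L (g * c) = u * x := by
            rw [← hxe, ← mul_assoc, hu1, one_mul]
          rw [this]
          exact mul_mem hu hx
        have hcE := hc.eul (φ W) PW.one PW.ker
        rcases eul_G En (φ W) PW.one hg with ⟨hm, hgE⟩ | ⟨m', hm, g', hg', hgE⟩
        · have h4 : (N : F) * (g * c) + eul En (φ W) (g * c) =
              algebraMap K F ((N : K) - j) * (g * c) := by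
            rw [Derivation.leibniz, hcE, hgE]
            simp only [smul_eq_mul, map_sub, map_natCast]
            ring
          rw [h4, hLK] at he
          refine hsol _ hR ?_
          rw [← he, hm]; push_cast; ring
        · have h4 : (N : F) * (g * c) + eul En (φ W) (g * c) =
              algebraMap K F ((N : K) - j + m) * (g * c) - g' * c := by
            rw [Derivation.leibniz, hcE, hgE]
            simp only [smul_eq_mul, map_sub, map_add, map_natCast]
            ring
          rw [h4, map_sub, hLK] at he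
          have h5 : L (g' * c) ∈ R := hGG m' c (fun g1 hg1 =>
            ih j m' hj.le (by omega) W c g1 hc hg1) g' hg'
          refine hsol _ (add_mem hR h5) ?_
          rw [← he]; ring
      intro j m hj hD W c g hc hg
      by_cases hjN : j < N
      · exact h1 j m hjN hD W c g hc hg
      · have hjN' : j = N := by omega
        subst hjN'
        have hm : m = D + 1 := by omega
        subst hm
        cases hg with
        | @mul _ g v hg =>
          have PW := hΦ j W c hc le_rfl
          -- v = φ(v) e0 + v'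
          set v' := v - φ W v • e0 k j with hv'
          have hv'ker : φ W v' = 0 := by
            rw [hv', map_sub, map_smul, PW.one]; simp
          have hWker : W = LinearMap.ker (φ W) := by
            apply Submodule.eq_of_le_of_finrank_eq PW.ker
            rw [hc.finrank]
            have hsurj : LinearMap.range (φ W) = ⊤ := by
              rw [LinearMap.range_eq_top]
              intro x
              exact ⟨x • e0 k j, by rw [map_smul, PW.one]; simp⟩
            have := LinearMap.finrank_range_add_finrank_ker (φ W)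
            rw [hsurj, finrank_top, Module.finrank_self, Module.finrank_fin_fun] at this
            omega
          have hv'W : v' ∈ W := by rw [hWker]; exact hv'ker
          have haff : En.aff v = kF k K F (φ W v) + En.aff v' := by
            rw [hv', aff_sub, aff_smul, aff_e0]; ring
          obtain ⟨T, hT, hTv⟩ := rho_lemma hk hα hl hΦ hc le_rfl
          rw [haff, add_mul, add_mul, map_add]
          refine add_mem ?_ ?_
          · rw [mul_assoc, hLk]
            exact mul_mem (hk _) (ih j D le_rfl (by omega) W c g hc hg)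
          · have h2 : En.aff v' * g * c = g * T v' := by rw [← hTv v' hv'W]; ring
            rw [h2]
            unfold TT at hT
            clear h2 hTv
            induction hT using AddSubgroup.closure_induction with
            | mem T hT =>
              obtain ⟨j', G, cG, ρ, hj', hG, hGW, hρ, rfl⟩ := hT
              have h3 : g * (algebraMap K F (ρ * algebraMap k K (φ G v')) * cG) =
                  algebraMap K F (ρ * algebraMap k K (φ G v')) * (g * cG) := by ring
              rw [h3, hLK]
              refine mul_mem (mul_mem hρ (hk _)) ?_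
              exact h1 j' D (by omega) (by omega) G cG g hG hg
            | zero => rw [Pi.zero_apply, mul_zero, map_zero]; exact zero_mem _
            | add x y _ _ hx hy => rw [Pi.add_apply, mul_add, map_add]; exact add_mem hx hy
            | neg x _ hx => rw [Pi.neg_apply, mul_neg, map_neg]; exact neg_mem hx
  intro m g
  have := main (N + m) 0 m (Nat.zero_le _) (by omega) ⊥ 1 (∏ a, En.aff (g a)) IsC.zero
    (isG_prod En m g)
  rwa [mul_one] at this

end Pool.Agent.helper31.NDD

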