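import Mathlib
import Pool.Agent.helper67.ND.C3a

/-!
Module C2 of the `n/d` project of helper67: inheritance of commutation and non-resonance.
-/

set_option linter.unusedSectionVars false

namespace Pool.Agent.helper31.NDC

open scoped BigOperators
open Pool.Agent.helper67.ND

variable {k K : Type} [Field k] [Field K] {N : ℕ} {U : Type} [AddCommGroup U] [Module K U]

/-- proportionality -/
def PP (v w l : Vec k N) : Prop := ∃ c : k, c ≠ 0 ∧ v - w = c • l

lemma PP.symm {v w l : Vec k N} (h : PP v w l) : PP w v l := by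
  obtain ⟨c, hc, h⟩ := h
  exact ⟨-c, neg_ne_zero.2 hc, by rw [neg_smul, ← h]; abel⟩

lemma PP_comm {v w l : Vec k N} : PP v w l ↔ PP w v l := ⟨PP.symm, PP.symm⟩

lemma sub_mem_Lv {j : ℕ} (hj : j + 1 < N + 1) {v w : Vec k N} (hv : IsLvl v ⟨j + 1, hj⟩)
    (hw : IsLvl w ⟨j + 1, hj⟩) : v - w ∈ Lv k N j := by
  intro m hm
  rw [Pi.sub_apply]
  rcases lt_or_eq_of_le (Nat.succ_le_of_lt hm) with h | h
  · rw [hv.2 m (Fin.lt_def.2 h), hw.2 m (Fin.lt_def.2 h), sub_zero]
  · have : m = ⟨j + 1, hj⟩ := Fin.ext h.symm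
    rw [this, hv.1, hw.1, sub_self]

/-- normalised vectors which are proportional are equal -/
lemma eq_of_smul {H : Finset (Vec k N)} (hH : Tower H) {l l' : Vec k N} (hl : l ∈ H)
    (hl' : l' ∈ H) {c c' : k} (hc : c ≠ 0) (hc' : c' ≠ 0) (h : c • l = c' • l') : l = l' := by
  obtain ⟨m, hm⟩ := hH.lvl l hl
  obtain ⟨m', hm'⟩ := hH.lvl l' hl'
  have hmm : m = m' := by
    rcases lt_trichotomy m m' with h1 | h1 | h1
    · have := congrFun h m'
      simp only [Pi.smul_apply, smul_eq_mul, hm.2 _ h1, hm'.1, mul_zero, mul_one] at this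
      exact absurd this.symm hc'
    · exact h1
    · have := congrFun h m
      simp only [Pi.smul_apply, smul_eq_mul, hm'.2 _ h1, hm.1, mul_zero, mul_one] at this
      exact absurd this hc
  subst hmm
  have h2 := congrFun h m
  simp only [Pi.smul_apply, smul_eq_mul, hm.1, hm'.1, mul_one] at h2
  rw [← h2] at h
  exact smul_right_injective _ hc h

/-- the subspace attached to `v` and `W` -/
def WW (j : ℕ) (W : Submodule k (Vec k N)) (v : Vec k N) : Submodule k (Vec k N) :=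
  (W ⊓ Lv k N j) ⊔ Submodule.span k {v}

lemma self_mem_WW (j : ℕ) (W : Submodule k (Vec k N)) (v : Vec k N) : v ∈ WW j W v :=
  Submodule.mem_sup_right (Submodule.mem_span_singleton_self _)

lemma mem_WW_of_low {j : ℕ} {W : Submodule k (Vec k N)} {v w : Vec k N} (hw : w ∈ Lv k N j)
    (hW : w ∈ W) : w ∈ WW j W v :=
  Submodule.mem_sup_left ⟨hW, hw⟩

lemma mem_WW_low {j : ℕ} (hj : j + 1 < N + 1) {W : Submodule k (Vec k N)} {v w : Vec k N}
    (hv : IsLvl v ⟨j + 1, hj⟩) (hw : w ∈ Lv k N j) : w ∈ WW j W v ↔ w ∈ W := by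
  refine ⟨fun h => ?_, mem_WW_of_low hw⟩
  unfold WW at h
  rw [Submodule.mem_sup] at h
  obtain ⟨a, ha, z, hz, haz⟩ := h
  rw [Submodule.mem_span_singleton] at hz
  obtain ⟨c, hc⟩ := hz
  have h1 := congrFun haz ⟨j + 1, hj⟩
  rw [← hc, Pi.add_apply, Pi.smul_apply, hv.1, ha.2 ⟨j + 1, hj⟩ (Nat.lt_succ_self j),
    hw ⟨j + 1, hj⟩ (Nat.lt_succ_self j)] at h1
  have hc0 : c = 0 := by simpa using h1
  rw [← haz, ← hc, hc0, zero_smul, add_zero]
  exact ha.1

lemma mem_WW_top {j : ℕ} (hj : j + 1 < N + 1) {W : Submodule k (Vec k N)} {v w : Vec k N}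
    (hv : IsLvl v ⟨j + 1, hj⟩) (hw : IsLvl w ⟨j + 1, hj⟩) : w ∈ WW j W v ↔ v - w ∈ W := by
  constructor
  · intro h
    unfold WW at h
    rw [Submodule.mem_sup] at h
    obtain ⟨a, ha, z, hz, haz⟩ := h
    rw [Submodule.mem_span_singleton] at hz
    obtain ⟨c, hc⟩ := hz
    have h1 := congrFun haz ⟨j + 1, hj⟩
    rw [← hc, Pi.add_apply, Pi.smul_apply, hv.1, ha.2 ⟨j + 1, hj⟩ (Nat.lt_succ_self j),
      hw.1] at h1
    have hc1 : c = 1 := by simpa using h1
    have : v - w = -a := by rw [← haz, ← hc, hc1, one_smul]; abel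
    rw [this]; exact neg_mem ha.1
  · intro h
    have : w = -(v - w) + v := by abel
    rw [this]
    exact add_mem (neg_mem (mem_WW_of_low (sub_mem_Lv hj hv hw) h)) (self_mem_WW j W v)

/-- equivalent vectors have the same subspace -/
lemma WW_eq {j : ℕ} (hj : j + 1 < N + 1) {W : Submodule k (Vec k N)} {v w : Vec k N}
    (hv : IsLvl v ⟨j + 1, hj⟩) (hw : IsLvl w ⟨j + 1, hj⟩) (h : v - w ∈ W) :
    WW j W w = WW j W v := by
  have h1 : w ∈ WW j W v := (mem_WW_top hj hv hw).2 h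
  have h2 : v ∈ WW j W w := (mem_WW_top hj hw hv).2 (by
    have : w - v = -(v - w) := by abel
    rw [this]; exact neg_mem h)
  apply le_antisymm
  · exact sup_le le_sup_left ((Submodule.span_singleton_le_iff_mem _ _).2 h1)
  · exact sup_le le_sup_left ((Submodule.span_singleton_le_iff_mem _ _).2 h2)

/-- the sum of the operators in a subspace -/
noncomputable def BS (H : Finset (Vec k N)) (B : Vec k N → Module.End K U)
    (W : Submodule k (Vec k N)) : Module.End K U := ∑ w ∈ inW H W, B w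

open Classical in
lemma sum_inW_inf {M : Type} [AddCommMonoid M] (H : Finset (Vec k N))
    (A W : Submodule k (Vec k N)) (f : Vec k N → M) :
    ∑ w ∈ inW H (A ⊓ W), f w = ∑ w ∈ inW H A, if w ∈ W then f w else 0 := by
  rw [← Finset.sum_filter]
  refine Finset.sum_congr ?_ fun _ _ => rfl
  ext w
  rw [Finset.mem_filter, mem_inW, mem_inW, Submodule.mem_inf]
  tauto

open Classical in
/-- the split -/
lemma split {H : Finset (Vec k N)} (hH : Tower H) {j : ℕ} (hj : j + 1 < N + 1)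
    {M : Type} [AddCommMonoid M] (f : Vec k N → M) (W : Submodule k (Vec k N)) (v : Vec k N)
    (hv : IsLvl v ⟨j + 1, hj⟩) :
    ∑ w ∈ inW H (Lv k N (j + 1) ⊓ WW j W v), f w =
      ∑ l ∈ inW H (Lv k N j ⊓ W), f l +
        ∑ w : Top H ⟨j + 1, hj⟩, if v - w.1 ∈ W then f w.1 else 0 := by
  rw [sum_inW_inf, sum_inW_inf, sum_inW_succ hH hj]
  congr 1
  · refine Finset.sum_congr rfl fun w hw => ?_
    rw [if_congr (mem_WW_low hj hv (mem_inW.1 hw).2) rfl rfl]
  · refine Finset.sum_congr rfl fun w _ => ?_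
    rw [if_congr (mem_WW_top hj hv w.2.2) rfl rfl]

open Classical in
/-- partial sums -/
noncomputable def sg (H : Finset (Vec k N)) (J : Fin (N + 1)) (B : Vec k N → Module.End K U)
    (W : Submodule k (Vec k N)) (v : Vec k N) (x : Top H J → U) : U :=
  ∑ w : Top H J, if v - w.1 ∈ W then B w.1 (x w) else 0

lemma Bp_apply (H : Finset (Vec k N)) (J : Fin (N + 1)) (B : Vec k N → Module.End K U)
    (l : Vec k N) (x : Top H J → U) (v : Top H J) :
    Bp H J B l x v = B l (x v) +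
      ∑ w : Top H J, (open Classical in if PP v.1 w.1 l then B w.1 (x v - x w) else 0) := rfl

open Classical in
/-- the sum of the operators `Bp l`, `l ∈ W` -/
lemma sum_Bp {H : Finset (Vec k N)} (hH : Tower H) {j : ℕ} (hj : j + 1 < N + 1)
    (B : Vec k N → Module.End K U) (W : Submodule k (Vec k N))
    (x : Top H ⟨j + 1, hj⟩ → U) (v : Top H ⟨j + 1, hj⟩) :
    ∑ l ∈ inW H (Lv k N j ⊓ W), Bp H ⟨j + 1, hj⟩ B l x v =
      BS H B (Lv k N (j + 1) ⊓ WW j W v.1) (x v) - sg H ⟨j + 1, hj⟩ B W v.1 x := by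
  have hswap : ∑ l ∈ inW H (Lv k N j ⊓ W), ∑ w : Top H ⟨j + 1, hj⟩,
      (if PP v.1 w.1 l then B w.1 (x v - x w) else 0) =
      ∑ w : Top H ⟨j + 1, hj⟩, if v.1 - w.1 ∈ W then B w.1 (x v - x w) else 0 := by
    rw [Finset.sum_comm]
    refine Finset.sum_congr rfl fun w _ => ?_
    by_cases hvw : v = w
    · subst hvw
      have : (if v.1 - v.1 ∈ W then B v.1 (x v - x v) else 0) = 0 := by
        rw [sub_self (x v), map_zero, ite_self]
      rw [this]
      refine Finset.sum_eq_zero fun l _ => ?_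
      rw [sub_self, map_zero, ite_self]
    · have hne : v.1 ≠ w.1 := fun h => hvw (Subtype.ext h)
      obtain ⟨l, hl, c, hc, hlc⟩ := hH.closed v.1 v.2.1 w.1 w.2.1 _ v.2.2 w.2.2 hne
      by_cases hW : v.1 - w.1 ∈ W
      · rw [if_pos hW]
        have hlm : l = c⁻¹ • (v.1 - w.1) := by rw [hlc, smul_smul, inv_mul_cancel₀ hc, one_smul]
        have hlW : l ∈ inW H (Lv k N j ⊓ W) := by
          rw [mem_inW]
          refine ⟨hl, ?_, ?_⟩
          · rw [hlm]; exact Submodule.smul_mem _ _ (sub_mem_Lv hj v.2.2 w.2.2)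
          · rw [hlm]; exact Submodule.smul_mem _ _ hW
        rw [Finset.sum_eq_single l]
        · rw [if_pos ⟨c, hc, hlc⟩]
        · intro l' hl' hne'
          rw [if_neg]
          rintro ⟨c', hc', hlc'⟩
          exact hne' (eq_of_smul hH (mem_inW.1 hl').1 hl hc' hc (by rw [← hlc', ← hlc]))
        · intro h; exact absurd hlW h
      · rw [if_neg hW]
        refine Finset.sum_eq_zero fun l' hl' => ?_
        rw [if_neg]
        rintro ⟨c', hc', hlc'⟩
        apply hW
        rw [hlc']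
        exact Submodule.smul_mem _ _ (mem_inW.1 hl').2.2
  have h1 : ∑ l ∈ inW H (Lv k N j ⊓ W), Bp H ⟨j + 1, hj⟩ B l x v =
      ∑ l ∈ inW H (Lv k N j ⊓ W), B l (x v) +
        ∑ w : Top H ⟨j + 1, hj⟩, if v.1 - w.1 ∈ W then B w.1 (x v - x w) else 0 := by
    rw [← hswap, ← Finset.sum_add_distrib]
    rfl
  rw [h1]
  unfold BS sg
  rw [LinearMap.sum_apply, split hH hj (fun w => B w (x v)) W v.1 v.2.2, add_sub_assoc,
    ← Finset.sum_sub_distrib]
  congr 1
  refine Finset.sum_congr rfl fun w _ => ?_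
  split_ifs
  · rw [map_sub]
  · rw [sub_zero]

lemma low_span {H : Finset (Vec k N)} (hH : Tower H) {j : ℕ} {l : Vec k N}
    (hl : l ∈ inW H (Lv k N j)) : inW H (Lv k N j ⊓ Submodule.span k {l}) = {l} := by
  ext l'
  rw [mem_inW, Finset.mem_singleton]
  constructor
  · rintro ⟨h1, h2, h3⟩
    obtain ⟨c, hc⟩ := Submodule.mem_span_singleton.1 h3
    have hc0 : c ≠ 0 := by
      rintro rfl
      rw [zero_smul] at hc
      exact hH.ne_zero h1 hc.symm
    exact eq_of_smul hH h1 (mem_inW.1 hl).1 one_ne_zero hc0 (by rw [one_smul, hc])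
  · rintro rfl
    exact ⟨(mem_inW.1 hl).1, (mem_inW.1 hl).2, Submodule.mem_span_singleton_self _⟩

open Classical in
/-- the basic commutation relation -/
lemma comm_rel {H : Finset (Vec k N)} (hH : Tower H) {j : ℕ} (hj : j + 1 < N + 1)
    {B : Vec k N → Module.End K U} (hB : Good H (j + 1) B) {l : Vec k N}
    (hl : l ∈ inW H (Lv k N j)) (v : Top H ⟨j + 1, hj⟩) (y : U) :
    B v.1 (B l y) + ∑ w : Top H ⟨j + 1, hj⟩, (if PP v.1 w.1 l then B v.1 (B w.1 y) else 0) =
      B l (B v.1 y) + ∑ w : Top H ⟨j + 1, hj⟩, (if PP v.1 w.1 l then B w.1 (B v.1 y) else 0) := by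
  have hvin : v.1 ∈ inW H (Lv k N (j + 1)) := (mem_inW_succ hH hj).2 (Or.inr v.2)
  have hc := hB.comm (WW j (Submodule.span k {l}) v.1) v.1 hvin (self_mem_WW _ _ _)
  have hlne : l ≠ 0 := hH.ne_zero (mem_inW.1 hl).1
  have hsum : ∀ z : U, (∑ w ∈ inW H (Lv k N (j + 1) ⊓ WW j (Submodule.span k {l}) v.1), B w) z =
      B l z + B v.1 z + ∑ w : Top H ⟨j + 1, hj⟩, (if PP v.1 w.1 l then B w.1 z else 0) := by
    intro z
    rw [LinearMap.sum_apply, split hH hj (fun w => B w z) _ v.1 v.2.2, low_span hH hl,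
      Finset.sum_singleton, add_assoc]
    congr 1
    rw [← Finset.add_sum_erase _ _ (Finset.mem_univ v),
      ← Finset.add_sum_erase (a := v) Finset.univ
        (fun w : Top H ⟨j + 1, hj⟩ => if PP v.1 w.1 l then B w.1 z else 0) (Finset.mem_univ v)]
    rw [if_pos (by rw [sub_self]; exact zero_mem _)]
    have h0 : ¬ PP v.1 v.1 l := by
      rintro ⟨c, hc, h⟩
      rw [sub_self] at h
      rcases smul_eq_zero.1 h.symm with h | h
      · exact hc h
      · exact hlne h
    rw [if_neg h0, zero_add]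
    congr 1
    refine Finset.sum_congr rfl fun w hw => ?_
    have hne : v.1 ≠ w.1 := fun h => (Finset.mem_erase.1 hw).1 (Subtype.ext h.symm)
    refine if_congr ?_ rfl rfl
    rw [Submodule.mem_span_singleton]
    constructor
    · rintro ⟨c, hc⟩
      refine ⟨c, ?_, hc.symm⟩
      rintro rfl
      rw [zero_smul] at hc
      exact hne (sub_eq_zero.1 hc.symm)
    · rintro ⟨c, _, hc⟩
      exact ⟨c, hc.symm⟩
  have h2 := LinearMap.congr_fun hc.eq y
  rw [Module.End.mul_apply, Module.End.mul_apply, hsum, hsum, map_add, map_add, map_sum] at h2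
  have h3 : ∀ w : Top H ⟨j + 1, hj⟩, B v.1 (if PP v.1 w.1 l then B w.1 y else 0) =
      if PP v.1 w.1 l then B v.1 (B w.1 y) else 0 := fun w => by
    split_ifs
    · rfl
    · rw [map_zero]
  simp only [h3] at h2
  have h4 : B v.1 (B l y) + B v.1 (B v.1 y) +
      ∑ w : Top H ⟨j + 1, hj⟩, (if PP v.1 w.1 l then B v.1 (B w.1 y) else 0) =
      (B v.1 (B l y) + ∑ w : Top H ⟨j + 1, hj⟩,
        (if PP v.1 w.1 l then B v.1 (B w.1 y) else 0)) + B v.1 (B v.1 y) := by abel
  have h5 : B l (B v.1 y) + B v.1 (B v.1 y) +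
      ∑ w : Top H ⟨j + 1, hj⟩, (if PP v.1 w.1 l then B w.1 (B v.1 y) else 0) =
      (B l (B v.1 y) + ∑ w : Top H ⟨j + 1, hj⟩,
        (if PP v.1 w.1 l then B w.1 (B v.1 y) else 0)) + B v.1 (B v.1 y) := by abel
  rw [h4, h5] at h2
  exact add_right_cancel h2

open Classical in
/-- `B l` commutes with partial sums over classes -/
lemma sum_B_Bp {H : Finset (Vec k N)} (hH : Tower H) {j : ℕ} (hj : j + 1 < N + 1)
    {B : Vec k N → Module.End K U} (hB : Good H (j + 1) B) {l : Vec k N}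
    (hl : l ∈ inW H (Lv k N j)) (S : Top H ⟨j + 1, hj⟩ → Prop)
    (hS : ∀ v w, PP v.1 w.1 l → (S v ↔ S w)) (x : Top H ⟨j + 1, hj⟩ → U) :
    ∑ v : Top H ⟨j + 1, hj⟩, (if S v then B v.1 (Bp H ⟨j + 1, hj⟩ B l x v) else 0) =
      B l (∑ v : Top H ⟨j + 1, hj⟩, if S v then B v.1 (x v) else 0) := by
  have e1 : ∀ v : Top H ⟨j + 1, hj⟩, (if S v then B v.1 (Bp H ⟨j + 1, hj⟩ B l x v) else 0) =
      (if S v then (B v.1 (B l (x v)) + ∑ w : Top H ⟨j + 1, hj⟩,
        (if PP v.1 w.1 l then B v.1 (B w.1 (x v)) else 0)) else 0) -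
      ∑ w : Top H ⟨j + 1, hj⟩, (if S v ∧ PP v.1 w.1 l then B v.1 (B w.1 (x w)) else 0) := by
    intro v
    by_cases h : S v
    · rw [if_pos h, if_pos h, Bp_apply, map_add, map_sum, add_sub_assoc, ← Finset.sum_sub_distrib]
      congr 1
      refine Finset.sum_congr rfl fun w _ => ?_
      by_cases h2 : PP v.1 w.1 l
      · rw [if_pos h2, if_pos h2, if_pos ⟨h, h2⟩, map_sub, map_sub]
      · rw [if_neg h2, if_neg h2, if_neg (fun hh => h2 hh.2), map_zero, sub_zero]
    · rw [if_neg h, if_neg h, zero_sub]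
      rw [eq_comm, neg_eq_zero]
      refine Finset.sum_eq_zero fun w _ => ?_
      rw [if_neg (fun hh => h hh.1)]
  have e2 : ∑ v : Top H ⟨j + 1, hj⟩, ∑ w : Top H ⟨j + 1, hj⟩,
      (if S v ∧ PP v.1 w.1 l then B v.1 (B w.1 (x w)) else 0) =
      ∑ v : Top H ⟨j + 1, hj⟩, if S v then ∑ w : Top H ⟨j + 1, hj⟩,
        (if PP v.1 w.1 l then B w.1 (B v.1 (x v)) else 0) else 0 := by
    rw [Finset.sum_comm]
    refine Finset.sum_congr rfl fun v _ => ?_
    by_cases h : S v
    · rw [if_pos h]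
      refine Finset.sum_congr rfl fun w _ => ?_
      refine if_congr ?_ rfl rfl
      constructor
      · rintro ⟨_, h2⟩; exact h2.symm
      · intro h2; exact ⟨(hS _ _ h2).1 h, h2.symm⟩
    · rw [if_neg h]
      refine Finset.sum_eq_zero fun w _ => ?_
      rw [if_neg]
      rintro ⟨h1, h2⟩
      exact h ((hS _ _ h2).1 h1)
  rw [Finset.sum_congr rfl fun v _ => e1 v, Finset.sum_sub_distrib, e2, ← Finset.sum_sub_distrib,
    map_sum]
  refine Finset.sum_congr rfl fun v _ => ?_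
  by_cases h : S v
  · rw [if_pos h, if_pos h, if_pos h, comm_rel hH hj hB hl v (x v)]
    abel
  · rw [if_neg h, if_neg h, if_neg h, map_zero, sub_zero]

lemma mem_Uker {H : Finset (Vec k N)} {J : Fin (N + 1)} {B : Vec k N → Module.End K U}
    {x : Top H J → U} : x ∈ Uker H J B ↔ ∑ v : Top H J, B v.1 (x v) = 0 := by
  unfold Uker
  rw [LinearMap.mem_ker, LinearMap.sum_apply]
  rfl

theorem Bp_mem (H : Finset (Vec k N)) (hH : Tower H) (j : ℕ) (hj : j + 1 < N + 1)
    (B : Vec k N → Module.End K U) (hB : Good H (j + 1) B) (l : Vec k N)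
    (hl : l ∈ inW H (Lv k N j)) :
    ∀ x ∈ Uker H ⟨j + 1, hj⟩ B, Bp H ⟨j + 1, hj⟩ B l x ∈ Uker H ⟨j + 1, hj⟩ B := by
  classical
  intro x hx
  rw [mem_Uker] at hx ⊢
  have := sum_B_Bp hH hj hB hl (fun _ => True) (fun _ _ _ => Iff.rfl) x
  simp only [if_true] at this
  rw [this, hx, map_zero]

lemma sg_Bp {H : Finset (Vec k N)} (hH : Tower H) {j : ℕ} (hj : j + 1 < N + 1)
    {B : Vec k N → Module.End K U} (hB : Good H (j + 1) B) {l : Vec k N}
    (hl : l ∈ inW H (Lv k N j)) (W : Submodule k (Vec k N)) (hlW : l ∈ W) (v : Vec k N)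
    (x : Top H ⟨j + 1, hj⟩ → U) :
    sg H ⟨j + 1, hj⟩ B W v (Bp H ⟨j + 1, hj⟩ B l x) = B l (sg H ⟨j + 1, hj⟩ B W v x) := by
  classical
  refine sum_B_Bp hH hj hB hl (fun w => v - w.1 ∈ W) (fun w w' h => ?_) x
  obtain ⟨c, _, hc⟩ := h
  have h1 : w.1 - w'.1 ∈ W := by rw [hc]; exact Submodule.smul_mem _ _ hlW
  constructor
  · intro h2
    have : v - w'.1 = (v - w.1) + (w.1 - w'.1) := by abel
    rw [this]; exact add_mem h2 h1
  · intro h2
    have : v - w.1 = (v - w'.1) - (w.1 - w'.1) := by abel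
    rw [this]; exact sub_mem h2 h1

open Classical in
/-- The operators on `Uker` (zero for the irrelevant vectors). -/
noncomputable def Bq (H : Finset (Vec k N)) (hH : Tower H) (j : ℕ) (hj : j + 1 < N + 1)
    (B : Vec k N → Module.End K U) (hB : Good H (j + 1) B) (l : Vec k N) :
    Module.End K (Uker H ⟨j + 1, hj⟩ B) :=
  if hl : l ∈ inW H (Lv k N j) then
    (Bp H ⟨j + 1, hj⟩ B l).restrict (Bp_mem H hH j hj B hB l hl)
  else 0

lemma Bq_apply (H : Finset (Vec k N)) (hH : Tower H) (j : ℕ) (hj : j + 1 < N + 1)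
    (B : Vec k N → Module.End K U) (hB : Good H (j + 1) B) {l : Vec k N}
    (hl : l ∈ inW H (Lv k N j)) (x : Uker H ⟨j + 1, hj⟩ B) :
    (Bq H hH j hj B hB l x : Top H ⟨j + 1, hj⟩ → U) = Bp H ⟨j + 1, hj⟩ B l x.1 := by
  unfold Bq
  rw [dif_pos hl]; rfl

lemma sum_Bq_apply (H : Finset (Vec k N)) (hH : Tower H) (j : ℕ) (hj : j + 1 < N + 1)
    (B : Vec k N → Module.End K U) (hB : Good H (j + 1) B) (W : Submodule k (Vec k N))
    (x : Uker H ⟨j + 1, hj⟩ B) (v : Top H ⟨j + 1, hj⟩) :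
    ((∑ l ∈ inW H (Lv k N j ⊓ W), Bq H hH j hj B hB l) x : Uker H ⟨j + 1, hj⟩ B).1 v =
      BS H B (Lv k N (j + 1) ⊓ WW j W v.1) (x.1 v) - sg H ⟨j + 1, hj⟩ B W v.1 x.1 := by
  rw [← sum_Bp hH hj B W x.1 v, LinearMap.sum_apply]
  have h1 : ∀ s : Finset (Vec k N), (∀ l ∈ s, l ∈ inW H (Lv k N j)) →
      (∑ l ∈ s, Bq H hH j hj B hB l x : Uker H ⟨j + 1, hj⟩ B).1 v =
        ∑ l ∈ s, Bp H ⟨j + 1, hj⟩ B l x.1 v := by
    classical
    intro s
    induction s using Finset.induction_on with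
    | empty => intro _; simp
    | insert a s ha ih =>
      intro hs
      rw [Finset.sum_insert ha, Finset.sum_insert ha, Submodule.coe_add, Pi.add_apply,
        ih (fun l hl => hs l (Finset.mem_insert_of_mem hl)),
        Bq_apply H hH j hj B hB (hs a (Finset.mem_insert_self _ _))]
  apply h1
  intro l hl
  rw [mem_inW] at hl ⊢
  exact ⟨hl.1, hl.2.1⟩

/-- (C2) -/
theorem Good_Bq (H : Finset (Vec k N)) (hH : Tower H) (j : ℕ) (hj : j + 1 < N + 1)
    (B : Vec k N → Module.End K U) (hB : Good H (j + 1) B) :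
    Good H j (Bq H hH j hj B hB) := by
  classical
  have hWc : ∀ (W : Submodule k (Vec k N)) (v : Top H ⟨j + 1, hj⟩) (w : Vec k N),
      w ∈ inW H (Lv k N (j + 1)) → w ∈ WW j W v.1 → ∀ y : U,
      B w (BS H B (Lv k N (j + 1) ⊓ WW j W v.1) y) =
        BS H B (Lv k N (j + 1) ⊓ WW j W v.1) (B w y) := fun W v w hw hwW y =>
    LinearMap.congr_fun (hB.comm _ w hw hwW).eq y
  refine ⟨?_, ?_, ?_⟩
  · -- sum zero
    apply LinearMap.ext
    intro x
    apply Subtype.ext
    funext v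
    have h1 : inW H (Lv k N j) = inW H (Lv k N j ⊓ ⊤) := by rw [inf_top_eq]
    rw [h1, sum_Bq_apply]
    have h2 : sg H ⟨j + 1, hj⟩ B ⊤ v.1 x.1 = 0 := by
      unfold sg
      simp only [Submodule.mem_top, if_true]
      exact mem_Uker.1 x.2
    have h3 : BS H B (Lv k N (j + 1) ⊓ WW j ⊤ v.1) = 0 := by
      unfold BS
      rw [← hB.sum_zero]
      refine Finset.sum_congr ?_ fun _ _ => rfl
      ext w
      constructor
      · intro hw
        rw [mem_inW] at hw ⊢
        exact ⟨hw.1, hw.2.1⟩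
      · intro hw
        rw [mem_inW]
        refine ⟨(mem_inW.1 hw).1, (mem_inW.1 hw).2, ?_⟩
        rcases (mem_inW_succ hH hj).1 hw with h | h
        · exact mem_WW_of_low (mem_inW.1 h).2 Submodule.mem_top
        · exact (mem_WW_top hj v.2.2 h.2).2 Submodule.mem_top
    rw [h2, h3]; simp
  · -- commutation
    intro W l hl hlW
    apply LinearMap.ext
    intro x
    apply Subtype.ext
    rw [Module.End.mul_apply, Module.End.mul_apply, Bq_apply H hH j hj B hB hl]
    funext v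
    rw [sum_Bq_apply, Bp_apply, Bq_apply H hH j hj B hB hl, sg_Bp hH hj hB hl W hlW, Bp_apply,
      sum_Bq_apply, map_sub, map_add, map_sum]
    have hlin : l ∈ inW H (Lv k N (j + 1)) := (mem_inW_succ hH hj).2 (Or.inl hl)
    have e1 : B l (BS H B (Lv k N (j + 1) ⊓ WW j W v.1) (x.1 v)) =
        BS H B (Lv k N (j + 1) ⊓ WW j W v.1) (B l (x.1 v)) :=
      hWc W v l hlin (mem_WW_of_low (mem_inW.1 hl).2 hlW) _
    have e2 : ∀ w : Top H ⟨j + 1, hj⟩,
        (if PP v.1 w.1 l then B w.1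
          ((BS H B (Lv k N (j + 1) ⊓ WW j W v.1) (x.1 v) - sg H ⟨j + 1, hj⟩ B W v.1 x.1) -
            ((∑ w ∈ inW H (Lv k N j ⊓ W), Bq H hH j hj B hB w) x).1 w) else 0) =
        BS H B (Lv k N (j + 1) ⊓ WW j W v.1) (if PP v.1 w.1 l then B w.1 (x.1 v - x.1 w) else 0) := by
      intro w
      split_ifs with h
      · obtain ⟨c, _, hc⟩ := h
        have hvw : v.1 - w.1 ∈ W := by rw [hc]; exact Submodule.smul_mem _ _ hlW
        have hWeq := WW_eq hj v.2.2 w.2.2 hvw
        have hsg : sg H ⟨j + 1, hj⟩ B W w.1 x.1 = sg H ⟨j + 1, hj⟩ B W v.1 x.1 := by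
          unfold sg
          refine Finset.sum_congr rfl fun u _ => ?_
          refine if_congr ?_ rfl rfl
          constructor
          · intro h2
            have : v.1 - u.1 = (v.1 - w.1) + (w.1 - u.1) := by abel
            rw [this]; exact add_mem hvw h2
          · intro h2
            have : w.1 - u.1 = (v.1 - u.1) - (v.1 - w.1) := by abel
            rw [this]; exact sub_mem h2 hvw
        rw [sum_Bq_apply, hWeq, hsg, sub_sub_sub_cancel_right, ← map_sub]
        exact hWc W v w.1 ((mem_inW_succ hH hj).2 (Or.inr w.2))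
          ((mem_WW_top hj v.2.2 w.2.2).2 hvw) _
      · rw [map_zero]
    rw [e1, Finset.sum_congr rfl fun w _ => e2 w]
    abel
  · -- injectivity
    intro W m hm
    have hker : ∀ x : Uker H ⟨j + 1, hj⟩ B, (∑ w ∈ inW H (Lv k N j ⊓ W),
        Bq H hH j hj B hB w) x - (m : K) • x = 0 → x = 0 := ?_
    · intro x y hxy
      have h1 := hker (x - y) ?_
      · exact sub_eq_zero.1 h1
      · have h2 : (∑ w ∈ inW H (Lv k N j ⊓ W), Bq H hH j hj B hB w) x - (m : K) • x =
          (∑ w ∈ inW H (Lv k N j ⊓ W), Bq H hH j hj B hB w) y - (m : K) • y := hxy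
        rw [map_sub, smul_sub, sub_sub_sub_comm, h2, sub_self]
    intro x hx
    have hx' : ∀ v : Top H ⟨j + 1, hj⟩, BS H B (Lv k N (j + 1) ⊓ WW j W v.1) (x.1 v) -
        sg H ⟨j + 1, hj⟩ B W v.1 x.1 - (m : K) • x.1 v = 0 := by
      intro v
      have h1 : (∑ w ∈ inW H (Lv k N j ⊓ W), Bq H hH j hj B hB w) x - (m : K) • x = 0 := hx
      have h2 := congrFun (congrArg Subtype.val h1) v
      rw [Submodule.coe_sub, Submodule.coe_smul, Pi.sub_apply, Pi.smul_apply, sum_Bq_apply] at h2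
      exact h2
    -- the partial sums vanish
    have hs : ∀ v : Top H ⟨j + 1, hj⟩, sg H ⟨j + 1, hj⟩ B W v.1 x.1 = 0 := by
      intro v
      set s := sg H ⟨j + 1, hj⟩ B W v.1 x.1 with hsdef
      have h1 : ∑ w : Top H ⟨j + 1, hj⟩, (if v.1 - w.1 ∈ W then
          B w.1 (BS H B (Lv k N (j + 1) ⊓ WW j W v.1) (x.1 w) - s - (m : K) • x.1 w) else 0) = 0 := by
        refine Finset.sum_eq_zero fun w _ => ?_
        split_ifs with h
        · have h2 := hx' w
          rw [WW_eq hj v.2.2 w.2.2 h] at h2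
          have hsg : sg H ⟨j + 1, hj⟩ B W w.1 x.1 = s := by
            rw [hsdef]
            unfold sg
            refine Finset.sum_congr rfl fun u _ => ?_
            refine if_congr ?_ rfl rfl
            constructor
            · intro h2
              have : v.1 - u.1 = (v.1 - w.1) + (w.1 - u.1) := by abel
              rw [this]; exact add_mem h h2
            · intro h2
              have : w.1 - u.1 = (v.1 - u.1) - (v.1 - w.1) := by abel
              rw [this]; exact sub_mem h2 h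
          rw [hsg] at h2
          rw [h2, map_zero]
        · rfl
      have h2 : ∑ w : Top H ⟨j + 1, hj⟩, (if v.1 - w.1 ∈ W then
          B w.1 (BS H B (Lv k N (j + 1) ⊓ WW j W v.1) (x.1 w) - s - (m : K) • x.1 w) else 0) =
          BS H B (Lv k N (j + 1) ⊓ WW j W v.1) s -
            (∑ w : Top H ⟨j + 1, hj⟩, if v.1 - w.1 ∈ W then B w.1 s else 0) - (m : K) • s := by
        conv_rhs => rw [hsdef]
        unfold sg
        rw [map_sum, Finset.smul_sum, ← Finset.sum_sub_distrib, ← Finset.sum_sub_distrib]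
        refine Finset.sum_congr rfl fun w _ => ?_
        split_ifs with h
        · rw [map_sub, map_sub, map_smul, hWc W v w.1 ((mem_inW_succ hH hj).2 (Or.inr w.2))
            ((mem_WW_top hj v.2.2 w.2.2).2 h)]
          rfl
        · simp
      rw [h1] at h2
      have h3 : BS H B (Lv k N (j + 1) ⊓ WW j W v.1) s =
          ∑ l ∈ inW H (Lv k N j ⊓ W), B l s +
            ∑ w : Top H ⟨j + 1, hj⟩, if v.1 - w.1 ∈ W then B w.1 s else 0 := by
        unfold BS
        rw [LinearMap.sum_apply, split hH hj (fun w => B w s) W v.1 v.2.2]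
      rw [h3, add_sub_cancel_right] at h2
      -- non-resonance for `W ⊓ Lv j`
      have h4 := hB.inj (Lv k N j ⊓ W) m hm
      have h5 : Lv k N (j + 1) ⊓ (Lv k N j ⊓ W) = Lv k N j ⊓ W := by
        apply inf_eq_right.2
        exact inf_le_left.trans (Lv_mono (Nat.le_succ j))
      rw [h5] at h4
      apply h4
      simp only [LinearMap.sum_apply, map_zero, smul_zero, sub_zero]
      exact h2.symm
    apply Subtype.ext
    funext v
    have h1 := hx' v
    rw [hs v, sub_zero] at h1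
    have h2 := hB.inj (WW j W v.1) m hm
    apply h2
    simp only [Submodule.coe_zero, Pi.zero_apply, map_zero, smul_zero, sub_zero]
    exact h1

end Pool.Agent.helper31.NDC

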