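import Pool.Agent.helper67.ND.Defs

/-!
Module C4 of the `n/d` project: existence of towers.
-/

namespace Pool.Agent.helper31.NDC4

open Pool.Agent.helper67.ND

variable {k : Type} [Field k] {N : ℕ}

/-- Every nonzero vector can be normalised. -/
lemma exists_norm {v : Vec k N} (hv : v ≠ 0) :
    ∃ c : k, c ≠ 0 ∧ ∃ m, IsLvl (c • v) m := by
  classical
  set T : Finset (Fin (N + 1)) := Finset.univ.filter (fun m => v m ≠ 0) with hT
  have hne : T.Nonempty := by
    by_contra h
    rw [Finset.not_nonempty_iff_eq_empty] at h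
    apply hv
    funext m
    by_contra hm
    have : m ∈ T := by rw [hT, Finset.mem_filter]; exact ⟨Finset.mem_univ _, hm⟩
    rw [h] at this
    exact absurd this (Finset.notMem_empty _)
  have hmax := Finset.max'_mem T hne
  set m := T.max' hne with hm
  have hvm : v m ≠ 0 := by
    rw [hT, Finset.mem_filter] at hmax
    exact hmax.2
  refine ⟨(v m)⁻¹, inv_ne_zero hvm, m, ?_, ?_⟩
  · rw [Pi.smul_apply, smul_eq_mul, inv_mul_cancel₀ hvm]
  · intro m' hm'
    have : v m' = 0 := by
      by_contra h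
      have h1 : m' ∈ T := by rw [hT, Finset.mem_filter]; exact ⟨Finset.mem_univ _, h⟩
      exact absurd (Finset.le_max' T m' h1) (not_le.2 hm')
    rw [Pi.smul_apply, this, smul_zero]

/-- The chosen normalisation. -/
lemma exists_fun : ∃ f : Vec k N → Vec k N, ∀ v, v ≠ 0 →
    (∃ m, IsLvl (f v) m) ∧ ∃ c : k, c ≠ 0 ∧ f v = c • v := by
  classical
  have h : ∀ v : Vec k N, ∃ w : Vec k N, v ≠ 0 → (∃ m, IsLvl w m) ∧ ∃ c : k, c ≠ 0 ∧ w = c • v := by
    intro v
    by_cases hv : v = 0
    · exact ⟨0, fun h => absurd hv h⟩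
    · obtain ⟨c, hc, hm⟩ := exists_norm hv
      exact ⟨c • v, fun _ => ⟨hm, c, hc, rfl⟩⟩
  choose f hf using h
  exact ⟨f, hf⟩

lemma lvl_le_of_mem_Lv {v : Vec k N} {m : Fin (N + 1)} (hv : IsLvl v m) {j : ℕ}
    (h : v ∈ Lv k N j) : (m : ℕ) ≤ j := by
  by_contra hlt
  have h1 := h m (not_le.1 hlt)
  rw [hv.1] at h1
  exact one_ne_zero h1

lemma mem_Lv_of_lvl {v : Vec k N} {m : Fin (N + 1)} (hv : IsLvl v m) {j : ℕ}
    (h : (m : ℕ) ≤ j) : v ∈ Lv k N j := fun m' hm' => hv.2 m' (Fin.lt_def.2 (lt_of_le_of_lt h hm'))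

/-- Towers by levels. -/
lemma tower_level (j : ℕ) (hj : j ≤ N) : ∀ s : Finset (Vec k N),
    (∀ v ∈ s, (∃ m, IsLvl v m) ∧ v ∈ Lv k N j) →
    ∃ H : Finset (Vec k N), Tower H ∧ s ⊆ H ∧ ∀ v ∈ H, v ∈ Lv k N j := by
  classical
  obtain ⟨f, hf⟩ := exists_fun (k := k) (N := N)
  induction j with
  | zero =>
    intro s hs
    have he0 : IsLvl (e0 k N) 0 := by
      refine ⟨by simp [e0], ?_⟩
      intro m' hm'
      rw [e0, Pi.single_eq_of_ne (ne_of_gt hm')]
    have huniq : ∀ v : Vec k N, (∃ m, IsLvl v m) → v ∈ Lv k N 0 → v = e0 k N := by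
      intro v hm hv
      obtain ⟨m, hm⟩ := hm
      have hm0 : m = 0 := Fin.ext (Nat.le_zero.1 (lvl_le_of_mem_Lv hm hv))
      rw [hm0] at hm
      funext i
      by_cases hi : i = 0
      · rw [hi, hm.1, he0.1]
      · rw [hm.2 i (Fin.pos_of_ne_zero hi), he0.2 i (Fin.pos_of_ne_zero hi)]
    refine ⟨{e0 k N}, ⟨Finset.mem_singleton_self _, ?_, ?_⟩, ?_, ?_⟩
    · intro v hv
      rw [Finset.mem_singleton.1 hv]
      exact ⟨0, he0⟩
    · intro v hv w hw m _ _ hne
      exact absurd ((Finset.mem_singleton.1 hv).trans (Finset.mem_singleton.1 hw).symm) hne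
    · intro v hv
      rw [Finset.mem_singleton]
      exact huniq v (hs v hv).1 (hs v hv).2
    · intro v hv
      rw [Finset.mem_singleton.1 hv]
      exact mem_Lv_of_lvl he0 (le_refl _)
  | succ j ih =>
    intro s hs
    set top : Finset (Vec k N) := s.filter (fun v => v ∉ Lv k N j) with htop
    have hlvltop : ∀ v ∈ top, IsLvl v ⟨j + 1, by omega⟩ := by
      intro v hv
      rw [htop, Finset.mem_filter] at hv
      obtain ⟨⟨m, hm⟩, hL⟩ := hs v hv.1
      have h1 := lvl_le_of_mem_Lv hm hL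
      have h2 : ¬ (m : ℕ) ≤ j := fun h => hv.2 (mem_Lv_of_lvl hm h)
      have h3 : m = ⟨j + 1, by omega⟩ := Fin.ext (by simp only; omega)
      rw [← h3]; exact hm
    set t : Finset (Vec k N) := s.filter (fun v => v ∈ Lv k N j) ∪
      ((top ×ˢ top).filter (fun p => p.1 ≠ p.2)).image (fun p => f (p.1 - p.2)) with ht
    obtain ⟨H', hH', htH', hH'L⟩ := ih (by omega) t (by
      intro v hv
      rw [ht, Finset.mem_union] at hv
      rcases hv with hv | hv
      · rw [Finset.mem_filter] at hv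
        exact ⟨(hs v hv.1).1, hv.2⟩
      · rw [Finset.mem_image] at hv
        obtain ⟨p, hp, rfl⟩ := hv
        rw [Finset.mem_filter, Finset.mem_product] at hp
        have hne : p.1 - p.2 ≠ 0 := sub_ne_zero.2 hp.2
        obtain ⟨hm, c, hc, hfc⟩ := hf _ hne
        refine ⟨hm, ?_⟩
        rw [hfc]
        apply Submodule.smul_mem
        intro m' hm'
        have h1 := hlvltop _ hp.1.1
        have h2 := hlvltop _ hp.1.2
        rw [Pi.sub_apply]
        by_cases hmm : m' = ⟨j + 1, by omega⟩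
        · rw [hmm, h1.1, h2.1, sub_self]
        · have h3 : (⟨j + 1, by omega⟩ : Fin (N + 1)) < m' := by
            rw [Fin.lt_def]
            have h4 : (m' : ℕ) ≠ j + 1 := fun h => hmm (Fin.ext h)
            simp only
            omega
          rw [h1.2 _ h3, h2.2 _ h3, sub_self])
    have hLmono : ∀ v : Vec k N, v ∈ Lv k N j → v ∈ Lv k N (j + 1) :=
      fun v hv m hm => hv m (by omega)
    refine ⟨H' ∪ s, ⟨?_, ?_, ?_⟩, Finset.subset_union_right, ?_⟩
    · exact Finset.mem_union_left _ hH'.e0_mem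
    · intro v hv
      rcases Finset.mem_union.1 hv with h | h
      · exact hH'.lvl v h
      · exact (hs v h).1
    · intro v hv w hw m hvm hwm hne
      -- `m ≤ j + 1`
      by_cases hmj : (m : ℕ) ≤ j
      · have hvL := mem_Lv_of_lvl hvm hmj
        have hwL := mem_Lv_of_lvl hwm hmj
        have hin : ∀ u ∈ H' ∪ s, u ∈ Lv k N j → u ∈ H' := by
          intro u hu huL
          rcases Finset.mem_union.1 hu with h | h
          · exact h
          · exact htH' (by rw [ht]; exact Finset.mem_union_left _ (Finset.mem_filter.2 ⟨h, huL⟩))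
        obtain ⟨l, hl, c, hc, hd⟩ := hH'.closed v (hin v hv hvL) w (hin w hw hwL) m hvm hwm hne
        exact ⟨l, Finset.mem_union_left _ hl, c, hc, hd⟩
      · have hin : ∀ u ∈ H' ∪ s, IsLvl u m → u ∈ top := by
          intro u hu hum
          have huL : u ∉ Lv k N j := fun h => hmj (lvl_le_of_mem_Lv hum h)
          rcases Finset.mem_union.1 hu with h | h
          · exact absurd (hH'L u h) huL
          · rw [htop]; exact Finset.mem_filter.2 ⟨h, huL⟩
        have h1 : v - w ≠ 0 := sub_ne_zero.2 hne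
        obtain ⟨_, c, hc, hfc⟩ := hf _ h1
        refine ⟨f (v - w), Finset.mem_union_left _ (htH' ?_), c⁻¹, inv_ne_zero hc, ?_⟩
        · rw [ht]
          apply Finset.mem_union_right
          rw [Finset.mem_image]
          exact ⟨(v, w), Finset.mem_filter.2 ⟨Finset.mem_product.2
            ⟨hin v hv hvm, hin w hw hwm⟩, hne⟩, rfl⟩
        · rw [hfc, smul_smul, inv_mul_cancel₀ hc, one_smul]
    · intro v hv
      rcases Finset.mem_union.1 hv with h | h
      · exact hLmono v (hH'L v h)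
      · exact (hs v h).2

/-- (C4) -/
theorem exists_tower (s : Finset (Vec k N)) (hs : ∀ v ∈ s, v ≠ 0) :
    ∃ H : Finset (Vec k N), Tower H ∧ ∀ v ∈ s, ∃ c : k, c ≠ 0 ∧ c • v ∈ H := by
  classical
  obtain ⟨f, hf⟩ := exists_fun (k := k) (N := N)
  obtain ⟨H, hH, hsub, _⟩ := tower_level N le_rfl (s.image f) (by
    intro v hv
    obtain ⟨u, hu, rfl⟩ := Finset.mem_image.1 hv
    refine ⟨(hf u (hs u hu)).1, ?_⟩
    intro m hm
    exact absurd m.2 (by omega))
  refine ⟨H, hH, ?_⟩
  intro v hv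
  obtain ⟨_, c, hc, hfc⟩ := hf v (hs v hv)
  exact ⟨c, hc, by rw [← hfc]; exact hsub (Finset.mem_image_of_mem f hv)⟩

end Pool.Agent.helper31.NDC4
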