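import Pool.Agent.helper67.ND.Defs

/-!
Module G3 of the `n/d` project: choice of a generic chart.
-/

namespace Pool.Agent.helper31.NDG3

open Pool.Agent.helper67.ND

theorem exists_chart {k : Type} [Field k] [CharZero k] {ι : Type} [Finite ι] {N : ℕ}
    (l : ι → Fin (N + 1) → k) :
    ∃ Φ : (Fin (N + 1) → k) ≃ₗ[k] Vec k N, ∀ s : Set ι, Submodule.span k (l '' s) ≠ ⊤ →
      e0 k N ∉ Submodule.span k ((fun i => Φ (l i)) '' s) := by
  classical
  -- a vector outside all the proper subspaces spanned by subfamilies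
  obtain ⟨ξ, hξ⟩ : ∃ ξ : Fin (N + 1) → k, ∀ s : Set ι, Submodule.span k (l '' s) ≠ ⊤ →
      ξ ∉ Submodule.span k (l '' s) := by
    by_contra hcon
    push Not at hcon
    let p : {s : Set ι // Submodule.span k (l '' s) ≠ ⊤} → Submodule k (Fin (N + 1) → k) :=
      fun s => Submodule.span k (l '' s.1)
    have hcov : ⋃ i, (p i : Set (Fin (N + 1) → k)) = Set.univ := by
      rw [Set.eq_univ_iff_forall]
      intro x
      obtain ⟨s, hs, hx⟩ := hcon x
      rw [Set.mem_iUnion]
      exact ⟨⟨s, hs⟩, hx⟩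
    have : Infinite k := CharZero.infinite k
    obtain ⟨i, hi⟩ := Subspace.exists_eq_top_of_iUnion_eq_univ hcov
    exact i.2 hi
  have hξ0 : ξ ≠ 0 := by
    intro h0
    apply hξ ∅
    · rw [Set.image_empty, Submodule.span_empty]
      intro h
      have h1 : (Pi.single 0 1 : Fin (N + 1) → k) ∈ (⊥ : Submodule k (Fin (N + 1) → k)) := by
        rw [h]; exact Submodule.mem_top
      rw [Submodule.mem_bot] at h1
      have h2 := congrFun h1 0
      rw [Pi.single_eq_same, Pi.zero_apply] at h2
      exact one_ne_zero h2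
    · rw [h0]; exact Submodule.zero_mem _
  have he0 : e0 k N ≠ 0 := by
    intro h
    have h2 := congrFun h 0
    rw [e0, Pi.single_eq_same, Pi.zero_apply] at h2
    exact one_ne_zero h2
  let f : (Submodule.span k {ξ}) ≃ₗ[k] (Submodule.span k {e0 k N}) :=
    (LinearEquiv.toSpanNonzeroSingleton k _ ξ hξ0).symm ≪≫ₗ
      LinearEquiv.toSpanNonzeroSingleton k _ (e0 k N) he0
  obtain ⟨g, hg⟩ := Submodule.exists_linearEquiv_restrict_eq f
  have hgξ : g ξ = e0 k N := by
    have h1 := hg ⟨ξ, Submodule.mem_span_singleton_self ξ⟩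
    rw [← h1]
    have h2 : (LinearEquiv.toSpanNonzeroSingleton k _ ξ hξ0).symm
        ⟨ξ, Submodule.mem_span_singleton_self ξ⟩ = 1 := by
      rw [LinearEquiv.symm_apply_eq]
      apply Subtype.ext
      rw [LinearEquiv.toSpanNonzeroSingleton_apply]
      exact (one_smul k ξ).symm
    change ((LinearEquiv.toSpanNonzeroSingleton k _ (e0 k N) he0
      ((LinearEquiv.toSpanNonzeroSingleton k _ ξ hξ0).symm
        ⟨ξ, Submodule.mem_span_singleton_self ξ⟩) : Submodule.span k {e0 k N}) :
          Fin (N + 1) → k) = e0 k N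
    rw [h2, LinearEquiv.toSpanNonzeroSingleton_apply]
    exact one_smul k _
  refine ⟨g, ?_⟩
  intro s hs hmem
  apply hξ s hs
  have h3 : (fun i => g (l i)) '' s = (g : (Fin (N + 1) → k) →ₗ[k] _) '' (l '' s) := by
    rw [Set.image_image]; rfl
  rw [h3, Submodule.span_image, Submodule.mem_map] at hmem
  obtain ⟨y, hy, hgy⟩ := hmem
  have h4 : g y = g ξ := hgy.trans hgξ.symm
  rw [← g.injective h4]
  exact hy

end Pool.Agent.helper31.NDG3
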