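import Mathlib

set_option autoImplicit false

/-!
# Definitions for Grothendieck's inequality against correlation matrices

`𝕜` is `ℝ` or `ℂ`.
-/

open scoped ComplexOrder

namespace Pool.Agent.helper31.Groth

/-- `bilinMax A` is the supremum of `|∑ a_ij p_i q_j|` over all scalars `p_i, q_j` of modulus one. -/
noncomputable def bilinMax {𝕜 : Type} [RCLike 𝕜] {m n : ℕ} (A : Matrix (Fin m) (Fin n) 𝕜) : ℝ :=
  sSup {r : ℝ | ∃ (p : Fin m → 𝕜) (q : Fin n → 𝕜), (∀ i, ‖p i‖ = 1) ∧ (∀ j, ‖q j‖ = 1) ∧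
    r = ‖∑ i, ∑ j, A i j * p i * q j‖}

/-- `K > 0` is a constant for which Grothendieck's inequality over `𝕜` holds, for all sizes,
all matrices, all Hilbert spaces and all families of unit vectors. -/
def IsGrothendieckBound (𝕜 : Type) [RCLike 𝕜] (K : ℝ) : Prop :=
  0 < K ∧ ∀ (m n : ℕ) (A : Matrix (Fin m) (Fin n) 𝕜) (H : Type) [NormedAddCommGroup H]
    [InnerProductSpace 𝕜 H] [CompleteSpace H] (u : Fin m → H) (v : Fin n → H),
    (∀ i, ‖u i‖ = 1) → (∀ j, ‖v j‖ = 1) →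
    ‖∑ i, ∑ j, A i j * inner 𝕜 (u i) (v j)‖ ≤ K * bilinMax A

/-- Correlation matrices: positive semidefinite with unit diagonal. -/
def IsCorrelation {𝕜 : Type} [RCLike 𝕜] {k : ℕ} (S : Matrix (Fin k) (Fin k) 𝕜) : Prop :=
  S.PosSemidef ∧ ∀ i, S i i = 1

/-- `rankOneMax B` is the maximum of `|tr (B^* Θ)|` over the rank one correlation matrices
`Θ = x x^*`, `|x_i| = 1`. -/
noncomputable def rankOneMax {𝕜 : Type} [RCLike 𝕜] {k : ℕ} (B : Matrix (Fin k) (Fin k) 𝕜) : ℝ :=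
  sSup {r : ℝ | ∃ x : Fin k → 𝕜, (∀ i, ‖x i‖ = 1) ∧
    r = ‖(B.conjTranspose * Matrix.vecMulVec x (star x)).trace‖}

end Pool.Agent.helper31.Groth
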