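import Mathlib
import Pool.Agent.helper31.GrothDefs

set_option autoImplicit false

open scoped ComplexOrder

namespace Pool.Agent.helper31.Groth

variable {𝕜 : Type} [RCLike 𝕜]

lemma exists_phase (c : 𝕜) : ∃ p : 𝕜, ‖p‖ = 1 ∧ p * c = (‖c‖ : 𝕜) := by
  by_cases hc : c = 0
  · exact ⟨1, by simp, by simp [hc]⟩
  · refine ⟨(starRingEnd 𝕜) c / (‖c‖ : 𝕜), ?_, ?_⟩
    · rw [norm_div, RCLike.norm_conj, RCLike.norm_ofReal, abs_of_nonneg (norm_nonneg c)]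
      exact div_self (norm_ne_zero_iff.2 hc)
    · have h1 : ((‖c‖ : ℝ) : 𝕜) ≠ 0 := by
        exact_mod_cast norm_ne_zero_iff.2 hc
      field_simp
      rw [mul_comm, RCLike.mul_conj]

lemma bilin_set_bddAbove {m n : ℕ} (A : Matrix (Fin m) (Fin n) 𝕜) :
    BddAbove {r : ℝ | ∃ (p : Fin m → 𝕜) (q : Fin n → 𝕜), (∀ i, ‖p i‖ = 1) ∧ (∀ j, ‖q j‖ = 1) ∧
      r = ‖∑ i, ∑ j, A i j * p i * q j‖} := by
  refine ⟨∑ i, ∑ j, ‖A i j‖, ?_⟩
  rintro r ⟨p, q, hp, hq, rfl⟩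
  refine (norm_sum_le _ _).trans (Finset.sum_le_sum fun i _ => ?_)
  refine (norm_sum_le _ _).trans (Finset.sum_le_sum fun j _ => ?_)
  simp [hp, hq]

lemma le_bilinMax {m n : ℕ} (A : Matrix (Fin m) (Fin n) 𝕜) {p : Fin m → 𝕜} {q : Fin n → 𝕜}
    (hp : ∀ i, ‖p i‖ = 1) (hq : ∀ j, ‖q j‖ = 1) :
    ‖∑ i, ∑ j, A i j * p i * q j‖ ≤ bilinMax A :=
  le_csSup (bilin_set_bddAbove A) ⟨p, q, hp, hq, rfl⟩

lemma bilinMax_nonneg {m n : ℕ} (A : Matrix (Fin m) (Fin n) 𝕜) : 0 ≤ bilinMax A :=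
  (norm_nonneg _).trans (le_bilinMax A (p := fun _ => 1) (q := fun _ => 1) (by simp) (by simp))

/-- Linear functional on the polydisc: the norm is dominated at a unimodular point. -/
lemma exists_unimod_ge {m : ℕ} (c : Fin m → 𝕜) {p : Fin m → 𝕜} (hp : ∀ i, ‖p i‖ ≤ 1) :
    ∃ p' : Fin m → 𝕜, (∀ i, ‖p' i‖ = 1) ∧ ‖∑ i, p i * c i‖ ≤ ‖∑ i, p' i * c i‖ := by
  choose p' hp1 hp2 using fun i => exists_phase (c i)
  refine ⟨p', hp1, ?_⟩
  have h1 : ∑ i, p' i * c i = ((∑ i, ‖c i‖ : ℝ) : 𝕜) := by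
    rw [RCLike.ofReal_sum]
    exact Finset.sum_congr rfl fun i _ => hp2 i
  rw [h1, RCLike.norm_ofReal, abs_of_nonneg (Finset.sum_nonneg fun i _ => norm_nonneg _)]
  refine (norm_sum_le _ _).trans (Finset.sum_le_sum fun i _ => ?_)
  rw [norm_mul]
  exact mul_le_of_le_one_left (norm_nonneg _) (hp i)

lemma le_bilinMax_ball {m n : ℕ} (A : Matrix (Fin m) (Fin n) 𝕜) {p : Fin m → 𝕜} {q : Fin n → 𝕜}
    (hp : ∀ i, ‖p i‖ ≤ 1) (hq : ∀ j, ‖q j‖ ≤ 1) :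
    ‖∑ i, ∑ j, A i j * p i * q j‖ ≤ bilinMax A := by
  obtain ⟨p', hp', h1⟩ := exists_unimod_ge (fun i => ∑ j, A i j * q j) hp
  obtain ⟨q', hq', h2⟩ := exists_unimod_ge (fun j => ∑ i, A i j * p' i) hq
  have e1 : ∑ i, ∑ j, A i j * p i * q j = ∑ i, p i * ∑ j, A i j * q j := by
    refine Finset.sum_congr rfl fun i _ => ?_
    rw [Finset.mul_sum]
    exact Finset.sum_congr rfl fun j _ => by ring
  have e2 : ∑ i, p' i * ∑ j, A i j * q j = ∑ j, q j * ∑ i, A i j * p' i := by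
    simp_rw [Finset.mul_sum]
    rw [Finset.sum_comm]
    exact Finset.sum_congr rfl fun j _ => Finset.sum_congr rfl fun i _ => by ring
  have e3 : ∑ j, q' j * ∑ i, A i j * p' i = ∑ i, ∑ j, A i j * p' i * q' j := by
    simp_rw [Finset.mul_sum]
    rw [Finset.sum_comm]
    exact Finset.sum_congr rfl fun j _ => Finset.sum_congr rfl fun i _ => by ring
  calc ‖∑ i, ∑ j, A i j * p i * q j‖ = ‖∑ i, p i * ∑ j, A i j * q j‖ := by rw [e1]
    _ ≤ ‖∑ i, p' i * ∑ j, A i j * q j‖ := h1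
    _ = ‖∑ j, q j * ∑ i, A i j * p' i‖ := by rw [e2]
    _ ≤ ‖∑ j, q' j * ∑ i, A i j * p' i‖ := h2
    _ = ‖∑ i, ∑ j, A i j * p' i * q' j‖ := by rw [e3]
    _ ≤ bilinMax A := le_bilinMax A hp' hq'

lemma norm_entry_le_bilinMax {m n : ℕ} (A : Matrix (Fin m) (Fin n) 𝕜) (i₀ : Fin m) (j₀ : Fin n) :
    ‖A i₀ j₀‖ ≤ bilinMax A := by
  have := le_bilinMax_ball A (p := fun i => if i = i₀ then 1 else 0)
    (q := fun j => if j = j₀ then 1 else 0) (fun i => by split_ifs <;> simp)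
    (fun j => by split_ifs <;> simp)
  simpa using this

/-- The Grothendieck bound restricted to a fixed format `m × n`. -/
def SizedBound (𝕜 : Type) [RCLike 𝕜] (m n : ℕ) (K : ℝ) : Prop :=
  0 ≤ K ∧ ∀ (A : Matrix (Fin m) (Fin n) 𝕜) (H : Type) [NormedAddCommGroup H]
    [InnerProductSpace 𝕜 H] [CompleteSpace H] (u : Fin m → H) (v : Fin n → H),
    (∀ i, ‖u i‖ = 1) → (∀ j, ‖v j‖ = 1) →
    ‖∑ i, ∑ j, A i j * inner 𝕜 (u i) (v j)‖ ≤ K * bilinMax A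

lemma sizedBound_trivial (m n : ℕ) : SizedBound 𝕜 m n (m * n) := by
  refine ⟨by positivity, ?_⟩
  intro A H _ _ _ u v hu hv
  refine (norm_sum_le _ _).trans ?_
  have : ∀ i, ‖∑ j, A i j * inner 𝕜 (u i) (v j)‖ ≤ n * bilinMax A := by
    intro i
    refine (norm_sum_le _ _).trans ?_
    have h : ∀ j ∈ Finset.univ, ‖A i j * inner 𝕜 (u i) (v j)‖ ≤ bilinMax A := by
      intro j _
      rw [norm_mul]
      have h1 := norm_inner_le_norm (𝕜 := 𝕜) (u i) (v j)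
      rw [hu, hv, mul_one] at h1
      calc ‖A i j‖ * ‖inner 𝕜 (u i) (v j)‖ ≤ ‖A i j‖ * 1 :=
            mul_le_mul_of_nonneg_left h1 (norm_nonneg _)
        _ = ‖A i j‖ := mul_one _
        _ ≤ bilinMax A := norm_entry_le_bilinMax A i j
    refine (Finset.sum_le_card_nsmul _ _ _ h).trans ?_
    simp
  refine (Finset.sum_le_card_nsmul _ _ _ fun i _ => this i).trans ?_
  simp [mul_assoc]

/-- Bound for families of vectors of common squared norm `ρ`. -/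
lemma SizedBound.scaled {m n : ℕ} {K : ℝ} (hK : SizedBound 𝕜 m n K)
    (A : Matrix (Fin m) (Fin n) 𝕜) {H : Type} [NormedAddCommGroup H]
    [InnerProductSpace 𝕜 H] [CompleteSpace H] (u : Fin m → H) (v : Fin n → H) {ρ : ℝ}
    (hρ : 0 < ρ) (hu : ∀ i, ‖u i‖ = ρ) (hv : ∀ j, ‖v j‖ = ρ) :
    ‖∑ i, ∑ j, A i j * inner 𝕜 (u i) (v j)‖ ≤ K * ρ ^ 2 * bilinMax A := by
  have h := hK.2 A H (fun i => ((ρ⁻¹ : ℝ) : 𝕜) • u i) (fun j => ((ρ⁻¹ : ℝ) : 𝕜) • v j)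
    (fun i => by
      rw [norm_smul, RCLike.norm_ofReal, hu, abs_of_pos (inv_pos.2 hρ)]
      exact inv_mul_cancel₀ hρ.ne')
    (fun j => by
      rw [norm_smul, RCLike.norm_ofReal, hv, abs_of_pos (inv_pos.2 hρ)]
      exact inv_mul_cancel₀ hρ.ne')
  have e : ∑ i, ∑ j, A i j * inner 𝕜 (u i) (v j) = ((ρ ^ 2 : ℝ) : 𝕜) *
      ∑ i, ∑ j, A i j * inner 𝕜 (((ρ⁻¹ : ℝ) : 𝕜) • u i) (((ρ⁻¹ : ℝ) : 𝕜) • v j) := by
    rw [Finset.mul_sum]
    refine Finset.sum_congr rfl fun i _ => ?_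
    rw [Finset.mul_sum]
    refine Finset.sum_congr rfl fun j _ => ?_
    rw [inner_smul_left, inner_smul_right, RCLike.conj_ofReal]
    have hρ' : ((ρ : ℝ) : 𝕜) ≠ 0 := by exact_mod_cast hρ.ne'
    push_cast
    field_simp
  rw [e, norm_mul, RCLike.norm_ofReal, abs_of_nonneg (sq_nonneg ρ)]
  calc ρ ^ 2 * _ ≤ ρ ^ 2 * (K * bilinMax A) := mul_le_mul_of_nonneg_left h (sq_nonneg ρ)
    _ = K * ρ ^ 2 * bilinMax A := by ring

/-- The bootstrapping argument: if every bound `K` for the format `m × n` improves to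
`(1 + K δ) / c` then `1 / (c - δ)` is a bound for that format. -/
lemma sizedBound_of_bootstrap {m n : ℕ} {c δ : ℝ} (hδ : 0 ≤ δ) (hcδ : δ < c)
    (h : ∀ K : ℝ, SizedBound 𝕜 m n K → SizedBound 𝕜 m n ((1 + K * δ) / c)) :
    SizedBound 𝕜 m n (1 / (c - δ)) := by
  have hc : 0 < c := lt_of_le_of_lt hδ hcδ
  set S : Set ℝ := {K | SizedBound 𝕜 m n K} with hS
  have hne : S.Nonempty := ⟨_, sizedBound_trivial m n⟩
  have hbdd : BddBelow S := ⟨0, fun K hK => hK.1⟩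
  have hmem : SizedBound 𝕜 m n (sInf S) := by
    refine ⟨le_csInf hne fun K hK => hK.1, ?_⟩
    intro A H _ _ _ u v hu hv
    rcases (bilinMax_nonneg A).eq_or_lt with h0 | h0
    · have := (sizedBound_trivial (𝕜 := 𝕜) m n).2 A H u v hu hv
      rw [← h0, mul_zero] at this ⊢
      exact this
    · rw [← div_le_iff₀ h0]
      refine le_csInf hne fun K hK => ?_
      rw [div_le_iff₀ h0]
      exact hK.2 A H u v hu hv
  have h1 := csInf_le hbdd (h _ hmem)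
  have h2 : sInf S ≤ 1 / (c - δ) := by
    rw [le_div_iff₀ (sub_pos.2 hcδ)]
    rw [le_div_iff₀ hc] at h1
    nlinarith
  refine ⟨hmem.1.trans h2, ?_⟩
  intro A H _ _ _ u v hu hv
  exact (hmem.2 A H u v hu hv).trans (mul_le_mul_of_nonneg_right h2 (bilinMax_nonneg A))

lemma isGrothendieckBound_of_sized {K : ℝ} (hK : 0 < K) (h : ∀ m n, SizedBound 𝕜 m n K) :
    IsGrothendieckBound 𝕜 K :=
  ⟨hK, fun m n A H _ _ _ u v hu hv => (h m n).2 A H u v hu hv⟩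

/-- The Grothendieck constant exists as a least element as soon as some bound exists. -/
lemma exists_isLeast {K₁ : ℝ} (h : IsGrothendieckBound 𝕜 K₁) :
    ∃ K : ℝ, IsLeast {K : ℝ | IsGrothendieckBound 𝕜 K} K := by
  set S : Set ℝ := {K : ℝ | IsGrothendieckBound 𝕜 K} with hS
  have hne : S.Nonempty := ⟨K₁, h⟩
  have h1 : ∀ K ∈ S, 1 ≤ K := by
    intro K hK
    have h2 := hK.2 1 1 (fun _ _ => 1) 𝕜 (fun _ => 1) (fun _ => 1) (by simp) (by simp)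
    have h3 : bilinMax (𝕜 := 𝕜) (m := 1) (n := 1) (fun _ _ => 1) = 1 := by
      unfold bilinMax
      have : {r : ℝ | ∃ (p : Fin 1 → 𝕜) (q : Fin 1 → 𝕜), (∀ i, ‖p i‖ = 1) ∧ (∀ j, ‖q j‖ = 1) ∧
          r = ‖∑ i, ∑ j, (1 : 𝕜) * p i * q j‖} = {1} := by
        ext r
        constructor
        · rintro ⟨p, q, hp, hq, rfl⟩
          simp [hp, hq]
        · rintro rfl
          exact ⟨fun _ => 1, fun _ => 1, by simp, by simp, by simp⟩
      rw [this, csSup_singleton]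
    rw [h3] at h2
    simpa using h2
  have hbdd : BddBelow S := ⟨1, fun K hK => h1 K hK⟩
  refine ⟨sInf S, ?_, fun K hK => csInf_le hbdd hK⟩
  refine ⟨lt_of_lt_of_le one_pos (le_csInf hne h1), ?_⟩
  intro m n A H _ _ _ u v hu hv
  rcases (bilinMax_nonneg A).eq_or_lt with h0 | h0
  · have := h.2 m n A H u v hu hv
    rw [← h0, mul_zero] at this ⊢
    exact this
  · rw [← div_le_iff₀ h0]
    refine le_csInf hne fun K hK => ?_
    rw [div_le_iff₀ h0]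
    exact hK.2 m n A H u v hu hv

end Pool.Agent.helper31.Groth
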