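import Mathlib
import Pool.Agent.helper31.GrothBasic

set_option autoImplicit false

open scoped ComplexOrder

namespace Pool.Agent.helper31.Groth

variable {𝕜 : Type} [RCLike 𝕜]

/-- A kernel `t` on `Fin m × Fin n` is realizable if it is a kernel of inner products of unit
vectors in some Euclidean space. -/
def Realizable {m n : ℕ} (t : Fin m → Fin n → 𝕜) : Prop :=
  ∃ (ι : Type) (_ : Fintype ι) (u : Fin m → EuclideanSpace 𝕜 ι) (v : Fin n → EuclideanSpace 𝕜 ι),
    (∀ i, ‖u i‖ = 1) ∧ (∀ j, ‖v j‖ = 1) ∧ ∀ i j, inner 𝕜 (u i) (v j) = t i j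

lemma norm_eq_one_of_inner {H : Type} [NormedAddCommGroup H] [InnerProductSpace 𝕜 H] {x : H}
    (h : inner 𝕜 x x = (1 : 𝕜)) : ‖x‖ = 1 := by
  have h1 := inner_self_eq_norm_sq_to_K (𝕜 := 𝕜) x
  rw [h] at h1
  have h2 : (1 : ℝ) = ‖x‖ ^ 2 := by exact_mod_cast h1
  have h3 := norm_nonneg x
  nlinarith

lemma inner_of_norm_eq_one {H : Type} [NormedAddCommGroup H] [InnerProductSpace 𝕜 H] {x : H}
    (h : ‖x‖ = 1) : inner 𝕜 x x = (1 : 𝕜) := by
  rw [inner_self_eq_norm_sq_to_K, h]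
  simp

section tensor

variable {ι κ : Type} [Fintype ι] [Fintype κ]

/-- tensor product of coordinate vectors -/
noncomputable def tens (x : EuclideanSpace 𝕜 ι) (y : EuclideanSpace 𝕜 κ) :
    EuclideanSpace 𝕜 (ι × κ) := WithLp.toLp 2 fun p => x p.1 * y p.2

lemma inner_tens (x x' : EuclideanSpace 𝕜 ι) (y y' : EuclideanSpace 𝕜 κ) :
    inner 𝕜 (tens x y) (tens x' y') = inner 𝕜 x x' * inner 𝕜 y y' := by
  simp only [PiLp.inner_apply, tens, Fintype.sum_prod_type, RCLike.inner_apply, map_mul]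
  rw [Finset.sum_mul_sum]
  refine Finset.sum_congr rfl fun a _ => Finset.sum_congr rfl fun b _ => ?_
  ring

/-- conjugate of a coordinate vector -/
noncomputable def cnj (x : EuclideanSpace 𝕜 ι) : EuclideanSpace 𝕜 ι :=
  WithLp.toLp 2 fun a => (starRingEnd 𝕜) (x a)

lemma inner_cnj (x x' : EuclideanSpace 𝕜 ι) :
    inner 𝕜 (cnj x) (cnj x') = (starRingEnd 𝕜) (inner 𝕜 x x') := by
  simp only [PiLp.inner_apply, cnj, RCLike.inner_apply, map_mul, map_sum, RCLike.conj_conj]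

/-- direct sum of coordinate vectors -/
noncomputable def dsum (x : EuclideanSpace 𝕜 ι) (y : EuclideanSpace 𝕜 κ) :
    EuclideanSpace 𝕜 (ι ⊕ κ) := WithLp.toLp 2 (Sum.elim x y)

lemma inner_dsum (x x' : EuclideanSpace 𝕜 ι) (y y' : EuclideanSpace 𝕜 κ) :
    inner 𝕜 (dsum x y) (dsum x' y') = inner 𝕜 x x' + inner 𝕜 y y' := by
  simp [PiLp.inner_apply, dsum, Fintype.sum_sum_type]

end tensor

variable {m n : ℕ}

lemma Realizable.mul {t t' : Fin m → Fin n → 𝕜} (h : Realizable t) (h' : Realizable t') :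
    Realizable fun i j => t i j * t' i j := by
  obtain ⟨ι, _, u, v, hu, hv, huv⟩ := h
  obtain ⟨κ, _, u', v', hu', hv', huv'⟩ := h'
  refine ⟨ι × κ, inferInstance, fun i => tens (u i) (u' i), fun j => tens (v j) (v' j), ?_, ?_, ?_⟩
  · intro i
    apply norm_eq_one_of_inner (𝕜 := 𝕜)
    rw [inner_tens, inner_of_norm_eq_one (hu i), inner_of_norm_eq_one (hu' i), one_mul]
  · intro j
    apply norm_eq_one_of_inner (𝕜 := 𝕜)
    rw [inner_tens, inner_of_norm_eq_one (hv j), inner_of_norm_eq_one (hv' j), one_mul]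
  · intro i j
    rw [inner_tens, huv, huv']

lemma Realizable.conj {t : Fin m → Fin n → 𝕜} (h : Realizable t) :
    Realizable fun i j => (starRingEnd 𝕜) (t i j) := by
  obtain ⟨ι, _, u, v, hu, hv, huv⟩ := h
  refine ⟨ι, inferInstance, fun i => cnj (u i), fun j => cnj (v j), ?_, ?_, ?_⟩
  · intro i
    apply norm_eq_one_of_inner (𝕜 := 𝕜)
    rw [inner_cnj, inner_of_norm_eq_one (hu i), map_one]
  · intro j
    apply norm_eq_one_of_inner (𝕜 := 𝕜)
    rw [inner_cnj, inner_of_norm_eq_one (hv j), map_one]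
  · intro i j
    rw [inner_cnj, huv]

lemma Realizable.sub {t t' : Fin m → Fin n → 𝕜} (h : Realizable t) (h' : Realizable t')
    {α β : ℝ} (hα : 0 ≤ α) (hβ : 0 ≤ β) (hαβ : α + β = 1) :
    Realizable fun i j => (α : 𝕜) * t i j - (β : 𝕜) * t' i j := by
  obtain ⟨ι, _, u, v, hu, hv, huv⟩ := h
  obtain ⟨κ, _, u', v', hu', hv', huv'⟩ := h'
  have ea : ((Real.sqrt α : ℝ) : 𝕜) * ((Real.sqrt α : ℝ) : 𝕜) = (α : 𝕜) := by
    rw [← RCLike.ofReal_mul, Real.mul_self_sqrt hα]
  have eb : ((Real.sqrt β : ℝ) : 𝕜) * ((Real.sqrt β : ℝ) : 𝕜) = (β : 𝕜) := by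
    rw [← RCLike.ofReal_mul, Real.mul_self_sqrt hβ]
  have eab : (α : 𝕜) + (β : 𝕜) = 1 := by rw [← RCLike.ofReal_add, hαβ, RCLike.ofReal_one]
  refine ⟨ι ⊕ κ, inferInstance,
    fun i => dsum (((Real.sqrt α : ℝ) : 𝕜) • u i) (((Real.sqrt β : ℝ) : 𝕜) • u' i),
    fun j => dsum (((Real.sqrt α : ℝ) : 𝕜) • v j) (-(((Real.sqrt β : ℝ) : 𝕜) • v' j)), ?_, ?_, ?_⟩
  · intro i
    apply norm_eq_one_of_inner (𝕜 := 𝕜)
    rw [inner_dsum, inner_smul_left, inner_smul_right, inner_smul_left, inner_smul_right,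
      inner_of_norm_eq_one (hu i), inner_of_norm_eq_one (hu' i), RCLike.conj_ofReal,
      RCLike.conj_ofReal, mul_one, mul_one, ea, eb, eab]
  · intro j
    apply norm_eq_one_of_inner (𝕜 := 𝕜)
    rw [inner_dsum, inner_neg_neg, inner_smul_left, inner_smul_right, inner_smul_left,
      inner_smul_right,
      inner_of_norm_eq_one (hv j), inner_of_norm_eq_one (hv' j), RCLike.conj_ofReal,
      RCLike.conj_ofReal, mul_one, mul_one, ea, eb, eab]
  · intro i j
    rw [inner_dsum, inner_neg_right, inner_smul_left, inner_smul_right, inner_smul_left,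
      inner_smul_right, huv, huv', RCLike.conj_ofReal, RCLike.conj_ofReal, ← mul_assoc,
      ← mul_assoc, ea, eb]
    exact (sub_eq_add_neg _ _).symm

/-- Inner product kernels in arbitrary Hilbert spaces are realizable in a Euclidean space. -/
lemma realizable_of_hilbert {H : Type} [NormedAddCommGroup H] [InnerProductSpace 𝕜 H]
    (u : Fin m → H) (v : Fin n → H) (hu : ∀ i, ‖u i‖ = 1) (hv : ∀ j, ‖v j‖ = 1) :
    Realizable fun i j => inner 𝕜 (u i) (v j) := by
  set E : Submodule 𝕜 H := Submodule.span 𝕜 (Set.range u ∪ Set.range v) with hE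
  have : FiniteDimensional 𝕜 E :=
    FiniteDimensional.span_of_finite 𝕜 ((Set.finite_range u).union (Set.finite_range v))
  have hu' : ∀ i, u i ∈ E := fun i => Submodule.subset_span (Or.inl ⟨i, rfl⟩)
  have hv' : ∀ j, v j ∈ E := fun j => Submodule.subset_span (Or.inr ⟨j, rfl⟩)
  let b := stdOrthonormalBasis 𝕜 E
  refine ⟨Fin (Module.finrank 𝕜 E), inferInstance, fun i => b.repr ⟨u i, hu' i⟩,
    fun j => b.repr ⟨v j, hv' j⟩, ?_, ?_, ?_⟩
  · intro i
    rw [LinearIsometryEquiv.norm_map]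
    exact hu i
  · intro j
    rw [LinearIsometryEquiv.norm_map]
    exact hv j
  · intro i j
    rw [LinearIsometryEquiv.inner_map_map]
    rfl

/-- `t |t|^{2l}` is realizable. -/
lemma Realizable.powKernel {t : Fin m → Fin n → 𝕜} (h : Realizable t) (l : ℕ) :
    Realizable fun i j => t i j * ((‖t i j‖ ^ 2 : ℝ) : 𝕜) ^ l := by
  induction l with
  | zero => simpa using h
  | succ l ih =>
    have := ih.mul (h.mul h.conj)
    have e : (fun (i : Fin m) (j : Fin n) => t i j * ((‖t i j‖ ^ 2 : ℝ) : 𝕜) ^ l *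
        (t i j * (starRingEnd 𝕜) (t i j))) =
        fun i j => t i j * ((‖t i j‖ ^ 2 : ℝ) : 𝕜) ^ (l + 1) := by
      funext i j
      rw [RCLike.mul_conj, pow_succ]
      push_cast
      ring
    rw [e] at this
    exact this

lemma SizedBound.realizable {K : ℝ} (hK : SizedBound 𝕜 m n K) (A : Matrix (Fin m) (Fin n) 𝕜)
    {t : Fin m → Fin n → 𝕜} (h : Realizable t) :
    ‖∑ i, ∑ j, A i j * t i j‖ ≤ K * bilinMax A := by
  obtain ⟨ι, _, u, v, hu, hv, huv⟩ := h
  have := hK.2 A (EuclideanSpace 𝕜 ι) u v hu hv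
  simpa only [huv] using this

end Pool.Agent.helper31.Groth
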