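import Mathlib
import Pool.Agent.helper31.GrothKernel

set_option autoImplicit false

open MeasureTheory
open scoped ComplexOrder ENNReal

namespace Pool.Agent.helper31.Groth

variable {𝕜 : Type} [RCLike 𝕜]

/-- Cauchy-Schwarz for frames: `∑ w_i w_j |⟨u_i,u_j⟩|² ≥ (∑ w_i)² / N`. -/
lemma frame_bound {N k : ℕ} (w : Fin k → ℝ)
    (u : Fin k → EuclideanSpace 𝕜 (Fin N)) (hu : ∀ i, ‖u i‖ = 1) :
    (∑ i, w i) ^ 2 ≤ N * ∑ i, ∑ j, w i * w j * ‖(inner 𝕜 (u i) (u j) : 𝕜)‖ ^ 2 := by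
  set T : Fin N → Fin N → 𝕜 := fun a b => ∑ i, (w i : 𝕜) * (u i a * (starRingEnd 𝕜) (u i b))
    with hT
  -- the diagonal
  have h1 : ∑ a, T a a = ((∑ i, w i : ℝ) : 𝕜) := by
    rw [hT]
    simp only []
    rw [Finset.sum_comm, RCLike.ofReal_sum]
    refine Finset.sum_congr rfl fun i _ => ?_
    rw [← Finset.mul_sum]
    have : ∑ a, u i a * (starRingEnd 𝕜) (u i a) = inner 𝕜 (u i) (u i) := by
      rw [PiLp.inner_apply]
      exact Finset.sum_congr rfl fun a _ => (RCLike.inner_apply _ _).symm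
    rw [this, inner_of_norm_eq_one (hu i), mul_one]
  -- the Frobenius norm
  have h2 : ∑ a, ∑ b, ((‖T a b‖ ^ 2 : ℝ) : 𝕜) =
      ∑ i, ∑ j, ((w i * w j * ‖(inner 𝕜 (u i) (u j) : 𝕜)‖ ^ 2 : ℝ) : 𝕜) := by
    have e1 : ∀ a b, ((‖T a b‖ ^ 2 : ℝ) : 𝕜) = ∑ i, ∑ j,
        (w i : 𝕜) * (w j : 𝕜) * (((starRingEnd 𝕜) (u i a) * u j a) *
          (u i b * (starRingEnd 𝕜) (u j b))) := by
      intro a b
      have : ((‖T a b‖ ^ 2 : ℝ) : 𝕜) = (starRingEnd 𝕜) (T a b) * T a b := by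
        rw [RCLike.conj_mul]
        push_cast
        rfl
      rw [this, hT]
      simp only [map_sum, map_mul, RCLike.conj_ofReal, RCLike.conj_conj]
      rw [Finset.sum_mul_sum]
      exact Finset.sum_congr rfl fun i _ => Finset.sum_congr rfl fun j _ => by ring
    have e2 : ∀ i j, ((w i * w j * ‖(inner 𝕜 (u i) (u j) : 𝕜)‖ ^ 2 : ℝ) : 𝕜) =
        ∑ a, ∑ b, (w i : 𝕜) * (w j : 𝕜) * (((starRingEnd 𝕜) (u i a) * u j a) *
          (u i b * (starRingEnd 𝕜) (u j b))) := by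
      intro i j
      have f1 : inner 𝕜 (u i) (u j) = ∑ a, (starRingEnd 𝕜) (u i a) * u j a := by
        rw [PiLp.inner_apply]
        exact Finset.sum_congr rfl fun a _ => RCLike.inner_apply' _ _
      have f2 : (starRingEnd 𝕜) (inner 𝕜 (u i) (u j)) =
          ∑ b, u i b * (starRingEnd 𝕜) (u j b) := by
        rw [f1, map_sum]
        exact Finset.sum_congr rfl fun a _ => by rw [map_mul, RCLike.conj_conj]
      have f3 : ((‖(inner 𝕜 (u i) (u j) : 𝕜)‖ ^ 2 : ℝ) : 𝕜) =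
          (∑ a, (starRingEnd 𝕜) (u i a) * u j a) * ∑ b, u i b * (starRingEnd 𝕜) (u j b) := by
        rw [← f2, ← f1, RCLike.mul_conj]
        push_cast
        rfl
      rw [RCLike.ofReal_mul, RCLike.ofReal_mul, f3, Finset.sum_mul_sum, Finset.mul_sum]
      exact Finset.sum_congr rfl fun a _ => Finset.mul_sum _ _ _
    simp_rw [e1, e2]
    calc ∑ a, ∑ b, ∑ i, ∑ j, (w i : 𝕜) * (w j : 𝕜) * (((starRingEnd 𝕜) (u i a) * u j a) *
          (u i b * (starRingEnd 𝕜) (u j b)))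
        = ∑ a, ∑ i, ∑ b, ∑ j, (w i : 𝕜) * (w j : 𝕜) * (((starRingEnd 𝕜) (u i a) * u j a) *
          (u i b * (starRingEnd 𝕜) (u j b))) :=
          Finset.sum_congr rfl fun a _ => Finset.sum_comm
      _ = ∑ i, ∑ a, ∑ b, ∑ j, (w i : 𝕜) * (w j : 𝕜) * (((starRingEnd 𝕜) (u i a) * u j a) *
          (u i b * (starRingEnd 𝕜) (u j b))) := Finset.sum_comm
      _ = ∑ i, ∑ a, ∑ j, ∑ b, (w i : 𝕜) * (w j : 𝕜) * (((starRingEnd 𝕜) (u i a) * u j a) *
          (u i b * (starRingEnd 𝕜) (u j b))) :=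
          Finset.sum_congr rfl fun i _ => Finset.sum_congr rfl fun a _ => Finset.sum_comm
      _ = ∑ i, ∑ j, ∑ a, ∑ b, (w i : 𝕜) * (w j : 𝕜) * (((starRingEnd 𝕜) (u i a) * u j a) *
          (u i b * (starRingEnd 𝕜) (u j b))) :=
          Finset.sum_congr rfl fun i _ => Finset.sum_comm
  have h3 : ∑ a, ∑ b, ‖T a b‖ ^ 2 =
      ∑ i, ∑ j, w i * w j * ‖(inner 𝕜 (u i) (u j) : 𝕜)‖ ^ 2 := by
    have := h2
    simp only [← RCLike.ofReal_sum] at this
    exact_mod_cast this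
  have h4 : |∑ i, w i| ≤ ∑ a, ‖T a a‖ := by
    have := norm_sum_le Finset.univ (fun a => T a a)
    rw [h1, RCLike.norm_ofReal] at this
    exact this
  have h5 : (∑ a, ‖T a a‖) ^ 2 ≤ N * ∑ a, ‖T a a‖ ^ 2 := by
    have := sq_sum_le_card_mul_sum_sq (s := (Finset.univ : Finset (Fin N)))
      (f := fun a => ‖T a a‖)
    simpa using this
  have h6 : ∑ a, ‖T a a‖ ^ 2 ≤ ∑ a, ∑ b, ‖T a b‖ ^ 2 := by
    refine Finset.sum_le_sum fun a _ => ?_
    exact Finset.single_le_sum (f := fun b => ‖T a b‖ ^ 2) (fun b _ => sq_nonneg _)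
      (Finset.mem_univ a)
  calc (∑ i, w i) ^ 2 = |∑ i, w i| ^ 2 := (sq_abs _).symm
    _ ≤ (∑ a, ‖T a a‖) ^ 2 := pow_le_pow_left₀ (abs_nonneg _) h4 2
    _ ≤ N * ∑ a, ‖T a a‖ ^ 2 := h5
    _ ≤ N * ∑ a, ∑ b, ‖T a b‖ ^ 2 := mul_le_mul_of_nonneg_left h6 (Nat.cast_nonneg N)
    _ = _ := by rw [h3]

/-- The finite dimensional construction: from vectors `v_i` with all unimodular combinations
bounded by `a` one gets a matrix violating the inequality with the constant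
`2 (∑‖v_i‖)² / (N a²) - 1`. -/
lemma matrix_of_vectors {N k : ℕ} (hN : 0 < N) (hk : 0 < k)
    (v : Fin k → EuclideanSpace 𝕜 (Fin N)) {a : ℝ}
    (hv : ∀ x : Fin k → 𝕜, (∀ i, ‖x i‖ = 1) → ‖∑ i, x i • v i‖ ≤ a) :
    ∃ S B : Matrix (Fin k) (Fin k) 𝕜, IsCorrelation S ∧ rankOneMax B ≤ a ^ 2 / 2 ∧
      (∑ i, ‖v i‖) ^ 2 / N - a ^ 2 / 2 ≤ ‖(B.conjTranspose * S).trace‖ := by
  classical
  -- unit vectors
  have hex : ∀ i, ∃ u : EuclideanSpace 𝕜 (Fin N), ‖u‖ = 1 ∧ v i = ((‖v i‖ : ℝ) : 𝕜) • u := by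
    intro i
    by_cases h : v i = 0
    · refine ⟨EuclideanSpace.single ⟨0, hN⟩ 1, by simp, by simp [h]⟩
    · refine ⟨((‖v i‖⁻¹ : ℝ) : 𝕜) • v i, ?_, ?_⟩
      · rw [norm_smul, RCLike.norm_ofReal, abs_of_nonneg (inv_nonneg.2 (norm_nonneg _))]
        exact inv_mul_cancel₀ (norm_ne_zero_iff.2 h)
      · rw [smul_smul, ← RCLike.ofReal_mul, mul_inv_cancel₀ (norm_ne_zero_iff.2 h),
          RCLike.ofReal_one, one_smul]
  choose u hu1 hu2 using hex
  set S : Matrix (Fin k) (Fin k) 𝕜 := Matrix.gram 𝕜 u with hS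
  set c : ℝ := a ^ 2 / 2 / k with hc
  set B : Matrix (Fin k) (Fin k) 𝕜 :=
    Matrix.gram 𝕜 v - ((c : ℝ) : 𝕜) • (1 : Matrix (Fin k) (Fin k) 𝕜) with hB
  have hkc : (k : ℝ) * c = a ^ 2 / 2 := by
    have : (k : ℝ) ≠ 0 := by exact_mod_cast hk.ne'
    rw [hc]
    field_simp
  -- trace formula
  have htr : ∀ M : Matrix (Fin k) (Fin k) 𝕜, (∀ i, M i i = 1) →
      (B.conjTranspose * M).trace =
        (∑ i, ∑ j, inner 𝕜 (v j) (v i) * M i j) - ((a ^ 2 / 2 : ℝ) : 𝕜) := by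
    intro M hM
    have e1 : (B.conjTranspose * M).trace = ∑ i, ∑ j, (starRingEnd 𝕜) (B i j) * M i j := by
      rw [Matrix.trace]
      simp only [Matrix.diag, Matrix.mul_apply, Matrix.conjTranspose_apply]
      rw [Finset.sum_comm]
      rfl
    have e2 : ∀ i j, (starRingEnd 𝕜) (B i j) * M i j =
        inner 𝕜 (v j) (v i) * M i j - if i = j then ((c : ℝ) : 𝕜) else 0 := by
      intro i j
      rw [hB, Matrix.sub_apply, Matrix.gram_apply, Matrix.smul_apply, Matrix.one_apply, map_sub,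
        inner_conj_symm, smul_eq_mul, map_mul, RCLike.conj_ofReal]
      split_ifs with hij
      · subst hij
        rw [hM]
        simp
      · simp
    rw [e1]
    simp_rw [e2]
    simp only [Finset.sum_sub_distrib, Finset.sum_ite_eq, Finset.mem_univ, if_true,
      Finset.sum_const, Finset.card_univ, Fintype.card_fin, nsmul_eq_mul]
    rw [← hkc]
    push_cast
    rfl
  refine ⟨S, B, ⟨Matrix.posSemidef_gram 𝕜 u, fun i => inner_of_norm_eq_one (hu1 i)⟩, ?_, ?_⟩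
  · -- rank one maximum
    unfold rankOneMax
    refine csSup_le ?_ ?_
    · exact ⟨_, fun _ => 1, by simp, rfl⟩
    · rintro r ⟨x, hx, rfl⟩
      rw [htr _ (fun i => by
        rw [Matrix.vecMulVec_apply, Pi.star_apply, RCLike.star_def, RCLike.mul_conj, hx]
        simp)]
      have e3 : ∑ i, ∑ j, inner 𝕜 (v j) (v i) * Matrix.vecMulVec x (star x) i j =
          ((‖∑ i, x i • v i‖ ^ 2 : ℝ) : 𝕜) := by
        have : ((‖∑ i, x i • v i‖ ^ 2 : ℝ) : 𝕜) =
            inner 𝕜 (∑ i, x i • v i) (∑ i, x i • v i) := by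
          rw [inner_self_eq_norm_sq_to_K]
          push_cast
          rfl
        rw [this, inner_sum]
        refine Finset.sum_congr rfl fun i _ => ?_
        rw [sum_inner]
        refine Finset.sum_congr rfl fun j _ => ?_
        rw [inner_smul_left, inner_smul_right, Matrix.vecMulVec_apply, Pi.star_apply,
          RCLike.star_def]
        ring
      rw [e3, ← RCLike.ofReal_sub, RCLike.norm_ofReal, abs_le]
      have h1 := hv x hx
      have h2 := norm_nonneg (∑ i, x i • v i)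
      constructor
      · nlinarith
      · nlinarith
  · rw [htr S (fun i => inner_of_norm_eq_one (hu1 i))]
    have e4 : ∑ i, ∑ j, inner 𝕜 (v j) (v i) * S i j =
        ((∑ i, ∑ j, ‖v i‖ * ‖v j‖ * ‖(inner 𝕜 (u i) (u j) : 𝕜)‖ ^ 2 : ℝ) : 𝕜) := by
      rw [RCLike.ofReal_sum]
      refine Finset.sum_congr rfl fun i _ => ?_
      rw [RCLike.ofReal_sum]
      refine Finset.sum_congr rfl fun j _ => ?_
      rw [hS, Matrix.gram_apply]
      have : inner 𝕜 (v j) (v i) = ((‖v i‖ * ‖v j‖ : ℝ) : 𝕜) * inner 𝕜 (u j) (u i) := by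
        conv_lhs => rw [hu2 i, hu2 j]
        rw [inner_smul_left, inner_smul_right, RCLike.conj_ofReal]
        push_cast
        ring
      rw [this, mul_assoc, ← inner_conj_symm (u j) (u i), RCLike.conj_mul]
      push_cast
      ring
    rw [e4, ← RCLike.ofReal_sub, RCLike.norm_ofReal]
    refine le_trans ?_ (le_abs_self _)
    have := frame_bound (fun i => ‖v i‖) u hu1
    have hN' : (0 : ℝ) < N := by exact_mod_cast hN
    have h7 : (∑ i, ‖v i‖) ^ 2 / N ≤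
        ∑ i, ∑ j, ‖v i‖ * ‖v j‖ * ‖(inner 𝕜 (u i) (u j) : 𝕜)‖ ^ 2 := by
      rw [div_le_iff₀ hN']
      linarith
    linarith

/-- Discretisation of a measure: from a probability measure `μ` on `𝕜^N` one obtains vectors. -/
lemma vectors_of_measure {N : ℕ} [MeasurableSpace 𝕜] [BorelSpace 𝕜]
    (μ : Measure (EuclideanSpace 𝕜 (Fin N))) [IsProbabilityMeasure μ]
    (hid : Integrable (fun x : EuclideanSpace 𝕜 (Fin N) => x) μ) {a : ℝ} (ha : 0 ≤ a)
    (hμa : ∀ w : EuclideanSpace 𝕜 (Fin N), ‖w‖ = 1 → ∫ x, ‖(inner 𝕜 w x : 𝕜)‖ ∂μ ≤ a)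
    {ε : ℝ} (hε : 0 < ε) :
    ∃ k : ℕ, 0 < k ∧ ∃ v : Fin k → EuclideanSpace 𝕜 (Fin N),
      (∀ x : Fin k → 𝕜, (∀ i, ‖x i‖ = 1) → ‖∑ i, x i • v i‖ ≤ a) ∧
      (∫ x, ‖x‖ ∂μ) - ε ≤ ∑ i, ‖v i‖ := by
  classical
  obtain ⟨s, hs1, hs2⟩ := (memLp_one_iff_integrable.2 hid).exists_simpleFunc_eLpNorm_sub_lt
    (by norm_num) (ε := ENNReal.ofReal (ε / 2)) (by
      simp only [ne_eq, ENNReal.ofReal_eq_zero, not_le]
      linarith)
  have hsi : Integrable s μ := memLp_one_iff_integrable.1 hs2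
  have hdi : Integrable (fun x => x - s x) μ := hid.sub hsi
  have herr : ∫ x, ‖x - s x‖ ∂μ ≤ ε / 2 := by
    have h1 : eLpNorm (fun x => x - s x) 1 μ < ENNReal.ofReal (ε / 2) := hs1
    rw [eLpNorm_one_eq_lintegral_enorm] at h1
    rw [integral_norm_eq_lintegral_enorm hdi.aestronglyMeasurable]
    have := ENNReal.toReal_mono ENNReal.ofReal_ne_top h1.le
    rwa [ENNReal.toReal_ofReal (by linarith)] at this
  set k : ℕ := s.range.card with hk
  have e : s.range ≃ Fin k := s.range.equivFin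
  set c : Fin k → EuclideanSpace 𝕜 (Fin N) := fun i => (e.symm i : EuclideanSpace 𝕜 (Fin N))
    with hc
  have hcinj : Function.Injective c := fun i j h => e.symm.injective (Subtype.ext h)
  set C : Fin k → Set (EuclideanSpace 𝕜 (Fin N)) := fun i => s ⁻¹' {c i} with hC
  have hCm : ∀ i, MeasurableSet (C i) := fun i => s.measurableSet_preimage _
  have hCd : Pairwise (Function.onFun Disjoint C) := by
    intro i j hij
    refine Set.disjoint_left.2 fun x hx hx' => hij (hcinj ?_)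
    have h1 : s x = c i := hx
    have h2 : s x = c j := hx'
    rw [← h1, ← h2]
  have hCu : (⋃ i, C i) = Set.univ := by
    refine Set.eq_univ_of_forall fun x => ?_
    rw [Set.mem_iUnion]
    refine ⟨e ⟨s x, s.mem_range_self x⟩, ?_⟩
    change s x = c _
    rw [hc]
    simp
  have hsum : ∀ {F : Type} [NormedAddCommGroup F] [NormedSpace ℝ F]
      (g : EuclideanSpace 𝕜 (Fin N) → F), Integrable g μ →
      ∑ i, ∫ x in C i, g x ∂μ = ∫ x, g x ∂μ := by
    intro F _ _ g hg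
    rw [← integral_iUnion_fintype hCm hCd fun i => hg.integrableOn, hCu, setIntegral_univ]
  have hkpos : 0 < k := by
    rw [hk, Finset.card_pos]
    exact ⟨s 0, s.mem_range_self 0⟩
  refine ⟨k, hkpos, fun i => ∫ x in C i, x ∂μ, ?_, ?_⟩
  · intro x hx
    set y := ∑ i, x i • ∫ z in C i, z ∂μ with hy
    by_cases hy0 : y = 0
    · rw [hy0, norm_zero]
      exact ha
    · have hyn : ‖y‖ ≠ 0 := norm_ne_zero_iff.2 hy0
      set w := ((‖y‖⁻¹ : ℝ) : 𝕜) • y with hw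
      have hw1 : ‖w‖ = 1 := by
        rw [hw, norm_smul, RCLike.norm_ofReal, abs_of_nonneg (inv_nonneg.2 (norm_nonneg _))]
        exact inv_mul_cancel₀ hyn
      have h1 : inner 𝕜 w y = ((‖y‖ : ℝ) : 𝕜) := by
        rw [hw, inner_smul_left, inner_self_eq_norm_sq_to_K, RCLike.conj_ofReal]
        rw [← RCLike.ofReal_pow, ← RCLike.ofReal_mul]
        congr 1
        field_simp
      have h2 : inner 𝕜 w y = ∑ i, x i * ∫ z in C i, inner 𝕜 w z ∂μ := by
        rw [hy, inner_sum]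
        refine Finset.sum_congr rfl fun i _ => ?_
        rw [inner_smul_right, integral_inner hid.integrableOn]
      have hwi : Integrable (fun z => (inner 𝕜 w z : 𝕜)) μ := hid.const_inner w
      calc ‖y‖ = ‖((‖y‖ : ℝ) : 𝕜)‖ := by rw [RCLike.norm_ofReal, abs_of_nonneg (norm_nonneg _)]
        _ = ‖∑ i, x i * ∫ z in C i, inner 𝕜 w z ∂μ‖ := by rw [← h1, h2]
        _ ≤ ∑ i, ‖x i * ∫ z in C i, inner 𝕜 w z ∂μ‖ := norm_sum_le _ _
        _ ≤ ∑ i, ∫ z in C i, ‖(inner 𝕜 w z : 𝕜)‖ ∂μ := by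
            refine Finset.sum_le_sum fun i _ => ?_
            rw [norm_mul, hx, one_mul]
            exact norm_integral_le_integral_norm _
        _ = ∫ z, ‖(inner 𝕜 w z : 𝕜)‖ ∂μ := hsum _ hwi.norm
        _ ≤ a := hμa w hw1
  · have h3 : ∀ i, ∫ x in C i, ‖x‖ ∂μ - 2 * ∫ x in C i, ‖x - s x‖ ∂μ ≤ ‖∫ x in C i, x ∂μ‖ := by
      intro i
      have hi1 : IntegrableOn (fun x => x) (C i) μ := hid.integrableOn
      have hi2 : IntegrableOn (fun x => x - s x) (C i) μ := hdi.integrableOn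
      have hi3 : IntegrableOn (fun x => s x) (C i) μ := hsi.integrableOn
      have g1 : ∫ x in C i, s x ∂μ = ∫ x in C i, x ∂μ - ∫ x in C i, (x - s x) ∂μ := by
        rw [← integral_sub hi1 hi2]
        congr 1
        ext x
        simp
      have g2 : ‖∫ x in C i, s x ∂μ‖ = ∫ x in C i, ‖s x‖ ∂μ := by
        have f1 : ∫ x in C i, s x ∂μ = ∫ x in C i, c i ∂μ :=
          setIntegral_congr_fun (hCm i) fun x hx => hx
        have f2 : ∫ x in C i, ‖s x‖ ∂μ = ∫ x in C i, ‖c i‖ ∂μ :=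
          setIntegral_congr_fun (hCm i) fun x hx => by
            have : s x = c i := hx
            simp only [this]
        rw [f1, f2, setIntegral_const, setIntegral_const, norm_smul, smul_eq_mul,
          Real.norm_eq_abs, abs_of_nonneg measureReal_nonneg]
      have g3 : ∫ x in C i, ‖x‖ ∂μ ≤ ∫ x in C i, ‖s x‖ ∂μ + ∫ x in C i, ‖x - s x‖ ∂μ := by
        rw [← integral_add hi3.norm hi2.norm]
        refine integral_mono hi1.norm (hi3.norm.add hi2.norm) fun x => ?_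
        have := norm_add_le (s x) (x - s x)
        simpa using this
      have g4 : ‖∫ x in C i, (x - s x) ∂μ‖ ≤ ∫ x in C i, ‖x - s x‖ ∂μ :=
        norm_integral_le_integral_norm _
      have g5 : ‖∫ x in C i, s x ∂μ‖ ≤ ‖∫ x in C i, x ∂μ‖ + ‖∫ x in C i, (x - s x) ∂μ‖ := by
        rw [g1]
        exact norm_sub_le _ _
      linarith
    calc (∫ x, ‖x‖ ∂μ) - ε ≤ ∫ x, ‖x‖ ∂μ - 2 * ∫ x, ‖x - s x‖ ∂μ := by linarith
      _ = ∑ i, (∫ x in C i, ‖x‖ ∂μ - 2 * ∫ x in C i, ‖x - s x‖ ∂μ) := by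
          rw [Finset.sum_sub_distrib, ← Finset.mul_sum, hsum _ hid.norm, hsum _ hdi.norm]
      _ ≤ _ := Finset.sum_le_sum fun i _ => h3 i

end Pool.Agent.helper31.Groth
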