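import Mathlib
import Pool.Agent.helper31.GrothKernel

set_option autoImplicit false

open MeasureTheory
open scoped ComplexOrder ENNReal

namespace Pool.Agent.helper31.Groth

variable {𝕜 : Type} [RCLike 𝕜] [MeasurableSpace 𝕜] [BorelSpace 𝕜]

/-- The pair of correlated points `(z, T z + s w)`. -/
noncomputable def corrPair (T : 𝕜) (p : 𝕜 × 𝕜) : 𝕜 × 𝕜 :=
  (p.1, T * p.1 + ((Real.sqrt (1 - ‖T‖ ^ 2) : ℝ) : 𝕜) * p.2)

/-- A Gaussian system: for each finite index type a family of random variables indexed by the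
unit vectors with the joint laws prescribed by the inner product. -/
def GaussSys (γ : Measure 𝕜) : Prop :=
  ∀ (ι : Type) [Fintype ι], ∃ (Ω : Type) (_ : MeasurableSpace Ω) (μ : Measure Ω)
    (G : EuclideanSpace 𝕜 ι → Ω → 𝕜), IsProbabilityMeasure μ ∧ (∀ U, Measurable (G U)) ∧
    ∀ U V, ‖U‖ = 1 → ‖V‖ = 1 →
      μ.map (fun ω => (G U ω, G V ω)) = (γ.prod γ).map (corrPair (inner 𝕜 U V))

/-- The data needed in the rounding argument. -/
structure RoundData (γ : Measure 𝕜) (f : 𝕜 → 𝕜) (Hk : Fin 3 → 𝕜 → 𝕜) (F nn : Fin 3 → ℝ) :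
    Prop where
  meas_f : Measurable f
  norm_f : ∀ z, ‖f z‖ ≤ 1
  meas_H : ∀ k, Measurable (Hk k)
  memLp_H : ∀ k, MemLp (Hk k) 2 γ
  mehler : ∀ (k : Fin 3) (T : 𝕜) (s : ℝ), ‖T‖ ^ 2 + s ^ 2 = 1 → ∀ z,
    ∫ w, Hk k (T * z + (s : 𝕜) * w) ∂γ = T * ((‖T‖ ^ 2 : ℝ) : 𝕜) ^ (k : ℕ) * Hk k z
  orth : ∀ j k, ∫ z, inner 𝕜 (Hk j z) (Hk k z) ∂γ = if j = k then (nn k : 𝕜) else 0
  coef : ∀ k, ∫ z, inner 𝕜 (f z) (Hk k z) ∂γ = (F k : 𝕜)
  pos : ∀ k, 0 < nn k

section

variable {γ : Measure 𝕜} [IsProbabilityMeasure γ]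

lemma measurable_corrPair (T : 𝕜) : Measurable (corrPair T) := by
  unfold corrPair
  fun_prop

/-- Cross correlations in a Gaussian system. -/
lemma cross_integral {Ω : Type} [MeasurableSpace Ω] {μ : Measure Ω} [IsProbabilityMeasure μ]
    {X Y : Ω → 𝕜} (hX : Measurable X) (hY : Measurable Y) {T : 𝕜} (hT : ‖T‖ ≤ 1)
    (hlaw : μ.map (fun ω => (X ω, Y ω)) = (γ.prod γ).map (corrPair T))
    (hYlaw : μ.map Y = γ)
    {g h : 𝕜 → 𝕜} (hg : Measurable g) (hh : Measurable h)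
    (hg2 : MemLp g 2 γ) (hh2 : MemLp h 2 γ) {c : 𝕜}
    (hmeh : ∀ z, ∫ w, h (T * z + ((Real.sqrt (1 - ‖T‖ ^ 2) : ℝ) : 𝕜) * w) ∂γ = c * h z) :
    ∫ ω, inner 𝕜 (g (X ω)) (h (Y ω)) ∂μ = c * ∫ z, inner 𝕜 (g z) (h z) ∂γ := by
  have hXY : Measurable (fun ω => (X ω, Y ω)) := hX.prodMk hY
  have hin : Measurable (fun p : 𝕜 × 𝕜 => inner 𝕜 (g p.1) (h p.2)) := by
    simp only [RCLike.inner_apply']
    exact ((RCLike.continuous_conj.measurable.comp (hg.comp measurable_fst))).mul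
      (hh.comp measurable_snd)
  have e1 : ∫ ω, inner 𝕜 (g (X ω)) (h (Y ω)) ∂μ =
      ∫ p, inner 𝕜 (g p.1) (h p.2) ∂(μ.map (fun ω => (X ω, Y ω))) := by
    rw [integral_map hXY.aemeasurable hin.aestronglyMeasurable]
  rw [e1, hlaw, integral_map (measurable_corrPair T).aemeasurable hin.aestronglyMeasurable]
  -- law of the second coordinate
  have hsnd : (γ.prod γ).map (fun p => (corrPair T p).2) = γ := by
    have : (γ.prod γ).map (fun p => (corrPair T p).2) =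
        ((γ.prod γ).map (corrPair T)).map Prod.snd := by
      rw [Measure.map_map measurable_snd (measurable_corrPair T)]
      rfl
    rw [this, ← hlaw, Measure.map_map measurable_snd hXY]
    exact hYlaw
  have m1 : MemLp (fun p : 𝕜 × 𝕜 => g p.1) 2 (γ.prod γ) :=
    hg2.comp_measurePreserving (measurePreserving_fst (μ := γ) (ν := γ))
  have m2 : MemLp (fun p : 𝕜 × 𝕜 => h (corrPair T p).2) 2 (γ.prod γ) :=
    hh2.comp_measurePreserving ⟨(measurable_corrPair T).snd, hsnd⟩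
  have hint : Integrable (fun p : 𝕜 × 𝕜 => inner 𝕜 (g (corrPair T p).1) (h (corrPair T p).2))
      (γ.prod γ) := by
    have := m1.star.integrable_mul m2
    refine this.congr (Filter.Eventually.of_forall fun p => ?_)
    simp [corrPair, mul_comm]
  rw [integral_prod _ hint]
  have e2 : ∀ z, ∫ w, inner 𝕜 (g (corrPair T (z, w)).1) (h (corrPair T (z, w)).2) ∂γ =
      c * inner 𝕜 (g z) (h z) := by
    intro z
    simp only [corrPair, RCLike.inner_apply']
    rw [integral_const_mul, hmeh]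
    ring
  simp_rw [e2]
  rw [integral_const_mul]

end

section hilbert

variable {L : Type} [NormedAddCommGroup L] [InnerProductSpace 𝕜 L]

/-- Projection away from three orthogonal directions. -/
noncomputable def resid (a : Fin 3 → ℝ) (φ : L) (η : Fin 3 → L) : L :=
  φ - ∑ k, ((a k : ℝ) : 𝕜) • η k

lemma inner_resid {F nn : Fin 3 → ℝ} (hnn : ∀ k, 0 < nn k) {φ φ' : L} {η η' : Fin 3 → L}
    {κ : Fin 3 → 𝕜}
    (h1 : ∀ k, inner 𝕜 φ (η' k) = κ k * (F k : 𝕜))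
    (h2 : ∀ k, inner 𝕜 (η k) φ' = κ k * (F k : 𝕜))
    (h3 : ∀ j k, inner 𝕜 (η j) (η' k) = if j = k then κ k * (nn k : 𝕜) else 0) :
    inner 𝕜 (resid (𝕜 := 𝕜) (fun k => F k / nn k) φ η) (resid (𝕜 := 𝕜) (fun k => F k / nn k) φ' η')
      = inner 𝕜 φ φ' - ∑ k, ((F k ^ 2 / nn k : ℝ) : 𝕜) * κ k := by
  unfold resid
  rw [inner_sub_left, inner_sub_right, inner_sub_right]
  simp only [inner_sum, sum_inner, inner_smul_left, inner_smul_right, RCLike.conj_ofReal, h1, h2,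
    h3]
  have hk : ∀ k, ((nn k : ℝ) : 𝕜) ≠ 0 := fun k => by exact_mod_cast (hnn k).ne'
  have e : ∀ k : Fin 3, ((F k / nn k : ℝ) : 𝕜) * (((F k / nn k : ℝ) : 𝕜) * (κ k * (nn k : 𝕜))) =
      ((F k ^ 2 / nn k : ℝ) : 𝕜) * κ k := by
    intro k
    have := hk k
    push_cast
    field_simp
  have e' : ∀ k : Fin 3, ((F k / nn k : ℝ) : 𝕜) * (κ k * (F k : 𝕜)) =
      ((F k ^ 2 / nn k : ℝ) : 𝕜) * κ k := by
    intro k
    have := hk k
    push_cast
    field_simp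
  have h01 : ¬ ((0 : Fin 3) = 1) := by decide
  have h02 : ¬ ((0 : Fin 3) = 2) := by decide
  have h10 : ¬ ((1 : Fin 3) = 0) := by decide
  have h12 : ¬ ((1 : Fin 3) = 2) := by decide
  have h20 : ¬ ((2 : Fin 3) = 0) := by decide
  have h21 : ¬ ((2 : Fin 3) = 1) := by decide
  simp only [Fin.sum_univ_three, h01, h02, h10, h12, h20, h21, if_true, if_false, mul_zero,
    add_zero, zero_add, e, e']
  ring

end hilbert

end Pool.Agent.helper31.Groth
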