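import Mathlib
import Pool.Agent.helper31.GrothRound

set_option autoImplicit false

open MeasureTheory
open scoped ComplexOrder ENNReal

namespace Pool.Agent.helper31.Groth

variable {𝕜 : Type} [RCLike 𝕜] [MeasurableSpace 𝕜] [BorelSpace 𝕜]

/-- the polynomial coefficients -/
def rcoef (α β : ℝ) (c : Fin 3 → ℝ) : Fin 7 → ℝ :=
  ![-(c 0 * β) + c 1 * α ^ 3,
    -(3 * c 1 * α ^ 2 * β) + c 2 * α ^ 5,
    3 * c 1 * α * β ^ 2 - 5 * c 2 * α ^ 4 * β,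
    -(c 1 * β ^ 3) + 10 * c 2 * α ^ 3 * β ^ 2,
    -(10 * c 2 * α ^ 2 * β ^ 3),
    5 * c 2 * α * β ^ 4,
    -(c 2 * β ^ 5)]

omit [MeasurableSpace 𝕜] [BorelSpace 𝕜] in
lemma expand_kernel (α β : ℝ) (c : Fin 3 → ℝ) (t T : 𝕜)
    (hT : T = (α : 𝕜) * t - (β : 𝕜) * (t * ((‖t‖ ^ 2 : ℝ) : 𝕜) ^ 1)) :
    ∑ k : Fin 3, ((c k : ℝ) : 𝕜) * (T * ((‖T‖ ^ 2 : ℝ) : 𝕜) ^ (k : ℕ)) =
      ((c 0 * α : ℝ) : 𝕜) * t +
        ∑ l : Fin 7, ((rcoef α β c l : ℝ) : 𝕜) * (t * ((‖t‖ ^ 2 : ℝ) : 𝕜) ^ ((l : ℕ) + 1)) := by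
  have h1 : T = t * ((α - β * ‖t‖ ^ 2 : ℝ) : 𝕜) := by
    rw [hT]; push_cast; ring
  have h2 : ‖T‖ ^ 2 = ‖t‖ ^ 2 * (α - β * ‖t‖ ^ 2) ^ 2 := by
    rw [h1, norm_mul, RCLike.norm_ofReal, mul_pow, sq_abs]
  rw [h2]
  simp only [Fin.sum_univ_three, Fin.sum_univ_seven, rcoef]
  rw [h1]
  simp only [Matrix.cons_val]
  push_cast
  simp only [Fin.coe_ofNat_eq_mod]
  norm_num
  ring

section

variable {γ : Measure 𝕜} [IsProbabilityMeasure γ] {f : 𝕜 → 𝕜} {Hk : Fin 3 → 𝕜 → 𝕜}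
  {F nn : Fin 3 → ℝ} {m n : ℕ}

lemma marginal {ι : Type} [Fintype ι] {Ω : Type} [MeasurableSpace Ω] {μ : Measure Ω}
    {G : EuclideanSpace 𝕜 ι → Ω → 𝕜} (hGm : ∀ U, Measurable (G U))
    (hlaw : ∀ U V, ‖U‖ = 1 → ‖V‖ = 1 →
      μ.map (fun ω => (G U ω, G V ω)) = (γ.prod γ).map (corrPair (inner 𝕜 U V)))
    {U : EuclideanSpace 𝕜 ι} (hU : ‖U‖ = 1) : MeasurePreserving (G U) μ γ := by
  refine ⟨hGm U, ?_⟩
  have h1 := congrArg (Measure.map Prod.fst) (hlaw U U hU hU)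
  rw [Measure.map_map measurable_fst ((hGm U).prodMk (hGm U)),
    Measure.map_map measurable_fst (measurable_corrPair _)] at h1
  have h2 : (γ.prod γ).map (Prod.fst ∘ corrPair (inner 𝕜 U U)) = γ :=
    (measurePreserving_fst (μ := γ) (ν := γ)).map_eq
  rw [h2] at h1
  exact h1

lemma inner_toLp {Ω : Type} [MeasurableSpace Ω] {μ : Measure Ω} {g h : Ω → 𝕜}
    (hg : MemLp g 2 μ) (hh : MemLp h 2 μ) :
    inner 𝕜 (hg.toLp g) (hh.toLp h) = ∫ ω, inner 𝕜 (g ω) (h ω) ∂μ := by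
  rw [L2.inner_def]
  refine integral_congr_ae ?_
  filter_upwards [hg.coeFn_toLp, hh.coeFn_toLp] with ω h1 h2
  rw [h1, h2]

/-- The improvement step. -/
lemma boot_step (hG : GaussSys γ) (hR : RoundData γ f Hk F nn) {Nf : ℝ}
    (hNf : ∫ z, ‖f z‖ ^ 2 ∂γ = Nf) {α β : ℝ} (hα : 0 ≤ α) (hβ : 0 ≤ β) (hαβ : α + β = 1)
    {ρ : ℝ} (hρ : 0 < ρ) (hρ2 : ρ ^ 2 = Nf - ∑ k, F k ^ 2 / nn k)
    (hc : 0 < F 0 ^ 2 / nn 0 * α) {K : ℝ} (hK : SizedBound 𝕜 m n K) :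
    SizedBound 𝕜 m n ((1 + K * (ρ ^ 2 + ∑ l, |rcoef α β (fun k => F k ^ 2 / nn k) l|)) /
      (F 0 ^ 2 / nn 0 * α)) := by
  have hδ : 0 ≤ ∑ l, |rcoef α β (fun k => F k ^ 2 / nn k) l| :=
    Finset.sum_nonneg fun _ _ => abs_nonneg _
  refine ⟨div_nonneg (add_nonneg zero_le_one (mul_nonneg hK.1 (by positivity))) hc.le, ?_⟩
  intro A H _ _ _ u v hu hv
  set t : Fin m → Fin n → 𝕜 := fun i j => inner 𝕜 (u i) (v j) with ht_def
  have ht : Realizable t := realizable_of_hilbert u v hu hv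
  obtain ⟨ι, _, U, V, hU, hV, hUV⟩ := ht.sub (ht.powKernel 1) hα hβ hαβ
  obtain ⟨Ω, mΩ, μ, G, hμ, hGm, hlaw⟩ := hG ι
  have mp : ∀ {W : EuclideanSpace 𝕜 ι}, ‖W‖ = 1 → MeasurePreserving (G W) μ γ :=
    fun hW => marginal hGm hlaw hW
  have hf2 : MemLp f 2 γ := by
    refine MemLp.of_bound hR.meas_f.aestronglyMeasurable 1 (Filter.Eventually.of_forall hR.norm_f)
  have mf : ∀ {W : EuclideanSpace 𝕜 ι}, ‖W‖ = 1 → MemLp (fun ω => f (G W ω)) 2 μ :=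
    fun hW => hf2.comp_measurePreserving (mp hW)
  have mh : ∀ (k : Fin 3) {W : EuclideanSpace 𝕜 ι}, ‖W‖ = 1 →
      MemLp (fun ω => Hk k (G W ω)) 2 μ :=
    fun k W hW => (hR.memLp_H k).comp_measurePreserving (mp hW)
  -- cross correlations
  have cross : ∀ (g : 𝕜 → 𝕜) (_ : Measurable g) (_ : MemLp g 2 γ) (k : Fin 3)
      (W X : EuclideanSpace 𝕜 ι), ‖W‖ = 1 → ‖X‖ = 1 →
      ∫ ω, inner 𝕜 (g (G W ω)) (Hk k (G X ω)) ∂μ =
        (inner 𝕜 W X * ((‖(inner 𝕜 W X : 𝕜)‖ ^ 2 : ℝ) : 𝕜) ^ (k : ℕ)) *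
          ∫ z, inner 𝕜 (g z) (Hk k z) ∂γ := by
    intro g hg hg2 k W X hW hX
    have hT : ‖(inner 𝕜 W X : 𝕜)‖ ≤ 1 := by
      have := norm_inner_le_norm (𝕜 := 𝕜) W X
      rwa [hW, hX, mul_one] at this
    refine cross_integral (hGm W) (hGm X) hT (hlaw W X hW hX) (mp hX).map_eq hg (hR.meas_H k) hg2
      (hR.memLp_H k) fun z => ?_
    refine hR.mehler k _ _ ?_ z
    rw [Real.sq_sqrt]
    · ring
    · have := norm_nonneg (inner 𝕜 W X : 𝕜)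
      nlinarith
  -- the vectors
  set φ : (W : EuclideanSpace 𝕜 ι) → ‖W‖ = 1 → Lp 𝕜 2 μ := fun W hW => (mf hW).toLp _ with hφ
  set η : (W : EuclideanSpace 𝕜 ι) → ‖W‖ = 1 → Fin 3 → Lp 𝕜 2 μ :=
    fun W hW k => (mh k hW).toLp _ with hη
  have i1 : ∀ (W X : EuclideanSpace 𝕜 ι) (hW : ‖W‖ = 1) (hX : ‖X‖ = 1) (k : Fin 3),
      inner 𝕜 (φ W hW) (η X hX k) =
        (inner 𝕜 W X * ((‖(inner 𝕜 W X : 𝕜)‖ ^ 2 : ℝ) : 𝕜) ^ (k : ℕ)) * (F k : 𝕜) := by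
    intro W X hW hX k
    rw [hφ, hη]
    simp only []
    rw [inner_toLp, cross f hR.meas_f hf2 k W X hW hX, hR.coef]
  have i2 : ∀ (W X : EuclideanSpace 𝕜 ι) (hW : ‖W‖ = 1) (hX : ‖X‖ = 1) (k : Fin 3),
      inner 𝕜 (η W hW k) (φ X hX) =
        (inner 𝕜 W X * ((‖(inner 𝕜 W X : 𝕜)‖ ^ 2 : ℝ) : 𝕜) ^ (k : ℕ)) * (F k : 𝕜) := by
    intro W X hW hX k
    rw [← inner_conj_symm, i1 X W hX hW k, map_mul, map_mul, map_pow, RCLike.conj_ofReal,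
      RCLike.conj_ofReal, inner_conj_symm, norm_inner_symm]
  have i3 : ∀ (W X : EuclideanSpace 𝕜 ι) (hW : ‖W‖ = 1) (hX : ‖X‖ = 1) (j k : Fin 3),
      inner 𝕜 (η W hW j) (η X hX k) = if j = k then
        (inner 𝕜 W X * ((‖(inner 𝕜 W X : 𝕜)‖ ^ 2 : ℝ) : 𝕜) ^ (k : ℕ)) * (nn k : 𝕜) else 0 := by
    intro W X hW hX j k
    rw [hη]
    simp only []
    rw [inner_toLp, cross (Hk j) (hR.meas_H j) (hR.memLp_H j) k W X hW hX, hR.orth, mul_ite,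
      mul_zero]
  have i4 : ∀ (W : EuclideanSpace 𝕜 ι) (hW : ‖W‖ = 1),
      inner 𝕜 (φ W hW) (φ W hW) = (Nf : 𝕜) := by
    intro W hW
    rw [hφ]
    simp only []
    rw [inner_toLp]
    have e : ∫ ω, inner 𝕜 (f (G W ω)) (f (G W ω)) ∂μ = ∫ z, inner 𝕜 (f z) (f z) ∂γ := by
      rw [← (mp hW).map_eq, integral_map (hGm W).aemeasurable]
      simp only [RCLike.inner_apply']
      exact ((RCLike.continuous_conj.measurable.comp hR.meas_f).mul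
        hR.meas_f).aestronglyMeasurable
    rw [e]
    simp only [inner_self_eq_norm_sq_to_K]
    rw [← hNf, ← integral_ofReal]
    push_cast
    rfl
  -- residual vectors
  set e : (W : EuclideanSpace 𝕜 ι) → ‖W‖ = 1 → Lp 𝕜 2 μ := fun W hW =>
    resid (𝕜 := 𝕜) (fun k => F k / nn k) (φ W hW) (η W hW) with he
  have ie : ∀ (W X : EuclideanSpace 𝕜 ι) (hW : ‖W‖ = 1) (hX : ‖X‖ = 1),
      inner 𝕜 (e W hW) (e X hX) = inner 𝕜 (φ W hW) (φ X hX) -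
        ∑ k, ((F k ^ 2 / nn k : ℝ) : 𝕜) *
          (inner 𝕜 W X * ((‖(inner 𝕜 W X : 𝕜)‖ ^ 2 : ℝ) : 𝕜) ^ (k : ℕ)) := by
    intro W X hW hX
    exact inner_resid hR.pos (i1 W X hW hX) (i2 W X hW hX) (i3 W X hW hX)
  have ne : ∀ (W : EuclideanSpace 𝕜 ι) (hW : ‖W‖ = 1), ‖e W hW‖ = ρ := by
    intro W hW
    have h1 := ie W W hW hW
    rw [i4 W hW, inner_self_eq_norm_sq_to_K, inner_of_norm_eq_one hW] at h1
    simp only [norm_one, one_pow, RCLike.ofReal_one, mul_one] at h1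
    have h2 : ‖e W hW‖ ^ 2 = ρ ^ 2 := by
      rw [hρ2]
      exact_mod_cast h1
    have h3 := norm_nonneg (e W hW)
    nlinarith [sq_nonneg (‖e W hW‖ - ρ), sq_nonneg (‖e W hW‖ + ρ)]
  -- the three estimates
  have b1 : ‖∑ i, ∑ j, A i j * inner 𝕜 (φ (U i) (hU i)) (φ (V j) (hV j))‖ ≤ bilinMax A := by
    have e1 : ∑ i, ∑ j, A i j * inner 𝕜 (φ (U i) (hU i)) (φ (V j) (hV j)) =
        ∫ ω, ∑ i, ∑ j, A i j * (starRingEnd 𝕜) (f (G (U i) ω)) * f (G (V j) ω) ∂μ := by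
      have hi : ∀ i j, Integrable
          (fun ω => A i j * (starRingEnd 𝕜) (f (G (U i) ω)) * f (G (V j) ω)) μ := by
        intro i j
        have := ((mf (hU i)).star.integrable_mul (mf (hV j))).const_mul (A i j)
        refine this.congr (Filter.Eventually.of_forall fun ω => ?_)
        simp [mul_assoc]
      rw [integral_finsetSum _ fun i _ => integrable_finsetSum _ fun j _ => hi i j]
      refine Finset.sum_congr rfl fun i _ => ?_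
      rw [integral_finsetSum _ fun j _ => hi i j]
      refine Finset.sum_congr rfl fun j _ => ?_
      rw [hφ]
      simp only []
      rw [inner_toLp, ← integral_const_mul]
      refine integral_congr_ae (Filter.Eventually.of_forall fun ω => ?_)
      simp only [RCLike.inner_apply']
      ring
    rw [e1]
    refine (norm_integral_le_of_norm_le_const (C := bilinMax A)
      (Filter.Eventually.of_forall fun ω => ?_)).trans ?_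
    · exact le_bilinMax_ball A (fun i => by rw [RCLike.norm_conj]; exact hR.norm_f _)
        (fun j => hR.norm_f _)
    · simp
  have b2 : ‖∑ i, ∑ j, A i j * inner 𝕜 (e (U i) (hU i)) (e (V j) (hV j))‖ ≤
      K * ρ ^ 2 * bilinMax A :=
    hK.scaled A _ _ hρ (fun i => ne (U i) (hU i)) (fun j => ne (V j) (hV j))
  have b3 : ∀ l : Fin 7, ‖∑ i, ∑ j, A i j * (t i j * ((‖t i j‖ ^ 2 : ℝ) : 𝕜) ^ ((l : ℕ) + 1))‖ ≤
      K * bilinMax A := fun l => hK.realizable A (ht.powKernel _)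
  -- main identity
  have key : ((F 0 ^ 2 / nn 0 * α : ℝ) : 𝕜) * ∑ i, ∑ j, A i j * t i j =
      ∑ i, ∑ j, A i j * inner 𝕜 (φ (U i) (hU i)) (φ (V j) (hV j)) -
      ∑ i, ∑ j, A i j * inner 𝕜 (e (U i) (hU i)) (e (V j) (hV j)) -
      ∑ l : Fin 7, ((rcoef α β (fun k => F k ^ 2 / nn k) l : ℝ) : 𝕜) *
        ∑ i, ∑ j, A i j * (t i j * ((‖t i j‖ ^ 2 : ℝ) : 𝕜) ^ ((l : ℕ) + 1)) := by
    have k1 : ∀ i j, ((F 0 ^ 2 / nn 0 * α : ℝ) : 𝕜) * (A i j * t i j) =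
        A i j * inner 𝕜 (φ (U i) (hU i)) (φ (V j) (hV j)) -
        A i j * inner 𝕜 (e (U i) (hU i)) (e (V j) (hV j)) -
        ∑ l : Fin 7, ((rcoef α β (fun k => F k ^ 2 / nn k) l : ℝ) : 𝕜) *
          (A i j * (t i j * ((‖t i j‖ ^ 2 : ℝ) : 𝕜) ^ ((l : ℕ) + 1))) := by
      intro i j
      have h1 := expand_kernel α β (fun k => F k ^ 2 / nn k) (t i j) (inner 𝕜 (U i) (V j))
        (hUV i j)
      have h2 := ie (U i) (V j) (hU i) (hV j)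
      rw [h1] at h2
      rw [h2]
      have h3 : ∑ l : Fin 7, ((rcoef α β (fun k => F k ^ 2 / nn k) l : ℝ) : 𝕜) *
          (A i j * (t i j * ((‖t i j‖ ^ 2 : ℝ) : 𝕜) ^ ((l : ℕ) + 1))) =
          A i j * ∑ l : Fin 7, ((rcoef α β (fun k => F k ^ 2 / nn k) l : ℝ) : 𝕜) *
          (t i j * ((‖t i j‖ ^ 2 : ℝ) : 𝕜) ^ ((l : ℕ) + 1)) := by
        rw [Finset.mul_sum]
        exact Finset.sum_congr rfl fun l _ => by ring
      rw [h3]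
      ring
    rw [Finset.mul_sum]
    have k2 : ∀ i, ((F 0 ^ 2 / nn 0 * α : ℝ) : 𝕜) * ∑ j, A i j * t i j =
        ∑ j, A i j * inner 𝕜 (φ (U i) (hU i)) (φ (V j) (hV j)) -
        ∑ j, A i j * inner 𝕜 (e (U i) (hU i)) (e (V j) (hV j)) -
        ∑ j, ∑ l : Fin 7, ((rcoef α β (fun k => F k ^ 2 / nn k) l : ℝ) : 𝕜) *
          (A i j * (t i j * ((‖t i j‖ ^ 2 : ℝ) : 𝕜) ^ ((l : ℕ) + 1))) := by
      intro i
      rw [Finset.mul_sum, ← Finset.sum_sub_distrib, ← Finset.sum_sub_distrib]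
      exact Finset.sum_congr rfl fun j _ => k1 i j
    rw [Finset.sum_congr rfl fun i _ => k2 i, Finset.sum_sub_distrib, Finset.sum_sub_distrib]
    congr 1
    have k3 : ∀ l : Fin 7, ((rcoef α β (fun k => F k ^ 2 / nn k) l : ℝ) : 𝕜) *
        ∑ i, ∑ j, A i j * (t i j * ((‖t i j‖ ^ 2 : ℝ) : 𝕜) ^ ((l : ℕ) + 1)) =
        ∑ i, ∑ j, ((rcoef α β (fun k => F k ^ 2 / nn k) l : ℝ) : 𝕜) *
          (A i j * (t i j * ((‖t i j‖ ^ 2 : ℝ) : 𝕜) ^ ((l : ℕ) + 1))) := by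
      intro l
      rw [Finset.mul_sum]
      exact Finset.sum_congr rfl fun i _ => Finset.mul_sum _ _ _
    rw [Finset.sum_congr rfl fun l _ => k3 l]
    have k4 : ∑ l : Fin 7, ∑ i : Fin m, ∑ j : Fin n,
        ((rcoef α β (fun k => F k ^ 2 / nn k) l : ℝ) : 𝕜) *
          (A i j * (t i j * ((‖t i j‖ ^ 2 : ℝ) : 𝕜) ^ ((l : ℕ) + 1))) =
        ∑ i : Fin m, ∑ l : Fin 7, ∑ j : Fin n,
        ((rcoef α β (fun k => F k ^ 2 / nn k) l : ℝ) : 𝕜) *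
          (A i j * (t i j * ((‖t i j‖ ^ 2 : ℝ) : 𝕜) ^ ((l : ℕ) + 1))) := Finset.sum_comm
    rw [k4]
    refine Finset.sum_congr rfl fun i _ => ?_
    rw [Finset.sum_comm]
  rw [div_mul_eq_mul_div, le_div_iff₀ hc]
  have nk : ‖∑ i, ∑ j, A i j * t i j‖ * (F 0 ^ 2 / nn 0 * α) =
      ‖((F 0 ^ 2 / nn 0 * α : ℝ) : 𝕜) * ∑ i, ∑ j, A i j * t i j‖ := by
    rw [norm_mul, RCLike.norm_ofReal, abs_of_pos hc, mul_comm]
  rw [nk, key]
  refine (norm_sub_le _ _).trans ?_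
  refine (add_le_add_left (norm_sub_le _ _) _).trans ?_
  have b4 : ‖∑ l : Fin 7, ((rcoef α β (fun k => F k ^ 2 / nn k) l : ℝ) : 𝕜) *
        ∑ i, ∑ j, A i j * (t i j * ((‖t i j‖ ^ 2 : ℝ) : 𝕜) ^ ((l : ℕ) + 1))‖ ≤
      (∑ l, |rcoef α β (fun k => F k ^ 2 / nn k) l|) * (K * bilinMax A) := by
    rw [Finset.sum_mul]
    refine (norm_sum_le _ _).trans (Finset.sum_le_sum fun l _ => ?_)
    rw [norm_mul, RCLike.norm_ofReal]
    exact mul_le_mul_of_nonneg_left (b3 l) (abs_nonneg _)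
  calc _ ≤ (bilinMax A + K * ρ ^ 2 * bilinMax A) +
        (∑ l, |rcoef α β (fun k => F k ^ 2 / nn k) l|) * (K * bilinMax A) :=
        add_le_add (add_le_add b1 b2) b4
    _ = _ := by ring

end

end Pool.Agent.helper31.Groth
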