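import Mathlib
import Pool.Agent.helper31.GrothBoot

set_option autoImplicit false

open MeasureTheory ProbabilityTheory
open scoped ComplexOrder ENNReal

namespace Pool.Agent.helper31.Groth

variable {𝕜 : Type} [RCLike 𝕜] [MeasurableSpace 𝕜] [BorelSpace 𝕜]

omit [MeasurableSpace 𝕜] [BorelSpace 𝕜] in
lemma inner_real_euclidean {ι : Type} [Fintype ι] (x y : EuclideanSpace 𝕜 ι) :
    inner ℝ x y = RCLike.re (inner 𝕜 x y) := by
  rw [PiLp.inner_apply, PiLp.inner_apply, map_sum]
  rfl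

omit [MeasurableSpace 𝕜] [BorelSpace 𝕜] in
lemma inner_real_field (x y : 𝕜) : inner ℝ x y = RCLike.re (inner 𝕜 x y) := rfl

/-- `x ↦ ⟪x, U⟫` as a real-linear map. -/
noncomputable def coordL {ι : Type} [Fintype ι] (U : EuclideanSpace 𝕜 ι) :
    EuclideanSpace 𝕜 ι →L[ℝ] 𝕜 :=
  LinearMap.toContinuousLinearMap
    { toFun := fun x => inner 𝕜 x U
      map_add' := fun x y => inner_add_left x y U
      map_smul' := fun r x => by
        have : r • x = ((r : ℝ) : 𝕜) • x := by
          ext i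
          simp [RCLike.real_smul_eq_coe_mul]
        rw [this, inner_smul_left, RCLike.conj_ofReal, RingHom.id_apply,
          RCLike.real_smul_eq_coe_mul] }

omit [MeasurableSpace 𝕜] [BorelSpace 𝕜] in
lemma coordL_apply {ι : Type} [Fintype ι] (U x : EuclideanSpace 𝕜 ι) :
    coordL U x = inner 𝕜 x U := rfl

/-- `corrPair T` as a real-linear map. -/
noncomputable def corrL (T : 𝕜) : 𝕜 × 𝕜 →L[ℝ] 𝕜 × 𝕜 :=
  LinearMap.toContinuousLinearMap
    { toFun := corrPair T
      map_add' := fun x y => by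
        simp only [corrPair, Prod.fst_add, Prod.snd_add, Prod.mk_add_mk, Prod.mk.injEq, true_and]
        ring
      map_smul' := fun r x => by
        simp only [corrPair, Prod.smul_fst, Prod.smul_snd, Prod.smul_mk, Prod.mk.injEq, true_and,
          RingHom.id_apply, RCLike.real_smul_eq_coe_mul]
        ring }

omit [MeasurableSpace 𝕜] [BorelSpace 𝕜] in
lemma corrL_apply (T : 𝕜) (p : 𝕜 × 𝕜) : corrL T p = corrPair T p := rfl

omit [MeasurableSpace 𝕜] [BorelSpace 𝕜] in
lemma norm_identity {ι : Type} [Fintype ι] {U V : EuclideanSpace 𝕜 ι} (hU : ‖U‖ = 1)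
    (hV : ‖V‖ = 1) (a b : 𝕜) :
    ‖(starRingEnd 𝕜 a) • U + (starRingEnd 𝕜 b) • V‖ ^ 2 =
      ‖a + starRingEnd 𝕜 (inner 𝕜 U V) * b‖ ^ 2 +
        ‖((Real.sqrt (1 - ‖(inner 𝕜 U V : 𝕜)‖ ^ 2) : ℝ) : 𝕜) * b‖ ^ 2 := by
  have hT : 0 ≤ 1 - ‖(inner 𝕜 U V : 𝕜)‖ ^ 2 := by
    have h1 := norm_inner_le_norm (𝕜 := 𝕜) U V
    rw [hU, hV, mul_one] at h1
    have h2 := norm_nonneg (inner 𝕜 U V : 𝕜)
    nlinarith
  rw [norm_add_sq (𝕜 := 𝕜), norm_add_sq (𝕜 := 𝕜), norm_smul, norm_smul, hU, hV, norm_mul,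
    norm_mul, RCLike.norm_conj, RCLike.norm_conj, RCLike.norm_conj, RCLike.norm_ofReal,
    abs_of_nonneg (Real.sqrt_nonneg _), mul_pow (Real.sqrt _), Real.sq_sqrt hT, inner_smul_left,
    inner_smul_right, RCLike.conj_conj]
  have e : RCLike.re (inner 𝕜 a ((starRingEnd 𝕜) (inner 𝕜 U V) * b)) =
      RCLike.re (a * ((starRingEnd 𝕜) b * inner 𝕜 U V)) := by
    rw [← RCLike.conj_re (a * ((starRingEnd 𝕜) b * inner 𝕜 U V)), RCLike.inner_apply']
    simp only [map_mul, RCLike.conj_conj]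
    congr 1
    ring
  rw [e]
  ring

/-- The standard Gaussian measure on `𝕜` generates a Gaussian system. -/
lemma gaussSys_stdGaussian : GaussSys (stdGaussian 𝕜) := by
  intro ι _
  refine ⟨EuclideanSpace 𝕜 ι, inferInstance, stdGaussian (EuclideanSpace 𝕜 ι),
    fun U x => coordL U x, inferInstance, fun U => (coordL U).continuous.measurable, ?_⟩
  intro U V hU hV
  set T : 𝕜 := inner 𝕜 U V with hTdef
  have hm1 : (fun ω => (coordL U ω, coordL V ω)) = ⇑((coordL U).prod (coordL V)) := rfl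
  have hm2 : corrPair T = ⇑(corrL T) := rfl
  rw [hm1, hm2]
  apply Measure.ext_of_charFunDual
  ext L
  rw [charFunDual_map, charFunDual_map, charFunDual_stdGaussian, charFunDual_prod,
    charFunDual_stdGaussian, charFunDual_stdGaussian, ← Complex.exp_add]
  -- Riesz representatives
  set a : 𝕜 := (InnerProductSpace.toDual ℝ 𝕜).symm (L ∘L ContinuousLinearMap.inl ℝ 𝕜 𝕜) with ha
  set b : 𝕜 := (InnerProductSpace.toDual ℝ 𝕜).symm (L ∘L ContinuousLinearMap.inr ℝ 𝕜 𝕜) with hb
  have hL : ∀ z w : 𝕜, L (z, w) = inner ℝ a z + inner ℝ b w := by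
    intro z w
    have h1 : inner ℝ a z = L (z, 0) := by
      rw [ha, InnerProductSpace.toDual_symm_apply]
      rfl
    have h2 : inner ℝ b w = L (0, w) := by
      rw [hb, InnerProductSpace.toDual_symm_apply]
      rfl
    rw [h1, h2, ← map_add]
    simp
  have n1 : ‖L ∘L ((coordL U).prod (coordL V))‖ =
      ‖(starRingEnd 𝕜 a) • U + (starRingEnd 𝕜 b) • V‖ := by
    have : L ∘L ((coordL U).prod (coordL V)) =
        innerSL ℝ ((starRingEnd 𝕜 a) • U + (starRingEnd 𝕜 b) • V) := by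
      ext x
      rw [innerSL_apply_apply, real_inner_comm, inner_real_euclidean, inner_add_right,
        inner_smul_right, inner_smul_right]
      change L (coordL U x, coordL V x) = _
      rw [hL, inner_real_field, inner_real_field, coordL_apply, coordL_apply, RCLike.inner_apply',
        RCLike.inner_apply', map_add]
    rw [this, innerSL_apply_norm]
  have n2 : ‖(L ∘L corrL T) ∘L ContinuousLinearMap.inl ℝ 𝕜 𝕜‖ = ‖a + starRingEnd 𝕜 T * b‖ := by
    have : (L ∘L corrL T) ∘L ContinuousLinearMap.inl ℝ 𝕜 𝕜 =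
        innerSL ℝ (a + starRingEnd 𝕜 T * b) := by
      ext z
      rw [innerSL_apply_apply]
      change L (corrPair T (z, 0)) = _
      simp only [corrPair, mul_zero, add_zero]
      rw [hL, inner_real_field, inner_real_field, inner_real_field, inner_add_left, map_add,
        RCLike.inner_apply', RCLike.inner_apply', RCLike.inner_apply', map_mul (starRingEnd 𝕜),
        RCLike.conj_conj]
      congr 2
      ring
    rw [this, innerSL_apply_norm]
  have n3 : ‖(L ∘L corrL T) ∘L ContinuousLinearMap.inr ℝ 𝕜 𝕜‖ =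
      ‖((Real.sqrt (1 - ‖T‖ ^ 2) : ℝ) : 𝕜) * b‖ := by
    have : (L ∘L corrL T) ∘L ContinuousLinearMap.inr ℝ 𝕜 𝕜 =
        innerSL ℝ (((Real.sqrt (1 - ‖T‖ ^ 2) : ℝ) : 𝕜) * b) := by
      ext w
      rw [innerSL_apply_apply]
      change L (corrPair T (0, w)) = _
      simp only [corrPair, mul_zero, zero_add]
      rw [hL, inner_real_field, inner_real_field, inner_real_field,
        RCLike.inner_apply', RCLike.inner_apply', RCLike.inner_apply', map_mul (starRingEnd 𝕜),
        RCLike.conj_ofReal, mul_zero, map_zero, zero_add]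
      congr 1
      ring
    rw [this, innerSL_apply_norm]
  rw [n1, n2, n3]
  have := norm_identity hU hV a b
  rw [← hTdef] at this
  congr 1
  have h2 : ((‖(starRingEnd 𝕜 a) • U + (starRingEnd 𝕜 b) • V‖ : ℝ) : ℂ) ^ 2 =
      ((‖a + starRingEnd 𝕜 T * b‖ : ℝ) : ℂ) ^ 2 +
        ((‖((Real.sqrt (1 - ‖T‖ ^ 2) : ℝ) : 𝕜) * b‖ : ℝ) : ℂ) ^ 2 := by
    exact_mod_cast this
  rw [h2]
  ring

end Pool.Agent.helper31.Groth
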