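import Mathlib
import Pool.Agent.helper31.GrothGauss

set_option autoImplicit false

open MeasureTheory ProbabilityTheory
open scoped ComplexOrder ENNReal

namespace Pool.Agent.helper31.Groth

section AllLp

variable {X : Type} [MeasurableSpace X] {γ : Measure X} {R : Type} [NormedRing R]

/-- a function in all finite `L^p` -/
def AllLp (γ : Measure X) (g : X → R) : Prop := ∀ p : ℝ≥0∞, p ≠ ∞ → MemLp g p γ

lemma AllLp.integrable {g : X → R} (h : AllLp γ g) : Integrable g γ :=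
  memLp_one_iff_integrable.1 (h 1 (by norm_num))

lemma AllLp.mul {g h : X → R} (hg : AllLp γ g) (hh : AllLp γ h) :
    AllLp γ (fun x => g x * h x) := by
  intro p hp
  have h2p : 2 * p ≠ ∞ := ENNReal.mul_ne_top (by norm_num) hp
  have : ENNReal.HolderTriple (2 * p) (2 * p) p := by
    constructor
    rcases eq_or_ne p 0 with rfl | h0
    · simp
    · rw [ENNReal.mul_inv (Or.inl (by norm_num)) (Or.inl (by norm_num)), ← add_mul,
        ENNReal.inv_two_add_inv_two, one_mul]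
  exact MemLp.mul' (hh _ h2p) (hg _ h2p)

lemma AllLp.add {g h : X → R} (hg : AllLp γ g) (hh : AllLp γ h) :
    AllLp γ (fun x => g x + h x) := fun p hp => (hg p hp).add (hh p hp)

lemma AllLp.sub {g h : X → R} (hg : AllLp γ g) (hh : AllLp γ h) :
    AllLp γ (fun x => g x - h x) := fun p hp => (hg p hp).sub (hh p hp)

lemma allLp_const [IsFiniteMeasure γ] (c : R) : AllLp γ (fun _ => c) :=
  fun _ _ => memLp_const c

lemma AllLp.pow [IsFiniteMeasure γ] {g : X → R} (hg : AllLp γ g) (n : ℕ) :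
    AllLp γ (fun x => g x ^ n) := by
  induction n with
  | zero => simpa using allLp_const (γ := γ) (1 : R)
  | succ n ih =>
    have := ih.mul hg
    simpa only [pow_succ] using this

lemma AllLp.const_mul [IsFiniteMeasure γ] {g : X → R} (hg : AllLp γ g) (c : R) :
    AllLp γ (fun x => c * g x) := (allLp_const c).mul hg

lemma AllLp.norm {g : X → R} (hg : AllLp γ g) : AllLp γ (fun x => ‖g x‖) :=
  fun p hp => (hg p hp).norm

lemma allLp_of_bound [IsFiniteMeasure γ] {g : X → R} (hg : AEStronglyMeasurable g γ) (C : ℝ)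
    (h : ∀ x, ‖g x‖ ≤ C) : AllLp γ g :=
  fun _ _ => MemLp.of_bound hg C (Filter.Eventually.of_forall h)

end AllLp

variable {𝕜 : Type} [RCLike 𝕜] [MeasurableSpace 𝕜] [BorelSpace 𝕜]

lemma allLp_id_stdGaussian : AllLp (stdGaussian 𝕜) (fun z : 𝕜 => z) :=
  fun p hp => IsGaussian.memLp_id (stdGaussian 𝕜) p hp

omit [BorelSpace 𝕜] in
lemma AllLp.ofReal {γ : Measure 𝕜} {g : 𝕜 → ℝ} (hg : AllLp γ g) :
    AllLp γ (fun z => ((g z : ℝ) : 𝕜)) := fun p hp => (hg p hp).ofReal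

/-- Radial Hermite polynomials in real dimension `d`. -/
def radP (d : ℝ) : Fin 3 → ℝ → ℝ :=
  ![fun _ => 1, fun x => x - (d + 2), fun x => x ^ 2 - 2 * (d + 4) * x + (d + 2) * (d + 4)]

/-- The vector valued Hermite polynomials. -/
noncomputable def hermiteH (d : ℝ) (k : Fin 3) (z : 𝕜) : 𝕜 := z * ((radP d k (‖z‖ ^ 2) : ℝ) : 𝕜)

/-- The rounding function `(1 - exp(-s|z|²/2)) z/|z|`. -/
noncomputable def roundF (s : ℝ) (z : 𝕜) : 𝕜 :=
  (((‖z‖)⁻¹ * (1 - Real.exp (-(s * ‖z‖ ^ 2 / 2))) : ℝ) : 𝕜) * z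

omit [MeasurableSpace 𝕜] [BorelSpace 𝕜] in
lemma norm_roundF {s : ℝ} (hs : 0 ≤ s) (z : 𝕜) :
    ‖roundF s z‖ = 1 - Real.exp (-(s * ‖z‖ ^ 2 / 2)) := by
  have h1 : Real.exp (-(s * ‖z‖ ^ 2 / 2)) ≤ 1 := by
    rw [Real.exp_le_one_iff]
    have := mul_nonneg hs (sq_nonneg ‖z‖)
    linarith
  unfold roundF
  rw [norm_mul, RCLike.norm_ofReal, abs_of_nonneg (mul_nonneg (inv_nonneg.2 (norm_nonneg _))
    (by linarith))]
  by_cases hz : ‖z‖ = 0
  · simp [hz]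
  · field_simp

/-- The required radial moments of `γ`. -/
structure RadialFacts (γ : Measure 𝕜) (d s M e1 e2 : ℝ) (w : Fin 3 → ℝ) : Prop where
  R2 : ∫ z, ‖z‖ ^ 2 ∂γ = d
  R4 : ∫ z, ‖z‖ ^ 4 ∂γ = d * (d + 2)
  R6 : ∫ z, ‖z‖ ^ 6 ∂γ = d * (d + 2) * (d + 4)
  R8 : ∫ z, ‖z‖ ^ 8 ∂γ = d * (d + 2) * (d + 4) * (d + 6)
  R10 : ∫ z, ‖z‖ ^ 10 ∂γ = d * (d + 2) * (d + 4) * (d + 6) * (d + 8)
  M1 : ∫ z, ‖z‖ ∂γ = M
  M3 : ∫ z, ‖z‖ ^ 3 ∂γ = (d + 1) * M
  M5 : ∫ z, ‖z‖ ^ 5 ∂γ = (d + 1) * (d + 3) * M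
  W1 : ∫ z, ‖z‖ * Real.exp (-(s * ‖z‖ ^ 2 / 2)) ∂γ = w 0 * M
  W3 : ∫ z, ‖z‖ ^ 3 * Real.exp (-(s * ‖z‖ ^ 2 / 2)) ∂γ = w 1 * ((d + 1) * M)
  W5 : ∫ z, ‖z‖ ^ 5 * Real.exp (-(s * ‖z‖ ^ 2 / 2)) ∂γ = w 2 * ((d + 1) * (d + 3) * M)
  E1 : ∫ z, Real.exp (-(s * ‖z‖ ^ 2 / 2)) ∂γ = e1
  E2 : ∫ z, Real.exp (-(s * ‖z‖ ^ 2 / 2)) ^ 2 ∂γ = e2

/-- squared norms of the Hermite polynomials -/
def nnD (d : ℝ) : Fin 3 → ℝ := ![d, 2 * d * (d + 2), 8 * d * (d + 2) * (d + 4)]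

/-- coefficients of the rounding function -/
def coD (d M : ℝ) (w : Fin 3 → ℝ) : Fin 3 → ℝ :=
  ![(1 - w 0) * M,
    (1 - w 1) * ((d + 1) * M) - (d + 2) * ((1 - w 0) * M),
    (1 - w 2) * ((d + 1) * (d + 3) * M) - 2 * (d + 4) * ((1 - w 1) * ((d + 1) * M)) +
      (d + 2) * (d + 4) * ((1 - w 0) * M)]

section

variable {γ : Measure 𝕜} [IsProbabilityMeasure γ] {d s M e1 e2 : ℝ} {w : Fin 3 → ℝ}

lemma allLp_expw (hs : 0 ≤ s) : AllLp γ (fun z : 𝕜 => Real.exp (-(s * ‖z‖ ^ 2 / 2))) := by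
  refine allLp_of_bound (by fun_prop) 1 fun z => ?_
  rw [Real.norm_eq_abs, abs_of_pos (Real.exp_pos _), Real.exp_le_one_iff]
  have := mul_nonneg hs (sq_nonneg ‖z‖)
  linarith

lemma norm_sq_roundF (hγ : AllLp γ (fun z : 𝕜 => z)) (hs : 0 ≤ s)
    (hr : RadialFacts γ d s M e1 e2 w) :
    ∫ z, ‖roundF s z‖ ^ 2 ∂γ = 1 - 2 * e1 + e2 := by
  have hE : AllLp γ (fun z : 𝕜 => Real.exp (-(s * ‖z‖ ^ 2 / 2))) := allLp_expw hs
  have e : ∀ z : 𝕜, ‖roundF s z‖ ^ 2 = (1 - 2 * Real.exp (-(s * ‖z‖ ^ 2 / 2))) +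
      Real.exp (-(s * ‖z‖ ^ 2 / 2)) ^ 2 := by
    intro z
    rw [norm_roundF hs]
    ring
  simp_rw [e]
  have i1 : Integrable (fun z : 𝕜 => 2 * Real.exp (-(s * ‖z‖ ^ 2 / 2))) γ :=
    (hE.const_mul 2).integrable
  have i2 : Integrable (fun z : 𝕜 => Real.exp (-(s * ‖z‖ ^ 2 / 2)) ^ 2) γ := (hE.pow 2).integrable
  have i3 : Integrable (fun z : 𝕜 => 1 - 2 * Real.exp (-(s * ‖z‖ ^ 2 / 2))) γ :=
    (integrable_const _).sub i1
  rw [integral_add i3 i2, integral_sub (integrable_const _) i1,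
    integral_const_mul, hr.E1, hr.E2]
  simp

lemma radial_poly (hγ : AllLp γ (fun z : 𝕜 => z)) (hr : RadialFacts γ d s M e1 e2 w)
    (a0 a1 a2 a3 a4 : ℝ) :
    ∫ z, (a0 * ‖z‖ ^ 2 + a1 * ‖z‖ ^ 4 + a2 * ‖z‖ ^ 6 + a3 * ‖z‖ ^ 8 + a4 * ‖z‖ ^ 10) ∂γ =
      a0 * d + a1 * (d * (d + 2)) + a2 * (d * (d + 2) * (d + 4)) +
        a3 * (d * (d + 2) * (d + 4) * (d + 6)) +
        a4 * (d * (d + 2) * (d + 4) * (d + 6) * (d + 8)) := by
  have hn : ∀ (c : ℝ) (n : ℕ), Integrable (fun z : 𝕜 => c * ‖z‖ ^ n) γ := fun c n =>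
    ((hγ.norm.pow n).const_mul c).integrable
  have j1 : Integrable (fun z : 𝕜 => a0 * ‖z‖ ^ 2 + a1 * ‖z‖ ^ 4) γ := (hn _ _).add (hn _ _)
  have j2 : Integrable (fun z : 𝕜 => a0 * ‖z‖ ^ 2 + a1 * ‖z‖ ^ 4 + a2 * ‖z‖ ^ 6) γ :=
    j1.add (hn _ _)
  have j3 : Integrable
      (fun z : 𝕜 => a0 * ‖z‖ ^ 2 + a1 * ‖z‖ ^ 4 + a2 * ‖z‖ ^ 6 + a3 * ‖z‖ ^ 8) γ :=
    j2.add (hn _ _)
  rw [integral_add j3 (hn _ _), integral_add j2 (hn _ _), integral_add j1 (hn _ _),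
    integral_add (hn _ _) (hn _ _)]
  simp only [integral_const_mul, hr.R2, hr.R4, hr.R6, hr.R8, hr.R10]

lemma radial_odd (hγ : AllLp γ (fun z : 𝕜 => z)) (hs : 0 ≤ s)
    (hr : RadialFacts γ d s M e1 e2 w) (b0 b1 b2 : ℝ) :
    ∫ z, ((b0 * ‖z‖ + b1 * ‖z‖ ^ 3 + b2 * ‖z‖ ^ 5) -
      (b0 * (‖z‖ * Real.exp (-(s * ‖z‖ ^ 2 / 2))) +
        b1 * (‖z‖ ^ 3 * Real.exp (-(s * ‖z‖ ^ 2 / 2))) +
        b2 * (‖z‖ ^ 5 * Real.exp (-(s * ‖z‖ ^ 2 / 2))))) ∂γ =
      b0 * ((1 - w 0) * M) + b1 * ((1 - w 1) * ((d + 1) * M)) +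
        b2 * ((1 - w 2) * ((d + 1) * (d + 3) * M)) := by
  have hE : AllLp γ (fun z : 𝕜 => Real.exp (-(s * ‖z‖ ^ 2 / 2))) := allLp_expw hs
  have hn : ∀ (c : ℝ) (n : ℕ), Integrable (fun z : 𝕜 => c * ‖z‖ ^ n) γ := fun c n =>
    ((hγ.norm.pow n).const_mul c).integrable
  have hn1 : ∀ (c : ℝ), Integrable (fun z : 𝕜 => c * ‖z‖) γ := fun c =>
    (hγ.norm.const_mul c).integrable
  have he : ∀ (c : ℝ) (n : ℕ), Integrable
      (fun z : 𝕜 => c * (‖z‖ ^ n * Real.exp (-(s * ‖z‖ ^ 2 / 2)))) γ := fun c n =>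
    (((hγ.norm.pow n).mul hE).const_mul c).integrable
  have he1 : ∀ (c : ℝ), Integrable
      (fun z : 𝕜 => c * (‖z‖ * Real.exp (-(s * ‖z‖ ^ 2 / 2)))) γ := fun c =>
    ((hγ.norm.mul hE).const_mul c).integrable
  have j1 : Integrable (fun z : 𝕜 => b0 * ‖z‖ + b1 * ‖z‖ ^ 3) γ := (hn1 _).add (hn _ _)
  have j2 : Integrable (fun z : 𝕜 => b0 * ‖z‖ + b1 * ‖z‖ ^ 3 + b2 * ‖z‖ ^ 5) γ :=
    j1.add (hn _ _)
  have j3 : Integrable (fun z : 𝕜 => b0 * (‖z‖ * Real.exp (-(s * ‖z‖ ^ 2 / 2))) +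
        b1 * (‖z‖ ^ 3 * Real.exp (-(s * ‖z‖ ^ 2 / 2)))) γ := (he1 _).add (he _ _)
  have j4 : Integrable (fun z : 𝕜 => b0 * (‖z‖ * Real.exp (-(s * ‖z‖ ^ 2 / 2))) +
        b1 * (‖z‖ ^ 3 * Real.exp (-(s * ‖z‖ ^ 2 / 2))) +
        b2 * (‖z‖ ^ 5 * Real.exp (-(s * ‖z‖ ^ 2 / 2)))) γ := j3.add (he _ _)
  rw [integral_sub j2 j4, integral_add j1 (hn _ _), integral_add (hn1 _) (hn _ _),
    integral_add j3 (he _ _), integral_add (he1 _) (he _ _)]
  simp only [integral_const_mul, hr.M1, hr.M3, hr.M5, hr.W1, hr.W3, hr.W5]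
  ring

lemma measurable_hermiteH (k : Fin 3) : Measurable (hermiteH (𝕜 := 𝕜) d k) := by
  have h : ∀ k : Fin 3, Measurable (radP d k) := by
    intro k
    fin_cases k
    · exact measurable_const
    · exact measurable_id.sub_const _
    · exact (((measurable_id.pow_const 2).sub (measurable_id.const_mul _)).add_const _)
  have : Measurable (fun z : 𝕜 => ((radP d k (‖z‖ ^ 2) : ℝ) : 𝕜)) :=
    RCLike.continuous_ofReal.measurable.comp ((h k).comp (measurable_norm.pow_const 2))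
  exact measurable_id.mul this

lemma allLp_hermiteH (hγ : AllLp γ (fun z : 𝕜 => z)) (k : Fin 3) :
    AllLp γ (hermiteH (𝕜 := 𝕜) d k) := by
  have h2 := hγ.norm.pow 2
  have h : ∀ k : Fin 3, AllLp γ (fun z : 𝕜 => radP d k (‖z‖ ^ 2)) := by
    intro k
    fin_cases k
    · exact allLp_const _
    · exact h2.sub (allLp_const _)
    · exact ((h2.pow 2).sub (h2.const_mul (2 * (d + 4)))).add (allLp_const _)
  exact hγ.mul (h k).ofReal

omit [MeasurableSpace 𝕜] [BorelSpace 𝕜] in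
lemma inner_hermiteH (j k : Fin 3) (z : 𝕜) :
    inner 𝕜 (hermiteH d j z) (hermiteH d k z) =
      ((‖z‖ ^ 2 * (radP d j (‖z‖ ^ 2) * radP d k (‖z‖ ^ 2)) : ℝ) : 𝕜) := by
  rw [RCLike.inner_apply', hermiteH, hermiteH, map_mul, RCLike.conj_ofReal]
  have h := RCLike.conj_mul z
  push_cast
  rw [← h]
  ring

omit [MeasurableSpace 𝕜] [BorelSpace 𝕜] in
lemma inner_roundF (k : Fin 3) (z : 𝕜) :
    inner 𝕜 (roundF s z) (hermiteH d k z) =
      ((‖z‖ * (1 - Real.exp (-(s * ‖z‖ ^ 2 / 2))) * radP d k (‖z‖ ^ 2) : ℝ) : 𝕜) := by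
  rw [RCLike.inner_apply', hermiteH, roundF, map_mul, RCLike.conj_ofReal]
  have h := RCLike.conj_mul z
  have e : ((‖z‖⁻¹ * (1 - Real.exp (-(s * ‖z‖ ^ 2 / 2))) : ℝ) : 𝕜) * (starRingEnd 𝕜) z *
      (z * ((radP d k (‖z‖ ^ 2) : ℝ) : 𝕜)) =
      ((‖z‖⁻¹ * (1 - Real.exp (-(s * ‖z‖ ^ 2 / 2))) : ℝ) : 𝕜) * ((starRingEnd 𝕜) z *
      z) * ((radP d k (‖z‖ ^ 2) : ℝ) : 𝕜) := by ring
  rw [e, h]
  have h1 : ((‖z‖ : 𝕜)) ^ 2 = ((‖z‖ ^ 2 : ℝ) : 𝕜) := by push_cast; rfl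
  rw [h1, ← RCLike.ofReal_mul, ← RCLike.ofReal_mul]
  congr 1
  by_cases hz : ‖z‖ = 0
  · simp [hz]
  · field_simp

lemma roundData_of_radial (hd : 0 < d) (hs : 0 ≤ s) (hγ : AllLp γ (fun z : 𝕜 => z))
    (hr : RadialFacts γ d s M e1 e2 w)
    (hm : ∀ (k : Fin 3) (T : 𝕜) (s : ℝ), ‖T‖ ^ 2 + s ^ 2 = 1 → ∀ z,
      ∫ w, hermiteH d k (T * z + (s : 𝕜) * w) ∂γ =
        T * ((‖T‖ ^ 2 : ℝ) : 𝕜) ^ (k : ℕ) * hermiteH d k z) :
    RoundData γ (roundF s) (hermiteH d) (coD d M w) (nnD d) where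
  meas_f := by
    unfold roundF
    have : Measurable (fun z : 𝕜 => ((‖z‖)⁻¹ * (1 - Real.exp (-(s * ‖z‖ ^ 2 / 2))) : ℝ)) := by
      fun_prop
    exact (RCLike.continuous_ofReal.measurable.comp this).mul measurable_id
  norm_f := fun z => by
    rw [norm_roundF hs]
    linarith [Real.exp_pos (-(s * ‖z‖ ^ 2 / 2))]
  meas_H := measurable_hermiteH
  memLp_H := fun k => allLp_hermiteH hγ k 2 (by norm_num)
  mehler := hm
  orth := by
    intro j k
    simp_rw [inner_hermiteH]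
    rw [integral_ofReal]
    have key : ∫ z : 𝕜, ‖z‖ ^ 2 * (radP d j (‖z‖ ^ 2) * radP d k (‖z‖ ^ 2)) ∂γ =
        if j = k then nnD d k else 0 := by
      fin_cases j <;> fin_cases k
      · have := radial_poly hγ hr 1 0 0 0 0
        simp only [radP, nnD, Fin.isValue, Fin.zero_eta, Matrix.cons_val, if_true] at *
        convert this using 1
        · congr 1; ext z; ring
        · ring
      · have := radial_poly hγ hr (-(d + 2)) 1 0 0 0
        simp [radP, nnD] at *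
        convert this using 1
        · congr 1; ext z; ring
        · ring
      · have := radial_poly hγ hr ((d + 2) * (d + 4)) (-(2 * (d + 4))) 1 0 0
        simp [radP, nnD] at *
        convert this using 1
        · congr 1; ext z; ring
        · ring
      · have := radial_poly hγ hr (-(d + 2)) 1 0 0 0
        simp [radP, nnD] at *
        convert this using 1
        · congr 1; ext z; ring
        · ring
      · have := radial_poly hγ hr ((d + 2) ^ 2) (-(2 * (d + 2))) 1 0 0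
        simp [radP, nnD] at *
        convert this using 1
        · congr 1; ext z; ring
        · ring
      · have := radial_poly hγ hr (-((d + 2) ^ 2 * (d + 4)))
          ((d + 2) * (d + 4) + 2 * (d + 4) * (d + 2)) (-(2 * (d + 4)) - (d + 2)) 1 0
        simp [radP, nnD] at *
        convert this using 1
        · congr 1; ext z; ring
        · ring
      · have := radial_poly hγ hr ((d + 2) * (d + 4)) (-(2 * (d + 4))) 1 0 0
        simp [radP, nnD] at *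
        convert this using 1
        · congr 1; ext z; ring
        · ring
      · have := radial_poly hγ hr (-((d + 2) ^ 2 * (d + 4)))
          ((d + 2) * (d + 4) + 2 * (d + 4) * (d + 2)) (-(2 * (d + 4)) - (d + 2)) 1 0
        simp [radP, nnD] at *
        convert this using 1
        · congr 1; ext z; ring
        · ring
      · have := radial_poly hγ hr ((d + 2) ^ 2 * (d + 4) ^ 2)
          (-(4 * (d + 4) ^ 2 * (d + 2))) (4 * (d + 4) ^ 2 + 2 * (d + 2) * (d + 4))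
          (-(4 * (d + 4))) 1
        simp [radP, nnD] at *
        convert this using 1
        · congr 1; ext z; ring
        · ring
    rw [key]
    split_ifs <;> simp
  coef := by
    intro k
    simp_rw [inner_roundF]
    rw [integral_ofReal]
    congr 1
    fin_cases k
    · have := radial_odd hγ hs hr 1 0 0
      simp [radP, coD] at *
      convert this using 1
      · congr 1; ext z; ring
    · have := radial_odd hγ hs hr (-(d + 2)) 1 0
      simp [radP, coD] at *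
      convert this using 1
      · congr 1; ext z; ring
      · ring
    · have := radial_odd hγ hs hr ((d + 2) * (d + 4)) (-(2 * (d + 4))) 1
      simp [radP, coD] at *
      convert this using 1
      · congr 1; ext z; ring
      · ring
  pos := by
    intro k
    fin_cases k
    · simpa [nnD] using hd
    · simp only [nnD]
      simp
      positivity
    · simp only [nnD]
      simp
      positivity

end

end Pool.Agent.helper31.Groth
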