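import Mathlib
import Pool.Agent.helper31.GrothData

set_option autoImplicit false

open MeasureTheory ProbabilityTheory
open scoped ComplexOrder ENNReal

namespace Pool.Agent.helper31.Groth

lemma stdGaussian_real : stdGaussian ℝ = gaussianReal 0 1 := by
  apply Measure.ext_of_charFun
  ext t
  rw [charFun_stdGaussian, charFun_gaussianReal]
  congr 1
  simp
  norm_cast
  rw [sq_abs]
  ring

lemma integral_stdGaussian_real (g : ℝ → ℝ) :
    ∫ x, g x ∂(stdGaussian ℝ) =
      (Real.sqrt (2 * Real.pi))⁻¹ * ∫ x : ℝ, Real.exp (-(x ^ 2 / 2)) * g x := by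
  rw [stdGaussian_real, integral_gaussianReal_eq_integral_smul (by norm_num),
    ← integral_const_mul]
  congr 1
  ext x
  simp [gaussianPDFReal, neg_div, mul_assoc]

/-- absolute moments with Gaussian weight -/
noncomputable def absMom (n : ℕ) (b : ℝ) : ℝ := ∫ x : ℝ, |x| ^ n * Real.exp (-(b * x ^ 2))

lemma absMom_eq (n : ℕ) {b : ℝ} (hb : 0 < b) :
    absMom n b = b ^ (-((n : ℝ) + 1) / 2) * Real.Gamma (((n : ℝ) + 1) / 2) := by
  unfold absMom
  have h1 := integral_comp_abs (f := fun x : ℝ => x ^ n * Real.exp (-(b * x ^ 2)))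
  simp only [sq_abs] at h1
  rw [h1]
  have h2 := integral_rpow_mul_exp_neg_mul_rpow (p := 2) (q := (n : ℝ)) (b := b) (by norm_num)
    (by have : (0 : ℝ) ≤ n := Nat.cast_nonneg n
        linarith) hb
  have h3 : ∫ x in Set.Ioi (0 : ℝ), x ^ n * Real.exp (-(b * x ^ 2)) =
      ∫ x in Set.Ioi (0 : ℝ), x ^ (n : ℝ) * Real.exp (-b * x ^ (2 : ℝ)) := by
    refine setIntegral_congr_fun measurableSet_Ioi fun x _ => ?_
    simp only [Real.rpow_natCast]
    rw [show ((2 : ℝ)) = ((2 : ℕ) : ℝ) by norm_num, Real.rpow_natCast]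
    ring_nf
  rw [h3, h2]
  ring

lemma absMom_add_two (n : ℕ) {b : ℝ} (hb : 0 < b) :
    absMom (n + 2) b = ((n : ℝ) + 1) / (2 * b) * absMom n b := by
  rw [absMom_eq _ hb, absMom_eq _ hb]
  have h1 : (((n + 2 : ℕ) : ℝ) + 1) / 2 = ((n : ℝ) + 1) / 2 + 1 := by push_cast; ring
  have h2 : -(((n + 2 : ℕ) : ℝ) + 1) / 2 = -((n : ℝ) + 1) / 2 - 1 := by push_cast; ring
  rw [h1, h2, Real.Gamma_add_one (by positivity), Real.rpow_sub_one hb.ne']
  field_simp

lemma absMom_zero {b : ℝ} : absMom 0 b = Real.sqrt (Real.pi / b) := by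
  unfold absMom
  have := integral_gaussian b
  simpa using this

lemma absMom_one {b : ℝ} (hb : 0 < b) : absMom 1 b = 1 / b := by
  rw [absMom_eq _ hb]
  norm_num
  rw [Real.rpow_neg_one]

lemma moment_real (n : ℕ) (s : ℝ) :
    ∫ x : ℝ, ‖x‖ ^ n * Real.exp (-(s * ‖x‖ ^ 2 / 2)) ∂(stdGaussian ℝ) =
      (Real.sqrt (2 * Real.pi))⁻¹ * absMom n ((1 + s) / 2) := by
  rw [integral_stdGaussian_real]
  unfold absMom
  congr 2
  ext x
  rw [Real.norm_eq_abs, sq_abs]
  have : Real.exp (-((1 + s) / 2 * x ^ 2)) = Real.exp (-(x ^ 2 / 2)) * Real.exp (-(s * x ^ 2 / 2)) := by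
    rw [← Real.exp_add]
    congr 1
    ring
  rw [this]
  ring

lemma moment_real' (n : ℕ) :
    ∫ x : ℝ, ‖x‖ ^ n ∂(stdGaussian ℝ) = (Real.sqrt (2 * Real.pi))⁻¹ * absMom n (1 / 2) := by
  have := moment_real n 0
  simpa using this

lemma sqrt_two_pi_inv : (Real.sqrt (2 * Real.pi))⁻¹ * Real.sqrt (Real.pi / (1 / 2)) = 1 := by
  have : Real.pi / (1 / 2) = 2 * Real.pi := by ring
  rw [this]
  exact inv_mul_cancel₀ (Real.sqrt_pos.2 (by positivity)).ne'

lemma radialFacts_real :
    RadialFacts (stdGaussian ℝ) 1 24 ((Real.sqrt (2 * Real.pi))⁻¹ * 2) (1 / 5) (1 / 7)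
      ![1 / 25, 1 / 625, 1 / 15625] where
  R2 := by
    rw [moment_real', absMom_add_two _ (by norm_num), absMom_zero]
    linear_combination sqrt_two_pi_inv
  R4 := by
    rw [moment_real', absMom_add_two _ (by norm_num), absMom_add_two _ (by norm_num), absMom_zero]
    push_cast
    linear_combination 3 * sqrt_two_pi_inv
  R6 := by
    rw [moment_real', absMom_add_two _ (by norm_num), absMom_add_two _ (by norm_num),
      absMom_add_two _ (by norm_num), absMom_zero]
    push_cast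
    linear_combination 15 * sqrt_two_pi_inv
  R8 := by
    rw [moment_real', absMom_add_two _ (by norm_num), absMom_add_two _ (by norm_num),
      absMom_add_two _ (by norm_num), absMom_add_two _ (by norm_num), absMom_zero]
    push_cast
    linear_combination 105 * sqrt_two_pi_inv
  R10 := by
    rw [moment_real', absMom_add_two _ (by norm_num), absMom_add_two _ (by norm_num),
      absMom_add_two _ (by norm_num), absMom_add_two _ (by norm_num),
      absMom_add_two _ (by norm_num), absMom_zero]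
    push_cast
    linear_combination 945 * sqrt_two_pi_inv
  M1 := by
    have := moment_real' 1
    simp only [pow_one] at this
    rw [this, absMom_one (by norm_num)]
    norm_num
  M3 := by
    rw [moment_real', absMom_add_two _ (by norm_num), absMom_one (by norm_num)]
    push_cast
    ring
  M5 := by
    rw [moment_real', absMom_add_two _ (by norm_num), absMom_add_two _ (by norm_num),
      absMom_one (by norm_num)]
    push_cast
    ring
  W1 := by
    have := moment_real 1 24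
    simp only [pow_one] at this
    rw [this, absMom_one (by norm_num)]
    simp
    ring
  W3 := by
    rw [moment_real, absMom_add_two _ (by norm_num), absMom_one (by norm_num)]
    simp
    ring
  W5 := by
    rw [moment_real, absMom_add_two _ (by norm_num), absMom_add_two _ (by norm_num),
      absMom_one (by norm_num)]
    simp
    ring
  E1 := by
    have := moment_real 0 24
    simp only [pow_zero, one_mul] at this
    rw [this, absMom_zero]
    have h : Real.sqrt (Real.pi / ((1 + 24) / 2)) = Real.sqrt (2 * Real.pi) / 5 := by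
      rw [show Real.pi / ((1 + 24) / 2) = 2 * Real.pi / 5 ^ 2 by ring,
        Real.sqrt_div (by positivity), Real.sqrt_sq (by norm_num)]
    rw [h]
    have : Real.sqrt (2 * Real.pi) ≠ 0 := (Real.sqrt_pos.2 (by positivity)).ne'
    field_simp
  E2 := by
    have := moment_real 0 48
    simp only [pow_zero, one_mul] at this
    have e : ∀ z : ℝ, Real.exp (-(24 * ‖z‖ ^ 2 / 2)) ^ 2 = Real.exp (-(48 * ‖z‖ ^ 2 / 2)) := by
      intro z
      rw [← Real.exp_nat_mul]
      congr 1
      push_cast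
      ring
    simp_rw [e]
    rw [this, absMom_zero]
    have h : Real.sqrt (Real.pi / ((1 + 48) / 2)) = Real.sqrt (2 * Real.pi) / 7 := by
      rw [show Real.pi / ((1 + 48) / 2) = 2 * Real.pi / 7 ^ 2 by ring,
        Real.sqrt_div (by positivity), Real.sqrt_sq (by norm_num)]
    rw [h]
    have : Real.sqrt (2 * Real.pi) ≠ 0 := (Real.sqrt_pos.2 (by positivity)).ne'
    field_simp

/-! ### Signed moments and the Mehler property -/

lemma odd_moment_real {n : ℕ} (hn : Odd n) : ∫ x : ℝ, x ^ n ∂(stdGaussian ℝ) = 0 := by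
  have h1 : (stdGaussian ℝ).map (LinearIsometryEquiv.neg ℝ (E := ℝ)) = stdGaussian ℝ :=
    stdGaussian_map _
  have h2 : ∫ x : ℝ, x ^ n ∂(stdGaussian ℝ) = ∫ x : ℝ, (-x) ^ n ∂(stdGaussian ℝ) := by
    conv_lhs => rw [← h1]
    rw [integral_map (by fun_prop) (by fun_prop)]
    rfl
  have h3 : ∀ x : ℝ, (-x) ^ n = -(x ^ n) := fun x => hn.neg_pow x
  simp_rw [h3] at h2
  rw [integral_neg] at h2
  linarith

lemma integral_quintic (a0 a1 a2 a3 a4 a5 : ℝ) :
    ∫ y : ℝ, (a0 + a1 * y + a2 * y ^ 2 + a3 * y ^ 3 + a4 * y ^ 4 + a5 * y ^ 5) ∂(stdGaussian ℝ) =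
      a0 + a2 + 3 * a4 := by
  have hid : AllLp (stdGaussian ℝ) (fun z : ℝ => z) := allLp_id_stdGaussian
  have hn : ∀ (c : ℝ) (n : ℕ), Integrable (fun z : ℝ => c * z ^ n) (stdGaussian ℝ) := fun c n =>
    ((hid.pow n).const_mul c).integrable
  have h1 : ∀ c : ℝ, Integrable (fun z : ℝ => c * z) (stdGaussian ℝ) := fun c =>
    (hid.const_mul c).integrable
  have h0 : Integrable (fun _ : ℝ => a0) (stdGaussian ℝ) := integrable_const _
  have j1 : Integrable (fun z : ℝ => a0 + a1 * z) (stdGaussian ℝ) := h0.add (h1 _)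
  have j2 : Integrable (fun z : ℝ => a0 + a1 * z + a2 * z ^ 2) (stdGaussian ℝ) :=
    j1.add (hn _ _)
  have j3 : Integrable (fun z : ℝ => a0 + a1 * z + a2 * z ^ 2 + a3 * z ^ 3) (stdGaussian ℝ) :=
    j2.add (hn _ _)
  have j4 : Integrable (fun z : ℝ => a0 + a1 * z + a2 * z ^ 2 + a3 * z ^ 3 + a4 * z ^ 4)
    (stdGaussian ℝ) := j3.add (hn _ _)
  rw [integral_add j4 (hn _ _), integral_add j3 (hn _ _), integral_add j2 (hn _ _),
    integral_add j1 (hn _ _), integral_add h0 (h1 _)]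
  have m1 := odd_moment_real (n := 1) (by decide)
  have m3 := odd_moment_real (n := 3) (by decide)
  have m5 := odd_moment_real (n := 5) (by decide)
  simp only [pow_one] at m1
  have m2 : ∫ x : ℝ, x ^ 2 ∂(stdGaussian ℝ) = 1 := by
    have := radialFacts_real.R2
    simpa using this
  have m4 : ∫ x : ℝ, x ^ 4 ∂(stdGaussian ℝ) = 3 := by
    have := radialFacts_real.R4
    have e : ∀ x : ℝ, ‖x‖ ^ 4 = x ^ 4 := fun x => by
      rw [Real.norm_eq_abs, show (4 : ℕ) = 2 * 2 by norm_num, pow_mul, sq_abs, ← pow_mul]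
    simp_rw [e] at this
    rw [this]
    norm_num
  have e1 : ∫ x : ℝ, a1 * x ∂(stdGaussian ℝ) = 0 := by
    rw [integral_const_mul, m1, mul_zero]
  simp only [integral_const_mul, e1, m2, m3, m4, m5]
  simp
  ring

lemma mehler_real (k : Fin 3) (T s : ℝ) (hTs : ‖T‖ ^ 2 + s ^ 2 = 1) (z : ℝ) :
    ∫ w, hermiteH (𝕜 := ℝ) 1 k (T * z + ((s : ℝ) : ℝ) * w) ∂(stdGaussian ℝ) =
      T * ((‖T‖ ^ 2 : ℝ) : ℝ) ^ (k : ℕ) * hermiteH (𝕜 := ℝ) 1 k z := by
  rw [Real.norm_eq_abs, sq_abs] at hTs ⊢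
  have hs : s ^ 2 = 1 - T ^ 2 := by linarith
  fin_cases k
  · have := integral_quintic (T * z) s 0 0 0 0
    simp [hermiteH, radP] at *
    exact this
  · have := integral_quintic ((T * z) ^ 3 - 3 * (T * z)) (3 * (T * z) ^ 2 * s - 3 * s)
      (3 * (T * z) * s ^ 2) (s ^ 3) 0 0
    simp [hermiteH, radP] at *
    calc _ = ∫ y : ℝ, ((T * z) ^ 3 - 3 * (T * z) + (3 * (T * z) ^ 2 * s - 3 * s) * y +
        3 * (T * z) * s ^ 2 * y ^ 2 + s ^ 3 * y ^ 3) ∂(stdGaussian ℝ) := by
          congr 1; ext y; ring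
      _ = _ := by
          rw [this, hs]
          ring
  · have := integral_quintic ((T * z) ^ 5 - 10 * (T * z) ^ 3 + 15 * (T * z))
      (5 * (T * z) ^ 4 * s - 30 * (T * z) ^ 2 * s + 15 * s)
      (10 * (T * z) ^ 3 * s ^ 2 - 30 * (T * z) * s ^ 2) (10 * (T * z) ^ 2 * s ^ 3 - 10 * s ^ 3)
      (5 * (T * z) * s ^ 4) (s ^ 5)
    simp [hermiteH, radP] at *
    calc _ = ∫ y : ℝ, ((T * z) ^ 5 - 10 * (T * z) ^ 3 + 15 * (T * z) +
      (5 * (T * z) ^ 4 * s - 30 * (T * z) ^ 2 * s + 15 * s) * y +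
      (10 * (T * z) ^ 3 * s ^ 2 - 30 * (T * z) * s ^ 2) * y ^ 2 +
      (10 * (T * z) ^ 2 * s ^ 3 - 10 * s ^ 3) * y ^ 3 +
      5 * (T * z) * s ^ 4 * y ^ 4 + s ^ 5 * y ^ 5) ∂(stdGaussian ℝ) := by
          congr 1; ext y; ring
      _ = _ := by
          rw [this, show s ^ 4 = (s ^ 2) ^ 2 by ring, hs]
          ring

end Pool.Agent.helper31.Groth
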