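import Mathlib
import Pool.Agent.helper31.GrothReal

set_option autoImplicit false

open MeasureTheory ProbabilityTheory
open scoped ComplexOrder ENNReal

namespace Pool.Agent.helper31.Groth

lemma stdGaussian_complex : stdGaussian ℂ =
    ((gaussianReal 0 1).prod (gaussianReal 0 1)).map Complex.equivRealProdCLM.symm := by
  apply Measure.ext_of_charFunDual
  ext L
  have hm : (⇑Complex.equivRealProdCLM.symm : ℝ × ℝ → ℂ) =
    ⇑(Complex.equivRealProdCLM.symm : ℝ × ℝ →L[ℝ] ℂ) := rfl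
  rw [hm, charFunDual_map, charFunDual_stdGaussian, charFunDual_prod, ← stdGaussian_real,
    charFunDual_stdGaussian, charFunDual_stdGaussian, ← Complex.exp_add]
  set a : ℂ := (InnerProductSpace.toDual ℝ ℂ).symm L with ha
  have hL : ∀ z : ℂ, L z = inner ℝ a z := by
    intro z
    rw [ha, InnerProductSpace.toDual_symm_apply]
  have n1 : ‖L‖ = ‖a‖ := by
    rw [ha, LinearIsometryEquiv.norm_map]
  have n2 : ‖(L ∘L (Complex.equivRealProdCLM.symm : ℝ × ℝ →L[ℝ] ℂ)) ∘L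
      ContinuousLinearMap.inl ℝ ℝ ℝ‖ = ‖a.re‖ := by
    have : (L ∘L (Complex.equivRealProdCLM.symm : ℝ × ℝ →L[ℝ] ℂ)) ∘L
      ContinuousLinearMap.inl ℝ ℝ ℝ = innerSL ℝ a.re := by
      ext
      rw [innerSL_apply_apply]
      change L (Complex.equivRealProdCLM.symm (1, 0)) = _
      rw [hL]
      simp [Complex.equivRealProdCLM_symm_apply]
    rw [this, innerSL_apply_norm]
  have n3 : ‖(L ∘L (Complex.equivRealProdCLM.symm : ℝ × ℝ →L[ℝ] ℂ)) ∘L
      ContinuousLinearMap.inr ℝ ℝ ℝ‖ = ‖a.im‖ := by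
    have : (L ∘L (Complex.equivRealProdCLM.symm : ℝ × ℝ →L[ℝ] ℂ)) ∘L
      ContinuousLinearMap.inr ℝ ℝ ℝ = innerSL ℝ a.im := by
      ext
      rw [innerSL_apply_apply]
      change L (Complex.equivRealProdCLM.symm (0, 1)) = _
      rw [hL]
      simp [Complex.equivRealProdCLM_symm_apply]
    rw [this, innerSL_apply_norm]
  rw [n1, n2, n3]
  congr 1
  have h : ‖a‖ ^ 2 = ‖a.re‖ ^ 2 + ‖a.im‖ ^ 2 := by
    rw [Real.norm_eq_abs, Real.norm_eq_abs, sq_abs, sq_abs, Complex.sq_norm, Complex.normSq_apply]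
    ring
  have h' : ((‖a‖ : ℝ) : ℂ) ^ 2 = ((‖a.re‖ : ℝ) : ℂ) ^ 2 + ((‖a.im‖ : ℝ) : ℂ) ^ 2 := by
    exact_mod_cast h
  rw [h']
  ring

lemma integral_stdGaussian_complex (g : ℂ → ℝ) :
    ∫ z, g z ∂(stdGaussian ℂ) = (2 * Real.pi)⁻¹ * ∫ z : ℂ, Real.exp (-(‖z‖ ^ 2 / 2)) * g z := by
  have hm : (⇑Complex.equivRealProdCLM.symm : ℝ × ℝ → ℂ) =
    ⇑Complex.measurableEquivRealProd.symm := rfl
  rw [stdGaussian_complex, hm, integral_map_equiv]
  have hg : (gaussianReal 0 1) = (volume : Measure ℝ).withDensity (gaussianPDF 0 1) :=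
    gaussianReal_of_var_ne_zero 0 (by norm_num)
  have hprod : (gaussianReal 0 1).prod (gaussianReal 0 1) =
      (volume : Measure (ℝ × ℝ)).withDensity
        (fun p => gaussianPDF 0 1 p.1 * gaussianPDF 0 1 p.2) := by
    rw [hg, prod_withDensity (measurable_gaussianPDF 0 1) (measurable_gaussianPDF 0 1)]
    rfl
  rw [hprod, integral_withDensity_eq_integral_toReal_smul]
  · have h1 : ∫ p : ℝ × ℝ, (gaussianPDF 0 1 p.1 * gaussianPDF 0 1 p.2).toReal •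
        g (Complex.measurableEquivRealProd.symm p) =
        ∫ z : ℂ, (gaussianPDF 0 1 z.re * gaussianPDF 0 1 z.im).toReal • g z := by
      rw [← Complex.volume_preserving_equiv_real_prod.integral_comp']
      rfl
    rw [h1, ← integral_const_mul]
    congr 1
    ext z
    rw [ENNReal.toReal_mul, toReal_gaussianPDF, toReal_gaussianPDF, smul_eq_mul, ← mul_assoc]
    congr 1
    have hs : Real.sqrt (2 * Real.pi) * Real.sqrt (2 * Real.pi) = 2 * Real.pi :=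
      Real.mul_self_sqrt (by positivity)
    have hn : ‖z‖ ^ 2 = z.re ^ 2 + z.im ^ 2 := by
      rw [Complex.sq_norm, Complex.normSq_apply]; ring
    rw [hn]
    simp only [gaussianPDFReal, NNReal.coe_one, mul_one, sub_zero]
    rw [show -((z.re ^ 2 + z.im ^ 2) / 2) = -z.re ^ 2 / 2 + -z.im ^ 2 / 2 by ring, Real.exp_add]
    have h5 : (2 * Real.pi)⁻¹ = (Real.sqrt (2 * Real.pi))⁻¹ * (Real.sqrt (2 * Real.pi))⁻¹ := by
      rw [← mul_inv, hs]
    rw [h5]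
    ring
  · exact ((measurable_gaussianPDF 0 1).comp measurable_fst).mul
      ((measurable_gaussianPDF 0 1).comp measurable_snd)
  · refine Filter.Eventually.of_forall fun p => ?_
    exact ENNReal.mul_lt_top gaussianPDF_lt_top gaussianPDF_lt_top

/-- absolute moments with Gaussian weight over `ℂ` -/
noncomputable def cMom (n : ℕ) (b : ℝ) : ℝ := ∫ z : ℂ, ‖z‖ ^ n * Real.exp (-(b * ‖z‖ ^ 2))

lemma cMom_eq (n : ℕ) {b : ℝ} (hb : 0 < b) :
    cMom n b = Real.pi * b ^ (-((n : ℝ) + 2) / 2) * Real.Gamma (((n : ℝ) + 2) / 2) := by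
  unfold cMom
  have h2 := Complex.integral_rpow_mul_exp_neg_mul_rpow (p := 2) (q := (n : ℝ)) (b := b)
    (by norm_num) (by have : (0 : ℝ) ≤ n := Nat.cast_nonneg n
                      linarith) hb
  have h3 : ∫ z : ℂ, ‖z‖ ^ n * Real.exp (-(b * ‖z‖ ^ 2)) =
      ∫ z : ℂ, ‖z‖ ^ (n : ℝ) * Real.exp (-b * ‖z‖ ^ (2 : ℝ)) := by
    congr 1
    ext z
    simp only [Real.rpow_natCast]
    rw [show ((2 : ℝ)) = ((2 : ℕ) : ℝ) by norm_num, Real.rpow_natCast]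
    ring_nf
  rw [h3, h2]
  ring

lemma cMom_add_two (n : ℕ) {b : ℝ} (hb : 0 < b) :
    cMom (n + 2) b = ((n : ℝ) + 2) / (2 * b) * cMom n b := by
  rw [cMom_eq _ hb, cMom_eq _ hb]
  have h1 : (((n + 2 : ℕ) : ℝ) + 2) / 2 = ((n : ℝ) + 2) / 2 + 1 := by push_cast; ring
  have h2 : -(((n + 2 : ℕ) : ℝ) + 2) / 2 = -((n : ℝ) + 2) / 2 - 1 := by push_cast; ring
  rw [h1, h2, Real.Gamma_add_one (by positivity), Real.rpow_sub_one hb.ne']
  field_simp

lemma cMom_zero {b : ℝ} (hb : 0 < b) : cMom 0 b = Real.pi / b := by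
  rw [cMom_eq _ hb]
  norm_num
  rw [Real.rpow_neg_one]
  rfl

lemma cMom_one {b : ℝ} (hb : 0 < b) :
    cMom 1 b = Real.pi * Real.sqrt Real.pi / (2 * (b * Real.sqrt b)) := by
  rw [cMom_eq _ hb]
  have h1 : (((1 : ℕ) : ℝ) + 2) / 2 = 1 / 2 + 1 := by norm_num
  have h2 : b ^ (-(((1 : ℕ) : ℝ) + 2) / 2) = (b * Real.sqrt b)⁻¹ := by
    rw [show (-(((1 : ℕ) : ℝ) + 2) / 2) = -(1 + 1 / 2) by norm_num, Real.rpow_neg hb.le,
      Real.rpow_add hb, Real.rpow_one, Real.sqrt_eq_rpow]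
  rw [h1, h2, Real.Gamma_add_one (by norm_num), Real.Gamma_one_half_eq]
  field_simp

lemma moment_complex (n : ℕ) (s : ℝ) :
    ∫ x : ℂ, ‖x‖ ^ n * Real.exp (-(s * ‖x‖ ^ 2 / 2)) ∂(stdGaussian ℂ) =
      (2 * Real.pi)⁻¹ * cMom n ((1 + s) / 2) := by
  rw [integral_stdGaussian_complex]
  unfold cMom
  congr 2
  ext x
  have : Real.exp (-((1 + s) / 2 * ‖x‖ ^ 2)) =
      Real.exp (-(‖x‖ ^ 2 / 2)) * Real.exp (-(s * ‖x‖ ^ 2 / 2)) := by
    rw [← Real.exp_add]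
    congr 1
    ring
  rw [this]
  ring

lemma moment_complex' (n : ℕ) :
    ∫ x : ℂ, ‖x‖ ^ n ∂(stdGaussian ℂ) = (2 * Real.pi)⁻¹ * cMom n (1 / 2) := by
  have := moment_complex n 0
  simpa using this

lemma two_pi_inv : (2 * Real.pi)⁻¹ * (Real.pi / (1 / 2)) = 1 := by
  have : Real.pi ≠ 0 := Real.pi_pos.ne'
  field_simp

lemma sqrt_eight : Real.sqrt (((1 : ℝ) + 15) / 2) = 4 * Real.sqrt (1 / 2) := by
  rw [show (((1 : ℝ) + 15) / 2) = 4 ^ 2 * (1 / 2) by norm_num,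
    Real.sqrt_mul (by norm_num), Real.sqrt_sq (by norm_num)]

lemma cMom_one_weight : cMom 1 ((1 + 15) / 2) = 1 / 64 * cMom 1 (1 / 2) := by
  rw [cMom_one (by norm_num), cMom_one (by norm_num), sqrt_eight]
  have : Real.sqrt (1 / 2) ≠ 0 := (Real.sqrt_pos.2 (by norm_num)).ne'
  field_simp
  norm_num

lemma radialFacts_complex :
    RadialFacts (stdGaussian ℂ) 2 15 ((2 * Real.pi)⁻¹ * cMom 1 (1 / 2)) (1 / 16) (1 / 31)
      ![1 / 64, 1 / 1024, 1 / 16384] where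
  R2 := by
    rw [moment_complex', cMom_add_two _ (by norm_num), cMom_zero (by norm_num)]
    push_cast
    linear_combination 2 * two_pi_inv
  R4 := by
    rw [moment_complex', cMom_add_two _ (by norm_num), cMom_add_two _ (by norm_num),
      cMom_zero (by norm_num)]
    push_cast
    linear_combination 8 * two_pi_inv
  R6 := by
    rw [moment_complex', cMom_add_two _ (by norm_num), cMom_add_two _ (by norm_num),
      cMom_add_two _ (by norm_num), cMom_zero (by norm_num)]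
    push_cast
    linear_combination 48 * two_pi_inv
  R8 := by
    rw [moment_complex', cMom_add_two _ (by norm_num), cMom_add_two _ (by norm_num),
      cMom_add_two _ (by norm_num), cMom_add_two _ (by norm_num), cMom_zero (by norm_num)]
    push_cast
    linear_combination 384 * two_pi_inv
  R10 := by
    rw [moment_complex', cMom_add_two _ (by norm_num), cMom_add_two _ (by norm_num),
      cMom_add_two _ (by norm_num), cMom_add_two _ (by norm_num),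
      cMom_add_two _ (by norm_num), cMom_zero (by norm_num)]
    push_cast
    linear_combination 3840 * two_pi_inv
  M1 := by
    have := moment_complex' 1
    simp only [pow_one] at this
    exact this
  M3 := by
    rw [moment_complex', cMom_add_two _ (by norm_num)]
    push_cast
    ring
  M5 := by
    rw [moment_complex', cMom_add_two _ (by norm_num), cMom_add_two _ (by norm_num)]
    push_cast
    ring
  W1 := by
    have := moment_complex 1 15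
    simp only [pow_one] at this
    rw [this, cMom_one_weight]
    simp
    ring
  W3 := by
    rw [moment_complex, cMom_add_two _ (by norm_num), cMom_one_weight]
    simp
    ring
  W5 := by
    rw [moment_complex, cMom_add_two _ (by norm_num), cMom_add_two _ (by norm_num),
      cMom_one_weight]
    simp
    ring
  E1 := by
    have := moment_complex 0 15
    simp only [pow_zero, one_mul] at this
    rw [this, cMom_zero (by norm_num)]
    have : Real.pi ≠ 0 := Real.pi_pos.ne'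
    field_simp
    norm_num
  E2 := by
    have := moment_complex 0 30
    simp only [pow_zero, one_mul] at this
    have e : ∀ z : ℂ, Real.exp (-(15 * ‖z‖ ^ 2 / 2)) ^ 2 = Real.exp (-(30 * ‖z‖ ^ 2 / 2)) := by
      intro z
      rw [← Real.exp_nat_mul]
      congr 1
      push_cast
      ring
    simp_rw [e]
    rw [this, cMom_zero (by norm_num)]
    have : Real.pi ≠ 0 := Real.pi_pos.ne'
    field_simp
    norm_num

/-! ### Signed moments and the Mehler property -/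

/-- mixed moments -/
lemma mixed_moment_zero {a b : ℕ}
    (hab : (Complex.I) ^ a * (-Complex.I) ^ b ≠ 1) :
    ∫ w : ℂ, w ^ a * (starRingEnd ℂ w) ^ b ∂(stdGaussian ℂ) = 0 := by
  set R : ℂ ≃ₗᵢ[ℝ] ℂ := rotation ⟨Complex.I, mem_sphere_zero_iff_norm.2 (by simp)⟩ with hR
  have hRa : ∀ w, R w = Complex.I * w := fun w => rfl
  have h1 : (stdGaussian ℂ).map R = stdGaussian ℂ := stdGaussian_map _
  have h2 : ∫ w : ℂ, w ^ a * (starRingEnd ℂ w) ^ b ∂(stdGaussian ℂ) =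
      ∫ w : ℂ, (Complex.I * w) ^ a * (starRingEnd ℂ (Complex.I * w)) ^ b ∂(stdGaussian ℂ) := by
    conv_lhs => rw [← h1]
    rw [integral_map R.continuous.aemeasurable]
    · rfl
    · exact (by fun_prop : Continuous fun w : ℂ => w ^ a * (starRingEnd ℂ w) ^ b).aestronglyMeasurable
  have h3 : ∀ w : ℂ, (Complex.I * w) ^ a * (starRingEnd ℂ (Complex.I * w)) ^ b =
      ((Complex.I) ^ a * (-Complex.I) ^ b) * (w ^ a * (starRingEnd ℂ w) ^ b) := by
    intro w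
    rw [map_mul, Complex.conj_I, mul_pow, mul_pow]
    ring
  simp_rw [h3] at h2
  rw [integral_const_mul] at h2
  have h4 : (1 - (Complex.I) ^ a * (-Complex.I) ^ b) *
      ∫ w : ℂ, w ^ a * (starRingEnd ℂ w) ^ b ∂(stdGaussian ℂ) = 0 := by
    linear_combination h2
  rcases mul_eq_zero.1 h4 with h | h
  · exact absurd (sub_eq_zero.1 h).symm hab
  · exact h

lemma mixed_moment_diag (a : ℕ) :
    ∫ w : ℂ, w ^ a * (starRingEnd ℂ w) ^ a ∂(stdGaussian ℂ) =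
      ((∫ w : ℂ, ‖w‖ ^ (2 * a) ∂(stdGaussian ℂ) : ℝ) : ℂ) := by
  rw [← integral_complex_ofReal]
  congr 1
  ext w
  rw [← mul_pow, Complex.mul_conj, Complex.normSq_eq_norm_sq]
  push_cast
  rw [pow_mul]

lemma integral_mixed (c : Fin 4 → Fin 3 → ℂ) :
    ∫ w : ℂ, (∑ a : Fin 4, ∑ b : Fin 3, c a b * (w ^ (a : ℕ) * (starRingEnd ℂ w) ^ (b : ℕ)))
      ∂(stdGaussian ℂ) = c 0 0 + 2 * c 1 1 + 8 * c 2 2 := by
  have hid : AllLp (stdGaussian ℂ) (fun z : ℂ => z) := allLp_id_stdGaussian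
  have hcj : AllLp (stdGaussian ℂ) (fun z : ℂ => starRingEnd ℂ z) := fun p hp => (hid p hp).star
  have hn : ∀ (a : Fin 4) (b : Fin 3), Integrable
      (fun w : ℂ => c a b * (w ^ (a : ℕ) * (starRingEnd ℂ w) ^ (b : ℕ))) (stdGaussian ℂ) :=
    fun a b => (((hid.pow _).mul (hcj.pow _)).const_mul _).integrable
  rw [integral_finsetSum _ fun a _ => integrable_finsetSum _ fun b _ => hn a b]
  have h1 : ∀ a : Fin 4, ∫ w : ℂ, (∑ b : Fin 3, c a b *
      (w ^ (a : ℕ) * (starRingEnd ℂ w) ^ (b : ℕ))) ∂(stdGaussian ℂ) =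
      ∑ b : Fin 3, c a b * ∫ w : ℂ, w ^ (a : ℕ) * (starRingEnd ℂ w) ^ (b : ℕ) ∂(stdGaussian ℂ) := by
    intro a
    rw [integral_finsetSum _ fun b _ => hn a b]
    exact Finset.sum_congr rfl fun b _ => integral_const_mul _ _
  rw [Finset.sum_congr rfl fun a _ => h1 a]
  have d0 : ∫ w : ℂ, w ^ 0 * (starRingEnd ℂ w) ^ 0 ∂(stdGaussian ℂ) = 1 := by simp
  have d1 : ∫ w : ℂ, w ^ 1 * (starRingEnd ℂ w) ^ 1 ∂(stdGaussian ℂ) = 2 := by
    rw [mixed_moment_diag, radialFacts_complex.R2]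
    norm_num
  have d2 : ∫ w : ℂ, w ^ 2 * (starRingEnd ℂ w) ^ 2 ∂(stdGaussian ℂ) = 8 := by
    rw [mixed_moment_diag, radialFacts_complex.R4]
    norm_num
  have z01 : ∫ w : ℂ, w ^ 0 * (starRingEnd ℂ w) ^ 1 ∂(stdGaussian ℂ) = 0 :=
    mixed_moment_zero (by simp [Complex.ext_iff])
  have z02 : ∫ w : ℂ, w ^ 0 * (starRingEnd ℂ w) ^ 2 ∂(stdGaussian ℂ) = 0 :=
    mixed_moment_zero (by simp [Complex.ext_iff]; norm_num)
  have z10 : ∫ w : ℂ, w ^ 1 * (starRingEnd ℂ w) ^ 0 ∂(stdGaussian ℂ) = 0 :=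
    mixed_moment_zero (by simp [Complex.ext_iff])
  have z12 : ∫ w : ℂ, w ^ 1 * (starRingEnd ℂ w) ^ 2 ∂(stdGaussian ℂ) = 0 :=
    mixed_moment_zero (by simp [Complex.ext_iff])
  have z20 : ∫ w : ℂ, w ^ 2 * (starRingEnd ℂ w) ^ 0 ∂(stdGaussian ℂ) = 0 :=
    mixed_moment_zero (by simp [Complex.ext_iff]; norm_num)
  have z21 : ∫ w : ℂ, w ^ 2 * (starRingEnd ℂ w) ^ 1 ∂(stdGaussian ℂ) = 0 :=
    mixed_moment_zero (by simp [Complex.ext_iff])
  have z30 : ∫ w : ℂ, w ^ 3 * (starRingEnd ℂ w) ^ 0 ∂(stdGaussian ℂ) = 0 :=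
    mixed_moment_zero (by simp [Complex.ext_iff, pow_succ])
  have z31 : ∫ w : ℂ, w ^ 3 * (starRingEnd ℂ w) ^ 1 ∂(stdGaussian ℂ) = 0 :=
    mixed_moment_zero (by simp [Complex.ext_iff, pow_succ]; norm_num)
  have z32 : ∫ w : ℂ, w ^ 3 * (starRingEnd ℂ w) ^ 2 ∂(stdGaussian ℂ) = 0 :=
    mixed_moment_zero (by simp [Complex.ext_iff, pow_succ])
  simp only [Fin.sum_univ_four, Fin.sum_univ_three, Fin.val_zero, Fin.val_one, Fin.val_two,
    show ((3 : Fin 4) : ℕ) = 3 from rfl,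
    d0, d1, d2, z01, z02, z10, z12, z20, z21, z30, z31, z32]
  ring

lemma mehler_complex (k : Fin 3) (T : ℂ) (s : ℝ) (hTs : ‖T‖ ^ 2 + s ^ 2 = 1) (z : ℂ) :
    ∫ w, hermiteH (𝕜 := ℂ) 2 k (T * z + ((s : ℝ) : ℂ) * w) ∂(stdGaussian ℂ) =
      T * ((‖T‖ ^ 2 : ℝ) : ℂ) ^ (k : ℕ) * hermiteH (𝕜 := ℂ) 2 k z := by
  have hs : (s : ℂ) ^ 2 = 1 - T * starRingEnd ℂ T := by
    rw [Complex.mul_conj, Complex.normSq_eq_norm_sq]
    have : s ^ 2 = 1 - ‖T‖ ^ 2 := by linarith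
    exact_mod_cast this
  have hT : ((‖T‖ ^ 2 : ℝ) : ℂ) = T * starRingEnd ℂ T := by
    rw [Complex.mul_conj, Complex.normSq_eq_norm_sq]
  have hZ : ∀ Z : ℂ, ((‖Z‖ ^ 2 : ℝ) : ℂ) = Z * starRingEnd ℂ Z := by
    intro Z
    rw [Complex.mul_conj, Complex.normSq_eq_norm_sq]
  set x := T * z with hx
  set y := starRingEnd ℂ T * starRingEnd ℂ z with hy
  have hconj : ∀ w : ℂ, starRingEnd ℂ (x + (s : ℂ) * w) = y + (s : ℂ) * starRingEnd ℂ w := by
    intro w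
    rw [hx, hy, map_add, map_mul, map_mul, Complex.conj_ofReal]
  fin_cases k
  · have := integral_mixed ![![x, 0, 0], ![(s : ℂ), 0, 0], ![0, 0, 0], ![0, 0, 0]]
    simp [hermiteH, radP, Fin.sum_univ_four, Fin.sum_univ_three] at *
    exact this
  · have := integral_mixed ![![x ^ 2 * y - 4 * x, x ^ 2 * s, 0],
      ![2 * x * y * s - 4 * s, 2 * x * s ^ 2, 0], ![y * s ^ 2, s ^ 3, 0], ![0, 0, 0]]
    have e : ∀ w : ℂ, hermiteH (𝕜 := ℂ) 2 1 (x + (s : ℂ) * w) =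
      ∑ a : Fin 4, ∑ b : Fin 3, (![![x ^ 2 * y - 4 * x, x ^ 2 * s, 0],
      ![2 * x * y * s - 4 * s, 2 * x * s ^ 2, 0], ![y * s ^ 2, s ^ 3, 0], ![0, 0, 0]] :
        Fin 4 → Fin 3 → ℂ) a b * (w ^ (a : ℕ) * (starRingEnd ℂ w) ^ (b : ℕ)) := by
      intro w
      have h1 : hermiteH (𝕜 := ℂ) 2 1 (x + (s : ℂ) * w) = (x + (s : ℂ) * w) *
          (((‖x + (s : ℂ) * w‖ ^ 2 : ℝ) : ℂ) - 4) := by
        simp [hermiteH, radP]
        norm_num
      rw [h1, hZ, hconj]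
      simp [Fin.sum_univ_four, Fin.sum_univ_three]
      ring
    change ∫ w, hermiteH (𝕜 := ℂ) 2 1 (x + (s : ℂ) * w) ∂(stdGaussian ℂ) =
      T * ((‖T‖ ^ 2 : ℝ) : ℂ) ^ 1 * hermiteH (𝕜 := ℂ) 2 1 z
    simp_rw [e]
    rw [this]
    have h2 : hermiteH (𝕜 := ℂ) 2 1 z = z * (((‖z‖ ^ 2 : ℝ) : ℂ) - 4) := by
      simp [hermiteH, radP]
      norm_num
    rw [h2, hZ z, hT]
    simp
    rw [hs, hx, hy]
    ring
  · have := integral_mixed ![![x ^ 3 * y ^ 2 - 12 * x ^ 2 * y + 24 * x,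
        2 * x ^ 3 * y * s - 12 * x ^ 2 * s, x ^ 3 * s ^ 2],
      ![3 * x ^ 2 * y ^ 2 * s - 24 * x * y * s + 24 * s, 6 * x ^ 2 * y * s ^ 2 - 24 * x * s ^ 2,
        3 * x ^ 2 * s ^ 3],
      ![3 * x * y ^ 2 * s ^ 2 - 12 * y * s ^ 2, 6 * x * y * s ^ 3 - 12 * s ^ 3, 3 * x * s ^ 4],
      ![y ^ 2 * s ^ 3, 2 * y * s ^ 4, s ^ 5]]
    have e : ∀ w : ℂ, hermiteH (𝕜 := ℂ) 2 2 (x + (s : ℂ) * w) =
      ∑ a : Fin 4, ∑ b : Fin 3, (![![x ^ 3 * y ^ 2 - 12 * x ^ 2 * y + 24 * x,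
        2 * x ^ 3 * y * s - 12 * x ^ 2 * s, x ^ 3 * s ^ 2],
      ![3 * x ^ 2 * y ^ 2 * s - 24 * x * y * s + 24 * s, 6 * x ^ 2 * y * s ^ 2 - 24 * x * s ^ 2,
        3 * x ^ 2 * s ^ 3],
      ![3 * x * y ^ 2 * s ^ 2 - 12 * y * s ^ 2, 6 * x * y * s ^ 3 - 12 * s ^ 3, 3 * x * s ^ 4],
      ![y ^ 2 * s ^ 3, 2 * y * s ^ 4, s ^ 5]] :
        Fin 4 → Fin 3 → ℂ) a b * (w ^ (a : ℕ) * (starRingEnd ℂ w) ^ (b : ℕ)) := by
      intro w
      have h1 : hermiteH (𝕜 := ℂ) 2 2 (x + (s : ℂ) * w) = (x + (s : ℂ) * w) *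
          (((‖x + (s : ℂ) * w‖ ^ 2 : ℝ) : ℂ) ^ 2 - 12 * ((‖x + (s : ℂ) * w‖ ^ 2 : ℝ) : ℂ) + 24) := by
        simp [hermiteH, radP]
        left
        ring
      rw [h1, hZ, hconj]
      simp [Fin.sum_univ_four, Fin.sum_univ_three]
      ring
    change ∫ w, hermiteH (𝕜 := ℂ) 2 2 (x + (s : ℂ) * w) ∂(stdGaussian ℂ) =
      T * ((‖T‖ ^ 2 : ℝ) : ℂ) ^ 2 * hermiteH (𝕜 := ℂ) 2 2 z
    simp_rw [e]
    rw [this]
    have h2 : hermiteH (𝕜 := ℂ) 2 2 z = z * (((‖z‖ ^ 2 : ℝ) : ℂ) ^ 2 - 12 * ((‖z‖ ^ 2 : ℝ) : ℂ) + 24) := by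
      simp [hermiteH, radP]
      left
      ring
    rw [h2, hZ z, hT]
    simp
    rw [show (s : ℂ) ^ 4 = ((s : ℂ) ^ 2) ^ 2 by ring, hs, hx, hy]
    ring

end Pool.Agent.helper31.Groth
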