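import Mathlib
import Pool.Agent.helper31.GrothComplex

set_option autoImplicit false

open MeasureTheory ProbabilityTheory
open scoped ComplexOrder ENNReal

namespace Pool.Agent.helper31.Groth

lemma rcoef_smul (α β P : ℝ) (q : Fin 3 → ℝ) (l : Fin 7) :
    rcoef α β (fun k => P * q k) l = P * rcoef α β q l := by
  fin_cases l <;> simp [rcoef] <;> ring

lemma coD_eq (d M : ℝ) (w : Fin 3 → ℝ) (k : Fin 3) : coD d M w k = M * coD d 1 w k := by
  fin_cases k <;> simp [coD] <;> ring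

/-- rational parts of the chaos weights -/
noncomputable def qD (d : ℝ) (w : Fin 3 → ℝ) (k : Fin 3) : ℝ := coD d 1 w k ^ 2 / nnD d k

lemma grothendieck_of_data {𝕜 : Type} [RCLike 𝕜] [MeasurableSpace 𝕜] [BorelSpace 𝕜]
    {d s M e1 e2 : ℝ} {w : Fin 3 → ℝ} (hd : 0 < d) (hs : 0 ≤ s) (hM : 0 < M)
    (hr : RadialFacts (stdGaussian 𝕜) d s M e1 e2 w)
    (hm : ∀ (k : Fin 3) (T : 𝕜) (s : ℝ), ‖T‖ ^ 2 + s ^ 2 = 1 → ∀ z,
      ∫ w, hermiteH d k (T * z + (s : 𝕜) * w) ∂(stdGaussian 𝕜) =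
        T * ((‖T‖ ^ 2 : ℝ) : 𝕜) ^ (k : ℕ) * hermiteH d k z)
    {α β : ℝ} (hα : 0 ≤ α) (hβ : 0 ≤ β) (hαβ : α + β = 1)
    (hρ : 0 < (1 - 2 * e1 + e2) - M ^ 2 * ∑ k, qD d w k)
    (hJ : 0 < M ^ 2 * (qD d w 0 * α + ∑ k, qD d w k - ∑ l, |rcoef α β (qD d w) l|) -
      (1 - 2 * e1 + e2)) :
    IsGrothendieckBound 𝕜
      (1 / (M ^ 2 * (qD d w 0 * α + ∑ k, qD d w k - ∑ l, |rcoef α β (qD d w) l|) -
        (1 - 2 * e1 + e2))) := by
  have hid : AllLp (stdGaussian 𝕜) (fun z : 𝕜 => z) := allLp_id_stdGaussian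
  have hR := roundData_of_radial hd hs hid hr hm
  have hNf := norm_sq_roundF hid hs hr
  have hc : ∀ k, coD d M w k ^ 2 / nnD d k = M ^ 2 * qD d w k := by
    intro k
    rw [coD_eq, qD]
    ring
  have hfun : (fun k => coD d M w k ^ 2 / nnD d k) = fun k => M ^ 2 * qD d w k := funext hc
  have hsum : ∑ l, |rcoef α β (fun k => coD d M w k ^ 2 / nnD d k) l| =
      M ^ 2 * ∑ l, |rcoef α β (qD d w) l| := by
    rw [hfun, Finset.mul_sum]
    refine Finset.sum_congr rfl fun l _ => ?_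
    rw [rcoef_smul, abs_mul, abs_of_nonneg (sq_nonneg M)]
  set ρ : ℝ := Real.sqrt ((1 - 2 * e1 + e2) - M ^ 2 * ∑ k, qD d w k) with hρdef
  have hρ2 : ρ ^ 2 = (1 - 2 * e1 + e2) - ∑ k, coD d M w k ^ 2 / nnD d k := by
    rw [hρdef, Real.sq_sqrt hρ.le, hfun, Finset.mul_sum]
  have hS : 0 ≤ ∑ l, |rcoef α β (qD d w) l| := Finset.sum_nonneg fun _ _ => abs_nonneg _
  have hδ : 0 ≤ ρ ^ 2 + ∑ l, |rcoef α β (fun k => coD d M w k ^ 2 / nnD d k) l| := by
    rw [hsum]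
    positivity
  have hcδ : ρ ^ 2 + ∑ l, |rcoef α β (fun k => coD d M w k ^ 2 / nnD d k) l| <
      coD d M w 0 ^ 2 / nnD d 0 * α := by
    rw [hsum, hρ2, hc 0, hfun, ← Finset.mul_sum]
    nlinarith
  have hpos : 0 < coD d M w 0 ^ 2 / nnD d 0 * α := lt_of_le_of_lt hδ hcδ
  have e : M ^ 2 * (qD d w 0 * α + ∑ k, qD d w k - ∑ l, |rcoef α β (qD d w) l|) -
        (1 - 2 * e1 + e2) = coD d M w 0 ^ 2 / nnD d 0 * α -
      (ρ ^ 2 + ∑ l, |rcoef α β (fun k => coD d M w k ^ 2 / nnD d k) l|) := by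
    rw [hsum, hρ2, hc 0, hfun, ← Finset.mul_sum]
    ring
  rw [e]
  refine isGrothendieckBound_of_sized (by
    rw [e] at hJ
    exact one_div_pos.2 hJ) fun m n => ?_
  refine sizedBound_of_bootstrap hδ hcδ fun K hK => ?_
  exact boot_step gaussSys_stdGaussian hR hNf hα hβ hαβ (Real.sqrt_pos.2 hρ) hρ2 hpos hK

/-- An explicit admissible constant over `ℝ`, smaller than `π - 1`. -/
lemma exists_bound_real : ∃ K : ℝ, IsGrothendieckBound ℝ K ∧ K < Real.pi - 1 := by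
  have hM : (0 : ℝ) < (Real.sqrt (2 * Real.pi))⁻¹ * 2 := by positivity
  have hM2 : ((Real.sqrt (2 * Real.pi))⁻¹ * 2) ^ 2 = 2 / Real.pi := by
    rw [mul_pow, inv_pow, Real.sq_sqrt (by positivity)]
    field_simp
  have q0 : qD 1 ![1 / 25, 1 / 625, 1 / 15625] 0 = 576 / 625 := by
    simp [qD, coD, nnD]; norm_num
  have q1 : qD 1 ![1 / 25, 1 / 625, 1 / 15625] 1 = 50784 / 390625 := by
    simp [qD, coD, nnD]; norm_num
  have q2 : qD 1 ![1 / 25, 1 / 625, 1 / 15625] 2 = 60141336 / 1220703125 := by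
    simp [qD, coD, nnD]; norm_num
  have hS : ∑ k, qD 1 ![1 / 25, 1 / 625, 1 / 15625] k =
      576 / 625 + 50784 / 390625 + 60141336 / 1220703125 := by
    rw [Fin.sum_univ_three, q0, q1, q2]
  have hR : ∑ l, |rcoef (906 / 1000) (94 / 1000) (qD 1 ![1 / 25, 1 / 625, 1 / 15625]) l| ≤
      261 / 10000 := by
    rw [Fin.sum_univ_seven]
    simp only [rcoef, Matrix.cons_val, q0, q1, q2]
    rw [abs_of_nonneg (by norm_num), abs_of_nonpos (by norm_num), abs_of_nonpos (by norm_num),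
      abs_of_nonneg (by norm_num), abs_of_nonpos (by norm_num), abs_of_nonneg (by norm_num),
      abs_of_nonpos (by norm_num)]
    norm_num
  have hpi1 := Real.pi_gt_d4
  have hpi2 := Real.pi_lt_d4
  have hP : (0 : ℝ) < Real.pi := Real.pi_pos
  have hinv1 : 1 / Real.pi < 1 / 3.1415 := one_div_lt_one_div_of_lt (by norm_num) hpi1
  have hinv2 : 1 / 3.1416 < 1 / Real.pi := one_div_lt_one_div_of_lt hP hpi2
  have h2 : 2 / Real.pi = 2 * (1 / Real.pi) := by ring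
  have hJ' : 0.4727 < 2 / Real.pi * (576 / 625 * (906 / 1000) +
      (576 / 625 + 50784 / 390625 + 60141336 / 1220703125) - 261 / 10000) -
      (1 - 2 * (1 / 5) + 1 / 7) := by
    rw [h2]
    norm_num at hinv2 ⊢
    linarith
  have hle : 2 / Real.pi * (576 / 625 * (906 / 1000) +
      (576 / 625 + 50784 / 390625 + 60141336 / 1220703125) - 261 / 10000) -
      (1 - 2 * (1 / 5) + 1 / 7) ≤
      ((Real.sqrt (2 * Real.pi))⁻¹ * 2) ^ 2 * (qD 1 ![1 / 25, 1 / 625, 1 / 15625] 0 *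
        (906 / 1000) + ∑ k, qD 1 ![1 / 25, 1 / 625, 1 / 15625] k -
        ∑ l, |rcoef (906 / 1000) (94 / 1000) (qD 1 ![1 / 25, 1 / 625, 1 / 15625]) l|) -
        (1 - 2 * (1 / 5) + 1 / 7) := by
    rw [hM2, hS, q0]
    have : (0 : ℝ) ≤ 2 / Real.pi := by positivity
    nlinarith
  have key := grothendieck_of_data (𝕜 := ℝ) (α := 906 / 1000) (β := 94 / 1000) (by norm_num)
    (by norm_num) hM radialFacts_real mehler_real (by norm_num) (by norm_num) (by norm_num)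
    (by
      rw [hM2, hS, h2]
      norm_num at hinv1 ⊢
      linarith)
    (by
      refine lt_of_lt_of_le ?_ hle
      linarith)
  refine ⟨_, key, ?_⟩
  have hJ := lt_of_lt_of_le hJ' hle
  have h3 := one_div_lt_one_div_of_lt (by norm_num) hJ
  refine h3.trans ?_
  have : (1 : ℝ) / 0.4727 < 3.1415 - 1 := by norm_num
  linarith

/-- An explicit admissible constant over `ℂ`, smaller than `8/π - 1`. -/
lemma exists_bound_complex : ∃ K : ℝ, IsGrothendieckBound ℂ K ∧ K < 8 / Real.pi - 1 := by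
  have hP : (0 : ℝ) < Real.pi := Real.pi_pos
  have hc1 : cMom 1 (1 / 2) = Real.pi * Real.sqrt Real.pi / (Real.sqrt (1 / 2)) := by
    rw [cMom_one (by norm_num)]
    congr 1
    ring
  have hM : (0 : ℝ) < (2 * Real.pi)⁻¹ * cMom 1 (1 / 2) := by
    rw [hc1]
    positivity
  have hM2 : ((2 * Real.pi)⁻¹ * cMom 1 (1 / 2)) ^ 2 = Real.pi / 2 := by
    have e1 : Real.sqrt Real.pi ^ 2 = Real.pi := Real.sq_sqrt hP.le
    have e2 : Real.sqrt (1 / 2) ^ 2 = 1 / 2 := Real.sq_sqrt (by norm_num)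
    rw [hc1, mul_pow, inv_pow, div_pow, e2, mul_pow Real.pi, e1]
    field_simp
  have q0 : qD 2 ![1 / 64, 1 / 1024, 1 / 16384] 0 = 3969 / 8192 := by
    simp [qD, coD, nnD]; norm_num
  have q1 : qD 2 ![1 / 64, 1 / 1024, 1 / 16384] 1 = 927369 / 16777216 := by
    simp [qD, coD, nnD]; norm_num
  have q2 : qD 2 ![1 / 64, 1 / 1024, 1 / 16384] 2 = 632752587 / 34359738368 := by
    simp [qD, coD, nnD]; norm_num
  have hS : ∑ k, qD 2 ![1 / 64, 1 / 1024, 1 / 16384] k =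
      3969 / 8192 + 927369 / 16777216 + 632752587 / 34359738368 := by
    rw [Fin.sum_univ_three, q0, q1, q2]
  have hR : ∑ l, |rcoef (915 / 1000) (85 / 1000) (qD 2 ![1 / 64, 1 / 1024, 1 / 16384]) l| ≤
      67 / 10000 := by
    rw [Fin.sum_univ_seven]
    simp only [rcoef, Matrix.cons_val, q0, q1, q2]
    rw [abs_of_nonneg (by norm_num), abs_of_nonneg (by norm_num), abs_of_nonpos (by norm_num),
      abs_of_nonneg (by norm_num), abs_of_nonpos (by norm_num), abs_of_nonneg (by norm_num),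
      abs_of_nonpos (by norm_num)]
    norm_num
  have hpi1 := Real.pi_gt_d4
  have hpi2 := Real.pi_lt_d4
  have hinv2 : 1 / 3.1416 < 1 / Real.pi := one_div_lt_one_div_of_lt hP hpi2
  have hJ' : 0.6552 < Real.pi / 2 * (3969 / 8192 * (915 / 1000) +
      (3969 / 8192 + 927369 / 16777216 + 632752587 / 34359738368) - 67 / 10000) -
      (1 - 2 * (1 / 16) + 1 / 31) := by
    norm_num at hpi1 ⊢
    linarith
  have hle : Real.pi / 2 * (3969 / 8192 * (915 / 1000) +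
      (3969 / 8192 + 927369 / 16777216 + 632752587 / 34359738368) - 67 / 10000) -
      (1 - 2 * (1 / 16) + 1 / 31) ≤
      ((2 * Real.pi)⁻¹ * cMom 1 (1 / 2)) ^ 2 * (qD 2 ![1 / 64, 1 / 1024, 1 / 16384] 0 *
        (915 / 1000) + ∑ k, qD 2 ![1 / 64, 1 / 1024, 1 / 16384] k -
        ∑ l, |rcoef (915 / 1000) (85 / 1000) (qD 2 ![1 / 64, 1 / 1024, 1 / 16384]) l|) -
        (1 - 2 * (1 / 16) + 1 / 31) := by
    rw [hM2, hS, q0]
    have : (0 : ℝ) ≤ Real.pi / 2 := by positivity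
    nlinarith
  have key := grothendieck_of_data (𝕜 := ℂ) (α := 915 / 1000) (β := 85 / 1000) (by norm_num)
    (by norm_num) hM radialFacts_complex mehler_complex (by norm_num) (by norm_num) (by norm_num)
    (by
      rw [hM2, hS]
      norm_num at hpi2 ⊢
      linarith)
    (by
      refine lt_of_lt_of_le ?_ hle
      linarith)
  refine ⟨_, key, ?_⟩
  have hJ := lt_of_lt_of_le hJ' hle
  have h3 := one_div_lt_one_div_of_lt (by norm_num) hJ
  refine h3.trans ?_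
  have h8 : 8 / Real.pi = 8 * (1 / Real.pi) := by ring
  rw [h8]
  have : (1 : ℝ) / 0.6552 < 8 * (1 / 3.1416) - 1 := by norm_num
  linarith

end Pool.Agent.helper31.Groth
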