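import Mathlib
import Pool.Agent.helper31.GrothUpper
import Pool.Agent.helper31.GrothLower

set_option autoImplicit false

open MeasureTheory ProbabilityTheory
open scoped ComplexOrder ENNReal

namespace Pool.Agent.helper31.Groth

section general

variable {E : Type} [NormedAddCommGroup E] [InnerProductSpace ℝ E] [FiniteDimensional ℝ E]
  [MeasurableSpace E] [BorelSpace E]

lemma sq_moment_gaussian : ∫ x, x ^ 2 ∂(gaussianReal 0 1) = 1 := by
  have := radialFacts_real.R2
  rw [stdGaussian_real] at this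
  simpa using this

lemma four_moment_gaussian : ∫ x, (x ^ 2) ^ 2 ∂(gaussianReal 0 1) = 3 := by
  have := radialFacts_real.R4
  rw [stdGaussian_real] at this
  have e : ∀ x : ℝ, ‖x‖ ^ 4 = (x ^ 2) ^ 2 := fun x => by
    rw [Real.norm_eq_abs, show (4 : ℕ) = 2 * 2 by norm_num, pow_mul, sq_abs]
  simp_rw [e] at this
  rw [this]
  norm_num

lemma memLp_sq_gaussian : MemLp (fun x : ℝ => x ^ 2) 2 (gaussianReal 0 1) := by
  have h : AllLp (stdGaussian ℝ) (fun z : ℝ => z) := allLp_id_stdGaussian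
  have := (h.pow 2) 2 (by norm_num)
  rwa [stdGaussian_real] at this

/-- second and fourth moments of the norm -/
lemma norm_moments : ∫ x, ‖x‖ ^ 2 ∂(stdGaussian E) = Module.finrank ℝ E ∧
    ∫ x, (‖x‖ ^ 2) ^ 2 ∂(stdGaussian E) = (Module.finrank ℝ E) ^ 2 + 2 * Module.finrank ℝ E := by
  set D := Module.finrank ℝ E with hD
  set P := (Measure.pi (fun _ : Fin D ↦ gaussianReal 0 1)) with hP
  have hmeas : Measurable (fun x : Fin D → ℝ ↦ ∑ i, x i • stdOrthonormalBasis ℝ E i) := by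
    fun_prop
  have hn : ∀ x : Fin D → ℝ, ‖∑ i, x i • stdOrthonormalBasis ℝ E i‖ ^ 2 = ∑ i, (x i) ^ 2 := by
    intro x
    rw [← (stdOrthonormalBasis ℝ E).sum_sq_inner_right (∑ i, x i • stdOrthonormalBasis ℝ E i)]
    refine Finset.sum_congr rfl fun i _ => ?_
    rw [inner_sum]
    simp [inner_smul_right, (stdOrthonormalBasis ℝ E).inner_eq_ite]
  have m2 : MemLp (fun x : ℝ => x ^ 2) 2 (gaussianReal 0 1) := memLp_sq_gaussian
  have mi : ∀ i : Fin D, MemLp (fun x : Fin D → ℝ => (x i) ^ 2) 2 P := fun i =>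
    m2.comp_measurePreserving (measurePreserving_eval (fun _ : Fin D => gaussianReal 0 1) i)
  have i1 : ∫ x, ∑ i, (x i) ^ 2 ∂P = D := by
    rw [integral_finsetSum _ fun i _ => (mi i).integrable (by norm_num)]
    have : ∀ i : Fin D, ∫ x, (x i) ^ 2 ∂P = 1 := by
      intro i
      rw [hP, integral_comp_eval (μ := fun _ : Fin D => gaussianReal 0 1)
        (f := fun x : ℝ => x ^ 2) (by fun_prop)]
      exact sq_moment_gaussian
    simp [this]
  have hv1 : Var[fun x : ℝ => x ^ 2; gaussianReal 0 1] = 2 := by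
    rw [variance_eq_sub m2]
    simp only [Pi.pow_apply]
    rw [sq_moment_gaussian, four_moment_gaussian]
    norm_num
  have hv : Var[fun x : Fin D → ℝ => ∑ i, (x i) ^ 2; P] = 2 * D := by
    have := variance_sum_pi (μ := fun _ : Fin D => gaussianReal 0 1)
      (X := fun _ => fun x : ℝ => x ^ 2) (fun _ => m2)
    have e : (∑ i : Fin D, fun ω : Fin D → ℝ => (ω i) ^ 2) =
        fun x : Fin D → ℝ => ∑ i, (x i) ^ 2 := by
      ext x
      simp
    rw [e, hv1] at this
    rw [hP, this]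
    simp [mul_comm]
  have msum : MemLp (fun x : Fin D → ℝ => ∑ i, (x i) ^ 2) 2 P := memLp_finsetSum _ fun i _ => mi i
  constructor
  · rw [stdGaussian, integral_map hmeas.aemeasurable (by fun_prop)]
    simp_rw [hn]
    exact i1
  · rw [stdGaussian, integral_map hmeas.aemeasurable (by fun_prop)]
    simp_rw [hn]
    have := variance_eq_sub msum
    rw [hv, i1] at this
    simp only [Pi.pow_apply] at this
    linarith

lemma integral_norm_lower (hD : 0 < Module.finrank ℝ E) :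
    Real.sqrt (Module.finrank ℝ E) * (1 - 1 / Module.finrank ℝ E) ≤
      ∫ x, ‖x‖ ∂(stdGaussian E) := by
  obtain ⟨h2, h4⟩ := norm_moments (E := E)
  set D : ℝ := (Module.finrank ℝ E : ℝ) with hDdef
  have hD' : (0 : ℝ) < D := by
    rw [hDdef]
    exact_mod_cast hD
  set r := Real.sqrt D with hr
  have hr2 : r ^ 2 = D := Real.sq_sqrt hD'.le
  have hrpos : 0 < r := Real.sqrt_pos.2 hD'
  have hid : MemLp (fun x : E => x) 4 (stdGaussian E) :=
    IsGaussian.memLp_id (stdGaussian E) 4 (by norm_num)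
  have i1 : Integrable (fun x : E => ‖x‖) (stdGaussian E) :=
    (hid.integrable (by norm_num)).norm
  have i2 : Integrable (fun x : E => ‖x‖ ^ 2) (stdGaussian E) :=
    (IsGaussian.memLp_id (stdGaussian E) 2 (by norm_num)).integrable_norm_pow (by norm_num)
  have i4 : Integrable (fun x : E => (‖x‖ ^ 2) ^ 2) (stdGaussian E) := by
    have := hid.integrable_norm_pow (by norm_num)
    simp only [← pow_mul]
    exact this
  have hpt : ∀ x : E, r * (3 * (‖x‖ ^ 2 / D) - (‖x‖ ^ 2) ^ 2 / D ^ 2) / 2 ≤ ‖x‖ := by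
    intro x
    have hx := norm_nonneg x
    set y := ‖x‖ with hy
    have hr0 : r ≠ 0 := hrpos.ne'
    rw [← hr2]
    have e : r * (3 * (y ^ 2 / r ^ 2) - (y ^ 2) ^ 2 / (r ^ 2) ^ 2) / 2 =
        (3 * y ^ 2 * r ^ 2 - y ^ 4) / (2 * r ^ 3) := by
      field_simp
    rw [e, div_le_iff₀ (by positivity)]
    have : 0 ≤ y * ((y - r) ^ 2 * (y + 2 * r)) := by positivity
    nlinarith
  have hint : ∫ x : E, r * (3 * (‖x‖ ^ 2 / D) - (‖x‖ ^ 2) ^ 2 / D ^ 2) / 2 ∂(stdGaussian E) =
      r * (1 - 1 / D) := by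
    rw [integral_div, integral_const_mul, integral_sub ((i2.div_const _).const_mul _)
      (i4.div_const _), integral_const_mul, integral_div, integral_div, h2, h4]
    field_simp
    ring
  rw [← hint]
  refine integral_mono ?_ i1 hpt
  exact ((((i2.div_const _).const_mul _).sub (i4.div_const _)).const_mul _).div_const _

end general

section field

variable {𝕜 : Type} [RCLike 𝕜] [MeasurableSpace 𝕜] [BorelSpace 𝕜]

lemma map_coordL {ι : Type} [Fintype ι] {w : EuclideanSpace 𝕜 ι} (hw : ‖w‖ = 1) :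
    (stdGaussian (EuclideanSpace 𝕜 ι)).map (coordL w) = stdGaussian 𝕜 := by
  apply Measure.ext_of_charFunDual
  ext L
  rw [charFunDual_map, charFunDual_stdGaussian, charFunDual_stdGaussian]
  set a : 𝕜 := (InnerProductSpace.toDual ℝ 𝕜).symm L with ha
  have hL : ∀ z : 𝕜, L z = inner ℝ a z := by
    intro z
    rw [ha, InnerProductSpace.toDual_symm_apply]
  have n1 : ‖L‖ = ‖a‖ := by rw [ha, LinearIsometryEquiv.norm_map]
  have n2 : ‖L ∘L (coordL w)‖ = ‖a‖ := by
    have : L ∘L (coordL w) = innerSL ℝ ((starRingEnd 𝕜 a) • w) := by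
      ext x
      rw [innerSL_apply_apply, real_inner_comm, inner_real_euclidean, inner_smul_right]
      change L (coordL w x) = _
      rw [hL, inner_real_field, coordL_apply, RCLike.inner_apply']
    rw [this, innerSL_apply_norm, norm_smul, hw, mul_one, RCLike.norm_conj]
  rw [n1, n2]

lemma integral_inner_unit {ι : Type} [Fintype ι] {w : EuclideanSpace 𝕜 ι} (hw : ‖w‖ = 1) :
    ∫ x, ‖(inner 𝕜 w x : 𝕜)‖ ∂(stdGaussian (EuclideanSpace 𝕜 ι)) =
      ∫ z : 𝕜, ‖z‖ ∂(stdGaussian 𝕜) := by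
  rw [← map_coordL hw, integral_map (coordL w).continuous.aemeasurable (by fun_prop)]
  congr 1
  ext x
  rw [coordL_apply, norm_inner_symm]

/-- The lower bound: every constant `L` with `(M²/2)(L+1) < dim_ℝ 𝕜`, `M = E|g|`, fails. -/
lemma exists_violation {M : ℝ} (hM : ∫ z : 𝕜, ‖z‖ ∂(stdGaussian 𝕜) = M) {L : ℝ} (hL : 0 ≤ L)
    (h : M ^ 2 / 2 * (L + 1) < Module.finrank ℝ 𝕜) :
    ∃ (k : ℕ) (S B : Matrix (Fin k) (Fin k) 𝕜), IsCorrelation S ∧
      L * rankOneMax B < ‖(B.conjTranspose * S).trace‖ := by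
  set d : ℝ := (Module.finrank ℝ 𝕜 : ℝ) with hd
  have hd1 : (1 : ℝ) ≤ d := by
    have : 0 < Module.finrank ℝ 𝕜 := Module.finrank_pos
    rw [hd]
    exact_mod_cast this
  set Q := M ^ 2 / 2 * (L + 1) with hQ
  have hQ0 : 0 ≤ Q := by positivity
  obtain ⟨N, hN⟩ := exists_nat_gt (2 / (d - Q))
  have hdQ : 0 < d - Q := by linarith
  have hNpos' : (0 : ℝ) < N := lt_trans (by positivity) hN
  have hNpos : 0 < N := by exact_mod_cast hNpos'
  have hfr : Module.finrank ℝ (EuclideanSpace 𝕜 (Fin N)) = N * Module.finrank ℝ 𝕜 := by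
    rw [← Module.finrank_mul_finrank ℝ 𝕜 (EuclideanSpace 𝕜 (Fin N)), finrank_euclideanSpace,
      Fintype.card_fin, mul_comm]
  have hfr' : ((Module.finrank ℝ (EuclideanSpace 𝕜 (Fin N)) : ℕ) : ℝ) = N * d := by
    rw [hfr]
    push_cast
    rfl
  have hlow := integral_norm_lower (E := EuclideanSpace 𝕜 (Fin N)) (by
    rw [hfr]
    exact Nat.mul_pos hNpos Module.finrank_pos)
  rw [hfr'] at hlow
  set m1 := ∫ x, ‖x‖ ∂(stdGaussian (EuclideanSpace 𝕜 (Fin N))) with hm1
  have hNd : 1 ≤ N * d := by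
    have : (1 : ℝ) ≤ N := by exact_mod_cast hNpos
    nlinarith
  have hNd0 : 0 < N * d := by linarith
  have hfac : 0 ≤ 1 - 1 / (N * d) := by
    rw [sub_nonneg, div_le_one hNd0]
    exact hNd
  have hm1sq : Q < m1 ^ 2 / N := by
    have h1 : (Real.sqrt (N * d) * (1 - 1 / (N * d))) ^ 2 ≤ m1 ^ 2 :=
      pow_le_pow_left₀ (mul_nonneg (Real.sqrt_nonneg _) hfac) hlow 2
    rw [mul_pow, Real.sq_sqrt hNd0.le] at h1
    rw [lt_div_iff₀ hNpos']
    have h2 : 2 < (d - Q) * N := by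
      rw [div_lt_iff₀ hdQ] at hN
      linarith
    have h3 : N * d * (1 - 1 / (N * d)) ^ 2 = N * d - 2 + 1 / (N * d) := by
      field_simp
      ring
    have h4 : 0 < 1 / (N * d) := by positivity
    nlinarith
  have hm1pos : 0 < m1 := by
    have hm1nn : 0 ≤ m1 := integral_nonneg fun x => norm_nonneg x
    rcases hm1nn.eq_or_lt with h0 | h0
    · rw [← h0] at hm1sq
      simp at hm1sq
      linarith
    · exact h0
  -- choose ε
  have hsqQ : Real.sqrt (Q * N) < m1 := by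
    rw [Real.sqrt_lt' hm1pos]
    rwa [lt_div_iff₀ hNpos'] at hm1sq
  set ε := (m1 - Real.sqrt (Q * N)) / 2 with hε
  have hεpos : 0 < ε := by
    rw [hε]
    linarith
  have hid : Integrable (fun x : EuclideanSpace 𝕜 (Fin N) => x)
      (stdGaussian (EuclideanSpace 𝕜 (Fin N))) := IsGaussian.integrable_id
  have hM0 : 0 ≤ M := by
    rw [← hM]
    exact integral_nonneg fun x => norm_nonneg x
  obtain ⟨k, hk, v, hv1, hv2⟩ := vectors_of_measure (stdGaussian (EuclideanSpace 𝕜 (Fin N))) hid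
    hM0 (fun w hw => by rw [integral_inner_unit hw, hM]) hεpos
  obtain ⟨S, B, hS, hB, hSB⟩ := matrix_of_vectors hNpos hk v hv1
  refine ⟨k, S, B, hS, ?_⟩
  have h5 : Real.sqrt (Q * N) < ∑ i, ‖v i‖ := by
    refine lt_of_lt_of_le ?_ hv2
    rw [hε]
    linarith
  have h6 : Q < (∑ i, ‖v i‖) ^ 2 / N := by
    rw [lt_div_iff₀ hNpos']
    have := pow_lt_pow_left₀ h5 (Real.sqrt_nonneg _) (n := 2) (by norm_num)
    rwa [Real.sq_sqrt (mul_nonneg hQ0 hNpos'.le)] at this
  calc L * rankOneMax B ≤ L * (M ^ 2 / 2) := mul_le_mul_of_nonneg_left hB hL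
    _ = Q - M ^ 2 / 2 := by rw [hQ]; ring
    _ < (∑ i, ‖v i‖) ^ 2 / N - M ^ 2 / 2 := by linarith
    _ ≤ _ := hSB

end field

end Pool.Agent.helper31.Groth
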