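import Pool.Agent.helper23.HB.Stmts

/-!
# Hyperbolic branching Brownian motion, module ACON: anti-concentration of the wrapped Gaussian

The density of `N(0, v)` is bounded by averages of the density of `N(0, 2v)` over intervals of
length `2 δ`, `δ = √(min 1 v)`, and the energy function `‖cis y - 1‖^{-s}` has integral
`≤ C δ^{1-s}` over any such interval.
-/

open MeasureTheory ProbabilityTheory Set Filter Topology
open scoped ENNReal NNReal

namespace Pool.Agent.helper31.HB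

open Pool.Agent.helper23.HB

/-- integral of `|u|^{-s}` around the singularity -/
private theorem lint_pow {s ℓ : ℝ} (hs1 : s < 1) (hℓ : 0 < ℓ) :
    ∫⁻ u in Icc (-ℓ) ℓ, ENNReal.ofReal |u| ^ (-s) ≤
      2 * ENNReal.ofReal (ℓ ^ (1 - s) / (1 - s)) := by
  have hb : ∫⁻ u in Icc 0 ℓ, ENNReal.ofReal |u| ^ (-s) = ENNReal.ofReal (ℓ ^ (1 - s) / (1 - s)) := by
    rw [setLIntegral_congr (Ioc_ae_eq_Icc (a := (0 : ℝ)) (b := ℓ)).symm]
    have h1 : ∫⁻ u in Ioc 0 ℓ, ENNReal.ofReal |u| ^ (-s)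
        = ∫⁻ u in Ioc 0 ℓ, ENNReal.ofReal (u ^ (-s)) := by
      refine setLIntegral_congr_fun measurableSet_Ioc fun u hu => ?_
      rw [abs_of_pos hu.1, ENNReal.ofReal_rpow_of_pos hu.1]
    have h2 : IntegrableOn (fun u : ℝ => u ^ (-s)) (Ioc 0 ℓ) := by
      have := (intervalIntegral.intervalIntegrable_rpow' (a := 0) (b := ℓ) (r := -s)
        (by linarith)).1
      exact this
    rw [h1, ← ofReal_integral_eq_lintegral_ofReal h2
      ((ae_restrict_mem measurableSet_Ioc).mono fun u hu => Real.rpow_nonneg hu.1.le _),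
      ← intervalIntegral.integral_of_le hℓ.le, integral_rpow (Or.inl (by linarith)),
      Real.zero_rpow (by linarith), sub_zero, show -s + 1 = 1 - s by ring]
  have ha : ∫⁻ u in Icc (-ℓ) 0, ENNReal.ofReal |u| ^ (-s)
      = ∫⁻ u in Icc 0 ℓ, ENNReal.ofReal |u| ^ (-s) := by
    rw [← lintegral_indicator measurableSet_Icc, ← lintegral_indicator measurableSet_Icc,
      ← lintegral_neg_eq_self]
    refine lintegral_congr fun u => ?_
    by_cases hu : u ∈ Icc (0 : ℝ) ℓ
    · rw [indicator_of_mem hu, indicator_of_mem (by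
        constructor
        · linarith [hu.2]
        · linarith [hu.1]), abs_neg]
    · rw [indicator_of_notMem hu, indicator_of_notMem (by
        intro h
        exact hu ⟨by linarith [h.2], by linarith [h.1]⟩)]
  calc ∫⁻ u in Icc (-ℓ) ℓ, ENNReal.ofReal |u| ^ (-s)
      ≤ ∫⁻ u in Icc (-ℓ) 0 ∪ Icc 0 ℓ, ENNReal.ofReal |u| ^ (-s) := by
        refine lintegral_mono_set fun u hu => ?_
        rcases le_total u 0 with h | h
        · exact Or.inl ⟨hu.1, h⟩
        · exact Or.inr ⟨h, hu.2⟩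
    _ ≤ _ := lintegral_union_le _ _ _
    _ = 2 * ENNReal.ofReal (ℓ ^ (1 - s) / (1 - s)) := by
        rw [ha, hb, two_mul]

private theorem cis_add (x y : ℝ) : cis (x + y) = cis x * cis y := by
  unfold cis
  rw [← Complex.exp_add]
  congr 1
  push_cast
  ring

private theorem norm_cis (x : ℝ) : ‖cis x‖ = 1 := Complex.norm_exp_ofReal_mul_I x

/-- chords -/
private theorem chord {x y : ℝ} (h : |x - y| ≤ Real.pi) :
    2 / Real.pi * |x - y| ≤ ‖cis x - cis y‖ := by
  have e : cis x - cis y = cis y * (cis (x - y) - 1) := by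
    rw [mul_sub, ← cis_add, mul_one]
    congr 2
    ring
  have h1 : ‖cis (x - y) - 1‖ = ‖2 * Real.sin ((x - y) / 2)‖ := by
    rw [← Complex.norm_exp_I_mul_ofReal_sub_one]
    unfold cis
    rw [mul_comm]
  rw [e, norm_mul, norm_cis, one_mul, h1, norm_mul, Real.norm_eq_abs, Real.norm_eq_abs,
    abs_two]
  have h2 : |(x - y) / 2| = |x - y| / 2 := by rw [abs_div, abs_two]
  have h3 := Real.mul_abs_le_abs_sin (x := (x - y) / 2) (by rw [h2]; linarith)
  rw [h2] at h3
  linarith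

/-- integral of the energy function over short intervals -/
private theorem lint_cis {s : ℝ} (hs0 : 0 < s) (hs1 : s < 1) (x a ℓ : ℝ) (hℓ : 0 < ℓ)
    (hℓ2 : ℓ ≤ 2) :
    ∫⁻ y in Icc a (a + ℓ), ‖cis (x + y) - 1‖ₑ ^ (-s) ≤
      ENNReal.ofReal Real.pi ^ s * (2 * ENNReal.ofReal (ℓ ^ (1 - s) / (1 - s))) := by
  have hpi := Real.pi_pos
  have hcont : Continuous fun y : ℝ => ‖cis (x + y) - 1‖ := by
    unfold cis
    fun_prop
  obtain ⟨y0, hy0, hmin⟩ := (isCompact_Icc (a := a) (b := a + ℓ)).exists_isMinOn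
    ⟨a, by constructor <;> linarith⟩ hcont.continuousOn
  have hlow : ∀ y ∈ Icc a (a + ℓ), ENNReal.ofReal (|y - y0| / Real.pi) ≤ ‖cis (x + y) - 1‖ₑ := by
    intro y hy
    rw [← ofReal_norm]
    refine ENNReal.ofReal_le_ofReal ?_
    have h1 : ‖cis (x + y0) - 1‖ ≤ ‖cis (x + y) - 1‖ := hmin hy
    have h2 : |x + y - (x + y0)| ≤ Real.pi := by
      rw [show x + y - (x + y0) = y - y0 by ring, abs_le]
      have := Real.two_le_pi
      constructor <;> linarith [hy.1, hy.2, hy0.1, hy0.2]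
    have h3 := chord h2
    rw [show x + y - (x + y0) = y - y0 by ring] at h3
    have h4 : ‖cis (x + y) - cis (x + y0)‖ ≤ ‖cis (x + y) - 1‖ + ‖cis (x + y0) - 1‖ := by
      have e : cis (x + y) - cis (x + y0) = (cis (x + y) - 1) - (cis (x + y0) - 1) := by ring
      rw [e]
      exact norm_sub_le _ _
    have h5 : 2 / Real.pi * |y - y0| = 2 * (|y - y0| / Real.pi) := by ring
    linarith
  have hpis : ENNReal.ofReal Real.pi ^ s ≠ ∞ :=
    ENNReal.rpow_ne_top_of_nonneg hs0.le ENNReal.ofReal_ne_top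
  have hpis0 : ENNReal.ofReal Real.pi ^ s ≠ 0 := by
    rw [ENNReal.ofReal_rpow_of_pos hpi]
    exact (ENNReal.ofReal_pos.2 (Real.rpow_pos_of_pos hpi _)).ne'
  calc ∫⁻ y in Icc a (a + ℓ), ‖cis (x + y) - 1‖ₑ ^ (-s)
      ≤ ∫⁻ y in Icc a (a + ℓ), ENNReal.ofReal Real.pi ^ s * ENNReal.ofReal |y - y0| ^ (-s) := by
        refine setLIntegral_mono' measurableSet_Icc fun y hy => ?_
        have h1 := ENNReal.rpow_le_rpow (hlow y hy) hs0.le
        rw [div_eq_mul_inv, ENNReal.ofReal_mul (abs_nonneg _), ENNReal.mul_rpow_of_nonneg _ _ hs0.le,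
            ENNReal.ofReal_inv_of_pos hpi, ENNReal.inv_rpow] at h1
        rw [ENNReal.rpow_neg, ENNReal.rpow_neg]
        refine (ENNReal.inv_le_inv.2 h1).trans (le_of_eq ?_)
        rw [ENNReal.mul_inv (Or.inr (ENNReal.inv_ne_top.2 hpis0)) (Or.inr
          (ENNReal.inv_ne_zero.2 hpis)), inv_inv, mul_comm]
    _ = ENNReal.ofReal Real.pi ^ s * ∫⁻ y in Icc a (a + ℓ), ENNReal.ofReal |y - y0| ^ (-s) := by
        rw [lintegral_const_mul' _ _ hpis]
    _ ≤ ENNReal.ofReal Real.pi ^ s * ∫⁻ u in Icc (-ℓ) ℓ, ENNReal.ofReal |u| ^ (-s) := by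
        refine mul_le_mul_right ?_ _
        rw [← lintegral_indicator measurableSet_Icc, ← lintegral_indicator measurableSet_Icc,
          ← lintegral_sub_right_eq_self ((Icc (-ℓ) ℓ).indicator _) y0]
        refine lintegral_mono fun y => ?_
        by_cases hy : y ∈ Icc a (a + ℓ)
        · rw [indicator_of_mem hy, indicator_of_mem]
          constructor <;> linarith [hy.1, hy.2, hy0.1, hy0.2]
        · rw [indicator_of_notMem hy]
          exact zero_le
    _ ≤ _ := mul_le_mul_right (lint_pow hs1 hℓ) _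

/-- comparison of Gaussian densities at points of distance `≤ √v` -/
private theorem gauss_le {v : ℝ≥0} (hv : v ≠ 0) {δ y t : ℝ} (hδ : δ ^ 2 ≤ v)
    (h : |t - y| ≤ δ) :
    gaussianPDF 0 v y ≤ ENNReal.ofReal (√2 * Real.exp (1 / 2)) * gaussianPDF 0 (2 * v) t := by
  have hv0 : (0 : ℝ) < v := lt_of_le_of_ne v.2 (fun h => hv (NNReal.coe_eq_zero.1 h.symm))
  unfold gaussianPDF
  rw [← ENNReal.ofReal_mul (by positivity)]
  refine ENNReal.ofReal_le_ofReal ?_
  unfold gaussianPDFReal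
  rw [NNReal.coe_mul, NNReal.coe_ofNat, sub_zero, sub_zero]
  have h1 : √(2 * Real.pi * (2 * (v : ℝ))) = √2 * √(2 * Real.pi * v) := by
    rw [← Real.sqrt_mul (by norm_num)]
    congr 1
    ring
  rw [h1, mul_inv]
  have h2 : Real.exp (-y ^ 2 / (2 * v)) ≤ Real.exp (1 / 2) * Real.exp (-t ^ 2 / (2 * (2 * v))) := by
    rw [← Real.exp_add]
    apply Real.exp_le_exp.2
    have h3 : t ^ 2 ≤ 2 * y ^ 2 + 2 * v := by
      have h4 : (t - y) ^ 2 ≤ δ ^ 2 := sq_le_sq' (by linarith [neg_abs_le (t - y)])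
        ((le_abs_self _).trans h)
      nlinarith [sq_nonneg (t - 2 * y)]
    have h5 : -t ^ 2 / (2 * (2 * (v : ℝ))) = -(t ^ 2 / 4 / v) := by field_simp; ring
    have h6 : -y ^ 2 / (2 * (v : ℝ)) = -(y ^ 2 / 2 / v) := by field_simp
    rw [h5, h6]
    have h7 : t ^ 2 / 4 / v ≤ 1 / 2 + y ^ 2 / 2 / v := by
      rw [div_le_iff₀ hv0, add_mul, div_mul_cancel₀ _ hv0.ne']
      linarith
    linarith
  have h8 : √2 * Real.exp (1 / 2) * ((√2)⁻¹ * (√(2 * Real.pi * v))⁻¹
      * Real.exp (-t ^ 2 / (2 * (2 * v))))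
      = (√(2 * Real.pi * v))⁻¹ * (Real.exp (1 / 2) * Real.exp (-t ^ 2 / (2 * (2 * v)))) := by
    have : √2 ≠ 0 := by positivity
    field_simp
  rw [h8]
  exact mul_le_mul_of_nonneg_left h2 (by positivity)

private theorem gauss_int {v : ℝ≥0} (hv : v ≠ 0) {δ : ℝ} (hδ : δ ^ 2 ≤ v)
    {g : ℝ → ℝ≥0∞} (hg : Measurable g) {B : ℝ≥0∞}
    (hB : ∀ t, ∫⁻ y in Icc (t - δ) (t + δ), g y ≤ B) :
    ENNReal.ofReal (2 * δ) * ∫⁻ y, g y ∂(gaussianReal 0 v) ≤
      ENNReal.ofReal (√2 * Real.exp (1 / 2)) * B := by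
  set κ := ENNReal.ofReal (√2 * Real.exp (1 / 2)) with hκ
  have hp := measurable_gaussianPDF 0 v
  have hp2 := measurable_gaussianPDF 0 (2 * v)
  have hv2 : 2 * v ≠ 0 := mul_ne_zero two_ne_zero hv
  rw [gaussianReal_of_var_ne_zero _ hv, lintegral_withDensity_eq_lintegral_mul _ hp hg,
    ← lintegral_const_mul' _ _ ENNReal.ofReal_ne_top]
  have hS : MeasurableSet {z : ℝ × ℝ | |z.2 - z.1| ≤ δ} :=
    (isClosed_le (by fun_prop) continuous_const).measurableSet
  have hmem : ∀ y t : ℝ, t ∈ Icc (y - δ) (y + δ) ↔ |t - y| ≤ δ := by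
    intro y t
    rw [abs_le, mem_Icc]
    constructor
    · rintro ⟨h1, h2⟩; constructor <;> linarith
    · rintro ⟨h1, h2⟩; constructor <;> linarith
  calc ∫⁻ y, ENNReal.ofReal (2 * δ) * (gaussianPDF 0 v * g) y
      ≤ ∫⁻ y, ∫⁻ t, {z : ℝ × ℝ | |z.2 - z.1| ≤ δ}.indicator
          (fun z => κ * gaussianPDF 0 (2 * v) z.2 * g z.1) (y, t) := by
        refine lintegral_mono fun y => ?_
        have e1 : ∫⁻ t, {z : ℝ × ℝ | |z.2 - z.1| ≤ δ}.indicator
            (fun z => κ * gaussianPDF 0 (2 * v) z.2 * g z.1) (y, t)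
            = ∫⁻ t in Icc (y - δ) (y + δ), κ * gaussianPDF 0 (2 * v) t * g y := by
          rw [← lintegral_indicator measurableSet_Icc]
          refine lintegral_congr fun t => ?_
          by_cases ht : |t - y| ≤ δ
          · rw [indicator_of_mem ((hmem y t).2 ht), indicator_of_mem (by exact ht)]
          · rw [indicator_of_notMem (fun h => ht ((hmem y t).1 h)),
              indicator_of_notMem (by exact ht)]
        rw [e1]
        have e2 : ENNReal.ofReal (2 * δ) * (gaussianPDF 0 v * g) y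
            = ∫⁻ _ in Icc (y - δ) (y + δ), (gaussianPDF 0 v * g) y := by
          rw [setLIntegral_const, Real.volume_Icc, mul_comm]
          congr 2
          ring
        rw [e2]
        refine setLIntegral_mono' measurableSet_Icc fun t ht => ?_
        exact mul_le_mul_left (gauss_le hv hδ ((hmem y t).1 ht)) _
    _ = ∫⁻ t, ∫⁻ y, {z : ℝ × ℝ | |z.2 - z.1| ≤ δ}.indicator
          (fun z => κ * gaussianPDF 0 (2 * v) z.2 * g z.1) (y, t) := by
        refine lintegral_lintegral_swap (f := fun y t => {z : ℝ × ℝ | |z.2 - z.1| ≤ δ}.indicator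
          (fun z => κ * gaussianPDF 0 (2 * v) z.2 * g z.1) (y, t)) ?_
        exact (Measurable.indicator (by fun_prop) hS).aemeasurable
    _ = ∫⁻ t, κ * gaussianPDF 0 (2 * v) t * ∫⁻ y in Icc (t - δ) (t + δ), g y := by
        refine lintegral_congr fun t => ?_
        rw [← lintegral_const_mul _ hg, ← lintegral_indicator measurableSet_Icc]
        refine lintegral_congr fun y => ?_
        by_cases ht : |t - y| ≤ δ
        · rw [indicator_of_mem (by exact ht), indicator_of_mem ((hmem t y).2 (by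
            rwa [abs_sub_comm]))]
        · rw [indicator_of_notMem (by exact ht), indicator_of_notMem (fun h => ht (by
            rw [abs_sub_comm]
            exact (hmem t y).1 h))]
    _ ≤ ∫⁻ t, κ * gaussianPDF 0 (2 * v) t * B :=
        lintegral_mono fun t => mul_le_mul_right (hB t) _
    _ = κ * B := by
        rw [lintegral_mul_const _ (by fun_prop), lintegral_const_mul _ hp2,
          lintegral_gaussianPDF_eq_one 0 hv2, mul_one]

theorem mACON : St_ACON := by
  intro s hs0 hs1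
  have hpi := Real.pi_pos
  refine ⟨ENNReal.ofReal (√2 * Real.exp (1 / 2)) * (ENNReal.ofReal Real.pi ^ s
    * (2 * ENNReal.ofReal (1 / (1 - s)))), ?_, ?_⟩
  · exact ENNReal.mul_ne_top ENNReal.ofReal_ne_top (ENNReal.mul_ne_top
      (ENNReal.rpow_ne_top_of_nonneg hs0.le ENNReal.ofReal_ne_top)
      (ENNReal.mul_ne_top ENNReal.ofNat_ne_top ENNReal.ofReal_ne_top))
  intro x v hv
  have hv0 : (0 : ℝ) < v := lt_of_le_of_ne v.2 (fun h => hv (NNReal.coe_eq_zero.1 h.symm))
  have hm : 0 < min 1 (v : ℝ) := lt_min one_pos hv0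
  obtain ⟨δ, hδ⟩ : ∃ δ, δ = √(min 1 (v : ℝ)) := ⟨_, rfl⟩
  have hδ0 : 0 < δ := hδ ▸ Real.sqrt_pos.2 hm
  have hδ2 : δ ^ 2 = min 1 (v : ℝ) := by rw [hδ, Real.sq_sqrt hm.le]
  have hδ1 : δ ≤ 1 := by
    rw [hδ]
    exact Real.sqrt_le_one.2 (min_le_left _ _)
  have hg : Measurable fun y : ℝ => ‖cis (x + y) - 1‖ₑ ^ (-s) := by
    have : Continuous fun y : ℝ => cis (x + y) - 1 := by
      unfold cis
      fun_prop
    exact this.measurable.enorm.pow_const _
  have h1 := gauss_int hv (hδ2.le.trans (min_le_right _ _)) hg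
    (B := ENNReal.ofReal Real.pi ^ s * (2 * ENNReal.ofReal ((2 * δ) ^ (1 - s) / (1 - s))))
    (fun t => by
      have := lint_cis hs0 hs1 x (t - δ) (2 * δ) (by linarith) (by linarith)
      rwa [show t - δ + 2 * δ = t + δ by ring] at this)
  have h2δ : 0 < 2 * δ := by linarith
  have h2δ' : ENNReal.ofReal (2 * δ) ≠ 0 := (ENNReal.ofReal_pos.2 h2δ).ne'
  have h1s : 0 < 1 - s := by linarith
  have e1 : ENNReal.ofReal ((2 * δ) ^ (1 - s) / (1 - s))
      = ENNReal.ofReal (2 * δ) * (ENNReal.ofReal (1 / (1 - s)) * ENNReal.ofReal ((2 * δ) ^ (-s))) := by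
    rw [← ENNReal.ofReal_mul (by positivity), ← ENNReal.ofReal_mul (by positivity)]
    congr 1
    rw [sub_eq_add_neg 1 s, Real.rpow_add h2δ, Real.rpow_one]
    ring
  rw [e1] at h1
  have e2 : ENNReal.ofReal (√2 * Real.exp (1 / 2)) * (ENNReal.ofReal Real.pi ^ s
      * (2 * (ENNReal.ofReal (2 * δ) * (ENNReal.ofReal (1 / (1 - s))
        * ENNReal.ofReal ((2 * δ) ^ (-s))))))
      = ENNReal.ofReal (2 * δ) * (ENNReal.ofReal (√2 * Real.exp (1 / 2))
        * (ENNReal.ofReal Real.pi ^ s * (2 * ENNReal.ofReal (1 / (1 - s))))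
        * ENNReal.ofReal ((2 * δ) ^ (-s))) := by ring
  rw [e2] at h1
  have h3 := (ENNReal.mul_le_mul_iff_right h2δ' ENNReal.ofReal_ne_top).1 h1
  refine h3.trans (mul_le_mul_right ?_ _)
  rw [ENNReal.ofReal_rpow_of_pos hm]
  refine ENNReal.ofReal_le_ofReal ?_
  have e3 : min 1 (v : ℝ) ^ (-(s / 2)) = δ ^ (-s) := by
    rw [← hδ2, ← Real.rpow_natCast, ← Real.rpow_mul hδ0.le]
    congr 1
    push_cast
    ring
  rw [e3]
  exact Real.rpow_le_rpow_of_nonpos hδ0 (by linarith) (by linarith)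

end Pool.Agent.helper31.HB
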