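import Pool.Agent.helper31.ZFNat

/-!
# Finite sets in a model of ZF
-/

namespace Pool.Agent.helper31.ZF

universe u

variable {M : Type u} [ZFModel M]

/-- Kuratowski finite sets. -/
def Kfin (s : M) : Prop :=
  ∀ A : M, emp ∈ A → (∀ t : M, t ∈ A → ∀ x, x ∈ s → ins x t ∈ A) → s ∈ A

instance instDpKfin {n : ℕ} {F : (Fin n → M) → M} [Fp F] :
    Dp (fun v => Kfin (F v)) := Dp.subst1 (by unfold Kfin; infer_instance) F

theorem ins_self {x t : M} (h : x ∈ t) : ins x t = t :=
  ext fun z => by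
    rw [mem_ins]
    exact ⟨fun h' => h'.elim (fun e => e ▸ h) id, Or.inr⟩

theorem ins_df {x t : M} (h : x ∈ t) : ins x (df t (sg x)) = t :=
  ext fun z => by
    rw [mem_ins, mem_df, mem_sg]
    constructor
    · rintro (rfl | h') <;> tauto
    · tauto

theorem ins_comm {x y t : M} : ins x (ins y t) = ins y (ins x t) :=
  ext fun z => by
    simp only [mem_ins]
    tauto

theorem kfin_emp : Kfin (emp : M) := fun _ h _ => h

theorem kfin_ins {s : M} (hs : Kfin s) (x : M) : Kfin (ins x s) := fun A h0 h =>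
  h s (hs A h0 fun t ht y hy => h t ht y (mem_ins.2 (Or.inr hy))) x (mem_ins.2 (Or.inl rfl))

theorem fin_ind {P : M → Prop} [D1 P] (h0 : P emp)
    (hi : ∀ t, Kfin t → P t → ∀ x, x ∉ t → P (ins x t)) {s : M} (hs : Kfin s) : P s := by
  have key := hs (sep (pw s) fun t => Kfin t ∧ P t)
    (mem_sep.2 ⟨mem_pw.2 (emp_sub s), kfin_emp, h0⟩) (by
      intro t ht x hx
      rw [mem_sep, mem_pw] at ht
      refine mem_sep.2 ⟨mem_pw.2 ?_, kfin_ins ht.2.1 x, ?_⟩
      · intro z hz
        rcases mem_ins.1 hz with rfl | hz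
        · exact hx
        · exact ht.1 z hz
      · by_cases hxt : x ∈ t
        · rw [ins_self hxt]
          exact ht.2.2
        · exact hi t ht.2.1 ht.2.2 x hxt)
  exact (mem_sep.1 key).2.2

theorem kfin_sub {s t : M} (hs : Kfin s) (h : t ⊆ s) : Kfin t := by
  have : ∀ t, t ⊆ s → Kfin t := by
    refine fin_ind (P := fun s => ∀ t, t ⊆ s → Kfin t) ?_ ?_ hs
    · intro t ht
      have : t = emp := Sub.antisymm ht (emp_sub t)
      rw [this]
      exact kfin_emp
    · intro s _ ih x _ t ht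
      by_cases hx : x ∈ t
      · rw [← ins_df hx]
        refine kfin_ins (ih _ ?_) x
        intro z hz
        rw [mem_df, mem_sg] at hz
        rcases mem_ins.1 (ht z hz.1) with h | h
        · exact absurd h hz.2
        · exact h
      · apply ih
        intro z hz
        rcases mem_ins.1 (ht z hz) with h | h
        · subst h
          exact absurd hz hx
        · exact h
  exact this t h

theorem kfin_sg (x : M) : Kfin (sg x) := by
  have : sg x = ins x emp := ext fun z => by simp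
  rw [this]
  exact kfin_ins kfin_emp x

theorem kfin_un {s t : M} (hs : Kfin s) (ht : Kfin t) : Kfin (un s t) := by
  refine fin_ind (P := fun s => Kfin (un s t)) ?_ ?_ hs
  · have : un emp t = t := ext fun z => by simp
    rw [this]
    exact ht
  · intro s _ ih x _
    have : un (ins x s) t = ins x (un s t) := ext fun z => by simp; tauto
    rw [this]
    exact kfin_ins ih x

theorem img_ins {F : M → M} [hF : F1 F] {x s : M} : img (ins x s) F = ins (F x) (img s F) := by
  apply ext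
  intro z
  rw [mem_ins, mem_img, mem_img]
  constructor
  · rintro ⟨y, hy, rfl⟩
    rcases mem_ins.1 hy with rfl | hy
    · exact Or.inl rfl
    · exact Or.inr ⟨y, hy, rfl⟩
  · rintro (rfl | ⟨y, hy, rfl⟩)
    · exact ⟨x, by simp, rfl⟩
    · exact ⟨y, mem_ins.2 (Or.inr hy), rfl⟩

theorem img_emp {F : M → M} [hF : F1 F] : img emp F = emp := by
  apply ext
  intro z
  rw [mem_img]
  simp

theorem kfin_img {F : M → M} [hF : F1 F] {s : M} (hs : Kfin s) : Kfin (img s F) := by
  have iF : ∀ {n : ℕ} (H : (Fin n → M) → M) [Fp H], Fp (fun v => F (H v)) :=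
    fun H => Fp.op1 hF H
  refine fin_ind (P := fun s => Kfin (img s F)) ?_ ?_ hs
  · rw [img_emp]
    exact kfin_emp
  · intro s _ ih x _
    rw [img_ins]
    exact kfin_ins ih _

theorem kfin_pw {s : M} (hs : Kfin s) : Kfin (pw s) := by
  refine fin_ind (P := fun s => Kfin (pw s)) ?_ ?_ hs
  · have : pw (emp : M) = sg emp := ext fun z => by
      rw [mem_pw, mem_sg]
      exact ⟨fun h => Sub.antisymm h (emp_sub z), fun h => h ▸ Sub.refl _⟩
    rw [this]
    exact kfin_sg _
  · intro s _ ih x hx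
    have : pw (ins x s) = un (pw s) (img (pw s) (fun t => ins x t)) := by
      apply ext
      intro z
      rw [mem_un, mem_img, mem_pw, mem_pw]
      constructor
      · intro hz
        by_cases hxz : x ∈ z
        · right
          refine ⟨df z (sg x), ?_, (ins_df hxz).symm⟩
          rw [mem_pw]
          intro y hy
          rw [mem_df, mem_sg] at hy
          rcases mem_ins.1 (hz y hy.1) with h | h
          · exact absurd h hy.2
          · exact h
        · left
          intro y hy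
          rcases mem_ins.1 (hz y hy) with h | h
          · subst h
            exact absurd hy hxz
          · exact h
      · rintro (h | ⟨t, ht, rfl⟩)
        · intro y hy
          exact mem_ins.2 (Or.inr (h y hy))
        · rw [mem_pw] at ht
          intro y hy
          rcases mem_ins.1 hy with rfl | hy
          · simp
          · exact mem_ins.2 (Or.inr (ht y hy))
    rw [this]
    exact kfin_un ih (kfin_img ih)

theorem kfin_prod {s t : M} (hs : Kfin s) (ht : Kfin t) : Kfin (prod s t) := by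
  refine kfin_sub (kfin_pw (kfin_pw (kfin_un hs ht))) ?_
  intro z hz
  obtain ⟨a, ha, b, hb, rfl⟩ := mem_prod.1 hz
  rw [mem_pw]
  intro y hy
  rw [mem_pw]
  intro x hx
  rw [op_eq] at hy
  rcases mem_pr.1 hy with rfl | rfl
  · rw [mem_sg] at hx
    subst hx
    exact mem_un.2 (Or.inl ha)
  · rcases mem_pr.1 hx with rfl | rfl
    · exact mem_un.2 (Or.inl ha)
    · exact mem_un.2 (Or.inr hb)

/-- Finite collection of witnesses. -/
theorem fin_coll {Q : M → M → Prop} [hQ : D2 Q] {s : M} (hs : Kfin s) :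
    ∃ R : M, Kfin R ∧ ∀ x, x ∈ s → (∃ r, Q x r) → ∃ r, r ∈ R ∧ Q x r := by
  have iQ : ∀ {n : ℕ} (F H : (Fin n → M) → M) [Fp F] [Fp H], Dp (fun v => Q (F v) (H v)) :=
    fun F H => Dp.subst2 hQ F H
  refine fin_ind (P := fun s => ∃ R : M, Kfin R ∧ ∀ x, x ∈ s → (∃ r, Q x r) →
    ∃ r, r ∈ R ∧ Q x r) ?_ ?_ hs
  · exact ⟨emp, kfin_emp, fun x hx => absurd hx (not_mem_emp x)⟩
  · rintro s _ ⟨R, hR, ih⟩ x _
    by_cases h : ∃ r, Q x r
    · obtain ⟨r, hr⟩ := h
      refine ⟨ins r R, kfin_ins hR r, fun y hy hy' => ?_⟩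
      rcases mem_ins.1 hy with rfl | hy
      · exact ⟨r, by simp, hr⟩
      · obtain ⟨r', h1, h2⟩ := ih y hy hy'
        exact ⟨r', mem_ins.2 (Or.inr h1), h2⟩
    · refine ⟨R, hR, fun y hy hy' => ?_⟩
      rcases mem_ins.1 hy with rfl | hy
      · exact absurd hy' h
      · exact ih y hy hy'

theorem kfin_nat : ∀ n, n ∈ (om : M) → Kfin n := by
  apply om_ind
  · exact kfin_emp
  · intro n _ ih
    rw [suc_eq]
    exact kfin_ins ih n

theorem om_max {n m : M} (hn : n ∈ (om : M)) (hm : m ∈ (om : M)) :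
    ∃ k, k ∈ (om : M) ∧ n ⊆ k ∧ m ⊆ k := by
  rcases om_tri hn hm with h | h | h
  · exact ⟨m, hm, fun z hz => om_trans' hm h hz, Sub.refl m⟩
  · exact ⟨m, hm, h ▸ Sub.refl n, Sub.refl m⟩
  · exact ⟨n, hn, Sub.refl n, fun z hz => om_trans' hn h hz⟩

theorem kfin_bdd {s : M} (hs : Kfin s) (h : s ⊆ om) : ∃ n, n ∈ (om : M) ∧ s ⊆ n := by
  have : s ⊆ om → ∃ n, n ∈ (om : M) ∧ s ⊆ n := by
    refine fin_ind (P := fun s => s ⊆ om → ∃ n, n ∈ (om : M) ∧ s ⊆ n) ?_ ?_ hs
    · intro _
      exact ⟨emp, emp_mem_om, Sub.refl _⟩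
    · intro s _ ih x _ hx
      obtain ⟨n, hn, hsn⟩ := ih (fun z hz => hx z (mem_ins.2 (Or.inr hz)))
      obtain ⟨k, hk, h1, h2⟩ := om_max hn (suc_mem_om (hx x (by simp)))
      refine ⟨k, hk, fun z hz => ?_⟩
      rcases mem_ins.1 hz with rfl | hz
      · exact h2 _ (by simp)
      · exact h1 z (hsn z hz)
  exact this h

/-! ### equinumerosity -/

/-- Equinumerous sets. -/
def Eqn (s t : M) : Prop := ∃ f, IsBij f s t

instance instDpEqn {n : ℕ} {F G : (Fin n → M) → M} [Fp F] [Fp G] :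
    Dp (fun v => Eqn (F v) (G v)) := Dp.subst2 (by unfold Eqn; infer_instance) F G

theorem eqn_img {F : M → M} [hF : F1 F] {s : M}
    (hinj : ∀ x, x ∈ s → ∀ y, y ∈ s → F x = F y → x = y) : Eqn s (img s F) := by
  refine ⟨lam s F, ⟨lam_fn fun x hx => mem_img.2 ⟨x, hx, rfl⟩, ?_⟩, ?_⟩
  · intro x hx y hy h
    rw [ap_lam hx, ap_lam hy] at h
    exact hinj x hx y hy h
  · intro y hy
    obtain ⟨x, hx, rfl⟩ := mem_img.1 hy
    exact ⟨x, hx, ap_lam hx⟩

theorem Eqn.refl (s : M) : Eqn s s := by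
  have : img s (fun x => x) = s := ext fun z => by
    rw [mem_img]
    simp
  have h := eqn_img (F := fun x : M => x) (s := s) (fun x _ y _ h => h)
  rwa [this] at h

theorem Eqn.trans {s t r : M} (h : Eqn s t) (h' : Eqn t r) : Eqn s r := by
  obtain ⟨f, hf⟩ := h
  obtain ⟨g, hg⟩ := h'
  refine ⟨lam s fun x => ap g (ap f x), ⟨lam_fn fun x hx => hg.1.1.2 _ (hf.1.1.2 x hx), ?_⟩, ?_⟩
  · intro x hx y hy h
    rw [ap_lam hx, ap_lam hy] at h
    exact hf.1.2 x hx y hy (hg.1.2 _ (hf.1.1.2 x hx) _ (hf.1.1.2 y hy) h)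
  · intro z hz
    obtain ⟨y, hy, rfl⟩ := hg.2 z hz
    obtain ⟨x, hx, rfl⟩ := hf.2 y hy
    exact ⟨x, hx, ap_lam hx⟩

theorem Eqn.symm {s t : M} (h : Eqn s t) : Eqn t s := by
  obtain ⟨f, hf⟩ := h
  have key : ∀ y, y ∈ t → ∀ x, x ∈ s → ap f x = y →
      (the fun x => x ∈ s ∧ ap f x = y) = x := by
    intro y _ x hx hxy
    apply the_eq
    · exact ⟨hx, hxy⟩
    · rintro z ⟨hz, hzy⟩
      exact hf.1.2 z hz x hx (hzy.trans hxy.symm)
  refine ⟨lam t fun y => the fun x => x ∈ s ∧ ap f x = y, ⟨lam_fn fun y hy => ?_, ?_⟩, ?_⟩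
  · obtain ⟨x, hx, hxy⟩ := hf.2 y hy
    rw [key y hy x hx hxy]
    exact hx
  · intro y hy y' hy' h
    rw [ap_lam hy, ap_lam hy'] at h
    obtain ⟨x, hx, hxy⟩ := hf.2 y hy
    obtain ⟨x', hx', hxy'⟩ := hf.2 y' hy'
    rw [key y hy x hx hxy, key y' hy' x' hx' hxy'] at h
    rw [← hxy, ← hxy', h]
  · intro x hx
    have hy := hf.1.1.2 x hx
    refine ⟨ap f x, hy, ?_⟩
    rw [ap_lam hy, key _ hy x hx rfl]

open Classical in
/-- The pigeonhole principle. -/
theorem pigeonhole {s : M} (hs : Kfin s) : ∀ x, x ∉ s → ∀ g, ¬ IsInj g (ins x s) s := by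
  refine fin_ind (P := fun s => ∀ x, x ∉ s → ∀ g, ¬ IsInj g (ins x s) s) ?_ ?_ hs
  · intro x _ g hg
    exact not_mem_emp _ (hg.1.2 x (by simp))
  · intro s _ ih a ha x hx g hg
    have hxa : x ≠ a := fun h => hx (by simp [h])
    have hxs : x ∉ s := fun h => hx (by simp [h])
    refine ih x hxs (lam (ins x s) fun y => if ap g y = a then ap g a else ap g y) ?_
    have hsub : ∀ y, y ∈ ins x s → y ∈ ins x (ins a s) ∧ y ≠ a := by
      intro y hy
      rcases mem_ins.1 hy with rfl | hy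
      · exact ⟨by simp, hxa⟩
      · refine ⟨by simp [hy], ?_⟩
        rintro rfl
        exact ha hy
    have haa : a ∈ ins x (ins a s) := by simp
    refine ⟨lam_fn ?_, ?_⟩
    · intro y hy
      obtain ⟨h1, h2⟩ := hsub y hy
      by_cases h : ap g y = a
      · rw [if_pos h]
        rcases mem_ins.1 (hg.1.2 a haa) with h3 | h3
        · exact absurd (hg.2 y h1 a haa (h.trans h3.symm)) h2
        · exact h3
      · rw [if_neg h]
        rcases mem_ins.1 (hg.1.2 y h1) with h3 | h3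
        · exact absurd h3 h
        · exact h3
    · intro y hy z hz h
      obtain ⟨h1, h2⟩ := hsub y hy
      obtain ⟨h3, h4⟩ := hsub z hz
      rw [ap_lam hy, ap_lam hz] at h
      by_cases h5 : ap g y = a
      · by_cases h6 : ap g z = a
        · exact hg.2 y h1 z h3 (h5.trans h6.symm)
        · rw [if_pos h5, if_neg h6] at h
          exact absurd (hg.2 a haa z h3 h).symm h4
      · by_cases h6 : ap g z = a
        · rw [if_neg h5, if_pos h6] at h
          exact absurd (hg.2 y h1 a haa h) h2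
        · rw [if_neg h5, if_neg h6] at h
          exact hg.2 y h1 z h3 h

/-- A subset of a finite set `F` is not equinumerous to `F ∪ {x}`, `x ∉ F`. -/
theorem not_eqn_of_sub {F s x : M} (hF : Kfin F) (hx : x ∉ F) (hs : s ⊆ F) :
    ¬ Eqn (ins x F) s := by
  rintro ⟨g, hg⟩
  exact pigeonhole hF x hx g ⟨⟨hg.1.1.1, fun y hy => hs _ (hg.1.1.2 y hy)⟩, hg.1.2⟩

/-! ### comparison with the usual definition -/

theorem kfin_of_eqn {s t : M} (h : Eqn s t) (hs : Kfin s) : Kfin t := by
  obtain ⟨f, hf⟩ := h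
  have : t = img s (fun x => ap f x) := by
    apply ext
    intro z
    rw [mem_img]
    constructor
    · intro hz
      obtain ⟨x, hx, h⟩ := hf.2 z hz
      exact ⟨x, hx, h.symm⟩
    · rintro ⟨x, hx, rfl⟩
      exact hf.1.1.2 x hx
  rw [this]
  exact kfin_img hs

open Classical in
theorem eqn_ins {s t x y : M} (h : Eqn s t) (hx : x ∉ s) (hy : y ∉ t) :
    Eqn (ins x s) (ins y t) := by
  obtain ⟨f, hf⟩ := h
  have e1 : ∀ z, z ∈ s → z ≠ x := fun z hz h => hx (h ▸ hz)
  refine ⟨lam (ins x s) fun z => if z = x then y else ap f z, ⟨lam_fn ?_, ?_⟩, ?_⟩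
  · intro z hz
    rcases mem_ins.1 hz with rfl | hz
    · rw [if_pos rfl]
      simp
    · rw [if_neg (e1 z hz)]
      exact mem_ins.2 (Or.inr (hf.1.1.2 z hz))
  · intro z hz w hw h
    rw [ap_lam hz, ap_lam hw] at h
    rcases mem_ins.1 hz with hzx | hz2
    · rcases mem_ins.1 hw with hwx | hw2
      · rw [hzx, hwx]
      · rw [if_pos hzx, if_neg (e1 w hw2)] at h
        exact absurd (h ▸ hf.1.1.2 w hw2) hy
    · rcases mem_ins.1 hw with hwx | hw2
      · rw [if_pos hwx, if_neg (e1 z hz2)] at h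
        exact absurd (h ▸ hf.1.1.2 z hz2) hy
      · rw [if_neg (e1 z hz2), if_neg (e1 w hw2)] at h
        exact hf.1.2 z hz2 w hw2 h
  · intro w hw
    rcases mem_ins.1 hw with rfl | hw
    · refine ⟨x, by simp, ?_⟩
      rw [ap_lam (by simp), if_pos rfl]
    · obtain ⟨z, hz, rfl⟩ := hf.2 w hw
      have hz' : z ∈ ins x s := mem_ins.2 (Or.inr hz)
      refine ⟨z, hz', ?_⟩
      rw [ap_lam hz', if_neg (e1 z hz)]

theorem isFinite_iff {s : M} : IsFinite s ↔ Kfin s := by
  constructor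
  · rintro ⟨n, hn, f, hf⟩
    exact kfin_of_eqn ⟨f, hf⟩ (kfin_nat n hn)
  · intro hs
    refine fin_ind (P := fun s => ∃ n, n ∈ (om : M) ∧ Eqn n s) ?_ ?_ hs
    · exact ⟨emp, emp_mem_om, Eqn.refl _⟩
    · rintro s _ ⟨n, hn, h⟩ x hx
      refine ⟨suc n, suc_mem_om hn, ?_⟩
      rw [suc_eq]
      exact eqn_ins h (not_mem_self n) hx

end Pool.Agent.helper31.ZF
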