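import Pool.Agent.helper31.CloneBP

/-!
# The monoid of binary members and its action on the compact space of types
-/

namespace Pool.Agent.helper31.Clones

open Topology Filter

universe u

section

variable {Ω : Type u}

/-- Swap a pair. -/
def sw (x : Fin 2 → Ω) : Fin 2 → Ω := ![x 1, x 0]

theorem sw_sw (x : Fin 2 → Ω) : sw (sw x) = x := by
  funext i
  fin_cases i <;> rfl

/-- `hat f (x,y) = (f (x,y), f (y,x))`. -/
def hat (f : (Fin 2 → Ω) → Ω) (x : Fin 2 → Ω) : Fin 2 → Ω := ![f x, f (sw x)]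

theorem sw_hat (f : (Fin 2 → Ω) → Ω) (x : Fin 2 → Ω) : sw (hat f x) = hat f (sw x) := by
  funext i
  fin_cases i
  · rfl
  · change f x = f (sw (sw x))
    rw [sw_sw]

variable (C : FunctionClone Ω)

theorem add_mem {f t : (Fin 2 → Ω) → Ω} (hf : f ∈ C.ops 2) (ht : t ∈ C.ops 2) :
    (fun x => f (hat t x)) ∈ C.ops 2 := by
  have h1 : comp t ![proj 2 1, proj 2 0] ∈ C.ops 2 := by
    refine C.comp_mem ht (fun i => ?_)
    fin_cases i
    · exact C.proj_mem 2 1
    · exact C.proj_mem 2 0
  have h2 := C.comp_mem (f := f) (g := ![t, comp t ![proj 2 1, proj 2 0]]) hf (fun i => by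
    fin_cases i
    · exact ht
    · exact h1)
  convert h2 using 1
  funext x
  unfold comp
  congr 1
  funext i
  fin_cases i
  · rfl
  · change t (sw x) = t _
    congr 1
    funext j
    fin_cases j <;> rfl

/-- The monoid operation `(f + t)(x,y) = f (t (x,y), t (y,x))`. -/
def cadd (f t : C.ops 2) : C.ops 2 := ⟨fun x => f.1 (hat t.1 x), add_mem C f.2 t.2⟩

/-- The first projection. -/
def c0 : C.ops 2 := ⟨proj 2 0, C.proj_mem 2 0⟩

/-- The second projection. -/
def c1 : C.ops 2 := ⟨proj 2 1, C.proj_mem 2 1⟩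

theorem cadd_c0 (f : C.ops 2) : cadd C f (c0 C) = f := by
  apply Subtype.ext
  funext x
  refine congrArg f.1 (funext fun i => ?_)
  fin_cases i <;> rfl

theorem cadd_assoc (f s t : C.ops 2) : cadd C (cadd C f s) t = cadd C f (cadd C s t) := by
  apply Subtype.ext
  funext x
  refine congrArg f.1 (funext fun i => ?_)
  fin_cases i
  · rfl
  · change s.1 (sw (hat t.1 x)) = s.1 (hat t.1 (sw x))
    rw [sw_hat]

theorem cadd_c1_comm (t : C.ops 2) : cadd C t (c1 C) = cadd C (c1 C) t := by
  apply Subtype.ext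
  funext x
  change t.1 _ = t.1 (sw x)
  refine congrArg t.1 (funext fun i => ?_)
  fin_cases i <;> rfl

theorem cadd_c1_c1 (t : C.ops 2) : cadd C (cadd C t (c1 C)) (c1 C) = t := by
  apply Subtype.ext
  funext x
  change t.1 _ = t.1 x
  refine congrArg t.1 (funext fun i => ?_)
  fin_cases i <;> rfl

variable {C}
variable (ξ : CloneHom C projClone)

/-- Parity of a binary member: `true` if it is sent to the second projection. -/
noncomputable def par (f : C.ops 2) : Bool := decide (idx ξ f = 1)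

theorem par_c0 : par ξ (c0 C) = false := by
  unfold par c0
  rw [idx_proj]
  rfl

theorem par_c1 : par ξ (c1 C) = true := by
  unfold par c1
  rw [idx_proj]
  rfl

theorem idx_cadd (f t : C.ops 2) :
    idx ξ (cadd C f t) = if idx ξ f = 0 then idx ξ t else 1 - idx ξ t := by
  have hsw : ∀ i, (![proj 2 1, proj 2 0] : Fin 2 → ((Fin 2 → Ω) → Ω)) i ∈ C.ops 2 := by
    intro i
    fin_cases i
    · exact C.proj_mem 2 1
    · exact C.proj_mem 2 0
  let P : Fin 2 → C.ops 2 := ![c1 C, c0 C]
  let t' : C.ops 2 := ⟨comp t.1 (fun i => (P i).1), C.comp_mem t.2 (fun i => (P i).2)⟩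
  let g : Fin 2 → C.ops 2 := ![t, t']
  have h1 : cadd C f t = ⟨comp f.1 (fun i => (g i).1), C.comp_mem f.2 (fun i => (g i).2)⟩ := by
    apply Subtype.ext
    funext x
    refine congrArg f.1 (funext fun i => ?_)
    fin_cases i
    · rfl
    · change t.1 (sw x) = t.1 _
      refine congrArg t.1 (funext fun j => ?_)
      fin_cases j <;> rfl
  rw [h1, idx_comp]
  have h2 : idx ξ t' = 1 - idx ξ t := by
    rw [idx_comp]
    rcases Fin.exists_fin_two.1 ⟨idx ξ t, rfl⟩ with h | h
    · rw [h]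
      change idx ξ (c1 C) = _
      unfold c1
      rw [idx_proj]
      rfl
    · rw [h]
      change idx ξ (c0 C) = _
      unfold c0
      rw [idx_proj]
      rfl
  rcases Fin.exists_fin_two.1 ⟨idx ξ f, rfl⟩ with h | h
  · rw [h]
    rfl
  · rw [h]
    change idx ξ t' = _
    rw [h2]
    rfl

theorem par_cadd (f t : C.ops 2) : par ξ (cadd C f t) = xor (par ξ f) (par ξ t) := by
  unfold par
  rw [idx_cadd]
  rcases Fin.exists_fin_two.1 ⟨idx ξ f, rfl⟩ with h | h <;>
  rcases Fin.exists_fin_two.1 ⟨idx ξ t, rfl⟩ with h' | h' <;>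
  rw [h, h'] <;> rfl

end

/-! ### The space of types -/

section Space

variable {Ω : Type u} [TopologicalSpace Ω] [DiscreteTopology Ω] [Nonempty Ω]
variable {C : FunctionClone Ω}
variable (ν : ℕ ≃ (Fin 2 → Ω))

/-- The type of a binary member. -/
def QQ (f : C.ops 2) : ZZ C.autGroup := qq C.autGroup (fun i => f.1 (ν i))

omit [Nonempty Ω] in
theorem continuous_QQ : Continuous (QQ ν : C.ops 2 → ZZ C.autGroup) := by
  refine continuous_pi fun n => ?_
  have : (fun f : C.ops 2 => QQ ν f n) = (mkO C.autGroup n) ∘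
      (fun f : C.ops 2 => fun i : Fin n => f.1 (ν i)) := rfl
  rw [this]
  refine (continuous_of_discreteTopology).comp ?_
  exact continuous_pi fun i => (continuous_apply (ν i)).comp continuous_subtype_val

omit [TopologicalSpace Ω] [DiscreteTopology Ω] [Nonempty Ω] in
/-- The right action. -/
def RT (t : C.ops 2) : ZZ C.autGroup → ZZ C.autGroup :=
  RR C.autGroup (fun i => ν.symm (hat t.1 (ν i)))

omit [TopologicalSpace Ω] [DiscreteTopology Ω] [Nonempty Ω] in
theorem RT_QQ (f t : C.ops 2) : RT ν t (QQ ν f) = QQ ν (cadd C f t) := by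
  unfold RT QQ
  rw [RR_qq]
  congr 1
  funext i
  rw [Equiv.apply_symm_apply]
  rfl

omit [TopologicalSpace Ω] [DiscreteTopology Ω] [Nonempty Ω] in
theorem continuous_RT (t : C.ops 2) : Continuous (RT ν t) := continuous_RR _ _

theorem sec_mem (hC : C.Closed) {z : ZZ C.autGroup}
    (hz : z ∈ closure (Set.range (QQ ν : C.ops 2 → ZZ C.autGroup))) :
    z ∈ Consist C.autGroup ∧ (fun x => sec C.autGroup z (ν.symm x)) ∈ C.ops 2 := by
  have hcons : z ∈ Consist C.autGroup := by
    refine closure_minimal ?_ (isClosed_consist _) hz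
    rintro _ ⟨f, rfl⟩
    exact qq_mem _ _
  refine ⟨hcons, mem_of_approx hC fun F => ?_⟩
  set N : ℕ := F.sup (fun x => ν.symm x) + 1 with hN
  have hopen : IsOpen {x : ZZ C.autGroup | x N = z N} :=
    (isOpen_discrete {z N}).preimage (continuous_apply N)
  obtain ⟨_, hx, ⟨f, rfl⟩⟩ := mem_closure_iff.1 hz _ hopen rfl
  have h2 : mkO C.autGroup N (fun i : Fin N => sec C.autGroup z i) =
      mkO C.autGroup N (fun i : Fin N => f.1 (ν i)) := by
    have h3 : qq C.autGroup (sec C.autGroup z) N = z N := by rw [qq_sec _ hcons]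
    have h4 : QQ ν f N = z N := hx
    exact h3.trans h4.symm
  rw [mkO_eq] at h2
  obtain ⟨g, hg, h2⟩ := h2
  refine ⟨fun x => g (f.1 x), ?_, fun x hx => ?_⟩
  · exact C.comp_mem (g := fun _ => f.1) hg.1 (fun _ => f.2)
  · have hlt : ν.symm x < N := Nat.lt_succ_of_le (Finset.le_sup (f := fun x => ν.symm x) hx)
    have h5 := h2 ⟨ν.symm x, hlt⟩
    simp only [Equiv.apply_symm_apply] at h5
    exact h5

theorem isClosed_range_QQ (hC : C.Closed) :
    IsClosed (Set.range (QQ ν : C.ops 2 → ZZ C.autGroup)) := by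
  refine isClosed_of_closure_subset fun z hz => ?_
  obtain ⟨h1, h2⟩ := sec_mem ν hC hz
  refine ⟨⟨_, h2⟩, ?_⟩
  unfold QQ
  simp only [Equiv.symm_apply_apply]
  exact qq_sec _ h1

end Space

end Pool.Agent.helper31.Clones
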