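import Pool.Agent.helper31.CloneComp

/-!
# Clone homomorphisms to projections: parity and the Baire property
-/

namespace Pool.Agent.helper31.Clones

open Topology Filter

universe u

/-! ### No set with the Baire property is flipped by all coordinates -/

/-- Flip one bit. -/
def flipBit (k : ℕ) (s : ℕ → Bool) : ℕ → Bool := fun i => if i = k then !(s i) else s i

theorem flipBit_flipBit (k : ℕ) (s : ℕ → Bool) : flipBit k (flipBit k s) = s := by
  funext i
  unfold flipBit
  split_ifs <;> simp

theorem continuous_flipBit (k : ℕ) : Continuous (flipBit k) := by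
  refine continuous_pi fun i => ?_
  unfold flipBit
  split_ifs
  · exact (continuous_of_discreteTopology (f := not)).comp (continuous_apply i)
  · exact continuous_apply i

/-- Flip one bit, as a homeomorphism. -/
def flipHomeo (k : ℕ) : (ℕ → Bool) ≃ₜ (ℕ → Bool) where
  toFun := flipBit k
  invFun := flipBit k
  left_inv := flipBit_flipBit k
  right_inv := flipBit_flipBit k
  continuous_toFun := continuous_flipBit k
  continuous_invFun := continuous_flipBit k

theorem no_flip {A : Set (ℕ → Bool)} (hA : BaireMeasurableSet A)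
    (h : ∀ s k, flipBit k s ∈ A ↔ s ∉ A) : False := by
  obtain ⟨U, hU, hAU⟩ := hA.residualEq_isOpen
  rw [eventuallyEq_set] at hAU
  have key : ∀ (k : ℕ) (V : Set (ℕ → Bool)), IsOpen V → V.Nonempty →
      ∃ s ∈ V, (s ∈ A ↔ s ∈ U) ∧ (flipBit k s ∈ A ↔ flipBit k s ∈ U) := by
    intro k V hV hVn
    have h1 : {s | s ∈ A ↔ s ∈ U} ∈ residual (ℕ → Bool) := hAU
    have h2 : {s | flipBit k s ∈ A ↔ flipBit k s ∈ U} ∈ residual (ℕ → Bool) :=
      (tendsto_residual_of_isOpenMap (flipHomeo k).continuous (flipHomeo k).isOpenMap) h1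
    have h3 := dense_of_mem_residual (inter_mem h1 h2)
    obtain ⟨s, hs1, hs2⟩ := h3.inter_open_nonempty V hV hVn
    exact ⟨s, hs1, hs2.1, hs2.2⟩
  by_cases hne : U.Nonempty
  · obtain ⟨s0, hs0⟩ := hne
    obtain ⟨I, u, hu, hsub⟩ := isOpen_pi_iff.1 hU s0 hs0
    obtain ⟨k, hk⟩ := Infinite.exists_notMem_finset I
    have hV : IsOpen {s : ℕ → Bool | ∀ i ∈ I, s i ∈ u i} := by
      have : {s : ℕ → Bool | ∀ i ∈ I, s i ∈ u i} = (I : Set ℕ).pi u := by
        ext s
        simp [Set.pi]
      rw [this]
      exact isOpen_set_pi I.finite_toSet (fun i hi => (hu i hi).1)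
    obtain ⟨s, hs, h1, h2⟩ := key k {s | ∀ i ∈ I, s i ∈ u i} hV ⟨s0, fun i hi => (hu i hi).2⟩
    have hsU : s ∈ U := hsub (fun i hi => hs i hi)
    have hfU : flipBit k s ∈ U := by
      refine hsub (fun i hi => ?_)
      have : i ≠ k := fun e => hk (e ▸ hi)
      unfold flipBit
      rw [if_neg this]
      exact hs i hi
    have := h s k
    tauto
  · rw [Set.not_nonempty_iff_eq_empty] at hne
    subst hne
    obtain ⟨s, -, h1, h2⟩ := key 0 Set.univ isOpen_univ ⟨fun _ => false, trivial⟩
    have := h s 0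
    simp only [Set.mem_empty_iff_false, iff_false] at h1 h2
    tauto

theorem continuous_of_bits {α : Type*} [TopologicalSpace α] (g : (ℕ → Bool) → α) (N : ℕ)
    (h : ∀ s s' : ℕ → Bool, (∀ i < N, s i = s' i) → g s = g s') : Continuous g := by
  have : g = (fun v : Fin N → Bool => g (fun i => if hi : i < N then v ⟨i, hi⟩ else false)) ∘
      (fun s : ℕ → Bool => fun i : Fin N => s i) := by
    funext s
    refine h _ _ fun i hi => ?_
    simp [hi]
  rw [this]
  exact (continuous_of_discreteTopology).comp (continuous_pi fun i => continuous_apply _)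

/-! ### Closedness by approximation -/

theorem mem_of_approx {Ω : Type u} [TopologicalSpace Ω] [DiscreteTopology Ω]
    {C : FunctionClone Ω} (hC : C.Closed) {n : ℕ} {f : (Fin n → Ω) → Ω}
    (h : ∀ F : Finset (Fin n → Ω), ∃ g ∈ C.ops n, ∀ x ∈ F, g x = f x) : f ∈ C.ops n := by
  by_contra hf
  obtain ⟨I, u, hu, hsub⟩ := isOpen_pi_iff.1 (hC n).isOpen_compl f hf
  obtain ⟨g, hg, hgf⟩ := h I
  refine hsub (a := g) (fun i hi => ?_) hg
  rw [hgf i hi]
  exact (hu i hi).2

/-! ### The index of a homomorphism to projections -/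

theorem proj_bool_inj (n : ℕ) : Function.Injective (proj (Ω := Bool) n) := by
  intro i j hij
  have := congrFun hij (fun k => decide (k = i))
  simp only [proj, decide_true] at this
  exact (of_decide_eq_true this.symm).symm

section Index

variable {Ω : Type u} {C : FunctionClone Ω} (ξ : CloneHom C projClone)

/-- The index of the projection to which a member is mapped. -/
noncomputable def idx {n : ℕ} (f : C.ops n) : Fin n := (ξ.toFun n f).2.choose

theorem idx_spec {n : ℕ} (f : C.ops n) : proj n (idx ξ f) = (ξ.toFun n f).1 :=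
  (ξ.toFun n f).2.choose_spec

theorem idx_eq {n : ℕ} (f : C.ops n) (i : Fin n) (h : (ξ.toFun n f).1 = proj n i) :
    idx ξ f = i := proj_bool_inj n (by rw [idx_spec, h])

theorem idx_proj (n : ℕ) (i : Fin n) : idx ξ ⟨proj n i, C.proj_mem n i⟩ = i :=
  idx_eq ξ _ i (by rw [ξ.map_proj])

theorem idx_comp {n m : ℕ} (f : C.ops n) (g : Fin n → C.ops m) :
    idx ξ ⟨comp f.1 (fun i => (g i).1), C.comp_mem f.2 (fun i => (g i).2)⟩ =
      idx ξ (g (idx ξ f)) := by
  apply idx_eq
  rw [ξ.map_comp]
  simp only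
  rw [idx_spec]
  funext x
  unfold comp
  rw [← idx_spec ξ f]
  rfl

theorem toFun_eq_iff {n : ℕ} (f : C.ops n) (i : Fin n) :
    ξ.toFun n f = ⟨proj n i, projClone.proj_mem n i⟩ ↔ idx ξ f = i := by
  constructor
  · intro h
    exact idx_eq ξ f i (by rw [h])
  · intro h
    apply Subtype.ext
    rw [← idx_spec, h]

end Index

end Pool.Agent.helper31.Clones
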