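import Pool.Agent.helper31.CloneDefs

/-!
# The compact space of types of sequences modulo a permutation group
-/

namespace Pool.Agent.helper31.Clones

open Topology

universe u

variable {Ω : Type u} (G : Subgroup (Equiv.Perm Ω))

/-- Orbits of `n`-tuples. -/
def Orb (n : ℕ) : Type u := MulAction.orbitRel.Quotient G (Fin n → Ω)

instance (n : ℕ) : TopologicalSpace (Orb G n) := ⊥
instance (n : ℕ) : DiscreteTopology (Orb G n) := ⟨rfl⟩

/-- The orbit of a tuple. -/
def mkO (n : ℕ) (v : Fin n → Ω) : Orb G n := Quotient.mk'' v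

theorem mkO_eq {n : ℕ} {v w : Fin n → Ω} :
    mkO G n v = mkO G n w ↔ ∃ g ∈ G, ∀ i, g (w i) = v i := by
  change ((Quotient.mk'' v : MulAction.orbitRel.Quotient G (Fin n → Ω)) = Quotient.mk'' w) ↔ _
  rw [Quotient.eq'']
  change (MulAction.orbitRel G (Fin n → Ω)) v w ↔ _
  rw [MulAction.orbitRel_apply]
  constructor
  · rintro ⟨g, hg⟩
    exact ⟨g.1, g.2, fun i => by rw [← hg]; rfl⟩
  · rintro ⟨g, hg, h⟩
    exact ⟨⟨g, hg⟩, by funext i; exact h i⟩

theorem mkO_surj {n : ℕ} (x : Orb G n) : ∃ v, mkO G n v = x := by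
  induction x using Quotient.inductionOn' with
  | h v => exact ⟨v, rfl⟩

/-- Precomposition of orbits by a map of index sets. -/
def preO {n m : ℕ} (j : Fin n → Fin m) : Orb G m → Orb G n :=
  Quotient.lift (fun v => mkO G n (fun i => v (j i))) (by
    intro a b hab
    have h : mkO G m a = mkO G m b := Quotient.sound hab
    rw [mkO_eq] at h ⊢
    obtain ⟨g, hg, h⟩ := h
    exact ⟨g, hg, fun i => h (j i)⟩)

@[simp] theorem preO_mkO {n m : ℕ} (j : Fin n → Fin m) (v : Fin m → Ω) :
    preO G j (mkO G m v) = mkO G n (fun i => v (j i)) := rfl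

/-- The space of sequences of orbits. -/
abbrev ZZ : Type u := ∀ n : ℕ, Orb G n

/-- The type of a sequence. -/
def qq (w : ℕ → Ω) : ZZ G := fun n => mkO G n (fun i => w i)

/-- Consistent sequences of orbits. -/
def Consist : Set (ZZ G) := {z | ∀ n, preO G (Fin.castSucc : Fin n → Fin (n + 1)) (z (n + 1)) = z n}

theorem qq_mem (w : ℕ → Ω) : qq G w ∈ Consist G := fun _ => rfl

theorem isClosed_consist : IsClosed (Consist G) := by
  have : Consist G = ⋂ n, {z : ZZ G | preO G (Fin.castSucc : Fin n → Fin (n + 1)) (z (n + 1)) =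
      z n} := by
    ext z
    simp [Consist]
  rw [this]
  refine isClosed_iInter fun n => ?_
  refine isClosed_eq ?_ (continuous_apply n)
  exact (continuous_of_discreteTopology).comp (continuous_apply (n + 1))

theorem consist_le {z : ZZ G} (hz : z ∈ Consist G) {m n : ℕ} (h : m ≤ n) :
    preO G (Fin.castLE h) (z n) = z m := by
  induction n, h using Nat.le_induction with
  | base =>
    obtain ⟨v, hv⟩ := mkO_surj G (z m)
    rw [← hv, preO_mkO]
    rfl
  | succ n hmn ih =>
    rw [← ih, ← hz n]
    obtain ⟨v, hv⟩ := mkO_surj G (z (n + 1))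
    rw [← hv]
    simp only [preO_mkO]
    rfl

/-- Two consistent sequences that agree at `n` agree below. -/
theorem consist_agree {z z' : ZZ G} (hz : z ∈ Consist G) (hz' : z' ∈ Consist G) {m n : ℕ}
    (h : m ≤ n) (heq : z n = z' n) : z m = z' m := by
  rw [← consist_le G hz h, ← consist_le G hz' h, heq]

/-- Reindexing. -/
def RR (j : ℕ → ℕ) : ZZ G → ZZ G := fun z n =>
  preO G (m := (Finset.univ.sup fun i : Fin n => j i) + 1)
    (fun i : Fin n => ⟨j i, Nat.lt_succ_of_le (Finset.le_sup (f := fun i : Fin n => j i)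
      (Finset.mem_univ i))⟩) (z _)

theorem RR_qq (j : ℕ → ℕ) (w : ℕ → Ω) : RR G j (qq G w) = qq G (fun i => w (j i)) := by
  funext n
  rfl

theorem continuous_RR (j : ℕ → ℕ) : Continuous (RR G j) := by
  refine continuous_pi fun n => ?_
  exact (continuous_of_discreteTopology (f := preO G _)).comp (continuous_apply _)

variable [Nonempty Ω]

open Classical in
/-- One step of the recursive choice of representatives. -/
noncomputable def stepRep {n : ℕ} (x : Orb G (n + 1)) (r : Fin n → Ω) : Fin (n + 1) → Ω :=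
  if h : ∃ v : Fin (n + 1) → Ω, mkO G (n + 1) v = x ∧
      (fun i : Fin n => v i.castSucc) = r then h.choose
      else fun _ => Classical.arbitrary Ω

/-- Recursive choice of representatives. -/
noncomputable def rep (z : ZZ G) : (n : ℕ) → (Fin n → Ω)
  | 0 => fun i => i.elim0
  | (n + 1) => stepRep G (z (n + 1)) (rep z n)

theorem rep_congr {z z' : ZZ G} (n : ℕ) (h : ∀ m ≤ n, z m = z' m) : rep G z n = rep G z' n := by
  induction n with
  | zero => rfl
  | succ n ih =>
    have ih' := ih (fun m hm => h m (Nat.le_succ_of_le hm))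
    have h1 := h (n + 1) le_rfl
    change stepRep G (z (n + 1)) (rep G z n) = stepRep G (z' (n + 1)) (rep G z' n)
    rw [ih', h1]

theorem rep_zero_class {z : ZZ G} : mkO G 0 (rep G z 0) = z 0 := by
  obtain ⟨v, hv⟩ := mkO_surj G (z 0)
  rw [← hv]
  congr 1
  funext i
  exact i.elim0

theorem rep_spec {z : ZZ G} (hz : z ∈ Consist G) (n : ℕ) :
    mkO G n (rep G z n) = z n ∧
      mkO G (n + 1) (rep G z (n + 1)) = z (n + 1) ∧
      (fun i : Fin n => rep G z (n + 1) i.castSucc) = rep G z n := by
  have key : ∀ n, mkO G n (rep G z n) = z n →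
      ∃ v : Fin (n + 1) → Ω, mkO G (n + 1) v = z (n + 1) ∧
        (fun i : Fin n => v i.castSucc) = rep G z n := by
    intro n hn
    obtain ⟨v, hv⟩ := mkO_surj G (z (n + 1))
    have h1 := hz n
    rw [← hv, preO_mkO, ← hn, eq_comm, mkO_eq] at h1
    obtain ⟨g, hg, h1⟩ := h1
    refine ⟨fun i => g (v i), ?_, ?_⟩
    · rw [← hv, mkO_eq]
      exact ⟨g, hg, fun i => rfl⟩
    · funext i
      exact h1 i
  have step : ∀ n, mkO G n (rep G z n) = z n →
      mkO G (n + 1) (rep G z (n + 1)) = z (n + 1) ∧
      (fun i : Fin n => rep G z (n + 1) i.castSucc) = rep G z n := by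
    intro n hn
    have h := key n hn
    have : rep G z (n + 1) = h.choose := by
      change stepRep G (z (n + 1)) (rep G z n) = _
      unfold stepRep
      rw [dif_pos h]
    rw [this]
    exact h.choose_spec
  have all : ∀ n, mkO G n (rep G z n) = z n := by
    intro n
    induction n with
    | zero => exact rep_zero_class G
    | succ n ih => exact (step n ih).1
  exact ⟨all n, step n (all n)⟩

/-- The continuous section. -/
noncomputable def sec (z : ZZ G) : ℕ → Ω := fun i => rep G z (i + 1) (Fin.last i)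

theorem sec_eq_rep {z : ZZ G} (hz : z ∈ Consist G) (n : ℕ) (i : Fin n) :
    sec G z i = rep G z n i := by
  induction n with
  | zero => exact i.elim0
  | succ n ih =>
    rcases Fin.eq_castSucc_or_eq_last i with ⟨j, rfl⟩ | rfl
    · have h : rep G z (n + 1) j.castSucc = rep G z n j := congrFun (rep_spec G hz n).2.2 j
      rw [h, ← ih j]
      rfl
    · rfl

theorem qq_sec {z : ZZ G} (hz : z ∈ Consist G) : qq G (sec G z) = z := by
  funext n
  unfold qq
  have : (fun i : Fin n => sec G z i) = rep G z n := by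
    funext i
    exact sec_eq_rep G hz n i
  rw [this]
  exact (rep_spec G hz n).1

theorem sec_congr {z z' : ZZ G} (i : ℕ) (h : ∀ m ≤ i + 1, z m = z' m) : sec G z i = sec G z' i := by
  unfold sec
  rw [rep_congr G (i + 1) h]

end Pool.Agent.helper31.Clones
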