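import Mathlib

/-!
# Function clones, clone homomorphisms, oligomorphic clones

Arity `0` is excluded: a function clone has no nullary members.
-/

namespace Pool.Agent.helper31.Clones

universe u v

/-- The `i`-th projection of arity `n` on `Ω`. -/
def proj {Ω : Type u} (n : ℕ) (i : Fin n) : (Fin n → Ω) → Ω := fun x => x i

/-- The composite `x ↦ f (g 0 x, …, g (n-1) x)`. -/
def comp {Ω : Type u} {n m : ℕ} (f : (Fin n → Ω) → Ω) (g : Fin n → (Fin m → Ω) → Ω) :
    (Fin m → Ω) → Ω := fun x => f (fun i => g i x)

/-- A function clone on `Ω`: a set of finitary operations of arity at least one which contains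
all projections and is closed under composition. -/
structure FunctionClone (Ω : Type u) where
  /-- the members of arity `n` -/
  ops : (n : ℕ) → Set ((Fin n → Ω) → Ω)
  ops_zero : ops 0 = ∅
  proj_mem : ∀ (n : ℕ) (i : Fin n), proj n i ∈ ops n
  comp_mem : ∀ {n m : ℕ} {f : (Fin n → Ω) → Ω} {g : Fin n → (Fin m → Ω) → Ω},
    f ∈ ops n → (∀ i, g i ∈ ops m) → comp f g ∈ ops m

/-- The permutation group of the invertible unary members of a clone. -/
def FunctionClone.autGroup {Ω : Type u} (C : FunctionClone Ω) : Subgroup (Equiv.Perm Ω) where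
  carrier := {σ | (fun x : Fin 1 → Ω => σ (x 0)) ∈ C.ops 1 ∧
    (fun x : Fin 1 → Ω => σ.symm (x 0)) ∈ C.ops 1}
  mul_mem' := by
    intro a b ha hb
    constructor
    · exact C.comp_mem (g := fun _ => fun x : Fin 1 → Ω => b (x 0)) ha.1 (fun _ => hb.1)
    · exact C.comp_mem (g := fun _ => fun x : Fin 1 → Ω => a.symm (x 0)) hb.2 (fun _ => ha.2)
  one_mem' := by
    constructor
    · exact C.proj_mem 1 0
    · exact C.proj_mem 1 0
  inv_mem' := by
    intro a ha
    exact ⟨ha.2, ha.1⟩

/-- A clone is oligomorphic if the permutation group of its invertible unary members has only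
finitely many orbits on `Ωⁿ` for every `n`. -/
def FunctionClone.Oligomorphic {Ω : Type u} (C : FunctionClone Ω) : Prop :=
  ∀ n : ℕ, Finite (MulAction.orbitRel.Quotient C.autGroup (Fin n → Ω))

/-- A clone is closed if for every arity `n` its set of `n`-ary members is closed in the topology
of pointwise convergence (`Ω` is given the discrete topology). -/
def FunctionClone.Closed {Ω : Type u} [TopologicalSpace Ω] (C : FunctionClone Ω) : Prop :=
  ∀ n : ℕ, IsClosed (C.ops n)

/-- A clone homomorphism: preserves arities, projections and composition. -/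
structure CloneHom {Ω : Type u} {Ω' : Type v} (C : FunctionClone Ω) (D : FunctionClone Ω') where
  /-- the action on the members of arity `n` -/
  toFun : (n : ℕ) → C.ops n → D.ops n
  map_proj : ∀ (n : ℕ) (i : Fin n),
    toFun n ⟨proj n i, C.proj_mem n i⟩ = ⟨proj n i, D.proj_mem n i⟩
  map_comp : ∀ {n m : ℕ} (f : C.ops n) (g : Fin n → C.ops m),
    toFun m ⟨comp f.1 (fun i => (g i).1), C.comp_mem f.2 (fun i => (g i).2)⟩ =
      ⟨comp (toFun n f).1 (fun i => (toFun m (g i)).1),
        D.comp_mem (toFun n f).2 (fun i => (toFun m (g i)).2)⟩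

/-- The clone `𝟏` of projections on the two-element set `Bool`. -/
def projClone : FunctionClone Bool where
  ops := fun n => Set.range (proj n)
  ops_zero := by
    ext f
    simp
  proj_mem := fun n i => ⟨i, rfl⟩
  comp_mem := by
    rintro n m f g ⟨i, rfl⟩ hg
    obtain ⟨j, hj⟩ := hg i
    exact ⟨j, by rw [hj]; rfl⟩

end Pool.Agent.helper31.Clones
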