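import Pool.Agent.helper31.CloneAct

/-!
# Parity only depends on the type
-/

namespace Pool.Agent.helper31.Clones

open Topology Filter

universe u

variable {Ω : Type u} [TopologicalSpace Ω] [DiscreteTopology Ω] [Nonempty Ω]
variable {C : FunctionClone Ω}
variable (ξ : CloneHom C projClone)
variable (ν : ℕ ≃ (Fin 2 → Ω)) (μ : ℕ ≃ Ω ⊕ Ω)

include μ in
theorem idx_eq_of_QQ_eq (hC : C.Closed) (hO : C.Oligomorphic) (f f' : C.ops 2)
    (h : QQ ν f = QQ ν f') : idx ξ f = idx ξ f' := by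
  classical
  haveI : ∀ n, Finite (Orb C.autGroup n) := fun n => hO n
  haveI : ∀ n, CompactSpace (Orb C.autGroup n) := fun n => inferInstance
  have h1 : ∀ N : ℕ, ∃ g ∈ C.autGroup, ∀ i : Fin N, g (f.1 (ν i)) = f'.1 (ν i) := by
    intro N
    have := congrFun h N
    exact (mkO_eq C.autGroup).1 this.symm
  choose g hg hgf using h1
  let U : ℕ → (ℕ → Ω) := fun N k => Sum.elim (fun a => g N a) (fun a => a) (μ k)
  obtain ⟨z, hz⟩ := exists_clusterPt_of_compactSpace (Filter.map (fun N => qq C.autGroup (U N)) atTop)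
  have hz' : ∀ K L : ℕ, ∃ N ≥ L, qq C.autGroup (U N) K = z K := by
    intro K L
    have hmc : MapClusterPt z atTop (fun N => qq C.autGroup (U N)) := hz
    have hopen : IsOpen {x : ZZ C.autGroup | x K = z K} :=
      (isOpen_discrete {z K}).preimage (continuous_apply K)
    have hfr := hmc.frequently (hopen.mem_nhds rfl)
    obtain ⟨N, hN1, hN2⟩ := (frequently_atTop.1 hfr) L
    exact ⟨N, hN1, hN2⟩
  have hcons : z ∈ Consist C.autGroup := by
    intro n
    obtain ⟨N, -, hN⟩ := hz' (n + 1) 0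
    have hclose : z ∈ closure (Set.range (fun N => qq C.autGroup (U N))) := by
      have hmc : MapClusterPt z atTop (fun N => qq C.autGroup (U N)) := hz
      rw [mem_closure_iff_frequently]
      rw [mem_closure_iff_frequently.symm, mem_closure_iff]
      intro o ho hzo
      have hfr := hmc.frequently (ho.mem_nhds hzo)
      obtain ⟨N, hN⟩ := hfr.exists
      exact ⟨_, hN, ⟨N, rfl⟩⟩
    have := closure_minimal (t := Consist C.autGroup) (by rintro _ ⟨N, rfl⟩; exact qq_mem _ _)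
      (isClosed_consist _) hclose
    exact this n
  set w := sec C.autGroup z with hw
  have hqw : qq C.autGroup w = z := qq_sec _ hcons
  -- for every `K` and `L` a group element `k` and `N ≥ L` with `k ∘ U N = w` below `K`
  have hk : ∀ K L : ℕ, ∃ N ≥ L, ∃ k ∈ C.autGroup, ∀ i : Fin K, k (U N i) = w i := by
    intro K L
    obtain ⟨N, hN, hN2⟩ := hz' K L
    refine ⟨N, hN, ?_⟩
    rw [← hqw] at hN2
    exact (mkO_eq C.autGroup).1 hN2.symm
  let e : Ω → Ω := fun a => w (μ.symm (Sum.inl a))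
  let e' : Ω → Ω := fun a => w (μ.symm (Sum.inr a))
  have he : (fun x : Fin 1 → Ω => e (x 0)) ∈ C.ops 1 := by
    refine mem_of_approx hC fun F => ?_
    obtain ⟨N, -, k, hkG, hk2⟩ := hk (F.sup (fun x => μ.symm (Sum.inl (x 0))) + 1) 0
    refine ⟨fun x => k (g N (x 0)), ?_, fun x hx => ?_⟩
    · exact (C.autGroup.mul_mem hkG (hg N)).1
    · have hlt : μ.symm (Sum.inl (x 0)) < F.sup (fun x => μ.symm (Sum.inl (x 0))) + 1 :=
        Nat.lt_succ_of_le (Finset.le_sup (f := fun x : Fin 1 → Ω => μ.symm (Sum.inl (x 0))) hx)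
      have := hk2 ⟨_, hlt⟩
      simp only [U, Equiv.apply_symm_apply, Sum.elim_inl] at this
      exact this
  have he' : (fun x : Fin 1 → Ω => e' (x 0)) ∈ C.ops 1 := by
    refine mem_of_approx hC fun F => ?_
    obtain ⟨N, -, k, hkG, hk2⟩ := hk (F.sup (fun x => μ.symm (Sum.inr (x 0))) + 1) 0
    refine ⟨fun x => k (x 0), hkG.1, fun x hx => ?_⟩
    have hlt : μ.symm (Sum.inr (x 0)) < F.sup (fun x => μ.symm (Sum.inr (x 0))) + 1 :=
      Nat.lt_succ_of_le (Finset.le_sup (f := fun x : Fin 1 → Ω => μ.symm (Sum.inr (x 0))) hx)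
    have := hk2 ⟨_, hlt⟩
    simp only [U, Equiv.apply_symm_apply, Sum.elim_inr] at this
    exact this
  have hee : ∀ x, e (f.1 x) = e' (f'.1 x) := by
    intro x
    obtain ⟨N, hN, k, hkG, hk2⟩ := hk (max (μ.symm (Sum.inl (f.1 x)))
      (μ.symm (Sum.inr (f'.1 x))) + 1) (ν.symm x + 1)
    have h1 := hk2 ⟨μ.symm (Sum.inl (f.1 x)), Nat.lt_succ_of_le (le_max_left _ _)⟩
    have h2 := hk2 ⟨μ.symm (Sum.inr (f'.1 x)), Nat.lt_succ_of_le (le_max_right _ _)⟩
    have h3 := hgf N ⟨ν.symm x, hN⟩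
    simp only [U, Equiv.apply_symm_apply, Sum.elim_inl, Sum.elim_inr] at h1 h2 h3
    change w _ = w _
    rw [← h1, ← h2, h3]
  let E : C.ops 1 := ⟨_, he⟩
  let E' : C.ops 1 := ⟨_, he'⟩
  have h5 := idx_comp ξ E (fun _ => f)
  have h6 := idx_comp ξ E' (fun _ => f')
  rw [← h5, ← h6]
  congr 1
  apply Subtype.ext
  funext x
  exact hee x

end Pool.Agent.helper31.Clones
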