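import Pool.Agent.helper31.CloneLift

/-!
# Continuity of clone homomorphisms to projections
-/

namespace Pool.Agent.helper31.Clones

open Topology Filter

universe u

variable {Ω : Type u} [TopologicalSpace Ω] [DiscreteTopology Ω] [Nonempty Ω]
variable {C : FunctionClone Ω}
variable (ξ : CloneHom C projClone)
variable (ν : ℕ ≃ (Fin 2 → Ω))

/-- The sets among which a minimal one is chosen. -/
def Fam : Set (Set (ZZ C.autGroup)) :=
  {M | M.Nonempty ∧ IsClosed M ∧ M ⊆ Set.range (QQ ν : C.ops 2 → ZZ C.autGroup) ∧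
    ∀ t : C.ops 2, par ξ t = false → ∀ x ∈ M, RT ν t x ∈ M}

theorem exists_minimal (hC : C.Closed) (hO : C.Oligomorphic) :
    ∃ M, Minimal (fun M => M ∈ Fam ξ ν) M := by
  have : ∀ n, Finite (Orb C.autGroup n) := fun n => hO n
  have hcomp : IsCompact (Set.range (QQ ν : C.ops 2 → ZZ C.autGroup)) :=
    (isClosed_range_QQ ν hC).isCompact
  refine zorn_superset _ fun c hc hchain => ?_
  rcases c.eq_empty_or_nonempty with rfl | hne
  · refine ⟨Set.range (QQ ν), ⟨⟨_, ⟨c0 C, rfl⟩⟩, isClosed_range_QQ ν hC, subset_rfl, ?_⟩,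
      fun s hs => absurd hs (Set.notMem_empty _)⟩
    rintro t - _ ⟨f, rfl⟩
    exact ⟨cadd C f t, (RT_QQ ν f t).symm⟩
  · refine ⟨⋂₀ c, ⟨?_, ?_, ?_, ?_⟩, fun s hs => Set.sInter_subset_of_mem hs⟩
    · have : Nonempty c := hne.to_subtype
      refine IsCompact.nonempty_sInter_of_directed_nonempty_isCompact_isClosed
        (S := c) ?_ (fun s hs => (hc hs).1)
        (fun s hs => hcomp.of_isClosed_subset (hc hs).2.1 (hc hs).2.2.1)
        (fun s hs => (hc hs).2.1)
      intro s hs t ht
      rcases hchain.total hs ht with h | h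
      · exact ⟨s, hs, subset_rfl, h⟩
      · exact ⟨t, ht, h, subset_rfl⟩
    · exact isClosed_sInter fun s hs => (hc hs).2.1
    · obtain ⟨s, hs⟩ := hne
      exact (Set.sInter_subset_of_mem hs).trans (hc hs).2.2.1
    · intro t ht x hx s hs
      exact (hc hs).2.2.2 t ht x (hx s hs)

section Words

/-- The word maps. -/
noncomputable def Phi (u : ℕ → C.ops 2) : ℕ → (ℕ → Bool) → ZZ C.autGroup → ZZ C.autGroup
  | 0, _ => fun x => x
  | (n + 1), s => fun x => Phi u n s (if s n then RT ν (u n) x else x)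

/-- States of the construction. -/
def St (C : FunctionClone Ω) : Type u :=
  {Φ : (ℕ → Bool) → ZZ C.autGroup → ZZ C.autGroup //
    (∀ s, Continuous (Φ s)) ∧ (Set.range Φ).Finite}

omit [TopologicalSpace Ω] [DiscreteTopology Ω] [Nonempty Ω] in
theorem continuous_ite_RT (t : C.ops 2) (b : Bool) :
    Continuous (fun x => if b then RT ν t x else x) := by
  cases b
  · simp only [Bool.false_eq_true, if_false]
    exact continuous_id
  · simp only [if_true]
    exact continuous_RT ν t

/-- The next state. -/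
noncomputable def nextSt (Φ : St C) (t : C.ops 2) (n : ℕ) : St C :=
  ⟨fun s x => Φ.1 s (if s n then RT ν t x else x),
    fun s => (Φ.2.1 s).comp (continuous_ite_RT ν t (s n)), by
      refine (Set.Finite.image2 (fun φ (b : Bool) => fun x => φ (if b then RT ν t x else x))
        Φ.2.2 (Set.finite_univ)).subset ?_
      rintro _ ⟨s, rfl⟩
      exact ⟨Φ.1 s, ⟨s, rfl⟩, s n, trivial, rfl⟩⟩

variable {y : ZZ C.autGroup}

omit [TopologicalSpace Ω] [DiscreteTopology Ω] [Nonempty Ω] in
theorem exists_step (hy : y ∈ closure {x | ∃ t : C.ops 2, par ξ t = true ∧ RT ν t y = x})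
    (Φ : St C) (n : ℕ) :
    ∃ t : C.ops 2, par ξ t = true ∧ ∀ s, Φ.1 s (RT ν t y) n = Φ.1 s y n := by
  have hopen : IsOpen (⋂ φ ∈ Set.range Φ.1, {x | φ x n = φ y n}) := by
    refine Φ.2.2.isOpen_biInter ?_
    rintro _ ⟨s, rfl⟩
    exact (isOpen_discrete {Φ.1 s y n}).preimage
      ((continuous_apply n).comp (Φ.2.1 s))
  obtain ⟨_, hx, t, ht, rfl⟩ := mem_closure_iff.1 hy _ hopen (by simp)
  refine ⟨t, ht, fun s => ?_⟩
  simp only [Set.mem_iInter] at hx
  exact hx (Φ.1 s) ⟨s, rfl⟩

omit [TopologicalSpace Ω] [DiscreteTopology Ω] [Nonempty Ω] in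
theorem exists_words (hy : y ∈ closure {x | ∃ t : C.ops 2, par ξ t = true ∧ RT ν t y = x}) :
    ∃ u : ℕ → C.ops 2, (∀ n, par ξ (u n) = true) ∧
      (∀ n s, Continuous (Phi ν u n s)) ∧
      ∀ n s, Phi ν u (n + 1) s y n = Phi ν u n s y n := by
  choose T hT1 hT2 using exists_step ξ ν hy
  let S0 : St C := ⟨fun _ x => x, fun _ => continuous_id, by
    refine (Set.finite_singleton (fun x => x)).subset ?_
    rintro _ ⟨s, rfl⟩
    rfl⟩
  let st : ℕ → St C := fun n => Nat.rec S0 (fun n Φ => nextSt ν Φ (T Φ n) n) n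
  let u : ℕ → C.ops 2 := fun n => T (st n) n
  have hst : ∀ n, (st n).1 = Phi ν u n := by
    intro n
    induction n with
    | zero => rfl
    | succ n ih =>
      have : (st (n + 1)).1 = fun s x => (st n).1 s (if s n then RT ν (u n) x else x) := rfl
      rw [this, ih]
      rfl
  refine ⟨u, fun n => hT1 _ _, fun n s => ?_, fun n s => ?_⟩
  · rw [← hst]
    exact (st n).2.1 s
  · change Phi ν u n s (if s n then RT ν (u n) y else y) n = _
    by_cases hs : s n
    · rw [if_pos hs, ← hst]
      exact hT2 (st n) n s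
    · rw [if_neg hs]

omit [TopologicalSpace Ω] [DiscreteTopology Ω] [Nonempty Ω] in
theorem Phi_congr (u : ℕ → C.ops 2) (n : ℕ) {s s' : ℕ → Bool} (h : ∀ i < n, s i = s' i) :
    Phi ν u n s = Phi ν u n s' := by
  induction n with
  | zero => rfl
  | succ n ih =>
    funext x
    change Phi ν u n s (if s n then RT ν (u n) x else x) =
      Phi ν u n s' (if s' n then RT ν (u n) x else x)
    rw [ih (fun i hi => h i (Nat.lt_succ_of_lt hi)), h n (Nat.lt_succ_self n)]

omit [TopologicalSpace Ω] [DiscreteTopology Ω] [Nonempty Ω] in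
/-- The word maps act as right addition of a fixed element. -/
theorem Phi_act (u : ℕ → C.ops 2) (n : ℕ) (s : ℕ → Bool) :
    ∃ t : C.ops 2, ∀ f : C.ops 2, Phi ν u n s (QQ ν f) = QQ ν (cadd C f t) := by
  induction n with
  | zero => exact ⟨c0 C, fun f => by rw [cadd_c0]; rfl⟩
  | succ n ih =>
    obtain ⟨t, ht⟩ := ih
    by_cases hs : s n
    · refine ⟨cadd C (u n) t, fun f => ?_⟩
      change Phi ν u n s (if s n then RT ν (u n) (QQ ν f) else QQ ν f) = _
      rw [if_pos hs, RT_QQ, ht, cadd_assoc]
    · refine ⟨t, fun f => ?_⟩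
      change Phi ν u n s (if s n then RT ν (u n) (QQ ν f) else QQ ν f) = _
      rw [if_neg hs, ht]

omit [TopologicalSpace Ω] [DiscreteTopology Ω] [Nonempty Ω] in
/-- Splitting of a word. -/
theorem Phi_split (u : ℕ → C.ops 2) (k n : ℕ) (s : ℕ → Bool) (x : ZZ C.autGroup) :
    Phi ν u (k + n) s x =
      Phi ν u k s (Phi ν u (k + n) (fun i => if i < k then false else s i) x) := by
  induction n generalizing x with
  | zero =>
    have : ∀ m ≤ k, ∀ x, Phi ν u m (fun i => if i < k then false else s i) x = x := by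
      intro m hm
      induction m with
      | zero => intro x; rfl
      | succ m ih =>
        intro x
        change Phi ν u m _ (if (if m < k then false else s m) = true then RT ν (u m) x else x) = x
        rw [if_pos (show m < k from hm)]
        simpa using ih (Nat.le_of_succ_le hm) x
    rw [Nat.add_zero, this k le_rfl]
  | succ n ih =>
    change Phi ν u (k + n) s (if s (k + n) then RT ν (u (k + n)) x else x) =
      Phi ν u k s (Phi ν u (k + n) _
        (if (if k + n < k then false else s (k + n)) = true then RT ν (u (k + n)) x else x))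
    rw [ih, if_neg (show ¬ (k + n < k) by omega)]

theorem exists_flip (hC : C.Closed) (hO : C.Oligomorphic) (μ : ℕ ≃ Ω ⊕ Ω) (f0 : C.ops 2)
    (hy : QQ ν f0 ∈ closure {x | ∃ t : C.ops 2, par ξ t = true ∧ RT ν t (QQ ν f0) = x}) :
    ∃ F : (ℕ → Bool) → C.ops 2, Continuous F ∧
      ∀ s k, par ξ (F (flipBit k s)) = !(par ξ (F s)) := by
  obtain ⟨u, hu1, hu2, hu3⟩ := exists_words ξ ν hy
  set y : ZZ C.autGroup := QQ ν f0 with hydef
  let F0 : (ℕ → Bool) → ZZ C.autGroup := fun s m => Phi ν u m s y m
  have hmem : ∀ n s, Phi ν u n s y ∈ Set.range (QQ ν : C.ops 2 → ZZ C.autGroup) := by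
    intro n s
    obtain ⟨t, ht⟩ := Phi_act ν u n s
    exact ⟨_, (ht f0).symm⟩
  have hcons : ∀ n s, Phi ν u n s y ∈ Consist C.autGroup := by
    intro n s
    obtain ⟨f, hf⟩ := hmem n s
    rw [← hf]
    exact qq_mem _ _
  have hstab : ∀ s m n, m ≤ n → Phi ν u n s y m = F0 s m := by
    intro s m n hmn
    induction n, hmn using Nat.le_induction with
    | base => rfl
    | succ n hmn ih =>
      rw [← ih]
      exact consist_agree _ (hcons _ _) (hcons _ _) hmn (hu3 n s)
  have htend : ∀ s, Tendsto (fun n => Phi ν u n s y) atTop (𝓝 (F0 s)) := by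
    intro s
    refine tendsto_pi_nhds.2 fun m => ?_
    refine tendsto_const_nhds.congr' ?_
    filter_upwards [eventually_ge_atTop m] with n hn
    exact (hstab s m n hn).symm
  have hcl : ∀ s, F0 s ∈ closure (Set.range (QQ ν : C.ops 2 → ZZ C.autGroup)) := fun s =>
    mem_closure_of_tendsto (htend s) (Eventually.of_forall fun n => hmem n s)
  let F : (ℕ → Bool) → C.ops 2 := fun s =>
    ⟨fun x => sec C.autGroup (F0 s) (ν.symm x), (sec_mem ν hC (hcl s)).2⟩
  have hQF : ∀ s, QQ ν (F s) = F0 s := by
    intro s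
    unfold QQ
    simp only [F, Equiv.symm_apply_apply]
    exact qq_sec _ (sec_mem ν hC (hcl s)).1
  refine ⟨F, ?_, ?_⟩
  · refine Continuous.subtype_mk (continuous_pi fun x => ?_) _
    refine continuous_of_bits _ (ν.symm x + 2) fun s s' h => ?_
    refine sec_congr _ _ fun m hm => ?_
    change Phi ν u m s y m = Phi ν u m s' y m
    rw [Phi_congr ν u m (fun i hi => h i (by omega))]
  · intro s k
    have hsplit : ∀ s, F0 s = Phi ν u (k + 1) s
        (F0 (fun i => if i < k + 1 then false else s i)) := by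
      intro s
      have hsh : Tendsto (fun n => k + 1 + n) atTop atTop :=
        tendsto_atTop_mono (fun n => Nat.le_add_left n (k + 1)) tendsto_id
      have h1 := (htend s).comp hsh
      have h2 := ((hu2 (k + 1) s).tendsto _).comp
        ((htend (fun i => if i < k + 1 then false else s i)).comp hsh)
      refine tendsto_nhds_unique h1 (h2.congr fun n => ?_)
      exact (Phi_split ν u (k + 1) n s y).symm
    set s' : ℕ → Bool := fun i => if i < k + 1 then false else s i with hs'
    have hs'' : (fun i => if i < k + 1 then false else flipBit k s i) = s' := by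
      funext i
      rw [hs']
      by_cases hi : i < k + 1
      · simp [hi]
      · have : i ≠ k := by omega
        simp [hi, flipBit, this]
    obtain ⟨t, ht⟩ := Phi_act ν u k s
    have e1 : QQ ν (F s) = QQ ν (cadd C (if s k then cadd C (F s') (u k) else F s') t) := by
      rw [hQF, hsplit s, ← hs', ← hQF s']
      change Phi ν u k s (if s k then RT ν (u k) (QQ ν (F s')) else QQ ν (F s')) = _
      by_cases hk : s k
      · rw [if_pos hk, if_pos hk, RT_QQ, ht]
      · rw [if_neg hk, if_neg hk, ht]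
    have hcong : Phi ν u k (flipBit k s) = Phi ν u k s := by
      refine Phi_congr ν u k fun i hi => ?_
      have : i ≠ k := by omega
      simp [flipBit, this]
    have hfk : flipBit k s k = !(s k) := by simp [flipBit]
    have e2 : QQ ν (F (flipBit k s)) =
        QQ ν (cadd C (if s k then F s' else cadd C (F s') (u k)) t) := by
      rw [hQF, hsplit (flipBit k s), hs'', ← hQF s']
      change Phi ν u k (flipBit k s)
        (if flipBit k s k then RT ν (u k) (QQ ν (F s')) else QQ ν (F s')) = _
      rw [hcong, hfk]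
      by_cases hk : s k
      · rw [hk]
        simp only [Bool.not_true, Bool.false_eq_true, if_false, if_true]
        exact ht _
      · have hk' : s k = false := by simpa using hk
        rw [hk']
        simp only [Bool.not_false, Bool.false_eq_true, if_false, if_true]
        rw [RT_QQ]
        exact ht _
    have p1 : par ξ (F s) = par ξ (cadd C (if s k then cadd C (F s') (u k) else F s') t) := by
      unfold par
      rw [idx_eq_of_QQ_eq ξ ν μ hC hO _ _ e1]
    have p2 : par ξ (F (flipBit k s)) =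
        par ξ (cadd C (if s k then F s' else cadd C (F s') (u k)) t) := by
      unfold par
      rw [idx_eq_of_QQ_eq ξ ν μ hC hO _ _ e2]
    rw [p1, p2, par_cadd, par_cadd]
    by_cases hk : s k
    · rw [if_pos hk, if_pos hk, par_cadd, hu1]
      cases par ξ (F s') <;> cases par ξ t <;> rfl
    · rw [if_neg hk, if_neg hk, par_cadd, hu1]
      cases par ξ (F s') <;> cases par ξ t <;> rfl

end Words

include ν in
/-- Parity is continuous. -/
theorem par_closed (hC : C.Closed) (hO : C.Oligomorphic) (μ : ℕ ≃ Ω ⊕ Ω)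
    (hξ : ∀ F : (ℕ → Bool) → C.ops 2, Continuous F →
      BaireMeasurableSet {s | par ξ (F s) = false}) :
    IsClosed {f : C.ops 2 | par ξ f = true} ∧ IsClosed {f : C.ops 2 | par ξ f = false} := by
  obtain ⟨M, hM⟩ := exists_minimal ξ ν hC hO
  obtain ⟨hMF, hmin⟩ := hM
  obtain ⟨hne, hcl, hsub, hinv⟩ := hMF
  have hcomp : IsCompact M := by
    have : ∀ n, Finite (Orb C.autGroup n) := fun n => hO n
    exact hcl.isCompact
  -- the swap
  set z : C.ops 2 := c1 C with hz
  have hzz : ∀ x ∈ Set.range (QQ ν : C.ops 2 → ZZ C.autGroup), RT ν z (RT ν z x) = x := by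
    rintro _ ⟨f, rfl⟩
    rw [RT_QQ, RT_QQ, cadd_c1_c1]
  have hcomm : ∀ t : C.ops 2, ∀ x ∈ Set.range (QQ ν : C.ops 2 → ZZ C.autGroup),
      RT ν t (RT ν z x) = RT ν z (RT ν t x) := by
    rintro t _ ⟨f, rfl⟩
    rw [RT_QQ, RT_QQ, RT_QQ, RT_QQ, cadd_assoc, cadd_assoc, cadd_c1_comm]
  have hparz : ∀ t : C.ops 2, par ξ (cadd C t z) = !(par ξ t) := by
    intro t
    rw [par_cadd, hz, par_c1]
    simp
  set Mz : Set (ZZ C.autGroup) := RT ν z '' M with hMz
  have hMzF : Mz ∈ Fam ξ ν := by
    refine ⟨hne.image _, (hcomp.image (continuous_RT ν z)).isClosed, ?_, ?_⟩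
    · rintro _ ⟨x, hx, rfl⟩
      obtain ⟨f, rfl⟩ := hsub hx
      exact ⟨cadd C f z, (RT_QQ ν f z).symm⟩
    · rintro t ht _ ⟨x, hx, rfl⟩
      rw [hcomm t x (hsub hx)]
      exact ⟨_, hinv t ht x hx, rfl⟩
  by_cases hdisj : (M ∩ Mz).Nonempty
  · exfalso
    -- `M = Mz`
    have hinter : M ∩ Mz ∈ Fam ξ ν := by
      refine ⟨hdisj, hcl.inter hMzF.2.1, fun x hx => hsub hx.1, fun t ht x hx => ?_⟩
      exact ⟨hinv t ht x hx.1, hMzF.2.2.2 t ht x hx.2⟩
    have h1 : M ⊆ M ∩ Mz := hmin hinter Set.inter_subset_left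
    obtain ⟨y, hy⟩ := hne
    obtain ⟨f0, hf0⟩ := hsub hy
    have hzy : RT ν z y ∈ M := by
      obtain ⟨x, hx, hxy⟩ := (h1 hy).2
      rw [← hxy, hzz x (hsub hx)]
      exact hx
    -- the closure of the `S₀`-orbit
    have hD : closure {x | ∃ t : C.ops 2, par ξ t = false ∧ RT ν t y = x} ∈ Fam ξ ν := by
      have hsubM : closure {x | ∃ t : C.ops 2, par ξ t = false ∧ RT ν t y = x} ⊆ M := by
        refine closure_minimal ?_ hcl
        rintro _ ⟨t, ht, rfl⟩
        exact hinv t ht y hy
      refine ⟨?_, isClosed_closure, hsubM.trans hsub, ?_⟩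
      · exact ⟨_, subset_closure ⟨c0 C, par_c0 ξ, rfl⟩⟩
      · intro t ht x hx
        have := map_mem_closure (continuous_RT ν t) hx
          (t := {x | ∃ t : C.ops 2, par ξ t = false ∧ RT ν t y = x}) ?_
        · exact this
        · rintro _ ⟨t', ht', rfl⟩
          refine ⟨cadd C t' t, by rw [par_cadd, ht, ht']; rfl, ?_⟩
          rw [← hf0, RT_QQ, RT_QQ, RT_QQ, cadd_assoc]
    have h2 : M ⊆ closure {x | ∃ t : C.ops 2, par ξ t = false ∧ RT ν t y = x} := by
      refine hmin hD (closure_minimal ?_ hcl)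
      rintro _ ⟨t, ht, rfl⟩
      exact hinv t ht y hy
    have h3 : QQ ν f0 ∈ closure {x | ∃ t : C.ops 2, par ξ t = true ∧ RT ν t (QQ ν f0) = x} := by
      have h4 := map_mem_closure (continuous_RT ν z) (h2 hzy)
        (t := {x | ∃ t : C.ops 2, par ξ t = true ∧ RT ν t (QQ ν f0) = x}) ?_
      · rw [hzz y (hsub hy), ← hf0] at h4
        exact h4
      · rintro _ ⟨t, ht, rfl⟩
        refine ⟨cadd C t z, by rw [hparz, ht]; rfl, ?_⟩
        rw [← hf0, RT_QQ, RT_QQ, RT_QQ, cadd_assoc]
    obtain ⟨F, hF, hflip⟩ := exists_flip ξ ν hC hO μ f0 h3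
    refine no_flip (hξ F hF) fun s k => ?_
    simp only [Set.mem_ofPred_eq, hflip s k]
    cases par ξ (F s) <;> simp
  · -- the disjoint case
    obtain ⟨y, hy⟩ := hne
    obtain ⟨f0, hf0⟩ := hsub hy
    have hA : ∀ t : C.ops 2, par ξ t = false → QQ ν (cadd C f0 t) ∈ M := by
      intro t ht
      rw [← RT_QQ, hf0]
      exact hinv t ht y hy
    have hB : ∀ t : C.ops 2, par ξ t = true → QQ ν (cadd C f0 t) ∈ Mz := by
      intro t ht
      have h1 := hA (cadd C t z) (by rw [hparz, ht]; rfl)
      refine ⟨_, h1, ?_⟩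
      rw [RT_QQ, cadd_assoc, hz, cadd_c1_c1]
    have hcadd : Continuous (fun t : C.ops 2 => cadd C f0 t) := by
      refine Continuous.subtype_mk (continuous_pi fun x => ?_) _
      refine (continuous_of_discreteTopology (f := fun p : Fin 2 → Ω => f0.1 p)).comp
        (g := fun p : Fin 2 → Ω => f0.1 p) (f := fun t : C.ops 2 => hat t.1 x) ?_
      refine continuous_pi fun i => ?_
      fin_cases i
      · exact (continuous_apply x).comp continuous_subtype_val
      · exact (continuous_apply (sw x)).comp continuous_subtype_val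
    have hcont : Continuous (fun t : C.ops 2 => QQ ν (cadd C f0 t)) :=
      (continuous_QQ ν).comp hcadd
    constructor
    · have : {f : C.ops 2 | par ξ f = true} = (fun t : C.ops 2 => QQ ν (cadd C f0 t)) ⁻¹' Mz := by
        ext t
        constructor
        · exact fun ht => hB t ht
        · intro ht
          by_contra hne'
          have hf : par ξ t = false := by simpa using hne'
          exact hdisj ⟨_, hA t hf, ht⟩
      rw [this]
      exact hMzF.2.1.preimage hcont
    · have : {f : C.ops 2 | par ξ f = false} = (fun t : C.ops 2 => QQ ν (cadd C f0 t)) ⁻¹' M := by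
        ext t
        constructor
        · exact fun ht => hA t ht
        · intro ht
          by_contra hne'
          have hf : par ξ t = true := by simpa using hne'
          exact hdisj ⟨_, ht, hB t hf⟩
      rw [this]
      exact hcl.preimage hcont

end Pool.Agent.helper31.Clones
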