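import Mathlib

/-!
Basic facts about the shift on configurations `Γ → X` and about independence of local events
under an i.i.d. measure, together with a second moment inequality.
-/

open MeasureTheory ProbabilityTheory Set Filter
open scoped ENNReal Topology

namespace Fiid

variable {Γ : Type*} [Group Γ] {X Y : Type*}

/-- The shift: `(γ · x)(δ) = x(δ γ)`. -/
def sh (γ : Γ) (x : Γ → X) : Γ → X := fun δ => x (δ * γ)

/-- The shift as a group action. -/
@[reducible] def shAction : MulAction Γ (Γ → X) where
  smul := sh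
  one_smul x := by funext δ; show x (δ * 1) = x δ; rw [mul_one]
  mul_smul γ γ' x := by
    funext δ
    show x (δ * (γ * γ')) = x (δ * γ * γ')
    rw [mul_assoc]

attribute [local instance] shAction

@[simp] lemma smul_cfg (γ : Γ) (x : Γ → X) (δ : Γ) : (γ • x) δ = x (δ * γ) := rfl

section iid

variable [MeasurableSpace X]

/-- The i.i.d. measure on configurations. -/
noncomputable def iid (Γ : Type*) (μ : Measure X) [IsProbabilityMeasure μ] :
    Measure (Γ → X) := Measure.infinitePi (fun _ : Γ => μ)

instance iid_prob (Γ : Type*) (μ : Measure X) [IsProbabilityMeasure μ] :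
    IsProbabilityMeasure (iid Γ μ) := by
  unfold iid; infer_instance

lemma measurable_smul_cfg (γ : Γ) : Measurable (fun x : Γ → X => γ • x) := by
  refine measurable_pi_iff.2 fun δ => ?_
  exact measurable_pi_apply (δ * γ)

lemma mp_smul_cfg (μ : Measure X) [IsProbabilityMeasure μ] (γ : Γ) :
    MeasurePreserving (fun x : Γ → X => γ • x) (iid Γ μ) (iid Γ μ) := by
  refine ⟨measurable_smul_cfg γ, ?_⟩
  have h := Measure.map_infinitePi_infinitePi_of_inj (P := fun _ : Γ => μ)
    (f := fun δ : Γ => δ * γ) (mul_left_injective γ)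
  exact h

lemma nonempty_cfg {ι : Type*} (μ : Measure X) [IsProbabilityMeasure μ] : Nonempty (ι → X) := by
  by_contra h
  rw [not_nonempty_iff] at h
  have := measure_univ (μ := iid ι μ)
  rw [univ_eq_empty_iff.2 h, measure_empty] at this
  exact zero_ne_one this

lemma measurable_ext {ι : Type*} (S : Finset ι) [DecidableEq ι] (x0 : ι → X) :
    Measurable (fun (t : S → X) (i : ι) => if h : i ∈ S then t ⟨i, h⟩ else x0 i) := by
  refine measurable_pi_iff.2 fun i => ?_
  by_cases h : i ∈ S
  · simp only [h, dite_true]; exact measurable_pi_apply _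
  · simp only [h, dite_false]; exact measurable_const

/-- Events depending on disjoint finite sets of coordinates are independent. -/
lemma indep_two {ι : Type*} (μ : Measure X) [IsProbabilityMeasure μ] {E E' : Set (ι → X)}
    {S S' : Finset ι} (hS : Disjoint S S') (hE : MeasurableSet E) (hE' : MeasurableSet E')
    (hd : DependsOn (fun x => x ∈ E) (S : Set ι)) (hd' : DependsOn (fun x => x ∈ E') (S' : Set ι)) :
    iid ι μ (E ∩ E') = iid ι μ E * iid ι μ E' := by
  classical
  obtain ⟨x0⟩ := nonempty_cfg (ι := ι) μ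
  have hc : iIndepFun (fun (i : ι) (ω : ι → X) => ω i) (iid ι μ) :=
    iIndepFun_infinitePi (P := fun _ : ι => μ) (X := fun _ ω => ω) (fun _ => measurable_id)
  have h2 := hc.indepFun_finset S S' hS (fun i => measurable_pi_apply i)
  rw [indepFun_iff_measure_inter_preimage_eq_mul] at h2
  have key : ∀ (T : Finset ι) (A : Set (ι → X)), MeasurableSet A →
      DependsOn (fun x => x ∈ A) (T : Set ι) →
      ∃ B : Set (T → X), MeasurableSet B ∧ A = (fun (x : ι → X) (i : T) => x i) ⁻¹' B := by
    intro T A hA hdA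
    refine ⟨(fun (t : T → X) (i : ι) => if h : i ∈ T then t ⟨i, h⟩ else x0 i) ⁻¹' A,
      measurable_ext T x0 hA, ?_⟩
    ext x
    have := hdA (x := x) (y := fun i => if h : i ∈ T then x i else x0 i)
      (fun i hi => by simp [Finset.mem_coe.1 hi])
    simp only [mem_preimage]
    exact this.to_iff
  obtain ⟨B, hB, rfl⟩ := key S E hE hd
  obtain ⟨B', hB', rfl⟩ := key S' E' hE' hd'
  exact h2 B B' hB hB'

omit [MeasurableSpace X] in
lemma dependsOn_inter {ι : Type*} {E E' : Set (ι → X)} {S S' : Set ι}
    (hd : DependsOn (fun x => x ∈ E) S) (hd' : DependsOn (fun x => x ∈ E') S') :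
    DependsOn (fun x => x ∈ E ∩ E') (S ∪ S') := by
  intro x y hxy
  have h1 : (x ∈ E) = (y ∈ E) := hd (fun i hi => hxy i (Or.inl hi))
  have h2 : (x ∈ E') = (y ∈ E') := hd' (fun i hi => hxy i (Or.inr hi))
  simp only [mem_inter_iff]
  rw [h1, h2]

/-- Functions of disjoint finite sets of coordinates are independent. -/
lemma iIndepFun_local {ι β : Type*} (μ : Measure X) [IsProbabilityMeasure μ]
    {A : β → Type*} [mA : ∀ b, MeasurableSpace (A b)]
    (S : β → Finset ι) (hS : Pairwise (fun b b' => Disjoint (S b) (S b')))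
    (F : ∀ b, (ι → X) → A b) (hm : ∀ b, Measurable (F b))
    (hd : ∀ b, DependsOn (F b) (S b : Set ι)) :
    iIndepFun F (iid ι μ) := by
  classical
  rw [iIndepFun_iff_measure_inter_preimage_eq_mul]
  intro T sets hsets
  have key : ∀ T : Finset β, (∀ i ∈ T, MeasurableSet (sets i)) →
      (MeasurableSet (⋂ i ∈ T, F i ⁻¹' sets i) ∧
      DependsOn (fun x => x ∈ ⋂ i ∈ T, F i ⁻¹' sets i) ((T.biUnion S : Finset ι) : Set ι)) ∧
      (iid ι μ) (⋂ i ∈ T, F i ⁻¹' sets i) = ∏ i ∈ T, (iid ι μ) (F i ⁻¹' sets i) := by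
    intro T
    induction T using Finset.induction_on with
    | empty =>
      intro _
      refine ⟨⟨by simp, ?_⟩, by simp⟩
      intro x y _; simp
    | insert b T hb ih =>
      intro hT
      obtain ⟨⟨i1, i2⟩, i3⟩ := ih (fun i hi => hT i (Finset.mem_insert_of_mem hi))
      have e : (⋂ i ∈ insert b T, F i ⁻¹' sets i)
          = F b ⁻¹' sets b ∩ ⋂ i ∈ T, F i ⁻¹' sets i := by
        rw [Finset.set_biInter_insert]
      have m1 : MeasurableSet (F b ⁻¹' sets b) := hm b (hT b (Finset.mem_insert_self b T))
      have d1 : DependsOn (fun x => x ∈ F b ⁻¹' sets b) (S b : Set ι) := by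
        intro x y hxy
        simp only [mem_preimage]
        rw [hd b hxy]
      refine ⟨⟨?_, ?_⟩, ?_⟩
      · rw [e]; exact m1.inter i1
      · rw [e, Finset.biUnion_insert, Finset.coe_union]
        exact dependsOn_inter d1 i2
      · rw [e, indep_two μ ?_ m1 i1 d1 i2, i3, Finset.prod_insert hb]
        rw [Finset.disjoint_biUnion_right]
        intro c hc
        apply hS
        rintro rfl
        exact hb hc
  exact (key T hsets).2

/-- Approximation of a measurable event by a local event. -/
lemma exists_local_approx {ι : Type*} (μ : Measure X) [IsProbabilityMeasure μ]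
    {A : Set (ι → X)} (hA : MeasurableSet A) {ε : ℝ≥0∞} (hε : 0 < ε) :
    ∃ (B : Set (ι → X)) (S : Finset ι), MeasurableSet B ∧
      DependsOn (fun x => x ∈ B) (S : Set ι) ∧ iid ι μ (symmDiff B A) < ε := by
  have hr : IsSetRing (measurableCylinders (fun _ : ι => X)) :=
    { empty_mem := empty_mem_measurableCylinders _
      union_mem := fun s t hs ht => union_mem_measurableCylinders hs ht
      sdiff_mem := fun s t hs ht => sdiff_mem_measurableCylinders hs ht }
  obtain ⟨B, hB, h⟩ := exists_measure_symmDiff_lt_of_generateFrom_isSetRing (μ := iid ι μ) hr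
    ⟨{univ}, countable_singleton _, by
      simpa using univ_mem_measurableCylinders (fun _ : ι => X), by simp⟩
    generateFrom_measurableCylinders.symm hA hε
  obtain ⟨S, T, hT, rfl⟩ := (mem_measurableCylinders B).1 hB
  refine ⟨cylinder S T, S, hT.cylinder, ?_, h⟩
  intro x y hxy
  simp only [mem_cylinder]
  have : S.restrict x = S.restrict y := by
    funext i
    exact hxy i i.2
  rw [this]

end iid

/-- Sparse finite subsets of an infinite group. -/
lemma exists_sparse {Γ : Type*} [Group Γ] [Infinite Γ] (D : Finset Γ) (n : ℕ) :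
    ∃ s : Finset Γ, s.card = n ∧ ∀ a ∈ s, ∀ b ∈ s, a ≠ b → a * b⁻¹ ∉ D := by
  classical
  induction n with
  | zero => exact ⟨∅, rfl, by simp⟩
  | succ n ih =>
    obtain ⟨s, hs, h⟩ := ih
    obtain ⟨a, ha⟩ := Infinite.exists_notMem_finset
      (s ∪ (D ×ˢ s).image (fun p => p.1 * p.2) ∪ (D ×ˢ s).image (fun p => p.1⁻¹ * p.2))
    simp only [Finset.mem_union, Finset.mem_image, Finset.mem_product, not_or, not_exists,
      not_and, Prod.forall] at ha
    obtain ⟨⟨h1, h2⟩, h3⟩ := ha
    refine ⟨insert a s, by rw [Finset.card_insert_of_notMem h1, hs], ?_⟩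
    intro b hb c hc hbc hD
    rw [Finset.mem_insert] at hb hc
    rcases hb with rfl | hb <;> rcases hc with rfl | hc
    · exact hbc rfl
    · exact h2 (b * c⁻¹) c ⟨hD, hc⟩ (by group)
    · exact h3 (b * c⁻¹) b ⟨hD, hb⟩ (by group)
    · exact h b hb c hc hbc hD

/-- Second moment inequality for the number of events that happen. -/
lemma second_moment {Ω ι : Type*} [MeasurableSpace Ω] (P : Measure Ω) [IsProbabilityMeasure P]
    (s : Finset ι) (E : ι → Set Ω) (hE : ∀ i ∈ s, MeasurableSet (E i)) {a : ℝ} (ha : 0 < a) :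
    P.real {ω | a ≤ |(∑ i ∈ s, (E i).indicator (fun _ => (1 : ℝ)) ω) - ∑ i ∈ s, P.real (E i)|}
      ≤ (∑ i ∈ s, ∑ j ∈ s, (P.real (E i ∩ E j) - P.real (E i) * P.real (E j))) / a ^ 2 := by
  set f : Ω → ℝ := fun ω => ∑ i ∈ s, ((E i).indicator (fun _ => (1 : ℝ)) ω - P.real (E i)) with hf
  have hfe : ∀ ω, (∑ i ∈ s, (E i).indicator (fun _ => (1 : ℝ)) ω) - ∑ i ∈ s, P.real (E i)
      = f ω := by
    intro ω; rw [hf]; simp only [Finset.sum_sub_distrib]
  simp only [hfe]
  have hmi : ∀ i ∈ s, Measurable (fun ω => (E i).indicator (fun _ => (1 : ℝ)) ω - P.real (E i)) :=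
    fun i hi => (measurable_const.indicator (hE i hi)).sub measurable_const
  have hbi : ∀ i, ∀ ω, |(E i).indicator (fun _ => (1 : ℝ)) ω - P.real (E i)| ≤ 1 := by
    intro i ω
    have h1 : 0 ≤ P.real (E i) := measureReal_nonneg
    have h2 : P.real (E i) ≤ 1 := measureReal_le_one
    by_cases h : ω ∈ E i
    · rw [indicator_of_mem h, abs_le]; constructor <;> linarith
    · rw [indicator_of_notMem h, abs_le]; constructor <;> linarith
  have hint : ∀ i ∈ s, ∀ j ∈ s, Integrable (fun ω => ((E i).indicator (fun _ => (1 : ℝ)) ω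
      - P.real (E i)) * ((E j).indicator (fun _ => (1 : ℝ)) ω - P.real (E j))) P := by
    intro i hi j hj
    refine Integrable.of_bound ((hmi i hi).mul (hmi j hj)).aestronglyMeasurable 1 ?_
    refine Eventually.of_forall fun ω => ?_
    rw [Real.norm_eq_abs, abs_mul]
    exact mul_le_one₀ (hbi i ω) (abs_nonneg _) (hbi j ω)
  have hsq : ∀ ω, (f ω) ^ 2 = ∑ i ∈ s, ∑ j ∈ s, ((E i).indicator (fun _ => (1 : ℝ)) ω
      - P.real (E i)) * ((E j).indicator (fun _ => (1 : ℝ)) ω - P.real (E j)) := by
    intro ω
    rw [hf, pow_two, Finset.sum_mul_sum]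
  have hI : ∫ ω, (f ω) ^ 2 ∂P
      = ∑ i ∈ s, ∑ j ∈ s, (P.real (E i ∩ E j) - P.real (E i) * P.real (E j)) := by
    simp only [hsq]
    rw [integral_finsetSum _ (fun i hi => integrable_finsetSum _ (fun j hj => hint i hi j hj))]
    refine Finset.sum_congr rfl fun i hi => ?_
    rw [integral_finsetSum _ (fun j hj => hint i hi j hj)]
    refine Finset.sum_congr rfl fun j hj => ?_
    have i1 : Integrable (fun ω => (E i).indicator (fun _ => (1 : ℝ)) ω) P :=
      (integrable_const 1).indicator (hE i hi)
    have i2 : Integrable (fun ω => (E j).indicator (fun _ => (1 : ℝ)) ω) P :=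
      (integrable_const 1).indicator (hE j hj)
    have i3 : Integrable (fun ω => (E i ∩ E j).indicator (fun _ => (1 : ℝ)) ω) P :=
      (integrable_const 1).indicator ((hE i hi).inter (hE j hj))
    have e : ∀ ω, ((E i).indicator (fun _ => (1 : ℝ)) ω - P.real (E i))
        * ((E j).indicator (fun _ => (1 : ℝ)) ω - P.real (E j))
        = (E i ∩ E j).indicator (fun _ => (1 : ℝ)) ω
          - P.real (E j) * (E i).indicator (fun _ => (1 : ℝ)) ω
          - P.real (E i) * (E j).indicator (fun _ => (1 : ℝ)) ω
          + P.real (E i) * P.real (E j) := by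
      intro ω
      by_cases h1 : ω ∈ E i <;> by_cases h2 : ω ∈ E j
      · rw [indicator_of_mem h1, indicator_of_mem h2, indicator_of_mem (show ω ∈ E i ∩ E j from ⟨h1, h2⟩)]
        ring
      · rw [indicator_of_mem h1, indicator_of_notMem h2,
          indicator_of_notMem (show ω ∉ E i ∩ E j from fun h => h2 h.2)]
        ring
      · rw [indicator_of_notMem h1, indicator_of_mem h2,
          indicator_of_notMem (show ω ∉ E i ∩ E j from fun h => h1 h.1)]
        ring
      · rw [indicator_of_notMem h1, indicator_of_notMem h2,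
          indicator_of_notMem (show ω ∉ E i ∩ E j from fun h => h1 h.1)]
        ring
    simp only [e]
    rw [integral_add, integral_sub, integral_sub, integral_const_mul, integral_const_mul,
      integral_indicator_const _ (hE i hi), integral_indicator_const _ (hE j hj),
      integral_indicator_const _ ((hE i hi).inter (hE j hj)), integral_const]
    · simp only [smul_eq_mul, mul_one, probReal_univ, one_mul]; ring
    · exact i3
    · exact i1.const_mul _
    · exact i3.sub (i1.const_mul _)
    · exact i2.const_mul _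
    · exact (i3.sub (i1.const_mul _)).sub (i2.const_mul _)
    · exact integrable_const _
  have hfint : Integrable (fun ω => (f ω) ^ 2) P := by
    simp only [hsq]
    exact integrable_finsetSum _ (fun i hi => integrable_finsetSum _ (fun j hj => hint i hi j hj))
  have hmark := mul_meas_ge_le_integral_of_nonneg (μ := P) (f := fun ω => (f ω) ^ 2)
    (Eventually.of_forall fun ω => sq_nonneg _) hfint (a ^ 2)
  rw [hI] at hmark
  have hset : {ω | a ≤ |f ω|} = {ω | a ^ 2 ≤ (f ω) ^ 2} := by
    ext ω
    simp only [mem_ofPred_eq]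
    rw [← sq_abs (f ω)]
    exact (sq_le_sq₀ ha.le (abs_nonneg _)).symm
  rw [hset, le_div_iff₀ (by positivity), mul_comm]
  exact hmark

/-- Concentration for events with few dependences. -/
lemma concentration {Ω ι : Type*} [MeasurableSpace Ω] (P : Measure Ω) [IsProbabilityMeasure P]
    (s : Finset ι) (E : ι → Set Ω) (hE : ∀ i ∈ s, MeasurableSet (E i))
    (rel : ι → ι → Prop) [DecidableRel rel]
    (hrel : ∀ i ∈ s, ∀ j ∈ s, ¬ rel i j → P (E i ∩ E j) = P (E i) * P (E j))
    (D : ℕ) (hD : ∀ i ∈ s, (s.filter (rel i)).card ≤ D) {a : ℝ} (ha : 0 < a) :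
    P.real {ω | a ≤ |(∑ i ∈ s, (E i).indicator (fun _ => (1 : ℝ)) ω) - ∑ i ∈ s, P.real (E i)|}
      ≤ (D * s.card : ℝ) / a ^ 2 := by
  refine (second_moment P s E hE ha).trans ?_
  gcongr
  calc ∑ i ∈ s, ∑ j ∈ s, (P.real (E i ∩ E j) - P.real (E i) * P.real (E j))
      ≤ ∑ i ∈ s, ∑ j ∈ s, (if rel i j then (1 : ℝ) else 0) := by
        refine Finset.sum_le_sum fun i hi => Finset.sum_le_sum fun j hj => ?_
        split_ifs with h
        · have h1 : P.real (E i ∩ E j) ≤ 1 := measureReal_le_one
          have h2 : 0 ≤ P.real (E i) * P.real (E j) := by positivity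
          linarith
        · have := hrel i hi j hj h
          rw [Measure.real, Measure.real, Measure.real, this, ENNReal.toReal_mul, sub_self]
    _ ≤ ∑ i ∈ s, (D : ℝ) := by
        refine Finset.sum_le_sum fun i hi => ?_
        rw [← Finset.sum_filter, Finset.sum_const, nsmul_eq_mul, mul_one]
        exact_mod_cast hD i hi
    _ = D * s.card := by rw [Finset.sum_const, nsmul_eq_mul, mul_comm]

lemma integral_abs_le {Ω : Type*} [MeasurableSpace Ω] (P : Measure Ω) [IsProbabilityMeasure P]
    {h : Ω → ℝ} (hm : Measurable h) (hb : ∀ ω, |h ω| ≤ 1) {a : ℝ} (ha : 0 ≤ a) :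
    ∫ ω, |h ω| ∂P ≤ a + P.real {ω | a ≤ |h ω|} := by
  have hms : MeasurableSet {ω | a ≤ |h ω|} :=
    measurableSet_le measurable_const (continuous_abs.measurable.comp hm)
  have h1 : Integrable (fun ω => |h ω|) P :=
    Integrable.of_bound (continuous_abs.measurable.comp hm).aestronglyMeasurable 1
      (Eventually.of_forall fun ω => by simpa using hb ω)
  have h2 : Integrable (fun ω => a + {ω | a ≤ |h ω|}.indicator (fun _ => (1 : ℝ)) ω) P :=
    (integrable_const a).add ((integrable_const 1).indicator hms)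
  calc ∫ ω, |h ω| ∂P ≤ ∫ ω, (a + {ω | a ≤ |h ω|}.indicator (fun _ => (1 : ℝ)) ω) ∂P := by
        refine integral_mono h1 h2 fun ω => ?_
        by_cases hω : ω ∈ {ω | a ≤ |h ω|}
        · simp only [indicator_of_mem hω]
          have := hb ω
          linarith
        · simp only [indicator_of_notMem hω]
          simp only [mem_ofPred_eq, not_le] at hω
          linarith
    _ = a + P.real {ω | a ≤ |h ω|} := by
        rw [integral_add (integrable_const a) ((integrable_const 1).indicator hms),
          integral_indicator_const _ hms]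
        simp

lemma mp_integral {Ω Ω' : Type*} [MeasurableSpace Ω] [MeasurableSpace Ω'] {P : Measure Ω}
    {P' : Measure Ω'} {T : Ω → Ω'} (hT : MeasurePreserving T P P') {g : Ω' → ℝ}
    (hg : Measurable g) : ∫ ω, g (T ω) ∂P = ∫ ω, g ω ∂P' := by
  rw [← hT.map_eq, integral_map hT.measurable.aemeasurable hg.aestronglyMeasurable]

/-- Mean ergodicity along suitable finite sets. -/
def Mix (Γ : Type*) {Ω : Type*} [Group Γ] [MulAction Γ Ω] [MeasurableSpace Ω]
    (P : Measure Ω) : Prop :=
  ∀ A : Set Ω, MeasurableSet A → ∀ ε : ℝ, 0 < ε → ∃ G : Finset Γ, G.Nonempty ∧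
    ∫ ω, |(∑ γ ∈ G, A.indicator (fun _ => (1 : ℝ)) (γ • ω)) / (G.card : ℝ) - P.real A| ∂P ≤ ε

lemma mix_of_factor {Γ Ω Ω' : Type*} [Group Γ] [MulAction Γ Ω] [MulAction Γ Ω']
    [MeasurableSpace Ω] [MeasurableSpace Ω'] {P : Measure Ω} {P' : Measure Ω'}
    (hsm : ∀ γ : Γ, Measurable (fun ω : Ω => γ • ω))
    (h : Mix Γ P') (O : Ω' → Ω) (hO : MeasurePreserving O P' P)
    (he : ∀ (γ : Γ) ω, O (γ • ω) = γ • O ω) : Mix Γ P := by
  intro A hA ε hε
  obtain ⟨G, hG, h1⟩ := h (O ⁻¹' A) (hO.measurable hA) ε hε
  refine ⟨G, hG, ?_⟩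
  have hms : Measurable (fun ω =>
      |(∑ γ ∈ G, A.indicator (fun _ => (1 : ℝ)) (γ • ω)) / (G.card : ℝ) - P.real A|) := by
    refine continuous_abs.measurable.comp (Measurable.sub_const (Measurable.div_const ?_ _) _)
    refine Finset.measurable_fun_sum _ fun γ _ => ?_
    exact (measurable_const.indicator hA).comp (hsm γ)
  rw [← mp_integral hO hms]
  refine le_of_eq_of_le ?_ h1
  have e1 : P'.real (O ⁻¹' A) = P.real A := by
    rw [Measure.real, Measure.real, hO.measure_preimage hA.nullMeasurableSet]
  rw [e1]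
  refine integral_congr_ae (Eventually.of_forall fun ω => ?_)
  have e2 : ∀ γ : Γ, (O ⁻¹' A).indicator (fun _ => (1 : ℝ)) (γ • ω)
      = A.indicator (fun _ => (1 : ℝ)) (γ • O ω) := by
    intro γ
    by_cases h : γ • O ω ∈ A
    · rw [indicator_of_mem h, indicator_of_mem (show γ • ω ∈ O ⁻¹' A by
        rw [mem_preimage, he]; exact h)]
    · rw [indicator_of_notMem h, indicator_of_notMem (show γ • ω ∉ O ⁻¹' A by
        rw [mem_preimage, he]; exact h)]
  simp only [e2]

lemma integrable_bdd {Ω : Type*} [MeasurableSpace Ω] {P : Measure Ω} [IsFiniteMeasure P]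
    {f : Ω → ℝ} (hm : Measurable f) (C : ℝ) (hb : ∀ ω, |f ω| ≤ C) : Integrable f P :=
  Integrable.of_bound hm.aestronglyMeasurable C (Eventually.of_forall fun ω => by
    simpa using hb ω)

lemma abs_ind_le {Ω : Type*} (C : Set Ω) (ω : Ω) :
    |C.indicator (fun _ => (1 : ℝ)) ω| ≤ 1 := by
  by_cases h : ω ∈ C <;> simp [indicator, h]

lemma mix_iid {Γ X : Type*} [Group Γ] [Infinite Γ] [MeasurableSpace X] (μ : Measure X)
    [IsProbabilityMeasure μ] : Mix Γ (iid Γ μ) := by
  classical
  intro A hA ε hε
  obtain ⟨B, S, hB, hBS, hBA⟩ := exists_local_approx μ hA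
    (ε := ENNReal.ofReal (ε / 4)) (by simpa using by positivity)
  obtain ⟨n, hn⟩ := exists_nat_gt (max 1 ((ε / 4)⁻¹ * ((ε / 4)⁻¹ ^ 2)))
  have hn1 : (1 : ℝ) < n := (le_max_left _ _).trans_lt hn
  have hn2 : (ε / 4)⁻¹ * ((ε / 4)⁻¹ ^ 2) < n := (le_max_right _ _).trans_lt hn
  obtain ⟨G, hGn, hG⟩ := exists_sparse (Γ := Γ) ((S ×ˢ S).image (fun p => p.1⁻¹ * p.2)) n
  have hGc : (G.card : ℝ) = n := by rw [hGn]
  have hGpos : (0 : ℝ) < G.card := by rw [hGc]; linarith
  refine ⟨G, Finset.card_pos.1 (by exact_mod_cast hGpos), ?_⟩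
  set P := iid Γ μ with hP
  have hsym : P.real (symmDiff B A) ≤ ε / 4 := by
    rw [Measure.real]
    exact ENNReal.toReal_le_of_le_ofReal (by positivity) hBA.le
  have hsm : MeasurableSet (symmDiff B A) := hB.symmDiff hA
  have hpt : ∀ ω, |A.indicator (fun _ => (1 : ℝ)) ω - B.indicator (fun _ => (1 : ℝ)) ω|
      ≤ (symmDiff B A).indicator (fun _ => (1 : ℝ)) ω := by
    intro ω
    by_cases h1 : ω ∈ A <;> by_cases h2 : ω ∈ B <;>
      simp [indicator, h1, h2, mem_symmDiff]
  have hmi : ∀ (C : Set (Γ → X)), MeasurableSet C → ∀ γ : Γ,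
      Measurable (fun ω : Γ → X => C.indicator (fun _ => (1 : ℝ)) (γ • ω)) := by
    intro C hC γ
    exact (measurable_const.indicator hC).comp (measurable_smul_cfg γ)
  have hintg : ∀ (C : Set (Γ → X)), MeasurableSet C → ∀ γ : Γ,
      ∫ ω, C.indicator (fun _ => (1 : ℝ)) (γ • ω) ∂P = P.real C := by
    intro C hC γ
    rw [mp_integral (mp_smul_cfg μ γ) (measurable_const.indicator hC),
      integral_indicator_const _ hC]
    simp [hP]
  set a : (Γ → X) → ℝ := fun ω => (∑ γ ∈ G, A.indicator (fun _ => (1 : ℝ)) (γ • ω)) / G.card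
    with ha
  set b : (Γ → X) → ℝ := fun ω => (∑ γ ∈ G, B.indicator (fun _ => (1 : ℝ)) (γ • ω)) / G.card
    with hb
  have hma : Measurable a := Measurable.div_const
    (Finset.measurable_fun_sum _ fun γ _ => hmi A hA γ) _
  have hmb : Measurable b := Measurable.div_const
    (Finset.measurable_fun_sum _ fun γ _ => hmi B hB γ) _
  have avg_le : ∀ (C : Set (Γ → X)) (ω : Γ → X),
      0 ≤ (∑ γ ∈ G, C.indicator (fun _ => (1 : ℝ)) (γ • ω)) / (G.card : ℝ) ∧
      (∑ γ ∈ G, C.indicator (fun _ => (1 : ℝ)) (γ • ω)) / (G.card : ℝ) ≤ 1 := by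
    intro C ω
    refine ⟨div_nonneg (Finset.sum_nonneg fun γ _ => indicator_nonneg (fun _ _ => zero_le_one) _)
      hGpos.le, ?_⟩
    rw [div_le_one hGpos]
    calc ∑ γ ∈ G, C.indicator (fun _ => (1 : ℝ)) (γ • ω) ≤ ∑ γ ∈ G, (1 : ℝ) :=
          Finset.sum_le_sum fun γ _ => (le_abs_self _).trans (abs_ind_le C _)
      _ = G.card := by simp
  -- step 1: a close to b
  have h1 : ∫ ω, |a ω - b ω| ∂P ≤ ε / 4 := by
    have hle : ∀ ω, |a ω - b ω|
        ≤ (∑ γ ∈ G, (symmDiff B A).indicator (fun _ => (1 : ℝ)) (γ • ω)) / G.card := by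
      intro ω
      rw [ha, hb]
      simp only
      rw [← sub_div, abs_div, abs_of_pos hGpos, ← Finset.sum_sub_distrib]
      gcongr
      exact (Finset.abs_sum_le_sum_abs _ _).trans (Finset.sum_le_sum fun γ _ => hpt _)
    calc ∫ ω, |a ω - b ω| ∂P
        ≤ ∫ ω, (∑ γ ∈ G, (symmDiff B A).indicator (fun _ => (1 : ℝ)) (γ • ω)) / G.card ∂P := by
          refine integral_mono ?_ ?_ hle
          · refine integrable_bdd (continuous_abs.measurable.comp (hma.sub hmb)) 1 fun ω => ?_
            rw [abs_abs, abs_le]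
            have h1 := avg_le A ω
            have h2 := avg_le B ω
            simp only [ha, hb]
            constructor <;> linarith [h1.1, h1.2, h2.1, h2.2]
          · refine integrable_bdd (Measurable.div_const
              (Finset.measurable_fun_sum _ fun γ _ => hmi _ hsm γ) _) 1 fun ω => ?_
            rw [abs_of_nonneg (avg_le _ ω).1]
            exact (avg_le _ ω).2
      _ = P.real (symmDiff B A) := by
          rw [integral_div, integral_finsetSum _ (fun γ _ => integrable_bdd (hmi _ hsm γ) 1
            (fun ω => abs_ind_le _ _))]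
          simp only [hintg _ hsm]
          rw [Finset.sum_const, nsmul_eq_mul]
          field_simp
      _ ≤ ε / 4 := hsym
  -- step 2: b close to P B
  have h2 : ∫ ω, |b ω - P.real B| ∂P ≤ ε / 4 + ε / 4 := by
    refine (integral_abs_le P (hmb.sub_const _) (fun ω => ?_) (a := ε / 4)
      (by positivity)).trans ?_
    · have h1 := avg_le B ω
      have h2 : 0 ≤ P.real B := measureReal_nonneg
      have h3 : P.real B ≤ 1 := measureReal_le_one
      simp only [hb]
      rw [abs_le]
      constructor <;> linarith [h1.1, h1.2]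
    · gcongr
      have hEm : ∀ γ ∈ G, MeasurableSet {ω : Γ → X | γ • ω ∈ B} := fun γ _ =>
        (measurable_smul_cfg γ) hB
      have hPE : ∀ γ : Γ, P {ω : Γ → X | γ • ω ∈ B} = P B := fun γ =>
        (mp_smul_cfg μ γ).measure_preimage hB.nullMeasurableSet
      have hdep : ∀ γ : Γ, DependsOn (fun x => x ∈ {ω : Γ → X | γ • ω ∈ B})
          ((S.image (fun δ => δ * γ) : Finset Γ) : Set Γ) := by
        intro γ x y hxy
        have : (γ • x ∈ B) = (γ • y ∈ B) := hBS (fun i hi => hxy (i * γ) (by
          simp only [Finset.coe_image, mem_image, Finset.mem_coe] at hi ⊢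
          exact ⟨i, hi, rfl⟩))
        exact this
      have hc := concentration P G (fun γ => {ω : Γ → X | γ • ω ∈ B}) hEm (fun γ γ' => γ = γ')
        (fun γ hγ γ' hγ' hne => by
          refine indep_two μ ?_ (hEm γ hγ) (hEm γ' hγ') (hdep γ) (hdep γ')
          rw [Finset.disjoint_left]
          intro x hx hx'
          rw [Finset.mem_image] at hx hx'
          obtain ⟨δ, hδ, rfl⟩ := hx
          obtain ⟨δ', hδ', h⟩ := hx'
          refine hG γ hγ γ' hγ' hne ?_
          rw [Finset.mem_image]
          refine ⟨(δ, δ'), Finset.mem_product.2 ⟨hδ, hδ'⟩, ?_⟩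
          show δ⁻¹ * δ' = γ * γ'⁻¹
          rw [inv_mul_eq_iff_eq_mul, ← mul_assoc, ← h]
          group) 1 (fun γ _ => by
          rw [Finset.card_le_one]
          intro x hx y hy
          rw [Finset.mem_filter] at hx hy
          rw [← hx.2, ← hy.2]) (a := ε / 4 * G.card) (by positivity)
      refine (measureReal_mono ?_).trans (hc.trans ?_)
      · intro ω hω
        simp only [mem_ofPred_eq] at hω ⊢
        have e1 : ∑ i ∈ G, P.real {ω : Γ → X | i • ω ∈ B} = P.real B * G.card := by
          simp only [Measure.real, hPE]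
          rw [Finset.sum_const, nsmul_eq_mul, mul_comm]
        have e2 : (∑ γ ∈ G, {ω : Γ → X | γ • ω ∈ B}.indicator (fun _ => (1 : ℝ)) ω)
            = b ω * G.card := by
          simp only [hb]
          rw [div_mul_cancel₀ _ hGpos.ne']
          refine Finset.sum_congr rfl fun γ _ => ?_
          simp only [indicator, mem_ofPred_eq]
        rw [e1, e2, ← sub_mul, abs_mul, abs_of_pos hGpos]
        gcongr
      · rw [Nat.cast_one, one_mul, div_le_iff₀ (by positivity)]
        rw [hGc]
        have h4 : 0 < ε / 4 := by positivity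
        have h5 : (ε / 4)⁻¹ * (ε / 4)⁻¹ ^ 2 * (ε / 4) ^ 3 = 1 := by
          field_simp
        have h6 : 1 ≤ (n : ℝ) * (ε / 4) ^ 3 := by
          rw [← h5]
          gcongr
        calc (n : ℝ) = n * 1 := (mul_one _).symm
          _ ≤ n * (n * (ε / 4) ^ 3) := by gcongr
          _ = ε / 4 * (ε / 4 * n) ^ 2 := by ring
  have h3 : |P.real B - P.real A| ≤ ε / 4 := by
    have e : P.real B - P.real A = ∫ ω, (B.indicator (fun _ => (1 : ℝ)) ω
        - A.indicator (fun _ => (1 : ℝ)) ω) ∂P := by
      rw [integral_sub (integrable_bdd (measurable_const.indicator hB) 1 (abs_ind_le B))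
        (integrable_bdd (measurable_const.indicator hA) 1 (abs_ind_le A)),
        integral_indicator_const _ hA, integral_indicator_const _ hB]
      simp
    rw [e]
    refine (abs_integral_le_integral_abs).trans ?_
    refine le_trans ?_ hsym
    have e2 : P.real (symmDiff B A) = ∫ ω, (symmDiff B A).indicator (fun _ => (1 : ℝ)) ω ∂P := by
      rw [integral_indicator_const _ hsm]; simp
    rw [e2]
    refine integral_mono ?_ (integrable_bdd (measurable_const.indicator hsm) 1 (abs_ind_le _)) ?_
    · refine integrable_bdd (continuous_abs.measurable.comp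
        ((measurable_const.indicator hB).sub (measurable_const.indicator hA))) 1 fun ω => ?_
      rw [abs_abs, abs_sub_comm]
      exact (hpt ω).trans ((le_abs_self _).trans (abs_ind_le _ _))
    · intro ω
      simp only
      rw [abs_sub_comm]
      exact hpt ω
  calc ∫ ω, |a ω - P.real A| ∂P
      ≤ ∫ ω, (|a ω - b ω| + (|b ω - P.real B| + |P.real B - P.real A|)) ∂P := by
        have b1 : ∀ ω, |a ω - b ω| ≤ 1 := by
          intro ω
          have h1 := avg_le A ω
          have h2 := avg_le B ω
          simp only [ha, hb]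
          rw [abs_le]
          constructor <;> linarith [h1.1, h1.2, h2.1, h2.2]
        have b2 : ∀ (C : Set (Γ → X)) (ω : Γ → X),
            |(∑ γ ∈ G, C.indicator (fun _ => (1 : ℝ)) (γ • ω)) / (G.card : ℝ) - P.real C| ≤ 1 := by
          intro C ω
          have h1 := avg_le C ω
          have h2 : 0 ≤ P.real C := measureReal_nonneg
          have h3 : P.real C ≤ 1 := measureReal_le_one
          rw [abs_le]
          constructor <;> linarith [h1.1, h1.2]
        refine integral_mono ?_ ?_ fun ω => ?_
        · exact integrable_bdd (continuous_abs.measurable.comp (hma.sub_const _)) 1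
            (fun ω => by rw [abs_abs]; exact b2 A ω)
        · refine Integrable.add ?_ (Integrable.add ?_ (integrable_const _))
          · exact integrable_bdd (continuous_abs.measurable.comp (hma.sub hmb)) 1
              (fun ω => by rw [abs_abs]; exact b1 ω)
          · exact integrable_bdd (continuous_abs.measurable.comp (hmb.sub_const _)) 1
              (fun ω => by rw [abs_abs]; exact b2 B ω)
        · have : a ω - P.real A = (a ω - b ω) + ((b ω - P.real B) + (P.real B - P.real A)) := by
            ring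
          simp only
          rw [this]
          exact (abs_add_le _ _).trans (add_le_add_right (abs_add_le _ _) _)
    _ = ∫ ω, |a ω - b ω| ∂P + (∫ ω, |b ω - P.real B| ∂P + |P.real B - P.real A|) := by
        have b1 : ∀ ω, |a ω - b ω| ≤ 1 := by
          intro ω
          have h1 := avg_le A ω
          have h2 := avg_le B ω
          simp only [ha, hb]
          rw [abs_le]
          constructor <;> linarith [h1.1, h1.2, h2.1, h2.2]
        have b2 : ∀ (C : Set (Γ → X)) (ω : Γ → X),
            |(∑ γ ∈ G, C.indicator (fun _ => (1 : ℝ)) (γ • ω)) / (G.card : ℝ) - P.real C| ≤ 1 := by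
          intro C ω
          have h1 := avg_le C ω
          have h2 : 0 ≤ P.real C := measureReal_nonneg
          have h3 : P.real C ≤ 1 := measureReal_le_one
          rw [abs_le]
          constructor <;> linarith [h1.1, h1.2]
        have i1 : Integrable (fun ω => |a ω - b ω|) P :=
          integrable_bdd (continuous_abs.measurable.comp (hma.sub hmb)) 1
              (fun ω => by rw [abs_abs]; exact b1 ω)
        have i2 : Integrable (fun ω => |b ω - P.real B|) P :=
          integrable_bdd (continuous_abs.measurable.comp (hmb.sub_const _)) 1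
              (fun ω => by rw [abs_abs]; exact b2 B ω)
        have e3 : ∫ ω, (|b ω - P.real B| + |P.real B - P.real A|) ∂P
            = ∫ ω, |b ω - P.real B| ∂P + |P.real B - P.real A| := by
          rw [integral_add i2 (integrable_const _), integral_const]
          simp
        have i3 : Integrable (fun ω => |b ω - P.real B| + |P.real B - P.real A|) P :=
          i2.add (integrable_const _)
        rw [integral_add i1 i3, e3]
    _ ≤ ε / 4 + ((ε / 4 + ε / 4) + ε / 4) := by gcongr
    _ = ε := by ring

end Fiid
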