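import Pool.Agent.helper31.FiidPat

/-!
The sampler on one class of a higher level.
-/

open MeasureTheory ProbabilityTheory Set Filter
open scoped ENNReal Topology

namespace Fiid

attribute [local instance] shAction

section blk

variable {Γ : Type*} [Group Γ] {Ω : Type*} [MulAction Γ Ω] [MeasurableSpace Ω]
  {P : Measure Ω} (T : Tower Γ Ω P)

open Classical in
/-- The block of `γ` at level `k`. -/
noncomputable def Tower.blk (k : ℕ) (ω : Ω) (γ : Γ) : Finset Γ :=
  (T.cls k (γ • ω)).image (fun δ => δ * γ)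

lemma Tower.mem_blk {k : ℕ} {ω : Ω} {γ δ : Γ} :
    δ ∈ T.blk k ω γ ↔ δ * γ⁻¹ ∈ T.cls k (γ • ω) := by
  classical
  simp only [Tower.blk, Finset.mem_image]
  constructor
  · rintro ⟨a, ha, rfl⟩; simpa using ha
  · intro h; exact ⟨_, h, by simp⟩

lemma Tower.mul_mem_blk {k : ℕ} {ω : Ω} {γ δ : Γ} :
    δ * γ ∈ T.blk k ω γ ↔ δ ∈ T.cls k (γ • ω) := by
  rw [T.mem_blk]; simp

lemma Tower.self_mem_blk (k : ℕ) (ω : Ω) (γ : Γ) : γ ∈ T.blk k ω γ := by
  rw [T.mem_blk, mul_inv_cancel]; exact T.one_mem _ _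

lemma Tower.blk_eq {k : ℕ} {ω : Ω} {γ δ : Γ} (h : δ ∈ T.blk k ω γ) :
    T.blk k ω δ = T.blk k ω γ := by
  rw [T.mem_blk] at h
  ext κ
  rw [T.mem_blk, T.mem_blk]
  have := T.cls_smul k (γ • ω) (δ * γ⁻¹) h (κ * δ⁻¹)
  rw [smul_smul] at this
  simp only [inv_mul_cancel_right] at this
  rw [this]
  group

lemma Tower.blk_subset {k l : ℕ} (hkl : k ≤ l) {ω : Ω} {γ : Γ} (hγ : γ ∈ T.cls l ω) :
    T.blk k ω γ ⊆ T.cls l ω := by
  intro δ hδ
  rw [T.mem_blk] at hδ
  have := T.mono' hkl _ hδ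
  rw [T.cls_smul l ω γ hγ] at this
  simpa using this

end blk

lemma card_sub {Γ : Type*} (C : Finset Γ) (p : Γ → Prop) [DecidablePred p] :
    ((Finset.univ : Finset C).filter (fun i : C => p i.1)).card = (C.filter p).card := by
  classical
  refine Eq.trans (Finset.card_map (Function.Embedding.subtype (fun x => x ∈ C))).symm ?_
  congr 1
  ext x
  simp only [Finset.mem_map, Finset.mem_filter, Finset.mem_univ, true_and,
    Function.Embedding.subtype_apply]
  constructor
  · rintro ⟨a, ha, rfl⟩; exact ⟨a.2, ha⟩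
  · rintro ⟨h1, h2⟩; exact ⟨⟨x, h1⟩, h2, rfl⟩

lemma coin_atom {Γ : Type*} (q : Measure Bool) [IsProbabilityMeasure q] {θ : ℝ}
    (hθ : ∀ b, q.real {b} ≤ θ) (F : Finset Γ) (t : F → Bool) :
    (iid Γ q).real ((fun (y : Γ → Bool) (i : F) => y i) ⁻¹' {t}) ≤ θ ^ F.card := by
  classical
  have e : ((fun (y : Γ → Bool) (i : F) => y i) ⁻¹' {t})
      = Set.pi (F : Set Γ) (fun γ => if h : γ ∈ F then {t ⟨γ, h⟩} else univ) := by
    ext y
    simp only [mem_preimage, mem_singleton_iff, Set.mem_pi, Finset.mem_coe]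
    constructor
    · rintro rfl γ hγ
      simp [hγ]
    · intro h
      funext i
      have := h i.1 i.2
      simpa using this
  rw [e, Measure.real, iid, Measure.infinitePi_pi _ (fun i _ => MeasurableSet.of_discrete),
    ENNReal.toReal_prod, ← Finset.prod_const]
  refine Finset.prod_le_prod (fun i _ => ENNReal.toReal_nonneg) fun i hi => ?_
  rw [dif_pos hi]
  exact hθ _

section main

variable {Γ : Type*} [Group Γ] [Countable Γ] {Ω : Type*} [MulAction Γ Ω] [MeasurableSpace Ω]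
  {P : Measure Ω} (T : Tower Γ Ω P)
  {S Y : Type*} [MeasurableSpace Y] [Fintype S] [DecidableEq S] [MeasurableSpace S]
  [MeasurableSingletonClass S]

open Classical in
theorem class_sampler (a0 : S) (q : Measure Bool) [IsProbabilityMeasure q] (ν : Measure Y)
    [IsProbabilityMeasure ν] {k k' : ℕ} (hk : k ≤ k') (g : Ω → LocFun Γ S)
    (used fresh : Set Ω) (hdisj : Disjoint used fresh)
    (hdep : ∀ ω y y', (∀ γ ∈ T.cls k ω, γ • ω ∈ used → y γ = y' γ) → (g ω).1 y = (g ω).1 y')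
    (f f' : (Γ → Y) → S) (hf : Measurable f) (hf' : Measurable f') (B B1 : Finset Γ)
    (hfB : DependsOn f (B : Set Γ)) (hfB' : DependsOn f' (B1 : Set Γ))
    (V G : Set Ω) (hG : ∀ ω ∈ G, ∀ γ ∈ T.cls k ω, γ • ω ∈ G) (Λ : ℕ) {η : ℝ} (hη0 : 0 ≤ η)
    (hGΛ : ∀ ω ∈ G, (T.cls k ω).card ≤ Λ)
    (hTV : ∀ ω ∈ G, TV a0 q ν g f B V η ω (T.cls k ω))
    {R : ℝ} (hR : 0 < R) (hηR : η ≤ R / 16) (ω : Ω)
    (A1 : Set Ω) (hA1 : ∀ ω', ω' ∉ A1 → ω' ∈ G ∧ B ∪ B1 ⊆ T.cls k ω')
    (h1 : (((T.cls k' ω).filter (fun γ => γ • ω ∈ A1)).card : ℝ)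
      ≤ R / 16 * (T.cls k' ω).card)
    (h2 : (((T.cls k' ω).filter (fun γ => γ • ω ∈ V)).card : ℝ)
      * (iid Γ ν).real {w | f w ≠ f' w} ≤ R / 16 * (T.cls k' ω).card)
    {θ : ℝ} (hθ0 : 0 ≤ θ) (hθ1 : θ ≤ 1) (hθ : ∀ b, q.real {b} ≤ θ) (m : ℕ)
    (hm : m ≤ ((T.cls k' ω).filter (fun γ => γ • ω ∈ fresh)).card)
    {t : ℝ} (ht0 : 0 < t) (ht1 : t ≤ 1) :
    ∃ s : (Γ → Bool) → (Γ → S),
      (∀ y y', (∀ γ ∈ T.cls k' ω, γ • ω ∈ used ∪ fresh → y γ = y' γ) → s y = s y') ∧
      (∀ y, ∀ γ, γ ∉ T.cls k' ω → s y γ = a0) ∧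
      (∀ y, (((T.cls k' ω).filter (fun γ => s y γ ≠ (g (γ • ω)).1 (γ • y))).card : ℝ)
        ≤ R * (T.cls k' ω).card) ∧
      ∀ E : Set (Γ → S), MeasurableSet E →
        (iid Γ q).real {y | s y ∈ E} ≤ (iid Γ ν).real {w | fh a0 f' B1 V ω (T.cls k' ω) w ∈ E}
          + ((1 + Fintype.card S * t) ^ (T.cls k' ω).card
              * t ^ (-(R * (T.cls k' ω).card)) * θ ^ m
            + 16 * (Λ + ((B ∪ B1).card * (B ∪ B1).card : ℕ)) / (R ^ 2 * (T.cls k' ω).card)) := by
  set C := T.cls k' ω with hC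
  set bl : Γ → Finset Γ := T.blk k ω with hbl
  set Bu := B ∪ B1 with hBu
  have hblC : ∀ γ ∈ C, bl γ ⊆ C := fun γ hγ => T.blk_subset hk hγ
  let β := {b : Finset Γ // b ∈ C.image bl}
  let blk : C → β := fun i => ⟨bl i, Finset.mem_image_of_mem bl i.2⟩
  have hblk : ∀ (i : C) (b : β), blk i = b ↔ i.1 ∈ b.1 := by
    intro i b
    obtain ⟨b, hb⟩ := b
    obtain ⟨j, hj, rfl⟩ := Finset.mem_image.1 hb
    constructor
    · intro h
      have h' : bl i = bl j := congrArg Subtype.val h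
      show i.1 ∈ bl j
      rw [← h']; exact T.self_mem_blk _ _ _
    · intro h; exact Subtype.ext (T.blk_eq h)
  have hdisjβ : Pairwise (fun b b' : β => Disjoint b.1 b'.1) := by
    intro b b' hbb'
    rw [Finset.disjoint_left]
    intro x hx hx'
    apply hbb'
    obtain ⟨b, hb⟩ := b
    obtain ⟨b', hb'⟩ := b'
    obtain ⟨j, hj, rfl⟩ := Finset.mem_image.1 hb
    obtain ⟨j', hj', rfl⟩ := Finset.mem_image.1 hb'
    refine Subtype.ext ?_
    have e1 := T.blk_eq hx
    have e2 := T.blk_eq hx'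
    show bl j = bl j'
    rw [hbl]
    exact e1.symm.trans e2
  have hCne : Nonempty C := ⟨⟨1, T.one_mem _ _⟩⟩
  set X : (Γ → Bool) → C → S := fun y i => (g (i.1 • ω)).1 (i.1 • y) with hX
  set Z : (Γ → Y) → C → S := fun w i => fh a0 f B V ω (bl i) w i with hZ
  set U : (Γ → Y) → C → S := fun w i => fh a0 f' B1 V ω C w i with hU
  have hXm : Measurable X := measurable_pi_iff.2 fun i =>
    (g (i.1 • ω)).measurable.comp (measurable_smul_cfg _)
  have hZm : Measurable Z := measurable_pi_iff.2 fun i =>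
    (measurable_pi_apply i.1).comp (measurable_fh a0 hf B V ω (bl i))
  have hUm : Measurable U := measurable_pi_iff.2 fun i =>
    (measurable_pi_apply i.1).comp (measurable_fh a0 hf' B1 V ω C)
  have hmm : ∀ b, Measurable (msk blk a0 b : (C → S) → C → S) := fun b => by
    refine measurable_pi_iff.2 fun i => ?_
    by_cases h : blk i = b
    · simp only [msk, h, if_true]; exact measurable_pi_apply i
    · simp only [msk, h, if_false]; exact measurable_const
  have hXi : iIndepFun (fun b y => msk blk a0 b (X y)) (iid Γ q) := by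
    refine iIndepFun_local q (fun b : β => b.1) hdisjβ _ (fun b => (hmm b).comp hXm) ?_
    intro b y y' hyy'
    funext i
    simp only [msk]
    split_ifs with hi
    · refine hdep _ _ _ fun κ hκ _ => ?_
      simp only [smul_cfg]
      refine hyy' _ ?_
      rw [← hi]
      exact (T.mul_mem_blk).2 hκ
    · rfl
  have hZi : iIndepFun (fun b w => msk blk a0 b (Z w)) (iid Γ ν) := by
    refine iIndepFun_local ν (fun b : β => b.1) hdisjβ _ (fun b => (hmm b).comp hZm) ?_
    intro b y y' hyy'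
    funext i
    simp only [msk]
    split_ifs with hi
    · simp only [hZ, fh]
      split_ifs with hcond
      · refine hfB fun κ hκ => ?_
        simp only [smul_cfg]
        refine hyy' _ ?_
        rw [← hi]
        exact hcond.2.1 κ hκ
      · rfl
    · rfl
  set gb : Finset β := Finset.univ.filter (fun b => ∀ i : C, blk i = b → i.1 • ω ∈ G) with hgb
  have hη : ∀ b ∈ gb, ∀ E : Set (C → S),
      (iid Γ q).real {y | msk blk a0 b (X y) ∈ E}
        ≤ (iid Γ ν).real {w | msk blk a0 b (Z w) ∈ E} + η := by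
    intro b hb E
    obtain ⟨b, hb'⟩ := b
    obtain ⟨i, hi, rfl⟩ := Finset.mem_image.1 hb'
    have hiG : i • ω ∈ G := (Finset.mem_filter.1 hb).2 ⟨i, hi⟩ rfl
    have htv : TV a0 q ν g f B V η ω (bl i) :=
      TV_smul (γ := i) (C' := T.cls k (i • ω)) hf (fun δ => (T.mul_mem_blk).symm) (hTV _ hiG)
    have hres : Measurable (fun (z : Γ → S) (j : C) => z j) :=
      measurable_pi_iff.2 fun j => measurable_pi_apply _
    have h := htv ((fun (z : Γ → S) (j : C) => z j) ⁻¹' E)
      (hres (Set.toFinite E).measurableSet)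
    have e1 : ∀ y, msk blk a0 ⟨bl i, hb'⟩ (X y)
        = (fun j : C => pat a0 g ω (bl i) y j) := by
      intro y
      funext j
      simp only [msk, hblk, pat, hX]
    have e2 : ∀ w, msk blk a0 ⟨bl i, hb'⟩ (Z w)
        = (fun j : C => fh a0 f B V ω (bl i) w j) := by
      intro w
      funext j
      simp only [msk, hblk]
      by_cases hj : j.1 ∈ bl i
      · rw [if_pos hj]
        simp only [hZ]
        rw [show bl j = bl i from T.blk_eq hj]
      · rw [if_neg hj]
        simp only [fh]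
        rw [if_neg (fun h => hj h.1)]
    simp only [e1, e2]
    exact h
  have hΛ : ∀ b ∈ gb, (Finset.univ.filter (fun i => blk i = b)).card ≤ Λ := by
    intro b hb
    obtain ⟨b, hb'⟩ := b
    obtain ⟨i, hi, rfl⟩ := Finset.mem_image.1 hb'
    have hiG : i • ω ∈ G := (Finset.mem_filter.1 hb).2 ⟨i, hi⟩ rfl
    have e1 : (Finset.univ.filter (fun j : C => blk j = ⟨bl i, hb'⟩)).card
        = (C.filter (fun γ => γ ∈ bl i)).card := by
      rw [← card_sub C (fun γ => γ ∈ bl i)]
      congr 1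
      ext j
      simp only [Finset.mem_filter, Finset.mem_univ, true_and, hblk]
    rw [e1]
    refine (Finset.card_le_card (t := bl i) fun x hx => (Finset.mem_filter.1 hx).2).trans ?_
    refine le_trans ?_ (hGΛ _ hiG)
    exact Finset.card_image_le
  set Bad : Finset C := Finset.univ.filter (fun i => i.1 • ω ∈ A1) with hBad
  have hcard : (Fintype.card C : ℝ) = C.card := by rw [Fintype.card_coe]
  have hBadc : (Bad.card : ℝ) ≤ R / 16 * Fintype.card C := by
    rw [hcard, hBad, card_sub C (fun γ => γ • ω ∈ A1)]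
    exact h1
  have hnb : ∀ i : C, i ∉ Bad → i.1 • ω ∈ G ∧ Bu ⊆ T.cls k (i.1 • ω) := by
    intro i hi
    exact hA1 _ fun hcon => hi (Finset.mem_filter.2 ⟨Finset.mem_univ _, hcon⟩)
  have hgood : ∀ i, i ∉ Bad → blk i ∈ gb := by
    intro i hi
    have hiG := (hnb i hi).1
    refine Finset.mem_filter.2 ⟨Finset.mem_univ _, fun j hj => ?_⟩
    rw [hblk] at hj
    have hj' : j.1 * i.1⁻¹ ∈ T.cls k (i.1 • ω) := T.mem_blk.1 hj
    have := hG _ hiG _ hj'
    rwa [smul_smul, inv_mul_cancel_right] at this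
  -- values at the points that are not bad
  have hZval : ∀ i : C, i ∉ Bad → ∀ w, Z w i = if i.1 • ω ∈ V then f (i.1 • w) else a0 := by
    intro i hi w
    simp only [hZ, fh]
    have hc : i.1 ∈ bl i ∧ (∀ β ∈ B, β * i.1 ∈ bl i) := by
      refine ⟨T.self_mem_blk _ _ _, fun κ hκ => ?_⟩
      refine (T.mul_mem_blk).2 ((hnb i hi).2 ?_)
      exact Finset.mem_union_left _ hκ
    by_cases hv : i.1 • ω ∈ V
    · rw [if_pos ⟨hc.1, hc.2, hv⟩, if_pos hv]
    · rw [if_neg (fun h => hv h.2.2), if_neg hv]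
  have hUval : ∀ i : C, i ∉ Bad → ∀ w, U w i = if i.1 • ω ∈ V then f' (i.1 • w) else a0 := by
    intro i hi w
    simp only [hU, fh]
    have hc : i.1 ∈ C ∧ (∀ β ∈ B1, β * i.1 ∈ C) := by
      refine ⟨i.2, fun κ hκ => ?_⟩
      refine hblC i.1 i.2 ?_
      refine (T.mul_mem_blk).2 ((hnb i hi).2 ?_)
      exact Finset.mem_union_right _ hκ
    by_cases hv : i.1 • ω ∈ V
    · rw [if_pos ⟨hc.1, hc.2, hv⟩, if_pos hv]
    · rw [if_neg (fun h => hv h.2.2), if_neg hv]
  have hff : MeasurableSet {w : Γ → Y | f w ≠ f' w} := by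
    have : {w : Γ → Y | f w ≠ f' w} = (fun w => (f w, f' w)) ⁻¹' {p | p.1 ≠ p.2} := rfl
    rw [this]
    exact (hf.prodMk hf') (Set.toFinite _).measurableSet
  have hset : ∀ i : C, i ∉ Bad → {w | Z w i ≠ U w i}
      = if i.1 • ω ∈ V then (fun w => i.1 • w) ⁻¹' {w | f w ≠ f' w} else ∅ := by
    intro i hi
    ext w
    simp only [mem_ofPred_eq, hZval i hi, hUval i hi]
    split_ifs with hv
    · rfl
    · simp
  have hZU : ∑ i ∈ Badᶜ, (iid Γ ν).real {w | Z w i ≠ U w i} ≤ R / 16 * Fintype.card C := by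
    rw [hcard]
    refine le_trans ?_ h2
    calc ∑ i ∈ Badᶜ, (iid Γ ν).real {w | Z w i ≠ U w i}
        ≤ ∑ i ∈ Badᶜ, (if i.1 • ω ∈ V then (iid Γ ν).real {w | f w ≠ f' w} else 0) := by
          refine Finset.sum_le_sum fun i hi => ?_
          rw [hset i (Finset.mem_compl.1 hi)]
          split_ifs with hv
          · rw [Measure.real, (mp_smul_cfg ν i.1).measure_preimage hff.nullMeasurableSet]
            exact le_rfl
          · simp
      _ ≤ ∑ i : C, (if i.1 • ω ∈ V then (iid Γ ν).real {w | f w ≠ f' w} else 0) := by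
          refine Finset.sum_le_sum_of_subset_of_nonneg (Finset.subset_univ _) fun i _ _ => ?_
          split_ifs
          · exact measureReal_nonneg
          · exact le_rfl
      _ = ((C.filter (fun γ => γ • ω ∈ V)).card : ℝ) * (iid Γ ν).real {w | f w ≠ f' w} := by
          rw [← Finset.sum_filter, Finset.sum_const, nsmul_eq_mul,
            card_sub C (fun γ => γ • ω ∈ V)]
  have hdepE : ∀ i : C, i ∉ Bad → DependsOn (fun w => w ∈ {w | Z w i ≠ U w i})
      ((Bu.image (fun κ => κ * i.1) : Finset Γ) : Set Γ) := by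
    intro i hi w w' hww'
    have hf1 : f (i.1 • w) = f (i.1 • w') := hfB fun κ hκ => by
      simp only [smul_cfg]
      exact hww' _ (Finset.mem_coe.2 (Finset.mem_image.2 ⟨κ, Finset.mem_union_left _ hκ, rfl⟩))
    have hf2 : f' (i.1 • w) = f' (i.1 • w') := hfB' fun κ hκ => by
      simp only [smul_cfg]
      exact hww' _ (Finset.mem_coe.2 (Finset.mem_image.2 ⟨κ, Finset.mem_union_right _ hκ, rfl⟩))
    simp only [mem_ofPred_eq, hZval i hi, hUval i hi, hf1, hf2]
  have hmE : ∀ i : C, MeasurableSet {w | Z w i ≠ U w i} := by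
    intro i
    have : {w | Z w i ≠ U w i} = (fun w => (Z w, U w)) ⁻¹' {p | p.1 i ≠ p.2 i} := rfl
    rw [this]
    exact (hZm.prodMk hUm) (Set.toFinite _).measurableSet
  set rel : C → C → Prop := fun i j =>
    ¬ Disjoint (Bu.image (fun κ => κ * i.1)) (Bu.image (fun κ => κ * j.1)) with hrel
  have hrel' : ∀ i ∈ Badᶜ, ∀ j ∈ Badᶜ, ¬ rel i j →
      (iid Γ ν) ({w | Z w i ≠ U w i} ∩ {w | Z w j ≠ U w j})
        = (iid Γ ν) {w | Z w i ≠ U w i} * (iid Γ ν) {w | Z w j ≠ U w j} := by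
    intro i hi j hj hij
    simp only [hrel, not_not] at hij
    exact indep_two ν hij (hmE i) (hmE j) (hdepE i (Finset.mem_compl.1 hi))
      (hdepE j (Finset.mem_compl.1 hj))
  have hD : ∀ i ∈ Badᶜ, (Badᶜ.filter (rel i)).card ≤ Bu.card * Bu.card := by
    intro i _
    rw [← Finset.card_product]
    refine (Finset.card_le_card_of_injOn (fun j : C => j.1)
      (t := (Bu ×ˢ Bu).image (fun p => p.1⁻¹ * (p.2 * i.1))) ?_ ?_).trans Finset.card_image_le
    · intro j hj
      rw [Finset.mem_coe, Finset.mem_filter] at hj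
      have h := hj.2
      simp only [hrel, Finset.not_disjoint_iff] at h
      obtain ⟨x, hx, hx'⟩ := h
      obtain ⟨κ, hκ, rfl⟩ := Finset.mem_image.1 hx
      obtain ⟨κ', hκ', h⟩ := Finset.mem_image.1 hx'
      rw [Finset.mem_coe, Finset.mem_image]
      refine ⟨(κ', κ), Finset.mem_product.2 ⟨hκ', hκ⟩, ?_⟩
      show κ'⁻¹ * (κ * i.1) = j.1
      rw [← h]; group
    · intro j _ j' _ h
      exact Subtype.ext h
  set Fr : Finset Γ := C.filter (fun γ => γ • ω ∈ fresh) with hFr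
  set c : (Γ → Bool) → (Fr → Bool) := fun y i => y i with hc
  have hcm : Measurable c := measurable_pi_iff.2 fun i => measurable_pi_apply _
  have hXdep : ∀ y y' : Γ → Bool, (∀ γ ∈ C, γ • ω ∈ used → y γ = y' γ) → X y = X y' := by
    intro y y' hyy'
    funext i
    refine hdep _ _ _ fun κ hκ hu => ?_
    simp only [smul_cfg]
    refine hyy' _ (hblC i.1 i.2 ((T.mul_mem_blk).2 hκ)) ?_
    rwa [mul_smul]
  have hind : IndepFun X c (iid Γ q) := by
    refine indepFun_local q (S := C.filter (fun γ => γ • ω ∈ used)) (S' := Fr) ?_ hXm hcm ?_ ?_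
    · rw [Finset.disjoint_left]
      intro x hx hx'
      exact Set.disjoint_left.1 hdisj (Finset.mem_filter.1 hx).2 (Finset.mem_filter.1 hx').2
    · intro y y' hyy'
      refine hXdep y y' fun γ hγ hu => hyy' γ ?_
      exact Finset.mem_coe.2 (Finset.mem_filter.2 ⟨hγ, hu⟩)
    · intro y y' hyy'
      funext i
      exact hyy' _ i.2
  have hα : ∀ t, (iid Γ q).real (c ⁻¹' {t}) ≤ θ ^ m := fun t =>
    (coin_atom q hθ Fr t).trans (pow_le_pow_of_le_one hθ0 hθ1 hm)
  obtain ⟨s0, hs1, hs2⟩ := step_core (iid Γ q) (iid Γ ν) blk a0 X hXm Z U hZm hUm hXi hZi gb hη0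
    hη Λ hΛ hR hηR Bad hBadc hgood hZU rel hrel' (Bu.card * Bu.card) hD c hcm hind
    (by positivity) hα ht0 ht1
  rw [hcard] at hs1
  rw [Fintype.card_coe] at hs2
  refine ⟨fun y γ => if h : γ ∈ C then s0 (X y) (c y) ⟨γ, h⟩ else a0, ?_, ?_, ?_, ?_⟩
  · intro y y' hyy'
    have e1 : X y = X y' := hXdep y y' fun γ hγ hu => hyy' γ hγ (Or.inl hu)
    have e2 : c y = c y' := by
      funext i
      have := Finset.mem_filter.1 i.2
      exact hyy' i.1 this.1 (Or.inr this.2)
    simp only [e1, e2]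
  · intro y γ hγ
    simp only [hγ, dite_false]
  · intro y
    have h := hs1 (X y) (c y)
    refine le_trans (le_of_eq ?_) h
    rw [Nat.cast_inj]
    unfold ham
    rw [← card_sub C (fun γ => (if h : γ ∈ C then s0 (X y) (c y) ⟨γ, h⟩ else a0)
      ≠ (g (γ • ω)).1 (γ • y))]
    congr 1
    ext i
    simp only [Finset.mem_filter, Finset.mem_univ, true_and, i.2, dite_true, hX]
    exact ne_comm
  · intro E hE
    have hext : Measurable (fun (z : C → S) (γ : Γ) => if h : γ ∈ C then z ⟨γ, h⟩ else a0) := by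
      refine measurable_pi_iff.2 fun γ => ?_
      by_cases h : γ ∈ C
      · simp only [h, dite_true]; exact measurable_pi_apply _
      · simp only [h, dite_false]; exact measurable_const
    have h := hs2 ((fun (z : C → S) (γ : Γ) => if h : γ ∈ C then z ⟨γ, h⟩ else a0) ⁻¹' E)
    have e1 : ∀ w, (fun γ => if h : γ ∈ C then U w ⟨γ, h⟩ else a0) = fh a0 f' B1 V ω C w := by
      intro w
      funext γ
      by_cases h : γ ∈ C
      · simp only [h, dite_true, hU]
      · rw [dif_neg h]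
        simp only [fh]
        rw [if_neg (fun h' => h h'.1)]
    simp only [mem_preimage, e1] at h
    push_cast at h ⊢
    exact h

end main

end Fiid
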