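import Pool.Agent.helper31.FiidBase

/-!
Couplings on finite types: maximal coupling, gluing, sampling with few coins,
the size of Hamming balls.
-/

open MeasureTheory ProbabilityTheory Set Filter
open scoped ENNReal Topology

namespace Fiid

section weights

variable {A : Type*} [Fintype A] [MeasurableSpace A] [MeasurableSingletonClass A]

/-- The measure on a finite type with given weights. -/
noncomputable def wm (w : A → ℝ) : Measure A := ∑ a, ENNReal.ofReal (w a) • Measure.dirac a

lemma wm_apply {w : A → ℝ} (E : Set A) [DecidablePred (· ∈ E)] :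
    wm w E = ∑ a, if a ∈ E then ENNReal.ofReal (w a) else 0 := by
  classical
  have hE : MeasurableSet E := (Set.toFinite E).measurableSet
  unfold wm
  rw [Measure.finsetSum_apply]
  refine Finset.sum_congr rfl fun a _ => ?_
  rw [Measure.smul_apply, Measure.dirac_apply' _ hE, smul_eq_mul]
  by_cases h : a ∈ E <;> simp [h]

lemma wm_prob {w : A → ℝ} (h0 : ∀ a, 0 ≤ w a) (h1 : ∑ a, w a = 1) :
    IsProbabilityMeasure (wm w) := by
  classical
  constructor
  rw [wm_apply univ]
  simp only [mem_univ, if_true]
  rw [← ENNReal.ofReal_sum_of_nonneg (fun a _ => h0 a), h1, ENNReal.ofReal_one]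

lemma wm_real {w : A → ℝ} (h0 : ∀ a, 0 ≤ w a) (E : Set A) [DecidablePred (· ∈ E)] :
    (wm w).real E = ∑ a, if a ∈ E then w a else 0 := by
  rw [Measure.real, wm_apply, ENNReal.toReal_sum]
  · refine Finset.sum_congr rfl fun a _ => ?_
    split_ifs
    · exact ENNReal.toReal_ofReal (h0 a)
    · rfl
  · intro a _
    split_ifs
    · exact ENNReal.ofReal_ne_top
    · exact ENNReal.zero_ne_top

lemma real_eq_sum (μ : Measure A) [IsFiniteMeasure μ] (E : Set A) [DecidablePred (· ∈ E)] :
    μ.real E = ∑ a, if a ∈ E then μ.real {a} else 0 := by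
  classical
  have h : E = ⋃ a ∈ (Finset.univ.filter (· ∈ E)), {a} := by
    ext x; simp
  conv_lhs => rw [h]
  rw [measureReal_biUnion_finset]
  · rw [Finset.sum_filter]
  · intro a _ b _ hab
    simpa using hab
  · intro a _
    exact measurableSet_singleton a

lemma measure_ext_real {μ ν : Measure A} [IsFiniteMeasure μ] [IsFiniteMeasure ν]
    (h : ∀ a, μ.real {a} = ν.real {a}) : μ = ν := by
  refine Measure.ext_of_singleton fun a => ?_
  have := h a
  rw [Measure.real, Measure.real, ENNReal.toReal_eq_toReal_iff' (measure_ne_top _ _)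
    (measure_ne_top _ _)] at this
  exact this

/-- Maximal coupling. -/
lemma max_coupling (μ ν : Measure A) [IsProbabilityMeasure μ] [IsProbabilityMeasure ν]
    {η : ℝ} (h : ∀ E : Set A, μ.real E ≤ ν.real E + η) :
    ∃ κ : Measure (A × A), IsProbabilityMeasure κ ∧ κ.map Prod.fst = μ ∧ κ.map Prod.snd = ν ∧
      κ.real {p | p.1 ≠ p.2} ≤ η := by
  classical
  set m : A → ℝ := fun a => μ.real {a} with hm
  set l : A → ℝ := fun a => ν.real {a} with hl
  have m0 : ∀ a, 0 ≤ m a := fun a => measureReal_nonneg
  have l0 : ∀ a, 0 ≤ l a := fun a => measureReal_nonneg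
  have m1 : ∑ a, m a = 1 := by
    have := real_eq_sum μ univ
    simp only [mem_univ, if_true, probReal_univ] at this
    exact this.symm
  have l1 : ∑ a, l a = 1 := by
    have := real_eq_sum ν univ
    simp only [mem_univ, if_true, probReal_univ] at this
    exact this.symm
  set D : ℝ := ∑ a, max (m a - l a) 0 with hD
  have D0 : 0 ≤ D := Finset.sum_nonneg fun a _ => le_max_right _ _
  have hmin : ∀ a, min (m a) (l a) + max (m a - l a) 0 = m a := by
    intro a
    rcases le_total (m a) (l a) with h | h
    · rw [min_eq_left h, max_eq_right (by linarith), add_zero]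
    · rw [min_eq_right h, max_eq_left (by linarith)]; ring
  have hmin' : ∀ a, min (m a) (l a) + max (l a - m a) 0 = l a := by
    intro a
    rcases le_total (m a) (l a) with h | h
    · rw [min_eq_left h, max_eq_left (by linarith)]; ring
    · rw [min_eq_right h, max_eq_right (by linarith), add_zero]
  have hD' : ∑ a, max (l a - m a) 0 = D := by
    have e1 : ∑ a, min (m a) (l a) + D = 1 := by
      rw [hD, ← Finset.sum_add_distrib, ← m1]
      exact Finset.sum_congr rfl fun a _ => hmin a
    have e2 : ∑ a, min (m a) (l a) + ∑ a, max (l a - m a) 0 = 1 := by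
      rw [← Finset.sum_add_distrib, ← l1]
      exact Finset.sum_congr rfl fun a _ => hmin' a
    linarith
  have hDη : D ≤ η := by
    have h1 := h {a | l a < m a}
    rw [real_eq_sum μ, real_eq_sum ν] at h1
    have : D = ∑ a, (if a ∈ {a | l a < m a} then m a else 0)
        - ∑ a, (if a ∈ {a | l a < m a} then l a else 0) := by
      rw [hD, ← Finset.sum_sub_distrib]
      refine Finset.sum_congr rfl fun a _ => ?_
      by_cases ha : l a < m a
      · rw [if_pos (by exact ha), if_pos (by exact ha), max_eq_left (by linarith)]
      · rw [if_neg (by exact ha), if_neg (by exact ha), max_eq_right (by linarith), sub_zero]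
    simp only [hm, hl] at this h1
    linarith
  set w : A × A → ℝ := fun p => (if p.1 = p.2 then min (m p.1) (l p.1) else 0)
    + max (m p.1 - l p.1) 0 * max (l p.2 - m p.2) 0 / D with hw
  have w0 : ∀ p, 0 ≤ w p := by
    intro p
    simp only [hw]
    refine add_nonneg ?_ (div_nonneg (mul_nonneg (le_max_right _ _) (le_max_right _ _)) D0)
    split_ifs
    · exact le_min (m0 _) (l0 _)
    · exact le_rfl
  have hz : ∀ a, max (m a - l a) 0 * D / D = max (m a - l a) 0 := by
    intro a
    rcases D0.lt_or_eq with hpos | hzero
    · field_simp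
    · rw [← hzero, div_zero]
      have := Finset.sum_eq_zero_iff_of_nonneg (s := (Finset.univ : Finset A))
        (f := fun a => max (m a - l a) 0) (fun a _ => le_max_right _ _)
      have h2 := this.1 hzero.symm a (Finset.mem_univ a)
      exact h2.symm
  have hz' : ∀ a, D * max (l a - m a) 0 / D = max (l a - m a) 0 := by
    intro a
    rcases D0.lt_or_eq with hpos | hzero
    · field_simp
    · rw [← hzero, div_zero]
      have := Finset.sum_eq_zero_iff_of_nonneg (s := (Finset.univ : Finset A))
        (f := fun a => max (l a - m a) 0) (fun a _ => le_max_right _ _)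
      have h2 := this.1 (hD'.trans hzero.symm) a (Finset.mem_univ a)
      exact h2.symm
  have row : ∀ a, ∑ b, w (a, b) = m a := by
    intro a
    simp only [hw]
    rw [Finset.sum_add_distrib, Finset.sum_ite_eq, if_pos (Finset.mem_univ a),
      ← Finset.sum_div, ← Finset.mul_sum, hD', hz a, hmin a]
  have col : ∀ b, ∑ a, w (a, b) = l b := by
    intro b
    simp only [hw]
    rw [Finset.sum_add_distrib, Finset.sum_ite_eq', if_pos (Finset.mem_univ b),
      ← Finset.sum_div, ← Finset.sum_mul, ← hD, hz' b, hmin' b]
  have tot : ∑ p, w p = 1 := by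
    rw [Fintype.sum_prod_type]
    simp only [row, m1]
  have : IsProbabilityMeasure (wm w) := wm_prob w0 tot
  have : IsProbabilityMeasure ((wm w).map Prod.fst) :=
    Measure.isProbabilityMeasure_map measurable_fst.aemeasurable
  have : IsProbabilityMeasure ((wm w).map Prod.snd) :=
    Measure.isProbabilityMeasure_map measurable_snd.aemeasurable
  refine ⟨wm w, inferInstance, ?_, ?_, ?_⟩
  · refine measure_ext_real fun a => ?_
    rw [map_measureReal_apply measurable_fst (measurableSet_singleton a), wm_real w0,
      Fintype.sum_prod_type]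
    have : ∀ x, ∑ y, (if (x, y) ∈ Prod.fst ⁻¹' {a} then w (x, y) else 0)
        = if x = a then ∑ y, w (x, y) else 0 := by
      intro x
      by_cases hx : x = a
      · rw [if_pos hx]
        refine Finset.sum_congr rfl fun y _ => ?_
        rw [if_pos (by simpa using hx)]
      · rw [if_neg hx]
        refine Finset.sum_eq_zero fun y _ => ?_
        rw [if_neg (by simpa using hx)]
    simp only [this, row]
    rw [Finset.sum_ite_eq', if_pos (Finset.mem_univ a)]
  · refine measure_ext_real fun b => ?_
    rw [map_measureReal_apply measurable_snd (measurableSet_singleton b), wm_real w0,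
      Fintype.sum_prod_type_right]
    have : ∀ y, ∑ x, (if (x, y) ∈ Prod.snd ⁻¹' {b} then w (x, y) else 0)
        = if y = b then ∑ x, w (x, y) else 0 := by
      intro y
      by_cases hy : y = b
      · rw [if_pos hy]
        refine Finset.sum_congr rfl fun x _ => ?_
        rw [if_pos (by simpa using hy)]
      · rw [if_neg hy]
        refine Finset.sum_eq_zero fun x _ => ?_
        rw [if_neg (by simpa using hy)]
    simp only [this, col]
    rw [Finset.sum_ite_eq', if_pos (Finset.mem_univ b)]
  · rw [wm_real w0]
    calc ∑ p : A × A, (if p ∈ {p : A × A | p.1 ≠ p.2} then w p else 0)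
        ≤ ∑ p : A × A, max (m p.1 - l p.1) 0 * max (l p.2 - m p.2) 0 / D := by
          refine Finset.sum_le_sum fun p _ => ?_
          by_cases hp : p.1 = p.2
          · rw [if_neg (by simpa using hp)]
            exact div_nonneg (mul_nonneg (le_max_right _ _) (le_max_right _ _)) D0
          · rw [if_pos (by simpa using hp)]
            simp only [hw]
            rw [if_neg hp, zero_add]
      _ = D * D / D := by
          rw [Fintype.sum_prod_type]
          simp only
          have : ∀ x, ∑ y, max (m x - l x) 0 * max (l y - m y) 0 / D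
              = max (m x - l x) 0 * D / D := by
            intro x
            rw [← Finset.sum_div, ← Finset.mul_sum, hD']
          simp only [this]
          rw [← Finset.sum_div, ← Finset.sum_mul, ← hD]
      _ ≤ D := by
          rcases D0.lt_or_eq with hpos | hzero
          · field_simp; exact le_rfl
          · rw [← hzero]; simp
      _ ≤ η := hDη

end weights

/-- Gluing of two couplings along the common marginal. -/
lemma glue {A B C : Type*} [MeasurableSpace A] [MeasurableSpace B] [MeasurableSpace C]
    [StandardBorelSpace A] [StandardBorelSpace C] [Nonempty A] [Nonempty C]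
    (κ : Measure (A × B)) (ρ : Measure (B × C)) [IsProbabilityMeasure κ] [IsProbabilityMeasure ρ]
    (h : κ.map Prod.snd = ρ.map Prod.fst) :
    ∃ Q : Measure (B × (A × C)), IsProbabilityMeasure Q ∧
      Q.map (fun p => (p.2.1, p.1)) = κ ∧ Q.map (fun p => (p.1, p.2.2)) = ρ := by
  set κ' : Measure (B × A) := κ.map Prod.swap with hκ'
  have : IsProbabilityMeasure κ' :=
    Measure.isProbabilityMeasure_map measurable_swap.aemeasurable
  have e1 : κ'.fst = ρ.fst := by
    rw [hκ', Measure.fst_map_swap, Measure.snd, h, Measure.fst]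
  have : IsProbabilityMeasure ρ.fst := by infer_instance
  set Q : Measure (B × (A × C)) := ρ.fst ⊗ₘ (κ'.condKernel ×ₖ ρ.condKernel) with hQ
  have hA : Q.map (Prod.map id Prod.fst) = κ' := by
    rw [hQ, ← Measure.compProd_map measurable_fst, ← Kernel.fst_eq, Kernel.fst_prod, ← e1]
    exact κ'.disintegrate _
  have hC : Q.map (Prod.map id Prod.snd) = ρ := by
    rw [hQ, ← Measure.compProd_map measurable_snd, ← Kernel.snd_eq, Kernel.snd_prod]
    exact ρ.disintegrate _
  refine ⟨Q, inferInstance, ?_, ?_⟩
  · have : (fun p : B × (A × C) => (p.2.1, p.1)) = Prod.swap ∘ Prod.map id Prod.fst := rfl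
    rw [this, ← Measure.map_map measurable_swap (by fun_prop), hA, hκ',
      Measure.map_map measurable_swap measurable_swap]
    simp
  · exact hC

/-- Greedy assignment of the coin outcomes. -/
lemma greedy {T A : Type*} [Fintype T] [DecidableEq A] (π : T → ℝ)
    (hπ0 : ∀ t, 0 ≤ π t) (hπ1 : ∑ t, π t ≤ 1) {α : ℝ} (hα0 : 0 ≤ α) (hα : ∀ t, π t ≤ α)
    (B : Finset A) (hB : B.Nonempty) (τ : A → ℝ) (hτ0 : ∀ a ∈ B, 0 ≤ τ a)
    (hτ : 1 ≤ ∑ a ∈ B, τ a) :
    ∃ s : T → A, (∀ t, s t ∈ B) ∧ ∀ a ∈ B, ∑ t, (if s t = a then π t else 0) ≤ τ a + α := by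
  classical
  have key : ∀ T' : Finset T, ∃ s : T → A, (∀ t, s t ∈ B) ∧
      ∀ a ∈ B, ∑ t ∈ T', (if s t = a then π t else 0) ≤ τ a + α := by
    intro T'
    induction T' using Finset.induction_on with
    | empty =>
      obtain ⟨a0, ha0⟩ := hB
      refine ⟨fun _ => a0, fun _ => ha0, fun a ha => ?_⟩
      rw [Finset.sum_empty]
      have := hτ0 a ha
      linarith
    | insert t0 T' ht0 ih =>
      obtain ⟨s, hs, hL⟩ := ih
      have hsum : ∑ a ∈ B, ∑ t ∈ T', (if s t = a then π t else 0) ≤ 1 := by
        rw [Finset.sum_comm]
        calc ∑ t ∈ T', ∑ a ∈ B, (if s t = a then π t else 0) ≤ ∑ t ∈ T', π t := by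
              refine Finset.sum_le_sum fun t _ => ?_
              rw [Finset.sum_ite_eq, if_pos (hs t)]
          _ ≤ ∑ t, π t := Finset.sum_le_sum_of_subset_of_nonneg (Finset.subset_univ _)
              (fun t _ _ => hπ0 t)
          _ ≤ 1 := hπ1
      obtain ⟨a, haB, ha⟩ : ∃ a ∈ B, ∑ t ∈ T', (if s t = a then π t else 0) ≤ τ a := by
        by_contra hcon
        push Not at hcon
        have := Finset.sum_lt_sum_of_nonempty hB hcon
        linarith
      refine ⟨Function.update s t0 a, fun t => ?_, fun b hb => ?_⟩
      · by_cases h : t = t0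
        · subst h; rw [Function.update_self]; exact haB
        · rw [Function.update_of_ne h]; exact hs t
      · rw [Finset.sum_insert ht0, Function.update_self]
        have e : ∑ t ∈ T', (if Function.update s t0 a t = b then π t else 0)
            = ∑ t ∈ T', (if s t = b then π t else 0) := by
          refine Finset.sum_congr rfl fun t ht => ?_
          have hne : t ≠ t0 := fun h => by subst h; exact ht0 ht
          rw [Function.update_of_ne hne]
        rw [e]
        by_cases hab : a = b
        · subst hab
          rw [if_pos rfl]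
          have := hα t0
          linarith
        · rw [if_neg hab, zero_add]
          exact hL b hb
  exact key Finset.univ

section ball

variable {ι S : Type*} [Fintype ι] [DecidableEq ι] [Fintype S] [DecidableEq S]

/-- The Hamming distance. -/
def ham (x u : ι → S) : ℕ := (Finset.univ.filter (fun i => x i ≠ u i)).card

lemma ham_self (x : ι → S) : ham x x = 0 := by simp [ham]

/-- The size of Hamming balls. -/
lemma ball_count (x : ι → S) {t r : ℝ} (ht0 : 0 < t) (ht1 : t ≤ 1) :
    ((Finset.univ.filter (fun u : ι → S => (ham x u : ℝ) ≤ r)).card : ℝ)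
      ≤ (1 + Fintype.card S * t) ^ (Fintype.card ι) * t ^ (-r) := by
  have h1 : ∑ u : ι → S, t ^ (ham x u) ≤ (1 + Fintype.card S * t) ^ (Fintype.card ι) := by
    have e1 : ∀ u : ι → S, t ^ (ham x u) = ∏ i, (if x i ≠ u i then t else 1) := by
      intro u
      rw [Finset.prod_ite, Finset.prod_const, Finset.prod_const, one_pow, mul_one]
      rfl
    simp only [e1]
    have e2 := Finset.prod_univ_sum (t := fun _ : ι => (Finset.univ : Finset S))
      (f := fun i a => if x i ≠ a then t else (1 : ℝ))
    rw [Fintype.piFinset_univ] at e2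
    rw [← e2, ← Finset.card_univ (α := ι), ← Finset.prod_const]
    refine Finset.prod_le_prod (fun i _ => Finset.sum_nonneg fun a _ => ?_) fun i _ => ?_
    · split_ifs
      · exact ht0.le
      · exact zero_le_one
    · calc ∑ a, (if x i ≠ a then t else (1 : ℝ)) ≤ ∑ a : S, ((if x i = a then (1 : ℝ) else 0) + t) := by
            refine Finset.sum_le_sum fun a _ => ?_
            by_cases h : x i = a
            · rw [if_neg (by simpa using h), if_pos h]; linarith
            · rw [if_pos h, if_neg h]; linarith
        _ = 1 + Fintype.card S * t := by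
            rw [Finset.sum_add_distrib, Finset.sum_ite_eq, if_pos (Finset.mem_univ _),
              Finset.sum_const, nsmul_eq_mul, Finset.card_univ]
  have h2 : ((Finset.univ.filter (fun u : ι → S => (ham x u : ℝ) ≤ r)).card : ℝ) * t ^ r
      ≤ ∑ u : ι → S, t ^ (ham x u) := by
    calc ((Finset.univ.filter (fun u : ι → S => (ham x u : ℝ) ≤ r)).card : ℝ) * t ^ r
        = ∑ u ∈ Finset.univ.filter (fun u : ι → S => (ham x u : ℝ) ≤ r), t ^ r := by
          rw [Finset.sum_const, nsmul_eq_mul]
      _ ≤ ∑ u ∈ Finset.univ.filter (fun u : ι → S => (ham x u : ℝ) ≤ r), t ^ (ham x u) := by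
          refine Finset.sum_le_sum fun u hu => ?_
          rw [Finset.mem_filter] at hu
          rw [← Real.rpow_natCast]
          exact Real.rpow_le_rpow_of_exponent_ge ht0 ht1 hu.2
      _ ≤ ∑ u : ι → S, t ^ (ham x u) :=
          Finset.sum_le_sum_of_subset_of_nonneg (Finset.filter_subset _ _)
            (fun u _ _ => by positivity)
  have h3 : (0 : ℝ) < t ^ r := Real.rpow_pos_of_pos ht0 r
  rw [Real.rpow_neg ht0.le, ← div_eq_mul_inv, le_div_iff₀ h3]
  exact h2.trans h1

end ball

/-- Sampling from a conditional law with few coins, staying close to the given value. -/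
lemma sampler {A T Ω1 : Type*} [Fintype A] [DecidableEq A] [MeasurableSpace A]
    [MeasurableSingletonClass A] [Fintype T] [MeasurableSpace T] [MeasurableSingletonClass T]
    [MeasurableSpace Ω1] (P1 : Measure Ω1) [IsProbabilityMeasure P1] (X : Ω1 → A)
    (hX : Measurable X) (c : Ω1 → T) (hc : Measurable c) (hind : IndepFun X c P1)
    {α : ℝ} (hα0 : 0 ≤ α) (hα : ∀ t, P1.real (c ⁻¹' {t}) ≤ α)
    (J : Measure (A × A)) [IsProbabilityMeasure J] (hJ : J.map Prod.fst = P1.map X)
    (close : A → A → Prop) [DecidableRel close] (hrefl : ∀ x, close x x) {K : ℝ}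
    (hK : ∀ x, ((Finset.univ.filter (close x)).card : ℝ) ≤ K) :
    ∃ s : A → T → A, (∀ x t, close x (s x t)) ∧ ∀ E : Set A,
      P1.real {y | s (X y) (c y) ∈ E}
        ≤ (J.map Prod.snd).real E + (K * α + J.real {p | ¬ close p.1 p.2}) := by
  classical
  set j : A → A → ℝ := fun x a => J.real {(x, a)} with hj
  have j0 : ∀ x a, 0 ≤ j x a := fun x a => measureReal_nonneg
  set π : T → ℝ := fun t => P1.real (c ⁻¹' {t}) with hπ
  have π0 : ∀ t, 0 ≤ π t := fun t => measureReal_nonneg
  have : IsProbabilityMeasure (P1.map c) := Measure.isProbabilityMeasure_map hc.aemeasurable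
  have π1 : ∑ t, π t = 1 := by
    have h := real_eq_sum (P1.map c) univ
    simp only [mem_univ, if_true, probReal_univ] at h
    rw [h]
    refine Finset.sum_congr rfl fun t _ => ?_
    rw [map_measureReal_apply hc (measurableSet_singleton t)]
  have hcE : ∀ F : Set T, P1.real (c ⁻¹' F) = ∑ t, if t ∈ F then π t else 0 := by
    intro F
    rw [← map_measureReal_apply hc (Set.toFinite F).measurableSet, real_eq_sum]
    refine Finset.sum_congr rfl fun t _ => ?_
    split_ifs
    · rw [map_measureReal_apply hc (measurableSet_singleton t)]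
    · rfl
  set m : A → ℝ := fun x => P1.real (X ⁻¹' {x}) with hm
  have m0 : ∀ x, 0 ≤ m x := fun x => measureReal_nonneg
  have hmj : ∀ x, m x = ∑ a, j x a := by
    intro x
    have e : P1.real (X ⁻¹' {x}) = J.real (Prod.fst ⁻¹' {x}) := by
      rw [← map_measureReal_apply hX (measurableSet_singleton x), ← hJ,
        map_measureReal_apply measurable_fst (measurableSet_singleton x)]
    rw [hm]
    simp only
    rw [e, real_eq_sum, Fintype.sum_prod_type, Finset.sum_eq_single x]
    · refine Finset.sum_congr rfl fun a _ => ?_
      rw [if_pos (by simp)]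
    · intro y _ hy
      refine Finset.sum_eq_zero fun a _ => ?_
      rw [if_neg (by simpa using hy)]
    · intro h; exact absurd (Finset.mem_univ x) h
  set b : A → ℝ := fun x => ∑ a, if close x a then 0 else j x a with hb
  have b0 : ∀ x, 0 ≤ b x := fun x => Finset.sum_nonneg fun a _ => by
    split_ifs
    · exact le_rfl
    · exact j0 x a
  set ball : A → Finset A := fun x => Finset.univ.filter (close x) with hball
  have hxb : ∀ x, x ∈ ball x := fun x => Finset.mem_filter.2 ⟨Finset.mem_univ _, hrefl x⟩
  set j' : A → A → ℝ := fun x a => j x a + if a = x then b x else 0 with hj'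
  have j'0 : ∀ x a, 0 ≤ j' x a := fun x a => by
    simp only [hj']
    refine add_nonneg (j0 x a) ?_
    split_ifs
    · exact b0 x
    · exact le_rfl
  have hsum' : ∀ x, ∑ a ∈ ball x, j' x a = m x := by
    intro x
    simp only [hj']
    rw [Finset.sum_add_distrib, Finset.sum_ite_eq', if_pos (hxb x), hmj x, hb]
    simp only [hball]
    rw [Finset.sum_filter, ← Finset.sum_add_distrib]
    refine Finset.sum_congr rfl fun a _ => ?_
    by_cases h : close x a <;> simp [h]
  have hs : ∀ x, ∃ s : T → A, (∀ t, s t ∈ ball x) ∧
      ∀ a ∈ ball x, m x * ∑ t, (if s t = a then π t else 0) ≤ j' x a + m x * α := by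
    intro x
    rcases (m0 x).lt_or_eq with hpos | hzero
    · obtain ⟨s, h1, h2⟩ := greedy π π0 π1.le hα0 hα (ball x) ⟨x, hxb x⟩
        (fun a => j' x a / m x) (fun a _ => div_nonneg (j'0 x a) hpos.le) (by
          rw [← Finset.sum_div, hsum' x, div_self hpos.ne'])
      refine ⟨s, h1, fun a ha => ?_⟩
      have h3 := mul_le_mul_of_nonneg_left (h2 a ha) hpos.le
      refine h3.trans (le_of_eq ?_)
      field_simp
    · refine ⟨fun _ => x, fun _ => hxb x, fun a _ => ?_⟩
      rw [← hzero, zero_mul, zero_mul, add_zero]
      exact j'0 x a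
  choose s hs1 hs2 using hs
  refine ⟨s, fun x t => (Finset.mem_filter.1 (hs1 x t)).2, fun E => ?_⟩
  -- the law of the new value
  have hlaw : P1.real {y | s (X y) (c y) ∈ E}
      = ∑ x, m x * ∑ t, (if s x t ∈ E then π t else 0) := by
    have hdec : {y | s (X y) (c y) ∈ E}
        = ⋃ x ∈ (Finset.univ : Finset A), (X ⁻¹' {x} ∩ c ⁻¹' {t | s x t ∈ E}) := by
      ext y
      simp
    rw [hdec, measureReal_biUnion_finset]
    · refine Finset.sum_congr rfl fun x _ => ?_
      have hi := (indepFun_iff_measure_inter_preimage_eq_mul.1 hind) {x} {t | s x t ∈ E}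
        (measurableSet_singleton x) (Set.toFinite _).measurableSet
      rw [Measure.real, hi, ENNReal.toReal_mul, ← Measure.real, ← Measure.real, hcE]
      rfl
    · intro x _ x' _ hxx'
      refine Set.disjoint_left.2 fun y hy hy' => hxx' ?_
      have h1 : X y = x := by simpa using hy.1
      have h2 : X y = x' := by simpa using hy'.1
      exact h1.symm.trans h2
    · intro x _
      exact (hX (measurableSet_singleton x)).inter (hc (Set.toFinite _).measurableSet)
  rw [hlaw]
  have hm1 : ∑ x, m x = 1 := by
    have : IsProbabilityMeasure (P1.map X) := Measure.isProbabilityMeasure_map hX.aemeasurable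
    have h := real_eq_sum (P1.map X) univ
    simp only [mem_univ, if_true, probReal_univ] at h
    rw [h]
    refine Finset.sum_congr rfl fun t _ => ?_
    rw [map_measureReal_apply hX (measurableSet_singleton t)]
  have hbound : ∀ x, m x * ∑ t, (if s x t ∈ E then π t else 0)
      ≤ (∑ a, if a ∈ E then j x a else 0) + b x + m x * (K * α) := by
    intro x
    have e1 : ∑ t, (if s x t ∈ E then π t else 0)
        = ∑ a ∈ (ball x).filter (· ∈ E), ∑ t, (if s x t = a then π t else 0) := by
      rw [Finset.sum_comm]
      refine Finset.sum_congr rfl fun t _ => ?_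
      rw [Finset.sum_ite_eq]
      by_cases h : s x t ∈ E
      · rw [if_pos h, if_pos (Finset.mem_filter.2 ⟨hs1 x t, h⟩)]
      · rw [if_neg h, if_neg (fun h' => h (Finset.mem_filter.1 h').2)]
    rw [e1, Finset.mul_sum]
    calc ∑ a ∈ (ball x).filter (· ∈ E), m x * ∑ t, (if s x t = a then π t else 0)
        ≤ ∑ a ∈ (ball x).filter (· ∈ E), (j' x a + m x * α) :=
          Finset.sum_le_sum fun a ha => hs2 x a (Finset.mem_filter.1 ha).1
      _ = ∑ a ∈ (ball x).filter (· ∈ E), j' x a
            + ((ball x).filter (· ∈ E)).card * (m x * α) := by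
          rw [Finset.sum_add_distrib, Finset.sum_const, nsmul_eq_mul]
      _ ≤ ((∑ a, if a ∈ E then j x a else 0) + b x) + m x * (K * α) := by
          refine add_le_add ?_ ?_
          · simp only [hj']
            rw [Finset.sum_add_distrib]
            refine add_le_add ?_ ?_
            · rw [← Finset.sum_filter]
              refine Finset.sum_le_sum_of_subset_of_nonneg ?_ (fun a _ _ => j0 x a)
              intro a ha
              rw [Finset.mem_filter] at ha ⊢
              exact ⟨Finset.mem_univ _, ha.2⟩
            · rw [Finset.sum_ite_eq']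
              split_ifs
              · exact le_rfl
              · exact b0 x
          · have h1 : (((ball x).filter (· ∈ E)).card : ℝ) ≤ K :=
              (Nat.cast_le.2 (Finset.card_filter_le _ _)).trans (hK x)
            have h2 : 0 ≤ m x * α := mul_nonneg (m0 x) hα0
            calc (((ball x).filter (· ∈ E)).card : ℝ) * (m x * α) ≤ K * (m x * α) :=
                  mul_le_mul_of_nonneg_right h1 h2
              _ = m x * (K * α) := by ring
  calc ∑ x, m x * ∑ t, (if s x t ∈ E then π t else 0)
      ≤ ∑ x, ((∑ a, if a ∈ E then j x a else 0) + b x + m x * (K * α)) :=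
        Finset.sum_le_sum fun x _ => hbound x
    _ = (∑ x, ∑ a, if a ∈ E then j x a else 0) + ∑ x, b x + K * α := by
        rw [Finset.sum_add_distrib, Finset.sum_add_distrib, ← Finset.sum_mul, hm1, one_mul]
    _ = (J.map Prod.snd).real E + (K * α + J.real {p | ¬ close p.1 p.2}) := by
        have e1 : (J.map Prod.snd).real E = ∑ x, ∑ a, if a ∈ E then j x a else 0 := by
          rw [map_measureReal_apply measurable_snd (Set.toFinite E).measurableSet, real_eq_sum,
            Fintype.sum_prod_type]
          rfl
        have e2 : J.real {p | ¬ close p.1 p.2} = ∑ x, b x := by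
          rw [real_eq_sum, Fintype.sum_prod_type]
          refine Finset.sum_congr rfl fun x _ => ?_
          simp only [hb]
          refine Finset.sum_congr rfl fun a _ => ?_
          by_cases h : close x a
          · rw [if_pos h, if_neg (by simpa using h)]
          · rw [if_neg h, if_pos (by simpa using h)]
        rw [e1, e2]
        ring

end Fiid
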