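import Pool.Agent.helper31.FiidHoles

/-!
Rare patterns in the field of occurrences, covering by Foelner tiles, and freeness.
-/

open MeasureTheory ProbabilityTheory Set Filter
open scoped ENNReal Topology

namespace Fiid

attribute [local instance] shAction

/-- Foelner's condition. -/
def Folner (Γ : Type*) [Group Γ] [DecidableEq Γ] : Prop :=
  ∀ (D : Finset Γ) (ε : ℝ), 0 < ε → ∃ F : Finset Γ, F.Nonempty ∧
    ∀ d ∈ D, ((F.image (fun f => d * f) \ F).card : ℝ) ≤ ε * F.card

lemma exists_pairwise {Γ : Type*} [Infinite Γ] (R : Γ → Γ → Prop)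
    (hs : ∀ a b, R a b → R b a) (hf : ∀ b, {a | R a b}.Finite) (n : ℕ) :
    ∃ s : Finset Γ, s.card = n ∧ ∀ a ∈ s, ∀ b ∈ s, a ≠ b → ¬ R a b := by
  classical
  induction n with
  | zero => exact ⟨∅, rfl, by simp⟩
  | succ n ih =>
    obtain ⟨s, hs1, h⟩ := ih
    have hfin : ((s : Set Γ) ∪ ⋃ b ∈ s, {a | R a b}).Finite :=
      s.finite_toSet.union (Set.Finite.biUnion s.finite_toSet fun b _ => hf b)
    obtain ⟨a, ha⟩ := hfin.exists_notMem
    simp only [mem_union, Finset.mem_coe, mem_iUnion, mem_ofPred_eq, not_or, not_exists] at ha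
    obtain ⟨h1, h2⟩ := ha
    refine ⟨insert a s, by rw [Finset.card_insert_of_notMem h1, hs1], ?_⟩
    intro b hb c hc hbc hR
    rw [Finset.mem_insert] at hb hc
    rcases hb with rfl | hb <;> rcases hc with rfl | hc
    · exact hbc rfl
    · exact h2 c hc hR
    · exact h2 b hb (hs _ _ hR)
    · exact h b hb c hc hbc hR

section ev

variable {Γ : Type*} [Group Γ] [DecidableEq Γ] (h : Γ)

/-- The sites used by an occurrence at `1`. -/
def K3 : Finset Γ := {1, h⁻¹, h * h}

/-- Occurrences at all the points `q m`. -/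
def Ev (Q : Finset Γ) (m : Γ) : Set (Γ → Bool) := {x | ∀ q ∈ Q, occ h x (q * m) = true}

/-- The sites used. -/
def ks (Q : Finset Γ) (m : Γ) : Finset Γ := (K3 h ×ˢ Q).image (fun p => p.1 * (p.2 * m))

lemma mem_ks {Q : Finset Γ} {m x : Γ} : x ∈ ks h Q m ↔ ∃ κ ∈ K3 h, ∃ q ∈ Q, κ * (q * m) = x := by
  simp only [ks, Finset.mem_image, Finset.mem_product, Prod.exists]
  constructor
  · rintro ⟨a, b, ⟨h1, h2⟩, h3⟩; exact ⟨a, h1, b, h2, h3⟩
  · rintro ⟨a, h1, b, h2, h3⟩; exact ⟨a, b, ⟨h1, h2⟩, h3⟩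

lemma occ_dep {x y : Γ → Bool} {u : Γ} (hxy : ∀ κ ∈ K3 h, x (κ * u) = y (κ * u)) :
    occ h x u = occ h y u := by
  have h1 := hxy 1 (by simp [K3])
  have h2 := hxy h⁻¹ (by simp [K3])
  have h3 := hxy (h * h) (by simp [K3])
  rw [one_mul] at h1
  simp only [occ, h1, h2, h3]

lemma ev_dep (Q : Finset Γ) (m : Γ) :
    DependsOn (fun x => x ∈ Ev h Q m) ((ks h Q m : Finset Γ) : Set Γ) := by
  intro x y hxy
  simp only [Ev, mem_ofPred_eq]
  refine propext (forall₂_congr fun q hq => ?_)
  rw [occ_dep h (x := x) (y := y) (u := q * m) fun κ hκ => hxy _ (Finset.mem_coe.2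
    ((mem_ks h).2 ⟨κ, hκ, q, hq, rfl⟩))]

lemma ev_meas (Q : Finset Γ) (m : Γ) : MeasurableSet (Ev h Q m) := by
  have : Ev h Q m = ⋂ q ∈ Q, {x | occ h x (q * m) = true} := by
    ext x; simp [Ev]
  rw [this]
  refine Finset.measurableSet_biInter Q fun q _ => ?_
  have hm : Measurable (fun x : Γ → Bool => occ h x (q * m)) :=
    (measurable_pi_apply _).comp (measurable_occ h)
  exact hm (measurableSet_singleton true)

/-- The probability of an occurrence at a given place. -/
noncomputable def bb (q : Measure Bool) [IsProbabilityMeasure q] : ℝ :=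
  (iid Γ q).real {x | occ h x 1 = true}

lemma occ_prob (q : Measure Bool) [IsProbabilityMeasure q] (u : Γ) :
    (iid Γ q).real {x | occ h x u = true} = bb h q := by
  have hm : MeasurableSet {x : Γ → Bool | occ h x 1 = true} :=
    ((measurable_pi_apply _).comp (measurable_occ h)) (measurableSet_singleton true)
  rw [bb, Measure.real, Measure.real, ← (mp_smul_cfg q u).measure_preimage hm.nullMeasurableSet]
  congr 2
  ext x
  simp only [mem_preimage, mem_ofPred_eq, occ_smul, smul_cfg, one_mul]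

lemma ev_prob (q : Measure Bool) [IsProbabilityMeasure q] (m : Γ) (Q : Finset Γ)
    (hQ : ∀ a ∈ Q, ∀ b ∈ Q, a ≠ b → ∀ κ ∈ K3 h, ∀ κ' ∈ K3 h, κ * a ≠ κ' * b) :
    (iid Γ q).real (Ev h Q m) = (bb h q) ^ Q.card := by
  induction Q using Finset.induction_on with
  | empty => simp [Ev]
  | insert c Q hc ih =>
    have ih' := ih (fun a ha b hb => hQ a (Finset.mem_insert_of_mem ha) b
      (Finset.mem_insert_of_mem hb))
    have e : Ev h (insert c Q) m = Ev h {c} m ∩ Ev h Q m := by
      ext x; simp [Ev]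
    have hd : Disjoint (ks h {c} m) (ks h Q m) := by
      rw [Finset.disjoint_left]
      intro x hx hx'
      obtain ⟨κ, hκ, a, ha, h1⟩ := (mem_ks h).1 hx
      obtain ⟨κ', hκ', b, hb, h2⟩ := (mem_ks h).1 hx'
      rw [Finset.mem_singleton] at ha
      subst ha
      refine hQ a (Finset.mem_insert_self _ _) b (Finset.mem_insert_of_mem hb)
        (fun h => hc (h ▸ hb)) κ hκ κ' hκ' ?_
      rw [← h2, ← mul_assoc, ← mul_assoc] at h1
      exact mul_right_cancel h1
    have e2 : Ev h {c} m = {x | occ h x (c * m) = true} := by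
      ext x; simp [Ev]
    rw [e, Measure.real, indep_two q hd (ev_meas h _ _) (ev_meas h _ _) (ev_dep h _ _)
      (ev_dep h _ _), ENNReal.toReal_mul, ← Measure.real, ← Measure.real, ih', e2, occ_prob,
      Finset.card_insert_of_notMem hc, pow_succ, mul_comm]

lemma zero_prob (q : Measure Bool) [IsProbabilityMeasure q] (Z : Finset Γ) :
    (iid Γ q).real {x | ∀ z ∈ Z, x z = false} = (q.real {false}) ^ Z.card := by
  have e : {x : Γ → Bool | ∀ z ∈ Z, x z = false} = Set.pi (Z : Set Γ) (fun _ => {false}) := by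
    ext x; simp [Set.mem_pi]
  rw [e, Measure.real, iid, Measure.infinitePi_pi _ (fun i _ => MeasurableSet.of_discrete),
    ENNReal.toReal_prod, Finset.prod_const]
  rfl

/-- Two different translates of a sparse pattern. -/
lemma ev_pair (q : Measure Bool) [IsProbabilityMeasure q] (Q : Finset Γ) {m m' : Γ}
    (hm : m ≠ m')
    (hQ : ∀ a ∈ Q, ∀ b ∈ Q, a ≠ b → ∀ κ ∈ K3 h, κ * (b * m) ≠ a * m') :
    (iid Γ q).real (Ev h Q m ∩ Ev h Q m')
      ≤ (iid Γ q).real (Ev h Q m) * (q.real {false}) ^ Q.card := by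
  by_cases hc : ∃ a ∈ Q, ∃ κ ∈ K3 h, κ * (a * m) = a * m'
  · obtain ⟨a, ha, κ, hκ, e⟩ := hc
    have hempty : Ev h Q m ∩ Ev h Q m' = ∅ := by
      ext x
      simp only [mem_inter_iff, mem_empty_iff_false, iff_false, not_and]
      intro h1 h2
      have o1 := occ_iff.1 (h1 a ha)
      have o2 := occ_iff.1 (h2 a ha)
      simp only [K3, Finset.mem_insert, Finset.mem_singleton] at hκ
      rcases hκ with rfl | rfl | rfl
      · rw [one_mul] at e
        exact hm (mul_left_cancel e)
      · rw [e] at o1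
        rw [o1.2.1] at o2
        exact Bool.false_ne_true o2.1.symm
      · rw [e] at o1
        rw [o1.2.2] at o2
        exact Bool.false_ne_true o2.1.symm
    rw [hempty]
    simp only [measureReal_empty]
    positivity
  · push Not at hc
    set Z : Finset Γ := Q.image (fun a => a * m') with hZ
    have hZc : Z.card = Q.card := Finset.card_image_of_injective _ (mul_left_injective m')
    have hd : Disjoint (ks h Q m) Z := by
      rw [Finset.disjoint_left]
      intro x hx hx'
      obtain ⟨κ, hκ, b, hb, h1⟩ := (mem_ks h).1 hx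
      obtain ⟨a, ha, h2⟩ := Finset.mem_image.1 hx'
      by_cases hab : a = b
      · subst hab
        exact hc a ha κ hκ (h1.trans h2.symm)
      · exact hQ a ha b hb hab κ hκ (h1.trans h2.symm)
    have hzm : MeasurableSet {x : Γ → Bool | ∀ z ∈ Z, x z = false} := by
      have : {x : Γ → Bool | ∀ z ∈ Z, x z = false} = ⋂ z ∈ Z, {x | x z = false} := by
        ext x; simp
      rw [this]
      exact Finset.measurableSet_biInter Z fun z _ =>
        (measurable_pi_apply (X := fun _ : Γ => Bool) z) (measurableSet_singleton false)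
    have hzd : DependsOn (fun x => x ∈ {x : Γ → Bool | ∀ z ∈ Z, x z = false})
        ((Z : Finset Γ) : Set Γ) := by
      intro x y hxy
      simp only [mem_ofPred_eq]
      refine propext (forall₂_congr fun z hz => ?_)
      rw [hxy z (Finset.mem_coe.2 hz)]
    rw [← hZc, ← zero_prob q Z, Measure.real, Measure.real, Measure.real, ← ENNReal.toReal_mul,
      ← indep_two q hd (ev_meas h _ _) hzm (ev_dep h _ _) hzd]
    refine measureReal_mono (inter_subset_inter_right _ ?_)
    intro x hx z hz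
    obtain ⟨a, ha, rfl⟩ := Finset.mem_image.1 hz
    exact (occ_iff.1 (hx a ha)).1

lemma ev_indep (q : Measure Bool) [IsProbabilityMeasure q] (Q : Finset Γ) {m m' : Γ}
    (hd : Disjoint (ks h Q m) (ks h Q m')) :
    (iid Γ q).real (Ev h Q m ∩ Ev h Q m')
      = (iid Γ q).real (Ev h Q m) * (iid Γ q).real (Ev h Q m') := by
  rw [Measure.real, indep_two q hd (ev_meas h _ _) (ev_meas h _ _) (ev_dep h _ _)
      (ev_dep h _ _), ENNReal.toReal_mul]
  rfl

/-- Rare patterns and Foelner tiles: one level. -/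
theorem level (hFol : Folner Γ) [Infinite Γ] (q : Measure Bool) [IsProbabilityMeasure q]
    (hb0 : 0 < bb h q) (hq1 : q.real {false} < 1) (D : Finset Γ) {ε : ℝ} (hε : 0 < ε) {C : ℝ}
    (hC : 1 ≤ C) :
    ∃ F Q : Finset Γ, (∀ d ∈ D, ((F.filter (fun f => d * f ∉ F)).card : ℝ)
        * (iid Γ q).real (Ev h Q 1) ≤ ε * (C + 1)) ∧
      (iid Γ q).real {x | ∀ f ∈ F, x ∉ Ev h Q f⁻¹} ≤ 2 / C := by
  set b := bb h q with hb
  set β := q.real {false} with hβ
  have hβ0 : 0 ≤ β := measureReal_nonneg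
  have hbβ : b ≤ β := by
    have h1 := zero_prob q ({1} : Finset Γ)
    rw [Finset.card_singleton, pow_one] at h1
    rw [hb, bb, hβ, ← h1]
    refine measureReal_mono ?_
    intro x hx z hz
    rw [Finset.mem_singleton] at hz
    subst hz
    exact (occ_iff.1 hx).1
  have hb1 : b < 1 := hbβ.trans_lt hq1
  obtain ⟨F0, hF0, hF0D⟩ := hFol D ε hε
  have hF0c : (0 : ℝ) < F0.card := by exact_mod_cast Finset.card_pos.2 hF0
  -- the number of conditions
  obtain ⟨l, hl1, hl2⟩ : ∃ l : ℕ, (F0.card : ℝ) * b ^ l ≤ 1 ∧ 9 * (l : ℝ) ^ 2 * β ^ l ≤ 1 := by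
    have t1 : Tendsto (fun l : ℕ => (F0.card : ℝ) * b ^ l) atTop (𝓝 0) := by
      have := (tendsto_pow_atTop_nhds_zero_of_lt_one hb0.le hb1).const_mul (F0.card : ℝ)
      simpa using this
    have t2 : Tendsto (fun l : ℕ => 9 * (l : ℝ) ^ 2 * β ^ l) atTop (𝓝 0) := by
      have := (tendsto_pow_const_mul_const_pow_of_abs_lt_one 2 (r := β)
        (by rw [abs_of_nonneg hβ0]; exact hq1)).const_mul 9
      simpa [mul_assoc] using this
    obtain ⟨l, h1, h2⟩ := (((tendsto_order.1 t1).2 1 one_pos).and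
      ((tendsto_order.1 t2).2 1 one_pos)).exists
    exact ⟨l, h1.le, h2.le⟩
  set d := b ^ l with hd
  have hd0 : 0 < d := by positivity
  set r := ⌈C / (F0.card * d)⌉₊ with hr
  obtain ⟨T0, hT0c, hT0⟩ := exists_sparse (Γ := Γ) ((F0 ×ˢ F0).image (fun p => p.1⁻¹ * p.2)) r
  set F : Finset Γ := T0.biUnion (fun t => F0.image (fun f => f * t)) with hF
  have hdisj : (T0 : Set Γ).PairwiseDisjoint (fun t => F0.image (fun f => f * t)) := by
    intro t ht t' ht' htt'
    simp only [Function.onFun]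
    rw [Finset.disjoint_left]
    intro x hx hx'
    obtain ⟨f, hf, h1⟩ := Finset.mem_image.1 hx
    obtain ⟨f', hf', h2⟩ := Finset.mem_image.1 hx'
    refine hT0 t ht t' ht' htt' (Finset.mem_image.2 ⟨(f, f'),
      Finset.mem_product.2 ⟨hf, hf'⟩, ?_⟩)
    show f⁻¹ * f' = t * t'⁻¹
    rw [inv_mul_eq_iff_eq_mul, ← mul_assoc, h1, ← h2]
    group
  have hFc : F.card = r * F0.card := by
    rw [hF, Finset.card_biUnion (fun t ht t' ht' h => hdisj ht ht' h)]
    simp only [Finset.card_image_of_injective _ (mul_left_injective _)]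
    rw [Finset.sum_const, smul_eq_mul, hT0c]
  set c : ℝ := F.card * d with hc
  have hc1 : C ≤ c := by
    rw [hc, hFc]
    push_cast
    have h1 : C / (F0.card * d) ≤ r := Nat.le_ceil _
    rw [div_le_iff₀ (by positivity)] at h1
    linarith
  have hc2 : c ≤ C + 1 := by
    rw [hc, hFc]
    push_cast
    have h1 : (r : ℝ) < C / (F0.card * d) + 1 := Nat.ceil_lt_add_one (by positivity)
    calc (r : ℝ) * F0.card * d = r * (F0.card * d) := by ring
      _ ≤ (C / (F0.card * d) + 1) * (F0.card * d) := by gcongr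
      _ = C + F0.card * d := by field_simp
      _ ≤ C + 1 := by linarith
  have hc0 : 0 < c := by linarith
  -- the pattern
  let Rel : Γ → Γ → Prop := fun a b => (∃ κ ∈ K3 h, ∃ κ' ∈ K3 h, κ * a = κ' * b) ∨
    (∃ κ ∈ K3 h, ∃ f ∈ F, ∃ f' ∈ F, κ * (a * f⁻¹) = b * f'⁻¹) ∨
    (∃ κ ∈ K3 h, ∃ f ∈ F, ∃ f' ∈ F, κ * (b * f⁻¹) = a * f'⁻¹)
  obtain ⟨Q, hQl, hQ⟩ := exists_pairwise Rel (by
    rintro a b (⟨κ, hκ, κ', hκ', e⟩ | h | h)
    · exact Or.inl ⟨κ', hκ', κ, hκ, e.symm⟩
    · exact Or.inr (Or.inr h)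
    · exact Or.inr (Or.inl h)) (by
    intro b
    refine Set.Finite.subset (s := ((((K3 h ×ˢ K3 h).image (fun p => p.1⁻¹ * p.2 * b))
      ∪ ((K3 h ×ˢ (F ×ˢ F)).image (fun p => p.1⁻¹ * (b * p.2.2⁻¹) * p.2.1))
      ∪ ((K3 h ×ˢ (F ×ˢ F)).image (fun p => p.1 * (b * p.2.1⁻¹) * p.2.2)) : Finset Γ)
        : Set Γ)) (Finset.finite_toSet _) ?_
    rintro a (⟨κ, hκ, κ', hκ', e⟩ | ⟨κ, hκ, f, hf, f', hf', e⟩ | ⟨κ, hκ, f, hf, f', hf', e⟩)
    · rw [Finset.mem_coe, Finset.mem_union, Finset.mem_union]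
      refine Or.inl (Or.inl (Finset.mem_image.2 ⟨(κ, κ'),
        Finset.mem_product.2 ⟨hκ, hκ'⟩, ?_⟩))
      show κ⁻¹ * κ' * b = a
      rw [mul_assoc, ← e]; group
    · rw [Finset.mem_coe, Finset.mem_union, Finset.mem_union]
      refine Or.inl (Or.inr (Finset.mem_image.2 ⟨(κ, (f, f')),
        Finset.mem_product.2 ⟨hκ, Finset.mem_product.2 ⟨hf, hf'⟩⟩, ?_⟩))
      show κ⁻¹ * (b * f'⁻¹) * f = a
      rw [← e]; group
    · rw [Finset.mem_coe, Finset.mem_union, Finset.mem_union]
      refine Or.inr (Finset.mem_image.2 ⟨(κ, (f, f')),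
        Finset.mem_product.2 ⟨hκ, Finset.mem_product.2 ⟨hf, hf'⟩⟩, ?_⟩)
      show κ * (b * f⁻¹) * f' = a
      rw [e]; group) l
  have hEP : ∀ m, (iid Γ q).real (Ev h Q m) = d := by
    intro m
    rw [ev_prob h q m Q (fun a ha b hb hab κ hκ κ' hκ' e =>
      hQ a ha b hb hab (Or.inl ⟨κ, hκ, κ', hκ', e⟩)), hQl]
  refine ⟨F, Q, ?_, ?_⟩
  · intro δ hδ
    rw [hEP]
    have h1 : ((F.filter (fun f => δ * f ∉ F)).card : ℝ) ≤ ε * F.card := by
      have hsub : F.filter (fun f => δ * f ∉ F) ⊆ T0.biUnion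
          (fun t => (F0.filter (fun f => δ * f ∉ F0)).image (fun f => f * t)) := by
        intro x hx
        rw [Finset.mem_filter] at hx
        obtain ⟨t, ht, hx1⟩ := Finset.mem_biUnion.1 hx.1
        obtain ⟨f, hf, rfl⟩ := Finset.mem_image.1 hx1
        refine Finset.mem_biUnion.2 ⟨t, ht, Finset.mem_image.2 ⟨f,
          Finset.mem_filter.2 ⟨hf, fun hcon => hx.2 ?_⟩, rfl⟩⟩
        refine Finset.mem_biUnion.2 ⟨t, ht, Finset.mem_image.2 ⟨δ * f, hcon, ?_⟩⟩
        rw [mul_assoc]
      have h2 : (F.filter (fun f => δ * f ∉ F)).card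
          ≤ r * (F0.filter (fun f => δ * f ∉ F0)).card := by
        refine (Finset.card_le_card hsub).trans (Finset.card_biUnion_le.trans ?_)
        simp only [Finset.card_image_of_injective _ (mul_left_injective _)]
        rw [Finset.sum_const, smul_eq_mul, hT0c]
      have h3 : ((F0.filter (fun f => δ * f ∉ F0)).card : ℝ) ≤ ε * F0.card := by
        refine le_trans ?_ (hF0D δ hδ)
        rw [Nat.cast_le, ← Finset.card_image_of_injective _ (mul_right_injective δ)]
        refine Finset.card_le_card ?_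
        intro x hx
        obtain ⟨f, hf, rfl⟩ := Finset.mem_image.1 hx
        rw [Finset.mem_filter] at hf
        exact Finset.mem_sdiff.2 ⟨Finset.mem_image.2 ⟨f, hf.1, rfl⟩, hf.2⟩
      calc ((F.filter (fun f => δ * f ∉ F)).card : ℝ)
          ≤ r * (F0.filter (fun f => δ * f ∉ F0)).card := by exact_mod_cast h2
        _ ≤ r * (ε * F0.card) := by gcongr
        _ = ε * F.card := by rw [hFc]; push_cast; ring
    calc ((F.filter (fun f => δ * f ∉ F)).card : ℝ) * d ≤ ε * F.card * d := by gcongr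
      _ = ε * c := by rw [hc]; ring
      _ ≤ ε * (C + 1) := by gcongr
  · -- second moment
    have hsm := second_moment (iid Γ q) F (fun f => Ev h Q f⁻¹)
      (fun f _ => ev_meas h Q f⁻¹) (a := c) hc0
    have hsumP : ∑ f ∈ F, (iid Γ q).real (Ev h Q f⁻¹) = c := by
      simp only [hEP]
      rw [Finset.sum_const, nsmul_eq_mul]
    refine (measureReal_mono ?_).trans (hsm.trans ?_)
    · intro x hx
      simp only [mem_ofPred_eq] at hx ⊢
      rw [hsumP]
      have : ∑ f ∈ F, (Ev h Q f⁻¹).indicator (fun _ => (1 : ℝ)) x = 0 :=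
        Finset.sum_eq_zero fun f hf => indicator_of_notMem (hx f hf) _
      rw [this, zero_sub, abs_neg, abs_of_pos hc0]
    · have hpair : ∀ f ∈ F, ∑ f' ∈ F, ((iid Γ q).real (Ev h Q f⁻¹ ∩ Ev h Q f'⁻¹)
          - (iid Γ q).real (Ev h Q f⁻¹) * (iid Γ q).real (Ev h Q f'⁻¹)) ≤ 2 * d := by
        intro f hf
        set conf : Finset Γ := F.filter
          (fun f' => ¬ Disjoint (ks h Q f⁻¹) (ks h Q f'⁻¹)) with hconf
        have hconfc : conf.card ≤ 9 * l ^ 2 := by
          have hK : (K3 h).card ≤ 3 := by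
            unfold K3
            exact Finset.card_le_three
          refine (Finset.card_le_card (t := ((K3 h ×ˢ Q) ×ˢ (K3 h ×ˢ Q)).image
            (fun p => (p.1.1 * (p.1.2 * f⁻¹))⁻¹ * (p.2.1 * p.2.2))) ?_).trans
            (Finset.card_image_le.trans ?_)
          · intro f' hf'
            rw [hconf, Finset.mem_filter, Finset.not_disjoint_iff] at hf'
            obtain ⟨_, x, hx, hx'⟩ := hf'
            obtain ⟨κ, hκ, a, ha, e1⟩ := (mem_ks h).1 hx
            obtain ⟨κ', hκ', a', ha', e2⟩ := (mem_ks h).1 hx'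
            refine Finset.mem_image.2 ⟨((κ, a), (κ', a')), ?_, ?_⟩
            · simp only [Finset.mem_product]
              exact ⟨⟨hκ, ha⟩, ⟨hκ', ha'⟩⟩
            · simp only
              rw [e1, ← e2]
              group
          · simp only [Finset.card_product, hQl]
            calc (K3 h).card * l * ((K3 h).card * l) ≤ 3 * l * (3 * l) := by gcongr
              _ = 9 * l ^ 2 := by ring
        calc ∑ f' ∈ F, ((iid Γ q).real (Ev h Q f⁻¹ ∩ Ev h Q f'⁻¹)
            - (iid Γ q).real (Ev h Q f⁻¹) * (iid Γ q).real (Ev h Q f'⁻¹))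
            ≤ ∑ f' ∈ F, ((if f = f' then d else 0) + (if f' ∈ conf then d * β ^ l else 0)) := by
              refine Finset.sum_le_sum fun f' hf' => ?_
              by_cases hff : f = f'
              · subst hff
                rw [if_pos rfl, inter_self, hEP]
                have : 0 ≤ (if f ∈ conf then d * β ^ l else 0) := by
                  split_ifs
                  · positivity
                  · exact le_rfl
                nlinarith
              · rw [if_neg hff, zero_add]
                by_cases hcf : f' ∈ conf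
                · rw [if_pos hcf]
                  have h1 := ev_pair h q Q (m := f⁻¹) (m' := f'⁻¹)
                    (fun e => hff (inv_injective e)) (fun a ha b hb hab κ hκ e =>
                      hQ a ha b hb hab (Or.inr (Or.inr ⟨κ, hκ, f, hf, f', hf', e⟩)))
                  rw [hEP, hQl] at h1
                  rw [hEP, hEP]
                  nlinarith
                · rw [if_neg hcf]
                  have hdj : Disjoint (ks h Q f⁻¹) (ks h Q f'⁻¹) := by
                    by_contra hcon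
                    exact hcf (Finset.mem_filter.2 ⟨hf', hcon⟩)
                  rw [ev_indep h q Q hdj, sub_self]
          _ = d + conf.card * (d * β ^ l) := by
              rw [Finset.sum_add_distrib, Finset.sum_ite_eq, if_pos hf, Finset.sum_ite_mem,
                Finset.inter_eq_right.2 (Finset.filter_subset _ _), Finset.sum_const,
                nsmul_eq_mul]
          _ ≤ d + (9 * (l : ℝ) ^ 2) * (d * β ^ l) := by
              gcongr
              exact_mod_cast hconfc
          _ = d + d * (9 * (l : ℝ) ^ 2 * β ^ l) := by ring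
          _ ≤ d + d * 1 := by gcongr
          _ = 2 * d := by ring
      calc (∑ f ∈ F, ∑ f' ∈ F, ((iid Γ q).real (Ev h Q f⁻¹ ∩ Ev h Q f'⁻¹)
          - (iid Γ q).real (Ev h Q f⁻¹) * (iid Γ q).real (Ev h Q f'⁻¹))) / c ^ 2
          ≤ (∑ f ∈ F, 2 * d) / c ^ 2 := by
            gcongr with f hf
            exact hpair f hf
        _ = 2 / c := by
            rw [Finset.sum_const, nsmul_eq_mul]
            have : (F.card : ℝ) * (2 * d) = 2 * c := by rw [hc]; ring
            rw [this]
            field_simp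
        _ ≤ 2 / C := by gcongr

end ev

end Fiid
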