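import Pool.Agent.helper31.FiidTower

/-!
Construction of a tower from a decreasing sequence of invariant relations.
-/

open MeasureTheory ProbabilityTheory Set Filter
open scoped ENNReal Topology

namespace Fiid

theorem exists_tower {Γ : Type*} [Group Γ] [Countable Γ] {Ω : Type*} [MulAction Γ Ω]
    [MeasurableSpace Ω] [StandardBorelSpace Ω] (P : Measure Ω) [IsProbabilityMeasure P]
    (hmp : ∀ γ : Γ, MeasurePreserving (fun ω : Ω => γ • ω) P P)
    (same : ℕ → Ω → Γ → Γ → Prop)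
    (s0 : ∀ k ω γ, same k ω γ γ)
    (s1 : ∀ k ω γ δ, same k ω γ δ → same k ω δ γ)
    (s1' : ∀ k ω γ δ κ, same k ω γ δ → same k ω δ κ → same k ω γ κ)
    (s2 : ∀ k ω κ γ δ, same k (κ • ω) γ δ ↔ same k ω (γ * κ) (δ * κ))
    (s3 : ∀ k ω γ δ, same k ω γ δ → same (k + 1) ω γ δ)
    (s4 : ∀ k γ δ, MeasurableSet {ω | same k ω γ δ})
    (s5 : ∀ k, ∀ᵐ ω ∂P, {δ | same k ω 1 δ}.Finite)
    (s6 : ∀ d, Tendsto (fun k => P {ω | ¬ same k ω 1 d}) atTop (𝓝 0))
    (s7 : ∀ γ : Γ, γ ≠ 1 → ∀ᵐ ω ∂P, γ • ω ≠ ω) : Nonempty (Tower Γ Ω P) := by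
  classical
  set Good : Set Ω := {ω | (∀ γ : Γ, γ ≠ 1 → γ • ω ≠ ω) ∧
    ∀ (k : ℕ) (γ : Γ), {δ | same k (γ • ω) 1 δ}.Finite} with hGood
  have hGinv : ∀ ω ∈ Good, ∀ κ : Γ, κ • ω ∈ Good := by
    rintro ω ⟨h1, h2⟩ κ
    refine ⟨fun γ hγ e => ?_, fun k γ => ?_⟩
    · refine h1 (κ⁻¹ * γ * κ) (fun e' => hγ ?_) ?_
      · have : γ = κ * (κ⁻¹ * γ * κ) * κ⁻¹ := by group
        rw [this, e']; group
      · rw [mul_smul, mul_smul, e, inv_smul_smul]
    · rw [smul_smul]; exact h2 k (γ * κ)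
  have hfinm : ∀ k, MeasurableSet {ω : Ω | {δ | same k ω 1 δ}.Finite} := by
    intro k
    have : {ω : Ω | {δ | same k ω 1 δ}.Finite}
        = ⋃ A : Finset Γ, ⋂ δ : Γ, ⋂ _ : δ ∉ A, {ω | same k ω 1 δ}ᶜ := by
      ext ω
      simp only [mem_ofPred_eq, mem_iUnion, mem_iInter, mem_compl_iff]
      constructor
      · intro hf
        exact ⟨hf.toFinset, fun δ hδ h => hδ (hf.mem_toFinset.2 h)⟩
      · rintro ⟨A, hA⟩
        refine A.finite_toSet.subset fun δ hδ => ?_
        by_contra hcon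
        exact hA δ hcon hδ
    rw [this]
    exact MeasurableSet.iUnion fun A => MeasurableSet.iInter fun δ => MeasurableSet.iInter fun _ =>
      (s4 k 1 δ).compl
  have hGm : MeasurableSet Good := by
    have : Good = (⋂ γ : Γ, ⋂ _ : γ ≠ 1, {ω : Ω | γ • ω = ω}ᶜ)
        ∩ ⋂ k : ℕ, ⋂ γ : Γ, (fun ω : Ω => γ • ω) ⁻¹' {ω : Ω | {δ | same k ω 1 δ}.Finite} := by
      ext ω
      simp only [hGood, mem_inter_iff, mem_iInter, mem_compl_iff, mem_ofPred_eq, mem_preimage,
        ne_eq]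
    rw [this]
    refine (MeasurableSet.iInter fun γ => MeasurableSet.iInter fun _ => ?_).inter
      (MeasurableSet.iInter fun k => MeasurableSet.iInter fun γ => (hmp γ).measurable (hfinm k))
    exact (measurableSet_eq_fun (hmp γ).measurable measurable_id).compl
  have hGP : P Goodᶜ = 0 := by
    have h1 : ∀ᵐ ω ∂P, ∀ γ : Γ, γ ≠ 1 → γ • ω ≠ ω := by
      rw [ae_all_iff]
      intro γ
      by_cases hγ : γ = 1
      · exact Eventually.of_forall fun ω h => absurd hγ h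
      · filter_upwards [s7 γ hγ] with ω hω _ using hω
    have h2 : ∀ᵐ ω ∂P, ∀ (k : ℕ) (γ : Γ), {δ | same k (γ • ω) 1 δ}.Finite := by
      rw [ae_all_iff]
      intro k
      rw [ae_all_iff]
      intro γ
      exact (hmp γ).quasiMeasurePreserving.ae (s5 k)
    have h3 : ∀ᵐ ω ∂P, ω ∈ Good := by
      filter_upwards [h1, h2] with ω a b using ⟨a, b⟩
    exact h3
  have hfin : ∀ ω ∈ Good, ∀ k, {δ | same k ω 1 δ}.Finite := by
    intro ω hω k
    have := hω.2 k 1
    rwa [one_smul] at this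
  let cls : ℕ → Ω → Finset Γ := fun k ω =>
    if hω : ω ∈ Good then (hfin ω hω k).toFinset else {1}
  have hcls : ∀ k, ∀ ω ∈ Good, ∀ δ, δ ∈ cls k ω ↔ same k ω 1 δ := by
    intro k ω hω δ
    simp only [cls, hω, dite_true, Set.Finite.mem_toFinset, mem_ofPred_eq]
  have hcls' : ∀ k, ∀ ω, ω ∉ Good → cls k ω = {1} := by
    intro k ω hω
    simp only [cls, hω, dite_false]
  have h1 : ∀ k ω, 1 ∈ cls k ω := by
    intro k ω
    by_cases hω : ω ∈ Good
    · rw [hcls k ω hω]; exact s0 _ _ _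
    · rw [hcls' k ω hω]; exact Finset.mem_singleton_self _
  have hs : ∀ k ω γ, γ ∈ cls k ω → ∀ δ, δ ∈ cls k (γ • ω) ↔ δ * γ ∈ cls k ω := by
    intro k ω γ hγ δ
    by_cases hω : ω ∈ Good
    · rw [hcls k _ (hGinv ω hω γ), hcls k ω hω, s2, one_mul]
      rw [hcls k ω hω] at hγ
      exact ⟨fun h => s1' _ _ _ _ _ hγ h, fun h => s1' _ _ _ _ _ (s1 _ _ _ _ hγ) h⟩
    · rw [hcls' k ω hω, Finset.mem_singleton] at hγ
      subst hγ
      rw [one_smul, mul_one]
  have hm : ∀ k (A : Finset Γ), MeasurableSet {ω | cls k ω = A} := by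
    intro k A
    have : {ω | cls k ω = A}
        = (Good ∩ ⋂ δ : Γ, {ω | same k ω 1 δ ↔ δ ∈ A}) ∪ (Goodᶜ ∩ {_ω : Ω | {1} = A}) := by
      ext ω
      simp only [mem_union, mem_inter_iff, mem_iInter, mem_compl_iff, mem_ofPred_eq]
      by_cases hω : ω ∈ Good
      · simp only [hω, true_and, not_true_eq_false, false_and, or_false]
        constructor
        · rintro rfl δ; exact (hcls k ω hω δ).symm
        · intro h; ext δ; rw [hcls k ω hω]; exact h δ
      · simp only [hω, false_and, not_false_eq_true, true_and, false_or]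
        rw [hcls' k ω hω]
    rw [this]
    refine (hGm.inter (MeasurableSet.iInter fun δ => ?_)).union (hGm.compl.inter ?_)
    · by_cases hδ : δ ∈ A
      · simp only [hδ, iff_true]; exact s4 k 1 δ
      · simp only [hδ, iff_false]; exact (s4 k 1 δ).compl
    · by_cases hA : ({1} : Finset Γ) = A
      · simp [hA]
      · simp [hA]
  -- base points
  let e : Ω → ℝ := embeddingReal Ω
  have hem : Measurable e := measurable_embeddingReal Ω
  have hei : Function.Injective e := (measurableEmbedding_embeddingReal Ω).injective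
  have hmin : ∀ k ω, ∃ b ∈ cls k ω, ∀ γ ∈ cls k ω, e (b • ω) ≤ e (γ • ω) := fun k ω =>
    Finset.exists_min_image (cls k ω) (fun γ => e (γ • ω)) ⟨1, h1 k ω⟩
  choose bp hbp1 hbp2 using hmin
  have hbpu : ∀ k ω b, b ∈ cls k ω → (∀ γ ∈ cls k ω, e (b • ω) ≤ e (γ • ω)) → b = bp k ω := by
    intro k ω b hb1 hb2
    by_cases hω : ω ∈ Good
    · have h3 : e (b • ω) = e (bp k ω • ω) :=
        le_antisymm (hb2 _ (hbp1 k ω)) (hbp2 k ω b hb1)
      have h4 := hei h3
      by_contra hne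
      refine hω.1 ((bp k ω)⁻¹ * b) (fun h => hne ?_) ?_
      · exact (inv_mul_eq_one.1 h).symm
      · rw [mul_smul, h4, inv_smul_smul]
    · have h3 := hbp1 k ω
      rw [hcls' k ω hω, Finset.mem_singleton] at hb1 h3
      rw [hb1, h3]
  refine ⟨⟨cls, h1, hs, ?_, hm, ?_, bp, hbp1, ?_, ?_⟩⟩
  · intro k ω δ hδ
    by_cases hω : ω ∈ Good
    · rw [hcls _ ω hω] at hδ ⊢; exact s3 _ _ _ _ hδ
    · rw [hcls' _ ω hω] at hδ ⊢; exact hδ
  · intro D
    have hle : ∀ k, P {ω | ¬ D ⊆ cls k ω} ≤ ∑ d ∈ D, P {ω | ¬ same k ω 1 d} := by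
      intro k
      have hsub : {ω | ¬ D ⊆ cls k ω} ⊆ Goodᶜ ∪ ⋃ d ∈ D, {ω | ¬ same k ω 1 d} := by
        intro ω hω
        by_cases hg : ω ∈ Good
        · right
          rw [mem_ofPred_eq, Finset.not_subset] at hω
          obtain ⟨d, hd, hd'⟩ := hω
          rw [hcls k ω hg] at hd'
          simp only [mem_iUnion]
          exact ⟨d, hd, hd'⟩
        · left; exact hg
      refine (measure_mono hsub).trans ((measure_union_le _ _).trans ?_)
      rw [hGP, zero_add]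
      exact measure_biUnion_finset_le _ _
    have hlim : Tendsto (fun k => ∑ d ∈ D, P {ω | ¬ same k ω 1 d}) atTop (𝓝 0) := by
      have := tendsto_finsetSum D (fun d _ => s6 d)
      simpa using this
    exact tendsto_of_tendsto_of_tendsto_of_le_of_le tendsto_const_nhds hlim
      (fun n => bot_le) hle
  · intro k ω γ hγ
    refine (hbpu k ω _ ?_ ?_)
    · exact (hs k ω γ hγ _).1 (hbp1 k (γ • ω))
    · intro δ hδ
      have h2 : δ * γ⁻¹ ∈ cls k (γ • ω) := by rw [hs k ω γ hγ]; simpa using hδ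
      have h3 := hbp2 k (γ • ω) _ h2
      rw [smul_smul, smul_smul, inv_mul_cancel_right] at h3
      exact h3
  · intro k b
    have : {ω | bp k ω = b} = ⋃ A : Finset Γ, ({ω | cls k ω = A}
        ∩ ({_ω : Ω | b ∈ A} ∩ ⋂ γ ∈ A, {ω | e (b • ω) ≤ e (γ • ω)})) := by
      ext ω
      simp only [mem_iUnion, mem_inter_iff, mem_ofPred_eq, mem_iInter]
      constructor
      · rintro rfl; exact ⟨_, rfl, hbp1 k ω, hbp2 k ω⟩
      · rintro ⟨A, rfl, h3, h4⟩; exact (hbpu k ω b h3 h4).symm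
    rw [this]
    refine MeasurableSet.iUnion fun A => (hm k A).inter (MeasurableSet.inter ?_ ?_)
    · by_cases hA : b ∈ A
      · simp [hA]
      · simp [hA]
    · exact Finset.measurableSet_biInter A fun γ _ => measurableSet_le
        (hem.comp (hmp b).measurable) (hem.comp (hmp γ).measurable)

end Fiid
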