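import Pool.Agent.helper31.FiidEnv1
import Pool.Agent.helper31.FiidTowerEx

/-!
The environment: the field of occurrences, its tower, its sets of coin holders.
-/

open MeasureTheory ProbabilityTheory Set Filter
open scoped ENNReal Topology

namespace Fiid

attribute [local instance] shAction

section env

variable {Γ : Type*} [Group Γ] [DecidableEq Γ] (h : Γ)

/-- The law of the field of occurrences. -/
noncomputable def envLaw (q : Measure Bool) [IsProbabilityMeasure q] : Measure (Γ → Bool) :=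
  (iid Γ q).map (occ h)

omit [DecidableEq Γ] in
lemma envLaw_prob (q : Measure Bool) [IsProbabilityMeasure q] :
    IsProbabilityMeasure (envLaw h q) :=
  Measure.isProbabilityMeasure_map (measurable_occ h).aemeasurable

omit [DecidableEq Γ] in
lemma mp_occ (q : Measure Bool) [IsProbabilityMeasure q] :
    MeasurePreserving (occ h) (iid Γ q) (envLaw h q) := ⟨measurable_occ h, rfl⟩

omit [DecidableEq Γ] in
lemma env_mp (q : Measure Bool) [IsProbabilityMeasure q] (γ : Γ) :
    MeasurePreserving (fun ω : Γ → Bool => γ • ω) (envLaw h q) (envLaw h q) := by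
  refine ⟨measurable_smul_cfg γ, ?_⟩
  have e : (fun ω : Γ → Bool => γ • ω) ∘ occ h = occ h ∘ (fun ω : Γ → Bool => γ • ω) := by
    funext x
    exact (occ_smul h γ x).symm
  rw [envLaw, Measure.map_map (measurable_smul_cfg γ) (measurable_occ h), e,
    ← Measure.map_map (measurable_occ h) (measurable_smul_cfg γ), (mp_smul_cfg q γ).map_eq]

omit [DecidableEq Γ] in
lemma env_mix [Infinite Γ] (q : Measure Bool) [IsProbabilityMeasure q] :
    Mix Γ (envLaw h q) :=
  mix_of_factor measurable_smul_cfg (mix_iid q) (occ h) (mp_occ h q) (fun γ x => occ_smul h γ x)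

/-- Consistent local boxes have positive measure. -/
lemma box_pos (q : Measure Bool) [IsProbabilityMeasure q] (hq : ∀ b, 0 < q.real {b})
    (Z : Finset Γ) (x0 : Γ → Bool) : 0 < (iid Γ q).real {x | ∀ z ∈ Z, x z = x0 z} := by
  have e : {x : Γ → Bool | ∀ z ∈ Z, x z = x0 z} = Set.pi (Z : Set Γ) (fun z => {x0 z}) := by
    ext x; simp [Set.mem_pi]
  rw [e, Measure.real, iid, Measure.infinitePi_pi _ (fun i _ => MeasurableSet.of_discrete),
    ENNReal.toReal_prod]
  exact Finset.prod_pos fun z _ => hq _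

lemma bb_pos {h : Γ} (hh : h * h ≠ 1) (q : Measure Bool) [IsProbabilityMeasure q]
    (hq : ∀ b, 0 < q.real {b}) : 0 < bb h q := by
  have h1 : h ≠ 1 := by rintro rfl; simp at hh
  refine (box_pos q hq ({1, h⁻¹, h * h} : Finset Γ)
    (fun z => if z = 1 then false else true)).trans_le (measureReal_mono ?_)
  intro x hx
  simp only [mem_ofPred_eq] at hx ⊢
  rw [occ_iff]
  have a1 := hx 1 (by simp)
  have a2 := hx h⁻¹ (by simp)
  have a3 := hx (h * h) (by simp)
  rw [if_pos rfl] at a1
  rw [if_neg (by simpa using h1)] at a2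
  rw [if_neg hh] at a3
  rw [mul_one, mul_one]
  exact ⟨a1, a2, a3⟩

/-- The sets of coin holders. -/
def Hn (g : ℕ → Γ) (n : ℕ) : Set (Γ → Bool) :=
  {ω | ω h⁻¹ = true ∧ (∀ i < n, ω (g i) = false) ∧ ω (g n) = true}

omit [DecidableEq Γ] in
lemma Hn_meas (g : ℕ → Γ) (n : ℕ) : MeasurableSet (Hn h g n) := by
  have e : Hn h g n = {ω | ω h⁻¹ = true} ∩ ((⋂ i : ℕ, ⋂ _ : i < n, {ω | ω (g i) = false})
      ∩ {ω | ω (g n) = true}) := by
    ext ω
    simp only [Hn, mem_ofPred_eq, mem_inter_iff, mem_iInter]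
  have hm : ∀ (γ : Γ) (b : Bool), MeasurableSet {ω : Γ → Bool | ω γ = b} := fun γ b =>
    (measurable_pi_apply (X := fun _ : Γ => Bool) γ) (measurableSet_singleton b)
  rw [e]
  exact (hm _ _).inter ((MeasurableSet.iInter fun i => MeasurableSet.iInter fun _ =>
    hm _ _).inter (hm _ _))

omit [DecidableEq Γ] in
lemma Hn_disj (g : ℕ → Γ) {i j : ℕ} (hij : i < j) : Disjoint (Hn h g i) (Hn h g j) := by
  rw [Set.disjoint_left]
  rintro ω ⟨_, _, h1⟩ ⟨_, h2, _⟩
  rw [h2 i hij] at h1
  exact Bool.false_ne_true h1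

lemma Hn_pos {h : Γ} (hh : h * h ≠ 1) (q : Measure Bool) [IsProbabilityMeasure q]
    (hq : ∀ b, 0 < q.real {b}) {g : ℕ → Γ} (hg : Function.Injective g)
    (hgb : ∀ n, g n ∉ ({h⁻¹, h⁻¹ * h⁻¹, h, 1, h⁻¹ * h⁻¹ * h⁻¹} : Finset Γ)) (n : ℕ) :
    0 < (envLaw h q).real (Hn h g n) := by
  have h1 : h ≠ 1 := by rintro rfl; simp at hh
  simp only [Finset.mem_insert, Finset.mem_singleton, not_or] at hgb
  have e : (envLaw h q).real (Hn h g n) = (iid Γ q).real (occ h ⁻¹' (Hn h g n)) := by
    rw [Measure.real, ← (mp_occ h q).measure_preimage (Hn_meas h g n).nullMeasurableSet]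
    rfl
  rw [e]
  set x0 : Γ → Bool := fun z => if z = h⁻¹ ∨ z = g n then false else true with hx0
  set Z : Finset Γ := {h⁻¹, h⁻¹ * h⁻¹, h * h * h⁻¹, g n, h⁻¹ * g n, h * h * g n}
    ∪ (Finset.range n).image g with hZ
  refine (box_pos q hq Z x0).trans_le (measureReal_mono ?_)
  intro x hx
  simp only [mem_ofPred_eq] at hx
  obtain ⟨g1, g2, g3, g4, g5⟩ := hgb n
  have a1 : x h⁻¹ = false := by
    rw [hx h⁻¹ (by simp [hZ])]; exact if_pos (Or.inl rfl)
  have a2 := hx (h⁻¹ * h⁻¹) (by simp [hZ])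
  have a3 := hx (h * h * h⁻¹) (by simp [hZ])
  have a4 : x (g n) = false := by
    rw [hx (g n) (by simp [hZ])]; exact if_pos (Or.inr rfl)
  have a5 := hx (h⁻¹ * g n) (by simp [hZ])
  have a6 := hx (h * h * g n) (by simp [hZ])
  have a7 : ∀ i < n, x (g i) = x0 (g i) := fun i hi => hx (g i) (by
    rw [hZ, Finset.mem_union]
    exact Or.inr (Finset.mem_image.2 ⟨i, Finset.mem_range.2 hi, rfl⟩))
  simp only [hx0] at a2 a3 a5 a6 a7
  rw [if_neg] at a2
  rw [if_neg] at a3
  rw [if_neg] at a5
  rw [if_neg] at a6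
  · refine ⟨?_, ?_, ?_⟩
    · rw [occ_iff]; exact ⟨a1, a2, a3⟩
    · intro i hi
      have a8 := a7 i hi
      rw [if_neg] at a8
      · simp only [occ, a8, Bool.not_true, Bool.false_and]
      · rintro (e | e)
        · exact (hgb i).1 e
        · exact hi.ne (hg e)
    · rw [occ_iff]; exact ⟨a4, a5, a6⟩
  · rintro (e | e)
    · apply g5
      have : g n = (h * h)⁻¹ * h⁻¹ := by rw [← e]; group
      rw [this]; group
    · exact hh (mul_eq_right.1 e)
  · rintro (e | e)
    · apply g4
      have := congrArg (fun z => h * z) e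
      simpa using this
    · exact h1 (inv_eq_one.1 (mul_eq_right.1 e))
  · rintro (e | e)
    · have : h * h * h⁻¹ = h := by group
      rw [this] at e
      apply hh
      rw [← mul_inv_cancel h, ← e]
    · have : h * h * h⁻¹ = h := by group
      rw [this] at e
      exact g3 e.symm
  · rintro (e | e)
    · exact h1 (inv_eq_one.1 (mul_eq_right.1 e))
    · exact g2 e.symm

/-- The action on the environment is almost surely free. -/
lemma env_free [Infinite Γ] [Countable Γ] {h : Γ} (hh : h * h ≠ 1) (q : Measure Bool)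
    [IsProbabilityMeasure q] (hq : ∀ b, 0 < q.real {b}) {γ : Γ} (hγ : γ ≠ 1) :
    ∀ᵐ ω ∂(envLaw h q), γ • ω ≠ ω := by
  have hb0 := bb_pos hh q hq
  set e := bb h q * q.real {true} with he
  have he0 : 0 < e := mul_pos hb0 (hq true)
  -- the events
  let E : Γ → Set (Γ → Bool) := fun δ => {x | occ h x δ = true ∧ x (δ * γ) = true}
  let Tδ : Γ → Finset Γ := fun δ => insert (δ * γ) ((K3 h).image (fun κ => κ * δ))
  have hocm : ∀ δ, MeasurableSet {x : Γ → Bool | occ h x δ = true} := fun δ =>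
    ((measurable_pi_apply (X := fun _ : Γ => Bool) δ).comp (measurable_occ h))
      (measurableSet_singleton true)
  have htm : ∀ δ, MeasurableSet {x : Γ → Bool | x δ = true} := fun δ =>
    (measurable_pi_apply (X := fun _ : Γ => Bool) δ) (measurableSet_singleton true)
  have hEm : ∀ δ, MeasurableSet (E δ) := fun δ => (hocm δ).inter (htm _)
  have hocd : ∀ δ, DependsOn (fun x => x ∈ {x : Γ → Bool | occ h x δ = true})
      (((K3 h).image (fun κ => κ * δ) : Finset Γ) : Set Γ) := by
    intro δ x y hxy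
    simp only [mem_ofPred_eq]
    rw [occ_dep h (x := x) (y := y) (u := δ) fun κ hκ => hxy _ (Finset.mem_coe.2
      (Finset.mem_image.2 ⟨κ, hκ, rfl⟩))]
  have hEd : ∀ δ, DependsOn (fun x => x ∈ E δ) ((Tδ δ : Finset Γ) : Set Γ) := by
    intro δ x y hxy
    have h1 := hocd δ (x := x) (y := y) (fun i hi => hxy i (by
      rw [Finset.mem_coe] at hi ⊢
      exact Finset.mem_insert_of_mem hi))
    have h2 := hxy (δ * γ) (Finset.mem_coe.2 (Finset.mem_insert_self _ _))
    simp only [mem_ofPred_eq] at h1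
    simp only [E, mem_ofPred_eq, h1, h2]
  have hEP : ∀ δ, e ≤ (iid Γ q).real (E δ) := by
    intro δ
    by_cases hc : δ * γ ∈ (K3 h).image (fun κ => κ * δ)
    · obtain ⟨κ, hκ, hκe⟩ := Finset.mem_image.1 hc
      have hsub : {x : Γ → Bool | occ h x δ = true} ⊆ E δ := by
        intro x hx
        refine ⟨hx, ?_⟩
        have o := occ_iff.1 hx
        simp only [K3, Finset.mem_insert, Finset.mem_singleton] at hκ
        rcases hκ with rfl | rfl | rfl
        · rw [one_mul] at hκe
          exact absurd (mul_eq_left.1 hκe.symm) hγ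
        · rw [← hκe]; exact o.2.1
        · rw [← hκe]; exact o.2.2
      calc e ≤ bb h q * 1 := by
            rw [he]
            gcongr
            exact measureReal_le_one
        _ = (iid Γ q).real {x | occ h x δ = true} := by rw [mul_one, occ_prob]
        _ ≤ _ := measureReal_mono hsub
    · have hd : Disjoint ((K3 h).image (fun κ => κ * δ)) {δ * γ} :=
        Finset.disjoint_singleton_right.2 hc
      have htd : DependsOn (fun x => x ∈ {x : Γ → Bool | x (δ * γ) = true})
          ((({δ * γ} : Finset Γ) : Set Γ)) := by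
        intro x y hxy
        simp only [mem_ofPred_eq]
        rw [hxy (δ * γ) (by simp)]
      have h1 := indep_two q hd (hocm δ) (htm (δ * γ)) (hocd δ) htd
      have h2 : (iid Γ q).real (E δ) = (iid Γ q).real {x | occ h x δ = true}
          * (iid Γ q).real {x | x (δ * γ) = true} := by
        rw [Measure.real, Measure.real, Measure.real, ← ENNReal.toReal_mul, ← h1]
        rfl
      have h3 : (iid Γ q).real {x : Γ → Bool | x (δ * γ) = true} = q.real {true} := by
        have e : {x : Γ → Bool | x (δ * γ) = true} = Set.pi (({δ * γ} : Finset Γ) : Set Γ)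
            (fun _ => {true}) := by
          ext x; simp
        rw [e, Measure.real, iid,
          Measure.infinitePi_pi _ (fun i _ => MeasurableSet.of_discrete)]
        simp [Measure.real]
      rw [h2, h3, occ_prob]
  have hbound : ∀ n : ℕ, 0 < n →
      (iid Γ q).real {x | γ • occ h x = occ h x} ≤ 1 / (n * e ^ 2) := by
    intro n hn
    have hn' : (0 : ℝ) < n := by exact_mod_cast hn
    obtain ⟨G, hGn, hG⟩ := exists_pairwise (fun a b => ¬ Disjoint (Tδ a) (Tδ b))
      (fun a b hab => fun hc => hab hc.symm) (by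
      intro b
      refine Set.Finite.subset (s := (((K3 h ×ˢ Tδ b).image (fun p => p.1⁻¹ * p.2))
        ∪ (Tδ b).image (fun x => x * γ⁻¹) : Finset Γ)) (Finset.finite_toSet _) ?_
      intro a ha
      rw [mem_ofPred_eq, Finset.not_disjoint_iff] at ha
      obtain ⟨x, hx, hx'⟩ := ha
      rw [Finset.mem_coe, Finset.mem_union]
      rcases Finset.mem_insert.1 hx with hx | hx
      · right
        exact Finset.mem_image.2 ⟨x, hx', by rw [hx]; group⟩
      · left
        obtain ⟨κ, hκ, rfl⟩ := Finset.mem_image.1 hx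
        exact Finset.mem_image.2 ⟨(κ, κ * a), Finset.mem_product.2 ⟨hκ, hx'⟩, by simp⟩) n
    have hcc := concentration (iid Γ q) G E (fun δ _ => hEm δ) (fun a b => a = b)
      (fun a ha b hb hab => indep_two q (by
        by_contra hc
        exact hG a ha b hb hab hc) (hEm a) (hEm b) (hEd a) (hEd b)) 1
      (fun a _ => by
        rw [Finset.card_le_one]
        intro x hx y hy
        rw [Finset.mem_filter] at hx hy
        rw [← hx.2, ← hy.2]) (a := n * e) (by positivity)
    refine (measureReal_mono ?_).trans (hcc.trans ?_)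
    · intro x hx
      simp only [mem_ofPred_eq] at hx ⊢
      have h0 : ∑ i ∈ G, (E i).indicator (fun _ => (1 : ℝ)) x = 0 := by
        refine Finset.sum_eq_zero fun δ _ => indicator_of_notMem ?_ _
        rintro ⟨h1, h2⟩
        have h3 := congrFun hx δ
        rw [smul_cfg, h1] at h3
        have h4 := (occ_iff.1 h3).1
        rw [h2] at h4
        exact Bool.false_ne_true h4.symm
      rw [h0, zero_sub, abs_neg]
      refine le_trans ?_ (le_abs_self _)
      calc (n : ℝ) * e = ∑ i ∈ G, e := by rw [Finset.sum_const, nsmul_eq_mul, hGn]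
        _ ≤ _ := Finset.sum_le_sum fun i _ => hEP i
    · rw [hGn, Nat.cast_one, one_mul]
      refine le_of_eq ?_
      field_simp
  have hzero : (iid Γ q).real {x | γ • occ h x = occ h x} = 0 := by
    have hlim : Tendsto (fun n : ℕ => 1 / ((n : ℝ) * e ^ 2)) atTop (𝓝 0) := by
      have := tendsto_const_div_atTop_nhds_zero_nat (1 / e ^ 2)
      refine this.congr fun n => ?_
      rw [div_div, mul_comm]
    refine le_antisymm ?_ measureReal_nonneg
    refine ge_of_tendsto hlim ?_
    filter_upwards [eventually_gt_atTop 0] with n hn using hbound n hn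
  have hms : MeasurableSet {ω : Γ → Bool | γ • ω = ω} :=
    measurableSet_eq_fun (measurable_smul_cfg γ) measurable_id
  show (envLaw h q) {ω | ¬ (γ • ω ≠ ω)} = 0
  simp only [ne_eq, not_not]
  rw [← (mp_occ h q).measure_preimage hms.nullMeasurableSet]
  rw [Measure.real, ENNReal.toReal_eq_zero_iff] at hzero
  exact hzero.resolve_right (measure_ne_top _ _)

/-- Occurrences at all the points of `Q`. -/
def cy (Q : Finset Γ) : Set (Γ → Bool) := {ω | ∀ a ∈ Q, ω a = true}

omit [Group Γ] [DecidableEq Γ] in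
lemma cy_meas (Q : Finset Γ) : MeasurableSet (cy Q) := by
  have : cy Q = ⋂ a ∈ Q, {ω : Γ → Bool | ω a = true} := by
    ext ω; simp [cy]
  rw [this]
  exact Finset.measurableSet_biInter Q fun a _ =>
    (measurable_pi_apply (X := fun _ : Γ => Bool) a) (measurableSet_singleton true)

omit [DecidableEq Γ] in
lemma mem_cy_iff (Q : Finset Γ) (m : Γ) (x : Γ → Bool) :
    m • occ h x ∈ cy Q ↔ x ∈ Ev h Q m := by
  simp only [cy, Ev, mem_ofPred_eq, smul_cfg]

/-- The tower on the environment. -/
theorem env_tower [Infinite Γ] [Countable Γ] (hFol : Folner Γ) {h : Γ} (hh : h * h ≠ 1)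
    (q : Measure Bool) [IsProbabilityMeasure q] (hq : ∀ b, 0 < q.real {b}) :
    Nonempty (Tower Γ (Γ → Bool) (envLaw h q)) := by
  have hPp := envLaw_prob h q
  have hq1 : q.real {false} < 1 := by
    have h1 : q.real {false} + q.real {true} ≤ 1 := by
      rw [← measureReal_union (by simp) (measurableSet_singleton _)]
      exact measureReal_le_one
    have := hq true
    linarith
  obtain ⟨en, hen⟩ := exists_surjective_nat Γ
  have hlev := fun j : ℕ => level h hFol q (bb_pos hh q hq) hq1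
    ((Finset.range j).image en) (ε := (1 / 2 : ℝ) ^ j / ((j : ℝ) + 1 + 1)) (by positivity)
    (C := (j : ℝ) + 1) (by linarith [(Nat.cast_nonneg j : (0 : ℝ) ≤ j)])
  choose F Q hFQ1 hFQ2 using hlev
  set P := envLaw h q with hP
  have hcyP : ∀ j, ∀ m : Γ, P {ω | m • ω ∈ cy (Q j)} = (iid Γ q) (Ev h (Q j) 1) := by
    intro j m
    have e1 : P {ω | m • ω ∈ cy (Q j)} = P (cy (Q j)) :=
      (env_mp h q m).measure_preimage (cy_meas (Q j)).nullMeasurableSet
    rw [e1, hP, ← (mp_occ h q).measure_preimage (cy_meas (Q j)).nullMeasurableSet]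
    congr 1
    ext x
    rw [mem_preimage, ← mem_cy_iff, one_smul]
  let same : ℕ → (Γ → Bool) → Γ → Γ → Prop := fun k ω γ δ =>
    ∀ j, k ≤ j → ∀ m : Γ, m • ω ∈ cy (Q j) → (γ * m⁻¹ ∈ F j ↔ δ * m⁻¹ ∈ F j)
  have hcym : ∀ j, ∀ m : Γ, MeasurableSet {ω : Γ → Bool | m • ω ∈ cy (Q j)} := fun j m =>
    (measurable_smul_cfg m) (cy_meas (Q j))
  -- measure of the pairs that are separated
  have hsep : ∀ d : Γ, ∀ j, (∃ i < j, en i = d) → (∃ i < j, en i = d⁻¹) →
      P {ω | ¬ ∀ m : Γ, m • ω ∈ cy (Q j) → (1 * m⁻¹ ∈ F j ↔ d * m⁻¹ ∈ F j)}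
        ≤ ENNReal.ofReal (2 * (1 / 2 : ℝ) ^ j) := by
    intro d j hd hd'
    have hone : ∀ δ : Γ, (∃ i < j, en i = δ) →
        (((F j).filter (fun f => δ * f ∉ F j)).card : ℝ≥0∞) * (iid Γ q) (Ev h (Q j) 1)
          ≤ ENNReal.ofReal ((1 / 2 : ℝ) ^ j) := by
      intro δ hδ
      obtain ⟨i, hi, hi'⟩ := hδ
      have h1 := hFQ1 j δ (Finset.mem_image.2 ⟨i, Finset.mem_range.2 hi, hi'⟩)
      have h2 : (1 / 2 : ℝ) ^ j / ((j : ℝ) + 1 + 1) * ((j : ℝ) + 1 + 1) = (1 / 2 : ℝ) ^ j := by
        field_simp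
      rw [h2] at h1
      rw [← ENNReal.ofReal_toReal (measure_ne_top (iid Γ q) (Ev h (Q j) 1)),
        ← ENNReal.ofReal_natCast, ← ENNReal.ofReal_mul (Nat.cast_nonneg _)]
      exact ENNReal.ofReal_le_ofReal h1
    have hsub : {ω : Γ → Bool | ¬ ∀ m : Γ, m • ω ∈ cy (Q j) →
          (1 * m⁻¹ ∈ F j ↔ d * m⁻¹ ∈ F j)}
        ⊆ (⋃ f ∈ (F j).filter (fun f => d * f ∉ F j), {ω | f⁻¹ • ω ∈ cy (Q j)})
          ∪ (⋃ f ∈ (F j).filter (fun f => d⁻¹ * f ∉ F j), {ω | (f⁻¹ * d) • ω ∈ cy (Q j)}) := by
      intro ω hω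
      simp only [mem_ofPred_eq, not_forall] at hω
      obtain ⟨m, hm, hne⟩ := hω
      rw [one_mul] at hne
      simp only [mem_union, mem_iUnion, Finset.mem_filter, mem_ofPred_eq, exists_prop]
      by_cases h1 : m⁻¹ ∈ F j
      · left
        refine ⟨m⁻¹, ⟨h1, fun h2 => hne ⟨fun _ => h2, fun _ => h1⟩⟩, ?_⟩
        rw [inv_inv]; exact hm
      · right
        have h2 : d * m⁻¹ ∈ F j := by
          by_contra h2
          exact hne ⟨fun h => absurd h h1, fun h => absurd h h2⟩
        refine ⟨d * m⁻¹, ⟨h2, ?_⟩, ?_⟩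
        · rw [inv_mul_cancel_left]; exact h1
        · have : (d * m⁻¹)⁻¹ * d = m := by group
          rw [this]; exact hm
    refine (measure_mono hsub).trans ((measure_union_le _ _).trans ?_)
    rw [two_mul, ENNReal.ofReal_add (by positivity) (by positivity)]
    refine add_le_add ?_ ?_
    · refine (measure_biUnion_finset_le _ _).trans ?_
      simp only [hcyP]
      rw [Finset.sum_const, nsmul_eq_mul]
      exact hone d hd
    · refine (measure_biUnion_finset_le _ _).trans ?_
      simp only [hcyP]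
      rw [Finset.sum_const, nsmul_eq_mul]
      exact hone d⁻¹ hd'
  refine exists_tower P (env_mp h q) same ?_ ?_ ?_ ?_ ?_ ?_ ?_ ?_ ?_
  · intro k ω γ j _ m _
    exact Iff.rfl
  · intro k ω γ δ hs j hj m hm
    exact (hs j hj m hm).symm
  · intro k ω γ δ κ h1 h2 j hj m hm
    exact (h1 j hj m hm).trans (h2 j hj m hm)
  · intro k ω κ γ δ
    constructor
    · intro hs j hj m hm
      have := hs j hj (m * κ⁻¹) (by rw [smul_smul, inv_mul_cancel_right]; exact hm)
      simpa [mul_assoc] using this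
    · intro hs j hj m hm
      rw [smul_smul] at hm
      have := hs j hj (m * κ) hm
      simpa [mul_assoc] using this
  · intro k ω γ δ hs j hj m hm
    exact hs j (by omega) m hm
  · intro k γ δ
    have : {ω : Γ → Bool | same k ω γ δ} = ⋂ j : ℕ, ⋂ _ : k ≤ j, ⋂ m : Γ,
        ({ω : Γ → Bool | m • ω ∈ cy (Q j)}ᶜ ∪ {_ω | γ * m⁻¹ ∈ F j ↔ δ * m⁻¹ ∈ F j}) := by
      ext ω
      simp only [same, mem_ofPred_eq, mem_iInter, mem_union, mem_compl_iff]
      refine forall_congr' fun j => forall_congr' fun hj => forall_congr' fun m => ?_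
      tauto
    rw [this]
    refine MeasurableSet.iInter fun j => MeasurableSet.iInter fun _ =>
      MeasurableSet.iInter fun m => (hcym j m).compl.union ?_
    by_cases hc : (γ * m⁻¹ ∈ F j ↔ δ * m⁻¹ ∈ F j)
    · simp [hc]
    · simp [hc]
  · -- finite classes
    intro k
    have hle : ∀ j, k ≤ j → P {ω | ¬ {δ | same k ω 1 δ}.Finite}
        ≤ ENNReal.ofReal (2 / ((j : ℝ) + 1)) := by
      intro j hj
      have hsub : {ω : Γ → Bool | ¬ {δ | same k ω 1 δ}.Finite}
          ⊆ {ω | ∀ f ∈ F j, f⁻¹ • ω ∉ cy (Q j)} := by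
        intro ω hω f hf hcy
        apply hω
        refine Set.Finite.subset ((F j).image (fun x => x * f⁻¹)).finite_toSet ?_
        intro δ hδ
        have h1 := (hδ j hj f⁻¹ hcy).1 (by rw [one_mul, inv_inv]; exact hf)
        rw [inv_inv] at h1
        rw [Finset.mem_coe, Finset.mem_image]
        exact ⟨_, h1, by group⟩
      have hms : MeasurableSet {ω : Γ → Bool | ∀ f ∈ F j, f⁻¹ • ω ∉ cy (Q j)} := by
        have : {ω : Γ → Bool | ∀ f ∈ F j, f⁻¹ • ω ∉ cy (Q j)}
            = ⋂ f ∈ F j, {ω : Γ → Bool | f⁻¹ • ω ∈ cy (Q j)}ᶜ := by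
          ext ω; simp
        rw [this]
        exact Finset.measurableSet_biInter _ fun f _ => (hcym j f⁻¹).compl
      refine (measure_mono hsub).trans ?_
      rw [hP, ← (mp_occ h q).measure_preimage hms.nullMeasurableSet,
        ← ENNReal.ofReal_toReal (measure_ne_top (iid Γ q) _)]
      exact ENNReal.ofReal_le_ofReal (hFQ2 j)
    have hlim : Tendsto (fun j : ℕ => ENNReal.ofReal (2 / ((j : ℝ) + 1))) atTop (𝓝 0) := by
      rw [← ENNReal.ofReal_zero]
      refine ENNReal.tendsto_ofReal ?_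
      have := (tendsto_one_div_add_atTop_nhds_zero_nat (𝕜 := ℝ)).const_mul 2
      simp only [mul_one_div, mul_zero] at this
      exact this
    refine le_antisymm (ge_of_tendsto hlim ?_) bot_le
    filter_upwards [eventually_ge_atTop k] with j hj using hle j hj
  · -- exhaustion
    intro d
    obtain ⟨i1, hi1⟩ := hen d
    obtain ⟨i2, hi2⟩ := hen d⁻¹
    have hle : ∀ k, max i1 i2 + 1 ≤ k → P {ω | ¬ same k ω 1 d}
        ≤ ∑' i : ℕ, ENNReal.ofReal (2 * (1 / 2 : ℝ) ^ (i + k)) := by
      intro k hk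
      have hsub : {ω : Γ → Bool | ¬ same k ω 1 d} ⊆ ⋃ i : ℕ, {ω | ¬ ∀ m : Γ,
          m • ω ∈ cy (Q (i + k)) → (1 * m⁻¹ ∈ F (i + k) ↔ d * m⁻¹ ∈ F (i + k))} := by
        intro ω hω
        simp only [same, mem_ofPred_eq, not_forall] at hω
        obtain ⟨j, hj, m, hm, hne⟩ := hω
        obtain ⟨i, rfl⟩ := Nat.exists_eq_add_of_le' hj
        rw [mem_iUnion]
        refine ⟨i, ?_⟩
        simp only [mem_ofPred_eq, not_forall]
        exact ⟨m, hm, hne⟩
      refine (measure_mono hsub).trans ((measure_iUnion_le _).trans ?_)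
      refine ENNReal.tsum_le_tsum fun i => hsep d (i + k) ⟨i1, ?_, hi1⟩ ⟨i2, ?_, hi2⟩
      · have := le_max_left i1 i2; omega
      · have := le_max_right i1 i2; omega
    have hsum : ∑' i : ℕ, ENNReal.ofReal (2 * (1 / 2 : ℝ) ^ i) ≠ ∞ := by
      rw [← ENNReal.ofReal_tsum_of_nonneg (fun n => by positivity)
        (summable_geometric_two.mul_left 2)]
      exact ENNReal.ofReal_ne_top
    have hlim := ENNReal.tendsto_sum_nat_add (fun i => ENNReal.ofReal (2 * (1 / 2 : ℝ) ^ i)) hsum
    refine tendsto_of_tendsto_of_tendsto_of_le_of_le' tendsto_const_nhds hlim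
      (Eventually.of_forall fun n => bot_le) ?_
    filter_upwards [eventually_ge_atTop (max i1 i2 + 1)] with k hk using hle k hk
  · intro γ hγ
    exact env_free hh q hq hγ

end env

end Fiid
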