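import Mathlib

/-!
# Factor-of-iid LCL problems: definitions

The definitions used in the statement about `MP_d941c8_lc`: the shift on configurations, the
free part of the Bernoulli shift, LCL problems on a group, the class `FIID` of the LCL problems
which have a measurable solution on the free part, and Foelner's condition (amenability).
-/

open MeasureTheory

namespace FiidLCL

universe u v

/-- The shift action of `Γ` on the configurations `Γ → X`: `(γ · x)(δ) = x(δ γ)`. -/
def shift {Γ : Type u} [Group Γ] {X : Type v} (γ : Γ) (x : Γ → X) : Γ → X :=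
  fun δ => x (δ * γ)

/-- An LCL problem on `Γ`: a finite set of labels (written `Fin k`), a finite window in `Γ`
and a set of allowed patterns on the window. -/
structure LCL (Γ : Type u) where
  /-- the number of labels -/
  k : ℕ
  /-- the window -/
  window : Finset Γ
  /-- the allowed patterns -/
  allowed : Set (window → Fin k)

/-- The free part of the shift: the configurations `x` with `γ · x ≠ x` for all `γ ≠ 1`. -/
def freePart (Γ : Type u) [Group Γ] (X : Type v) : Set (Γ → X) :=
  {x | ∀ γ : Γ, γ ≠ 1 → shift γ x ≠ x}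

/-- The class `FIID(X, μ, Γ)`: the LCL problems `L` on `Γ` for which there is an invariant
set `Z`, contained in the free part and conull in it for the product measure `μ^Γ`, and a
`μ^Γ`-measurable map `f` from `Z` to the labels such that for all `x ∈ Z` the pattern
`δ ↦ f(δ · x)` on the window of `L` is allowed. -/
def FIID (Γ : Type u) [Group Γ] {X : Type v} [MeasurableSpace X] (μ : Measure X)
    [IsProbabilityMeasure μ] : Set (LCL Γ) :=
  {L | ∃ (Z : Set (Γ → X)) (hZ : ∀ γ : Γ, ∀ x ∈ Z, shift γ x ∈ Z) (f : Z → Fin L.k),
    Z ⊆ freePart Γ X ∧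
    Measure.infinitePi (fun _ : Γ => μ) (freePart Γ X \ Z) = 0 ∧
    (∀ a, NullMeasurableSet (Subtype.val '' (f ⁻¹' {a}))
      (Measure.infinitePi (fun _ : Γ => μ))) ∧
    ∀ x : Z, (fun δ : L.window => f ⟨shift δ.1 x.1, hZ δ.1 x.1 x.2⟩) ∈ L.allowed}

open Classical in
/-- Foelner's condition, which is equivalent to amenability: for every finite `D ⊆ Γ` and
`ε > 0` there is a nonempty finite `F ⊆ Γ` with `|dF \ F| ≤ ε |F|` for all `d ∈ D`. -/
def Folner (Γ : Type u) [Group Γ] : Prop :=
  ∀ (D : Finset Γ) (ε : ℝ), 0 < ε → ∃ F : Finset Γ, F.Nonempty ∧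
    ∀ d ∈ D, ((F.image (fun f => d * f) \ F).card : ℝ) ≤ ε * F.card

end FiidLCL
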