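import Pool.Agent.helper31.FiidMain
import Pool.Agent.helper31.FiidStmt

/-!
From almost everywhere solutions to the class `FIID`, and the case of finite groups.
-/

open MeasureTheory ProbabilityTheory Set Filter
open scoped ENNReal Topology

namespace Fiid

attribute [local instance] shAction

lemma exists_mid_set {X : Type*} [MeasurableSpace X] [StandardBorelSpace X] (μ : Measure X)
    [IsProbabilityMeasure μ] (hμ : ∀ x, μ {x} ≠ 1) :
    ∃ A : Set X, MeasurableSet A ∧ μ A ≠ 0 ∧ μ Aᶜ ≠ 0 := by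
  by_contra hcon
  push Not at hcon
  obtain ⟨S, hS1, hS2⟩ := exists_seq_separating X (p := MeasurableSet) MeasurableSet.empty univ
  let B : ℕ → Set X := fun n => if μ (S n) = 0 then (S n)ᶜ else S n
  have hB : ∀ n, μ (B n)ᶜ = 0 := by
    intro n
    by_cases h : μ (S n) = 0
    · simp only [B, h, if_true, compl_compl]
    · simp only [B, h, if_false]
      exact hcon _ (hS1 n) h
  have hI : μ (⋂ n, B n)ᶜ = 0 := by
    rw [compl_iInter]
    exact measure_iUnion_null hB
  have hne : (⋂ n, B n).Nonempty := by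
    rw [nonempty_iff_ne_empty]
    intro he
    rw [he, compl_empty, measure_univ] at hI
    exact one_ne_zero hI
  obtain ⟨x, hx⟩ := hne
  have hsub : (⋂ n, B n) ⊆ {x} := by
    intro y hy
    refine hS2 y (mem_univ _) x (mem_univ _) fun n => ?_
    have h1 := mem_iInter.1 hx n
    have h2 := mem_iInter.1 hy n
    by_cases h : μ (S n) = 0
    · simp only [B, h, if_true, mem_compl_iff] at h1 h2
      exact ⟨fun h' => absurd h' h2, fun h' => absurd h' h1⟩
    · simp only [B, h, if_false] at h1 h2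
      exact ⟨fun _ => h1, fun _ => h2⟩
  apply hμ x
  have h3 : μ {x}ᶜ = 0 := measure_mono_null (compl_subset_compl.2 hsub) hI
  exact (prob_compl_eq_zero_iff (measurableSet_singleton x)).1 h3

section factor

variable {Γ : Type*} [Group Γ] {X : Type*} [MeasurableSpace X]

open Classical in
/-- The factor map to configurations of bits. -/
noncomputable def bitmap (A : Set X) (x : Γ → X) : Γ → Bool := fun γ => decide (x γ ∈ A)

/-- The law of the bit. -/
noncomputable def bitLaw (μ : Measure X) (A : Set X) : Measure Bool := by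
  classical
  exact μ.map (fun x => decide (x ∈ A))

lemma measurable_bit {A : Set X} (hA : MeasurableSet A) [DecidablePred (· ∈ A)] :
    Measurable (fun x => decide (x ∈ A)) := by
  refine measurable_to_bool ?_
  have : (fun x => decide (x ∈ A)) ⁻¹' {true} = A := by
    ext x; simp
  rw [this]; exact hA

lemma bitLaw_prob (μ : Measure X) [IsProbabilityMeasure μ] {A : Set X} (hA : MeasurableSet A) :
    IsProbabilityMeasure (bitLaw μ A) := by
  classical
  exact Measure.isProbabilityMeasure_map (measurable_bit hA).aemeasurable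

lemma bitLaw_pos (μ : Measure X) [IsProbabilityMeasure μ] {A : Set X} (hA : MeasurableSet A)
    (h1 : μ A ≠ 0) (h2 : μ Aᶜ ≠ 0) (b : Bool) : 0 < (bitLaw μ A).real {b} := by
  classical
  have hm := measurable_bit hA
  have : (bitLaw μ A).real {b} = μ.real ((fun x => decide (x ∈ A)) ⁻¹' {b}) := by
    unfold bitLaw
    exact map_measureReal_apply hm (measurableSet_singleton b)
  rw [this, Measure.real]
  refine ENNReal.toReal_pos ?_ (measure_ne_top _ _)
  cases b with
  | false =>
    have : (fun x => decide (x ∈ A)) ⁻¹' {false} = Aᶜ := by ext x; simp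
    rw [this]; exact h2
  | true =>
    have : (fun x => decide (x ∈ A)) ⁻¹' {true} = A := by ext x; simp
    rw [this]; exact h1

lemma mp_bitmap (μ : Measure X) [IsProbabilityMeasure μ] {A : Set X} (hA : MeasurableSet A)
    [IsProbabilityMeasure (bitLaw μ A)] :
    MeasurePreserving (bitmap A : (Γ → X) → Γ → Bool) (iid Γ μ) (iid Γ (bitLaw μ A)) := by
  classical
  have hm := measurable_bit hA
  refine ⟨measurable_pi_iff.2 fun γ => ?_, ?_⟩
  · exact hm.comp (measurable_pi_apply γ)
  · exact Measure.infinitePi_map_pi (μ := fun _ : Γ => μ) (f := fun _ x => decide (x ∈ A))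
      (fun _ => hm)

lemma bitmap_smul (A : Set X) (γ : Γ) (x : Γ → X) : bitmap A (γ • x) = γ • bitmap A x := by
  funext δ
  rfl

lemma AESol.of_bits {μ : Measure X} [IsProbabilityMeasure μ] {A : Set X}
    (hA : MeasurableSet A) [IsProbabilityMeasure (bitLaw μ A)] {k : ℕ} {W : Finset Γ}
    {Pw : Set (W → Fin k)} (h : AESol (bitLaw μ A) W Pw) : AESol μ W Pw := by
  obtain ⟨f, hf, hfv⟩ := h
  refine ⟨fun x => f (bitmap A x), hf.comp (mp_bitmap μ hA).measurable, ?_⟩
  have := (mp_bitmap (Γ := Γ) μ hA).quasiMeasurePreserving.ae hfv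
  filter_upwards [this] with x hx
  simp only [bitmap_smul]
  exact hx

/-- The free part is conull. -/
lemma free_conull [Countable Γ] [Infinite Γ] {h : Γ} (hh : h * h ≠ 1) (μ : Measure X)
    [IsProbabilityMeasure μ] {A : Set X} (hA : MeasurableSet A) (h1 : μ A ≠ 0)
    (h2 : μ Aᶜ ≠ 0) : (iid Γ μ) (FiidLCL.freePart Γ X)ᶜ = 0 := by
  classical
  have hb := bitLaw_prob μ hA
  have hq := bitLaw_pos μ hA h1 h2
  have hsub : (FiidLCL.freePart Γ X)ᶜ ⊆ ⋃ γ : {γ : Γ // γ ≠ 1},
      (bitmap A) ⁻¹' ((occ h) ⁻¹' {ω | γ.1 • ω = ω}) := by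
    intro x hx
    simp only [FiidLCL.freePart, mem_compl_iff, mem_ofPred_eq, not_forall, ne_eq,
      not_not] at hx
    obtain ⟨γ, hγ, hx⟩ := hx
    rw [mem_iUnion]
    refine ⟨⟨γ, hγ⟩, ?_⟩
    simp only [mem_preimage, mem_ofPred_eq]
    rw [← occ_smul, ← bitmap_smul]
    have : γ • x = x := hx
    rw [this]
  refine measure_mono_null hsub (measure_iUnion_null fun γ => ?_)
  have hms : MeasurableSet {ω : Γ → Bool | γ.1 • ω = ω} :=
    measurableSet_eq_fun (measurable_smul_cfg γ.1) measurable_id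
  rw [(mp_bitmap (Γ := Γ) μ hA).measure_preimage ((measurable_occ h) hms).nullMeasurableSet,
    (mp_occ h (bitLaw μ A)).measure_preimage hms.nullMeasurableSet]
  have := env_free (Γ := Γ) hh (bitLaw μ A) hq γ.2
  have h3 : (envLaw h (bitLaw μ A)) {ω | ¬ (γ.1 • ω ≠ ω)} = 0 := this
  simpa using h3

end factor

section classes

variable {Γ : Type*} [Group Γ] [Countable Γ] {X : Type*} [MeasurableSpace X]
  [StandardBorelSpace X]

lemma freePart_meas : MeasurableSet (FiidLCL.freePart Γ X) := by
  have : FiidLCL.freePart Γ X = ⋂ γ : {γ : Γ // γ ≠ 1}, {x : Γ → X | γ.1 • x = x}ᶜ := by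
    ext x
    simp only [FiidLCL.freePart, mem_ofPred_eq, mem_iInter, mem_compl_iff, Subtype.forall]
    exact Iff.rfl
  rw [this]
  exact MeasurableSet.iInter fun γ =>
    (measurableSet_eq_fun (measurable_smul_cfg γ.1) measurable_id).compl

omit [Countable Γ] [MeasurableSpace X] [StandardBorelSpace X] in
lemma freePart_inv (γ : Γ) {x : Γ → X} (hx : x ∈ FiidLCL.freePart Γ X) :
    γ • x ∈ FiidLCL.freePart Γ X := by
  intro δ hδ he
  have he' : δ • γ • x = γ • x := he
  refine hx (γ⁻¹ * δ * γ) (fun e => hδ ?_) ?_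
  · have : δ = γ * (γ⁻¹ * δ * γ) * γ⁻¹ := by group
    rw [this, e]; group
  · show (γ⁻¹ * δ * γ) • x = x
    rw [mul_smul, mul_smul, he', inv_smul_smul]

lemma aesol_of_fiid {μ : Measure X} [IsProbabilityMeasure μ]
    (hfree : (iid Γ μ) (FiidLCL.freePart Γ X)ᶜ = 0) {L : FiidLCL.LCL Γ}
    (hL : L ∈ FiidLCL.FIID Γ μ) : AESol μ L.window L.allowed := by
  classical
  obtain ⟨Z, hZ, f, hZf, hZn, hfm, hfv⟩ := hL
  have hZc : (iid Γ μ) Zᶜ = 0 := by
    refine measure_mono_null (t := (FiidLCL.freePart Γ X)ᶜ ∪ (FiidLCL.freePart Γ X \ Z)) ?_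
      (measure_union_null hfree hZn)
    intro x hx
    by_cases h : x ∈ FiidLCL.freePart Γ X
    · exact Or.inr ⟨h, hx⟩
    · exact Or.inl h
  have hZne : Z.Nonempty := by
    rw [nonempty_iff_ne_empty]
    intro he
    rw [he, compl_empty, measure_univ] at hZc
    exact one_ne_zero hZc
  obtain ⟨x0, hx0⟩ := hZne
  let a0 : Fin L.k := f ⟨x0, hx0⟩
  let f' : (Γ → X) → Fin L.k := fun x => if h : x ∈ Z then f ⟨x, h⟩ else a0
  have hf'm : NullMeasurable f' (iid Γ μ) := by
    intro s hs
    have : f' ⁻¹' s = ⋃ a ∈ s, f' ⁻¹' {a} := by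
      ext x; simp
    rw [this]
    refine NullMeasurableSet.biUnion (to_countable s) fun a _ => ?_
    have e : f' ⁻¹' {a} = (Subtype.val '' (f ⁻¹' {a})) ∪ (Zᶜ ∩ {_x | a = a0}) := by
      ext x
      simp only [mem_preimage, mem_singleton_iff, mem_union, mem_image, Subtype.exists,
        exists_and_right, exists_eq_right, mem_inter_iff, mem_compl_iff, mem_ofPred_eq]
      by_cases hx : x ∈ Z
      · simp only [f', hx, dite_true, not_true_eq_false, false_and, or_false, exists_true_left]
      · simp only [f', hx, dite_false, not_false_eq_true, true_and, IsEmpty.exists_iff,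
          false_or]
        exact eq_comm
    rw [e]
    refine (hfm a).union (NullMeasurableSet.of_null ?_)
    exact measure_mono_null inter_subset_left hZc
  have hae : AEMeasurable f' (iid Γ μ) :=
    NullMeasurable.aemeasurable_of_aerange (t := univ) hf'm (by simp)
  refine ⟨hae.mk f', hae.measurable_mk, ?_⟩
  have h1 : ∀ᵐ x ∂(iid Γ μ), ∀ γ : Γ, f' (γ • x) = hae.mk f' (γ • x) := by
    rw [ae_all_iff]
    intro γ
    exact (mp_smul_cfg μ γ).quasiMeasurePreserving.ae hae.ae_eq_mk
  have h2 : ∀ᵐ x ∂(iid Γ μ), x ∈ Z := hZc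
  filter_upwards [h1, h2] with x hx1 hx2
  have h3 : (fun w : L.window => hae.mk f' (w.1 • x))
      = fun δ : L.window => f ⟨FiidLCL.shift δ.1 x, hZ δ.1 x hx2⟩ := by
    funext w
    rw [← hx1]
    have h4 : w.1 • x ∈ Z := hZ w.1 x hx2
    simp only [f']
    rw [dif_pos h4]
    rfl
  rw [h3]
  exact hfv ⟨x, hx2⟩

lemma fiid_of_aesol {μ : Measure X} [IsProbabilityMeasure μ] {L : FiidLCL.LCL Γ}
    (hL : AESol μ L.window L.allowed) : L ∈ FiidLCL.FIID Γ μ := by
  obtain ⟨f, hf, hfv⟩ := hL
  set V : Set (Γ → X) := {x | (fun w : L.window => f (w.1 • x)) ∈ L.allowed} with hV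
  have hVm : MeasurableSet V := by
    have hm : Measurable (fun (x : Γ → X) (w : L.window) => f (w.1 • x)) :=
      measurable_pi_iff.2 fun w => hf.comp (measurable_smul_cfg w.1)
    exact hm (Set.toFinite L.allowed).measurableSet
  set Z : Set (Γ → X) := FiidLCL.freePart Γ X ∩ ⋂ γ : Γ, (fun x => γ • x) ⁻¹' V with hZ
  have hZm : MeasurableSet Z := freePart_meas.inter
    (MeasurableSet.iInter fun γ => (measurable_smul_cfg γ) hVm)
  have hZinv : ∀ γ : Γ, ∀ x ∈ Z, FiidLCL.shift γ x ∈ Z := by
    rintro γ x ⟨h1, h2⟩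
    refine ⟨freePart_inv γ h1, ?_⟩
    rw [mem_iInter] at h2 ⊢
    intro δ
    have := h2 (δ * γ)
    simp only [mem_preimage] at this ⊢
    rw [mul_smul] at this
    exact this
  refine ⟨Z, hZinv, fun x => f x.1, inter_subset_left, ?_, ?_, ?_⟩
  · have hall : ∀ᵐ x ∂(iid Γ μ), ∀ γ : Γ, γ • x ∈ V := by
      rw [ae_all_iff]
      intro γ
      exact (mp_smul_cfg μ γ).quasiMeasurePreserving.ae hfv
    refine measure_mono_null ?_ hall
    rintro x ⟨h1, h2⟩ hx
    apply h2
    refine ⟨h1, ?_⟩
    rw [mem_iInter]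
    exact hx
  · intro a
    have : Subtype.val '' ((fun x : Z => f x.1) ⁻¹' {a}) = Z ∩ f ⁻¹' {a} := by
      ext x
      simp only [mem_image, mem_preimage, mem_singleton_iff, Subtype.exists, exists_and_right,
        exists_eq_right, mem_inter_iff, exists_prop]
    rw [this]
    exact (hZm.inter (hf (measurableSet_singleton a))).nullMeasurableSet
  · rintro ⟨x, hx⟩
    have h2 := mem_iInter.1 hx.2 1
    simp only [mem_preimage, one_smul] at h2
    exact h2

end classes

section finite

variable {Γ : Type*} [Group Γ] {X : Type*} [MeasurableSpace X]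

/-- For a finite group the class consists of the problems solvable on the group itself. -/
lemma fiid_finite_iff [Finite Γ] [StandardBorelSpace X] {μ : Measure X}
    [IsProbabilityMeasure μ] (hμ : ∀ x, μ {x} ≠ 1) {L : FiidLCL.LCL Γ} :
    L ∈ FiidLCL.FIID Γ μ ↔
      ∃ lab : Γ → Fin L.k, ∀ δ : Γ, (fun w : L.window => lab (w.1 * δ)) ∈ L.allowed := by
  classical
  have := Fintype.ofFinite Γ
  constructor
  · rintro ⟨Z, hZ, f, hZf, hZn, hfm, hfv⟩
    obtain ⟨A, hA, hA1, hA2⟩ := exists_mid_set μ hμ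
    have hpos : (iid Γ μ) {x | x 1 ∈ A ∧ ∀ γ : Γ, γ ≠ 1 → x γ ∉ A} ≠ 0 := by
      have e : {x : Γ → X | x 1 ∈ A ∧ ∀ γ : Γ, γ ≠ 1 → x γ ∉ A}
          = Set.pi ((Finset.univ : Finset Γ) : Set Γ) (fun γ => if γ = 1 then A else Aᶜ) := by
        ext x
        simp only [mem_ofPred_eq, Set.mem_pi, Finset.mem_coe, Finset.mem_univ, true_implies]
        constructor
        · rintro ⟨h1, h2⟩ γ
          by_cases hγ : γ = 1
          · subst hγ; rw [if_pos rfl]; exact h1
          · rw [if_neg hγ]; exact h2 γ hγ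
        · intro h
          refine ⟨?_, fun γ hγ => ?_⟩
          · have := h 1
            rw [if_pos rfl] at this
            exact this
          · have := h γ
            rw [if_neg hγ] at this
            exact this
      rw [e, iid, Measure.infinitePi_pi]
      · refine Finset.prod_ne_zero_iff.2 fun γ _ => ?_
        split_ifs
        · exact hA1
        · exact hA2
      · intro γ _
        split_ifs
        · exact hA
        · exact hA.compl
    have hsub : {x : Γ → X | x 1 ∈ A ∧ ∀ γ : Γ, γ ≠ 1 → x γ ∉ A}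
        ⊆ FiidLCL.freePart Γ X := by
      rintro x ⟨h1, h2⟩ γ hγ he
      have h3 := congrFun he 1
      simp only [FiidLCL.shift, one_mul] at h3
      exact h2 γ hγ (h3 ▸ h1)
    have hne : Z.Nonempty := by
      by_contra hcon
      rw [not_nonempty_iff_eq_empty] at hcon
      rw [hcon, sdiff_empty] at hZn
      exact hpos (measure_mono_null hsub hZn)
    obtain ⟨x, hx⟩ := hne
    refine ⟨fun δ => f ⟨FiidLCL.shift δ x, hZ δ x hx⟩, fun δ => ?_⟩
    have h1 := hfv ⟨FiidLCL.shift δ x, hZ δ x hx⟩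
    have h2 : (fun w : L.window => f ⟨FiidLCL.shift (w.1 * δ) x, hZ (w.1 * δ) x hx⟩)
        = fun w : L.window => f ⟨FiidLCL.shift w.1 (FiidLCL.shift δ x),
          hZ w.1 (FiidLCL.shift δ x) (hZ δ x hx)⟩ := by
      funext w
      congr 1
      refine Subtype.ext ?_
      exact mul_smul w.1 δ x
    rw [h2]
    exact h1
  · rintro ⟨lab, hlab⟩
    let e : (Γ → X) → ℝ := embeddingReal (Γ → X)
    have hem : Measurable e := measurable_embeddingReal (Γ → X)
    have hei : Function.Injective e :=
      (measurableEmbedding_embeddingReal (Γ → X)).injective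
    have hmin : ∀ x : Γ → X, ∃ b : Γ, ∀ γ : Γ, e (b • x) ≤ e (γ • x) := fun x => by
      obtain ⟨b, _, hb⟩ := Finset.exists_min_image (Finset.univ : Finset Γ)
        (fun γ => e (γ • x)) ⟨1, Finset.mem_univ _⟩
      exact ⟨b, fun γ => hb γ (Finset.mem_univ _)⟩
    choose bp hbp using hmin
    have huniq : ∀ x ∈ FiidLCL.freePart Γ X, ∀ b : Γ, (∀ γ : Γ, e (b • x) ≤ e (γ • x)) →
        b = bp x := by
      intro x hx b hb
      have h3 : e (b • x) = e (bp x • x) := le_antisymm (hb _) (hbp x b)
      have h4 := hei h3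
      by_contra hne
      refine hx ((bp x)⁻¹ * b) (fun h => hne (inv_mul_eq_one.1 h).symm) ?_
      show ((bp x)⁻¹ * b) • x = x
      rw [mul_smul, h4, inv_smul_smul]
    refine ⟨FiidLCL.freePart Γ X, fun γ x hx => freePart_inv γ hx,
      fun x => lab (bp x.1)⁻¹, subset_rfl, by simp, ?_, ?_⟩
    · intro a
      have : Subtype.val '' ((fun x : FiidLCL.freePart Γ X => lab (bp x.1)⁻¹) ⁻¹' {a})
          = ⋃ b : Γ, (FiidLCL.freePart Γ X ∩ ((⋂ γ : Γ, {x : Γ → X | e (b • x) ≤ e (γ • x)})
            ∩ {_x | lab b⁻¹ = a})) := by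
        ext x
        simp only [mem_image, mem_preimage, mem_singleton_iff, Subtype.exists, exists_and_right,
          exists_eq_right, mem_iUnion, mem_inter_iff, mem_iInter, mem_ofPred_eq]
        constructor
        · rintro ⟨hx, h⟩
          exact ⟨bp x, hx, hbp x, h⟩
        · rintro ⟨b, hx, h1, h2⟩
          refine ⟨hx, ?_⟩
          rw [← huniq x hx b h1]
          exact h2
      rw [this]
      refine (MeasurableSet.iUnion fun b => freePart_meas.inter (MeasurableSet.inter
        (MeasurableSet.iInter fun γ => measurableSet_le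
          (hem.comp (measurable_smul_cfg b)) (hem.comp (measurable_smul_cfg γ)))
            ?_)).nullMeasurableSet
      by_cases hb : lab b⁻¹ = a
      · simp [hb]
      · simp [hb]
    · rintro ⟨x, hx⟩
      have h1 := hlab (bp x)⁻¹
      have h2 : (fun w : L.window => lab (bp (FiidLCL.shift w.1 x))⁻¹)
          = fun w : L.window => lab (w.1 * (bp x)⁻¹) := by
        funext w
        have h3 : bp x * w.1⁻¹ = bp (FiidLCL.shift w.1 x) := by
          refine huniq _ (freePart_inv w.1 hx) _ fun γ => ?_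
          have h4 := hbp x (γ * w.1)
          show e ((bp x * w.1⁻¹) • w.1 • x) ≤ e (γ • w.1 • x)
          rw [smul_smul, smul_smul, inv_mul_cancel_right]
          exact h4
        rw [← h3, mul_inv_rev, inv_inv]
      show (fun w : L.window => lab (bp (FiidLCL.shift w.1 x))⁻¹) ∈ L.allowed
      rw [h2]
      exact h1

end finite

/-- An infinite finitely generated group has an element whose square is not trivial. -/
lemma exists_sq_ne_one (Γ : Type*) [Group Γ] [Group.FG Γ] [Infinite Γ] :
    ∃ h : Γ, h * h ≠ 1 := by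
  by_contra hcon
  push Not at hcon
  have hinv : ∀ a : Γ, a⁻¹ = a := fun a => inv_eq_of_mul_eq_one_left (hcon a)
  let _ : CommGroup Γ := { (inferInstance : Group Γ) with
    mul_comm := fun a b => by
      have := hinv (a * b)
      rw [mul_inv_rev, hinv a, hinv b] at this
      exact this.symm }
  have hfin : Finite Γ := CommGroup.finite_of_fg_isMulTorsion (G := Γ) (fun a => by
    rw [isOfFinOrder_iff_pow_eq_one]
    exact ⟨2, by norm_num, by rw [pow_two]; exact hcon a⟩)
  exact not_finite Γ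

lemma countable_of_fg (Γ : Type*) [Group Γ] [Group.FG Γ] : Countable Γ := by
  obtain ⟨S, hS⟩ := Group.fg_def.1 ‹Group.FG Γ›
  have : Countable (FreeGroup S) := by
    unfold FreeGroup
    infer_instance
  let φ : FreeGroup S →* Γ := FreeGroup.lift (fun s => s.1)
  have hφ : Function.Surjective φ := by
    rw [← MonoidHom.range_eq_top, FreeGroup.range_lift_eq_closure]
    simpa using hS
  exact hφ.countable

lemma folner_of {Γ : Type*} [Group Γ] (hΓ : FiidLCL.Folner Γ) [DecidableEq Γ] : Folner Γ := by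
  intro D ε hε
  obtain ⟨F, hF, hF2⟩ := hΓ D ε hε
  refine ⟨F, hF, fun d hd => ?_⟩
  have h1 := hF2 d hd
  refine le_trans (le_of_eq ?_) h1
  congr 1
  classical
  refine congrArg Finset.card ?_
  ext x
  simp only [Finset.mem_sdiff, Finset.mem_image]

lemma folner_to {Γ : Type*} [Group Γ] [DecidableEq Γ] (hΓ : Folner Γ) : FiidLCL.Folner Γ := by
  intro D ε hε
  obtain ⟨F, hF, hF2⟩ := hΓ D ε hε
  refine ⟨F, hF, fun d hd => ?_⟩
  have h1 := hF2 d hd
  refine le_trans (le_of_eq ?_) h1
  congr 1
  classical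
  refine congrArg Finset.card ?_
  ext x
  simp only [Finset.mem_sdiff, Finset.mem_image]

/-- One inclusion of the main theorem, for infinite groups. -/
theorem fiid_subset {Γ : Type*} [Group Γ] [Group.FG Γ] [Infinite Γ] (hΓ : FiidLCL.Folner Γ)
    {X : Type*} [MeasurableSpace X] [StandardBorelSpace X] (μ : Measure X)
    [IsProbabilityMeasure μ] (hμ : ∀ x, μ {x} ≠ 1)
    {Y : Type*} [MeasurableSpace Y] [StandardBorelSpace Y] (ν : Measure Y)
    [IsProbabilityMeasure ν] (hν : ∀ y, ν {y} ≠ 1) :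
    FiidLCL.FIID Γ μ ⊆ FiidLCL.FIID Γ ν := by
  classical
  have := countable_of_fg Γ
  obtain ⟨h, hh⟩ := exists_sq_ne_one Γ
  obtain ⟨A, hA, hA1, hA2⟩ := exists_mid_set μ hμ
  obtain ⟨B, hB, hB1, hB2⟩ := exists_mid_set ν hν
  have := bitLaw_prob ν hB
  have hq := bitLaw_pos ν hB hB1 hB2
  intro L hL
  have h1 := aesol_of_fiid (free_conull hh μ hA hA1 hA2) hL
  have h2 := transfer_bool (folner_of hΓ) hh (bitLaw ν B) hq μ L.window L.allowed h1
  exact fiid_of_aesol (AESol.of_bits hB h2)

/-- The main theorem. -/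
theorem fiid_eq {Γ : Type*} [Group Γ] [Group.FG Γ] (hΓ : FiidLCL.Folner Γ)
    {X : Type*} [MeasurableSpace X] [StandardBorelSpace X] (μ : Measure X)
    [IsProbabilityMeasure μ] (hμ : ∀ x, μ {x} ≠ 1)
    {Y : Type*} [MeasurableSpace Y] [StandardBorelSpace Y] (ν : Measure Y)
    [IsProbabilityMeasure ν] (hν : ∀ y, ν {y} ≠ 1) :
    FiidLCL.FIID Γ μ = FiidLCL.FIID Γ ν := by
  rcases finite_or_infinite Γ with hfin | hinf
  · ext L
    rw [fiid_finite_iff hμ, fiid_finite_iff hν]
  · exact Subset.antisymm (fiid_subset hΓ μ hμ ν hν) (fiid_subset hΓ ν hν μ hμ)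

/-- `ℤⁿ` satisfies Foelner's condition. -/
lemma folner_zpow (n : ℕ) : FiidLCL.Folner (Multiplicative (Fin n → ℤ)) := by
  refine folner_to ?_
  intro D ε hε
  -- a bound for the coordinates of the elements of `D`
  obtain ⟨r, hr⟩ : ∃ r : ℕ, ∀ d ∈ D, ∀ i, |(Multiplicative.toAdd d) i| ≤ (r : ℤ) := by
    refine ⟨D.sup fun d => (Finset.univ : Finset (Fin n)).sup
      fun i => ((Multiplicative.toAdd d) i).natAbs, fun d hd i => ?_⟩
    have h1 : ((Multiplicative.toAdd d) i).natAbs ≤ D.sup fun d => (Finset.univ : Finset (Fin n)).sup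
        fun i => ((Multiplicative.toAdd d) i).natAbs :=
      le_trans (Finset.le_sup (f := fun i => ((Multiplicative.toAdd d) i).natAbs)
        (Finset.mem_univ i)) (Finset.le_sup (f := fun d => (Finset.univ : Finset (Fin n)).sup
        fun i => ((Multiplicative.toAdd d) i).natAbs) hd)
    rw [Int.abs_eq_natAbs]
    exact_mod_cast h1
  let B : ℕ → Finset (Multiplicative (Fin n → ℤ)) := fun m =>
    (Fintype.piFinset fun _ : Fin n => Finset.Icc (-(m : ℤ)) m).map
      Multiplicative.ofAdd.toEmbedding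
  have hBm : ∀ m (x : Multiplicative (Fin n → ℤ)),
      x ∈ B m ↔ ∀ i, |(Multiplicative.toAdd x) i| ≤ (m : ℤ) := by
    intro m x
    simp only [B, Finset.mem_map_equiv, Fintype.mem_piFinset, Finset.mem_Icc, abs_le]
    exact Iff.rfl
  have hBc : ∀ m, ((B m).card : ℝ) = (2 * (m : ℝ) + 1) ^ n := by
    intro m
    simp only [B, Finset.card_map, Fintype.card_piFinset, Int.card_Icc, Finset.prod_const,
      Finset.card_univ, Fintype.card_fin]
    have : ((m : ℤ) + 1 - -(m : ℤ)).toNat = 2 * m + 1 := by omega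
    rw [this]
    push_cast
    ring
  -- the quotient of the sizes of two boxes tends to one
  have hlim : Tendsto (fun m : ℕ => ((2 * ((m : ℝ) + r) + 1) / (2 * (m : ℝ) + 1)) ^ n) atTop
      (𝓝 1) := by
    have h1 : Tendsto (fun m : ℕ => 1 + (2 * (r : ℝ)) / (2 * (m : ℝ) + 1)) atTop (𝓝 (1 + 0)) := by
      refine tendsto_const_nhds.add (Tendsto.div_atTop tendsto_const_nhds ?_)
      refine tendsto_atTop_add_const_right _ _ ?_
      exact tendsto_natCast_atTop_atTop.const_mul_atTop (by norm_num)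
    have h2 := h1.pow n
    rw [add_zero, one_pow] at h2
    refine h2.congr fun m => ?_
    congr 1
    have : (2 * (m : ℝ) + 1) ≠ 0 := by positivity
    field_simp
    ring
  obtain ⟨m, hm⟩ := (hlim.eventually (gt_mem_nhds (show (1 : ℝ) < 1 + ε by linarith))).exists
  refine ⟨B m, ⟨Multiplicative.ofAdd 0, ?_⟩, fun d hd => ?_⟩
  · rw [hBm]
    intro i
    simp
  have hsub : (B m).image (fun f => d * f) ⊆ B (m + r) := by
    intro x hx
    obtain ⟨f, hf, rfl⟩ := Finset.mem_image.1 hx
    rw [hBm] at hf ⊢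
    intro i
    have h1 := hf i
    have h2 := hr d hd i
    have h3 : Multiplicative.toAdd (d * f) i = Multiplicative.toAdd d i + Multiplicative.toAdd f i :=
      rfl
    rw [h3]
    push_cast
    calc |Multiplicative.toAdd d i + Multiplicative.toAdd f i|
        ≤ |Multiplicative.toAdd d i| + |Multiplicative.toAdd f i| := abs_add_le _ _
      _ ≤ m + r := by linarith
  have hmono : B m ⊆ B (m + r) := by
    intro x hx
    rw [hBm] at hx ⊢
    intro i
    have := hx i
    push_cast
    linarith [Int.natCast_nonneg r]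
  have hpos : (0 : ℝ) < (2 * (m : ℝ) + 1) ^ n := by positivity
  calc ((((B m).image (fun f => d * f)) \ B m).card : ℝ)
      ≤ ((B (m + r) \ B m).card : ℝ) := by
        exact_mod_cast Finset.card_le_card (Finset.sdiff_subset_sdiff hsub (Finset.Subset.refl _))
    _ = (B (m + r)).card - (B m).card := by
        rw [Finset.card_sdiff_of_subset hmono, Nat.cast_sub (Finset.card_le_card hmono)]
    _ = (2 * ((m : ℝ) + r) + 1) ^ n - (2 * (m : ℝ) + 1) ^ n := by
        rw [hBc, hBc]; push_cast; ring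
    _ ≤ ε * (2 * (m : ℝ) + 1) ^ n := by
        rw [div_pow, div_lt_iff₀ hpos] at hm
        linarith
    _ = ε * (B m).card := by rw [hBc]

end Fiid
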