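import Pool.Agent.helper31.FiidBase

/-!
Holes: sites whose value can be resampled without changing the field of occurrences.
-/

open MeasureTheory ProbabilityTheory Set Filter
open scoped ENNReal Topology

namespace Fiid

attribute [local instance] shAction

section holes

variable {Γ : Type*} [Group Γ]

/-- The field of occurrences of the pattern. -/
def occ (h : Γ) (x : Γ → Bool) : Γ → Bool := fun u => !x u && x (h⁻¹ * u) && x (h * h * u)

lemma occ_iff {h : Γ} {x : Γ → Bool} {u : Γ} :
    occ h x u = true ↔ x u = false ∧ x (h⁻¹ * u) = true ∧ x (h * h * u) = true := by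
  simp [occ, and_assoc]

lemma occ_smul (h γ : Γ) (x : Γ → Bool) : occ h (γ • x) = γ • occ h x := by
  funext u
  simp only [occ, smul_cfg, mul_assoc]

lemma measurable_occ (h : Γ) : Measurable (occ h) := by
  refine measurable_pi_iff.2 fun u => ?_
  have h1 : Measurable (fun x : Γ → Bool => (x u, x (h⁻¹ * u), x (h * h * u))) :=
    (measurable_pi_apply _).prodMk ((measurable_pi_apply _).prodMk (measurable_pi_apply _))
  exact (measurable_of_finite (fun p : Bool × Bool × Bool => !p.1 && p.2.1 && p.2.2)).comp h1

/-- Holes avoid the sites used by occurrences. -/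
lemma hole_avoid {h : Γ} {x : Γ → Bool} {u v : Γ} (hu : occ h x u = true)
    (hv : occ h x v = true) : h * v ≠ u ∧ h * v ≠ h⁻¹ * u ∧ h * v ≠ h * h * u := by
  rw [occ_iff] at hu hv
  obtain ⟨u1, u2, u3⟩ := hu
  obtain ⟨v1, v2, v3⟩ := hv
  refine ⟨?_, ?_, ?_⟩
  · intro e
    rw [← e, inv_mul_cancel_left, v1] at u2
    exact Bool.false_ne_true u2
  · intro e
    have : u = h * h * v := by
      rw [mul_assoc, e]; group
    rw [this, v3] at u1
    exact Bool.false_ne_true u1.symm
  · intro e
    have : u = h⁻¹ * v := by
      have : v = h * u := by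
        have := congrArg (fun z => h⁻¹ * z) e
        simpa [mul_assoc] using this
      rw [this]; group
    rw [this, v2] at u1
    exact Bool.false_ne_true u1.symm

/-- Changing the values at the holes does not change the occurrences. -/
lemma occ_congr {h : Γ} {x x' : Γ → Bool}
    (hx : ∀ γ, occ h x (h⁻¹ * γ) = false → x' γ = x γ) : occ h x' = occ h x := by
  have hnh : ∀ {z : Γ → Bool} {u : Γ}, occ h z u = true → occ h z (h⁻¹ * u) = false ∧
      occ h z (h⁻¹ * (h⁻¹ * u)) = false ∧ occ h z (h⁻¹ * (h * h * u)) = false := by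
    intro z u hu
    refine ⟨?_, ?_, ?_⟩
    · by_contra hcon
      rw [Bool.not_eq_false] at hcon
      exact (hole_avoid hu hcon).1 (by group)
    · by_contra hcon
      rw [Bool.not_eq_false] at hcon
      exact (hole_avoid hu hcon).2.1 (by group)
    · by_contra hcon
      rw [Bool.not_eq_false] at hcon
      exact (hole_avoid hu hcon).2.2 (by group)
  have fwd : ∀ u, occ h x u = true → occ h x' u = true := by
    intro u hu
    obtain ⟨n1, n2, n3⟩ := hnh hu
    rw [occ_iff] at hu ⊢
    rw [hx _ n1, hx _ n2, hx _ n3]
    exact hu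
  funext u
  by_cases hu : occ h x u = true
  · rw [hu, fwd u hu]
  · rw [Bool.not_eq_true] at hu
    rw [hu]
    by_contra hcon
    rw [Bool.not_eq_false] at hcon
    obtain ⟨n1, n2, n3⟩ := hnh hcon
    have back : ∀ γ, occ h x' (h⁻¹ * γ) = false → x' γ = x γ := by
      intro γ hγ
      refine hx γ ?_
      by_contra hc
      rw [Bool.not_eq_false] at hc
      rw [fwd _ hc] at hγ
      exact Bool.false_ne_true hγ.symm
    have : occ h x u = true := by
      rw [occ_iff] at hcon ⊢
      rw [← back _ n1, ← back _ n2, ← back _ n3]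
      exact hcon
    rw [hu] at this
    exact Bool.false_ne_true this

open Classical in
/-- Resampling the values at the holes. -/
noncomputable def resamp (h : Γ) (x y : Γ → Bool) : Γ → Bool :=
  fun γ => if occ h x (h⁻¹ * γ) = true then y γ else x γ

lemma occ_resamp (h : Γ) (x y : Γ → Bool) : occ h (resamp h x y) = occ h x := by
  refine occ_congr fun γ hγ => ?_
  simp only [resamp, hγ, Bool.false_eq_true, if_false]

lemma mp_piecewise {Ω : Type*} [MeasurableSpace Ω] {μ : Measure Ω} {T : Ω → Ω}
    (hT : MeasurePreserving T μ μ) {A : Set Ω} (hA : MeasurableSet A) (hTA : T ⁻¹' A = A)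
    [DecidablePred (· ∈ A)] : MeasurePreserving (fun ω => if ω ∈ A then T ω else ω) μ μ := by
  have hm : Measurable (fun ω => if ω ∈ A then T ω else ω) :=
    Measurable.ite hA hT.measurable measurable_id
  refine ⟨hm, ?_⟩
  ext E hE
  rw [Measure.map_apply hm hE, ← measure_inter_add_sdiff _ hA,
    ← measure_inter_add_sdiff E hA]
  congr 1
  · have : (fun ω => if ω ∈ A then T ω else ω) ⁻¹' E ∩ A = T ⁻¹' (E ∩ A) := by
      ext ω
      rw [preimage_inter, hTA]
      simp only [mem_inter_iff, mem_preimage]
      constructor
      · rintro ⟨h1, h2⟩; rw [if_pos h2] at h1; exact ⟨h1, h2⟩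
      · rintro ⟨h1, h2⟩; exact ⟨by rw [if_pos h2]; exact h1, h2⟩
    rw [this, hT.measure_preimage (hE.inter hA).nullMeasurableSet]
  · congr 1
    ext ω
    simp only [Set.mem_sdiff, mem_preimage]
    constructor
    · rintro ⟨h1, h2⟩; rw [if_neg h2] at h1; exact ⟨h1, h2⟩
    · rintro ⟨h1, h2⟩; exact ⟨by rw [if_neg h2]; exact h1, h2⟩

open Classical in
/-- Swapping the two layers at one site. -/
noncomputable def sw (γ0 : Γ) (p : Bool × Γ) : Bool × Γ := if p.2 = γ0 then (!p.1, p.2) else p

lemma sw_inj (γ0 : Γ) : Function.Injective (sw γ0) := by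
  have : Function.Involutive (sw γ0) := by
    rintro ⟨b, γ⟩
    by_cases h : γ = γ0
    · simp [sw, h]
    · simp [sw, h]
  exact this.injective

/-- The first layer. -/
def fx (w : Bool × Γ → Bool) : Γ → Bool := fun γ => w (false, γ)

/-- The second layer. -/
def fy (w : Bool × Γ → Bool) : Γ → Bool := fun γ => w (true, γ)

open Classical in
/-- Swapping the layers at the holes in `F`. -/
noncomputable def swF (h : Γ) (F : Finset Γ) (w : Bool × Γ → Bool) : Bool × Γ → Bool :=
  fun p => if p.2 ∈ F ∧ occ h (fx w) (h⁻¹ * p.2) = true then w (!p.1, p.2) else w p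

lemma occ_swF (h : Γ) (F : Finset Γ) (w : Bool × Γ → Bool) :
    occ h (fx (swF h F w)) = occ h (fx w) := by
  classical
  refine occ_congr fun γ hγ => ?_
  simp only [fx, swF]
  rw [if_neg]
  rintro ⟨_, h2⟩
  have h3 : occ h (fx w) (h⁻¹ * γ) = true := h2
  rw [hγ] at h3
  exact Bool.false_ne_true h3

lemma measurable_fx : Measurable (fx : (Bool × Γ → Bool) → Γ → Bool) :=
  measurable_pi_iff.2 fun _ => measurable_pi_apply _

lemma measurable_fy : Measurable (fy : (Bool × Γ → Bool) → Γ → Bool) :=
  measurable_pi_iff.2 fun _ => measurable_pi_apply _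

lemma mp_swF {h : Γ} (hh : h * h ≠ 1) (q : Measure Bool) [IsProbabilityMeasure q]
    (F : Finset Γ) : MeasurePreserving (swF h F) (iid (Bool × Γ) q) (iid (Bool × Γ) q) := by
  classical
  have h1 : h ≠ 1 := by rintro rfl; simp at hh
  induction F using Finset.induction_on with
  | empty =>
    have : swF h ∅ = id := by
      funext w p
      simp [swF]
    rw [this]
    exact MeasurePreserving.id _
  | insert γ0 F hγ0 ih =>
    set A : Set (Bool × Γ → Bool) := {w | occ h (fx w) (h⁻¹ * γ0) = true} with hA
    have hAm : MeasurableSet A := by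
      have : Measurable (fun w : Bool × Γ → Bool => occ h (fx w) (h⁻¹ * γ0)) :=
        (measurable_pi_apply _).comp ((measurable_occ h).comp measurable_fx)
      exact this (measurableSet_singleton true)
    have hsw : MeasurePreserving (fun (w : Bool × Γ → Bool) p => w (sw γ0 p))
        (iid (Bool × Γ) q) (iid (Bool × Γ) q) := by
      refine ⟨measurable_pi_iff.2 fun _ => measurable_pi_apply _, ?_⟩
      exact Measure.map_infinitePi_infinitePi_of_inj (P := fun _ : Bool × Γ => q) (sw_inj γ0)
    have hAinv : (fun (w : Bool × Γ → Bool) p => w (sw γ0 p)) ⁻¹' A = A := by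
      ext w
      simp only [hA, mem_preimage, mem_ofPred_eq]
      have e : ∀ γ, γ ≠ γ0 → fx (fun p => w (sw γ0 p)) γ = fx w γ := by
        intro γ hγ
        simp only [fx, sw]
        rw [if_neg hγ]
      rw [occ_iff, occ_iff, e, e, e]
      · intro hc
        apply hh
        have : h * h * (h⁻¹ * γ0) = h * γ0 := by group
        rw [this] at hc
        exact absurd (mul_eq_right.1 hc) h1
      · intro hc
        have h2 : (h⁻¹ * h⁻¹) * γ0 = γ0 := by rw [mul_assoc]; exact hc
        have h3 := mul_eq_right.1 h2
        apply hh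
        rw [← inv_inj, mul_inv_rev, h3, inv_one]
      · intro hc
        have h3 := mul_eq_right.1 hc
        exact h1 (inv_eq_one.1 h3)
    have hT := mp_piecewise hsw hAm hAinv
    have e : swF h (insert γ0 F)
        = (fun w => if w ∈ A then (fun p => w (sw γ0 p)) else w) ∘ swF h F := by
      funext w
      have hocc := occ_swF h F w
      simp only [Function.comp]
      by_cases hw : swF h F w ∈ A
      · rw [if_pos hw]
        have hw' : occ h (fx w) (h⁻¹ * γ0) = true := by
          have : occ h (fx (swF h F w)) (h⁻¹ * γ0) = true := hw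
          rwa [hocc] at this
        funext p
        obtain ⟨b, γ⟩ := p
        by_cases hγ : γ = γ0
        · subst hγ
          simp only [swF, sw, if_true, Finset.mem_insert, true_or, true_and, hw', hγ0,
            false_and, if_false]
        · simp only [swF, sw, hγ, if_false, Finset.mem_insert, false_or]
      · rw [if_neg hw]
        have hw' : ¬ occ h (fx w) (h⁻¹ * γ0) = true := by
          intro hc
          apply hw
          show occ h (fx (swF h F w)) (h⁻¹ * γ0) = true
          rwa [hocc]
        funext p
        obtain ⟨b, γ⟩ := p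
        by_cases hγ : γ = γ0
        · subst hγ
          simp only [swF, Finset.mem_insert, true_or, true_and, hw', hγ0,
            false_and, if_false, Bool.false_eq_true]
        · simp only [swF, hγ, Finset.mem_insert, false_or]
    rw [e]
    exact hT.comp ih

/-- The two layers are independent i.i.d. fields. -/
lemma mp_layers (q : Measure Bool) [IsProbabilityMeasure q] :
    MeasurePreserving (fun w : Bool × Γ → Bool => (fx w, fy w)) (iid (Bool × Γ) q)
      ((iid Γ q).prod (iid Γ q)) := by
  refine ⟨measurable_fx.prodMk measurable_fy, ?_⟩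
  have h1 := Measure.infinitePi_map_curry (ι := Bool) (κ := Γ) (fun _ _ => q)
  have h2 := Measure.infinitePi_map_eval_prod (P := fun _ : Bool => iid Γ q)
    (Bool.false_ne_true)
  have h3 : (iid (Bool × Γ) q).map (MeasurableEquiv.curry Bool Γ Bool)
      = Measure.infinitePi (fun _ : Bool => iid Γ q) := h1
  rw [← h2, ← h3, Measure.map_map
    ((measurable_pi_apply _).prodMk (measurable_pi_apply _)) (MeasurableEquiv.measurable _)]
  rfl

lemma mp_fx (q : Measure Bool) [IsProbabilityMeasure q] :
    MeasurePreserving (fx : (Bool × Γ → Bool) → Γ → Bool) (iid (Bool × Γ) q) (iid Γ q) :=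
  measurePreserving_fst.comp (mp_layers q)

lemma measurable_resamp (h : Γ) :
    Measurable (fun z : (Γ → Bool) × (Γ → Bool) => resamp h z.1 z.2) := by
  refine measurable_pi_iff.2 fun γ => ?_
  refine Measurable.ite ?_ ((measurable_pi_apply γ).comp measurable_snd)
    ((measurable_pi_apply γ).comp measurable_fst)
  exact ((measurable_pi_apply _).comp ((measurable_occ h).comp measurable_fst))
    (measurableSet_singleton true)

/-- Resampling at the holes preserves the i.i.d. measure. -/
theorem mp_resamp {h : Γ} (hh : h * h ≠ 1) (q : Measure Bool) [IsProbabilityMeasure q] :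
    MeasurePreserving (fun z : (Γ → Bool) × (Γ → Bool) => resamp h z.1 z.2)
      ((iid Γ q).prod (iid Γ q)) (iid Γ q) := by
  classical
  refine ⟨measurable_resamp h, ?_⟩
  rw [← (mp_layers q).map_eq, Measure.map_map (measurable_resamp h)
    (measurable_fx.prodMk measurable_fy)]
  refine Measure.eq_infinitePi _ fun s t ht => ?_
  have hms : MeasurableSet (Set.pi (s : Set Γ) t) :=
    MeasurableSet.pi (Finset.countable_toSet s) (fun i _ => ht i)
  rw [Measure.map_apply ((measurable_resamp h).comp (measurable_fx.prodMk measurable_fy)) hms]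
  have e : ((fun z : (Γ → Bool) × (Γ → Bool) => resamp h z.1 z.2)
        ∘ fun w : Bool × Γ → Bool => (fx w, fy w)) ⁻¹' (Set.pi (s : Set Γ) t)
      = (fx ∘ swF h s) ⁻¹' (Set.pi (s : Set Γ) t) := by
    ext w
    simp only [mem_preimage, Function.comp, Set.mem_pi]
    refine forall₂_congr fun i hi => ?_
    have : resamp h (fx w) (fy w) i = fx (swF h s w) i := by
      have hi' : i ∈ s := hi
      simp only [resamp, fx, swF, hi', true_and, Bool.not_false, fy]
    rw [this]
  rw [e, ((mp_fx q).comp (mp_swF hh q s)).measure_preimage hms.nullMeasurableSet]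
  exact Measure.infinitePi_pi (fun _ : Γ => q) (fun i _ => ht i)

end holes

end Fiid
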