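import Pool.Agent.helper31.FiidSim

/-!
Choice of the parameters in the simulation theorem.
-/

open MeasureTheory ProbabilityTheory Set Filter
open scoped ENNReal Topology

namespace Fiid

attribute [local instance] shAction

lemma rate_exists (s : ℕ) {θ ρ : ℝ} (hθ0 : 0 < θ) (hθ1 : θ < 1) (hρ : 0 < ρ) :
    ∃ t : ℝ, 0 < t ∧ t ≤ 1 ∧ ∃ R0 : ℝ, 0 < R0 ∧ ∀ R : ℝ, R ≤ R0 →
      (1 + s * t) * t ^ (-R) * θ ^ (ρ / 2) < 1 := by
  set c := θ ^ (ρ / 2) with hc
  have hc0 : 0 < c := Real.rpow_pos_of_pos hθ0 _
  have hc1 : c < 1 := Real.rpow_lt_one hθ0.le hθ1 (by positivity)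
  -- choose t
  obtain ⟨t, ht0, ht1, ht⟩ : ∃ t : ℝ, 0 < t ∧ t ≤ 1 ∧ (1 + s * t) * c < 1 := by
    refine ⟨min 1 ((1 - c) / (2 * (s + 1) * c)), ?_, min_le_left _ _, ?_⟩
    · refine lt_min one_pos (div_pos (by linarith) (by positivity))
    · have h1 : min 1 ((1 - c) / (2 * (s + 1) * c)) ≤ (1 - c) / (2 * (s + 1) * c) :=
        min_le_right _ _
      calc (1 + s * min 1 ((1 - c) / (2 * (s + 1) * c))) * c
          ≤ (1 + (s + 1) * ((1 - c) / (2 * (s + 1) * c))) * c := by
            gcongr
            · have : (0 : ℝ) ≤ min 1 ((1 - c) / (2 * (s + 1) * c)) := by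
                refine le_min zero_le_one (div_nonneg (by linarith) (by positivity))
              nlinarith
        _ = (1 + c) / 2 := by field_simp; ring
        _ < 1 := by linarith
  refine ⟨t, ht0, ht1, ?_⟩
  have hcont : ContinuousAt (fun R : ℝ => (1 + s * t) * t ^ (-R) * c) 0 := by
    have : Continuous (fun R : ℝ => (1 + s * t) * t ^ (-R) * c) := by
      have h2 : Continuous (fun R : ℝ => t ^ (-R)) :=
        Real.continuous_const_rpow ht0.ne' |>.comp continuous_neg
      fun_prop
    exact this.continuousAt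
  have h0 : (fun R : ℝ => (1 + s * t) * t ^ (-R) * c) 0 < 1 := by
    simp only [neg_zero, Real.rpow_zero, mul_one]
    exact ht
  have hev := hcont.eventually (gt_mem_nhds h0)
  rw [Metric.eventually_nhds_iff] at hev
  obtain ⟨ε, hε, h⟩ := hev
  refine ⟨ε / 2, by positivity, fun R hR => ?_⟩
  have h1 := h (y := ε / 2) (by rw [Real.dist_eq, sub_zero, abs_of_pos (by positivity)]; linarith)
  refine lt_of_le_of_lt ?_ h1
  gcongr ?_ * ?_ * ?_
  exact Real.rpow_le_rpow_of_exponent_ge ht0 ht1 (by linarith)

/-- Approximation of a finitely valued function by local functions. -/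
lemma local_fun_approx {Γ S Y : Type*} [MeasurableSpace Y] [Fintype S] [MeasurableSpace S]
    [MeasurableSingletonClass S] (ν : Measure Y) [IsProbabilityMeasure ν] (a0 : S)
    {F : (Γ → Y) → S} (hF : Measurable F) {ε : ℝ} (hε : 0 < ε) :
    ∃ (f : (Γ → Y) → S) (B : Finset Γ), Measurable f ∧ DependsOn f (B : Set Γ) ∧
      (iid Γ ν).real {w | f w ≠ F w} ≤ ε := by
  classical
  have hS : (0 : ℝ) < Fintype.card S := by
    have : Nonempty S := ⟨a0⟩
    exact_mod_cast Fintype.card_pos
  have h := fun a : S => exists_local_approx ν (A := F ⁻¹' {a}) (hF (measurableSet_singleton a))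
    (ε := ENNReal.ofReal (ε / Fintype.card S)) (by simpa using by positivity)
  choose Bs Sp hBm hBd hBε using h
  let f : (Γ → Y) → S := fun w =>
    if h : ∃ a, w ∈ Bs a ∧ ∀ b, b ≠ a → w ∉ Bs b then h.choose else a0
  have hfe : ∀ w a, w ∈ Bs a → (∀ b, b ≠ a → w ∉ Bs b) → f w = a := by
    intro w a h1 h2
    have h : ∃ a, w ∈ Bs a ∧ ∀ b, b ≠ a → w ∉ Bs b := ⟨a, h1, h2⟩
    simp only [f]
    rw [dif_pos h]
    by_contra hne
    exact h2 _ hne h.choose_spec.1
  have hfd : ∀ w w', (∀ a, w ∈ Bs a ↔ w' ∈ Bs a) → f w = f w' := by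
    intro w w' hww'
    simp only [f]
    have : (fun a => w ∈ Bs a ∧ ∀ b, b ≠ a → w ∉ Bs b)
        = (fun a => w' ∈ Bs a ∧ ∀ b, b ≠ a → w' ∉ Bs b) := by
      funext a
      simp only [hww']
    simp only [this]
  refine ⟨f, Finset.univ.biUnion Sp, ?_, ?_, ?_⟩
  · -- f factors through the vector of memberships
    have h1 : Measurable (fun (w : Γ → Y) (a : S) => (w ∈ Bs a : Prop)) :=
      measurable_pi_iff.2 fun a => measurable_to_prop (by
        have : (fun w : Γ → Y => (w ∈ Bs a : Prop)) ⁻¹' {True} = Bs a := by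
          ext w; simp
        rw [this]; exact hBm a)
    let g : (S → Prop) → S := fun v =>
      if h : ∃ a, v a ∧ ∀ b, b ≠ a → ¬ v b then h.choose else a0
    have h2 : f = g ∘ (fun (w : Γ → Y) (a : S) => (w ∈ Bs a : Prop)) := rfl
    rw [h2]
    exact (measurable_of_finite g).comp h1
  · intro w w' hww'
    refine hfd w w' fun a => ?_
    have := hBd a (x := w) (y := w') (fun i hi => hww' i (by
      rw [Finset.mem_coe, Finset.mem_biUnion]
      exact ⟨a, Finset.mem_univ _, hi⟩))
    exact this.to_iff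
  · have hsub : {w | f w ≠ F w} ⊆ ⋃ a ∈ (Finset.univ : Finset S), symmDiff (Bs a) (F ⁻¹' {a}) := by
      intro w hw
      by_contra hcon
      simp only [mem_iUnion, not_exists] at hcon
      have hall : ∀ a, (w ∈ Bs a ↔ F w = a) := by
        intro a
        have := hcon a (Finset.mem_univ a)
        rw [mem_symmDiff] at this
        simp only [mem_preimage, mem_singleton_iff] at this
        tauto
      refine hw (hfe w (F w) ((hall _).2 rfl) fun b hb h => ?_)
      exact hb ((hall b).1 h).symm
    refine (measureReal_mono hsub (measure_ne_top _ _)).trans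
      ((measureReal_biUnion_finset_le _ _).trans ?_)
    calc ∑ a, (iid Γ ν).real (symmDiff (Bs a) (F ⁻¹' {a})) ≤ ∑ a : S, ε / Fintype.card S := by
          refine Finset.sum_le_sum fun a _ => ?_
          rw [Measure.real]
          exact ENNReal.toReal_le_of_le_ofReal (by positivity) (hBε a).le
      _ = ε := by
          rw [Finset.sum_const, nsmul_eq_mul, Finset.card_univ]
          field_simp

section

variable {Γ : Type*} [Group Γ] [Countable Γ] {Ω : Type*} [MulAction Γ Ω] [MeasurableSpace Ω]
  {P : Measure Ω}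
  {S Y : Type*} [MeasurableSpace Y] [Fintype S] [DecidableEq S] [MeasurableSpace S]
  [MeasurableSingletonClass S]

open Classical in
/-- The simulation theorem with the parameters chosen. -/
theorem simulation2 [Infinite Γ] [IsProbabilityMeasure P] (T : Tower Γ Ω P)
    (hmp : ∀ γ : Γ, MeasurePreserving (fun ω : Ω => γ • ω) P P) (hmix : Mix Γ P)
    (a0 : S) (q : Measure Bool) [IsProbabilityMeasure q] (ν : Measure Y)
    [IsProbabilityMeasure ν]
    {θ : ℝ} (hθ0 : 0 < θ) (hθ1 : θ < 1) (hθ : ∀ b, q.real {b} ≤ θ)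
    (H : ℕ → Set Ω) (hHm : ∀ n, MeasurableSet (H n))
    (hHd : ∀ i j, i < j → Disjoint (H i) (H j)) (hHpos : ∀ n, 0 < P.real (H n)) :
    ∃ r : ℝ, 0 < r ∧ ∀ V : Set Ω, MeasurableSet V → P.real V ≤ r →
      ∀ F : (Γ → Y) → S, Measurable F →
    ∃ g : Ω → (Γ → Bool) → S, Measurable (fun z : Ω × (Γ → Bool) => g z.1 z.2) ∧
      (∀ ω y y', (∀ γ : Γ, (∃ n, γ • ω ∈ H n) → y γ = y' γ) → g ω y = g ω y') ∧
      (P.prod (iid Γ q)).map (fun z => (z.1, fun γ : Γ => g (γ • z.1) (γ • z.2)))
        = (P.prod (iid Γ ν)).map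
          (fun z => (z.1, fun γ : Γ => if γ • z.1 ∈ V then F (γ • z.2) else a0)) := by
  have hr := fun n => rate_exists (Fintype.card S) hθ0 hθ1 (hHpos n)
  choose t ht0 ht1 R0 hR0 hrate using hr
  set R : ℕ → ℝ := fun n => min (R0 n) ((1 / 2 : ℝ) ^ n) with hR
  have hRpos : ∀ n, 0 < R n := fun n => lt_min (hR0 n) (by positivity)
  have hRs : Summable R := by
    refine Summable.of_nonneg_of_le (fun n => (hRpos n).le) (fun n => min_le_right _ _)
      summable_geometric_two
  refine ⟨R 0 / 64, by have := hRpos 0; positivity, fun V hV hVr F hF => ?_⟩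
  have hap := fun n : ℕ => local_fun_approx ν a0 hF (ε := min (R n) (R (n + 1)) / 128)
    (by have := lt_min (hRpos n) (hRpos (n + 1)); positivity)
  choose f0 B0 hfm hfB hfε using hap
  let f : ℕ → (Γ → Y) → S := fun n => match n with
    | 0 => fun _ => a0
    | n + 1 => f0 n
  let B : ℕ → Finset Γ := fun n => match n with
    | 0 => ∅
    | n + 1 => B0 n
  refine simulation T hmp hmix a0 q ν hV hθ0 hθ1.le hθ H hHm hHd hHpos R t hRpos hRs ht0 ht1
    (fun n => hrate n (R n) (min_le_left _ _)) hF f B ?_ ?_ rfl ?_ ?_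
  · intro n
    cases n with
    | zero => exact measurable_const
    | succ n => exact hfm n
  · intro n
    cases n with
    | zero => intro _ _ _; rfl
    | succ n => exact hfB n
  · intro n
    cases n with
    | zero =>
      calc P.real V * (iid Γ ν).real {w | f 0 w ≠ f (0 + 1) w} ≤ P.real V * 1 := by
            gcongr
            exact measureReal_le_one
        _ ≤ R 0 / 64 := by rw [mul_one]; exact hVr
    | succ n =>
      calc P.real V * (iid Γ ν).real {w | f (n + 1) w ≠ f (n + 1 + 1) w}
          ≤ 1 * (R (n + 1) / 128 + R (n + 1) / 128) := by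
            gcongr
            · exact measureReal_le_one
            · have hsub : {w | f (n + 1) w ≠ f (n + 1 + 1) w}
                  ⊆ {w | f0 n w ≠ F w} ∪ {w | f0 (n + 1) w ≠ F w} := by
                intro w hw
                by_contra hcon
                simp only [mem_union, mem_ofPred_eq, not_or, not_not] at hcon
                exact hw (hcon.1.trans hcon.2.symm)
              refine (measureReal_mono hsub).trans ((measureReal_union_le _ _).trans ?_)
              refine add_le_add ((hfε n).trans ?_) ((hfε (n + 1)).trans ?_)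
              · have := min_le_right (R n) (R (n + 1)); linarith
              · have := min_le_left (R (n + 1)) (R (n + 1 + 1)); linarith
        _ = R (n + 1) / 64 := by ring
  · rw [← tendsto_add_atTop_iff_nat 1]
    have hle : ∀ n, (iid Γ ν) {w | f (n + 1) w ≠ F w} ≤ ENNReal.ofReal (R n) := by
      intro n
      rw [← ENNReal.ofReal_toReal (measure_ne_top (iid Γ ν) _)]
      refine ENNReal.ofReal_le_ofReal ((hfε n).trans ?_)
      have := min_le_left (R n) (R (n + 1))
      have := hRpos n
      linarith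
    have hlim : Tendsto (fun n => ENNReal.ofReal (R n)) atTop (𝓝 0) := by
      rw [← ENNReal.ofReal_zero]
      exact ENNReal.tendsto_ofReal hRs.tendsto_atTop_zero
    exact tendsto_of_tendsto_of_tendsto_of_le_of_le tendsto_const_nhds hlim
      (fun n => bot_le) hle

end

end Fiid
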