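import Pool.Agent.helper31.FiidEnv2
import Pool.Agent.helper31.FiidSim2

/-!
Transfer of almost everywhere solutions of a local labelling problem from an arbitrary base
to the base `{0,1}`.
-/

open MeasureTheory ProbabilityTheory Set Filter
open scoped ENNReal Topology

namespace Fiid

attribute [local instance] shAction

lemma meas_img {Z Loc Γ : Type*} [Group Γ] [Countable Γ] [Countable Loc] [MulAction Γ Z]
    [MeasurableSpace Z] [DecidableEq (Γ × Loc)] (hact : ∀ γ : Γ, Measurable (fun z : Z => γ • z)) (c : Z → Finset Γ)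
    (hc : ∀ A, MeasurableSet {z | c z = A}) (loc : Z → Loc)
    (hl : ∀ l, MeasurableSet {z | loc z = l}) (J : Finset (Γ × Loc)) :
    MeasurableSet {z | (c z).image (fun γ => (γ, loc (γ • z))) = J} := by
  have key : ∀ C : Finset Γ, MeasurableSet {z : Z | C.image (fun γ => (γ, loc (γ • z))) = J} := by
    intro C
    have h1 := measSet_discrete (I := C → Loc) (fun (z : Z) (γ : C) => loc (γ.1 • z))
      (fun l => by
        have : {z : Z | (fun γ : C => loc (γ.1 • z)) = l}
            = ⋂ γ : C, (fun z => γ.1 • z) ⁻¹' {z | loc z = l γ} := by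
          ext z
          simp only [mem_ofPred_eq, mem_iInter, mem_preimage]
          constructor
          · rintro rfl γ; rfl
          · intro h; funext γ; exact h γ
        rw [this]
        exact MeasurableSet.iInter fun γ => (hact γ.1) (hl _))
      (fun l => (Finset.univ : Finset C).image (fun γ => (γ.1, l γ)) = J)
    have h2 : ∀ z : Z, (Finset.univ : Finset C).image (fun γ => (γ.1, loc (γ.1 • z)))
        = C.image (fun γ => (γ, loc (γ • z))) := by
      intro z
      ext x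
      simp only [Finset.mem_image, Finset.mem_univ, true_and]
      constructor
      · rintro ⟨γ, rfl⟩; exact ⟨γ.1, γ.2, rfl⟩
      · rintro ⟨γ, hγ, rfl⟩; exact ⟨⟨γ, hγ⟩, rfl⟩
    simp only [h2] at h1
    exact h1
  have : {z | (c z).image (fun γ => (γ, loc (γ • z))) = J}
      = ⋃ C, ({z | c z = C} ∩ {z : Z | C.image (fun γ => (γ, loc (γ • z))) = J}) := by
    ext z
    simp only [mem_ofPred_eq, mem_iUnion, mem_inter_iff]
    constructor
    · intro h; exact ⟨_, rfl, h⟩
    · rintro ⟨C, rfl, h⟩; exact h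
  rw [this]
  exact MeasurableSet.iUnion fun C => (hc C).inter (key C)

/-- Almost everywhere solutions. -/
def AESol {Γ X : Type*} [Group Γ] [MeasurableSpace X] (μ : Measure X) [IsProbabilityMeasure μ]
    {k : ℕ} (W : Finset Γ) (Pw : Set (W → Fin k)) : Prop :=
  ∃ f : (Γ → X) → Fin k, Measurable f ∧
    ∀ᵐ x ∂(iid Γ μ), (fun w : W => f (w.1 • x)) ∈ Pw

open Classical in
theorem transfer_bool {Γ Y : Type*} [Group Γ] [Countable Γ] [Infinite Γ] [MeasurableSpace Y]
    (hFol : Folner Γ) {h : Γ} (hh : h * h ≠ 1) (q : Measure Bool) [IsProbabilityMeasure q]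
    (hq : ∀ b, 0 < q.real {b}) (ν : Measure Y) [IsProbabilityMeasure ν]
    {k : ℕ} (W : Finset Γ) (Pw : Set (W → Fin k)) (hsol : AESol ν W Pw) : AESol q W Pw := by
  obtain ⟨f, hf, hfv⟩ := hsol
  have hPp := envLaw_prob h q
  set P := envLaw h q with hP
  obtain ⟨T⟩ := env_tower hFol hh q hq
  -- coins
  set θ := max (q.real {true}) (q.real {false}) with hθ
  have hθsum : q.real {false} + q.real {true} ≤ 1 := by
    rw [← measureReal_union (by simp) (measurableSet_singleton _)]
    exact measureReal_le_one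
  have hθ1 : θ < 1 := by
    have h1 := hq true
    have h2 := hq false
    exact max_lt (by linarith) (by linarith)
  have hθ0 : 0 < θ := (hq true).trans_le (le_max_left _ _)
  have hθb : ∀ b, q.real {b} ≤ θ := by
    intro b
    cases b with
    | false => exact le_max_right _ _
    | true => exact le_max_left _ _
  -- holders
  obtain ⟨g0, hg0i, hg0⟩ : ∃ g : ℕ → Γ, Function.Injective g ∧
      ∀ n, g n ∉ ({h⁻¹, h⁻¹ * h⁻¹, h, 1, h⁻¹ * h⁻¹ * h⁻¹} : Finset Γ) := by
    have hinf : (((({h⁻¹, h⁻¹ * h⁻¹, h, 1, h⁻¹ * h⁻¹ * h⁻¹} : Finset Γ) : Set Γ))ᶜ).Infinite :=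
      (Finset.finite_toSet _).infinite_compl
    let e := hinf.natEmbedding
    refine ⟨fun n => (e n).1, fun a b hab => e.injective (Subtype.ext hab), fun n => ?_⟩
    exact (e n).2
  -- a default label
  obtain ⟨w0⟩ := nonempty_cfg (ι := Γ) ν
  let a0 : Fin k := f w0
  obtain ⟨r, hr0, hr⟩ := simulation2 (Y := Y) T (env_mp h q) (env_mix h q) a0 q ν hθ0 hθ1 hθb
    (Hn h g0) (Hn_meas h g0) (fun i j hij => Hn_disj h g0 hij)
    (fun n => Hn_pos hh q hq hg0i hg0 n)
  -- the level
  set D0 : Finset Γ := (W ×ˢ W).image (fun p => p.1 * p.2⁻¹) with hD0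
  obtain ⟨N, hN⟩ : ∃ N, P.real {ω | ¬ D0 ⊆ T.cls N ω} < r := by
    have := (ENNReal.tendsto_toReal ENNReal.zero_ne_top).comp (T.exh D0)
    have h1 : Tendsto (fun k => P.real {ω | ¬ D0 ⊆ T.cls k ω}) atTop (𝓝 0) := by
      simpa [Function.comp_def, Measure.real] using this
    exact ((tendsto_order.1 h1).2 r hr0).exists
  obtain ⟨V, hV⟩ : ∃ V : Set (Γ → Bool), V = {ω | ¬ D0 ⊆ T.cls N ω} := ⟨_, rfl⟩
  have hVm : MeasurableSet V := by
    rw [hV]; exact measSet_discrete (T.cls N) (T.meas N) (fun A => ¬ D0 ⊆ A)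
  rw [← hV] at hN
  obtain ⟨g, hgm, hgdep, hglaw⟩ := hr V hVm hN.le f hf
  -- the space of environments and labelings
  have hact : ∀ γ : Γ, Measurable (fun z : (Γ → Bool) × (Γ → Fin k) => γ • z) := fun γ =>
    ((measurable_smul_cfg γ).comp measurable_fst).prodMk
      ((measurable_smul_cfg γ).comp measurable_snd)
  let loc : (Γ → Bool) × (Γ → Fin k) → Prop × Fin k := fun z => (z.1 ∈ V, z.2 1)
  let data : (Γ → Bool) × (Γ → Fin k) → Finset Γ × Finset (Γ × (Prop × Fin k)) := fun z =>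
    (T.cls N z.1, (T.cls N z.1).image (fun γ => (γ, loc (γ • z))))
  have hlocm : ∀ l, MeasurableSet {z | loc z = l} := by
    rintro ⟨l1, l2⟩
    have e : {z | loc z = (l1, l2)} = {z : (Γ → Bool) × (Γ → Fin k) | (z.1 ∈ V) = l1}
        ∩ {z | z.2 1 = l2} := by
      ext z
      constructor
      · intro hz
        have hz' : loc z = (l1, l2) := hz
        have k1 : (z.1 ∈ V) = l1 := congrArg (fun p : Prop × Fin k => p.1) hz'
        have k2 : z.2 1 = l2 := congrArg (fun p : Prop × Fin k => p.2) hz'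
        exact ⟨k1, k2⟩
      · rintro ⟨k1, k2⟩
        exact Prod.ext k1 k2
    rw [e]
    refine MeasurableSet.inter ?_ ?_
    · by_cases hp : l1
      · simp only [hp, eq_iff_iff, iff_true]; exact measurable_fst hVm
      · simp only [hp, eq_iff_iff, iff_false]; exact (measurable_fst hVm).compl
    · exact ((measurable_pi_apply (X := fun _ : Γ => Fin k) 1).comp measurable_snd)
        (measurableSet_singleton l2)
  have hclsm : ∀ A, MeasurableSet {z : (Γ → Bool) × (Γ → Fin k) | T.cls N z.1 = A} := fun A =>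
    measurable_fst (T.meas N A)
  have hdatam : ∀ i, MeasurableSet {z | data z = i} := by
    rintro ⟨i1, i2⟩
    have e : {z | data z = (i1, i2)} = {z : (Γ → Bool) × (Γ → Fin k) | T.cls N z.1 = i1}
        ∩ {z | (T.cls N z.1).image (fun γ => (γ, loc (γ • z))) = i2} := by
      ext z
      constructor
      · intro hz
        have hz' : data z = (i1, i2) := hz
        have k1 : T.cls N z.1 = i1 := congrArg Prod.fst hz'
        have k2 : (T.cls N z.1).image (fun γ => (γ, loc (γ • z))) = i2 := congrArg Prod.snd hz'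
        exact ⟨k1, k2⟩
      · rintro ⟨k1, k2⟩
        exact Prod.ext k1 k2
    rw [e]
    exact (hclsm i1).inter (meas_img hact (fun z => T.cls N z.1) hclsm loc hlocm i2)
  have hdata : ∀ z z', data z = data z' → T.cls N z.1 = T.cls N z'.1 ∧
      ∀ γ ∈ T.cls N z.1, loc (γ • z) = loc (γ • z') := by
    intro z z' hzz
    have h1 : T.cls N z.1 = T.cls N z'.1 := congrArg Prod.fst hzz
    have h2 : (T.cls N z.1).image (fun γ => (γ, loc (γ • z)))
        = (T.cls N z'.1).image (fun γ => (γ, loc (γ • z'))) := congrArg Prod.snd hzz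
    refine ⟨h1, fun γ hγ => ?_⟩
    have h4 : (γ, loc (γ • z)) ∈ (T.cls N z'.1).image (fun γ => (γ, loc (γ • z'))) := by
      rw [← h2]; exact Finset.mem_image.2 ⟨γ, hγ, rfl⟩
    obtain ⟨γ', hγ', h5⟩ := Finset.mem_image.1 h4
    have h6 : γ' = γ := congrArg Prod.fst h5
    have h7 : loc (γ' • z') = loc (γ • z) := congrArg Prod.snd h5
    rw [← h7, h6]
  -- the refilling relation
  let Rf : (Γ → Bool) × (Γ → Fin k) → (Γ → Fin k) → Prop := fun z u =>
    (∀ γ ∈ T.cls N z.1, γ • z.1 ∈ V → u γ = z.2 γ) ∧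
    ∀ δ : Γ, (∀ w ∈ W, w * δ ∈ T.cls N z.1) → (fun w : W => u (w.1 * δ)) ∈ Pw
  have hRfc : ∀ z z', data z = data z' → ∀ u, Rf z u → Rf z' u := by
    intro z z' hzz u hu
    obtain ⟨h1, h2⟩ := hdata z z' hzz
    have h2a : ∀ γ ∈ T.cls N z.1, (γ • z.1 ∈ V ↔ γ • z'.1 ∈ V) := fun γ hγ =>
      (congrArg (fun p : Prop × Fin k => p.1) (h2 γ hγ)).to_iff
    have h2b : ∀ γ ∈ T.cls N z.1, z.2 γ = z'.2 γ := fun γ hγ => by
      have := congrArg (fun p : Prop × Fin k => p.2) (h2 γ hγ)
      simp only [loc] at this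
      have e1 : (γ • z).2 1 = z.2 γ := by
        show z.2 (1 * γ) = z.2 γ
        rw [one_mul]
      have e2 : (γ • z').2 1 = z'.2 γ := by
        show z'.2 (1 * γ) = z'.2 γ
        rw [one_mul]
      rw [e1, e2] at this
      exact this
    refine ⟨fun γ hγ hv => ?_, fun δ hδ => ?_⟩
    · rw [← h1] at hγ
      rw [hu.1 γ hγ ((h2a γ hγ).2 hv), h2b γ hγ]
    · rw [← h1] at hδ
      exact hu.2 δ hδ
  let W2 : Set ((Γ → Bool) × (Γ → Fin k)) := {z | ∃ u, Rf z u}
  let W1 : Set ((Γ → Bool) × (Γ → Fin k)) := {z | (∀ w ∈ W, w • z.1 ∈ V) →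
    (fun w : W => z.2 w.1) ∈ Pw}
  -- a choice of refillings depending on the data only
  obtain ⟨U, hU⟩ : ∃ U : Finset Γ × Finset (Γ × (Prop × Fin k)) → (Γ → Fin k),
      ∀ z ∈ W2, Rf z (U (data z)) := by
    refine ⟨fun i => if hi : ∃ z, data z = i ∧ z ∈ W2 then hi.choose_spec.2.choose
      else fun _ => a0, fun z hz => ?_⟩
    have hi : ∃ z', data z' = data z ∧ z' ∈ W2 := ⟨z, rfl, hz⟩
    simp only
    rw [dif_pos hi]
    exact hRfc _ _ hi.choose_spec.1 _ hi.choose_spec.2.choose_spec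
  have hW2m : MeasurableSet W2 := by
    have e : W2 = {z | ∃ z', data z' = data z ∧ ∃ u, Rf z' u} := by
      ext z
      constructor
      · intro hz; exact ⟨z, rfl, hz⟩
      · rintro ⟨z', h1, u, hu⟩; exact ⟨u, hRfc _ _ h1 _ hu⟩
    rw [e]
    exact measSet_discrete data hdatam (fun i => ∃ z', data z' = i ∧ ∃ u, Rf z' u)
  have hW1m : MeasurableSet W1 := by
    have e : W1 = (⋂ w ∈ W, {z : (Γ → Bool) × (Γ → Fin k) | w • z.1 ∈ V})ᶜ
        ∪ (fun (z : (Γ → Bool) × (Γ → Fin k)) (w : W) => z.2 w.1) ⁻¹' Pw := by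
      ext z
      simp only [W1, mem_ofPred_eq, mem_union, mem_compl_iff, mem_iInter, mem_preimage]
      tauto
    rw [e]
    refine MeasurableSet.union (MeasurableSet.compl ?_) ?_
    · exact Finset.measurableSet_biInter W fun w _ =>
        ((measurable_smul_cfg w).comp measurable_fst) hVm
    · have hm : Measurable (fun (z : (Γ → Bool) × (Γ → Fin k)) (w : W) => z.2 w.1) :=
        measurable_pi_iff.2 fun w => (measurable_pi_apply w.1).comp measurable_snd
      exact hm (Set.toFinite Pw).measurableSet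
  -- measurability of the choice on the data
  set bp : (Γ → Bool) → Γ := T.bp N with hbp
  have hbpm : ∀ ω, bp ω ∈ T.cls N ω := T.bp_mem N
  let Lab : (Γ → Bool) × (Γ → Fin k) → Fin k := fun z =>
    U (data (bp z.1 • z)) (bp z.1)⁻¹
  have hLabm : Measurable Lab := by
    have h1 : ∀ i : Γ × (Finset Γ × Finset (Γ × (Prop × Fin k))),
        MeasurableSet {z : (Γ → Bool) × (Γ → Fin k) | (bp z.1, data (bp z.1 • z)) = i} := by
      rintro ⟨b, i⟩
      have : {z : (Γ → Bool) × (Γ → Fin k) | (bp z.1, data (bp z.1 • z)) = (b, i)}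
          = {z | bp z.1 = b} ∩ (fun z => b • z) ⁻¹' {z | data z = i} := by
        ext z
        simp only [mem_ofPred_eq, mem_inter_iff, mem_preimage, Prod.mk.injEq]
        constructor
        · rintro ⟨rfl, h⟩; exact ⟨rfl, h⟩
        · rintro ⟨rfl, h⟩; exact ⟨rfl, h⟩
      rw [this]
      exact (measurable_fst (T.bp_meas N b)).inter ((hact b) (hdatam i))
    refine measurable_to_countable' fun a => ?_
    exact measSet_discrete (fun z : (Γ → Bool) × (Γ → Fin k) => (bp z.1, data (bp z.1 • z))) h1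
      (fun i => U i.2 i.1⁻¹ = a)
  -- values of the labeling over a class
  have hLab : ∀ z : (Γ → Bool) × (Γ → Fin k), ∀ γ ∈ T.cls N z.1,
      Lab (γ • z) = U (data (bp z.1 • z)) (γ * (bp z.1)⁻¹) := by
    intro z γ hγ
    have h1 : bp (γ • z.1) = bp z.1 * γ⁻¹ := by
      have := T.bp_smul N z.1 γ hγ
      rw [← hbp] at this
      rw [← this]; group
    show U (data (bp (γ • z.1) • γ • z)) (bp (γ • z.1))⁻¹ = _
    rw [h1, smul_smul, inv_mul_cancel_right, mul_inv_rev, inv_inv]
  -- validity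
  have hvalid : ∀ z : (Γ → Bool) × (Γ → Fin k), (∀ γ : Γ, γ • z ∈ W1 ∩ W2) →
      (fun w : W => Lab (w.1 • z)) ∈ Pw := by
    intro z hz
    have hVval : ∀ γ : Γ, γ • z.1 ∈ V → Lab (γ • z) = z.2 γ := by
      intro γ hγ
      have h1 := hLab (γ • z) 1 (T.one_mem N _)
      rw [one_smul] at h1
      rw [h1]
      have hz1 := hU (bp (γ • z).1 • γ • z) (by
        rw [smul_smul]; exact (hz _).2)
      have hb := hbpm (γ • z).1
      have h2 := hz1.1 (1 * (bp (γ • z).1)⁻¹) (by
        show 1 * (bp (γ • z).1)⁻¹ ∈ T.cls N (bp (γ • z).1 • (γ • z).1)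
        rw [T.cls_smul N _ _ hb]
        simpa using T.one_mem N (γ • z).1) (by
        show (1 * (bp (γ • z).1)⁻¹) • (bp (γ • z).1 • (γ • z).1) ∈ V
        rw [one_mul, inv_smul_smul]
        exact hγ)
      rw [h2]
      show z.2 (1 * (bp (γ • z).1)⁻¹ * bp (γ • z).1 * γ) = z.2 γ
      group
    by_cases hall : ∀ w ∈ W, w • z.1 ∈ V
    · have h1 := (hz 1).1
      rw [one_smul] at h1
      have h2 := h1 hall
      have h3 : (fun w : W => Lab (w.1 • z)) = fun w : W => z.2 w.1 :=
        funext fun w => hVval w.1 (hall w.1 w.2)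
      rw [h3]
      exact h2
    · push Not at hall
      obtain ⟨w0, hw0, hw0V⟩ := hall
      have hsub : D0 ⊆ T.cls N (w0 • z.1) := by
        by_contra hcon
        exact hw0V (by rw [hV]; exact hcon)
      have hb := hbpm (w0 • z.1)
      have hz1 := hU (bp (w0 • z.1) • w0 • z) (by
        rw [smul_smul]; exact (hz _).2)
      have hmem : ∀ w ∈ W, w * w0⁻¹ ∈ T.cls N (w0 • z.1) := fun w hw =>
        hsub (Finset.mem_image.2 ⟨(w, w0), Finset.mem_product.2 ⟨hw, hw0⟩, rfl⟩)
      have h2 := hz1.2 (w0⁻¹ * (bp (w0 • z.1))⁻¹) (by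
        intro w hw
        show w * (w0⁻¹ * (bp (w0 • z.1))⁻¹) ∈ T.cls N (bp (w0 • z.1) • (w0 • z.1))
        rw [T.cls_smul N _ _ hb]
        have := hmem w hw
        have e : w * (w0⁻¹ * (bp (w0 • z.1))⁻¹) * bp (w0 • z.1) = w * w0⁻¹ := by group
        rw [e]
        exact this)
      have h3 : (fun w : W => Lab (w.1 • z)) = fun w : W =>
          U (data (bp (w0 • z.1) • w0 • z)) (w.1 * (w0⁻¹ * (bp (w0 • z.1))⁻¹)) := by
        funext w
        have h4 := hLab (w0 • z) (w.1 * w0⁻¹) (hmem w.1 w.2)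
        rw [smul_smul, inv_mul_cancel_right] at h4
        rw [h4, mul_assoc]
        rfl
      rw [h3]
      exact h2
  -- the law of the target field is carried by `W1 ∩ W2`
  set Ff : (Γ → Bool) × (Γ → Y) → (Γ → Bool) × (Γ → Fin k) :=
    fun z => (z.1, fun γ : Γ => if γ • z.1 ∈ V then f (γ • z.2) else a0) with hFf
  set Gf : (Γ → Bool) × (Γ → Bool) → (Γ → Bool) × (Γ → Fin k) :=
    fun z => (z.1, fun γ : Γ => g (γ • z.1) (γ • z.2)) with hGf
  have hFfm : Measurable Ff := by
    refine measurable_fst.prodMk (measurable_pi_iff.2 fun γ => ?_)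
    refine Measurable.ite ?_ ?_ measurable_const
    · exact ((measurable_smul_cfg γ).comp measurable_fst) hVm
    · exact hf.comp ((measurable_smul_cfg γ).comp measurable_snd)
  have hGfm : Measurable Gf := by
    refine measurable_fst.prodMk (measurable_pi_iff.2 fun γ => ?_)
    have h2 : Measurable (fun z : (Γ → Bool) × (Γ → Bool) => (γ • z.1, γ • z.2)) :=
      ((measurable_smul_cfg γ).comp measurable_fst).prodMk
        ((measurable_smul_cfg γ).comp measurable_snd)
    exact hgm.comp h2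
  have hall : ∀ᵐ w ∂(iid Γ ν), ∀ δ : Γ, (fun w' : W => f (w'.1 • δ • w)) ∈ Pw := by
    rw [ae_all_iff]
    intro δ
    exact (mp_smul_cfg ν δ).quasiMeasurePreserving.ae hfv
  have hF12 : ∀ᵐ z ∂(P.prod (iid Γ ν)), Ff z ∈ W1 ∩ W2 := by
    have h1 : ∀ᵐ z ∂(P.prod (iid Γ ν)), ∀ δ : Γ, (fun w' : W => f (w'.1 • δ • z.2)) ∈ Pw :=
      (measurePreserving_snd (μ := P) (ν := iid Γ ν)).quasiMeasurePreserving.ae hall
    filter_upwards [h1] with z hz
    refine ⟨?_, ?_⟩
    · intro hw
      have h2 := hz 1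
      rw [one_smul] at h2
      have h3 : (fun w : W => (Ff z).2 w.1) = fun w' : W => f (w'.1 • z.2) := by
        funext w
        simp only [hFf]
        rw [if_pos (hw w.1 w.2)]
      rw [h3]
      exact h2
    · refine ⟨fun γ => f (γ • z.2), ?_, ?_⟩
      · intro γ _ hγ
        simp only [hFf] at hγ ⊢
        rw [if_pos hγ]
      · intro δ _
        have h2 := hz δ
        simp only [mul_smul]
        exact h2
  have h12m : MeasurableSet (W1 ∩ W2) := hW1m.inter hW2m
  have hG12 : ∀ᵐ z ∂(P.prod (iid Γ q)), Gf z ∈ W1 ∩ W2 := by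
    have e1 : ∀ᵐ z ∂((P.prod (iid Γ ν)).map Ff), z ∈ W1 ∩ W2 :=
      (ae_map_iff hFfm.aemeasurable h12m).2 hF12
    have e2 : (P.prod (iid Γ q)).map Gf = (P.prod (iid Γ ν)).map Ff := hglaw
    rw [← e2] at e1
    exact (ae_map_iff hGfm.aemeasurable h12m).1 e1
  have hGact : ∀ (γ : Γ) (z : (Γ → Bool) × (Γ → Bool)), Gf (γ • z.1, γ • z.2) = γ • Gf z := by
    intro γ z
    refine Prod.ext rfl ?_
    funext δ
    show g (δ • γ • z.1) (δ • γ • z.2) = g ((δ * γ) • z.1) ((δ * γ) • z.2)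
    rw [mul_smul, mul_smul]
  have hQ : ∀ γ : Γ, MeasurePreserving
      (fun z : (Γ → Bool) × (Γ → Bool) => (γ • z.1, γ • z.2))
      (P.prod (iid Γ q)) (P.prod (iid Γ q)) := fun γ =>
    (env_mp h q γ).prod (mp_smul_cfg q γ)
  set Wa : Set ((Γ → Bool) × (Γ → Fin k)) := {z | ∀ γ : Γ, γ • z ∈ W1 ∩ W2} with hWa
  have hWam : MeasurableSet Wa := by
    have : Wa = ⋂ γ : Γ, (fun z => γ • z) ⁻¹' (W1 ∩ W2) := by
      ext z; simp [hWa]
    rw [this]
    exact MeasurableSet.iInter fun γ => (hact γ) h12m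
  have hGa : ∀ᵐ z ∂(P.prod (iid Γ q)), Gf z ∈ Wa := by
    have h1 : ∀ᵐ z ∂(P.prod (iid Γ q)), ∀ γ : Γ, Gf (γ • z.1, γ • z.2) ∈ W1 ∩ W2 := by
      rw [ae_all_iff]
      intro γ
      exact (hQ γ).quasiMeasurePreserving.ae hG12
    filter_upwards [h1] with z hz γ
    rw [← hGact]
    exact hz γ
  -- transfer to the diagonal by resampling
  have hcomp : MeasurePreserving (fun z : (Γ → Bool) × (Γ → Bool) => (occ h z.1, z.2))
      ((iid Γ q).prod (iid Γ q)) (P.prod (iid Γ q)) :=
    (mp_occ h q).prod (MeasurePreserving.id _)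
  have hR1 : ∀ᵐ z ∂((iid Γ q).prod (iid Γ q)), Gf (occ h z.1, z.2) ∈ Wa :=
    hcomp.quasiMeasurePreserving.ae hGa
  have hres : ∀ x y : Γ → Bool, Gf (occ h (resamp h x y), resamp h x y) = Gf (occ h x, y) := by
    intro x y
    rw [occ_resamp]
    refine Prod.ext rfl ?_
    funext γ
    refine hgdep _ _ _ fun δ hδ => ?_
    obtain ⟨n, hn, _⟩ := hδ
    simp only [smul_cfg] at hn ⊢
    simp only [resamp]
    rw [mul_assoc] at hn
    rw [if_pos hn]
  have hR2 : ∀ᵐ z ∂((iid Γ q).prod (iid Γ q)),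
      Gf (occ h (resamp h z.1 z.2), resamp h z.1 z.2) ∈ Wa := by
    filter_upwards [hR1] with z hz
    rw [hres]
    exact hz
  have hdiagm : Measurable (fun x : Γ → Bool => Gf (occ h x, x)) :=
    hGfm.comp ((measurable_occ h).prodMk measurable_id)
  have hR3 : ∀ᵐ x ∂(iid Γ q), Gf (occ h x, x) ∈ Wa := by
    rw [← (mp_resamp hh q).map_eq]
    exact (ae_map_iff (mp_resamp hh q).measurable.aemeasurable (hdiagm hWam)).2 hR2
  refine ⟨fun x => Lab (Gf (occ h x, x)), hLabm.comp hdiagm, ?_⟩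
  filter_upwards [hR3] with x hx
  have h1 := hvalid _ hx
  have h2 : (fun w : W => Lab (Gf (occ h (w.1 • x), w.1 • x)))
      = fun w : W => Lab (w.1 • Gf (occ h x, x)) := by
    funext w
    rw [occ_smul]
    exact congrArg Lab (hGact w.1 (occ h x, x))
  rw [h2]
  exact h1

end Fiid
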