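import Pool.Agent.helper31.FiidCouple

/-!
The block coupling and the finite form of one simulation step.
-/

open MeasureTheory ProbabilityTheory Set Filter
open scoped ENNReal Topology

namespace Fiid

/-- The pattern masked outside of a block. -/
def msk {ι β S : Type*} [DecidableEq β] (blk : ι → β) (a0 : S) (b : β) (x : ι → S) : ι → S :=
  fun i => if blk i = b then x i else a0

/-- Reassembling a pattern from its blocks. -/
def reasm {ι β S : Type*} (blk : ι → β) (f : β → ι → S) : ι → S := fun i => f (blk i) i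

lemma reasm_msk {ι β S : Type*} [DecidableEq β] (blk : ι → β) (a0 : S) (x : ι → S) :
    reasm blk (fun b => msk blk a0 b x) = x := by
  funext i
  simp [reasm, msk]

section

variable {ι β S Ω1 Ω2 : Type*} [Fintype ι] [DecidableEq ι] [Fintype β] [DecidableEq β]
  [Fintype S] [DecidableEq S] [MeasurableSpace S] [MeasurableSingletonClass S]
  [MeasurableSpace Ω1] [MeasurableSpace Ω2]
  (P1 : Measure Ω1) [IsProbabilityMeasure P1] (P2 : Measure Ω2) [IsProbabilityMeasure P2]

lemma block_coupling (blk : ι → β) (a0 : S)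
    (X : Ω1 → ι → S) (hX : Measurable X) (Z : Ω2 → ι → S) (hZ : Measurable Z)
    (hXi : iIndepFun (fun b y => msk blk a0 b (X y)) P1)
    (hZi : iIndepFun (fun b w => msk blk a0 b (Z w)) P2)
    (gb : Finset β) {η : ℝ} (hη0 : 0 ≤ η)
    (hη : ∀ b ∈ gb, ∀ E : Set (ι → S),
      P1.real {y | msk blk a0 b (X y) ∈ E} ≤ P2.real {w | msk blk a0 b (Z w) ∈ E} + η)
    (Λ : ℕ) (hΛ : ∀ b ∈ gb, (Finset.univ.filter (fun i => blk i = b)).card ≤ Λ) :
    ∃ κ : Measure ((ι → S) × (ι → S)), IsProbabilityMeasure κ ∧
      κ.map Prod.fst = P1.map X ∧ κ.map Prod.snd = P2.map Z ∧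
      ∀ a : ℝ, 0 < a → κ.real {p | η * Fintype.card ι + a
        ≤ ((Finset.univ.filter (fun i => blk i ∈ gb ∧ p.1 i ≠ p.2 i)).card : ℝ)}
        ≤ (Λ * Fintype.card ι : ℝ) / a ^ 2 := by
  classical
  have hmm : ∀ b, Measurable (msk blk a0 b : (ι → S) → ι → S) := fun b => by
    refine measurable_pi_iff.2 fun i => ?_
    by_cases h : blk i = b
    · simp only [msk, h, if_true]; exact measurable_pi_apply i
    · simp only [msk, h, if_false]; exact measurable_const
  have hXm : ∀ b, Measurable (fun y => msk blk a0 b (X y)) := fun b => (hmm b).comp hX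
  have hZm : ∀ b, Measurable (fun w => msk blk a0 b (Z w)) := fun b => (hmm b).comp hZ
  have hpX : ∀ b, IsProbabilityMeasure (P1.map (fun y => msk blk a0 b (X y))) := fun b =>
    Measure.isProbabilityMeasure_map (hXm b).aemeasurable
  have hpZ : ∀ b, IsProbabilityMeasure (P2.map (fun w => msk blk a0 b (Z w))) := fun b =>
    Measure.isProbabilityMeasure_map (hZm b).aemeasurable
  have hex : ∀ b, ∃ κ : Measure ((ι → S) × (ι → S)), IsProbabilityMeasure κ ∧
      κ.map Prod.fst = P1.map (fun y => msk blk a0 b (X y)) ∧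
      κ.map Prod.snd = P2.map (fun w => msk blk a0 b (Z w)) ∧
      (b ∈ gb → κ.real {p | p.1 ≠ p.2} ≤ η) := by
    intro b
    by_cases hb : b ∈ gb
    · obtain ⟨κ, h1, h2, h3, h4⟩ := max_coupling (P1.map (fun y => msk blk a0 b (X y)))
        (P2.map (fun w => msk blk a0 b (Z w))) (η := η) (fun E => by
          rw [map_measureReal_apply (hXm b) (Set.toFinite E).measurableSet,
            map_measureReal_apply (hZm b) (Set.toFinite E).measurableSet]
          exact hη b hb E)
      exact ⟨κ, h1, h2, h3, fun _ => h4⟩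
    · refine ⟨(P1.map (fun y => msk blk a0 b (X y))).prod
        (P2.map (fun w => msk blk a0 b (Z w))), inferInstance, ?_, ?_, fun h => absurd h hb⟩
      · rw [Measure.map_fst_prod]; simp
      · rw [Measure.map_snd_prod]; simp
  choose κb hκp hκ1 hκ2 hκ3 using hex
  set Q : Measure (β → (ι → S) × (ι → S)) := Measure.pi κb with hQ
  have hQp : IsProbabilityMeasure Q := by rw [hQ]; infer_instance
  have hre : Measurable (reasm blk : (β → ι → S) → ι → S) := by
    refine measurable_pi_iff.2 fun i => ?_
    exact (measurable_pi_apply i).comp (measurable_pi_apply (blk i))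
  set r : (β → (ι → S) × (ι → S)) → (ι → S) × (ι → S) := fun p =>
    (reasm blk (fun b => (p b).1), reasm blk (fun b => (p b).2)) with hr
  have hm1 : Measurable (fun (p : β → (ι → S) × (ι → S)) b => (p b).1) :=
    measurable_pi_iff.2 fun b => measurable_fst.comp (measurable_pi_apply b)
  have hm2 : Measurable (fun (p : β → (ι → S) × (ι → S)) b => (p b).2) :=
    measurable_pi_iff.2 fun b => measurable_snd.comp (measurable_pi_apply b)
  have hrm : Measurable r := (hre.comp hm1).prodMk (hre.comp hm2)
  refine ⟨Q.map r, Measure.isProbabilityMeasure_map hrm.aemeasurable, ?_, ?_, ?_⟩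
  · rw [Measure.map_map measurable_fst hrm]
    have e1 : Prod.fst ∘ r = reasm blk ∘ (fun (p : β → (ι → S) × (ι → S)) b => (p b).1) := rfl
    rw [e1, ← Measure.map_map hre hm1]
    have : ∀ b, IsProbabilityMeasure ((κb b).map Prod.fst) := fun b => by
      rw [hκ1 b]; exact hpX b
    have e2 : Q.map (fun (p : β → (ι → S) × (ι → S)) b => (p b).1)
        = Measure.pi (fun b => (κb b).map Prod.fst) := by
      rw [hQ]
      exact Measure.pi_map_pi (fun b => measurable_fst.aemeasurable)
    rw [e2]
    simp only [hκ1]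
    rw [← (iIndepFun_iff_map_fun_eq_pi_map (fun b => (hXm b).aemeasurable)).1 hXi,
      Measure.map_map hre (measurable_pi_iff.2 hXm)]
    congr 1
    funext y
    exact reasm_msk blk a0 (X y)
  · rw [Measure.map_map measurable_snd hrm]
    have e1 : Prod.snd ∘ r = reasm blk ∘ (fun (p : β → (ι → S) × (ι → S)) b => (p b).2) := rfl
    rw [e1, ← Measure.map_map hre hm2]
    have : ∀ b, IsProbabilityMeasure ((κb b).map Prod.snd) := fun b => by
      rw [hκ2 b]; exact hpZ b
    have e2 : Q.map (fun (p : β → (ι → S) × (ι → S)) b => (p b).2)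
        = Measure.pi (fun b => (κb b).map Prod.snd) := by
      rw [hQ]
      exact Measure.pi_map_pi (fun b => measurable_snd.aemeasurable)
    rw [e2]
    simp only [hκ2]
    rw [← (iIndepFun_iff_map_fun_eq_pi_map (fun b => (hZm b).aemeasurable)).1 hZi,
      Measure.map_map hre (measurable_pi_iff.2 hZm)]
    congr 1
    funext y
    exact reasm_msk blk a0 (Z y)
  · intro a ha
    set s : Finset ι := Finset.univ.filter (fun i => blk i ∈ gb) with hs
    set F : ι → Set ((ι → S) × (ι → S)) := fun i => {q | q.1 i ≠ q.2 i} with hF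
    have hFm : ∀ i, MeasurableSet (F i) := fun i => (Set.toFinite _).measurableSet
    set E : ι → Set (β → (ι → S) × (ι → S)) := fun i => {p | p (blk i) ∈ F i} with hE
    have hEm : ∀ i, MeasurableSet (E i) := fun i => (measurable_pi_apply (blk i)) (hFm i)
    have hEP : ∀ i, Q.real (E i) = (κb (blk i)).real (F i) := by
      intro i
      rw [Measure.real, Measure.real]
      congr 1
      exact (measurePreserving_eval κb (blk i)).measure_preimage (hFm i).nullMeasurableSet
    have hind : iIndepFun (fun (b : β) (p : β → (ι → S) × (ι → S)) => p b) Q :=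
      iIndepFun_pi (X := fun _ q => q) (fun b => measurable_id.aemeasurable)
    have hc := concentration Q s E (fun i _ => hEm i) (fun i j => blk i = blk j)
      (fun i _ j _ hij => (indepFun_iff_measure_inter_preimage_eq_mul.1
        (hind.indepFun hij)) (F i) (F j) (hFm i) (hFm j)) Λ (fun i hi => by
          refine le_trans (Finset.card_le_card ?_) (hΛ (blk i) (Finset.mem_filter.1 hi).2)
          intro k hk
          rw [Finset.mem_filter] at hk ⊢
          exact ⟨Finset.mem_univ _, hk.2.symm⟩) ha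
    rw [map_measureReal_apply hrm (Set.toFinite _).measurableSet]
    refine (measureReal_mono ?_).trans (hc.trans ?_)
    · intro p hp
      simp only [mem_preimage, mem_ofPred_eq] at hp ⊢
      have e1 : ((Finset.univ.filter
          (fun i => blk i ∈ gb ∧ (r p).1 i ≠ (r p).2 i)).card : ℝ)
          = ∑ i ∈ s, (E i).indicator (fun _ => (1 : ℝ)) p := by
        rw [hs, Finset.sum_filter, Finset.card_filter]
        push_cast
        refine Finset.sum_congr rfl fun i _ => ?_
        by_cases h1 : blk i ∈ gb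
        · by_cases h2 : p ∈ E i
          · rw [if_pos h1, indicator_of_mem h2, if_pos ⟨h1, h2⟩]
          · rw [if_pos h1, indicator_of_notMem h2, if_neg (fun h => h2 h.2)]
        · rw [if_neg h1, if_neg (fun h => h1 h.1)]
      rw [e1] at hp
      have e2 : ∑ i ∈ s, Q.real (E i) ≤ η * Fintype.card ι := by
        calc ∑ i ∈ s, Q.real (E i) ≤ ∑ i ∈ s, η := by
              refine Finset.sum_le_sum fun i hi => ?_
              rw [hEP]
              refine (measureReal_mono ?_).trans (hκ3 (blk i) (Finset.mem_filter.1 hi).2)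
              intro q hq h
              exact hq (by rw [h])
          _ = s.card * η := by rw [Finset.sum_const, nsmul_eq_mul]
          _ ≤ Fintype.card ι * η := by
              refine mul_le_mul_of_nonneg_right ?_ hη0
              exact_mod_cast Finset.card_le_univ s
          _ = η * Fintype.card ι := mul_comm _ _
      refine le_trans ?_ (le_abs_self _)
      linarith
    · gcongr
      exact_mod_cast Finset.card_le_univ s

/-- The finite form of one simulation step. -/
theorem step_core [Nonempty ι] {T : Type*} [Fintype T] [MeasurableSpace T]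
    [MeasurableSingletonClass T]
    (blk : ι → β) (a0 : S)
    (X : Ω1 → ι → S) (hX : Measurable X) (Z U : Ω2 → ι → S) (hZ : Measurable Z)
    (hU : Measurable U)
    (hXi : iIndepFun (fun b y => msk blk a0 b (X y)) P1)
    (hZi : iIndepFun (fun b w => msk blk a0 b (Z w)) P2)
    (gb : Finset β) {η : ℝ} (hη0 : 0 ≤ η)
    (hη : ∀ b ∈ gb, ∀ E : Set (ι → S),
      P1.real {y | msk blk a0 b (X y) ∈ E} ≤ P2.real {w | msk blk a0 b (Z w) ∈ E} + η)
    (Λ : ℕ) (hΛ : ∀ b ∈ gb, (Finset.univ.filter (fun i => blk i = b)).card ≤ Λ)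
    {R : ℝ} (hR : 0 < R) (hηR : η ≤ R / 16)
    (Bad : Finset ι) (hBad : (Bad.card : ℝ) ≤ R / 16 * Fintype.card ι)
    (hgood : ∀ i, i ∉ Bad → blk i ∈ gb)
    (hZU : ∑ i ∈ Badᶜ, P2.real {w | Z w i ≠ U w i} ≤ R / 16 * Fintype.card ι)
    (rel : ι → ι → Prop) [DecidableRel rel]
    (hrel : ∀ i ∈ Badᶜ, ∀ j ∈ Badᶜ, ¬ rel i j →
      P2 ({w | Z w i ≠ U w i} ∩ {w | Z w j ≠ U w j})
        = P2 {w | Z w i ≠ U w i} * P2 {w | Z w j ≠ U w j})
    (D : ℕ) (hD : ∀ i ∈ Badᶜ, (Badᶜ.filter (rel i)).card ≤ D)
    (c : Ω1 → T) (hc : Measurable c) (hind : IndepFun X c P1)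
    {α : ℝ} (hα0 : 0 ≤ α) (hα : ∀ t, P1.real (c ⁻¹' {t}) ≤ α)
    {t : ℝ} (ht0 : 0 < t) (ht1 : t ≤ 1) :
    ∃ s : (ι → S) → T → (ι → S),
      (∀ x t, (ham x (s x t) : ℝ) ≤ R * Fintype.card ι) ∧ ∀ E : Set (ι → S),
        P1.real {y | s (X y) (c y) ∈ E} ≤ P2.real {w | U w ∈ E}
          + ((1 + Fintype.card S * t) ^ (Fintype.card ι) * t ^ (-(R * Fintype.card ι)) * α
            + 16 * (Λ + D) / (R ^ 2 * Fintype.card ι)) := by
  classical
  have hN : (0 : ℝ) < Fintype.card ι := by exact_mod_cast Fintype.card_pos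
  have hne : Nonempty S := by
    obtain ⟨y⟩ : Nonempty Ω1 := by
      by_contra h
      rw [not_nonempty_iff] at h
      have := measure_univ (μ := P1)
      rw [univ_eq_empty_iff.2 h, measure_empty] at this
      exact zero_ne_one this
    exact ⟨X y (Classical.arbitrary ι)⟩
  obtain ⟨κ, hκp, hκ1, hκ2, hκ3⟩ := block_coupling P1 P2 blk a0 X hX Z hZ hXi hZi gb hη0 hη Λ hΛ
  set ρ : Measure ((ι → S) × (ι → S)) := P2.map (fun w => (Z w, U w)) with hρ
  have hρp : IsProbabilityMeasure ρ := Measure.isProbabilityMeasure_map (hZ.prodMk hU).aemeasurable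
  have hglue : κ.map Prod.snd = ρ.map Prod.fst := by
    rw [hκ2, hρ, Measure.map_map measurable_fst (hZ.prodMk hU)]
    rfl
  obtain ⟨Q, hQp, hQ1, hQ2⟩ := glue κ ρ hglue
  set J : Measure ((ι → S) × (ι → S)) := Q.map Prod.snd with hJ
  have hJp : IsProbabilityMeasure J := Measure.isProbabilityMeasure_map measurable_snd.aemeasurable
  have hJ1 : J.map Prod.fst = P1.map X := by
    rw [hJ, Measure.map_map measurable_fst measurable_snd, ← hκ1, ← hQ1,
      Measure.map_map measurable_fst (by fun_prop)]
    rfl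
  have hJ2 : J.map Prod.snd = P2.map U := by
    have e1 : ρ.map Prod.snd = P2.map U := by
      rw [hρ, Measure.map_map measurable_snd (hZ.prodMk hU)]
      rfl
    rw [hJ, Measure.map_map measurable_snd measurable_snd, ← e1, ← hQ2,
      Measure.map_map measurable_snd (by fun_prop)]
    rfl
  obtain ⟨s, hs1, hs2⟩ := sampler P1 X hX c hc hind hα0 hα J hJ1
    (fun x u => (ham x u : ℝ) ≤ R * Fintype.card ι)
    (fun x => by rw [ham_self]; simp; positivity)
    (fun x => ball_count x (r := R * Fintype.card ι) ht0 ht1)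
  refine ⟨s, hs1, fun E => (hs2 E).trans ?_⟩
  rw [hJ2, map_measureReal_apply hU (Set.toFinite E).measurableSet]
  refine add_le_add le_rfl (add_le_add le_rfl ?_)
  -- the probability of a large Hamming distance
  set B1 : Set ((ι → S) × (ι → S)) := {p | η * Fintype.card ι + R / 4 * Fintype.card ι
        ≤ ((Finset.univ.filter (fun i => blk i ∈ gb ∧ p.1 i ≠ p.2 i)).card : ℝ)} with hB1
  set B2 : Set ((ι → S) × (ι → S)) := {p | R / 16 * Fintype.card ι + R / 4 * Fintype.card ι
        ≤ ((Badᶜ.filter (fun i => p.1 i ≠ p.2 i)).card : ℝ)} with hB2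
  have h1 : κ.real B1 ≤ (Λ * Fintype.card ι : ℝ) / (R / 4 * Fintype.card ι) ^ 2 :=
    hκ3 _ (by positivity)
  have h2 : ρ.real B2 ≤ (D * Fintype.card ι : ℝ) / (R / 4 * Fintype.card ι) ^ 2 := by
    have hEm : ∀ i ∈ Badᶜ, MeasurableSet {w | Z w i ≠ U w i} := by
      intro i _
      have : {w | Z w i ≠ U w i} = (fun w => (Z w, U w)) ⁻¹' {p | p.1 i ≠ p.2 i} := rfl
      rw [this]
      exact (hZ.prodMk hU) (Set.toFinite _).measurableSet
    have hcc := concentration P2 Badᶜ (fun i => {w | Z w i ≠ U w i}) hEm rel hrel D hD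
      (a := R / 4 * Fintype.card ι) (by positivity)
    rw [hρ, map_measureReal_apply (hZ.prodMk hU) (Set.toFinite _).measurableSet]
    refine (measureReal_mono ?_).trans (hcc.trans ?_)
    · intro w hw
      simp only [hB2, mem_preimage, mem_ofPred_eq] at hw ⊢
      have e1 : ((Badᶜ.filter (fun i => Z w i ≠ U w i)).card : ℝ)
          = ∑ i ∈ Badᶜ, {w | Z w i ≠ U w i}.indicator (fun _ => (1 : ℝ)) w := by
        rw [Finset.card_filter]
        push_cast
        refine Finset.sum_congr rfl fun i _ => ?_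
        by_cases h : Z w i ≠ U w i
        · rw [if_pos h, indicator_of_mem (by exact h)]
        · rw [if_neg h, indicator_of_notMem (by exact h)]
      rw [e1] at hw
      refine le_trans ?_ (le_abs_self _)
      linarith
    · gcongr
      exact_mod_cast Finset.card_le_univ _
  have hsub : {p : (ι → S) × ((ι → S) × (ι → S)) |
      ¬ ((ham p.2.1 p.2.2 : ℝ) ≤ R * Fintype.card ι)}
      ⊆ (fun p : (ι → S) × ((ι → S) × (ι → S)) => (p.2.1, p.1)) ⁻¹' B1
        ∪ (fun p : (ι → S) × ((ι → S) × (ι → S)) => (p.1, p.2.2)) ⁻¹' B2 := by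
    rintro ⟨z, x, u⟩ hp
    simp only [mem_ofPred_eq, mem_union, mem_preimage, hB1, hB2] at hp ⊢
    by_contra hcon
    push Not at hcon
    obtain ⟨c1, c2⟩ := hcon
    apply hp
    have hle : ham x u ≤ Bad.card
        + (Finset.univ.filter (fun i => blk i ∈ gb ∧ x i ≠ z i)).card
        + (Badᶜ.filter (fun i => z i ≠ u i)).card := by
      unfold ham
      refine (Finset.card_le_card (t := Bad ∪ (Finset.univ.filter
        (fun i => blk i ∈ gb ∧ x i ≠ z i)) ∪ (Badᶜ.filter (fun i => z i ≠ u i))) ?_).trans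
        ((Finset.card_union_le _ _).trans (Nat.add_le_add_right (Finset.card_union_le _ _) _))
      intro i hi
      rw [Finset.mem_filter] at hi
      rw [Finset.mem_union, Finset.mem_union, Finset.mem_filter, Finset.mem_filter,
        Finset.mem_compl]
      by_cases hb : i ∈ Bad
      · exact Or.inl (Or.inl hb)
      · by_cases hxz : x i = z i
        · right
          exact ⟨hb, by rw [← hxz]; exact hi.2⟩
        · left; right
          exact ⟨Finset.mem_univ _, hgood i hb, hxz⟩
    have hle' : (ham x u : ℝ) ≤ Bad.card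
        + ((Finset.univ.filter (fun i => blk i ∈ gb ∧ x i ≠ z i)).card : ℝ)
        + ((Badᶜ.filter (fun i => z i ≠ u i)).card : ℝ) := by exact_mod_cast hle
    have h5 : η * Fintype.card ι ≤ R / 16 * Fintype.card ι := by gcongr
    have h6 : 0 < R * Fintype.card ι := by positivity
    linarith
  have hJB : J.real {p | ¬ ((ham p.1 p.2 : ℝ) ≤ R * Fintype.card ι)} ≤ κ.real B1 + ρ.real B2 := by
    rw [hJ, map_measureReal_apply measurable_snd (Set.toFinite _).measurableSet]
    refine (measureReal_mono hsub).trans ((measureReal_union_le _ _).trans ?_)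
    rw [← hQ1, ← hQ2, map_measureReal_apply (by fun_prop) (Set.toFinite _).measurableSet,
      map_measureReal_apply (by fun_prop) (Set.toFinite _).measurableSet]
  refine hJB.trans ((add_le_add h1 h2).trans (le_of_eq ?_))
  field_simp
  ring

end

end Fiid
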