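import Pool.Agent.helper31.FiidTower
import Pool.Agent.helper31.FiidStepCore

/-!
Local functions of coins, patterns on finite sets, and closeness of their laws.
-/

open MeasureTheory ProbabilityTheory Set Filter
open scoped ENNReal Topology

namespace Fiid

attribute [local instance] shAction

/-- Functions of finitely many coins. -/
def LocFun (Γ S : Type*) := {G : (Γ → Bool) → S // ∃ A : Finset Γ, DependsOn G (A : Set Γ)}

instance {Γ S : Type*} : CoeFun (LocFun Γ S) (fun _ => (Γ → Bool) → S) := ⟨fun G => G.1⟩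

instance LocFun.countable {Γ S : Type*} [Countable Γ] [Finite S] : Countable (LocFun Γ S) := by
  classical
  let F : (Σ A : Finset Γ, ((A → Bool) → S)) → LocFun Γ S := fun p =>
    ⟨fun y => p.2 (fun i => y i), ⟨p.1, fun x y h =>
      congrArg p.2 (funext fun i => h i i.2)⟩⟩
  refine Function.Surjective.countable (f := F) ?_
  rintro ⟨G, A, hA⟩
  refine ⟨⟨A, fun t => G (fun i => if h : i ∈ A then t ⟨i, h⟩ else false)⟩, ?_⟩
  refine Subtype.ext ?_
  funext y
  refine hA fun i hi => ?_
  have : i ∈ A := hi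
  simp [this]

lemma LocFun.measurable {Γ S : Type*} [MeasurableSpace S] (G : LocFun Γ S) :
    Measurable G.1 := by
  classical
  obtain ⟨G, A, hA⟩ := G
  have e : G = (fun t : A → Bool => G (fun i => if h : i ∈ A then t ⟨i, h⟩ else false))
      ∘ (fun (y : Γ → Bool) (i : A) => y i) := by
    funext y
    refine hA fun i hi => ?_
    have : i ∈ A := hi
    simp [this]
  show Measurable G
  rw [e]
  refine Measurable.comp (measurable_of_finite _) ?_
  exact measurable_pi_iff.2 fun i => measurable_pi_apply _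

/-- Independence of two functions of disjoint sets of coordinates. -/
lemma indepFun_local {ι X A A' : Type*} [MeasurableSpace X] [MeasurableSpace A]
    [MeasurableSpace A'] (μ : Measure X) [IsProbabilityMeasure μ] {S S' : Finset ι}
    (hS : Disjoint S S') {F : (ι → X) → A} {F' : (ι → X) → A'} (hF : Measurable F)
    (hF' : Measurable F') (hd : DependsOn F (S : Set ι)) (hd' : DependsOn F' (S' : Set ι)) :
    IndepFun F F' (iid ι μ) := by
  rw [indepFun_iff_measure_inter_preimage_eq_mul]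
  intro s t hs ht
  refine indep_two μ hS (hF hs) (hF' ht) ?_ ?_
  · intro x y hxy
    simp only [mem_preimage]
    rw [hd hxy]
  · intro x y hxy
    simp only [mem_preimage]
    rw [hd' hxy]

section pat

variable {Γ : Type*} [Group Γ] [Countable Γ] {Ω : Type*} [MulAction Γ Ω] [MeasurableSpace Ω]
  {S Y : Type*} [MeasurableSpace Y] [MeasurableSpace S]

open Classical in
/-- The pattern of a field of local functions of coins. -/
noncomputable def pat (a0 : S) (g : Ω → LocFun Γ S) (ω : Ω) (C : Finset Γ) (y : Γ → Bool) :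
    Γ → S := fun γ => if γ ∈ C then (g (γ • ω)).1 (γ • y) else a0

open Classical in
/-- The pattern of the restricted target field. -/
noncomputable def fh (a0 : S) (f : (Γ → Y) → S) (B : Finset Γ) (V : Set Ω) (ω : Ω)
    (C : Finset Γ) (w : Γ → Y) : Γ → S :=
  fun γ => if γ ∈ C ∧ (∀ β ∈ B, β * γ ∈ C) ∧ γ • ω ∈ V then f (γ • w) else a0

omit [Countable Γ] [MeasurableSpace Ω] in
lemma measurable_pat (a0 : S) (g : Ω → LocFun Γ S) (ω : Ω) (C : Finset Γ) :
    Measurable (pat a0 g ω C) := by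
  classical
  refine measurable_pi_iff.2 fun γ => ?_
  by_cases h : γ ∈ C
  · simp only [pat, h, if_true]
    exact (g (γ • ω)).measurable.comp (measurable_smul_cfg γ)
  · simp only [pat, h, if_false]
    exact measurable_const

omit [Countable Γ] [MeasurableSpace Ω] in
lemma measurable_fh (a0 : S) {f : (Γ → Y) → S} (hf : Measurable f) (B : Finset Γ) (V : Set Ω)
    (ω : Ω) (C : Finset Γ) : Measurable (fh a0 f B V ω C) := by
  classical
  refine measurable_pi_iff.2 fun γ => ?_
  by_cases h : γ ∈ C ∧ (∀ β ∈ B, β * γ ∈ C) ∧ γ • ω ∈ V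
  · simp only [fh, if_pos h]
    exact hf.comp (measurable_smul_cfg γ)
  · simp only [fh, if_neg h]
    exact measurable_const

omit [Countable Γ] [MeasurableSpace Ω] [MeasurableSpace S] in
lemma pat_smul (a0 : S) (g : Ω → LocFun Γ S) (ω : Ω) (C C' : Finset Γ) (γ : Γ)
    (h : ∀ δ, δ ∈ C' ↔ δ * γ ∈ C) (y : Γ → Bool) :
    pat a0 g (γ • ω) C' (γ • y) = γ • pat a0 g ω C y := by
  classical
  funext δ
  simp only [pat, smul_cfg, h δ, mul_smul]

omit [Countable Γ] [MeasurableSpace Ω] [MeasurableSpace S] [MeasurableSpace Y] in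
lemma fh_smul (a0 : S) (f : (Γ → Y) → S) (B : Finset Γ) (V : Set Ω) (ω : Ω) (C C' : Finset Γ)
    (γ : Γ) (h : ∀ δ, δ ∈ C' ↔ δ * γ ∈ C) (w : Γ → Y) :
    fh a0 f B V (γ • ω) C' (γ • w) = γ • fh a0 f B V ω C w := by
  classical
  funext δ
  simp only [fh, smul_cfg, h, mul_smul, mul_assoc]

/-- The law of the coin pattern is close to the law of the target pattern. -/
def TV (a0 : S) (q : Measure Bool) [IsProbabilityMeasure q] (ν : Measure Y)
    [IsProbabilityMeasure ν] (g : Ω → LocFun Γ S) (f : (Γ → Y) → S) (B : Finset Γ)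
    (V : Set Ω) (η : ℝ) (ω : Ω) (C : Finset Γ) : Prop :=
  ∀ E : Set (Γ → S), MeasurableSet E →
    (iid Γ q).real {y | pat a0 g ω C y ∈ E} ≤ (iid Γ ν).real {w | fh a0 f B V ω C w ∈ E} + η

omit [Countable Γ] [MeasurableSpace Ω] in
lemma TV_smul {a0 : S} {q : Measure Bool} [IsProbabilityMeasure q] {ν : Measure Y}
    [IsProbabilityMeasure ν] {g : Ω → LocFun Γ S} {f : (Γ → Y) → S} (hf : Measurable f)
    {B : Finset Γ} {V : Set Ω} {η : ℝ} {ω : Ω} {C C' : Finset Γ} {γ : Γ}
    (h : ∀ δ, δ ∈ C' ↔ δ * γ ∈ C) (htv : TV a0 q ν g f B V η (γ • ω) C') :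
    TV a0 q ν g f B V η ω C := by
  intro E hE
  have hE' : MeasurableSet ((fun z : Γ → S => γ⁻¹ • z) ⁻¹' E) := (measurable_smul_cfg γ⁻¹) hE
  have h1 := htv _ hE'
  have e1 : (iid Γ q).real {y | pat a0 g (γ • ω) C' y ∈ (fun z : Γ → S => γ⁻¹ • z) ⁻¹' E}
      = (iid Γ q).real {y | pat a0 g ω C y ∈ E} := by
    have hm : MeasurableSet
        {y | pat a0 g (γ • ω) C' y ∈ (fun z : Γ → S => γ⁻¹ • z) ⁻¹' E} :=
      (measurable_pat a0 g (γ • ω) C') hE'
    rw [Measure.real, ← (mp_smul_cfg q γ).measure_preimage hm.nullMeasurableSet, ← Measure.real]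
    congr 1
    ext y
    simp only [mem_preimage, mem_ofPred_eq]
    rw [pat_smul a0 g ω C C' γ h y, inv_smul_smul]
  have e2 : (iid Γ ν).real {w | fh a0 f B V (γ • ω) C' w ∈ (fun z : Γ → S => γ⁻¹ • z) ⁻¹' E}
      = (iid Γ ν).real {w | fh a0 f B V ω C w ∈ E} := by
    have hm : MeasurableSet
        {w | fh a0 f B V (γ • ω) C' w ∈ (fun z : Γ → S => γ⁻¹ • z) ⁻¹' E} :=
      (measurable_fh a0 hf B V (γ • ω) C') hE'
    rw [Measure.real, ← (mp_smul_cfg ν γ).measure_preimage hm.nullMeasurableSet, ← Measure.real]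
    congr 1
    ext y
    simp only [mem_preimage, mem_ofPred_eq]
    rw [fh_smul a0 f B V ω C C' γ h y, inv_smul_smul]
  rw [e1, e2] at h1
  exact h1

end pat

end Fiid
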