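import Pool.Agent.helper31.FiidStep

/-!
The simulation theorem: the limit of the simulation steps.
-/

open MeasureTheory ProbabilityTheory Set Filter
open scoped ENNReal Topology

namespace Fiid

attribute [local instance] shAction

open Classical in
/-- The eventual value of a sequence. -/
noncomputable def evl {S : Type*} (a0 : S) (u : ℕ → S) : S :=
  if h : ∃ a, ∀ᶠ n in atTop, u n = a then h.choose else a0

lemma evl_eq {S : Type*} {a0 : S} {u : ℕ → S} {a : S} (h : ∀ᶠ n in atTop, u n = a) : evl a0 u = a := by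
  have h' : ∃ a, ∀ᶠ n in atTop, u n = a := ⟨a, h⟩
  unfold evl
  rw [dif_pos h']
  obtain ⟨n, h1, h2⟩ := (h'.choose_spec.and h).exists
  exact h1.symm.trans h2

lemma measurable_evl {S Z : Type*} [Fintype S] [MeasurableSpace S]
    [MeasurableSingletonClass S] [MeasurableSpace Z] (a0 : S) (u : ℕ → Z → S)
    (hu : ∀ n, Measurable (u n)) : Measurable (fun z => evl a0 (fun n => u n z)) := by
  classical
  have hev : ∀ a, MeasurableSet {z | ∀ᶠ n in atTop, u n z = a} := by
    intro a
    have : {z | ∀ᶠ n in atTop, u n z = a} = ⋃ N : ℕ, ⋂ n : ℕ, ⋂ _ : N ≤ n, {z | u n z = a} := by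
      ext z
      simp only [mem_ofPred_eq, eventually_atTop, mem_iUnion, mem_iInter]
    rw [this]
    exact MeasurableSet.iUnion fun N => MeasurableSet.iInter fun n => MeasurableSet.iInter fun _ =>
      hu n (measurableSet_singleton a)
  refine measurable_to_countable' fun a => ?_
  have : (fun z => evl a0 (fun n => u n z)) ⁻¹' {a} = {z | ∀ᶠ n in atTop, u n z = a}
      ∪ ({z | a = a0} ∩ (⋃ b, {z | ∀ᶠ n in atTop, u n z = b})ᶜ) := by
    ext z
    simp only [mem_preimage, mem_singleton_iff, mem_union, mem_inter_iff, mem_ofPred_eq,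
      mem_compl_iff, mem_iUnion]
    by_cases h : ∃ b, ∀ᶠ n in atTop, u n z = b
    · obtain ⟨b, hb⟩ := h
      rw [evl_eq hb]
      constructor
      · rintro rfl; exact Or.inl hb
      · rintro (h | h)
        · obtain ⟨n, h1, h2⟩ := (hb.and h).exists
          exact h1.symm.trans h2
        · exact absurd ⟨b, hb⟩ h.2
    · unfold evl
      rw [dif_neg h]
      constructor
      · rintro rfl; exact Or.inr ⟨rfl, h⟩
      · rintro (h' | h')
        · exact absurd ⟨a, h'⟩ h
        · exact h'.1.symm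
  rw [this]
  refine (hev a).union (MeasurableSet.inter ?_ (MeasurableSet.iUnion fun b => hev b).compl)
  by_cases h : a = a0
  · simp [h]
  · simp [h]

section sim

variable {Γ : Type*} [Group Γ] [Countable Γ] {Ω : Type*} [MulAction Γ Ω] [MeasurableSpace Ω]
  {P : Measure Ω}
  {S Y : Type*} [MeasurableSpace Y] [Fintype S] [DecidableEq S] [MeasurableSpace S]
  [MeasurableSingletonClass S]

lemma init_state [IsProbabilityMeasure P] (T : Tower Γ Ω P) (a0 : S) (q : Measure Bool)
    [IsProbabilityMeasure q] (ν : Measure Y) [IsProbabilityMeasure ν] (B : Finset Γ)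
    (V : Set Ω) {η : ℝ} (hη : 0 < η) (D : Finset Γ) :
    ∃ (k : ℕ) (g : Ω → LocFun Γ S), Inv T a0 q ν ∅ (fun _ => a0) B V η D k g := by
  classical
  have tendR : Tendsto (fun k => P.real {ω | ¬ D ⊆ T.cls k ω}) atTop (𝓝 0) := by
    have := (ENNReal.tendsto_toReal ENNReal.zero_ne_top).comp (T.exh D)
    simpa [Function.comp_def, Measure.real] using this
  obtain ⟨k, hk⟩ := ((tendsto_order.1 tendR).2 η hη).exists
  obtain ⟨Λ, hΛ⟩ : ∃ Λ : ℕ, P.real {ω | ¬ ((T.cls k ω).card ≤ Λ)} < η := by
    have hanti : Antitone (fun n : ℕ => {ω | ¬ ((T.cls k ω).card ≤ n)}) := by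
      intro n m hnm ω hω
      simp only [mem_ofPred_eq, not_le] at hω ⊢
      exact hnm.trans_lt hω
    have h1 := tendsto_measure_iInter_atTop (μ := P)
      (s := fun n : ℕ => {ω | ¬ ((T.cls k ω).card ≤ n)})
      (fun n => (measSet_discrete (T.cls k) (T.meas k)
        (fun A => ¬ (A.card ≤ n))).nullMeasurableSet) hanti ⟨0, measure_ne_top _ _⟩
    have h2 : (⋂ n : ℕ, {ω | ¬ ((T.cls k ω).card ≤ n)}) = ∅ := by
      ext ω
      simp only [mem_iInter, mem_ofPred_eq, mem_empty_iff_false, iff_false, not_forall, not_not]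
      exact ⟨_, le_rfl⟩
    rw [h2, measure_empty] at h1
    have h3 := (ENNReal.tendsto_toReal ENNReal.zero_ne_top).comp h1
    have h4 := (tendsto_order.1 h3).2 η (by simpa using hη)
    obtain ⟨n, hn⟩ := h4.exists
    exact ⟨n, hn⟩
  let g0 : LocFun Γ S := ⟨fun _ => a0, ∅, fun _ _ _ => rfl⟩
  refine ⟨k, fun _ => g0, ⟨?_, ?_, ?_, hk.le⟩⟩
  · intro G
    by_cases h : g0 = G
    · simp [h]
    · simp [h]
  · intro ω y y' _
    rfl
  · refine ⟨{ω | (T.cls k ω).card ≤ Λ}, Λ, ?_, ?_, hΛ.le, fun ω hω => hω, ?_⟩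
    · exact measSet_discrete (T.cls k) (T.meas k) (fun A => A.card ≤ Λ)
    · intro ω hω γ hγ
      show (T.cls k (γ • ω)).card ≤ Λ
      rw [card_smul_cls (T.cls_smul k) hγ]
      exact hω
    · intro ω _ E _
      have e1 : ∀ y, pat a0 (fun _ : Ω => g0) ω (T.cls k ω) y = fun _ => a0 := by
        intro y; funext γ; simp only [pat, g0, ite_self]
      have e2 : ∀ w : Γ → Y, fh a0 (fun _ => a0) B V ω (T.cls k ω) w = fun _ => a0 := by
        intro w; funext γ; simp only [fh, ite_self]
      simp only [e1, e2]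
      by_cases h : (fun _ => a0) ∈ E
      · simp [h]; exact hη.le
      · simp [h]; exact hη.le

/-- Equality of laws on `Ω × (Γ → S)` from one sided inequalities on finite windows. -/
lemma law_eq {Γ' Ω S : Type*} [MeasurableSpace Ω] [MeasurableSpace S]
    (M1 M2 : Measure (Ω × (Γ' → S))) [IsProbabilityMeasure M1] [IsProbabilityMeasure M2]
    (h : ∀ (A : Finset Γ') (E : Set (Ω × (A → S))), MeasurableSet E →
      M1 ((fun z : Ω × (Γ' → S) => (z.1, fun i : A => z.2 i)) ⁻¹' E)
        ≤ M2 ((fun z : Ω × (Γ' → S) => (z.1, fun i : A => z.2 i)) ⁻¹' E)) : M1 = M2 := by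
  have hm : ∀ A : Finset Γ', Measurable (fun z : Ω × (Γ' → S) => (z.1, fun i : A => z.2 i)) :=
    fun A => measurable_fst.prodMk (measurable_pi_iff.2 fun i =>
      (measurable_pi_apply i.1).comp measurable_snd)
  have heq : ∀ (A : Finset Γ') (E : Set (Ω × (A → S))), MeasurableSet E →
      M1 ((fun z : Ω × (Γ' → S) => (z.1, fun i : A => z.2 i)) ⁻¹' E)
        = M2 ((fun z : Ω × (Γ' → S) => (z.1, fun i : A => z.2 i)) ⁻¹' E) := by
    intro A E hE
    refine le_antisymm (h A E hE) ?_
    have h1 := h A Eᶜ hE.compl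
    rw [preimage_compl, measure_compl (hm A hE) (measure_ne_top _ _),
      measure_compl (hm A hE) (measure_ne_top _ _), measure_univ, measure_univ] at h1
    have a1 : M1 ((fun z : Ω × (Γ' → S) => (z.1, fun i : A => z.2 i)) ⁻¹' E) ≤ 1 := prob_le_one
    have a2 : M2 ((fun z : Ω × (Γ' → S) => (z.1, fun i : A => z.2 i)) ⁻¹' E) ≤ 1 := prob_le_one
    exact (ENNReal.sub_le_sub_iff_left a2 ENNReal.one_ne_top).1 h1
  refine Measure.ext_prod_iff.2 ?_
  intro V t hV ht
  -- compare the two finite measures `t ↦ Mi (V × t)`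
  have e : ∀ (M : Measure (Ω × (Γ' → S))) (t : Set (Γ' → S)), MeasurableSet t →
      M (V ×ˢ t) = ((M.restrict (V ×ˢ univ)).map Prod.snd) t := by
    intro M t ht
    rw [Measure.map_apply measurable_snd ht, Measure.restrict_apply (measurable_snd ht)]
    congr 1
    ext z
    simp only [mem_prod, mem_inter_iff, mem_preimage, mem_univ, and_true]
    tauto
  rw [e M1 t ht, e M2 t ht]
  congr 1
  refine ext_of_generate_finite (measurableCylinders (fun _ : Γ' => S))
    generateFrom_measurableCylinders.symm isPiSystem_measurableCylinders ?_ ?_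
  · intro s hs
    obtain ⟨A, s', hs', rfl⟩ := (mem_measurableCylinders s).1 hs
    rw [← e M1 _ hs'.cylinder, ← e M2 _ hs'.cylinder]
    have := heq A (V ×ˢ s') (hV.prod hs')
    exact this
  · have := heq ∅ (V ×ˢ univ) (hV.prod MeasurableSet.univ)
    rw [← e M1 _ MeasurableSet.univ, ← e M2 _ MeasurableSet.univ]
    exact this

/-- Comparison of the window laws at one stage. -/
lemma stage_window [IsProbabilityMeasure P] (T : Tower Γ Ω P) {a0 : S} {q : Measure Bool}
    [IsProbabilityMeasure q] {ν : Measure Y} [IsProbabilityMeasure ν] {used : Set Ω}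
    {f : (Γ → Y) → S} (hf : Measurable f) {B : Finset Γ} {V : Set Ω} (hV : MeasurableSet V)
    (hmp : ∀ γ : Γ, MeasurePreserving (fun ω : Ω => γ • ω) P P)
    {η : ℝ} (hη : 0 ≤ η) {D : Finset Γ} {k : ℕ} {g : Ω → LocFun Γ S}
    (hinv : Inv T a0 q ν used f B V η D k g) (A : Finset Γ)
    (hA : ∀ γ ∈ A, γ ∈ D ∧ ∀ β ∈ B, β * γ ∈ D) (E : Set (Ω × (A → S))) (hE : MeasurableSet E) :
    (P.prod (iid Γ q)) {z | (z.1, fun i : A => (g (i.1 • z.1)).1 (i.1 • z.2)) ∈ E}
      ≤ (P.prod (iid Γ ν)) {z | (z.1, fun i : A => (open Classical in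
        if i.1 • z.1 ∈ V then f (i.1 • z.2) else a0)) ∈ E}
        + ENNReal.ofReal (3 * η) := by
  classical
  obtain ⟨G, Λ, hGm, hGinv, hGη, hGΛ, hGTV⟩ := hinv.good
  have hm1 : MeasurableSet {z : Ω × (Γ → Bool) |
      (z.1, fun i : A => (g (i.1 • z.1)).1 (i.1 • z.2)) ∈ E} := by
    have : Measurable (fun z : Ω × (Γ → Bool) =>
        (z.1, fun i : A => (g (i.1 • z.1)).1 (i.1 • z.2))) := by
      refine measurable_fst.prodMk (measurable_pi_iff.2 fun i => ?_)
      have h1 := measurable_locfun hinv.meas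
      have h2 : Measurable (fun z : Ω × (Γ → Bool) => (i.1 • z.1, i.1 • z.2)) :=
        ((hmp i.1).measurable.comp measurable_fst).prodMk
          ((measurable_smul_cfg i.1).comp measurable_snd)
      exact h1.comp h2
    exact this hE
  have hm2 : MeasurableSet {z : Ω × (Γ → Y) | (z.1, fun i : A =>
      if i.1 • z.1 ∈ V then f (i.1 • z.2) else a0) ∈ E} := by
    have : Measurable (fun z : Ω × (Γ → Y) =>
        (z.1, fun i : A => if i.1 • z.1 ∈ V then f (i.1 • z.2) else a0)) := by
      refine measurable_fst.prodMk (measurable_pi_iff.2 fun i => ?_)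
      refine Measurable.ite ?_ ?_ measurable_const
      · exact ((hmp i.1).measurable.comp measurable_fst) hV
      · exact hf.comp ((measurable_smul_cfg i.1).comp measurable_snd)
    exact this hE
  rw [Measure.prod_apply hm1, Measure.prod_apply hm2]
  set Bd : Set Ω := Gᶜ ∪ {ω | ¬ D ⊆ T.cls k ω} with hBd
  have hBdm : MeasurableSet Bd :=
    hGm.compl.union (measSet_discrete (T.cls k) (T.meas k) (fun A => ¬ D ⊆ A))
  have hBdP : P Bd ≤ ENNReal.ofReal (2 * η) := by
    refine (measure_union_le _ _).trans ?_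
    have e1 : P Gᶜ ≤ ENNReal.ofReal η := by
      rw [← ENNReal.ofReal_toReal (measure_ne_top P Gᶜ)]
      exact ENNReal.ofReal_le_ofReal hGη
    have e2 : P {ω | ¬ D ⊆ T.cls k ω} ≤ ENNReal.ofReal η := by
      rw [← ENNReal.ofReal_toReal (measure_ne_top P {ω | ¬ D ⊆ T.cls k ω})]
      exact ENNReal.ofReal_le_ofReal hinv.cover
    rw [two_mul, ENNReal.ofReal_add hη hη]
    exact add_le_add e1 e2
  have hpt : ∀ ω, (iid Γ q) (Prod.mk ω ⁻¹' {z : Ω × (Γ → Bool) |
      (z.1, fun i : A => (g (i.1 • z.1)).1 (i.1 • z.2)) ∈ E})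
      ≤ (iid Γ ν) (Prod.mk ω ⁻¹' {z : Ω × (Γ → Y) | (z.1, fun i : A =>
      if i.1 • z.1 ∈ V then f (i.1 • z.2) else a0) ∈ E})
        + (ENNReal.ofReal η + Bd.indicator (fun _ => 1) ω) := by
    intro ω
    by_cases hω : ω ∈ Bd
    · rw [indicator_of_mem hω]
      calc _ ≤ (1 : ℝ≥0∞) := prob_le_one
        _ ≤ _ := by
          rw [← add_assoc]
          exact le_add_self
    · rw [indicator_of_notMem hω, add_zero]
      simp only [hBd, mem_union, mem_compl_iff, mem_ofPred_eq, not_or, not_not] at hω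
      obtain ⟨hωG, hωD⟩ := hω
      have hres : Measurable (fun (z : Γ → S) (j : A) => z j) :=
        measurable_pi_iff.2 fun j => measurable_pi_apply _
      have hEω : MeasurableSet (Prod.mk ω ⁻¹' E) := measurable_prodMk_left hE
      have h := hGTV ω hωG ((fun (z : Γ → S) (j : A) => z j) ⁻¹' (Prod.mk ω ⁻¹' E)) (hres hEω)
      have e1 : {y | pat a0 g ω (T.cls k ω) y
          ∈ (fun (z : Γ → S) (j : A) => z j) ⁻¹' (Prod.mk ω ⁻¹' E)}
          = Prod.mk ω ⁻¹' {z : Ω × (Γ → Bool) |
            (z.1, fun i : A => (g (i.1 • z.1)).1 (i.1 • z.2)) ∈ E} := by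
        ext y
        simp only [mem_preimage, mem_ofPred_eq]
        have : (fun j : A => pat a0 g ω (T.cls k ω) y j)
            = fun i : A => (g (i.1 • ω)).1 (i.1 • y) := by
          funext i
          simp only [pat]
          rw [if_pos (hωD (hA i.1 i.2).1)]
        rw [this]
      have e2 : {w | fh a0 f B V ω (T.cls k ω) w
          ∈ (fun (z : Γ → S) (j : A) => z j) ⁻¹' (Prod.mk ω ⁻¹' E)}
          = Prod.mk ω ⁻¹' {z : Ω × (Γ → Y) | (z.1, fun i : A =>
            if i.1 • z.1 ∈ V then f (i.1 • z.2) else a0) ∈ E} := by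
        ext w
        simp only [mem_preimage, mem_ofPred_eq]
        have : (fun j : A => fh a0 f B V ω (T.cls k ω) w j)
            = fun i : A => if i.1 • ω ∈ V then f (i.1 • w) else a0 := by
          funext i
          simp only [fh]
          by_cases hv : i.1 • ω ∈ V
          · rw [if_pos hv, if_pos ⟨hωD (hA i.1 i.2).1,
              fun β hβ => hωD ((hA i.1 i.2).2 β hβ), hv⟩]
          · rw [if_neg hv, if_neg (fun h => hv h.2.2)]
        rw [this]
      rw [e1, e2] at h
      rw [← ENNReal.ofReal_toReal (measure_ne_top (iid Γ q) _),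
        ← ENNReal.ofReal_toReal (measure_ne_top (iid Γ ν) _),
        ← ENNReal.ofReal_add ENNReal.toReal_nonneg hη]
      exact ENNReal.ofReal_le_ofReal h
  refine (lintegral_mono hpt).trans ?_
  rw [lintegral_add_left (measurable_measure_prodMk_left hm2)]
  refine add_le_add le_rfl ?_
  rw [lintegral_add_left measurable_const, lintegral_const, measure_univ, mul_one,
    lintegral_indicator_const hBdm, one_mul]
  have : ENNReal.ofReal (3 * η) = ENNReal.ofReal η + ENNReal.ofReal (2 * η) := by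
    rw [← ENNReal.ofReal_add hη (by positivity)]
    congr 1
    ring
  rw [this]
  exact add_le_add le_rfl hBdP

open Classical in
/-- The simulation theorem. -/
theorem simulation [Infinite Γ] [IsProbabilityMeasure P] (T : Tower Γ Ω P)
    (hmp : ∀ γ : Γ, MeasurePreserving (fun ω : Ω => γ • ω) P P) (hmix : Mix Γ P)
    (a0 : S) (q : Measure Bool) [IsProbabilityMeasure q] (ν : Measure Y)
    [IsProbabilityMeasure ν] {V : Set Ω} (hV : MeasurableSet V)
    {θ : ℝ} (hθ0 : 0 < θ) (hθ1 : θ ≤ 1) (hθ : ∀ b, q.real {b} ≤ θ)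
    (H : ℕ → Set Ω) (hHm : ∀ n, MeasurableSet (H n))
    (hHd : ∀ i j, i < j → Disjoint (H i) (H j)) (hHpos : ∀ n, 0 < P.real (H n))
    (R t : ℕ → ℝ) (hR : ∀ n, 0 < R n) (hRs : Summable R)
    (ht0 : ∀ n, 0 < t n) (ht1 : ∀ n, t n ≤ 1)
    (hrate : ∀ n, (1 + Fintype.card S * t n) * (t n) ^ (-(R n))
      * θ ^ (P.real (H n) / 2) < 1)
    {F : (Γ → Y) → S} (hF : Measurable F) (f : ℕ → (Γ → Y) → S) (B : ℕ → Finset Γ)
    (hf : ∀ n, Measurable (f n)) (hfB : ∀ n, DependsOn (f n) (B n : Set Γ))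
    (hf0 : f 0 = fun _ => a0)
    (hVf : ∀ n, P.real V * (iid Γ ν).real {w | f n w ≠ f (n + 1) w} ≤ R n / 64)
    (hfF : Tendsto (fun n => (iid Γ ν) {w | f n w ≠ F w}) atTop (𝓝 0)) :
    ∃ g : Ω → (Γ → Bool) → S, Measurable (fun z : Ω × (Γ → Bool) => g z.1 z.2) ∧
      (∀ ω y y', (∀ γ : Γ, (∃ n, γ • ω ∈ H n) → y γ = y' γ) → g ω y = g ω y') ∧
      (P.prod (iid Γ q)).map (fun z => (z.1, fun γ : Γ => g (γ • z.1) (γ • z.2)))
        = (P.prod (iid Γ ν)).map
          (fun z => (z.1, fun γ : Γ => if γ • z.1 ∈ V then F (γ • z.2) else a0)) := by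
  obtain ⟨en, hen⟩ := exists_surjective_nat Γ
  set An : ℕ → Finset Γ := fun n => (Finset.range n).image en with hAn
  set D : ℕ → Finset Γ := fun n => B n ∪ B (n + 1) ∪ An n
    ∪ ((B n) ×ˢ (An n)).image (fun p => p.1 * p.2) with hD
  set used : ℕ → Set Ω := fun n => {ω | ∃ i, i < n ∧ ω ∈ H i} with hused
  have hused0 : used 0 = ∅ := by
    ext ω; simp [hused]
  have hused1 : ∀ n, used (n + 1) = used n ∪ H n := by
    intro n
    ext ω
    simp only [hused, mem_ofPred_eq, mem_union]
    constructor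
    · rintro ⟨i, hi, h⟩
      rcases Nat.lt_succ_iff_lt_or_eq.1 hi with h' | rfl
      · exact Or.inl ⟨i, h', h⟩
      · exact Or.inr h
    · rintro (⟨i, hi, h⟩ | h)
      · exact ⟨i, hi.trans (Nat.lt_succ_self n), h⟩
      · exact ⟨n, Nat.lt_succ_self n, h⟩
  have husedm : ∀ n, MeasurableSet (used n) := by
    intro n
    induction n with
    | zero => rw [hused0]; exact MeasurableSet.empty
    | succ n ih => rw [hused1]; exact ih.union (hHm n)
  have husedd : ∀ n, Disjoint (used n) (H n) := by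
    intro n
    rw [Set.disjoint_left]
    rintro ω ⟨i, hi, h⟩ h'
    exact Set.disjoint_left.1 (hHd i n hi) h h'
  let St : ℕ → Type _ := fun n => {p : ℕ × (Ω → LocFun Γ S) //
    Inv T a0 q ν (used n) (f n) (B n) V (R n / 64) (D n) p.1 p.2}
  have hnext : ∀ n, ∀ s : St n, ∃ s' : St (n + 1),
      (P.prod (iid Γ q)).real {z | (s'.1.2 z.1).1 z.2 ≠ (s.1.2 z.1).1 z.2} ≤ R n := by
    intro n s
    have hsub : B n ∪ B (n + 1) ⊆ D n := by
      intro x hx
      simp only [hD, Finset.mem_union]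
      exact Or.inl (Or.inl (Finset.mem_union.1 hx))
    obtain ⟨k', g', h1, h2⟩ := step T hmp hmix a0 q ν (husedm n) (hHm n) (husedd n) (hf n)
      (hf (n + 1)) (hfB n) (hfB (n + 1)) hV (η := R n / 64) (by have := hR n; positivity) (hR n)
      le_rfl hsub s.2 (hVf n) hθ0 hθ1 hθ (ht0 n) (ht1 n) (hHpos n) (hrate n)
      (η' := R (n + 1) / 64) (by have := hR (n + 1); positivity) (D (n + 1))
    refine ⟨⟨(k', g'), ?_⟩, h2⟩
    rw [hused1]
    exact h1
  choose nxt hnxt using hnext
  obtain ⟨k0, g0, h0⟩ := init_state T a0 q ν (B 0) V (η := R 0 / 64)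
    (by have := hR 0; positivity) (D 0)
  let s0 : St 0 := ⟨(k0, g0), by rw [hused0, hf0]; exact h0⟩
  let st : ∀ n, St n := fun n => Nat.rec s0 (fun n s => nxt n s) n
  have hst : ∀ n, st (n + 1) = nxt n (st n) := fun n => rfl
  set U : ℕ → Ω × (Γ → Bool) → S := fun n z => ((st n).1.2 z.1).1 z.2 with hU
  have hUm : ∀ n, Measurable (U n) := fun n => measurable_locfun (st n).2.meas
  set M1 := P.prod (iid Γ q) with hM1
  set M2 := P.prod (iid Γ ν) with hM2
  have hΔ : ∀ n, M1 {z | U (n + 1) z ≠ U n z} ≤ ENNReal.ofReal (R n) := by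
    intro n
    rw [← ENNReal.ofReal_toReal (measure_ne_top M1 _)]
    exact ENNReal.ofReal_le_ofReal (hnxt n (st n))
  have hsum : ∑' n, M1 {z | U (n + 1) z ≠ U n z} ≠ ∞ := by
    refine ne_top_of_le_ne_top ?_ (ENNReal.tsum_le_tsum hΔ)
    rw [← ENNReal.ofReal_tsum_of_nonneg (fun n => (hR n).le) hRs]
    exact ENNReal.ofReal_ne_top
  have hbc : ∀ᵐ z ∂M1, ∀ᶠ n in atTop, z ∉ {z | U (n + 1) z ≠ U n z} :=
    ae_eventually_notMem hsum
  set G : Ω × (Γ → Bool) → S := fun z => evl a0 (fun n => U n z) with hG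
  have hGm : Measurable G := measurable_evl a0 U hUm
  have hstab : ∀ z, (∀ᶠ n in atTop, z ∉ {z | U (n + 1) z ≠ U n z}) → ∀ n,
      (∀ k, z ∉ {z | U (k + n + 1) z ≠ U (k + n) z}) → U n z = G z := by
    intro z _ n hn
    have h1 : ∀ k, U (k + n) z = U n z := by
      intro k
      induction k with
      | zero => rw [Nat.zero_add]
      | succ k ih =>
        have := hn k
        simp only [mem_ofPred_eq, ne_eq, not_not] at this
        rw [Nat.add_right_comm, this, ih]
    have h2 : ∀ᶠ m in atTop, U m z = U n z := by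
      refine eventually_atTop.2 ⟨n, fun m hm => ?_⟩
      obtain ⟨k, rfl⟩ := Nat.exists_eq_add_of_le' hm
      exact h1 k
    exact (evl_eq h2).symm
  have hconv : Tendsto (fun n => M1 {z | U n z ≠ G z}) atTop (𝓝 0) := by
    have h1 := ENNReal.tendsto_sum_nat_add (fun n => M1 {z | U (n + 1) z ≠ U n z}) hsum
    refine tendsto_of_tendsto_of_tendsto_of_le_of_le tendsto_const_nhds h1
      (fun n => bot_le) (fun n => ?_)
    have h2 : M1 {z | U n z ≠ G z}
        ≤ M1 (⋃ k, {z | U (k + n + 1) z ≠ U (k + n) z}) := by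
      refine measure_mono_ae ?_
      filter_upwards [hbc] with z hz
      intro hz'
      by_contra hcon
      have hcon' : ∀ k, z ∉ {z | U (k + n + 1) z ≠ U (k + n) z} := by
        intro k hk
        exact hcon (mem_iUnion.2 ⟨k, hk⟩)
      exact hz' (hstab z hz n hcon')
    exact h2.trans (measure_iUnion_le _)
  refine ⟨fun ω y => G (ω, y), hGm, ?_, ?_⟩
  · intro ω y y' hyy'
    simp only [hG]
    congr 1
    funext n
    refine (st n).2.dep ω y y' fun γ _ hu => ?_
    obtain ⟨i, _, hi⟩ := hu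
    exact hyy' γ ⟨i, hi⟩
  · -- equality of the laws
    have hact1 : ∀ γ : Γ, Measurable (fun z : Ω × (Γ → Bool) => (γ • z.1, γ • z.2)) := fun γ =>
      ((hmp γ).measurable.comp measurable_fst).prodMk
        ((measurable_smul_cfg γ).comp measurable_snd)
    have hfld1 : Measurable (fun z : Ω × (Γ → Bool) =>
        (z.1, fun γ : Γ => G (γ • z.1, γ • z.2))) :=
      measurable_fst.prodMk (measurable_pi_iff.2 fun γ => hGm.comp (hact1 γ))
    have hind : ∀ (φ : (Γ → Y) → S), Measurable φ → ∀ γ : Γ,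
        Measurable (fun z : Ω × (Γ → Y) => if γ • z.1 ∈ V then φ (γ • z.2) else a0) := by
      intro φ hφ γ
      refine Measurable.ite ?_ ?_ measurable_const
      · exact ((hmp γ).measurable.comp measurable_fst) hV
      · exact hφ.comp ((measurable_smul_cfg γ).comp measurable_snd)
    have hfld2 : Measurable (fun z : Ω × (Γ → Y) =>
        (z.1, fun γ : Γ => if γ • z.1 ∈ V then F (γ • z.2) else a0)) :=
      measurable_fst.prodMk (measurable_pi_iff.2 fun γ => hind F hF γ)
    have : IsProbabilityMeasure (M1.map (fun z : Ω × (Γ → Bool) =>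
        (z.1, fun γ : Γ => G (γ • z.1, γ • z.2)))) :=
      Measure.isProbabilityMeasure_map hfld1.aemeasurable
    have : IsProbabilityMeasure (M2.map (fun z : Ω × (Γ → Y) =>
        (z.1, fun γ : Γ => if γ • z.1 ∈ V then F (γ • z.2) else a0))) :=
      Measure.isProbabilityMeasure_map hfld2.aemeasurable
    refine law_eq _ _ fun A E hE => ?_
    have hres : Measurable (fun z : Ω × (Γ → S) => (z.1, fun i : A => z.2 i)) :=
      measurable_fst.prodMk (measurable_pi_iff.2 fun i =>
        (measurable_pi_apply i.1).comp measurable_snd)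
    rw [Measure.map_apply hfld1 (hres hE), Measure.map_apply hfld2 (hres hE)]
    show M1 {z | (z.1, fun i : A => G (i.1 • z.1, i.1 • z.2)) ∈ E}
      ≤ M2 {z | (z.1, fun i : A => if i.1 • z.1 ∈ V then F (i.1 • z.2) else a0) ∈ E}
    -- the change at the points of the window
    have hQ1 : ∀ γ : Γ, MeasurePreserving (fun z : Ω × (Γ → Bool) => (γ • z.1, γ • z.2))
        M1 M1 := fun γ => (hmp γ).prod (mp_smul_cfg q γ)
    have c1 : ∀ n, M1 {z | (z.1, fun i : A => G (i.1 • z.1, i.1 • z.2)) ∈ E}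
        ≤ M1 {z | (z.1, fun i : A => U n (i.1 • z.1, i.1 • z.2)) ∈ E}
          + A.card * M1 {z | U n z ≠ G z} := by
      intro n
      have hsub : {z | (z.1, fun i : A => G (i.1 • z.1, i.1 • z.2)) ∈ E}
          ⊆ {z | (z.1, fun i : A => U n (i.1 • z.1, i.1 • z.2)) ∈ E}
            ∪ ⋃ γ ∈ A, (fun z : Ω × (Γ → Bool) => (γ • z.1, γ • z.2)) ⁻¹' {z | U n z ≠ G z} := by
        intro z hz
        by_cases h : ∀ γ ∈ A, U n (γ • z.1, γ • z.2) = G (γ • z.1, γ • z.2)
        · left
          have : (fun i : A => U n (i.1 • z.1, i.1 • z.2))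
              = fun i : A => G (i.1 • z.1, i.1 • z.2) := funext fun i => h i.1 i.2
          simp only [mem_ofPred_eq] at hz ⊢
          rw [this]
          exact hz
        · right
          push Not at h
          obtain ⟨γ, hγ, h⟩ := h
          simp only [mem_iUnion]
          exact ⟨γ, hγ, h⟩
      refine (measure_mono hsub).trans ((measure_union_le _ _).trans ?_)
      refine add_le_add le_rfl ?_
      refine (measure_biUnion_finset_le _ _).trans ?_
      have hms : MeasurableSet {z | U n z ≠ G z} := by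
        have : {z | U n z ≠ G z} = (fun z => (U n z, G z)) ⁻¹' {p | p.1 ≠ p.2} := rfl
        rw [this]
        exact ((hUm n).prodMk hGm) (Set.toFinite _).measurableSet
      have e : ∀ γ ∈ A, M1 ((fun z : Ω × (Γ → Bool) => (γ • z.1, γ • z.2)) ⁻¹'
          {z | U n z ≠ G z}) = M1 {z | U n z ≠ G z} := fun γ _ =>
        (hQ1 γ).measure_preimage hms.nullMeasurableSet
      rw [Finset.sum_congr rfl e, Finset.sum_const, nsmul_eq_mul]
    have c2 : ∀ n, M2 {z | (z.1, fun i : A => if i.1 • z.1 ∈ V then f n (i.1 • z.2) else a0) ∈ E}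
        ≤ M2 {z | (z.1, fun i : A => if i.1 • z.1 ∈ V then F (i.1 • z.2) else a0) ∈ E}
          + A.card * (iid Γ ν) {w | f n w ≠ F w} := by
      intro n
      have hsub : {z : Ω × (Γ → Y) |
            (z.1, fun i : A => if i.1 • z.1 ∈ V then f n (i.1 • z.2) else a0) ∈ E}
          ⊆ {z | (z.1, fun i : A => if i.1 • z.1 ∈ V then F (i.1 • z.2) else a0) ∈ E}
            ∪ ⋃ γ ∈ A, (fun z : Ω × (Γ → Y) => γ • z.2) ⁻¹' {w | f n w ≠ F w} := by
        intro z hz
        by_cases h : ∀ γ ∈ A, f n (γ • z.2) = F (γ • z.2)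
        · left
          have : (fun i : A => if i.1 • z.1 ∈ V then F (i.1 • z.2) else a0)
              = fun i : A => if i.1 • z.1 ∈ V then f n (i.1 • z.2) else a0 :=
            funext fun i => by rw [h i.1 i.2]
          simp only [mem_ofPred_eq] at hz ⊢
          rw [this]
          exact hz
        · right
          push Not at h
          obtain ⟨γ, hγ, h⟩ := h
          simp only [mem_iUnion]
          exact ⟨γ, hγ, h⟩
      refine (measure_mono hsub).trans ((measure_union_le _ _).trans ?_)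
      refine add_le_add le_rfl ?_
      refine (measure_biUnion_finset_le _ _).trans ?_
      have hms : MeasurableSet {w | f n w ≠ F w} := by
        have : {w | f n w ≠ F w} = (fun z => (f n z, F z)) ⁻¹' {p | p.1 ≠ p.2} := rfl
        rw [this]
        exact ((hf n).prodMk hF) (Set.toFinite _).measurableSet
      have hQ2 : ∀ γ : Γ, MeasurePreserving (fun z : Ω × (Γ → Y) => γ • z.2) M2 (iid Γ ν) :=
        fun γ => (mp_smul_cfg ν γ).comp measurePreserving_snd
      have e : ∀ γ ∈ A, M2 ((fun z : Ω × (Γ → Y) => γ • z.2) ⁻¹' {w | f n w ≠ F w})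
          = (iid Γ ν) {w | f n w ≠ F w} := fun γ _ =>
        (hQ2 γ).measure_preimage hms.nullMeasurableSet
      rw [Finset.sum_congr rfl e, Finset.sum_const, nsmul_eq_mul]
    have c3 : ∀ᶠ n in atTop, M1 {z | (z.1, fun i : A => U n (i.1 • z.1, i.1 • z.2)) ∈ E}
        ≤ M2 {z | (z.1, fun i : A => if i.1 • z.1 ∈ V then f n (i.1 • z.2) else a0) ∈ E}
          + ENNReal.ofReal (3 * (R n / 64)) := by
      have hev : ∀ᶠ n in atTop, ∀ γ ∈ A, γ ∈ An n := by
        rw [Filter.eventually_all_finset]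
        intro γ _
        obtain ⟨m, hm⟩ := hen γ
        refine eventually_atTop.2 ⟨m + 1, fun n hn => ?_⟩
        simp only [hAn, Finset.mem_image, Finset.mem_range]
        exact ⟨m, hn, hm⟩
      filter_upwards [hev] with n hn
      refine stage_window T (hf n) hV hmp (by have := hR n; positivity) (st n).2 A ?_ E hE
      intro γ hγ
      refine ⟨?_, fun β hβ => ?_⟩
      · simp only [hD, Finset.mem_union]
        exact Or.inl (Or.inr (hn γ hγ))
      · simp only [hD, Finset.mem_union]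
        right
        exact Finset.mem_image.2 ⟨(β, γ), Finset.mem_product.2 ⟨hβ, hn γ hγ⟩, rfl⟩
    have hlim : Tendsto (fun n => M2 {z | (z.1, fun i : A =>
          if i.1 • z.1 ∈ V then F (i.1 • z.2) else a0) ∈ E}
        + A.card * (iid Γ ν) {w | f n w ≠ F w} + ENNReal.ofReal (3 * (R n / 64))
        + A.card * M1 {z | U n z ≠ G z}) atTop
        (𝓝 (M2 {z | (z.1, fun i : A =>
          if i.1 • z.1 ∈ V then F (i.1 • z.2) else a0) ∈ E} + A.card * 0
          + ENNReal.ofReal (3 * (0 / 64)) + A.card * 0)) := by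
      refine Tendsto.add (Tendsto.add (Tendsto.add tendsto_const_nhds ?_) ?_) ?_
      · exact ENNReal.Tendsto.const_mul hfF (Or.inr (ENNReal.natCast_ne_top _))
      · exact ENNReal.tendsto_ofReal ((hRs.tendsto_atTop_zero.div_const 64).const_mul 3)
      · exact ENNReal.Tendsto.const_mul hconv (Or.inr (ENNReal.natCast_ne_top _))
    simp only [mul_zero, zero_div, ENNReal.ofReal_zero, add_zero] at hlim
    refine ge_of_tendsto hlim ?_
    filter_upwards [c3] with n hn
    calc M1 {z | (z.1, fun i : A => G (i.1 • z.1, i.1 • z.2)) ∈ E}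
        ≤ M1 {z | (z.1, fun i : A => U n (i.1 • z.1, i.1 • z.2)) ∈ E}
          + A.card * M1 {z | U n z ≠ G z} := c1 n
      _ ≤ _ := by
          refine add_le_add ?_ le_rfl
          exact hn.trans (add_le_add (c2 n) le_rfl)

end sim

end Fiid
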