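import Pool.Agent.helper31.FiidClass

/-!
One step of the simulation on the whole space.
-/

open MeasureTheory ProbabilityTheory Set Filter
open scoped ENNReal Topology

namespace Fiid

attribute [local instance] shAction

lemma select {Ω I T : Type*} [Nonempty T] (data : Ω → I) (R : Ω → T → Prop)
    (hR : ∀ ω ω', data ω = data ω' → ∀ t, R ω t → R ω' t) (hex : ∀ ω, ∃ t, R ω t) :
    ∃ samp : I → T, ∀ ω, R ω (samp (data ω)) := by
  classical
  choose h hh using hex
  refine ⟨fun i => if hi : ∃ ω, data ω = i then h hi.choose else Classical.arbitrary T,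
    fun ω => ?_⟩
  have hi : ∃ ω', data ω' = data ω := ⟨ω, rfl⟩
  simp only
  rw [dif_pos hi]
  exact hR _ _ hi.choose_spec _ (hh _)

section inv

variable {Γ : Type*} [Group Γ] [Countable Γ] {Ω : Type*} [MulAction Γ Ω] [MeasurableSpace Ω]
  {P : Measure Ω}
  {S Y : Type*} [MeasurableSpace Y] [Fintype S] [DecidableEq S] [MeasurableSpace S]
  [MeasurableSingletonClass S]

/-- The state of the simulation at one stage. -/
structure Inv (T : Tower Γ Ω P) (a0 : S) (q : Measure Bool) [IsProbabilityMeasure q]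
    (ν : Measure Y) [IsProbabilityMeasure ν] (used : Set Ω) (f : (Γ → Y) → S) (B : Finset Γ)
    (V : Set Ω) (η : ℝ) (D : Finset Γ) (k : ℕ) (g : Ω → LocFun Γ S) : Prop where
  meas : ∀ G, MeasurableSet {ω | g ω = G}
  dep : ∀ ω y y', (∀ γ ∈ T.cls k ω, γ • ω ∈ used → y γ = y' γ) → (g ω).1 y = (g ω).1 y'
  good : ∃ (G : Set Ω) (Λ : ℕ), MeasurableSet G ∧ (∀ ω ∈ G, ∀ γ ∈ T.cls k ω, γ • ω ∈ G) ∧
    P.real Gᶜ ≤ η ∧ (∀ ω ∈ G, (T.cls k ω).card ≤ Λ) ∧
    ∀ ω ∈ G, TV a0 q ν g f B V η ω (T.cls k ω)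
  cover : P.real {ω | ¬ D ⊆ T.cls k ω} ≤ η

lemma Tower.avg_smul (T : Tower Γ Ω P) (k : ℕ) (A : Set Ω) {ω : Ω} {γ : Γ}
    (h : γ ∈ T.cls k ω) : T.avg k A (γ • ω) = T.avg k A ω := by
  unfold Tower.avg
  rw [T.sum_smul k _ h, card_smul_cls (T.cls_smul k) h]

open Classical in
omit [Countable Γ] in
lemma Tower.avg_eq (T : Tower Γ Ω P) (k : ℕ) (A : Set Ω) (ω : Ω) :
    (((T.cls k ω).filter (fun γ => γ • ω ∈ A)).card : ℝ) = T.avg k A ω * (T.cls k ω).card := by
  have hcp : (0 : ℝ) < (T.cls k ω).card := by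
    exact_mod_cast Finset.card_pos.2 ⟨1, T.one_mem k ω⟩
  unfold Tower.avg
  rw [div_mul_cancel₀ _ hcp.ne', Finset.card_filter]
  push_cast
  refine Finset.sum_congr rfl fun γ _ => ?_
  by_cases h : γ • ω ∈ A <;> simp [h]

lemma measurable_locfun {g : Ω → LocFun Γ S} (hg : ∀ G, MeasurableSet {ω | g ω = G}) :
    Measurable (fun z : Ω × (Γ → Bool) => (g z.1).1 z.2) := by
  refine meas_discrete (Z := Ω × (Γ → Bool)) (fun z => g z.1) (fun G => ?_)
    (fun G z => G.1 z.2) (fun G => G.measurable.comp measurable_snd)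
  exact measurable_fst (hg G)

open Classical in
theorem step [Infinite Γ] [IsProbabilityMeasure P] (T : Tower Γ Ω P)
    (hmp : ∀ γ : Γ, MeasurePreserving (fun ω : Ω => γ • ω) P P) (hmix : Mix Γ P)
    (a0 : S) (q : Measure Bool) [IsProbabilityMeasure q] (ν : Measure Y)
    [IsProbabilityMeasure ν] {used fresh : Set Ω} (hmu : MeasurableSet used)
    (hmf : MeasurableSet fresh) (hdisj : Disjoint used fresh)
    {f f' : (Γ → Y) → S} (hf : Measurable f) (hf' : Measurable f') {B B1 : Finset Γ}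
    (hfB : DependsOn f (B : Set Γ)) (hfB' : DependsOn f' (B1 : Set Γ))
    {V : Set Ω} (hV : MeasurableSet V) {η : ℝ} (hη0 : 0 ≤ η) {R : ℝ} (hR : 0 < R)
    (hηR : η ≤ R / 64) {D : Finset Γ} (hBD : B ∪ B1 ⊆ D) {k : ℕ} {g : Ω → LocFun Γ S}
    (hinv : Inv T a0 q ν used f B V η D k g)
    (hVf : P.real V * (iid Γ ν).real {w | f w ≠ f' w} ≤ R / 64)
    {θ : ℝ} (hθ0 : 0 < θ) (hθ1 : θ ≤ 1) (hθ : ∀ b, q.real {b} ≤ θ)
    {t : ℝ} (ht0 : 0 < t) (ht1 : t ≤ 1) (hρ : 0 < P.real fresh)
    (hrate : (1 + Fintype.card S * t) * t ^ (-R) * θ ^ (P.real fresh / 2) < 1)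
    {η' : ℝ} (hη' : 0 < η') (D' : Finset Γ) :
    ∃ (k' : ℕ) (g' : Ω → LocFun Γ S), Inv T a0 q ν (used ∪ fresh) f' B1 V η' D' k' g' ∧
      (P.prod (iid Γ q)).real {z | (g' z.1).1 z.2 ≠ (g z.1).1 z.2} ≤ R := by
  obtain ⟨G, Λ, hGm, hGinv, hGη, hGΛ, hGTV⟩ := hinv.good
  set δ := (iid Γ ν).real {w | f w ≠ f' w} with hδ
  have hδ0 : 0 ≤ δ := measureReal_nonneg
  have hδ1 : δ ≤ 1 := measureReal_le_one
  set ρ := P.real fresh with hρdef
  set rate := (1 + Fintype.card S * t) * t ^ (-R) * θ ^ (ρ / 2) with hrdef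
  have hrate0 : 0 ≤ rate := by positivity
  set A1 : Set Ω := {ω | ¬ (ω ∈ G ∧ B ∪ B1 ⊆ T.cls k ω)} with hA1
  have hA1m : MeasurableSet A1 := by
    refine MeasurableSet.compl ?_
    exact hGm.inter (measSet_discrete (T.cls k) (T.meas k) (fun A => B ∪ B1 ⊆ A))
  have hA1P : P.real A1 ≤ R / 32 := by
    have hsub : A1 ⊆ Gᶜ ∪ {ω | ¬ D ⊆ T.cls k ω} := by
      intro ω hω
      by_cases h : ω ∈ G
      · right
        intro hD
        exact hω ⟨h, hBD.trans hD⟩
      · left; exact h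
    have := (measureReal_mono (μ := P) hsub).trans (measureReal_union_le _ _)
    have h2 := hinv.cover
    linarith
  -- the length threshold
  obtain ⟨L, hL⟩ : ∃ L : ℕ, ∀ N : ℕ, L ≤ N → 1 ≤ N → rate ^ N ≤ η' / 2 ∧
      16 * (Λ + ((B ∪ B1).card * (B ∪ B1).card : ℕ)) / (R ^ 2 * N) ≤ η' / 2 := by
    have l1 := tendsto_pow_atTop_nhds_zero_of_lt_one hrate0 hrate
    have l2 : Tendsto (fun N : ℕ => 16 * (Λ + ((B ∪ B1).card * (B ∪ B1).card : ℕ) : ℝ)
        / (R ^ 2 * N)) atTop (𝓝 0) := by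
      have := tendsto_const_div_atTop_nhds_zero_nat
        (16 * (Λ + ((B ∪ B1).card * (B ∪ B1).card : ℕ) : ℝ) / R ^ 2)
      refine this.congr fun N => ?_
      rw [div_div]
    have e1 := (tendsto_order.1 l1).2 (η' / 2) (by positivity)
    have e2 := (tendsto_order.1 l2).2 (η' / 2) (by positivity)
    obtain ⟨L, hL⟩ := eventually_atTop.1 (e1.and e2)
    exact ⟨L, fun N hN _ => ⟨(hL N hN).1.le, (hL N hN).2.le⟩⟩
  obtain ⟨DL, hDL⟩ := Infinite.exists_subset_card_eq Γ L
  have tendR : ∀ E : Finset Γ, Tendsto (fun k => P.real {ω | ¬ E ⊆ T.cls k ω}) atTop (𝓝 0) := by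
    intro E
    have := (ENNReal.tendsto_toReal ENNReal.zero_ne_top).comp (T.exh E)
    simpa [Function.comp_def, Measure.real] using this
  obtain ⟨k', hk', c1, c2, c3, c4, c5⟩ : ∃ k', k ≤ k' ∧
      P.real {ω | R / 64 ≤ |T.avg k' A1 ω - P.real A1|} < η' / 8 ∧
      P.real {ω | ρ / 4 ≤ |T.avg k' fresh ω - P.real fresh|} < η' / 8 ∧
      P.real {ω | R / 64 ≤ |T.avg k' V ω - P.real V|} < η' / 8 ∧
      P.real {ω | ¬ DL ⊆ T.cls k' ω} < η' / 8 ∧
      P.real {ω | ¬ D' ⊆ T.cls k' ω} < η' / 8 := by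
    have hη8 : 0 < η' / 8 := by positivity
    have e1 := (tendsto_order.1 (T.ergodic hmp hmix hA1m (ε := R / 64) (by positivity))).2 _ hη8
    have e2 := (tendsto_order.1 (T.ergodic hmp hmix hmf (ε := ρ / 4) (by positivity))).2 _ hη8
    have e3 := (tendsto_order.1 (T.ergodic hmp hmix hV (ε := R / 64) (by positivity))).2 _ hη8
    have e4 := (tendsto_order.1 (tendR DL)).2 _ hη8
    have e5 := (tendsto_order.1 (tendR D')).2 _ hη8
    have := ((((e1.and e2).and e3).and e4).and e5).and (eventually_ge_atTop k)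
    obtain ⟨k', ⟨⟨⟨⟨h1, h2⟩, h3⟩, h4⟩, h5⟩, h6⟩ := this.exists
    exact ⟨k', h6, h1, h2, h3, h4, h5⟩
  -- the good classes
  set goodp : Ω → Prop := fun ω => L ≤ (T.cls k' ω).card ∧ T.avg k' A1 ω ≤ R / 16 ∧
    ρ / 2 ≤ T.avg k' fresh ω ∧ T.avg k' V ω * δ ≤ R / 16 with hgoodp
  have hgoodm : MeasurableSet {ω | goodp ω} := by
    have a1 : MeasurableSet {ω | L ≤ (T.cls k' ω).card} :=
      measSet_discrete (T.cls k') (T.meas k') (fun A => L ≤ A.card)
    have am : ∀ A : Set Ω, MeasurableSet A → Measurable (T.avg k' A) := fun A hA =>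
      measurable_avg hmp (T.cls k') (T.meas k') _ (measurable_const.indicator hA)
    have a2 : MeasurableSet {ω | T.avg k' A1 ω ≤ R / 16} :=
      measurableSet_le (am _ hA1m) measurable_const
    have a3 : MeasurableSet {ω | ρ / 2 ≤ T.avg k' fresh ω} :=
      measurableSet_le measurable_const (am _ hmf)
    have a4 : MeasurableSet {ω | T.avg k' V ω * δ ≤ R / 16} :=
      measurableSet_le ((am _ hV).mul_const _) measurable_const
    exact a1.inter (a2.inter (a3.inter a4))
  have hgoodinv : ∀ ω, ∀ γ ∈ T.cls k' ω, (goodp (γ • ω) ↔ goodp ω) := by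
    intro ω γ hγ
    simp only [hgoodp]
    rw [T.avg_smul k' _ hγ, T.avg_smul k' _ hγ, T.avg_smul k' _ hγ,
      card_smul_cls (T.cls_smul k') hγ]
  -- the data and the sampler
  let Loc := LocFun Γ S × Prop × Prop
  let loc : Ω → Loc := fun ω => (g ω, ω ∈ used ∪ fresh, ω ∈ V)
  let data : Ω → Finset Γ × Finset (Γ × Loc) × Prop := fun ω =>
    (T.cls k' ω, (T.cls k' ω).image (fun γ => (γ, loc (γ • ω))), goodp ω)
  have hdata : ∀ ω ω', data ω = data ω' → T.cls k' ω = T.cls k' ω' ∧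
      (∀ γ ∈ T.cls k' ω, loc (γ • ω) = loc (γ • ω')) ∧ (goodp ω ↔ goodp ω') := by
    intro ω ω' h
    have h1 : T.cls k' ω = T.cls k' ω' := congrArg Prod.fst h
    have h2 : (T.cls k' ω).image (fun γ => (γ, loc (γ • ω)))
        = (T.cls k' ω').image (fun γ => (γ, loc (γ • ω'))) :=
      congrArg (fun p => p.2.1) h
    have h3 : goodp ω = goodp ω' := congrArg (fun p => p.2.2) h
    refine ⟨h1, fun γ hγ => ?_, h3.to_iff⟩
    have h4 : (γ, loc (γ • ω)) ∈ (T.cls k' ω').image (fun γ => (γ, loc (γ • ω'))) := by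
      rw [← h2]; exact Finset.mem_image.2 ⟨γ, hγ, rfl⟩
    obtain ⟨γ', hγ', h5⟩ := Finset.mem_image.1 h4
    have h6 : γ' = γ := congrArg Prod.fst h5
    have h7 : loc (γ' • ω') = loc (γ • ω) := congrArg Prod.snd h5
    rw [← h7, h6]
  let Rp : Ω → ((Γ → Bool) → (Γ → S)) → Prop := fun ω s =>
    (∀ y y', (∀ γ ∈ T.cls k' ω, γ • ω ∈ used ∪ fresh → y γ = y' γ) → s y = s y') ∧
    (∀ y, ∀ γ, γ ∉ T.cls k' ω → s y γ = a0) ∧
    (∀ y, (((T.cls k' ω).filter (fun γ => s y γ ≠ (g (γ • ω)).1 (γ • y))).card : ℝ)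
        ≤ R * (T.cls k' ω).card) ∧
    (goodp ω → ∀ E : Set (Γ → S), MeasurableSet E →
        (iid Γ q).real {y | s y ∈ E} ≤ (iid Γ ν).real {w | fh a0 f' B1 V ω (T.cls k' ω) w ∈ E}
          + η')
  have hRcongr : ∀ ω ω', data ω = data ω' → ∀ s, Rp ω s → Rp ω' s := by
    intro ω ω' h s hs
    obtain ⟨h1, h2, h3⟩ := hdata ω ω' h
    have h2a : ∀ γ ∈ T.cls k' ω, g (γ • ω) = g (γ • ω') := fun γ hγ =>
      congrArg Prod.fst (h2 γ hγ)
    have h2b : ∀ γ ∈ T.cls k' ω, (γ • ω ∈ used ∪ fresh ↔ γ • ω' ∈ used ∪ fresh) := fun γ hγ =>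
      (congrArg (fun p => p.2.1) (h2 γ hγ)).to_iff
    have h2c : ∀ γ ∈ T.cls k' ω, (γ • ω ∈ V ↔ γ • ω' ∈ V) := fun γ hγ =>
      (congrArg (fun p => p.2.2) (h2 γ hγ)).to_iff
    obtain ⟨r1, r2, r3, r4⟩ := hs
    refine ⟨?_, ?_, ?_, ?_⟩
    · intro y y' hyy'
      refine r1 y y' fun γ hγ hu => hyy' γ (h1 ▸ hγ) ((h2b γ hγ).1 hu)
    · intro y γ hγ
      exact r2 y γ (by rw [h1]; exact hγ)
    · intro y
      have e : (T.cls k' ω').filter (fun γ => s y γ ≠ (g (γ • ω')).1 (γ • y))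
          = (T.cls k' ω).filter (fun γ => s y γ ≠ (g (γ • ω)).1 (γ • y)) := by
        rw [← h1]
        refine Finset.filter_congr fun γ hγ => ?_
        rw [h2a γ hγ]
      rw [e, ← h1]
      exact r3 y
    · intro hg E hE
      have e : ∀ w, fh a0 f' B1 V ω' (T.cls k' ω') w = fh a0 f' B1 V ω (T.cls k' ω) w := by
        intro w
        funext γ
        simp only [fh, ← h1]
        by_cases hγ : γ ∈ T.cls k' ω
        · simp only [hγ, true_and, h2c γ hγ]
        · simp only [hγ, false_and, if_false]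
      simp only [e]
      exact r4 (h3.2 hg) E hE
  have hRex : ∀ ω, ∃ s, Rp ω s := by
    intro ω
    have hcp : (0 : ℝ) < (T.cls k' ω).card := by
      exact_mod_cast Finset.card_pos.2 ⟨1, T.one_mem k' ω⟩
    by_cases hg : goodp ω
    · obtain ⟨g1, g2, g3, g4⟩ := hg
      obtain ⟨s, s1, s2, s3, s4⟩ := class_sampler T a0 q ν hk' g used fresh hdisj hinv.dep f f'
        hf hf' B B1 hfB hfB' V G hGinv Λ hη0 hGΛ hGTV hR (hηR.trans (by linarith)) ω A1
        (fun ω' h => by
          simp only [hA1, mem_ofPred_eq, not_not] at h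
          exact h)
        (by
          rw [T.avg_eq k' A1 ω]
          gcongr)
        (by
          rw [T.avg_eq k' V ω]
          calc T.avg k' V ω * (T.cls k' ω).card * δ = T.avg k' V ω * δ * (T.cls k' ω).card := by
                ring
            _ ≤ _ := by gcongr)
        hθ0.le hθ1 hθ _ le_rfl ht0 ht1
      refine ⟨s, s1, s2, s3, fun _ E hE => (s4 E hE).trans ?_⟩
      refine add_le_add le_rfl ?_
      have hN1 : 1 ≤ (T.cls k' ω).card := Finset.card_pos.2 ⟨1, T.one_mem k' ω⟩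
      obtain ⟨l1, l2⟩ := hL _ g1 hN1
      have hpow : (1 + Fintype.card S * t) ^ (T.cls k' ω).card
          * t ^ (-(R * (T.cls k' ω).card))
          * θ ^ ((T.cls k' ω).filter (fun γ => γ • ω ∈ fresh)).card
          ≤ rate ^ (T.cls k' ω).card := by
        rw [hrdef, mul_pow, mul_pow]
        have e1 : t ^ (-(R * (T.cls k' ω).card)) = (t ^ (-R)) ^ (T.cls k' ω).card := by
          rw [← Real.rpow_natCast, ← Real.rpow_mul ht0.le]
          congr 1
          ring
        have e2 : (θ ^ (ρ / 2)) ^ (T.cls k' ω).card = θ ^ (ρ / 2 * (T.cls k' ω).card) := by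
          rw [← Real.rpow_natCast, ← Real.rpow_mul hθ0.le]
        rw [e1, e2, ← Real.rpow_natCast θ]
        refine mul_le_mul_of_nonneg_left ?_ (by positivity)
        refine Real.rpow_le_rpow_of_exponent_ge hθ0 hθ1 ?_
        rw [T.avg_eq k' fresh ω]
        gcongr
      linarith
    · refine ⟨pat a0 g ω (T.cls k' ω), ?_, ?_, ?_, fun h => absurd h hg⟩
      · intro y y' hyy'
        funext γ
        simp only [pat]
        split_ifs with hγ
        · refine hinv.dep _ _ _ fun κ hκ hu => ?_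
          simp only [smul_cfg]
          have h1 := T.mono' hk' _ hκ
          rw [T.cls_smul k' ω γ hγ] at h1
          refine hyy' _ h1 (Or.inl ?_)
          rwa [mul_smul]
        · rfl
      · intro y γ hγ
        simp only [pat, hγ, if_false]
      · intro y
        have e : (T.cls k' ω).filter (fun γ => pat a0 g ω (T.cls k' ω) y γ
            ≠ (g (γ • ω)).1 (γ • y)) = ∅ := by
          refine Finset.filter_eq_empty_iff.2 fun γ hγ => ?_
          simp only [pat, hγ, if_true, ne_eq, not_true_eq_false, not_false_eq_true]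
        rw [e, Finset.card_empty, Nat.cast_zero]
        positivity
  have hneS : Nonempty ((Γ → Bool) → (Γ → S)) := ⟨fun _ _ => a0⟩
  obtain ⟨samp, hsamp⟩ := select data Rp hRcongr hRex
  set bp : Ω → Γ := T.bp k' with hbp
  have hbpm : ∀ ω, bp ω ∈ T.cls k' ω := T.bp_mem k'
  have hbp1 : ∀ ω, bp (bp ω • ω) = 1 := by
    intro ω
    have := T.bp_smul k' ω _ (hbpm ω)
    exact mul_eq_right.1 this
  let g' : Ω → LocFun Γ S := fun ω => ⟨fun y => samp (data (bp ω • ω)) (bp ω • y) (bp ω)⁻¹,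
    ⟨T.cls k' ω, by
      intro y y' hyy'
      have h := (hsamp (bp ω • ω)).1 (bp ω • y) (bp ω • y') (fun γ hγ _ => by
        simp only [smul_cfg]
        rw [T.cls_smul k' ω _ (hbpm ω)] at hγ
        exact hyy' _ hγ)
      simp only
      rw [h]⟩⟩
  have hg'val : ∀ ω y, (g' ω).1 y = samp (data (bp ω • ω)) (bp ω • y) (bp ω)⁻¹ :=
    fun ω y => rfl
  -- values over a class, seen from the base point
  have hbase : ∀ ω, bp ω = 1 → ∀ y, ∀ γ ∈ T.cls k' ω, (g' (γ • ω)).1 (γ • y)
      = samp (data ω) y γ := by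
    intro ω h1 y γ hγ
    have h2 : bp (γ • ω) = γ⁻¹ := by
      have := T.bp_smul k' ω γ hγ
      rw [← hbp, h1] at this
      exact eq_inv_of_mul_eq_one_left this
    rw [hg'val, h2, inv_smul_smul, inv_smul_smul, inv_inv]
  have hdatam : ∀ i, MeasurableSet {ω | data ω = i} := by
    rintro ⟨i1, i2, i3⟩
    have e : {ω | data ω = (i1, i2, i3)} = {ω | T.cls k' ω = i1}
        ∩ ({ω | (T.cls k' ω).image (fun γ => (γ, loc (γ • ω))) = i2}
        ∩ {ω | goodp ω = i3}) := by
      ext ω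
      simp only [data, mem_ofPred_eq, mem_inter_iff, Prod.mk.injEq]
    rw [e]
    have hlocm : ∀ l, MeasurableSet {ω | loc ω = l} := by
      rintro ⟨l1, l2, l3⟩
      have e : {ω | loc ω = (l1, l2, l3)} = {ω | g ω = l1}
          ∩ ({ω | (ω ∈ used ∪ fresh) = l2} ∩ {ω | (ω ∈ V) = l3}) := by
        ext ω
        constructor
        · intro h
          have h' : loc ω = (l1, l2, l3) := h
          have k1 : g ω = l1 := congrArg (fun p : Loc => p.1) h'
          have k2 : (ω ∈ used ∪ fresh) = l2 := congrArg (fun p : Loc => p.2.1) h'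
          have k3 : (ω ∈ V) = l3 := congrArg (fun p : Loc => p.2.2) h'
          exact ⟨k1, k2, k3⟩
        · rintro ⟨h1, h2, h3⟩
          exact Prod.ext h1 (Prod.ext h2 h3)
      rw [e]
      have hprop : ∀ (A : Set Ω), MeasurableSet A → ∀ p : Prop,
          MeasurableSet {ω | (ω ∈ A) = p} := by
        intro A hA p
        by_cases hp : p
        · simp only [hp, eq_iff_iff, iff_true]; exact hA
        · simp only [hp, eq_iff_iff, iff_false]; exact hA.compl
      exact (hinv.meas l1).inter ((hprop _ (hmu.union hmf) l2).inter (hprop _ hV l3))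
    refine (T.meas k' i1).inter (MeasurableSet.inter ?_ ?_)
    · have key : ∀ C : Finset Γ, MeasurableSet
          {ω | C.image (fun γ => (γ, loc (γ • ω))) = i2} := by
        intro C
        have h1 := measSet_discrete (I := C → Loc) (fun (ω : Ω) (γ : C) => loc (γ.1 • ω))
          (fun l => by
            have : {ω : Ω | (fun γ : C => loc (γ.1 • ω)) = l}
                = ⋂ γ : C, (fun ω => γ.1 • ω) ⁻¹' {ω | loc ω = l γ} := by
              ext ω
              simp only [mem_ofPred_eq, mem_iInter, mem_preimage]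
              constructor
              · rintro rfl γ; rfl
              · intro h; funext γ; exact h γ
            rw [this]
            exact MeasurableSet.iInter fun γ => (hmp γ.1).measurable (hlocm _))
          (fun l => (Finset.univ : Finset C).image (fun γ => (γ.1, l γ)) = i2)
        have h2 : ∀ ω, (Finset.univ : Finset C).image (fun γ => (γ.1, loc (γ.1 • ω)))
            = C.image (fun γ => (γ, loc (γ • ω))) := by
          intro ω
          ext x
          simp only [Finset.mem_image, Finset.mem_univ, true_and]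
          constructor
          · rintro ⟨γ, rfl⟩; exact ⟨γ.1, γ.2, rfl⟩
          · rintro ⟨γ, hγ, rfl⟩; exact ⟨⟨γ, hγ⟩, rfl⟩
        simp only [h2] at h1
        exact h1
      have : {ω | (T.cls k' ω).image (fun γ => (γ, loc (γ • ω))) = i2}
          = ⋃ C, ({ω | T.cls k' ω = C} ∩ {ω | C.image (fun γ => (γ, loc (γ • ω))) = i2}) := by
        ext ω
        simp only [mem_ofPred_eq, mem_iUnion, mem_inter_iff]
        constructor
        · intro h; exact ⟨_, rfl, h⟩
        · rintro ⟨C, rfl, h⟩; exact h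
      rw [this]
      exact MeasurableSet.iUnion fun C => (T.meas k' C).inter (key C)
    · by_cases hp : i3
      · simp only [hp, eq_iff_iff, iff_true]; exact hgoodm
      · simp only [hp, eq_iff_iff, iff_false]; exact hgoodm.compl
  have hg'm : ∀ F, MeasurableSet {ω | g' ω = F} := by
    intro F
    have h1 := measSet_discrete (fun ω : Ω => (bp ω, data (bp ω • ω))) (fun i => by
      obtain ⟨b, i⟩ := i
      have : {ω : Ω | (bp ω, data (bp ω • ω)) = (b, i)}
          = {ω | bp ω = b} ∩ (fun ω => b • ω) ⁻¹' {ω | data ω = i} := by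
        ext ω
        simp only [mem_ofPred_eq, mem_inter_iff, mem_preimage, Prod.mk.injEq]
        constructor
        · rintro ⟨rfl, h⟩; exact ⟨rfl, h⟩
        · rintro ⟨rfl, h⟩; exact ⟨rfl, h⟩
      rw [this]
      exact (T.bp_meas k' b).inter ((hmp b).measurable (hdatam i)))
      (fun p => (fun y : Γ → Bool => samp p.2 (p.1 • y) p.1⁻¹) = F.1)
    have e : {ω | g' ω = F} = {ω | (fun y : Γ → Bool =>
        samp (data (bp ω • ω)) (bp ω • y) (bp ω)⁻¹) = F.1} := by
      ext ω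
      simp only [mem_ofPred_eq]
      exact Subtype.ext_iff
    rw [e]
    exact h1
  -- the size bound
  obtain ⟨Λ', hΛ'⟩ : ∃ Λ' : ℕ, P.real {ω | ¬ ((T.cls k' ω).card ≤ Λ')} < η' / 8 := by
    have hanti : Antitone (fun n : ℕ => {ω | ¬ ((T.cls k' ω).card ≤ n)}) := by
      intro n m hnm ω hω
      simp only [mem_ofPred_eq, not_le] at hω ⊢
      exact hnm.trans_lt hω
    have h1 := tendsto_measure_iInter_atTop (μ := P)
      (s := fun n : ℕ => {ω | ¬ ((T.cls k' ω).card ≤ n)})
      (fun n => (measSet_discrete (T.cls k') (T.meas k')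
        (fun A => ¬ (A.card ≤ n))).nullMeasurableSet) hanti ⟨0, measure_ne_top _ _⟩
    have h2 : (⋂ n : ℕ, {ω | ¬ ((T.cls k' ω).card ≤ n)}) = ∅ := by
      ext ω
      simp only [mem_iInter, mem_ofPred_eq, mem_empty_iff_false, iff_false, not_forall, not_not]
      exact ⟨_, le_rfl⟩
    rw [h2, measure_empty] at h1
    have h3 := (ENNReal.tendsto_toReal ENNReal.zero_ne_top).comp h1
    have h4 := (tendsto_order.1 h3).2 (η' / 8) (by simpa using by positivity)
    obtain ⟨n, hn⟩ := h4.exists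
    exact ⟨n, hn⟩
  refine ⟨k', g', ⟨hg'm, ?_, ?_, (c5.le.trans (by linarith))⟩, ?_⟩
  · intro ω y y' hyy'
    rw [hg'val, hg'val]
    have h := (hsamp (bp ω • ω)).1 (bp ω • y) (bp ω • y') (fun γ hγ hu => by
      simp only [smul_cfg]
      rw [T.cls_smul k' ω _ (hbpm ω)] at hγ
      refine hyy' _ hγ ?_
      rwa [mul_smul])
    rw [h]
  · refine ⟨{ω | goodp ω ∧ (T.cls k' ω).card ≤ Λ'}, Λ', ?_, ?_, ?_, ?_, ?_⟩
    · exact hgoodm.inter (measSet_discrete (T.cls k') (T.meas k') (fun A => A.card ≤ Λ'))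
    · intro ω hω γ hγ
      refine ⟨(hgoodinv ω γ hγ).2 hω.1, ?_⟩
      rw [card_smul_cls (T.cls_smul k') hγ]
      exact hω.2
    · have hsub : {ω | goodp ω ∧ (T.cls k' ω).card ≤ Λ'}ᶜ
          ⊆ (((({ω | ¬ DL ⊆ T.cls k' ω} ∪ {ω | R / 64 ≤ |T.avg k' A1 ω - P.real A1|})
            ∪ {ω | ρ / 4 ≤ |T.avg k' fresh ω - P.real fresh|})
            ∪ {ω | R / 64 ≤ |T.avg k' V ω - P.real V|})
            ∪ {ω | ¬ ((T.cls k' ω).card ≤ Λ')}) := by
        intro ω hω
        by_contra hcon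
        simp only [mem_union, mem_ofPred_eq, not_or, not_le, not_not] at hcon
        obtain ⟨⟨⟨⟨d1, d2⟩, d3⟩, d4⟩, d5⟩ := hcon
        apply hω
        rw [abs_lt] at d2 d3 d4
        refine ⟨⟨?_, ?_, ?_, ?_⟩, by simpa using d5⟩
        · rw [← hDL]; exact Finset.card_le_card d1
        · linarith
        · rw [← hρdef] at d3; linarith
        · have h1 : T.avg k' V ω ≤ P.real V + R / 64 := by linarith
          calc T.avg k' V ω * δ ≤ (P.real V + R / 64) * δ := by gcongr
            _ = P.real V * δ + R / 64 * δ := by ring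
            _ ≤ R / 64 + R / 64 * 1 := by gcongr
            _ ≤ R / 16 := by linarith
      refine (measureReal_mono hsub).trans ?_
      refine (measureReal_union_le _ _).trans ?_
      have u1 := measureReal_union_le (μ := P)
        (({ω | ¬ DL ⊆ T.cls k' ω} ∪ {ω | R / 64 ≤ |T.avg k' A1 ω - P.real A1|})
            ∪ {ω | ρ / 4 ≤ |T.avg k' fresh ω - P.real fresh|})
        {ω | R / 64 ≤ |T.avg k' V ω - P.real V|}
      have u2 := measureReal_union_le (μ := P)
        ({ω | ¬ DL ⊆ T.cls k' ω} ∪ {ω | R / 64 ≤ |T.avg k' A1 ω - P.real A1|})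
        {ω | ρ / 4 ≤ |T.avg k' fresh ω - P.real fresh|}
      have u3 := measureReal_union_le (μ := P) {ω | ¬ DL ⊆ T.cls k' ω}
        {ω | R / 64 ≤ |T.avg k' A1 ω - P.real A1|}
      linarith
    · intro ω hω; exact hω.2
    · intro ω hω
      refine TV_smul (γ := bp ω) (C' := T.cls k' (bp ω • ω)) hf'
        (fun δ => T.cls_smul k' ω _ (hbpm ω) δ) ?_
      intro E hE
      have e : ∀ y, pat a0 g' (bp ω • ω) (T.cls k' (bp ω • ω)) y
          = samp (data (bp ω • ω)) y := by
        intro y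
        funext γ
        simp only [pat]
        by_cases hγ : γ ∈ T.cls k' (bp ω • ω)
        · rw [if_pos hγ]
          exact hbase _ (hbp1 ω) y γ hγ
        · rw [if_neg hγ]
          exact ((hsamp (bp ω • ω)).2.1 y γ hγ).symm
      simp only [e]
      exact (hsamp (bp ω • ω)).2.2.2 ((hgoodinv ω _ (hbpm ω)).2 hω.1) E hE
  · -- the change is small
    have hQ : ∀ γ : Γ, MeasurePreserving (fun z : Ω × (Γ → Bool) => γ • z)
        (P.prod (iid Γ q)) (P.prod (iid Γ q)) := fun γ =>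
      (hmp γ).prod (mp_smul_cfg q γ)
    set φ : Ω × (Γ → Bool) → ℝ≥0∞ := fun z =>
      if (g' z.1).1 z.2 ≠ (g z.1).1 z.2 then 1 else 0 with hφ
    have hms : MeasurableSet {z : Ω × (Γ → Bool) | (g' z.1).1 z.2 ≠ (g z.1).1 z.2} := by
      have h1 := measurable_locfun hg'm
      have h2 := measurable_locfun hinv.meas
      have : {z : Ω × (Γ → Bool) | (g' z.1).1 z.2 ≠ (g z.1).1 z.2}
          = (fun z : Ω × (Γ → Bool) => ((g' z.1).1 z.2, (g z.1).1 z.2)) ⁻¹'
            {p | p.1 ≠ p.2} := rfl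
      rw [this]
      exact (h1.prodMk h2) (Set.toFinite _).measurableSet
    have hφm : Measurable φ := Measurable.ite hms measurable_const measurable_const
    have hmtp := mtp hQ (fun z : Ω × (Γ → Bool) => T.cls k' z.1) (fun z => T.one_mem k' z.1)
      (fun z γ h δ => T.cls_smul k' z.1 γ h δ)
      (fun A => measurable_fst (T.meas k' A)) φ hφm
    have hlin : ∫⁻ z, φ z ∂(P.prod (iid Γ q))
        = (P.prod (iid Γ q)) {z | (g' z.1).1 z.2 ≠ (g z.1).1 z.2} := by
      have : φ = {z | (g' z.1).1 z.2 ≠ (g z.1).1 z.2}.indicator (fun _ => 1) := by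
        funext z
        simp only [hφ, indicator, mem_ofPred_eq]
      rw [this, lintegral_indicator_const hms, one_mul]
    have hbound : ∀ z : Ω × (Γ → Bool),
        (∑ γ ∈ T.cls k' z.1, φ (γ • z)) / (T.cls k' z.1).card ≤ ENNReal.ofReal R := by
      rintro ⟨ω, y⟩
      have hcp : (0 : ℝ) < (T.cls k' ω).card := by
        exact_mod_cast Finset.card_pos.2 ⟨1, T.one_mem k' ω⟩
      have e1 : ∑ γ ∈ T.cls k' ω, φ (γ • (ω, y))
          = (((T.cls k' ω).filter (fun γ => (g' (γ • ω)).1 (γ • y)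
            ≠ (g (γ • ω)).1 (γ • y))).card : ℝ≥0∞) := by
        rw [Finset.card_filter]
        push_cast
        rfl
      have e2 : ((T.cls k' ω).filter (fun γ => (g' (γ • ω)).1 (γ • y)
            ≠ (g (γ • ω)).1 (γ • y))).card
          = ((T.cls k' (bp ω • ω)).filter (fun γ => samp (data (bp ω • ω)) (bp ω • y) γ
            ≠ (g (γ • bp ω • ω)).1 (γ • bp ω • y))).card := by
        symm
        refine Finset.card_bij (fun γ _ => γ * bp ω) ?_ ?_ ?_
        · intro γ hγ
          rw [Finset.mem_filter] at hγ ⊢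
          refine ⟨(T.cls_smul k' ω _ (hbpm ω) γ).1 hγ.1, ?_⟩
          rw [mul_smul, mul_smul, hbase _ (hbp1 ω) _ γ hγ.1]
          exact hγ.2
        · intro γ _ γ' _ h
          exact mul_right_cancel h
        · intro γ hγ
          rw [Finset.mem_filter] at hγ
          have hmem : γ * (bp ω)⁻¹ ∈ T.cls k' (bp ω • ω) := by
            rw [T.cls_smul k' ω _ (hbpm ω)]; simpa using hγ.1
          refine ⟨γ * (bp ω)⁻¹, ?_, by simp⟩
          rw [Finset.mem_filter]
          refine ⟨hmem, ?_⟩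
          rw [← hbase _ (hbp1 ω) _ _ hmem]
          have h2 := hγ.2
          simp only [smul_smul, inv_mul_cancel_right]
          exact h2
      have e3 := (hsamp (bp ω • ω)).2.2.1 (bp ω • y)
      rw [card_smul_cls (T.cls_smul k') (hbpm ω)] at e3
      show (∑ γ ∈ T.cls k' ω, φ (γ • (ω, y))) / ((T.cls k' ω).card : ℝ≥0∞) ≤ ENNReal.ofReal R
      rw [e1, e2]
      rw [ENNReal.div_le_iff_le_mul (Or.inl (by exact_mod_cast hcp.ne'))
        (Or.inl (ENNReal.natCast_ne_top _))]
      rw [← ENNReal.ofReal_natCast, ← ENNReal.ofReal_natCast, ← ENNReal.ofReal_mul hR.le]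
      exact ENNReal.ofReal_le_ofReal e3
    rw [Measure.real, ← hlin, ← hmtp]
    refine ENNReal.toReal_le_of_le_ofReal hR.le ?_
    refine (lintegral_mono hbound).trans ?_
    rw [lintegral_const, measure_univ, mul_one]

end inv

end Fiid
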