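import Pool.Agent.helper31.FiidBase

/-!
Towers of finite equivalence relations on a measure preserving action, the mass transport
principle, and the mean ergodic theorem along a tower.
-/

open MeasureTheory ProbabilityTheory Set Filter
open scoped ENNReal Topology

namespace Fiid

/-- A composition with a countably valued map is measurable. -/
lemma meas_discrete {Z I A : Type*} [MeasurableSpace Z] [MeasurableSpace A] [Countable I]
    (c : Z → I) (hc : ∀ i, MeasurableSet {z | c z = i}) (g : I → Z → A)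
    (hg : ∀ i, Measurable (g i)) : Measurable (fun z => g (c z) z) := by
  intro s hs
  have : (fun z => g (c z) z) ⁻¹' s = ⋃ i, ({z | c z = i} ∩ (g i) ⁻¹' s) := by
    ext z
    simp only [mem_preimage, mem_iUnion, mem_inter_iff, mem_ofPred_eq]
    constructor
    · intro h; exact ⟨c z, rfl, h⟩
    · rintro ⟨i, rfl, h⟩; exact h
  rw [this]
  exact MeasurableSet.iUnion fun i => (hc i).inter (hg i hs)

/-- A set defined through a countably valued map is measurable. -/
lemma measSet_discrete {Z I : Type*} [MeasurableSpace Z] [Countable I]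
    (c : Z → I) (hc : ∀ i, MeasurableSet {z | c z = i}) (p : I → Prop) :
    MeasurableSet {z | p (c z)} := by
  have : {z | p (c z)} = ⋃ i ∈ {i | p i}, {z | c z = i} := by
    ext z
    simp
  rw [this]
  exact MeasurableSet.biUnion (to_countable _) fun i _ => hc i

section mtp

variable {Γ Z : Type*} [Group Γ] [Countable Γ] [MulAction Γ Z] [MeasurableSpace Z]
  {Q : Measure Z}

omit [Countable Γ] [MeasurableSpace Z] in
lemma card_smul_cls {c : Z → Finset Γ}
    (hs : ∀ z γ, γ ∈ c z → ∀ δ, δ ∈ c (γ • z) ↔ δ * γ ∈ c z) {z : Z} {γ : Γ} (h : γ ∈ c z) :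
    (c (γ • z)).card = (c z).card := by
  classical
  have : c z = (c (γ • z)).image (fun δ => δ * γ) := by
    ext δ
    rw [Finset.mem_image]
    constructor
    · intro hδ
      exact ⟨δ * γ⁻¹, by rw [hs z γ h]; simpa using hδ, by simp⟩
    · rintro ⟨δ', h', rfl⟩
      exact (hs z γ h δ').1 h'
  conv_rhs => rw [this]
  rw [Finset.card_image_of_injective _ (mul_left_injective γ)]

/-- Mass transport principle. -/
theorem mtp (hQ : ∀ γ : Γ, MeasurePreserving (fun z : Z => γ • z) Q Q)
    (c : Z → Finset Γ) (h1 : ∀ z, 1 ∈ c z)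
    (hs : ∀ z γ, γ ∈ c z → ∀ δ, δ ∈ c (γ • z) ↔ δ * γ ∈ c z)
    (hm : ∀ A, MeasurableSet {z | c z = A}) (φ : Z → ℝ≥0∞) (hφ : Measurable φ) :
    ∫⁻ z, (∑ γ ∈ c z, φ (γ • z)) / (c z).card ∂Q = ∫⁻ z, φ z ∂Q := by
  classical
  have hsym : ∀ z γ, γ ∈ c z ↔ γ⁻¹ ∈ c (γ • z) := by
    intro z γ
    constructor
    · intro h
      rw [hs z γ h, inv_mul_cancel]; exact h1 z
    · intro h
      have := hs (γ • z) γ⁻¹ h γ
      rw [inv_smul_smul, mul_inv_cancel] at this
      exact this.2 (h1 _)
  set h : Γ → Z → ℝ≥0∞ := fun γ z => if γ⁻¹ ∈ c z then φ z / (c z).card else 0 with hh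
  have hmh : ∀ γ, Measurable (h γ) := by
    intro γ
    have := meas_discrete c hm (fun (A : Finset Γ) z => if γ⁻¹ ∈ A then φ z / A.card else 0)
      (fun A => by
        by_cases hA : γ⁻¹ ∈ A
        · simp only [hA, if_true]; exact hφ.div_const _
        · simp only [hA, if_false]; exact measurable_const)
    exact this
  have e1 : ∀ z, (∑ γ ∈ c z, φ (γ • z)) / (c z).card = ∑' γ, h γ (γ • z) := by
    intro z
    rw [tsum_eq_sum (s := c z)]
    · rw [ENNReal.div_eq_inv_mul, Finset.mul_sum]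
      refine Finset.sum_congr rfl fun γ hγ => ?_
      simp only [hh]
      rw [if_pos ((hsym z γ).1 hγ), card_smul_cls hs hγ, ENNReal.div_eq_inv_mul]
    · intro γ hγ
      simp only [hh]
      rw [if_neg (fun h => hγ ((hsym z γ).2 h))]
  have e2 : ∀ z, ∑' γ, h γ z = φ z := by
    intro z
    rw [tsum_eq_sum (s := (c z).image (fun γ => γ⁻¹))]
    · simp only [hh]
      rw [Finset.sum_image (fun _ _ _ _ h => inv_injective h)]
      simp only [inv_inv]
      rw [Finset.sum_ite_mem, Finset.inter_self, Finset.sum_const, nsmul_eq_mul]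
      refine ENNReal.mul_div_cancel ?_ (ENNReal.natCast_ne_top _)
      have : 0 < (c z).card := Finset.card_pos.2 ⟨1, h1 z⟩
      exact_mod_cast this.ne'
    · intro γ hγ
      simp only [hh]
      rw [if_neg]
      intro h
      exact hγ (Finset.mem_image.2 ⟨γ⁻¹, h, inv_inv γ⟩)
  simp only [e1]
  rw [lintegral_tsum (f := fun γ z => h γ (γ • z))
    (fun γ => ((hmh γ).comp (hQ γ).measurable).aemeasurable)]
  have e3 : ∀ γ, ∫⁻ z, h γ (γ • z) ∂Q = ∫⁻ z, h γ z ∂Q := fun γ =>
    (hQ γ).lintegral_comp (hmh γ)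
  simp only [e3]
  rw [← lintegral_tsum (fun γ => (hmh γ).aemeasurable)]
  simp only [e2]

lemma measurable_avg (hQ : ∀ γ : Γ, MeasurePreserving (fun z : Z => γ • z) Q Q)
    (c : Z → Finset Γ) (hm : ∀ A, MeasurableSet {z | c z = A}) (φ : Z → ℝ) (hφ : Measurable φ) :
    Measurable (fun z => (∑ γ ∈ c z, φ (γ • z)) / (c z).card) :=
  meas_discrete c hm (fun (A : Finset Γ) z => (∑ γ ∈ A, φ (γ • z)) / A.card)
    (fun _ => Measurable.div_const
      (Finset.measurable_fun_sum _ fun γ _ => hφ.comp (hQ γ).measurable) _)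

/-- Mass transport principle for bounded real functions. -/
theorem mtp_real [IsProbabilityMeasure Q]
    (hQ : ∀ γ : Γ, MeasurePreserving (fun z : Z => γ • z) Q Q)
    (c : Z → Finset Γ) (h1 : ∀ z, 1 ∈ c z)
    (hs : ∀ z γ, γ ∈ c z → ∀ δ, δ ∈ c (γ • z) ↔ δ * γ ∈ c z)
    (hm : ∀ A, MeasurableSet {z | c z = A}) (φ : Z → ℝ) (hφ : Measurable φ) (M : ℝ)
    (hM : ∀ z, |φ z| ≤ M) :
    ∫ z, (∑ γ ∈ c z, φ (γ • z)) / (c z).card ∂Q = ∫ z, φ z ∂Q := by
  have hcp : ∀ z, (0 : ℝ) < (c z).card := fun z => by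
    exact_mod_cast Finset.card_pos.2 ⟨1, h1 z⟩
  have hbd : ∀ z, |(∑ γ ∈ c z, φ (γ • z)) / (c z).card| ≤ M := by
    intro z
    rw [abs_div, abs_of_pos (hcp z), div_le_iff₀ (hcp z)]
    refine (Finset.abs_sum_le_sum_abs _ _).trans ?_
    refine (Finset.sum_le_sum fun γ _ => hM (γ • z)).trans ?_
    rw [Finset.sum_const, nsmul_eq_mul, mul_comm]
  have hnn : ∫ z, ((∑ γ ∈ c z, φ (γ • z)) / (c z).card + M) ∂Q = ∫ z, (φ z + M) ∂Q := by
    rw [integral_eq_lintegral_of_nonneg_ae, integral_eq_lintegral_of_nonneg_ae]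
    · congr 1
      rw [← mtp hQ c h1 hs hm (fun z => ENNReal.ofReal (φ z + M))
        (hφ.add_const M).ennreal_ofReal]
      refine lintegral_congr fun z => ?_
      rw [← ENNReal.ofReal_sum_of_nonneg, ← ENNReal.ofReal_natCast, ← ENNReal.ofReal_div_of_pos (hcp z)]
      · congr 1
        rw [Finset.sum_add_distrib, Finset.sum_const, nsmul_eq_mul, add_div]
        congr 1
        have := (hcp z).ne'
        field_simp
      · intro γ _
        have := neg_abs_le (φ (γ • z))
        have := hM (γ • z)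
        linarith
    · refine Eventually.of_forall fun z => ?_
      have := neg_abs_le (φ z)
      have := hM z
      simp only [Pi.zero_apply]
      linarith
    · exact (hφ.add_const M).aestronglyMeasurable
    · refine Eventually.of_forall fun z => ?_
      have := neg_abs_le ((∑ γ ∈ c z, φ (γ • z)) / (c z).card)
      have := hbd z
      simp only [Pi.zero_apply]
      linarith
    · exact ((measurable_avg hQ c hm φ hφ).add_const M).aestronglyMeasurable
  rw [integral_add (integrable_bdd (measurable_avg hQ c hm φ hφ) M hbd) (integrable_const _),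
    integral_add (integrable_bdd hφ M hM) (integrable_const _)] at hnn
  linarith

end mtp

/-- A tower of finite equivalence relations exhausting the orbit relation, with base points. -/
structure Tower (Γ : Type*) [Group Γ] (Ω : Type*) [MulAction Γ Ω] [MeasurableSpace Ω]
    (P : Measure Ω) where
  cls : ℕ → Ω → Finset Γ
  one_mem : ∀ k ω, 1 ∈ cls k ω
  cls_smul : ∀ k ω γ, γ ∈ cls k ω → ∀ δ, δ ∈ cls k (γ • ω) ↔ δ * γ ∈ cls k ω
  mono : ∀ k ω, cls k ω ⊆ cls (k + 1) ω
  meas : ∀ k (A : Finset Γ), MeasurableSet {ω | cls k ω = A}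
  exh : ∀ D : Finset Γ, Tendsto (fun k => P {ω | ¬ D ⊆ cls k ω}) atTop (𝓝 0)
  bp : ℕ → Ω → Γ
  bp_mem : ∀ k ω, bp k ω ∈ cls k ω
  bp_smul : ∀ k ω γ, γ ∈ cls k ω → bp k (γ • ω) * γ = bp k ω
  bp_meas : ∀ k b, MeasurableSet {ω | bp k ω = b}

namespace Tower

variable {Γ : Type*} [Group Γ] [Countable Γ] {Ω : Type*} [MulAction Γ Ω] [MeasurableSpace Ω]
  {P : Measure Ω} [IsProbabilityMeasure P] (T : Tower Γ Ω P)

omit [Countable Γ] [IsProbabilityMeasure P] in
lemma mono' {k l : ℕ} (h : k ≤ l) (ω : Ω) : T.cls k ω ⊆ T.cls l ω := by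
  induction l, h using Nat.le_induction with
  | base => exact subset_rfl
  | succ l _ ih => exact ih.trans (T.mono l ω)

/-- The average of the indicator of `A` over the class. -/
noncomputable def avg (k : ℕ) (A : Set Ω) (ω : Ω) : ℝ :=
  (∑ γ ∈ T.cls k ω, A.indicator (fun _ => (1 : ℝ)) (γ • ω)) / (T.cls k ω).card

omit [Countable Γ] [IsProbabilityMeasure P] in
lemma sum_smul (k : ℕ) (f : Ω → ℝ) {ω : Ω} {γ : Γ} (h : γ ∈ T.cls k ω) :
    ∑ δ ∈ T.cls k (γ • ω), f (δ • γ • ω) = ∑ δ ∈ T.cls k ω, f (δ • ω) := by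
  classical
  have : T.cls k ω = (T.cls k (γ • ω)).image (fun δ => δ * γ) := by
    ext δ
    rw [Finset.mem_image]
    constructor
    · intro hδ
      exact ⟨δ * γ⁻¹, by rw [T.cls_smul k ω γ h]; simpa using hδ, by simp⟩
    · rintro ⟨δ', h', rfl⟩
      exact (T.cls_smul k ω γ h δ').1 h'
  conv_rhs => rw [this]
  rw [Finset.sum_image (fun _ _ _ _ h => mul_left_injective γ h)]
  simp only [mul_smul]

theorem ergodic (hP : ∀ γ : Γ, MeasurePreserving (fun ω : Ω => γ • ω) P P)
    (hmix : Mix Γ P) {A : Set Ω} (hA : MeasurableSet A) {ε : ℝ} (hε : 0 < ε) :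
    Tendsto (fun k => P.real {ω | ε ≤ |T.avg k A ω - P.real A|}) atTop (𝓝 0) := by
  set ψ : Ω → ℝ := fun ω => A.indicator (fun _ => (1 : ℝ)) ω - P.real A with hψ
  have hψm : Measurable ψ := (measurable_const.indicator hA).sub_const _
  have hp0 : 0 ≤ P.real A := measureReal_nonneg
  have hp1 : P.real A ≤ 1 := measureReal_le_one
  have hψb : ∀ ω, |ψ ω| ≤ 1 := by
    intro ω
    simp only [hψ]
    by_cases h : ω ∈ A
    · rw [indicator_of_mem h, abs_le]; constructor <;> linarith
    · rw [indicator_of_notMem h, abs_le]; constructor <;> linarith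
  have hcp : ∀ k ω, (0 : ℝ) < (T.cls k ω).card := fun k ω => by
    exact_mod_cast Finset.card_pos.2 ⟨1, T.one_mem k ω⟩
  set a : ℕ → Ω → ℝ := fun k ω => (∑ γ ∈ T.cls k ω, ψ (γ • ω)) / (T.cls k ω).card with ha
  have ham : ∀ k, Measurable (a k) := fun k => measurable_avg hP (T.cls k) (T.meas k) ψ hψm
  have hab : ∀ k ω, |a k ω| ≤ 1 := by
    intro k ω
    simp only [ha]
    rw [abs_div, abs_of_pos (hcp k ω), div_le_iff₀ (hcp k ω)]
    refine (Finset.abs_sum_le_sum_abs _ _).trans ?_
    refine (Finset.sum_le_sum fun γ _ => hψb (γ • ω)).trans ?_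
    rw [Finset.sum_const, nsmul_eq_mul, mul_comm]
  have hae : ∀ k ω, T.avg k A ω - P.real A = a k ω := by
    intro k ω
    simp only [ha, hψ, avg]
    rw [Finset.sum_sub_distrib, sub_div, Finset.sum_const, nsmul_eq_mul]
    congr 1
    have := (hcp k ω).ne'
    field_simp
  have hinv : ∀ k ω γ, γ ∈ T.cls k ω → a k (γ • ω) = a k ω := by
    intro k ω γ h
    simp only [ha]
    rw [T.sum_smul k ψ h, card_smul_cls (T.cls_smul k) h]
  simp only [hae]
  -- second moment
  have hsq : ∀ k, ∫ ω, (a k ω) ^ 2 ∂P = ∫ ω, ψ ω * a k ω ∂P := by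
    intro k
    rw [← mtp_real hP (T.cls k) (T.one_mem k) (T.cls_smul k) (T.meas k)
      (fun ω => ψ ω * a k ω) (hψm.mul (ham k)) 1 (fun ω => by
        rw [abs_mul]; exact mul_le_one₀ (hψb ω) (abs_nonneg _) (hab k ω))]
    refine integral_congr_ae (Eventually.of_forall fun ω => ?_)
    simp only
    have : ∑ γ ∈ T.cls k ω, ψ (γ • ω) * a k (γ • ω) = (∑ γ ∈ T.cls k ω, ψ (γ • ω)) * a k ω := by
      rw [Finset.sum_mul]
      exact Finset.sum_congr rfl fun γ hγ => by rw [hinv k ω γ hγ]
    rw [this, mul_div_right_comm, pow_two]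
  have key : ∀ ε1 : ℝ, 0 < ε1 → ∃ G : Finset Γ, ∀ k,
      ∫ ω, (a k ω) ^ 2 ∂P ≤ ε1 + 2 * P.real {ω | ¬ G ⊆ T.cls k ω} := by
    intro ε1 hε1
    obtain ⟨G, hG, hG1⟩ := hmix A hA ε1 hε1
    refine ⟨G, fun k => ?_⟩
    have hGc : (0 : ℝ) < G.card := by exact_mod_cast Finset.card_pos.2 hG
    have hms : MeasurableSet {ω | ¬ G ⊆ T.cls k ω} :=
      measSet_discrete (T.cls k) (T.meas k) (fun A => ¬ G ⊆ A)
    rw [hsq k]
    have e1 : ∫ ω, ψ ω * a k ω ∂P
        = ∫ ω, (∑ γ ∈ G, ψ (γ • ω) * a k (γ • ω)) / G.card ∂P := by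
      rw [integral_div, integral_finsetSum]
      · have : ∀ γ ∈ G, ∫ ω, ψ (γ • ω) * a k (γ • ω) ∂P = ∫ ω, ψ ω * a k ω ∂P := by
          intro γ _
          exact mp_integral (hP γ) (hψm.mul (ham k))
        rw [Finset.sum_congr rfl this, Finset.sum_const, nsmul_eq_mul]
        field_simp
      · intro γ _
        refine integrable_bdd ((hψm.mul (ham k)).comp (hP γ).measurable) 1 fun ω => ?_
        show |ψ (γ • ω) * a k (γ • ω)| ≤ 1
        rw [abs_mul]; exact mul_le_one₀ (hψb _) (abs_nonneg _) (hab k _)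
    rw [e1]
    have hs : ∀ ω, |(∑ γ ∈ G, ψ (γ • ω)) / (G.card : ℝ)| ≤ 1 := by
      intro ω
      rw [abs_div, abs_of_pos hGc, div_le_iff₀ hGc]
      refine (Finset.abs_sum_le_sum_abs _ _).trans ?_
      refine (Finset.sum_le_sum fun γ _ => hψb (γ • ω)).trans ?_
      rw [Finset.sum_const, nsmul_eq_mul, mul_comm]
    have hsm : Measurable (fun ω => (∑ γ ∈ G, ψ (γ • ω)) / (G.card : ℝ)) :=
      Measurable.div_const (Finset.measurable_fun_sum _ fun γ _ =>
        hψm.comp (hP γ).measurable) _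
    calc ∫ ω, (∑ γ ∈ G, ψ (γ • ω) * a k (γ • ω)) / G.card ∂P
        ≤ ∫ ω, (|(∑ γ ∈ G, ψ (γ • ω)) / (G.card : ℝ)|
            + 2 * {ω | ¬ G ⊆ T.cls k ω}.indicator (fun _ => (1 : ℝ)) ω) ∂P := by
          refine integral_mono ?_ ?_ fun ω => ?_
          · refine integrable_bdd (Measurable.div_const (Finset.measurable_fun_sum _ fun γ _ =>
              (hψm.mul (ham k)).comp (hP γ).measurable) _) 1 fun ω => ?_
            rw [abs_div, abs_of_pos hGc, div_le_iff₀ hGc]
            refine (Finset.abs_sum_le_sum_abs _ _).trans ?_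
            refine (Finset.sum_le_sum fun γ _ => ?_).trans (b := ∑ γ ∈ G, (1 : ℝ)) ?_
            · show |ψ (γ • ω) * a k (γ • ω)| ≤ 1
              rw [abs_mul]; exact mul_le_one₀ (hψb _) (abs_nonneg _) (hab k _)
            · simp
          · exact (integrable_bdd (continuous_abs.measurable.comp hsm) 1
              (fun ω => by show |_| ≤ _; exact (abs_abs _).le.trans (hs ω))).add
              (((integrable_const 1).indicator hms).const_mul 2)
          · simp only
            by_cases h : G ⊆ T.cls k ω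
            · rw [indicator_of_notMem (by simpa using h)]
              have : ∑ γ ∈ G, ψ (γ • ω) * a k (γ • ω) = (∑ γ ∈ G, ψ (γ • ω)) * a k ω := by
                rw [Finset.sum_mul]
                exact Finset.sum_congr rfl fun γ hγ => by rw [hinv k ω γ (h hγ)]
              rw [this, mul_div_right_comm, mul_zero, add_zero]
              refine (le_abs_self _).trans ?_
              rw [abs_mul]
              exact mul_le_of_le_one_right (abs_nonneg _) (hab k ω)
            · rw [indicator_of_mem (by simpa using h)]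
              have h1 : (∑ γ ∈ G, ψ (γ • ω) * a k (γ • ω)) / (G.card : ℝ) ≤ 1 := by
                rw [div_le_one hGc]
                calc ∑ γ ∈ G, ψ (γ • ω) * a k (γ • ω) ≤ ∑ γ ∈ G, (1 : ℝ) := by
                      refine Finset.sum_le_sum fun γ _ => ?_
                      refine (le_abs_self _).trans ?_
                      rw [abs_mul]; exact mul_le_one₀ (hψb _) (abs_nonneg _) (hab k _)
                  _ = G.card := by simp
              have h2 := abs_nonneg ((∑ γ ∈ G, ψ (γ • ω)) / (G.card : ℝ))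
              linarith
      _ = ∫ ω, |(∑ γ ∈ G, ψ (γ • ω)) / (G.card : ℝ)| ∂P
            + 2 * P.real {ω | ¬ G ⊆ T.cls k ω} := by
          rw [integral_add, integral_const_mul, integral_indicator_const _ hms]
          · simp
          · exact integrable_bdd (continuous_abs.measurable.comp hsm) 1
              (fun ω => by show |_| ≤ _; exact (abs_abs _).le.trans (hs ω))
          · exact ((integrable_const 1).indicator hms).const_mul 2
      _ ≤ ε1 + 2 * P.real {ω | ¬ G ⊆ T.cls k ω} := by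
          gcongr
          refine le_of_eq_of_le ?_ hG1
          refine integral_congr_ae (Eventually.of_forall fun ω => ?_)
          simp only [hψ]
          congr 1
          rw [Finset.sum_sub_distrib, sub_div, Finset.sum_const, nsmul_eq_mul]
          congr 1
          field_simp
  have hlim : Tendsto (fun k => ∫ ω, (a k ω) ^ 2 ∂P) atTop (𝓝 0) := by
    rw [Metric.tendsto_atTop]
    intro ε2 hε2
    obtain ⟨G, hG⟩ := key (ε2 / 2) (by positivity)
    have h1 : Tendsto (fun k => 2 * P.real {ω | ¬ G ⊆ T.cls k ω}) atTop (𝓝 0) := by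
      have := (ENNReal.tendsto_toReal ENNReal.zero_ne_top).comp (T.exh G)
      have := this.const_mul 2
      simpa [Function.comp_def, Measure.real] using this
    have h2 := (tendsto_order.1 h1).2 (ε2 / 2) (by positivity)
    obtain ⟨N, hN⟩ := eventually_atTop.1 h2
    refine ⟨N, fun k hk => ?_⟩
    have h3 := hN k hk
    have h4 := hG k
    have h5 : 0 ≤ ∫ ω, (a k ω) ^ 2 ∂P := integral_nonneg fun ω => sq_nonneg _
    rw [Real.dist_eq, sub_zero, abs_of_nonneg h5]
    linarith
  have hdiv : Tendsto (fun k => (∫ ω, (a k ω) ^ 2 ∂P) / ε ^ 2) atTop (𝓝 0) := by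
    have := hlim.div_const (ε ^ 2)
    simpa using this
  refine squeeze_zero (fun k => measureReal_nonneg) (fun k => ?_) hdiv
  rw [le_div_iff₀ (by positivity), mul_comm]
  have hmark := mul_meas_ge_le_integral_of_nonneg (μ := P) (f := fun ω => (a k ω) ^ 2)
    (Eventually.of_forall fun ω => sq_nonneg _)
    (integrable_bdd ((ham k).pow_const 2) 1 (fun ω => by
      rw [abs_pow]; exact pow_le_one₀ (abs_nonneg _) (hab k ω))) (ε ^ 2)
  have hset : {ω | ε ≤ |a k ω|} = {ω | ε ^ 2 ≤ (a k ω) ^ 2} := by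
    ext ω
    simp only [mem_ofPred_eq]
    rw [← sq_abs (a k ω)]
    exact (sq_le_sq₀ hε.le (abs_nonneg _)).symm
  rw [hset]
  exact hmark

end Tower

end Fiid
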