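import Pool.Agent.helper31.ZFInst

/-!
# Basic set theory in a model of ZF
-/

namespace Pool.Agent.helper31.ZF

universe u

variable {M : Type u} [ZFModel M]

theorem ext {x y : M} (h : ∀ z, z ∈ x ↔ z ∈ y) : x = y := ZFModel.isZF.ext x y h

theorem exists_emp : ∃ e : M, ∀ z, z ∉ e := by
  obtain ⟨w, ⟨e, _, he⟩, _⟩ := ZFModel.isZF (M := M).infinity
  exact ⟨e, he⟩

theorem the_spec {P : M → Prop} (h : ∃! x, P x) : P (the P) := by
  unfold the
  rw [dif_pos h]
  exact h.choose_spec.1

theorem the_eq {P : M → Prop} {x : M} (hx : P x) (h : ∀ y, P y → y = x) : the P = x :=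
  h _ (the_spec ⟨x, hx, h⟩)

theorem eq_the_iff {P : M → Prop} {z : M} :
    z = the P ↔ ((∃! x, P x) ∧ P z) ∨
      (¬ (∃! x, P x) ∧ z = Classical.choice nonempty_model) := by
  constructor
  · rintro rfl
    by_cases h : ∃! x, P x
    · exact Or.inl ⟨h, the_spec h⟩
    · refine Or.inr ⟨h, ?_⟩
      unfold the
      rw [dif_neg h]
  · rintro (⟨h, hz⟩ | ⟨h, rfl⟩)
    · exact h.unique hz (the_spec h)
    · unfold the
      rw [dif_neg h]

instance instFpThe {n : ℕ} {P : (Fin n → M) → M → Prop}
    [h : Dp (fun w : Fin (n + 1) → M => P (fun i => w i.castSucc) (w (Fin.last n)))] :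
    Fp (fun v => the (P v)) := by
  have h2 : Dp (fun w : Fin (n + 1) → M => ∃! x, P (fun i => w i.castSucc) x) := by
    have := (D.reindex (D.exu h.out) (fun i : Fin n => i.castSucc))
    exact ⟨this⟩
  exact Fp.of_graph (Q := fun z v => ((∃! x, P v x) ∧ P v z) ∨ (¬ (∃! x, P v x) ∧
    z = Classical.choice nonempty_model))
    inferInstance (fun z v => eq_the_iff)

instance instFpThe' {n : ℕ} {P : (Fin n → M) → M → Prop}
    [h : Dp (fun w : Fin (n + 1) → M => P (fun i => w i.castSucc) (w (Fin.last n)))] :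
    Fp (fun v => the (fun x => P v x)) := instFpThe

instance instFpIte {n : ℕ} {P : (Fin n → M) → Prop} {dec : ∀ v, Decidable (P v)}
    {F G : (Fin n → M) → M} [hP : Dp P]
    [hF : Fp F] [hG : Fp G] : Fp (fun v => @ite _ (P v) (dec v) (F v) (G v)) := by
  have h1 : Dp (fun w : Fin (n + 1) → M => P (fun i => w i.castSucc)) :=
    ⟨D.reindex hP.out (fun i : Fin n => i.castSucc)⟩
  have h2 : Fp (fun w : Fin (n + 1) → M => F (fun i => w i.castSucc)) := ⟨hF.out.weaken⟩
  have h3 : Fp (fun w : Fin (n + 1) → M => G (fun i => w i.castSucc)) := ⟨hG.out.weaken⟩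
  refine Fp.of_graph (Q := fun z v => (P v ∧ z = F v) ∨ (¬ P v ∧ z = G v))
    inferInstance (fun z v => ?_)
  by_cases h : P v <;> simp [h]

theorem the_mem {Q : M → Prop} (h : ∃ p : M, ∀ z, z ∈ p ↔ Q z) (z : M) :
    z ∈ (the fun p : M => ∀ z, z ∈ p ↔ Q z) ↔ Q z := by
  obtain ⟨p, hp⟩ := h
  have : ∃! p : M, ∀ z, z ∈ p ↔ Q z := ⟨p, hp, fun q hq => ext fun z => (hq z).trans (hp z).symm⟩
  exact the_spec this z

@[simp] theorem not_mem_emp (z : M) : z ∉ (emp : M) := by
  obtain ⟨e, he⟩ := exists_emp (M := M)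
  exact the_spec (P := fun e : M => ∀ z, z ∉ e) ⟨e, he, fun y hy => ext fun z =>
    ⟨fun h => absurd h (hy z), fun h => absurd h (he z)⟩⟩ z

/-! ### subset -/

theorem sub_def {x y : M} : x ⊆ y ↔ ∀ z, z ∈ x → z ∈ y := Iff.rfl

instance instDpSub {n : ℕ} {F G : (Fin n → M) → M} [h : Fp F] [h' : Fp G] :
    Dp (fun v => F v ⊆ G v) :=
  Dp.subst2 (R := fun x y : M => ∀ z, z ∈ x → z ∈ y) inferInstance F G

theorem Sub.refl (x : M) : x ⊆ x := fun _ h => h

theorem Sub.trans {x y z : M} (h : x ⊆ y) (h' : y ⊆ z) : x ⊆ z := fun t ht => h' t (h t ht)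

theorem Sub.antisymm {x y : M} (h : x ⊆ y) (h' : y ⊆ x) : x = y :=
  ext fun z => ⟨h z, h' z⟩

theorem emp_sub (x : M) : emp ⊆ x := fun z hz => absurd hz (not_mem_emp z)

/-! ### pairs, union, power set -/

/-- Union. -/
noncomputable def sUn (x : M) : M := the fun u => ∀ z, z ∈ u ↔ ∃ y, y ∈ x ∧ z ∈ y

/-- Power set. -/
noncomputable def pw (x : M) : M := the fun u => ∀ z, z ∈ u ↔ z ⊆ x

@[simp] theorem mem_pr {x y z : M} : z ∈ pr x y ↔ (z = x ∨ z = y) :=
  the_mem (ZFModel.isZF.pairing x y) z

@[simp] theorem mem_sUn {x z : M} : z ∈ sUn x ↔ ∃ y, y ∈ x ∧ z ∈ y :=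
  the_mem (ZFModel.isZF.union x) z

@[simp] theorem mem_pw {x z : M} : z ∈ pw x ↔ z ⊆ x :=
  the_mem (ZFModel.isZF.power x) z

instance instFpPr {n : ℕ} {F G : (Fin n → M) → M} [Fp F] [Fp G] :
    Fp (fun v => pr (F v) (G v)) := Fp.op2 (by unfold pr; infer_instance) F G

instance instFpSUn {n : ℕ} {F : (Fin n → M) → M} [Fp F] :
    Fp (fun v => sUn (F v)) := Fp.op1 (by unfold sUn; infer_instance) F

instance instFpPw {n : ℕ} {F : (Fin n → M) → M} [Fp F] :
    Fp (fun v => pw (F v)) := Fp.op1 (by unfold pw; infer_instance) F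

/-- Singleton. -/
noncomputable def sg (x : M) : M := pr x x

/-- Binary union. -/
noncomputable def un (x y : M) : M := sUn (pr x y)

/-- Insertion of an element. -/
noncomputable def ins (x s : M) : M := un s (sg x)

theorem op_eq (x y : M) : op x y = pr (sg x) (pr x y) := rfl

@[simp] theorem mem_sg {x z : M} : z ∈ sg x ↔ z = x := by simp [sg]

@[simp] theorem mem_un {x y z : M} : z ∈ un x y ↔ z ∈ x ∨ z ∈ y := by
  simp [un]

@[simp] theorem mem_ins {x s z : M} : z ∈ ins x s ↔ z = x ∨ z ∈ s := by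
  simp [ins, or_comm]

instance instFpSg {n : ℕ} {F : (Fin n → M) → M} [Fp F] :
    Fp (fun v => sg (F v)) := by unfold sg; infer_instance

instance instFpUn {n : ℕ} {F G : (Fin n → M) → M} [Fp F] [Fp G] :
    Fp (fun v => un (F v) (G v)) := by unfold un; infer_instance

instance instFpIns {n : ℕ} {F G : (Fin n → M) → M} [Fp F] [Fp G] :
    Fp (fun v => ins (F v) (G v)) := by unfold ins; infer_instance

instance instFpOp {n : ℕ} {F G : (Fin n → M) → M} [Fp F] [Fp G] :
    Fp (fun v => op (F v) (G v)) := by unfold op; infer_instance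

theorem sg_inj {x y : M} (h : sg x = sg y) : x = y := by
  have : x ∈ sg y := by rw [← h]; simp
  simpa using this

@[simp] theorem op_inj {a b c d : M} : op a b = op c d ↔ a = c ∧ b = d := by
  constructor
  · intro h
    have h1 : sg a = sg c ∨ sg a = pr c d := by
      have : sg a ∈ op c d := by rw [← h]; simp [op_eq]
      simpa [op_eq] using this
    have h2 : pr a b = sg c ∨ pr a b = pr c d := by
      have : pr a b ∈ op c d := by rw [← h]; simp [op_eq]
      simpa [op_eq] using this
    have h3 : sg c = sg a ∨ sg c = pr a b := by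
      have : sg c ∈ op a b := by rw [h]; simp [op_eq]
      simpa [op_eq] using this
    have h4 : pr c d = sg a ∨ pr c d = pr a b := by
      have : pr c d ∈ op a b := by rw [h]; simp [op_eq]
      simpa [op_eq] using this
    have hac : a = c := by
      rcases h1 with h1 | h1
      · exact sg_inj h1
      · have : c ∈ sg a := by rw [h1]; simp
        simpa using (mem_sg.1 this).symm
    subst hac
    refine ⟨rfl, ?_⟩
    by_cases hb : b = a
    · subst hb
      have : pr b d = sg b := by
        rcases h4 with h4 | h4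
        · exact h4
        · exact h4
      have : d ∈ sg b := by rw [← this]; simp
      exact (mem_sg.1 this).symm
    · have : pr a b = pr a d := by
        rcases h2 with h2 | h2
        · exfalso
          have : b ∈ sg a := by rw [← h2]; simp
          exact hb (mem_sg.1 this)
        · exact h2
      have : b ∈ pr a d := by rw [← this]; simp
      rcases mem_pr.1 this with h5 | h5
      · exact absurd h5 hb
      · exact h5
  · rintro ⟨rfl, rfl⟩
    rfl

/-! ### separation and replacement -/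

/-- Separation. -/
noncomputable def sep (A : M) (P : M → Prop) : M := the fun b => ∀ x, x ∈ b ↔ (x ∈ A ∧ P x)

omit [ZFModel M] in
theorem app_one {m : ℕ} (p : Fin m → M) (v : Fin 1 → M) : app p v = push p (v 0) := by
  funext i
  unfold app push
  by_cases h : i.val < m
  · simp [h]
  · simp only [h, dite_false]
    congr 1
    omega

omit [ZFModel M] in
theorem app_two {m : ℕ} (p : Fin m → M) (v : Fin 2 → M) :
    app p v = push (push p (v 0)) (v 1) := by
  funext i
  unfold app push
  by_cases h : i.val < m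
  · simp [h, show i.val < m + 1 by omega]
  · by_cases h2 : i.val < m + 1
    · simp only [h, h2, dite_false, dite_true]
      congr 1
      exact Fin.ext (by simp; omega)
    · simp only [h, h2, dite_false]
      congr 1
      exact Fin.ext (by simp; omega)

theorem mem_sep {A : M} {P : M → Prop} {x : M} [h : D1 P] : x ∈ sep A P ↔ x ∈ A ∧ P x := by
  refine the_mem ?_ x
  obtain ⟨m, φ, p, hp⟩ := h.out
  obtain ⟨b, hb⟩ := ZFModel.isZF.separation m φ p A
  refine ⟨b, fun x => (hb x).trans ?_⟩
  have := hp (fun _ => x)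
  rw [app_one] at this
  exact and_congr Iff.rfl this.symm

theorem exists_coll {A : M} {F : M → M} [h : F1 F] :
    ∃ b : M, ∀ y, y ∈ b ↔ ∃ x, x ∈ A ∧ y = F x := by
  obtain ⟨m, φ, p, hp⟩ := (h.out : D _)
  have key : ∀ x y, Sat ZFModel.E φ (push (push p x) y) ↔ y = F x := by
    intro x y
    have := hp ![x, y]
    rw [app_two] at this
    simpa [Fin.last] using this.symm
  obtain ⟨b, hb⟩ := ZFModel.isZF.replacement m φ p A (fun x _ => ⟨F x, (key x _).2 rfl,
    fun y hy => (key x y).1 hy⟩)
  refine ⟨b, fun y => (hb y).trans ?_⟩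
  simp only [key]
  rfl

/-- Image of a set under a class function. -/
noncomputable def img (A : M) (F : M → M) : M :=
  the fun b => ∀ y, y ∈ b ↔ ∃ x, x ∈ A ∧ y = F x

theorem mem_img {A : M} {F : M → M} {y : M} [h : F1 F] :
    y ∈ img A F ↔ ∃ x, x ∈ A ∧ y = F x := the_mem exists_coll y

/-- Weakening of definable functions. -/
theorem Fp.weaken {n : ℕ} {F : (Fin n → M) → M} (h : Fp F) :
    Fp (fun w : Fin (n + 1) → M => F (fun i => w i.castSucc)) := ⟨h.out.weaken⟩

theorem Dp.reindex {k n : ℕ} {P : (Fin k → M) → Prop} (h : Dp P) (ρ : Fin k → Fin n) :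
    Dp (fun v : Fin n → M => P (fun i => v (ρ i))) := ⟨h.out.reindex ρ⟩

instance instFpSep {n : ℕ} {A : (Fin n → M) → M} {P : (Fin n → M) → M → Prop} [hA : Fp A]
    [h : Dp (fun w : Fin (n + 1) → M => P (fun i => w i.castSucc) (w (Fin.last n)))] :
    Fp (fun v => sep (A v) (fun x => P v x)) := by
  unfold sep
  have h1 : Fp (fun w : Fin (n + 1 + 1) → M => A (fun i => w i.castSucc.castSucc)) :=
    hA.weaken.weaken
  have h2 : Dp (fun w : Fin (n + 1 + 1) → M =>
      P (fun i => w i.castSucc.castSucc) (w (Fin.last (n + 1)))) := by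
    have := h.reindex (push (fun i : Fin n => i.castSucc.castSucc) (Fin.last (n + 1)))
    refine this.congr fun v => ?_
    simp
  exact instFpThe (h := instDpAll (h := instDpIff (h := instDpMem) (h' :=
    instDpAnd (h := instDpMem (h' := h1)) (h' := h2))))

instance instFpImg {n : ℕ} {A : (Fin n → M) → M} {F : (Fin n → M) → M → M} [hA : Fp A]
    [h : Fp (fun w : Fin (n + 1) → M => F (fun i => w i.castSucc) (w (Fin.last n)))] :
    Fp (fun v => img (A v) (fun x => F v x)) := by
  unfold img
  have h1 : Fp (fun w : Fin (n + 1 + 1 + 1) → M =>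
      A (fun i => w i.castSucc.castSucc.castSucc)) := hA.weaken.weaken.weaken
  have h2 : Dp (fun w : Fin (n + 1 + 1 + 1) → M => w ((Fin.last (n + 1)).castSucc) =
      F (fun i => w i.castSucc.castSucc.castSucc) (w (Fin.last (n + 2)))) := by
    have h3 : Dp (fun w : Fin (n + 1 + 1) → M => w (Fin.last (n + 1)) =
      F (fun i => w i.castSucc.castSucc) (w ((Fin.last n).castSucc))) := ⟨h.out⟩
    have := h3.reindex (push (push (fun i : Fin n => i.castSucc.castSucc.castSucc)
      (Fin.last (n + 2))) ((Fin.last (n + 1)).castSucc))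
    refine this.congr fun v => ?_
    simp
  exact instFpThe (h := instDpAll (h := instDpIff (h := instDpMem) (h' :=
    instDpEx (h := instDpAnd (h := instDpMem (h' := h1)) (h' := h2)))))

end Pool.Agent.helper31.ZF
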