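import Pool.Agent.helper31.ZFCount

/-!
# Building functions step by step
-/

namespace Pool.Agent.helper31.ZF

universe u

variable {M : Type u} [ZFModel M]

/-- The domain of a relation. -/
noncomputable def dm (f : M) : M := sep (sUn (sUn f)) fun x => ∃ y, op x y ∈ f

theorem mem_dm {f x : M} : x ∈ dm f ↔ ∃ y, op x y ∈ f := by
  unfold dm
  rw [mem_sep]
  exact ⟨fun h => h.2, fun ⟨y, h⟩ => ⟨(op_mem_sUn h).1, y, h⟩⟩

instance instFpDm {n : ℕ} {F : (Fin n → M) → M} [Fp F] :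
    Fp (fun v => dm (F v)) := Fp.op1 (by unfold dm; infer_instance) F

/-- The image of a set under a relation. -/
noncomputable def rim (f s : M) : M := sep (sUn (sUn f)) fun y => ∃ x, x ∈ s ∧ op x y ∈ f

theorem mem_rim {f s y : M} : y ∈ rim f s ↔ ∃ x, x ∈ s ∧ op x y ∈ f := by
  unfold rim
  rw [mem_sep]
  exact ⟨fun h => h.2, fun ⟨x, h, h'⟩ => ⟨(op_mem_sUn h').2, x, h, h'⟩⟩

instance instFpRim {n : ℕ} {F G : (Fin n → M) → M} [Fp F] [Fp G] :
    Fp (fun v => rim (F v) (G v)) := Fp.op2 (by unfold rim; infer_instance) F G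

/-- Finite partial injections `f` of `B` such that the image of `s` is in the family if and only
if `Q s`. -/
def Good (Q : M → Prop) (f : M) : Prop :=
  Kfin f ∧ f ⊆ prod Bs Bs ∧ (∀ x y y', op x y ∈ f → op x y' ∈ f → y = y') ∧
    (∀ x x' y, op x y ∈ f → op x' y ∈ f → x = x') ∧ ∀ s, s ⊆ dm f → (Pf (rim f s) ↔ Q s)

theorem instDpGood {Q : M → Prop} (hQ : D1 Q) {n : ℕ} {F : (Fin n → M) → M} [Fp F] :
    Dp (fun v => Good Q (F v)) := by
  have iQ : ∀ {n : ℕ} (F : (Fin n → M) → M) [Fp F], Dp (fun v => Q (F v)) :=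
    fun F => Dp.subst1 hQ F
  exact Dp.subst1 (by unfold Good; infer_instance) F

theorem op_mem_Bs {f x y : M} (h : f ⊆ prod Bs Bs) (hxy : op x y ∈ f) :
    x ∈ (Bs : M) ∧ y ∈ (Bs : M) := by
  obtain ⟨a, ha, b, hb, e⟩ := mem_prod.1 (h _ hxy)
  obtain ⟨rfl, rfl⟩ := op_inj.1 e
  exact ⟨ha, hb⟩

theorem kfin_dm {f : M} (hf : Kfin f) : Kfin (dm f) := by
  have h2 : dm f ⊆ img f (fun z => the fun x => ∃ y, z = op x y) := by
    intro x hx
    obtain ⟨y, hy⟩ := mem_dm.1 hx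
    refine mem_img.2 ⟨_, hy, ?_⟩
    symm
    apply the_eq
    · exact ⟨y, rfl⟩
    · rintro x' ⟨y', h⟩
      exact (op_inj.1 h).1.symm
  exact kfin_sub (kfin_img hf) h2

theorem kfin_inv {f : M} (hf : Kfin f) : Kfin (inv f) := by
  have h2 : inv f ⊆ img f (fun z => the fun w => ∃ x, ∃ y, z = op x y ∧ w = op y x) := by
    intro z hz
    obtain ⟨x, y, h, rfl⟩ := mem_inv.1 hz
    refine mem_img.2 ⟨_, h, ?_⟩
    symm
    apply the_eq
    · exact ⟨x, y, rfl, rfl⟩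
    · rintro x' ⟨x1, y1, h, rfl⟩
      obtain ⟨rfl, rfl⟩ := op_inj.1 h
      rfl
  exact kfin_sub (kfin_img hf) h2

theorem kfin_rim {f s : M} (hf : Kfin f) : Kfin (rim f s) := by
  refine kfin_sub (kfin_dm (kfin_inv hf)) ?_
  intro y hy
  obtain ⟨x, _, h⟩ := mem_rim.1 hy
  exact mem_dm.2 ⟨x, op_mem_inv.2 h⟩

/-- One extension step. -/
theorem Good.forth {Q : M → Prop} [hQ : D1 Q] {f b : M} (hf : Good Q f) (hb : b ∈ (Bs : M))
    (hbf : b ∉ dm f) : ∃ y, y ∈ (om : M) ∧ Good Q (ins (op b y) f) := by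
  have iQ : ∀ {n : ℕ} (F : (Fin n → M) → M) [Fp F], Dp (fun v => Q (F v)) :=
    fun F => Dp.subst1 hQ F
  obtain ⟨h1, h2, h3, h4, h5⟩ := hf
  have hX : Kfin (rim f (dm f)) := kfin_rim h1
  have hXo : rim f (dm f) ⊆ om := by
    intro y hy
    obtain ⟨x, _, h⟩ := mem_rim.1 hy
    exact Bs_sub _ (op_mem_Bs h2 h).2
  obtain ⟨y, hy, hyX, hP⟩ := Pf_ext (S := img (sep (pw (dm f)) fun s => Q (ins b s))
    (fun s => rim f s)) hX hXo (by
    intro z hz
    obtain ⟨s, hs, rfl⟩ := mem_img.1 hz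
    rw [mem_sep, mem_pw] at hs
    rw [mem_pw]
    intro y hy
    obtain ⟨x, hx, h⟩ := mem_rim.1 hy
    exact mem_rim.2 ⟨x, hs.1 x hx, h⟩)
  have hyr : ∀ x, op x y ∉ f := fun x hx => hyX (mem_rim.2 ⟨x, mem_dm.2 ⟨y, hx⟩, hx⟩)
  have hbr : ∀ z, op b z ∉ f := fun z hz => hbf (mem_dm.2 ⟨z, hz⟩)
  -- injectivity of the image map
  have hrinj : ∀ s s', s ⊆ dm f → rim f s ⊆ rim f s' → s ⊆ s' := by
    intro s s' hs h z hz
    obtain ⟨w, hw⟩ := mem_dm.1 (hs z hz)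
    obtain ⟨x, hx, hxw⟩ := mem_rim.1 (h w (mem_rim.2 ⟨z, hz, hw⟩))
    rw [h4 z x w hw hxw]
    exact hx
  refine ⟨y, Bs_sub y hy, kfin_ins h1 _, ?_, ?_, ?_, ?_⟩
  · intro z hz
    rcases mem_ins.1 hz with rfl | hz
    · exact mem_prod.2 ⟨b, hb, y, hy, rfl⟩
    · exact h2 z hz
  · intro x z z' hz hz'
    rcases mem_ins.1 hz with h | h
    · obtain ⟨rfl, rfl⟩ := op_inj.1 h
      rcases mem_ins.1 hz' with h' | h'
      · exact (op_inj.1 h').2.symm
      · exact absurd h' (hbr _)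
    · rcases mem_ins.1 hz' with h' | h'
      · obtain ⟨rfl, rfl⟩ := op_inj.1 h'
        exact absurd h (hbr _)
      · exact h3 x z z' h h'
  · intro x x' z hz hz'
    rcases mem_ins.1 hz with h | h
    · obtain ⟨rfl, rfl⟩ := op_inj.1 h
      rcases mem_ins.1 hz' with h' | h'
      · exact (op_inj.1 h').1.symm
      · exact absurd h' (hyr _)
    · rcases mem_ins.1 hz' with h' | h'
      · obtain ⟨rfl, rfl⟩ := op_inj.1 h'
        exact absurd h (hyr _)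
      · exact h4 x x' z h h'
  · intro s hs
    by_cases hbs : b ∈ s
    · have hs0 : df s (sg b) ⊆ dm f := by
        intro z hz
        rw [mem_df, mem_sg] at hz
        obtain ⟨w, hw⟩ := mem_dm.1 (hs z hz.1)
        rcases mem_ins.1 hw with h | h
        · exact absurd (op_inj.1 h).1 hz.2
        · exact mem_dm.2 ⟨w, h⟩
      have e1 : rim (ins (op b y) f) s = ins y (rim f (df s (sg b))) := by
        apply ext
        intro z
        rw [mem_rim, mem_ins, mem_rim]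
        constructor
        · rintro ⟨x, hx, hxz⟩
          rcases mem_ins.1 hxz with h | h
          · exact Or.inl (op_inj.1 h).2
          · refine Or.inr ⟨x, ?_, h⟩
            rw [mem_df, mem_sg]
            refine ⟨hx, ?_⟩
            rintro rfl
            exact hbr z h
        · rintro (h | ⟨x, hx, h⟩)
          · exact ⟨b, hbs, by rw [h]; simp⟩
          · exact ⟨x, (mem_df.1 hx).1, by simp [h]⟩
      rw [e1, hP]
      · rw [mem_img]
        constructor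
        · rintro ⟨s', hs', he⟩
          rw [mem_sep, mem_pw] at hs'
          have : df s (sg b) = s' := Sub.antisymm
            (hrinj _ _ hs0 (he ▸ Sub.refl _)) (hrinj _ _ hs'.1 (he ▸ Sub.refl _))
          rw [← ins_df hbs, this]
          exact hs'.2
        · intro h
          refine ⟨df s (sg b), ?_, rfl⟩
          rw [mem_sep, mem_pw, ins_df hbs]
          exact ⟨hs0, h⟩
      · intro z hz
        obtain ⟨x, hx, h⟩ := mem_rim.1 hz
        exact mem_rim.2 ⟨x, hs0 x hx, h⟩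
    · have hs0 : s ⊆ dm f := by
        intro z hz
        obtain ⟨w, hw⟩ := mem_dm.1 (hs z hz)
        rcases mem_ins.1 hw with h | h
        · exact absurd ((op_inj.1 h).1 ▸ hz) hbs
        · exact mem_dm.2 ⟨w, h⟩
      have e1 : rim (ins (op b y) f) s = rim f s := by
        apply ext
        intro z
        rw [mem_rim, mem_rim]
        constructor
        · rintro ⟨x, hx, hxz⟩
          rcases mem_ins.1 hxz with h | h
          · exact absurd ((op_inj.1 h).1 ▸ hx) hbs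
          · exact ⟨x, hx, h⟩
        · rintro ⟨x, hx, h⟩
          exact ⟨x, hx, by simp [h]⟩
      rw [e1]
      exact h5 s hs0

open Classical in
/-- The forward step. -/
noncomputable def stF (Q : M → Prop) (n f : M) : M :=
  if n ∈ (Bs : M) ∧ n ∉ dm f then ins (op n (least fun y => Good Q (ins (op n y) f))) f else f

theorem instFpStF {Q : M → Prop} (hQ : D1 Q) {n : ℕ} {F G : (Fin n → M) → M} [Fp F] [Fp G] :
    Fp (fun v => stF Q (F v) (G v)) := by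
  have iGood : ∀ {n : ℕ} {F : (Fin n → M) → M} [Fp F], Dp (fun v => Good Q (F v)) :=
    instDpGood hQ
  exact Fp.op2 (by unfold stF; infer_instance) F G

theorem stF_spec {Q : M → Prop} [hQ : D1 Q] {n f : M} (hf : Good Q f) :
    Good Q (stF Q n f) ∧ f ⊆ stF Q n f ∧ (n ∈ (Bs : M) → n ∈ dm (stF Q n f)) := by
  have iGood : ∀ {n : ℕ} {F : (Fin n → M) → M} [Fp F], Dp (fun v => Good Q (F v)) :=
    instDpGood hQ
  unfold stF
  split_ifs with h
  · obtain ⟨⟨_, h2⟩, _⟩ := least_spec (P := fun y => Good Q (ins (op n y) f))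
      (hf.forth h.1 h.2)
    refine ⟨h2, fun z hz => mem_ins.2 (Or.inr hz), fun _ => mem_dm.2 ⟨_, mem_ins.2 (Or.inl rfl)⟩⟩
  · refine ⟨hf, Sub.refl f, fun hn => ?_⟩
    by_contra h'
    exact h ⟨hn, h'⟩

theorem dm_mono {f g : M} (h : f ⊆ g) : dm f ⊆ dm g := by
  intro x hx
  obtain ⟨y, hy⟩ := mem_dm.1 hx
  exact mem_dm.2 ⟨y, h _ hy⟩

theorem inv_mono {f g : M} (h : f ⊆ g) : inv f ⊆ inv g := by
  intro z hz
  obtain ⟨x, y, hxy, rfl⟩ := mem_inv.1 hz
  exact mem_inv.2 ⟨x, y, h _ hxy, rfl⟩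

theorem inv_inv {Q : M → Prop} {f : M} (hf : Good Q f) : inv (inv f) = f := by
  apply ext
  intro z
  constructor
  · intro hz
    obtain ⟨x, y, hxy, rfl⟩ := mem_inv.1 hz
    exact op_mem_inv.1 hxy
  · intro hz
    obtain ⟨a, _, b, _, rfl⟩ := mem_prod.1 (hf.2.1 z hz)
    exact op_mem_inv.2 (op_mem_inv.2 hz)

theorem Good.inv {f : M} (hf : Good Pf f) : Good Pf (inv f) := by
  obtain ⟨h1, h2, h3, h4, h5⟩ := hf
  refine ⟨kfin_inv h1, ?_, ?_, ?_, ?_⟩
  · intro z hz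
    obtain ⟨x, y, hxy, rfl⟩ := mem_inv.1 hz
    obtain ⟨hx, hy⟩ := op_mem_Bs h2 hxy
    exact mem_prod.2 ⟨y, hy, x, hx, rfl⟩
  · intro x y y' h h'
    exact h4 _ _ _ (op_mem_inv.1 h) (op_mem_inv.1 h')
  · intro x x' y h h'
    exact h3 _ _ _ (op_mem_inv.1 h) (op_mem_inv.1 h')
  · intro s hs
    have e : rim f (rim (ZF.inv f) s) = s := by
      apply ext
      intro z
      rw [mem_rim]
      constructor
      · rintro ⟨x, hx, hxz⟩
        obtain ⟨w, hw, hwx⟩ := mem_rim.1 hx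
        rw [h3 x z w hxz (op_mem_inv.1 hwx)]
        exact hw
      · intro hz
        obtain ⟨y, hy⟩ := mem_dm.1 (hs z hz)
        exact ⟨y, mem_rim.2 ⟨z, hz, hy⟩, op_mem_inv.1 hy⟩
    have := h5 (rim (ZF.inv f) s) (by
      intro z hz
      obtain ⟨w, _, hwz⟩ := mem_rim.1 hz
      exact mem_dm.2 ⟨w, op_mem_inv.1 hwz⟩)
    rw [e] at this
    exact this.symm

/-- The union of a chain of conditions. -/
theorem exists_chain (Q : M → Prop) [hQ : D1 Q] (f0 : M) (h0 : Good Q f0) (st : M → M → M)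
    [hst : F2 st] (h1 : ∀ n, n ∈ (om : M) → ∀ f, Good Q f → Good Q (st n f) ∧ f ⊆ st n f ∧
      (n ∈ (Bs : M) → n ∈ dm (st n f))) :
    ∃ U, f0 ⊆ U ∧ IsInj U Bs Bs ∧ (∀ s, Kfin s → s ⊆ Bs → (Pf (rim U s) ↔ Q s)) ∧
      ∀ n, n ∈ (om : M) → ∃ f, Good Q f ∧ st n f ⊆ U := by
  have iGood : ∀ {n : ℕ} {F : (Fin n → M) → M} [Fp F], Dp (fun v => Good Q (F v)) :=
    instDpGood hQ
  have iQ : ∀ {n : ℕ} (F : (Fin n → M) → M) [Fp F], Dp (fun v => Q (F v)) :=
    fun F => Dp.subst1 hQ F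
  obtain ⟨F, hF, hF0, hFs⟩ := exists_rec f0 st
  have hG : ∀ n, n ∈ (om : M) → Good Q (ap F n) := by
    apply om_ind
    · rw [hF0]
      exact h0
    · intro n hn ih
      rw [hFs n hn]
      exact (h1 n hn _ ih).1
  have hmono : ∀ n, n ∈ (om : M) → ∀ m, m ∈ n → ap F m ⊆ ap F n := by
    apply om_ind
    · intro m hm
      exact absurd hm (not_mem_emp m)
    · intro n hn ih m hm
      rw [hFs n hn]
      have := (h1 n hn _ (hG n hn)).2.1
      rcases mem_suc.1 hm with rfl | hm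
      · exact this
      · exact Sub.trans (ih m hm) this
  have hmono' : ∀ n, n ∈ (om : M) → ∀ m, m ∈ (om : M) → ∃ k, k ∈ (om : M) ∧
      ap F n ⊆ ap F k ∧ ap F m ⊆ ap F k := by
    intro n hn m hm
    rcases om_tri hn hm with h | h | h
    · exact ⟨m, hm, hmono m hm n h, Sub.refl _⟩
    · exact ⟨m, hm, h ▸ Sub.refl _, Sub.refl _⟩
    · exact ⟨n, hn, Sub.refl _, hmono n hn m h⟩
  set U := sUn (img om fun n => ap F n) with hU
  have hUmem : ∀ z, z ∈ U ↔ ∃ n, n ∈ (om : M) ∧ z ∈ ap F n := by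
    intro z
    rw [hU, mem_sUn]
    constructor
    · rintro ⟨y, hy, hz⟩
      obtain ⟨n, hn, rfl⟩ := mem_img.1 hy
      exact ⟨n, hn, hz⟩
    · rintro ⟨n, hn, hz⟩
      exact ⟨_, mem_img.2 ⟨n, hn, rfl⟩, hz⟩
  have hsubU : ∀ n, n ∈ (om : M) → ap F n ⊆ U := fun n hn z hz => (hUmem z).2 ⟨n, hn, hz⟩
  have hdm : ∀ x, x ∈ (Bs : M) → ∃ n, n ∈ (om : M) ∧ x ∈ dm (ap F n) := by
    intro x hx
    refine ⟨suc x, suc_mem_om (Bs_sub x hx), ?_⟩
    rw [hFs x (Bs_sub x hx)]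
    exact (h1 x (Bs_sub x hx) _ (hG x (Bs_sub x hx))).2.2 hx
  -- finite sets are contained in the domain of a condition
  have hfin : ∀ s, Kfin s → s ⊆ Bs → ∃ n, n ∈ (om : M) ∧ s ⊆ dm (ap F n) := by
    intro s hs
    refine fin_ind (P := fun s => s ⊆ Bs → ∃ n, n ∈ (om : M) ∧ s ⊆ dm (ap F n)) ?_ ?_ hs
    · intro _
      exact ⟨emp, emp_mem_om, emp_sub _⟩
    · intro t _ ih x _ hxt
      obtain ⟨n, hn, h2⟩ := ih (fun z hz => hxt z (mem_ins.2 (Or.inr hz)))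
      obtain ⟨m, hm, h3⟩ := hdm x (hxt x (by simp))
      obtain ⟨k, hk, h4, h5⟩ := hmono' n hn m hm
      refine ⟨k, hk, ?_⟩
      intro z hz
      rcases mem_ins.1 hz with rfl | hz
      · exact dm_mono h5 _ h3
      · exact dm_mono h4 _ (h2 z hz)
  have hpair : ∀ z z', z ∈ U → z' ∈ U → ∃ k, k ∈ (om : M) ∧ z ∈ ap F k ∧ z' ∈ ap F k := by
    intro z z' hz hz'
    obtain ⟨n, hn, h2⟩ := (hUmem z).1 hz
    obtain ⟨m, hm, h3⟩ := (hUmem z').1 hz'
    obtain ⟨k, hk, h4, h5⟩ := hmono' n hn m hm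
    exact ⟨k, hk, h4 z h2, h5 z' h3⟩
  have hfun : ∀ x y y', op x y ∈ U → op x y' ∈ U → y = y' := by
    intro x y y' h h'
    obtain ⟨k, hk, h2, h3⟩ := hpair _ _ h h'
    exact (hG k hk).2.2.1 x y y' h2 h3
  have hinj : ∀ x x' y, op x y ∈ U → op x' y ∈ U → x = x' := by
    intro x x' y h h'
    obtain ⟨k, hk, h2, h3⟩ := hpair _ _ h h'
    exact (hG k hk).2.2.2.1 x x' y h2 h3
  have hfd : IsFD U Bs := by
    constructor
    · intro z hz
      obtain ⟨n, hn, hzn⟩ := (hUmem z).1 hz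
      obtain ⟨a, ha, b, hb, rfl⟩ := mem_prod.1 ((hG n hn).2.1 z hzn)
      exact ⟨a, ha, b, rfl⟩
    · intro x hx
      obtain ⟨n, hn, h2⟩ := hdm x hx
      obtain ⟨y, hy⟩ := mem_dm.1 h2
      exact ⟨y, hsubU n hn _ hy, fun y' hy' => hfun x y' y hy' (hsubU n hn _ hy)⟩
  have hfn : IsFn U Bs Bs := by
    refine ⟨hfd, fun x hx => ?_⟩
    obtain ⟨n, hn, h2⟩ := (hUmem _).1 (hfd.op_ap hx)
    exact (op_mem_Bs (hG n hn).2.1 h2).2
  refine ⟨U, ?_, ⟨hfn, ?_⟩, ?_, ?_⟩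
  · have := hsubU emp emp_mem_om
    rwa [hF0] at this
  · intro x hx y hy h
    refine hinj x y (ap U x) (hfd.op_ap hx) ?_
    rw [h]
    exact hfd.op_ap hy
  · intro s hs hsB
    obtain ⟨n, hn, hsn⟩ := hfin s hs hsB
    have e : rim U s = rim (ap F n) s := by
      apply ext
      intro y
      rw [mem_rim, mem_rim]
      constructor
      · rintro ⟨x, hx, hxy⟩
        obtain ⟨z, hz⟩ := mem_dm.1 (hsn x hx)
        rw [hfun x y z hxy (hsubU n hn _ hz)]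
        exact ⟨x, hx, hz⟩
      · rintro ⟨x, hx, hxy⟩
        exact ⟨x, hx, hsubU n hn _ hxy⟩
    rw [e]
    exact (hG n hn).2.2.2.2 s hsn
  · intro n hn
    refine ⟨ap F n, hG n hn, ?_⟩
    rw [← hFs n hn]
    exact hsubU _ (suc_mem_om hn)

/-- One-directional construction. -/
theorem exists_emb (Q : M → Prop) [hQ : D1 Q] (f0 : M) (h0 : Good Q f0) :
    ∃ U, f0 ⊆ U ∧ IsInj U Bs Bs ∧ ∀ s, Kfin s → s ⊆ Bs → (Pf (rim U s) ↔ Q s) := by
  have : F2 (stF Q) := instFpStF hQ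
  obtain ⟨U, h1, h2, h3, _⟩ := exists_chain Q f0 h0 (stF Q) (fun n _ f hf => stF_spec hf)
  exact ⟨U, h1, h2, h3⟩

/-- Homogeneity. -/
theorem exists_aut (f0 : M) (h0 : Good Pf f0) :
    ∃ U, f0 ⊆ U ∧ IsBij U Bs Bs ∧ ∀ s, Kfin s → s ⊆ Bs → (Pf (rim U s) ↔ Pf s) := by
  have i1 : D1 (Pf : M → Prop) := inferInstance
  have i2 : ∀ {n : ℕ} {F G : (Fin n → M) → M} [Fp F] [Fp G],
    Fp (fun v => stF Pf (F v) (G v)) := instFpStF i1
  have i3 : F2 (fun n f : M => inv (stF Pf n (inv (stF Pf n f)))) := inferInstance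
  obtain ⟨U, h1, h2, h3, h4⟩ := exists_chain Pf f0 h0
    (fun n f => inv (stF Pf n (inv (stF Pf n f)))) (by
      intro n _ f hf
      obtain ⟨h5, h6, h7⟩ := stF_spec (n := n) hf
      obtain ⟨h8, h9, _⟩ := stF_spec (n := n) h5.inv
      have h10 : stF Pf n f ⊆ inv (stF Pf n (inv (stF Pf n f))) := by
        have := inv_mono h9
        rwa [inv_inv h5] at this
      exact ⟨h8.inv, Sub.trans h6 h10, fun hn => dm_mono h10 _ (h7 hn)⟩)
  refine ⟨U, h1, ⟨h2, ?_⟩, h3⟩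
  intro y hy
  obtain ⟨f, hf, hsub⟩ := h4 y (Bs_sub y hy)
  have h5 := (stF_spec (n := y) hf).1
  obtain ⟨x, hx⟩ := mem_dm.1 ((stF_spec (n := y) h5.inv).2.2 hy)
  have h6 : op x y ∈ U := hsub _ (op_mem_inv.2 hx)
  rw [h2.1.1.op_mem] at h6
  exact ⟨x, h6.1, h6.2.symm⟩

end Pool.Agent.helper31.ZF
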