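import Pool.Agent.helper31.ZFHom

/-!
# The clone and its automorphism
-/

namespace Pool.Agent.helper31.ZF

universe u

variable {M : Type u} [ZFModel M]

/-! ### the clone -/

/-- The operation `t ↦ m (t j)` of arity `n`. -/
noncomputable def lift (n j m : M) : M := lam (Fn n om) fun t => ap m (ap t j)

instance instFpLift {k : ℕ} {F G H : (Fin k → M) → M} [Fp F] [Fp G] [Fp H] :
    Fp (fun v => lift (F v) (G v) (H v)) := Fp.op3 (by unfold lift; infer_instance) F G H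

/-- The monoid. -/
noncomputable def MM : M := sep (Fn om om) fun m => NN m ∨ HH m

theorem mem_MM {m : M} : m ∈ (MM : M) ↔ NN m ∨ HH m := by
  unfold MM
  rw [mem_sep, mem_Fn]
  exact ⟨fun h => h.2, fun h => ⟨(mfun_of h).1, h⟩⟩

/-- The clone. -/
noncomputable def CC : M :=
  sUn (img om fun n => sUn (img n fun j => img MM fun m => lift n j m))

theorem mem_CC {f : M} : f ∈ (CC : M) ↔ ∃ n, n ∈ (om : M) ∧ ∃ j, j ∈ n ∧ ∃ m, (NN m ∨ HH m) ∧
    f = lift n j m := by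
  unfold CC
  rw [mem_sUn]
  constructor
  · rintro ⟨y, hy, hf⟩
    obtain ⟨n, hn, rfl⟩ := mem_img.1 hy
    obtain ⟨y', hy', hf⟩ := mem_sUn.1 hf
    obtain ⟨j, hj, rfl⟩ := mem_img.1 hy'
    obtain ⟨m, hm, rfl⟩ := mem_img.1 hf
    exact ⟨n, hn, j, hj, m, mem_MM.1 hm, rfl⟩
  · rintro ⟨n, hn, j, hj, m, hm, rfl⟩
    exact ⟨_, mem_img.2 ⟨n, hn, rfl⟩, mem_sUn.2 ⟨_, mem_img.2 ⟨j, hj, rfl⟩,
      mem_img.2 ⟨m, mem_MM.2 hm, rfl⟩⟩⟩

theorem ap_lift {n j m t : M} (ht : IsFn t n om) : ap (lift n j m) t = ap m (ap t j) :=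
  ap_lam (mem_Fn.2 ht)

theorem lift_fn {n j m : M} (hj : j ∈ n) (hm : IsFn m om om) : IsFn (lift n j m) (Fn n om) om :=
  lam_fn fun _ ht => hm.2 _ ((mem_Fn.1 ht).2 j hj)

theorem ne_emp_of_mem {n j : M} (hj : j ∈ n) : n ≠ emp := by
  rintro rfl
  exact not_mem_emp j hj

theorem isOp_lift {n j m : M} (hn : n ∈ (om : M)) (hj : j ∈ n) (hm : IsFn m om om) :
    IsOp om n (lift n j m) := ⟨hn, ne_emp_of_mem hj, lift_fn hj hm⟩

theorem cst_fn {n x : M} (hx : x ∈ (om : M)) : IsFn (lam n fun _ => x) n om :=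
  lam_fn fun _ _ => hx

theorem dom_unique {f A B : M} (h : IsFD f A) (h' : IsFD f B) : A = B := by
  apply ext
  intro x
  constructor
  · intro hx
    exact (h'.op_mem.1 (h.op_ap hx)).1
  · intro hx
    exact (h.op_mem.1 (h'.op_ap hx)).1

theorem arity_unique {n k f : M} (h : IsFn f (Fn n om) om) (h' : IsFn f (Fn k om) om) :
    n = k := by
  have h1 : Fn n (om : M) = Fn k om := dom_unique h.1 h'.1
  have h2 : (lam n fun _ => (emp : M)) ∈ Fn n om := mem_Fn.2 (cst_fn emp_mem_om)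
  have h3 := h2
  rw [h1] at h3
  exact dom_unique (mem_Fn.1 h2).1 (mem_Fn.1 h3).1

theorem lift_inj {n j m n' j' m' : M} (hj : j ∈ n) (hj' : j' ∈ n')
    (hm : IsFn m om om) (hm' : IsFn m' om om) (h : lift n j m = lift n' j' m') :
    m = m' := by
  have hn : n = n' := arity_unique (lift_fn hj hm) (h ▸ lift_fn hj' hm')
  subst hn
  refine fn_ext hm hm' fun x hx => ?_
  have h1 : ap (lift n j m) (lam n fun _ => x) = ap m x := by
    rw [ap_lift (cst_fn hx), ap_lam hj]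
  have h2 : ap (lift n j' m') (lam n fun _ => x) = ap m' x := by
    rw [ap_lift (cst_fn hx), ap_lam hj']
  rw [← h1, ← h2, h]

/-- An `n`-ary member of the clone. -/
theorem mem_CC_op {n f : M} (hf : f ∈ (CC : M)) (ho : IsOp om n f) : ∃ j, j ∈ n ∧ ∃ m,
    (NN m ∨ HH m) ∧ f = lift n j m := by
  obtain ⟨k, _, j, hj, m, hm, rfl⟩ := mem_CC.1 hf
  have : n = k := arity_unique ho.2.2 (lift_fn hj (mfun_of hm).1)
  subst this
  exact ⟨j, hj, m, hm, rfl⟩

theorem lift_mem_CC {n j m : M} (hn : n ∈ (om : M)) (hj : j ∈ n) (hm : NN m ∨ HH m) :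
    lift n j m ∈ (CC : M) := mem_CC.2 ⟨n, hn, j, hj, m, hm, rfl⟩

theorem cmp_mem {m m' : M} (h : NN m ∨ HH m) (h' : NN m' ∨ HH m') :
    NN (cmp m m') ∨ HH (cmp m m') := by
  rcases h with h | h
  · rcases h' with h' | h'
    · exact Or.inl (h.cmp h')
    · exact Or.inr (h.cmp_HH h').1
  · exact Or.inr (h.cmp h').1

theorem comp_lift {n k j i m m' G : M}
    (hj : j ∈ n) (hi : i ∈ k) (hG : ∀ l, l ∈ n → IsFn (ap G l) (Fn k om) om)
    (hGj : ap G j = lift k i m') : comp om n k (lift n j m) G = lift k i (cmp m m') := by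
  refine fd_ext lam_fd lam_fd fun t ht => ?_
  have ht' := mem_Fn.1 ht
  unfold comp
  rw [ap_lam ht, ap_lift (lam_fn fun l hl => (hG l hl).2 t ht), ap_lam hj, hGj, ap_lift ht',
    ap_lift ht', ap_cmp (ht'.2 i hi)]

theorem proj_eq {n j : M} (hj : j ∈ n) : proj om n j = lift n j idf := by
  refine fd_ext lam_fd lam_fd fun t ht => ?_
  have ht' := mem_Fn.1 ht
  unfold proj
  rw [ap_lam ht, ap_lift ht', ap_idf (ht'.2 j hj)]

theorem isClone_CC : IsClone (om : M) CC := by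
  refine ⟨?_, ?_, ?_⟩
  · intro f hf
    obtain ⟨n, hn, j, hj, m, hm, rfl⟩ := mem_CC.1 hf
    exact ⟨n, isOp_lift hn hj (mfun_of hm).1⟩
  · intro n hn j hj
    rw [proj_eq hj]
    exact lift_mem_CC hn hj (Or.inl NN_idf)
  · intro n k f G hf ho hG
    obtain ⟨j, hj, m, hm, rfl⟩ := mem_CC_op hf ho
    obtain ⟨i, hi, m', hm', e⟩ := mem_CC_op (hG.1.2 j hj) (hG.2 j hj)
    rw [comp_lift hj hi (fun l hl => (hG.2 l hl).2.2) e]
    exact lift_mem_CC (hG.2 j hj).1 hi (cmp_mem hm hm')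

theorem isClosed_CC : IsClosedClone (om : M) CC := by
  intro n g hg h
  -- for some `j` the operation `g` agrees with a member of index `j` on every finite set
  have key : ∃ j, j ∈ n ∧ ∀ A, Kfin A → A ⊆ Fn n om → ∃ m, (NN m ∨ HH m) ∧
      ∀ t, t ∈ A → ap m (ap t j) = ap g t := by
    by_contra hcon
    push Not at hcon
    have h1 : n ⊆ n → ∃ A : M, (Kfin A ∧ A ⊆ Fn n om) ∧ ∀ j, j ∈ n → ∀ m, (NN m ∨ HH m) →
        ∃ t, t ∈ A ∧ ap m (ap t j) ≠ ap g t := by
      refine fin_ind (P := fun s => s ⊆ n → ∃ A : M, (Kfin A ∧ A ⊆ Fn n om) ∧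
        ∀ j, j ∈ s → ∀ m, (NN m ∨ HH m) → ∃ t, t ∈ A ∧ ap m (ap t j) ≠ ap g t) ?_ ?_
        (kfin_nat n hg.1)
      · intro _
        exact ⟨emp, ⟨kfin_emp, emp_sub _⟩, fun j hj => absurd hj (not_mem_emp j)⟩
      · intro s _ ih x _ hxs
        obtain ⟨A, ⟨hA, hAo⟩, hA'⟩ := ih (fun z hz => hxs z (mem_ins.2 (Or.inr hz)))
        obtain ⟨B, hB, hBo, hB'⟩ := hcon x (hxs x (by simp))
        refine ⟨un A B, ⟨kfin_un hA hB, ?_⟩, ?_⟩
        · intro z hz
          rcases mem_un.1 hz with hz | hz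
          · exact hAo z hz
          · exact hBo z hz
        · intro j hj m hm
          rcases mem_ins.1 hj with rfl | hj
          · obtain ⟨t, ht, ht'⟩ := hB' m hm
            exact ⟨t, mem_un.2 (Or.inr ht), ht'⟩
          · obtain ⟨t, ht, ht'⟩ := hA' j hj m hm
            exact ⟨t, mem_un.2 (Or.inl ht), ht'⟩
    obtain ⟨A, ⟨hA, hAo⟩, hA'⟩ := h1 (Sub.refl n)
    obtain ⟨f, hf, ho, hfg⟩ := h A (isFinite_iff.2 hA) hAo
    obtain ⟨j, hj, m, hm, rfl⟩ := mem_CC_op hf ho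
    obtain ⟨t, ht, ht'⟩ := hA' j hj m hm
    apply ht'
    rw [← hfg t ht, ap_lift (mem_Fn.1 (hAo t ht))]
  obtain ⟨j, hj, hkey⟩ := key
  have hgm : IsFn (lam om fun x => ap g (lam n fun _ => x)) om om :=
    lam_fn fun x hx => hg.2.2.2 _ (mem_Fn.2 (cst_fn hx))
  have hmem : NN (lam om fun x => ap g (lam n fun _ => x)) ∨
      HH (lam om fun x => ap g (lam n fun _ => x)) := by
    refine mon_closed hgm ?_
    intro A hA hAo
    obtain ⟨m, hm, hm'⟩ := hkey (img A fun x => lam n fun _ => x) (kfin_img hA) (by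
      intro z hz
      obtain ⟨x, hx, rfl⟩ := mem_img.1 hz
      exact mem_Fn.2 (cst_fn (hAo x hx)))
    refine ⟨m, hm, fun x hx => ?_⟩
    have := hm' _ (mem_img.2 ⟨x, hx, rfl⟩)
    rw [ap_lam hj] at this
    rw [this, ap_lam (hAo x hx)]
  have : g = lift n j (lam om fun x => ap g (lam n fun _ => x)) := by
    refine fd_ext hg.2.2.1 lam_fd fun t ht => ?_
    have ht' := mem_Fn.1 ht
    have hx := ht'.2 j hj
    obtain ⟨m, hm, hm'⟩ := hkey (pr t (lam n fun _ => ap t j)) (kfin_pr _ _) (by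
      intro z hz
      rcases mem_pr.1 hz with rfl | rfl
      · exact ht
      · exact mem_Fn.2 (cst_fn hx))
    have e1 := hm' t (by simp)
    have e2 := hm' (lam n fun _ => ap t j) (by simp)
    rw [ap_lam hj] at e2
    rw [ap_lift ht', ap_lam hx, ← e2, e1]
  rw [this]
  exact lift_mem_CC hg.1 hj hmem

theorem emp_mem_one : (emp : M) ∈ (one : M) := by simp [one]

theorem act_lift {m x : M} (hx : x ∈ (om : M)) : act (lift one emp m) x = ap m x := by
  unfold act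
  rw [ap_lift (cst_fn hx), ap_lam emp_mem_one]

theorem isInv_lift {g : M} (hg : IsAut g) : IsInvertible om CC (lift one emp g) := by
  obtain ⟨h1, g', h2, h3⟩ := hg
  refine ⟨lift_mem_CC one_mem_om emp_mem_one (Or.inl h1),
    isOp_lift one_mem_om emp_mem_one h1.1.1, lift one emp g',
    lift_mem_CC one_mem_om emp_mem_one (Or.inl h2),
    isOp_lift one_mem_om emp_mem_one h2.1.1, ?_⟩
  intro x hx
  rw [act_lift hx, act_lift hx, act_lift (h1.1.1.2 x hx), act_lift (h2.1.1.2 x hx)]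
  exact h3 x hx

theorem isOligomorphic_CC : IsOligomorphic (om : M) CC := by
  intro n hn
  obtain ⟨R, hR, hRo, h⟩ := fin_types (kfin_nat n hn)
  refine ⟨R, isFinite_iff.2 hR, hRo, ?_⟩
  intro t ht
  obtain ⟨r, hr, g, hg, hgt⟩ := h t ht
  refine ⟨r, hr, lift one emp g, isInv_lift hg, ?_⟩
  intro i hi
  rw [act_lift ((mem_Fn.1 (hRo r hr)).2 i hi)]
  exact hgt i hi

/-! ### the automorphism -/

/-- Members at which values are exchanged. -/
def JJ (f : M) : Prop := ∃ n, n ∈ (om : M) ∧ ∃ j, j ∈ n ∧ ∃ m, (HH m ∧ II m) ∧ f = lift n j m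

instance instDpJJ {n : ℕ} {F : (Fin n → M) → M} [Fp F] :
    Dp (fun v => JJ (F v)) := Dp.subst1 (by unfold JJ; infer_instance) F

open Classical in
/-- The automorphism of the clone as a class function. -/
noncomputable def phi (f : M) : M := if JJ f then lam (dm f) (fun t => sw (ap f t)) else f

instance instFpPhi {n : ℕ} {F : (Fin n → M) → M} [Fp F] :
    Fp (fun v => phi (F v)) := Fp.op1 (by unfold phi; infer_instance) F

theorem dm_eq {f A : M} (h : IsFD f A) : dm f = A := by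
  apply ext
  intro x
  rw [mem_dm]
  constructor
  · rintro ⟨y, hy⟩
    exact (h.op_mem.1 hy).1
  · intro hx
    exact ⟨_, h.op_ap hx⟩

theorem phi_lift {n j m : M} (hn : n ∈ (om : M)) (hj : j ∈ n) (hm : NN m ∨ HH m) :
    phi (lift n j m) = lift n j (ph m) := by
  have hfn := lift_fn hj (mfun_of hm).1
  by_cases h : HH m ∧ II m
  · have hJ : JJ (lift n j m) := ⟨n, hn, j, hj, m, h, rfl⟩
    unfold phi
    rw [if_pos hJ, ph_of h.1 h.2, dm_eq hfn.1]
    refine fd_ext lam_fd lam_fd fun t ht => ?_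
    have ht' := mem_Fn.1 ht
    rw [ap_lam ht, ap_lift ht', ap_lift ht', ap_swm (ht'.2 j hj)]
  · have hJ : ¬ JJ (lift n j m) := by
      rintro ⟨n', hn', j', hj', m', hm', e⟩
      apply h
      rw [lift_inj hj hj' (mfun_of hm).1 hm'.1.1.1 e]
      exact hm'
    unfold phi
    rw [if_neg hJ, ph_not h]

/-- The automorphism of the clone. -/
noncomputable def Phi : M := lam CC phi

theorem ap_Phi {n j m : M} (hn : n ∈ (om : M)) (hj : j ∈ n) (hm : NN m ∨ HH m) :
    ap Phi (lift n j m) = lift n j (ph m) := by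
  unfold Phi
  rw [ap_lam (lift_mem_CC hn hj hm), phi_lift hn hj hm]

theorem Phi_mem {f : M} (hf : f ∈ (CC : M)) : phi f ∈ (CC : M) ∧ phi (phi f) = f := by
  obtain ⟨n, hn, j, hj, m, hm, rfl⟩ := mem_CC.1 hf
  rw [phi_lift hn hj hm, phi_lift hn hj (ph_mem hm), ph_ph]
  exact ⟨lift_mem_CC hn hj (ph_mem hm), rfl⟩

theorem Phi_fn : IsFn (Phi : M) CC CC := lam_fn fun _ hf => (Phi_mem hf).1

theorem Phi_bij : IsBij (Phi : M) CC CC := by
  have h1 : ∀ f, f ∈ (CC : M) → ap Phi f = phi f := fun f hf => ap_lam hf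
  refine ⟨⟨Phi_fn, ?_⟩, ?_⟩
  · intro f hf g hg e
    rw [h1 f hf, h1 g hg] at e
    rw [← (Phi_mem hf).2, ← (Phi_mem hg).2, e]
  · intro f hf
    exact ⟨phi f, (Phi_mem hf).1, by rw [h1 _ (Phi_mem hf).1, (Phi_mem hf).2]⟩

theorem Phi_iso : IsCloneIso (om : M) CC om CC Phi := by
  refine ⟨Phi_bij, ?_, ?_, ?_⟩
  · intro n f hf ho
    obtain ⟨j, hj, m, hm, rfl⟩ := mem_CC_op hf ho
    rw [ap_Phi ho.1 hj hm]
    exact isOp_lift ho.1 hj (mfun_of (ph_mem hm)).1
  · intro n hn j hj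
    rw [proj_eq hj, ap_Phi hn hj (Or.inl NN_idf), ph_not (fun e => NN_idf.not_HH e.1)]
  · intro n k f G hf ho hG
    obtain ⟨j, hj, m, hm, rfl⟩ := mem_CC_op hf ho
    obtain ⟨i, hi, m', hm', e⟩ := mem_CC_op (hG.1.2 j hj) (hG.2 j hj)
    have hk := (hG.2 j hj).1
    rw [comp_lift hj hi (fun l hl => (hG.2 l hl).2.2) e,
      ap_Phi hk hi (cmp_mem hm hm'), ap_Phi ho.1 hj hm, ph_cmp hm hm']
    symm
    apply comp_lift hj hi
    · intro l hl
      rw [ap_lam hl]
      obtain ⟨i', hi', m1, hm1, e'⟩ := mem_CC_op (hG.1.2 l hl) (hG.2 l hl)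
      rw [e', ap_Phi hk hi' hm1]
      exact lift_fn hi' (mfun_of (ph_mem hm1)).1
    · rw [ap_lam hj, e, ap_Phi hk hi hm']

theorem Phi_not_cont : ¬ IsCont (om : M) CC om Phi := by
  intro hcont
  obtain ⟨h, hH, hI, h0, hF⟩ := exists_disc (M := M)
  have hop : ∀ m : M, HH m → IsOp om one (lift one emp m) := fun m hm =>
    isOp_lift one_mem_om emp_mem_one hm.1.1
  have hmem : ∀ m : M, HH m → lift one emp m ∈ (CC : M) := fun m hm =>
    lift_mem_CC one_mem_om emp_mem_one (Or.inr hm)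
  have hc : IsFn (lam one fun _ => (emp : M)) one om := cst_fn emp_mem_om
  obtain ⟨A, hA, hAo, hA'⟩ := hcont one (lift one emp h) (hmem h hH) (hop h hH)
    (sg (lam one fun _ => (emp : M))) (isFinite_iff.2 (kfin_sg _)) (by
      intro z hz
      rw [mem_sg.1 hz]
      exact mem_Fn.2 hc)
  obtain ⟨h', hH', hI', h0', hF'⟩ := hF (img A fun t => ap t emp)
    (kfin_img (isFinite_iff.1 hA)) (by
      intro z hz
      obtain ⟨t, ht, rfl⟩ := mem_img.1 hz
      exact (mem_Fn.1 (hAo t ht)).2 emp emp_mem_one)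
  have key := hA' (lift one emp h') (hmem h' hH') (hop h' hH') (by
    intro t ht
    have ht' := mem_Fn.1 (hAo t ht)
    rw [ap_lift ht', ap_lift ht']
    exact hF' _ (mem_img.2 ⟨t, ht, rfl⟩)) (lam one fun _ => (emp : M)) (by simp)
  rw [ap_Phi one_mem_om emp_mem_one (Or.inr hH'), ap_Phi one_mem_om emp_mem_one (Or.inr hH),
    ap_lift hc, ap_lift hc, ap_lam emp_mem_one, ph_of hH' hI', ph_not (fun e => hI e.2),
    ap_swm emp_mem_om, h0, h0', sw_emp] at key
  exact emp_ne_one key.symm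

end Pool.Agent.helper31.ZF
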