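import Pool.Agent.helper31.ZFMon3
import Pool.Agent.helper31.ZFClone

/-!
# Two isomorphic clones without a continuous isomorphism
-/

namespace Pool.Agent.helper31.ZF

universe u

variable {M : Type u} [ZFModel M]

/-! ### the clone of a monoid -/

/-- The monoid as a set. -/
noncomputable def MK (K : M → Prop) : M := sep (Fn om om) K

/-- The clone of all operations `t ↦ m (t j)` with `m` in the monoid. -/
noncomputable def CK (K : M → Prop) : M :=
  sUn (img om fun n => sUn (img n fun j => img (MK K) fun m => lift n j m))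

section CK

variable {K : M → Prop} [hD : D1 K] (hK : GoodK K)

include hK

theorem mem_MK {m : M} : m ∈ MK K ↔ K m := by
  unfold MK
  rw [mem_sep, mem_Fn]
  exact ⟨fun h => h.2, fun h => ⟨(mfun_of (hK.sub m h)).1, h⟩⟩

theorem mem_CK {f : M} : f ∈ CK K ↔ ∃ n, n ∈ (om : M) ∧ ∃ j, j ∈ n ∧ ∃ m, K m ∧
    f = lift n j m := by
  unfold CK
  rw [mem_sUn]
  constructor
  · rintro ⟨y, hy, hf⟩
    obtain ⟨n, hn, rfl⟩ := mem_img.1 hy
    obtain ⟨y', hy', hf⟩ := mem_sUn.1 hf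
    obtain ⟨j, hj, rfl⟩ := mem_img.1 hy'
    obtain ⟨m, hm, rfl⟩ := mem_img.1 hf
    exact ⟨n, hn, j, hj, m, (mem_MK hK).1 hm, rfl⟩
  · rintro ⟨n, hn, j, hj, m, hm, rfl⟩
    exact ⟨_, mem_img.2 ⟨n, hn, rfl⟩, mem_sUn.2 ⟨_, mem_img.2 ⟨j, hj, rfl⟩,
      mem_img.2 ⟨m, (mem_MK hK).2 hm, rfl⟩⟩⟩

theorem mem_CK_op {n f : M} (hf : f ∈ CK K) (ho : IsOp om n f) : ∃ j, j ∈ n ∧ ∃ m,
    K m ∧ f = lift n j m := by
  obtain ⟨k, _, j, hj, m, hm, rfl⟩ := (mem_CK hK).1 hf
  have : n = k := arity_unique ho.2.2 (lift_fn hj (mfun_of (hK.sub m hm)).1)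
  subst this
  exact ⟨j, hj, m, hm, rfl⟩

theorem lift_mem_CK {n j m : M} (hn : n ∈ (om : M)) (hj : j ∈ n) (hm : K m) :
    lift n j m ∈ CK K := (mem_CK hK).2 ⟨n, hn, j, hj, m, hm, rfl⟩

theorem isClone_CK : IsClone (om : M) (CK K) := by
  refine ⟨?_, ?_, ?_⟩
  · intro f hf
    obtain ⟨n, hn, j, hj, m, hm, rfl⟩ := (mem_CK hK).1 hf
    exact ⟨n, isOp_lift hn hj (mfun_of (hK.sub m hm)).1⟩
  · intro n hn j hj
    rw [proj_eq hj]
    exact lift_mem_CK hK hn hj (hK.nn _ NN_idf)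
  · intro n k f G hf ho hG
    obtain ⟨j, hj, m, hm, rfl⟩ := mem_CK_op hK hf ho
    obtain ⟨i, hi, m', hm', e⟩ := mem_CK_op hK (hG.1.2 j hj) (hG.2 j hj)
    rw [comp_lift hj hi (fun l hl => (hG.2 l hl).2.2) e]
    exact lift_mem_CK hK (hG.2 j hj).1 hi (hK.cmp _ _ hm hm')

theorem isClosed_CK : IsClosedClone (om : M) (CK K) := by
  have iK : ∀ {n : ℕ} (F : (Fin n → M) → M) [Fp F], Dp (fun v => K (F v)) :=
    fun F => Dp.subst1 hD F
  intro n g hg h
  -- for some `j` the operation `g` agrees with a member of index `j` on every finite set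
  have key : ∃ j, j ∈ n ∧ ∀ A, Kfin A → A ⊆ Fn n om → ∃ m, K m ∧
      ∀ t, t ∈ A → ap m (ap t j) = ap g t := by
    by_contra hcon
    push Not at hcon
    have h1 : n ⊆ n → ∃ A : M, (Kfin A ∧ A ⊆ Fn n om) ∧ ∀ j, j ∈ n → ∀ m, K m →
        ∃ t, t ∈ A ∧ ap m (ap t j) ≠ ap g t := by
      refine fin_ind (P := fun s => s ⊆ n → ∃ A : M, (Kfin A ∧ A ⊆ Fn n om) ∧
        ∀ j, j ∈ s → ∀ m, K m → ∃ t, t ∈ A ∧ ap m (ap t j) ≠ ap g t) ?_ ?_
        (kfin_nat n hg.1)
      · intro _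
        exact ⟨emp, ⟨kfin_emp, emp_sub _⟩, fun j hj => absurd hj (not_mem_emp j)⟩
      · intro s _ ih x _ hxs
        obtain ⟨A, ⟨hA, hAo⟩, hA'⟩ := ih (fun z hz => hxs z (mem_ins.2 (Or.inr hz)))
        obtain ⟨B, hB, hBo, hB'⟩ := hcon x (hxs x (by simp))
        refine ⟨un A B, ⟨kfin_un hA hB, ?_⟩, ?_⟩
        · intro z hz
          rcases mem_un.1 hz with hz | hz
          · exact hAo z hz
          · exact hBo z hz
        · intro j hj m hm
          rcases mem_ins.1 hj with rfl | hj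
          · obtain ⟨t, ht, ht'⟩ := hB' m hm
            exact ⟨t, mem_un.2 (Or.inr ht), ht'⟩
          · obtain ⟨t, ht, ht'⟩ := hA' j hj m hm
            exact ⟨t, mem_un.2 (Or.inl ht), ht'⟩
    obtain ⟨A, ⟨hA, hAo⟩, hA'⟩ := h1 (Sub.refl n)
    obtain ⟨f, hf, ho, hfg⟩ := h A (isFinite_iff.2 hA) hAo
    obtain ⟨j, hj, m, hm, rfl⟩ := mem_CK_op hK hf ho
    obtain ⟨t, ht, ht'⟩ := hA' j hj m hm
    apply ht'
    rw [← hfg t ht, ap_lift (mem_Fn.1 (hAo t ht))]
  obtain ⟨j, hj, hkey⟩ := key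
  have hgm : IsFn (lam om fun x => ap g (lam n fun _ => x)) om om :=
    lam_fn fun x hx => hg.2.2.2 _ (mem_Fn.2 (cst_fn hx))
  have hmem : K (lam om fun x => ap g (lam n fun _ => x)) := by
    refine hK.closed _ hgm ?_
    intro A hA hAo
    obtain ⟨m, hm, hm'⟩ := hkey (img A fun x => lam n fun _ => x) (kfin_img hA) (by
      intro z hz
      obtain ⟨x, hx, rfl⟩ := mem_img.1 hz
      exact mem_Fn.2 (cst_fn (hAo x hx)))
    refine ⟨m, hm, fun x hx => ?_⟩
    have := hm' _ (mem_img.2 ⟨x, hx, rfl⟩)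
    rw [ap_lam hj] at this
    rw [this, ap_lam (hAo x hx)]
  have : g = lift n j (lam om fun x => ap g (lam n fun _ => x)) := by
    refine fd_ext hg.2.2.1 lam_fd fun t ht => ?_
    have ht' := mem_Fn.1 ht
    have hx := ht'.2 j hj
    obtain ⟨m, hm, hm'⟩ := hkey (pr t (lam n fun _ => ap t j)) (kfin_pr _ _) (by
      intro z hz
      rcases mem_pr.1 hz with rfl | rfl
      · exact ht
      · exact mem_Fn.2 (cst_fn hx))
    have e1 := hm' t (by simp)
    have e2 := hm' (lam n fun _ => ap t j) (by simp)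
    rw [ap_lam hj] at e2
    rw [ap_lift ht', ap_lam hx, ← e2, e1]
  rw [this]
  exact lift_mem_CK hK hg.1 hj hmem

theorem isInv_lift_CK {g : M} (hg : IsAut g) : IsInvertible om (CK K) (lift one emp g) := by
  obtain ⟨h1, g', h2, h3⟩ := hg
  refine ⟨lift_mem_CK hK one_mem_om emp_mem_one (hK.nn _ h1),
    isOp_lift one_mem_om emp_mem_one h1.1.1, lift one emp g',
    lift_mem_CK hK one_mem_om emp_mem_one (hK.nn _ h2),
    isOp_lift one_mem_om emp_mem_one h2.1.1, ?_⟩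
  intro x hx
  rw [act_lift hx, act_lift hx, act_lift (h1.1.1.2 x hx), act_lift (h2.1.1.2 x hx)]
  exact h3 x hx

theorem isOligomorphic_CK : IsOligomorphic (om : M) (CK K) := by
  intro n hn
  obtain ⟨R, hR, hRo, h⟩ := fin_types (kfin_nat n hn)
  refine ⟨R, isFinite_iff.2 hR, hRo, ?_⟩
  intro t ht
  obtain ⟨r, hr, g, hg, hgt⟩ := h t ht
  refine ⟨r, hr, lift one emp g, isInv_lift_CK hK hg, ?_⟩
  intro i hi
  rw [act_lift ((mem_Fn.1 (hRo r hr)).2 i hi)]
  exact hgt i hi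

/-- Unary members. -/
theorem mem_CK_unary {f : M} (hf : f ∈ CK K) (ho : IsOp om one f) : ∃ m, K m ∧
    f = lift one emp m := by
  obtain ⟨j, hj, m, hm, rfl⟩ := mem_CK_op hK hf ho
  rw [mem_one.1 hj]
  exact ⟨m, hm, rfl⟩

omit hD in
theorem comp_unary {m m' : M} (hm' : K m') :
    comp om one one (lift one emp m) (lam one fun _ => lift one emp m') =
      lift one emp (cmp m m') := by
  refine comp_lift emp_mem_one emp_mem_one ?_ (ap_lam emp_mem_one)
  intro l hl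
  rw [ap_lam hl]
  exact lift_fn emp_mem_one (mfun_of (hK.sub m' hm')).1

theorem isTuple_unary {m' : M} (hm' : K m') :
    IsTuple om (CK K) one one (lam one fun _ => lift one emp m') := by
  refine ⟨lam_fn fun _ _ => lift_mem_CK hK one_mem_om emp_mem_one hm', ?_⟩
  intro i hi
  rw [ap_lam hi]
  exact isOp_lift one_mem_om emp_mem_one (mfun_of (hK.sub m' hm')).1

end CK

/-! ### the isomorphism -/

/-- Members at which the label is changed. -/
def J2 (f : M) : Prop := ∃ n, n ∈ (om : M) ∧ ∃ j, j ∈ n ∧ ∃ m, Chg m ∧ f = lift n j m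

instance instDpJ2 {n : ℕ} {F : (Fin n → M) → M} [Fp F] :
    Dp (fun v => J2 (F v)) := Dp.subst1 (by unfold J2; infer_instance) F

open Classical in
/-- The isomorphism of the clones as a class function. -/
noncomputable def psi (f : M) : M := if J2 f then lam (dm f) (fun t => sw (ap f t)) else f

instance instFpPsi {n : ℕ} {F : (Fin n → M) → M} [Fp F] :
    Fp (fun v => psi (F v)) := Fp.op1 (by unfold psi; infer_instance) F

theorem psi_lift {n j m : M} (hn : n ∈ (om : M)) (hj : j ∈ n) (hm : NN m ∨ HH m) :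
    psi (lift n j m) = lift n j (rho m) := by
  have hfn := lift_fn hj (mfun_of hm).1
  by_cases h : Chg m
  · have hJ : J2 (lift n j m) := ⟨n, hn, j, hj, m, h, rfl⟩
    unfold psi
    rw [if_pos hJ, rho_of h, dm_eq hfn.1]
    refine fd_ext lam_fd lam_fd fun t ht => ?_
    have ht' := mem_Fn.1 ht
    rw [ap_lam ht, ap_lift ht', ap_lift ht', ap_swm (ht'.2 j hj)]
  · have hJ : ¬ J2 (lift n j m) := by
      rintro ⟨n', hn', j', hj', m', hm', e⟩
      apply h
      rw [lift_inj hj hj' (mfun_of hm).1 hm'.1.1.1 e]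
      exact hm'
    unfold psi
    rw [if_neg hJ, rho_not h]

/-- The isomorphism of the clones. -/
noncomputable def Psi : M := lam (CK K2) psi

theorem ap_Psi {n j m : M} (hn : n ∈ (om : M)) (hj : j ∈ n) (hm : K2 m) :
    ap Psi (lift n j m) = lift n j (rho m) := by
  unfold Psi
  rw [ap_lam (lift_mem_CK goodK2 hn hj hm), psi_lift hn hj hm.mem]

theorem lift_index {n j j' m m' : M} (hj : j ∈ n) (hj' : j' ∈ n) (hm : NN m ∨ HH m)
    (hm' : NN m' ∨ HH m') (h : lift n j m = lift n j' m') : j = j' := by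
  -- evaluate at the tuple with two values in `B` separating `j`
  by_contra hne
  obtain ⟨b, hb, _, _⟩ := Pf_ext (X := (emp : M)) (S := emp) kfin_emp (emp_sub _) (emp_sub _)
  obtain ⟨c, hc, hcb, _⟩ := Pf_ext (X := sg b) (S := emp) (kfin_sg b) (by
    intro z hz
    rw [mem_sg.1 hz]
    exact Bs_sub b hb) (emp_sub _)
  have hcb' : c ≠ b := fun e => hcb (by rw [e]; simp)
  have h1 : m = m' := lift_inj hj hj' (mfun_of hm).1 (mfun_of hm').1 h
  subst h1
  set t := un (lam (sg j) fun _ => b) (lam (df n (sg j)) fun _ => c) with ht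
  have hmem : ∀ x y, op x y ∈ t ↔ (x = j ∧ y = b) ∨ ((x ∈ n ∧ x ≠ j) ∧ y = c) := by
    intro x y
    rw [ht, mem_un, mem_lam, mem_lam]
    constructor
    · rintro (⟨z, hz, e⟩ | ⟨z, hz, e⟩)
      · obtain ⟨rfl, rfl⟩ := op_inj.1 e
        exact Or.inl ⟨mem_sg.1 hz, rfl⟩
      · obtain ⟨rfl, rfl⟩ := op_inj.1 e
        rw [mem_df, mem_sg] at hz
        exact Or.inr ⟨hz, rfl⟩
    · rintro (⟨rfl, rfl⟩ | ⟨hx, rfl⟩)
      · exact Or.inl ⟨_, mem_sg.2 rfl, rfl⟩
      · exact Or.inr ⟨x, by rw [mem_df, mem_sg]; exact hx, rfl⟩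
  have htfd : IsFD t n := by
    constructor
    · intro z hz
      rw [ht, mem_un, mem_lam, mem_lam] at hz
      rcases hz with ⟨x, hx, e⟩ | ⟨x, hx, e⟩
      · exact ⟨x, by rw [mem_sg.1 hx]; exact hj, b, e⟩
      · exact ⟨x, (mem_df.1 hx).1, c, e⟩
    · intro x hx
      by_cases hxj : x = j
      · subst hxj
        refine ⟨b, (hmem _ _).2 (Or.inl ⟨rfl, rfl⟩), ?_⟩
        intro y hy
        rcases (hmem _ _).1 hy with h | h
        · exact h.2
        · exact absurd rfl h.1.2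
      · refine ⟨c, (hmem _ _).2 (Or.inr ⟨⟨hx, hxj⟩, rfl⟩), ?_⟩
        intro y hy
        rcases (hmem _ _).1 hy with h | h
        · exact absurd h.1 hxj
        · exact h.2
  have e1 : ap t j = b := htfd.ap_eq ((hmem _ _).2 (Or.inl ⟨rfl, rfl⟩))
  have e2 : ap t j' = c := htfd.ap_eq ((hmem _ _).2 (Or.inr ⟨⟨hj', fun e => hne e.symm⟩, rfl⟩))
  have htfn : IsFn t n om := by
    refine ⟨htfd, fun x hx => ?_⟩
    by_cases hxj : x = j
    · rw [hxj, e1]
      exact Bs_sub b hb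
    · rw [htfd.ap_eq ((hmem x c).2 (Or.inr ⟨⟨hx, hxj⟩, rfl⟩))]
      exact Bs_sub c hc
  have e3 : ap (lift n j m) t = ap (lift n j' m) t := by rw [h]
  rw [ap_lift htfn, ap_lift htfn, e1, e2] at e3
  exact hcb' ((mfun_of hm).2.2 b hb c hc e3).symm

theorem Psi_bij : IsBij (Psi : M) (CK K2) (CK K1) := by
  refine ⟨⟨⟨lam_fd, ?_⟩, ?_⟩, ?_⟩
  · intro f hf
    obtain ⟨n, hn, j, hj, m, hm, rfl⟩ := (mem_CK goodK2).1 hf
    rw [ap_Psi hn hj hm]
    exact lift_mem_CK goodK1 hn hj (rho_K1 hm)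
  · intro f hf g hg e
    obtain ⟨n, hn, j, hj, m, hm, rfl⟩ := (mem_CK goodK2).1 hf
    obtain ⟨n', hn', j', hj', m', hm', rfl⟩ := (mem_CK goodK2).1 hg
    rw [ap_Psi hn hj hm, ap_Psi hn' hj' hm'] at e
    have hr := (rho_K1 hm).mem
    have hr' := (rho_K1 hm').mem
    have h1 : n = n' := arity_unique (lift_fn hj (mfun_of hr).1)
      (e ▸ lift_fn hj' (mfun_of hr').1)
    subst h1
    have h2 : rho m = rho m' := lift_inj hj hj' (mfun_of hr).1 (mfun_of hr').1 e
    rw [rho_inj hm hm' h2, lift_index hj hj' hr hr' e]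
  · intro f hf
    obtain ⟨n, hn, j, hj, m, hm, rfl⟩ := (mem_CK goodK1).1 hf
    obtain ⟨m', hm', rfl⟩ := rho_surj hm
    exact ⟨lift n j m', lift_mem_CK goodK2 hn hj hm', ap_Psi hn hj hm'⟩

theorem Psi_iso : IsCloneIso (om : M) (CK K2) om (CK K1) Psi := by
  refine ⟨Psi_bij, ?_, ?_, ?_⟩
  · intro n f hf ho
    obtain ⟨j, hj, m, hm, rfl⟩ := mem_CK_op goodK2 hf ho
    rw [ap_Psi ho.1 hj hm]
    exact isOp_lift ho.1 hj (mfun_of (rho_K1 hm).mem).1
  · intro n hn j hj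
    rw [proj_eq hj, ap_Psi hn hj (Or.inl NN_idf), rho_not NN_idf.not_Chg]
  · intro n k f G hf ho hG
    obtain ⟨j, hj, m, hm, rfl⟩ := mem_CK_op goodK2 hf ho
    obtain ⟨i, hi, m', hm', e⟩ := mem_CK_op goodK2 (hG.1.2 j hj) (hG.2 j hj)
    have hk := (hG.2 j hj).1
    rw [comp_lift hj hi (fun l hl => (hG.2 l hl).2.2) e,
      ap_Psi hk hi (goodK2.cmp _ _ hm hm'), ap_Psi ho.1 hj hm, rho_cmp hm.mem hm'.mem]
    symm
    apply comp_lift hj hi
    · intro l hl
      rw [ap_lam hl]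
      obtain ⟨i', hi', m1, hm1, e'⟩ := mem_CK_op goodK2 (hG.1.2 l hl) (hG.2 l hl)
      rw [e', ap_Psi hk hi' hm1]
      exact lift_fn hi' (mfun_of (rho_K1 hm1).mem).1
    · rw [ap_lam hj, e, ap_Psi hk hi hm']

/-! ### there is no continuous isomorphism -/

theorem no_cont {φ : M} (hφ : IsCloneIso (om : M) (CK K2) om (CK K1) φ) :
    ¬ IsCont (om : M) (CK K2) om φ := by
  intro hcont
  obtain ⟨⟨⟨hfn, hinj⟩, hsurj⟩, har, _, hcomp⟩ := hφ
  have hop : ∀ m : M, NN m ∨ HH m → IsOp om one (lift one emp m) := fun m hm =>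
    isOp_lift one_mem_om emp_mem_one (mfun_of hm).1
  have hmem : ∀ m : M, K2 m → lift one emp m ∈ CK (K2 : M → Prop) := fun m hm =>
    lift_mem_CK goodK2 one_mem_om emp_mem_one hm
  -- the map of the unary members
  have hval : ∀ m : M, K2 m → ∃ m', K1 m' ∧ ap φ (lift one emp m) = lift one emp m' :=
    fun m hm => mem_CK_unary goodK1 (hfn.2 _ (hmem m hm)) (har _ _ (hmem m hm) (hop m hm.mem))
  have hlinj : ∀ m m' : M, NN m ∨ HH m → NN m' ∨ HH m' →
      lift one emp m = lift one emp m' → m = m' := fun m m' hm hm' e =>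
    lift_inj emp_mem_one emp_mem_one (mfun_of hm).1 (mfun_of hm').1 e
  -- unary members are images of unary members
  have hsur : ∀ m' : M, K1 m' → ∃ m, K2 m ∧ ap φ (lift one emp m) = lift one emp m' := by
    intro m' hm'
    obtain ⟨f, hf, e⟩ := hsurj _ (lift_mem_CK goodK1 one_mem_om emp_mem_one hm')
    obtain ⟨n, hn, j, hj, m, hm, rfl⟩ := (mem_CK goodK2).1 hf
    have h1 := har n _ hf (isOp_lift hn hj (mfun_of hm.mem).1)
    rw [e] at h1
    have h2 : n = one := arity_unique h1.2.2 (hop m' hm'.mem).2.2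
    subst h2
    rw [mem_one.1 hj] at e
    exact ⟨m, hm, e⟩
  have hmul : ∀ a b a' b' : M, K2 a → K2 b → K1 a' → K1 b' →
      ap φ (lift one emp a) = lift one emp a' → ap φ (lift one emp b) = lift one emp b' →
      ap φ (lift one emp (cmp a b)) = lift one emp (cmp a' b') := by
    intro a b a' b' ha hb ha' hb' e1 e2
    have h1 := hcomp one one (lift one emp a) (lam one fun _ => lift one emp b) (hmem a ha)
      (hop a ha.mem) (isTuple_unary goodK2 hb)
    rw [comp_unary goodK2 hb, e1] at h1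
    rw [h1]
    have h2 : (lam one fun i => ap φ (ap (lam one fun _ => lift one emp b) i)) =
        lam one fun _ => lift one emp b' := by
      refine fd_ext lam_fd lam_fd fun i hi => ?_
      rw [ap_lam hi, ap_lam hi, ap_lam hi, e2]
    rw [h2, comp_unary goodK1 hb']
  -- members of the second kind go to members of the second kind
  have hH : ∀ y y' : M, H2 y → K1 y' → ap φ (lift one emp y) = lift one emp y' → H1 y' := by
    intro y y' hy hy' e
    obtain ⟨a, b, ha, hb, hab, he⟩ := exists_twins hy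
    obtain ⟨a', ha', ea⟩ := hval a ha
    obtain ⟨b', hb', eb⟩ := hval b hb
    refine H1_of_twins hy' ha' hb' ?_ ?_
    · rintro rfl
      exact hab (hlinj _ _ ha.mem hb.mem (hinj _ (hmem a ha) _ (hmem b hb) (ea.trans eb.symm)))
    · refine hlinj _ _ (goodK1.cmp _ _ hy' ha').mem (goodK1.cmp _ _ hy' hb').mem ?_
      rw [← hmul y a y' a' (Or.inr hy) ha hy' ha' e ea, ← hmul y b y' b' (Or.inr hy) hb hy' hb' e eb,
        he]
  -- a member whose image has no invariant has no invariant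
  have hfree : ∀ m m' : M, K2 m → K1 m' → ap φ (lift one emp m) = lift one emp m' →
      HH m' → ¬ II m' → HH m ∧ ¬ II m := by
    intro m m' hm hm' e hH' hI'
    obtain ⟨x2, hx2, hne, htw⟩ := exists_twin1 hH' hI'
    obtain ⟨m2, hm2, e2⟩ := hsur x2 hx2
    refine of_twin2 hm hm2 ?_ ?_
    · rintro rfl
      exact hne (hlinj _ _ hx2.mem hm'.mem (e2.symm.trans e))
    · intro y hy
      obtain ⟨y', hy', ey⟩ := hval y (Or.inr hy)
      have h1 := htw y' (hH y y' hy hy' ey)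
      have h2 := hmul y m y' m' (Or.inr hy) hm hy' hm' ey e
      have h3 := hmul y m2 y' x2 (Or.inr hy) hm2 hy' hx2 ey e2
      rw [h1, ← h3] at h2
      have hc1 := goodK2.cmp _ _ (Or.inr hy) hm
      have hc2 := goodK2.cmp _ _ (Or.inr hy) hm2
      exact hlinj _ _ hc1.mem hc2.mem (hinj _ (hmem _ hc1) _ (hmem _ hc2) h2)
  -- the point of discontinuity
  obtain ⟨x0, hx0, hx0I, hx0l⟩ := exists_free (one : M) (Or.inr rfl)
  obtain ⟨y0, hy0, e0⟩ := hsur x0 (Or.inr (H1_of hx0 hx0I))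
  obtain ⟨hy0H, hy0I⟩ := hfree y0 x0 hy0 (Or.inr (H1_of hx0 hx0I)) e0 hx0 hx0I
  have hc : IsFn (lam one fun _ => (emp : M)) one om := cst_fn emp_mem_om
  obtain ⟨A, hA, hAo, hA'⟩ := hcont one (lift one emp y0) (hmem y0 hy0) (hop y0 hy0.mem)
    (sg (lam one fun _ => (emp : M))) (isFinite_iff.2 (kfin_sg _)) (by
      intro z hz
      rw [mem_sg.1 hz]
      exact mem_Fn.2 hc)
  obtain ⟨h', hH2, hI2, hF⟩ := approx2 (F := img A fun t => ap t emp) hy0H hy0I
    (kfin_img (isFinite_iff.1 hA)) (by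
      intro z hz
      obtain ⟨t, ht, rfl⟩ := mem_img.1 hz
      exact (mem_Fn.1 (hAo t ht)).2 emp emp_mem_one)
  have key := hA' (lift one emp h') (hmem h' (Or.inr hH2)) (hop h' (Or.inr hH2.1)) (by
    intro t ht
    have ht' := mem_Fn.1 (hAo t ht)
    rw [ap_lift ht', ap_lift ht']
    exact hF _ (mem_img.2 ⟨t, ht, rfl⟩)) (lam one fun _ => (emp : M)) (by simp)
  obtain ⟨z', hz', ez⟩ := hval h' (Or.inr hH2)
  rw [ez, e0, ap_lift hc, ap_lift hc, ap_lam emp_mem_one, hx0l] at key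
  obtain ⟨h3, h4⟩ := K1_label hz' key
  exact (hfree h' z' (Or.inr hH2) hz' ez h3 h4).2 hI2

end Pool.Agent.helper31.ZF
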