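import Pool.Agent.helper31.ZFFin

/-!
# The binary counter and a generic family of finite sets
-/

namespace Pool.Agent.helper31.ZF

universe u

variable {M : Type u} [ZFModel M]

/-- The next finite set. -/
noncomputable def nxt (s : M) : M := ins (least fun i => i ∉ s) (df s (least fun i => i ∉ s))

instance instFpNxt {n : ℕ} {F : (Fin n → M) → M} [Fp F] :
    Fp (fun v => nxt (F v)) := Fp.op1 (by unfold nxt; infer_instance) F

/-- The binary counter as a set. -/
noncomputable def EC : M := (exists_rec (emp : M) (fun _ s => nxt s)).choose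

theorem EC_fd : IsFD (EC : M) om := (exists_rec (emp : M) (fun _ s => nxt s)).choose_spec.1

/-- The binary counter. -/
noncomputable def Ec (n : M) : M := ap EC n

instance instFpEc {n : ℕ} {F : (Fin n → M) → M} [Fp F] :
    Fp (fun v => Ec (F v)) := by unfold Ec; infer_instance

theorem Ec_emp : Ec emp = (emp : M) :=
  (exists_rec (emp : M) (fun _ s => nxt s)).choose_spec.2.1

theorem Ec_suc {n : M} (hn : n ∈ (om : M)) : Ec (suc n) = nxt (Ec n) :=
  (exists_rec (emp : M) (fun _ s => nxt s)).choose_spec.2.2 n hn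

theorem Ec_sub : ∀ n, n ∈ (om : M) → Ec n ⊆ n := by
  apply om_ind
  · rw [Ec_emp]
    exact Sub.refl _
  · intro n hn ih
    rw [Ec_suc hn]
    have h1 : n ∉ Ec n := fun h => not_mem_self n (ih n h)
    obtain ⟨⟨h2, h3⟩, h4⟩ := least_spec (P := fun i => i ∉ Ec n) ⟨n, hn, h1⟩
    intro z hz
    unfold nxt at hz
    rcases mem_ins.1 hz with rfl | hz
    · rcases om_tri h2 hn with h | h | h
      · exact mem_suc.2 (Or.inr h)
      · exact mem_suc.2 (Or.inl h)
      · exact absurd h1 (h4 n h)
    · exact mem_suc.2 (Or.inr (ih z (mem_df.1 hz).1))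

theorem Ec_surj_aux : ∀ m, m ∈ (om : M) → ∀ t, (∀ x, x ∈ m → x ∉ t) → ∀ a, a ∈ (om : M) →
    Ec a = t → ∀ s, s ⊆ m → ∃ a', a' ∈ (om : M) ∧ Ec a' = un s t := by
  apply om_ind
  · intro t _ a ha hat s hs
    refine ⟨a, ha, ?_⟩
    rw [hat]
    apply ext
    intro z
    rw [mem_un]
    exact ⟨Or.inr, fun h => h.elim (fun h => absurd (hs z h) (not_mem_emp z)) id⟩
  · intro m hm ih t ht a ha hat s hs
    have ht' : ∀ x, x ∈ m → x ∉ t := fun x hx => ht x (mem_suc.2 (Or.inr hx))
    have hmt : m ∉ t := ht m (by simp)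
    by_cases hms : m ∈ s
    · obtain ⟨a1, ha1, h1⟩ := ih t ht' a ha hat m (Sub.refl m)
      -- the next set after `m ∪ t` is `t ∪ {m}`
      have h2 : Ec (suc a1) = ins m t := by
        rw [Ec_suc ha1, h1]
        have hm1 : m ∉ un m t := by
          rw [mem_un]
          rintro (h | h)
          · exact not_mem_self m h
          · exact hmt h
        obtain ⟨⟨h2, h3⟩, h4⟩ := least_spec (P := fun i => i ∉ un m t) ⟨m, hm, hm1⟩
        have h5 : least (fun i => i ∉ un m t) = m := by
          rcases om_tri h2 hm with h | h | h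
          · exact absurd (mem_un.2 (Or.inl h)) h3
          · exact h
          · exact absurd hm1 (h4 m h)
        unfold nxt
        rw [h5]
        apply ext
        intro z
        rw [mem_ins, mem_ins, mem_df, mem_un]
        constructor
        · rintro (h | ⟨h | h, h'⟩)
          · exact Or.inl h
          · exact absurd h h'
          · exact Or.inr h
        · rintro (h | h)
          · exact Or.inl h
          · exact Or.inr ⟨Or.inr h, fun h' => ht' z h' h⟩
      obtain ⟨a2, ha2, h3⟩ := ih (ins m t) (by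
        intro x hx hx'
        rcases mem_ins.1 hx' with rfl | hx'
        · exact not_mem_self _ hx
        · exact ht' x hx hx') (suc a1) (suc_mem_om ha1) h2 (df s (sg m)) (by
        intro z hz
        rw [mem_df, mem_sg] at hz
        rcases mem_suc.1 (hs z hz.1) with h | h
        · exact absurd h hz.2
        · exact h)
      refine ⟨a2, ha2, ?_⟩
      rw [h3]
      apply ext
      intro z
      rw [mem_un, mem_un, mem_ins, mem_df, mem_sg]
      constructor
      · rintro (h | rfl | h)
        · exact Or.inl h.1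
        · exact Or.inl hms
        · exact Or.inr h
      · rintro (h | h)
        · by_cases hz : z = m
          · exact Or.inr (Or.inl hz)
          · exact Or.inl ⟨h, hz⟩
        · exact Or.inr (Or.inr h)
    · refine ih t ht' a ha hat s ?_
      intro z hz
      rcases mem_suc.1 (hs z hz) with h | h
      · subst h
        exact absurd hz hms
      · exact h

theorem Ec_surj {s : M} (hs : Kfin s) (h : s ⊆ om) : ∃ a, a ∈ (om : M) ∧ Ec a = s := by
  obtain ⟨n, hn, hsn⟩ := kfin_bdd hs h
  obtain ⟨a, ha, h1⟩ := Ec_surj_aux n hn emp (fun x _ => not_mem_emp x) emp emp_mem_om Ec_emp s hsn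
  refine ⟨a, ha, h1.trans ?_⟩
  exact ext fun z => by simp

/-- The code of a finite set. -/
noncomputable def cd (s : M) : M := least fun i => Ec i = s

instance instFpCd {n : ℕ} {F : (Fin n → M) → M} [Fp F] :
    Fp (fun v => cd (F v)) := Fp.op1 (by unfold cd; infer_instance) F

theorem cd_spec {s : M} (hs : Kfin s) (h : s ⊆ om) : cd s ∈ (om : M) ∧ Ec (cd s) = s :=
  (least_spec (P := fun i => Ec i = s) (Ec_surj hs h)).1

/-- The generic family of finite sets. -/
def Pf (s : M) : Prop :=
  ∃ x, x ∈ s ∧ (∀ z, z ∈ s → z = x ∨ z ∈ x) ∧ cd (df s (sg x)) ∈ Ec x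

instance instDpPf {n : ℕ} {F : (Fin n → M) → M} [Fp F] :
    Dp (fun v => Pf (F v)) := Dp.subst1 (by unfold Pf; infer_instance) F

theorem not_Pf_emp : ¬ Pf (emp : M) := by
  rintro ⟨x, hx, _⟩
  exact not_mem_emp x hx

/-- The set of natural numbers other than `0`, `1`. -/
noncomputable def Bs : M := df om (pr emp one)

theorem mem_Bs {x : M} : x ∈ (Bs : M) ↔ x ∈ (om : M) ∧ x ≠ emp ∧ x ≠ one := by
  unfold Bs
  rw [mem_df, mem_pr, not_or]

theorem Bs_sub : (Bs : M) ⊆ om := fun _ hx => (mem_Bs.1 hx).1

/-- The extension property. -/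
theorem Pf_ext {X S : M} (hX : Kfin X) (hXo : X ⊆ om) (hS : S ⊆ pw X) :
    ∃ y, y ∈ (Bs : M) ∧ y ∉ X ∧ ∀ s, s ⊆ X → (Pf (ins y s) ↔ s ∈ S) := by
  have hsub : ∀ s, s ⊆ X → Kfin s ∧ s ⊆ om := fun s hs => ⟨kfin_sub hX hs, Sub.trans hs hXo⟩
  have hpo : img (pw X) cd ⊆ om := by
    intro z hz
    obtain ⟨s, hs, rfl⟩ := mem_img.1 hz
    obtain ⟨h1, h2⟩ := hsub s (mem_pw.1 hs)
    exact (cd_spec h1 h2).1
  obtain ⟨n, hn, hbd⟩ := kfin_bdd (s := un (un X (img (pw X) cd)) (pr emp one))
    (kfin_un (kfin_un hX (kfin_img (kfin_pw hX))) (by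
      have : (pr emp one : M) = ins one (sg emp) := ext fun z => by simp [or_comm]
      rw [this]
      exact kfin_ins (kfin_sg _) _)) (by
    intro z hz
    rcases mem_un.1 hz with hz | hz
    · rcases mem_un.1 hz with hz | hz
      · exact hXo z hz
      · exact hpo z hz
    · rcases mem_pr.1 hz with rfl | rfl
      · exact emp_mem_om
      · exact suc_mem_om emp_mem_om)
  have hT : Kfin (ins n (img S cd)) := kfin_ins (kfin_img (kfin_sub (kfin_pw hX) hS)) n
  have hTo : ins n (img S cd) ⊆ om := by
    intro z hz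
    rcases mem_ins.1 hz with rfl | hz
    · exact hn
    · obtain ⟨s, hs, rfl⟩ := mem_img.1 hz
      exact hpo _ (mem_img.2 ⟨s, hS s hs, rfl⟩)
  obtain ⟨hy, hEy⟩ := cd_spec hT hTo
  set y := cd (ins n (img S cd)) with hydef
  have hny : n ∈ y := Ec_sub y hy n (by rw [hEy]; simp)
  have hXy : ∀ x, x ∈ X → x ∈ y := fun x hx =>
    om_trans' hy hny (hbd x (mem_un.2 (Or.inl (mem_un.2 (Or.inl hx)))))
  refine ⟨y, mem_Bs.2 ⟨hy, ?_, ?_⟩, fun h => not_mem_self y (hXy y h), ?_⟩
  · rintro h
    have : emp ∈ n := hbd _ (mem_un.2 (Or.inr (by simp)))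
    rw [h] at hny
    exact not_mem_emp _ hny
  · intro h
    have : one ∈ n := hbd _ (mem_un.2 (Or.inr (by simp)))
    rw [h] at hny
    exact not_mem_cycle this hny
  · intro s hs
    have hys : y ∉ s := fun h => not_mem_self y (hXy y (hs y h))
    have hdf : df (ins y s) (sg y) = s := by
      apply ext
      intro z
      rw [mem_df, mem_ins, mem_sg]
      constructor
      · rintro ⟨h | h, h'⟩
        · exact absurd h h'
        · exact h
      · intro h
        exact ⟨Or.inr h, fun e => hys (e ▸ h)⟩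
    constructor
    · rintro ⟨x, hx, hmax, hcd⟩
      have hxy : x = y := by
        rcases mem_ins.1 hx with h | h
        · exact h
        · rcases hmax y (by simp) with h' | h'
          · exact h'.symm
          · exact absurd h' (not_mem_cycle (hXy x (hs x h)))
      subst hxy
      rw [hdf, hEy] at hcd
      rcases mem_ins.1 hcd with h | h
      · exfalso
        have : cd s ∈ n := hbd _ (mem_un.2 (Or.inl (mem_un.2 (Or.inr
          (mem_img.2 ⟨s, mem_pw.2 hs, rfl⟩)))))
        rw [h] at this
        exact not_mem_self n this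
      · obtain ⟨s', hs', he⟩ := mem_img.1 h
        obtain ⟨h1, h2⟩ := hsub s hs
        obtain ⟨h3, h4⟩ := hsub s' (mem_pw.1 (hS s' hs'))
        have : s = s' := by
          rw [← (cd_spec h1 h2).2, he, (cd_spec h3 h4).2]
        rw [this]
        exact hs'
    · intro h
      refine ⟨y, by simp, ?_, ?_⟩
      · intro z hz
        rcases mem_ins.1 hz with h | h
        · exact Or.inl h
        · exact Or.inr (hXy z (hs z h))
      · rw [hdf, hEy]
        exact mem_ins.2 (Or.inr (mem_img.2 ⟨s, h, rfl⟩))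

end Pool.Agent.helper31.ZF
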