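import Pool.Agent.helper31.ZFStmt

/-!
# Definability with parameters in a model of ZF
-/

namespace Pool.Agent.helper31.ZF

universe u

/-! ### assignments -/

section Push

variable {M : Type u} {n : ℕ}

@[simp] theorem push_castSucc (v : Fin n → M) (x : M) (i : Fin n) :
    push v x i.castSucc = v i := by
  simp [push]

@[simp] theorem push_last (v : Fin n → M) (x : M) : push v x (Fin.last n) = x := by
  simp [push]

theorem push_init (w : Fin (n + 1) → M) :
    push (fun i => w i.castSucc) (w (Fin.last n)) = w := by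
  funext i
  rcases Fin.eq_castSucc_or_eq_last i with ⟨j, rfl⟩ | rfl
  · simp
  · simp

/-- Concatenation of assignments. -/
def app {m n : ℕ} (p : Fin m → M) (v : Fin n → M) : Fin (m + n) → M :=
  fun i => if h : i.val < m then p ⟨i.val, h⟩ else v ⟨i.val - m, by omega⟩

theorem app_push {m n : ℕ} (p : Fin m → M) (v : Fin n → M) (x : M) :
    app p (push v x) = push (app p v) x := by
  funext i
  unfold app push
  by_cases h1 : i.val < m
  · simp [h1, show i.val < m + n by omega]
  · by_cases h2 : i.val < m + n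
    · simp [h1, h2, show i.val - m < n by omega]
    · simp [h1, h2, show ¬ (i.val - m < n) by omega]

end Push

/-! ### renaming -/

/-- Renaming of variables. -/
def Fml.rename : {n m : ℕ} → (Fin n → Fin m) → Fml n → Fml m
  | _, _, ρ, .mem i j => .mem (ρ i) (ρ j)
  | _, _, ρ, .eq i j => .eq (ρ i) (ρ j)
  | _, _, ρ, .neg φ => .neg (φ.rename ρ)
  | _, _, ρ, .and φ ψ => .and (φ.rename ρ) (ψ.rename ρ)
  | _, m, ρ, .all φ => .all (φ.rename (push (fun i => (ρ i).castSucc) (Fin.last m)))

theorem sat_rename {M : Type u} (E : M → M → Prop) {n : ℕ} (φ : Fml n) :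
    ∀ {m : ℕ} (ρ : Fin n → Fin m) (v : Fin m → M),
      Sat E (φ.rename ρ) v ↔ Sat E φ (fun i => v (ρ i)) := by
  induction φ with
  | mem i j => intro m ρ v; rfl
  | eq i j => intro m ρ v; rfl
  | neg φ ih => intro m ρ v; exact not_congr (ih ρ v)
  | and φ ψ ih1 ih2 => intro m ρ v; exact and_congr (ih1 ρ v) (ih2 ρ v)
  | all φ ih =>
    intro m ρ v
    refine forall_congr' fun x => ?_
    change Sat E (φ.rename (push (fun i => (ρ i).castSucc) (Fin.last m))) (push v x) ↔
      Sat E φ (push (fun i => v (ρ i)) x)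
    rw [ih]
    have : (fun i => push v x (push (fun i => (ρ i).castSucc) (Fin.last m) i)) =
        push (fun i => v (ρ i)) x := by
      funext i
      rcases Fin.eq_castSucc_or_eq_last i with ⟨j, rfl⟩ | rfl
      · simp
      · simp
    rw [this]

variable {M : Type u} [ZFModel M]

theorem mem_def (x y : M) : x ∈ y ↔ ZFModel.E x y := Iff.rfl

/-- Definable relations (with parameters). -/
def D {n : ℕ} (P : (Fin n → M) → Prop) : Prop :=
  ∃ (m : ℕ) (φ : Fml (m + n)) (p : Fin m → M), ∀ v, P v ↔ Sat ZFModel.E φ (app p v)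

theorem D.congr {n : ℕ} {P Q : (Fin n → M) → Prop} (h : D P) (e : ∀ v, Q v ↔ P v) : D Q := by
  obtain ⟨m, φ, p, hp⟩ := h
  exact ⟨m, φ, p, fun v => (e v).trans (hp v)⟩

theorem D.reindex {k n : ℕ} {P : (Fin k → M) → Prop} (h : D P) (ρ : Fin k → Fin n) :
    D (fun v : Fin n → M => P (fun i => v (ρ i))) := by
  obtain ⟨m, φ, p, hp⟩ := h
  let σ : Fin (m + k) → Fin (m + n) := fun i =>
    if h : i.val < m then ⟨i.val, by omega⟩ else ⟨m + (ρ ⟨i.val - m, by omega⟩).val, by omega⟩
  refine ⟨m, φ.rename σ, p, fun v => ?_⟩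
  change P (fun i => v (ρ i)) ↔ _
  rw [sat_rename, hp]
  have : (fun i => app p v (σ i)) = app p (fun i => v (ρ i)) := by
    funext i
    unfold app
    by_cases h : i.val < m
    · simp [σ, h]
    · simp [σ, h]
  rw [this]

theorem D.not {n : ℕ} {P : (Fin n → M) → Prop} (h : D P) : D (fun v => ¬ P v) := by
  obtain ⟨m, φ, p, hp⟩ := h
  exact ⟨m, .neg φ, p, fun v => not_congr (hp v)⟩

theorem D.and {n : ℕ} {P Q : (Fin n → M) → Prop} (hP : D P) (hQ : D Q) :
    D (fun v => P v ∧ Q v) := by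
  obtain ⟨m1, φ1, p1, h1⟩ := hP
  obtain ⟨m2, φ2, p2, h2⟩ := hQ
  let σ1 : Fin (m1 + n) → Fin (m1 + m2 + n) := fun i =>
    if h : i.val < m1 then ⟨i.val, by omega⟩ else ⟨m2 + i.val, by omega⟩
  let σ2 : Fin (m2 + n) → Fin (m1 + m2 + n) := fun i => ⟨m1 + i.val, by omega⟩
  refine ⟨m1 + m2, .and (φ1.rename σ1) (φ2.rename σ2), app p1 p2, fun v => ?_⟩
  change (P v ∧ Q v) ↔ (Sat _ _ _ ∧ Sat _ _ _)
  rw [sat_rename, sat_rename, h1, h2]
  have e1 : (fun i => app (app p1 p2) v (σ1 i)) = app p1 v := by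
    funext i
    unfold app
    by_cases h : i.val < m1
    · simp [σ1, h, show i.val < m1 + m2 by omega]
    · have h' : ¬ (m2 + i.val < m1 + m2) := by omega
      simp [σ1, h, h', show m2 + i.val - (m1 + m2) = i.val - m1 by omega]
  have e2 : (fun i => app (app p1 p2) v (σ2 i)) = app p2 v := by
    funext i
    unfold app
    by_cases h : i.val < m2
    · simp [σ2, h]
    · simp [σ2, h, show m1 + i.val - (m1 + m2) = i.val - m2 by omega]
  rw [e1, e2]

theorem D.or {n : ℕ} {P Q : (Fin n → M) → Prop} (hP : D P) (hQ : D Q) :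
    D (fun v => P v ∨ Q v) :=
  ((hP.not).and (hQ.not)).not.congr (fun v => by tauto)

theorem D.imp {n : ℕ} {P Q : (Fin n → M) → Prop} (hP : D P) (hQ : D Q) :
    D (fun v => P v → Q v) :=
  (hP.and hQ.not).not.congr (fun v => by tauto)

theorem D.iff {n : ℕ} {P Q : (Fin n → M) → Prop} (hP : D P) (hQ : D Q) :
    D (fun v => P v ↔ Q v) :=
  ((hP.imp hQ).and (hQ.imp hP)).congr (fun v => by tauto)

theorem D.all {n : ℕ} {P : (Fin n → M) → M → Prop}
    (h : D (fun w : Fin (n + 1) → M => P (fun i => w i.castSucc) (w (Fin.last n)))) :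
    D (fun v => ∀ x, P v x) := by
  obtain ⟨m, φ, p, hp⟩ := h
  refine ⟨m, .all φ, p, fun v => ?_⟩
  change _ ↔ ∀ x, Sat _ φ (push (app p v) x)
  refine forall_congr' fun x => ?_
  rw [← app_push, ← hp]
  simp

theorem D.ex {n : ℕ} {P : (Fin n → M) → M → Prop}
    (h : D (fun w : Fin (n + 1) → M => P (fun i => w i.castSucc) (w (Fin.last n)))) :
    D (fun v => ∃ x, P v x) :=
  (D.all (P := fun v x => ¬ P v x) h.not).not.congr (fun v => by push Not; rfl)

theorem D.eqVar {n : ℕ} (i j : Fin n) : D (fun v : Fin n → M => v i = v j) := by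
  refine ⟨0, .eq (i.cast (by omega)) (j.cast (by omega)), fun i => i.elim0, fun v => ?_⟩
  change _ ↔ app _ v _ = app _ v _
  simp [app]

theorem D.memVar {n : ℕ} (i j : Fin n) : D (fun v : Fin n → M => v i ∈ v j) := by
  refine ⟨0, .mem (i.cast (by omega)) (j.cast (by omega)), fun i => i.elim0, fun v => ?_⟩
  change _ ↔ ZFModel.E (app _ v _) (app _ v _)
  simp [app, mem_def]

theorem D.eqConst {n : ℕ} (i : Fin n) (c : M) : D (fun v : Fin n → M => v i = c) := by
  refine ⟨1, .eq ⟨i.val + 1, by omega⟩ ⟨0, by omega⟩, fun _ => c, fun v => ?_⟩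
  change _ ↔ app _ v _ = app _ v _
  simp [app]

theorem D.constProp {n : ℕ} (c : Prop) : D (fun _ : Fin n → M => c) := by
  by_cases hc : c
  · refine D.congr (P := fun v : Fin n → M => ∀ x : M, x = x) (D.all ?_) (fun v => by simp [hc])
    exact D.eqVar _ _
  · refine D.congr (P := fun v : Fin n → M => ¬ ∀ x : M, x = x) (D.not (D.all ?_))
      (fun v => by simp [hc])
    exact D.eqVar _ _

/-- Definable functions. -/
def DF {n : ℕ} (F : (Fin n → M) → M) : Prop :=
  D (fun w : Fin (n + 1) → M => w (Fin.last n) = F (fun i => w i.castSucc))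

theorem DF.var {n : ℕ} (i : Fin n) : DF (fun v : Fin n → M => v i) := D.eqVar _ _

theorem DF.const {n : ℕ} (c : M) : DF (fun _ : Fin n → M => c) := D.eqConst _ _

/-- Substitution of definable functions in a definable relation. -/
theorem D.subst1 {n : ℕ} {R : M → Prop} (hR : D (fun v : Fin 1 → M => R (v 0)))
    {F : (Fin n → M) → M} (hF : DF F) : D (fun v => R (F v)) := by
  refine D.congr (P := fun v => ∃ y, y = F v ∧ R y) (D.ex (D.and ?_ ?_)) (fun v => by simp)
  · exact hF
  · exact hR.reindex (fun _ => Fin.last n)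

theorem DF.weaken {n : ℕ} {F : (Fin n → M) → M} (hF : DF F) :
    DF (fun w : Fin (n + 1) → M => F (fun i => w i.castSucc)) := by
  have := D.reindex hF (push (fun i : Fin n => i.castSucc.castSucc) (Fin.last (n + 1)))
  refine this.congr (fun v => ?_)
  simp

theorem D.subst2 {n : ℕ} {R : M → M → Prop} (hR : D (fun v : Fin 2 → M => R (v 0) (v 1)))
    {F G : (Fin n → M) → M} (hF : DF F) (hG : DF G) : D (fun v => R (F v) (G v)) := by
  refine D.congr (P := fun v => ∃ y, y = F v ∧ R y (G v)) (D.ex (D.and hF ?_)) (fun v => by simp)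
  refine D.congr (P := fun w : Fin (n + 1) → M =>
    ∃ z, z = G (fun i => w i.castSucc) ∧ R (w (Fin.last n)) z) (D.ex (D.and hG.weaken ?_))
    (fun v => by simp)
  exact hR.reindex ![(Fin.last n).castSucc, Fin.last (n + 1)]

theorem D.subst3 {n : ℕ} {R : M → M → M → Prop}
    (hR : D (fun v : Fin 3 → M => R (v 0) (v 1) (v 2)))
    {F G H : (Fin n → M) → M} (hF : DF F) (hG : DF G) (hH : DF H) :
    D (fun v => R (F v) (G v) (H v)) := by
  refine D.congr (P := fun v => ∃ y, y = F v ∧ R y (G v) (H v)) (D.ex (D.and hF ?_))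
    (fun v => by simp)
  refine D.congr (P := fun w : Fin (n + 1) → M =>
    ∃ z, z = G (fun i => w i.castSucc) ∧ R (w (Fin.last n)) z (H (fun i => w i.castSucc)))
    (D.ex (D.and hG.weaken ?_)) (fun v => by simp)
  refine D.congr (P := fun w : Fin (n + 1 + 1) → M =>
    ∃ t, t = H (fun i => w i.castSucc.castSucc) ∧ R (w (Fin.last n).castSucc)
      (w (Fin.last (n + 1))) t)
    (D.ex (D.and hH.weaken.weaken ?_)) (fun v => by simp)
  exact hR.reindex ![(Fin.last n).castSucc.castSucc, (Fin.last (n + 1)).castSucc,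
    Fin.last (n + 2)]

theorem D.subst4 {n : ℕ} {R : M → M → M → M → Prop}
    (hR : D (fun v : Fin 4 → M => R (v 0) (v 1) (v 2) (v 3)))
    {F G H K : (Fin n → M) → M} (hF : DF F) (hG : DF G) (hH : DF H) (hK : DF K) :
    D (fun v => R (F v) (G v) (H v) (K v)) := by
  refine D.congr (P := fun v => ∃ y, y = F v ∧ R y (G v) (H v) (K v)) (D.ex (D.and hF ?_))
    (fun v => by simp)
  refine D.congr (P := fun w : Fin (n + 1) → M =>
    ∃ z, z = G (fun i => w i.castSucc) ∧ R (w (Fin.last n)) z (H (fun i => w i.castSucc))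
      (K (fun i => w i.castSucc)))
    (D.ex (D.and hG.weaken ?_)) (fun v => by simp)
  refine D.congr (P := fun w : Fin (n + 1 + 1) → M =>
    ∃ t, t = H (fun i => w i.castSucc.castSucc) ∧ R (w (Fin.last n).castSucc)
      (w (Fin.last (n + 1))) t (K (fun i => w i.castSucc.castSucc)))
    (D.ex (D.and hH.weaken.weaken ?_)) (fun v => by simp)
  refine D.congr (P := fun w : Fin (n + 1 + 1 + 1) → M =>
    ∃ t, t = K (fun i => w i.castSucc.castSucc.castSucc) ∧ R (w (Fin.last n).castSucc.castSucc)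
      (w (Fin.last (n + 1)).castSucc) (w (Fin.last (n + 2))) t)
    (D.ex (D.and hK.weaken.weaken.weaken ?_)) (fun v => by simp)
  exact hR.reindex ![(Fin.last n).castSucc.castSucc.castSucc, (Fin.last (n + 1)).castSucc.castSucc,
    (Fin.last (n + 2)).castSucc, Fin.last (n + 3)]

theorem D.mem {n : ℕ} {F G : (Fin n → M) → M} (hF : DF F) (hG : DF G) :
    D (fun v => F v ∈ G v) := D.subst2 (D.memVar 0 1) hF hG

theorem D.eq {n : ℕ} {F G : (Fin n → M) → M} (hF : DF F) (hG : DF G) :
    D (fun v => F v = G v) := D.subst2 (D.eqVar 0 1) hF hG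

theorem D.exu {n : ℕ} {P : (Fin n → M) → M → Prop}
    (h : D (fun w : Fin (n + 1) → M => P (fun i => w i.castSucc) (w (Fin.last n)))) :
    D (fun v => ∃! x, P v x) := by
  refine D.congr (P := fun v => ∃ x, P v x ∧ ∀ y, P v y → y = x) (D.ex (D.and h (D.all
    (D.imp ?_ (D.eq (DF.var _) (DF.var _)))))) (fun v => by rfl)
  have := D.reindex h (push (fun i : Fin n => i.castSucc.castSucc) (Fin.last (n + 1)))
  refine this.congr (fun v => ?_)
  simp

/-- A function is definable if its graph is. -/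
theorem DF.of_graph {n : ℕ} {F : (Fin n → M) → M} {Q : M → (Fin n → M) → Prop}
    (h : D (fun w : Fin (n + 1) → M => Q (w (Fin.last n)) (fun i => w i.castSucc)))
    (e : ∀ z v, z = F v ↔ Q z v) : DF F :=
  D.congr h (fun w => e _ _)

theorem DF.op1 {n : ℕ} {f : M → M} (hf : D (fun v : Fin 2 → M => v 0 = f (v 1)))
    {F : (Fin n → M) → M} (hF : DF F) : DF (fun v => f (F v)) :=
  D.subst2 (R := fun z x => z = f x) hf (DF.var _) hF.weaken

theorem DF.op2 {n : ℕ} {f : M → M → M} (hf : D (fun v : Fin 3 → M => v 0 = f (v 1) (v 2)))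
    {F G : (Fin n → M) → M} (hF : DF F) (hG : DF G) : DF (fun v => f (F v) (G v)) :=
  D.subst3 (R := fun z x y => z = f x y) hf (DF.var _) hF.weaken hG.weaken

theorem DF.op3 {n : ℕ} {f : M → M → M → M}
    (hf : D (fun v : Fin 4 → M => v 0 = f (v 1) (v 2) (v 3)))
    {F G H : (Fin n → M) → M} (hF : DF F) (hG : DF G) (hH : DF H) :
    DF (fun v => f (F v) (G v) (H v)) :=
  D.subst4 (R := fun z x y t => z = f x y t) hf (DF.var _) hF.weaken hG.weaken hH.weaken

/-- Fixing all but the last variable. -/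
theorem D.fix {n : ℕ} {P : (Fin n → M) → M → Prop}
    (h : D (fun w : Fin (n + 1) → M => P (fun i => w i.castSucc) (w (Fin.last n))))
    (v : Fin n → M) : D (fun u : Fin 1 → M => P v (u 0)) := by
  obtain ⟨m, φ, p, hp⟩ := h
  refine ⟨m + n, φ, app p v, fun u => ?_⟩
  have h1 := hp (push v (u 0))
  simp only [push_castSucc, push_last] at h1
  have h2 : app (app p v) u = app p (push v (u 0)) := by
    rw [app_push]
    funext i
    rcases Fin.eq_castSucc_or_eq_last i with ⟨j, rfl⟩ | rfl
    · rw [push_castSucc]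
      unfold app
      simp
    · rw [push_last]
      unfold app
      simp
  rw [h2, ← h1]

end Pool.Agent.helper31.ZF
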