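import Pool.Agent.helper31.ZFBasic

/-!
# Functions in a model of ZF
-/

namespace Pool.Agent.helper31.ZF

universe u

variable {M : Type u} [ZFModel M]

/-- Cartesian product. -/
noncomputable def prod (A B : M) : M := sUn (img A fun a => img B fun b => op a b)

@[simp] theorem mem_prod {A B z : M} : z ∈ prod A B ↔ ∃ a, a ∈ A ∧ ∃ b, b ∈ B ∧ z = op a b := by
  unfold prod
  simp only [mem_sUn, mem_img]
  constructor
  · rintro ⟨y, ⟨a, ha, rfl⟩, hz⟩
    rw [mem_img] at hz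
    exact ⟨a, ha, hz⟩
  · rintro ⟨a, ha, hz⟩
    refine ⟨_, ⟨a, ha, rfl⟩, ?_⟩
    rw [mem_img]
    exact hz

instance instFpProd {n : ℕ} {F G : (Fin n → M) → M} [Fp F] [Fp G] :
    Fp (fun v => prod (F v) (G v)) := Fp.op2 (by unfold prod; infer_instance) F G

instance instFpAp {n : ℕ} {F G : (Fin n → M) → M} [Fp F] [Fp G] :
    Fp (fun v => ap (F v) (G v)) := Fp.op2 (by unfold ap; infer_instance) F G

instance instDpIsFD {n : ℕ} {F G : (Fin n → M) → M} [Fp F] [Fp G] :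
    Dp (fun v => IsFD (F v) (G v)) := Dp.subst2 (by unfold IsFD; infer_instance) F G

instance instDpIsFn {n : ℕ} {F G H : (Fin n → M) → M} [Fp F] [Fp G] [Fp H] :
    Dp (fun v => IsFn (F v) (G v) (H v)) := Dp.subst3 (by unfold IsFn; infer_instance) F G H

theorem IsFD.op_ap {f A x : M} (h : IsFD f A) (hx : x ∈ A) : op x (ap f x) ∈ f :=
  the_spec (h.2 x hx)

theorem IsFD.ap_eq {f A x y : M} (h : IsFD f A) (hy : op x y ∈ f) : ap f x = y := by
  obtain ⟨x', hx', y', e⟩ := h.1 _ hy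
  obtain ⟨rfl, rfl⟩ := op_inj.1 e
  exact (h.2 x hx').unique (h.op_ap hx') hy

theorem IsFD.op_mem {f A x y : M} (h : IsFD f A) : op x y ∈ f ↔ x ∈ A ∧ y = ap f x := by
  constructor
  · intro hy
    obtain ⟨x', hx', y', e⟩ := h.1 _ hy
    obtain ⟨rfl, rfl⟩ := op_inj.1 e
    exact ⟨hx', (h.ap_eq hy).symm⟩
  · rintro ⟨hx, rfl⟩
    exact h.op_ap hx

theorem IsFD.mem {f A z : M} (h : IsFD f A) : z ∈ f ↔ ∃ x, x ∈ A ∧ z = op x (ap f x) := by
  constructor
  · intro hz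
    obtain ⟨x, hx, y, rfl⟩ := h.1 z hz
    exact ⟨x, hx, by rw [h.ap_eq hz]⟩
  · rintro ⟨x, hx, rfl⟩
    exact h.op_ap hx

theorem fd_ext {f g A : M} (hf : IsFD f A) (hg : IsFD g A)
    (h : ∀ x, x ∈ A → ap f x = ap g x) : f = g := by
  apply ext
  intro z
  rw [hf.mem, hg.mem]
  constructor
  · rintro ⟨x, hx, rfl⟩
    exact ⟨x, hx, by rw [h x hx]⟩
  · rintro ⟨x, hx, rfl⟩
    exact ⟨x, hx, by rw [h x hx]⟩

theorem fn_ext {f g A B B' : M} (hf : IsFn f A B) (hg : IsFn g A B')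
    (h : ∀ x, x ∈ A → ap f x = ap g x) : f = g := fd_ext hf.1 hg.1 h

instance instFpLam {n : ℕ} {A : (Fin n → M) → M} {F : (Fin n → M) → M → M} [hA : Fp A]
    [h : Fp (fun w : Fin (n + 1) → M => F (fun i => w i.castSucc) (w (Fin.last n)))] :
    Fp (fun v => lam (A v) (fun x => F v x)) :=
  instFpImg (A := A) (F := fun v x => op x (F v x))

section lam

variable {A B : M} {F : M → M} [h : F1 F]

theorem inst_lam_aux : F1 (fun x : M => op x (F x)) := by
  have : Fp (fun v : Fin 1 → M => F (v 0)) := h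
  exact instFpOp

theorem mem_lam {z : M} : z ∈ lam A F ↔ ∃ x, x ∈ A ∧ z = op x (F x) := by
  have : F1 (fun x : M => op x (F x)) := inst_lam_aux
  exact mem_img (A := A) (F := fun x => op x (F x))

theorem lam_fd : IsFD (lam A F) A := by
  constructor
  · intro z hz
    rw [mem_lam] at hz
    obtain ⟨x, hx, rfl⟩ := hz
    exact ⟨x, hx, _, rfl⟩
  · intro x hx
    refine ⟨F x, mem_lam.2 ⟨x, hx, rfl⟩, ?_⟩
    intro y hy
    obtain ⟨x', _, e⟩ := mem_lam.1 hy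
    obtain ⟨rfl, rfl⟩ := op_inj.1 e
    rfl

theorem ap_lam {x : M} (hx : x ∈ A) : ap (lam A F) x = F x :=
  lam_fd.ap_eq (mem_lam.2 ⟨x, hx, rfl⟩)

theorem lam_fn (hF : ∀ x, x ∈ A → F x ∈ B) : IsFn (lam A F) A B :=
  ⟨lam_fd, fun x hx => by rw [ap_lam hx]; exact hF x hx⟩

end lam

theorem IsFn.eta {f A B : M} (h : IsFn f A B) : lam A (ap f) = f :=
  fd_ext lam_fd h.1 fun _ hx => ap_lam hx

@[simp] theorem mem_Fn {A B f : M} : f ∈ Fn A B ↔ IsFn f A B := by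
  refine the_mem (Q := fun f => IsFn f A B) ⟨sep (pw (prod A B)) fun f => IsFn f A B,
    fun f => ?_⟩ f
  rw [mem_sep, mem_pw]
  constructor
  · exact fun h => h.2
  · intro h
    refine ⟨?_, h⟩
    intro z hz
    obtain ⟨x, hx, rfl⟩ := h.1.mem.1 hz
    exact mem_prod.2 ⟨x, hx, _, h.2 x hx, rfl⟩

instance instFpFn {n : ℕ} {F G : (Fin n → M) → M} [Fp F] [Fp G] :
    Fp (fun v => Fn (F v) (G v)) := Fp.op2 (by unfold Fn; infer_instance) F G

instance instDpIsInj {n : ℕ} {F G H : (Fin n → M) → M} [Fp F] [Fp G] [Fp H] :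
    Dp (fun v => IsInj (F v) (G v) (H v)) := Dp.subst3 (by unfold IsInj; infer_instance) F G H

instance instDpIsBij {n : ℕ} {F G H : (Fin n → M) → M} [Fp F] [Fp G] [Fp H] :
    Dp (fun v => IsBij (F v) (G v) (H v)) := Dp.subst3 (by unfold IsBij; infer_instance) F G H

theorem op_mem_sUn {f x y : M} (h : op x y ∈ f) : x ∈ sUn (sUn f) ∧ y ∈ sUn (sUn f) := by
  constructor
  · simp only [mem_sUn]
    exact ⟨pr x y, ⟨op x y, h, by simp [op_eq]⟩, by simp⟩
  · simp only [mem_sUn]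
    exact ⟨pr x y, ⟨op x y, h, by simp [op_eq]⟩, by simp⟩

theorem mem_inv {f z : M} : z ∈ inv f ↔ ∃ x, ∃ y, op x y ∈ f ∧ z = op y x := by
  refine the_mem (Q := fun z => ∃ x, ∃ y, op x y ∈ f ∧ z = op y x)
    ⟨sep (prod (sUn (sUn f)) (sUn (sUn f))) fun z => ∃ x, ∃ y, op x y ∈ f ∧ z = op y x,
    fun z => ?_⟩ z
  rw [mem_sep]
  constructor
  · exact fun h => h.2
  · rintro ⟨x, y, h, rfl⟩
    exact ⟨mem_prod.2 ⟨y, (op_mem_sUn h).2, x, (op_mem_sUn h).1, rfl⟩, x, y, h, rfl⟩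

theorem op_mem_inv {f x y : M} : op x y ∈ inv f ↔ op y x ∈ f := by
  rw [mem_inv]
  constructor
  · rintro ⟨x', y', h, e⟩
    obtain ⟨rfl, rfl⟩ := op_inj.1 e
    exact h
  · intro h
    exact ⟨y, x, h, rfl⟩

instance instFpInv {n : ℕ} {F : (Fin n → M) → M} [Fp F] :
    Fp (fun v => inv (F v)) := Fp.op1 (by unfold inv; infer_instance) F

/-! ### set difference -/

/-- Set difference. -/
noncomputable def df (A B : M) : M := sep A fun x => x ∉ B

@[simp] theorem mem_df {A B x : M} : x ∈ df A B ↔ x ∈ A ∧ x ∉ B := by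
  unfold df
  rw [mem_sep]

instance instFpDf {n : ℕ} {F G : (Fin n → M) → M} [Fp F] [Fp G] :
    Fp (fun v => df (F v) (G v)) := Fp.op2 (by unfold df; infer_instance) F G

end Pool.Agent.helper31.ZF
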