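import Pool.Agent.helper31.ZFMon

/-!
# Homogeneity, and discontinuity of the automorphism of the monoid
-/

namespace Pool.Agent.helper31.ZF

universe u

variable {M : Type u} [ZFModel M]

/-- The type of a tuple. -/
noncomputable def tp (n t : M) : M :=
  op (op (sep n fun i => ap t i = emp) (sep n fun i => ap t i = one))
    (op (sep (prod n n) fun z => ∃ i j, z = op i j ∧ ap t i = ap t j)
      (sep (pw n) fun a => Pf (imm t a)))

instance instFpTp {n : ℕ} {F G : (Fin n → M) → M} [Fp F] [Fp G] :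
    Fp (fun v => tp (F v) (G v)) := Fp.op2 (by unfold tp; infer_instance) F G

theorem tp_mem (n t : M) :
    tp n t ∈ prod (prod (pw n) (pw n)) (prod (pw (prod n n)) (pw (pw n))) := by
  refine mem_prod.2 ⟨_, mem_prod.2 ⟨_, ?_, _, ?_, rfl⟩, _, mem_prod.2 ⟨_, ?_, _, ?_, rfl⟩, rfl⟩
  all_goals
    rw [mem_pw]
    intro z hz
    exact (mem_sep.1 hz).1

theorem tp_eq {n t t' : M} (h : tp n t = tp n t') :
    (∀ i, i ∈ n → (ap t i = emp ↔ ap t' i = emp)) ∧
    (∀ i, i ∈ n → (ap t i = one ↔ ap t' i = one)) ∧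
    (∀ i j, i ∈ n → j ∈ n → (ap t i = ap t j ↔ ap t' i = ap t' j)) ∧
    (∀ a, a ⊆ n → (Pf (imm t a) ↔ Pf (imm t' a))) := by
  unfold tp at h
  rw [op_inj, op_inj, op_inj] at h
  obtain ⟨⟨h1, h2⟩, h3, h4⟩ := h
  refine ⟨?_, ?_, ?_, ?_⟩
  · intro i hi
    have : i ∈ sep n (fun i => ap t i = emp) ↔ i ∈ sep n (fun i => ap t' i = emp) := by rw [h1]
    rw [mem_sep, mem_sep] at this
    tauto
  · intro i hi
    have : i ∈ sep n (fun i => ap t i = one) ↔ i ∈ sep n (fun i => ap t' i = one) := by rw [h2]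
    rw [mem_sep, mem_sep] at this
    tauto
  · intro i j hi hj
    have : op i j ∈ (sep (prod n n) fun z => ∃ i j, z = op i j ∧ ap t i = ap t j) ↔
        op i j ∈ (sep (prod n n) fun z => ∃ i j, z = op i j ∧ ap t' i = ap t' j) := by rw [h3]
    rw [mem_sep, mem_sep] at this
    have hij : op i j ∈ prod n n := mem_prod.2 ⟨i, hi, j, hj, rfl⟩
    constructor
    · intro e
      obtain ⟨_, i', j', e', h'⟩ := this.1 ⟨hij, i, j, rfl, e⟩
      obtain ⟨rfl, rfl⟩ := op_inj.1 e'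
      exact h'
    · intro e
      obtain ⟨_, i', j', e', h'⟩ := this.2 ⟨hij, i, j, rfl, e⟩
      obtain ⟨rfl, rfl⟩ := op_inj.1 e'
      exact h'
  · intro a ha
    have : a ∈ (sep (pw n) fun a => Pf (imm t a)) ↔ a ∈ (sep (pw n) fun a => Pf (imm t' a)) := by
      rw [h4]
    rw [mem_sep, mem_sep] at this
    have ha' : a ∈ pw n := mem_pw.2 ha
    tauto

/-- The extension of a bijection of `B` is an embedding. -/
theorem NN_mk {U : M} (hU : IsInj U Bs Bs) (hP : ∀ s, Kfin s → s ⊆ Bs → (Pf (rim U s) ↔ Pf s)) :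
    NN (mk U emp one) := by
  refine ⟨mfun_mk hU emp_mem_om one_mem_om, ap_mk_emp, ap_mk_one, ?_⟩
  intro s hs hsB
  rw [imm_mk hU hsB]
  exact hP s hs hsB

theorem inv_bij {U A B : M} (hU : IsBij U A B) : IsBij (inv U) B A ∧
    (∀ x, x ∈ A → ap (inv U) (ap U x) = x) ∧ (∀ y, y ∈ B → ap U (ap (inv U) y) = y) := by
  have hfd : IsFD (inv U) B := by
    constructor
    · intro z hz
      obtain ⟨x, y, h, rfl⟩ := mem_inv.1 hz
      obtain ⟨hx, rfl⟩ := hU.1.1.1.op_mem.1 h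
      exact ⟨_, hU.1.1.2 x hx, x, rfl⟩
    · intro y hy
      obtain ⟨x, hx, rfl⟩ := hU.2 y hy
      refine ⟨x, op_mem_inv.2 (hU.1.1.1.op_ap hx), ?_⟩
      intro x' hx'
      obtain ⟨hx1, e⟩ := hU.1.1.1.op_mem.1 (op_mem_inv.1 hx')
      exact hU.1.2 x' hx1 x hx e.symm
  have h1 : ∀ x, x ∈ A → ap (inv U) (ap U x) = x := fun x hx =>
    hfd.ap_eq (op_mem_inv.2 (hU.1.1.1.op_ap hx))
  have h2 : ∀ y, y ∈ B → ap U (ap (inv U) y) = y := by
    intro y hy
    obtain ⟨x, hx, rfl⟩ := hU.2 y hy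
    rw [h1 x hx]
  refine ⟨⟨⟨⟨hfd, ?_⟩, ?_⟩, ?_⟩, h1, h2⟩
  · intro y hy
    obtain ⟨x, hx, rfl⟩ := hU.2 y hy
    rw [h1 x hx]
    exact hx
  · intro y hy y' hy' e
    rw [← h2 y hy, ← h2 y' hy', e]
  · intro x hx
    exact ⟨_, hU.1.1.2 x hx, h1 x hx⟩

/-- Invertible members of the monoid. -/
def IsAut (g : M) : Prop := NN g ∧ ∃ g', NN g' ∧ ∀ x, x ∈ (om : M) →
  ap g' (ap g x) = x ∧ ap g (ap g' x) = x

theorem isAut_mk {U : M} (hU : IsBij U Bs Bs)
    (hP : ∀ s, Kfin s → s ⊆ Bs → (Pf (rim U s) ↔ Pf s)) : IsAut (mk U emp one) := by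
  obtain ⟨h1, h2, h3⟩ := inv_bij hU
  refine ⟨NN_mk hU.1 hP, mk (inv U) emp one, NN_mk h1.1 ?_, ?_⟩
  · intro s hs hsB
    have e : rim U (rim (inv U) s) = s := by
      apply ext
      intro z
      rw [mem_rim]
      constructor
      · rintro ⟨x, hx, hxz⟩
        obtain ⟨w, hw, hwx⟩ := mem_rim.1 hx
        obtain ⟨_, rfl⟩ := hU.1.1.1.op_mem.1 hxz
        obtain ⟨_, rfl⟩ := hU.1.1.1.op_mem.1 (op_mem_inv.1 hwx)
        exact hw
      · intro hz
        refine ⟨ap (inv U) z, mem_rim.2 ⟨z, hz, h1.1.1.1.op_ap (hsB z hz)⟩, ?_⟩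
        exact op_mem_inv.1 (h1.1.1.1.op_ap (hsB z hz))
    have hk : Kfin (rim (inv U) s) := by
      rw [← imm_mk (a := emp) (b := one) h1.1 hsB]
      exact kfin_imm hs
    have hsub : rim (inv U) s ⊆ Bs := by
      rw [← imm_mk (a := emp) (b := one) h1.1 hsB]
      exact (mfun_mk h1.1 emp_mem_om one_mem_om).imm_sub hsB
    have := hP _ hk hsub
    rw [e] at this
    exact this.symm
  · intro x hx
    rcases om_split hx with rfl | rfl | hx'
    · simp only [ap_mk_emp, and_self]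
    · simp only [ap_mk_one, and_self]
    · rw [ap_mk_Bs hx', ap_mk_Bs hx', ap_mk_Bs (hU.1.1.2 x hx'), ap_mk_Bs (h1.1.1.2 x hx')]
      exact ⟨h2 x hx', h3 x hx'⟩

/-- Tuples with the same type are conjugate. -/
theorem homog {n t t' : M} (hn : Kfin n) (ht : IsFn t n om) (ht' : IsFn t' n om)
    (h : tp n t = tp n t') : ∃ g, IsAut g ∧ ∀ i, i ∈ n → ap g (ap t i) = ap t' i := by
  obtain ⟨h1, h2, h3, h4⟩ := tp_eq h
  set f := img (sep n fun i => ap t i ∈ (Bs : M)) (fun i => op (ap t i) (ap t' i)) with hf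
  have hfm : ∀ x y, op x y ∈ f ↔ ∃ i, i ∈ n ∧ ap t i ∈ (Bs : M) ∧ x = ap t i ∧ y = ap t' i := by
    intro x y
    rw [hf, mem_img]
    constructor
    · rintro ⟨i, hi, e⟩
      rw [mem_sep] at hi
      obtain ⟨rfl, rfl⟩ := op_inj.1 e
      exact ⟨i, hi.1, hi.2, rfl, rfl⟩
    · rintro ⟨i, hi, hiB, rfl, rfl⟩
      exact ⟨i, mem_sep.2 ⟨hi, hiB⟩, rfl⟩
  have hBs : ∀ i, i ∈ n → ap t i ∈ (Bs : M) → ap t' i ∈ (Bs : M) := by
    intro i hi hiB
    rw [mem_Bs] at hiB ⊢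
    exact ⟨ht'.2 i hi, fun e => hiB.2.1 ((h1 i hi).2 e), fun e => hiB.2.2 ((h2 i hi).2 e)⟩
  have hgood : Good Pf f := by
    refine ⟨?_, ?_, ?_, ?_, ?_⟩
    · refine kfin_img (kfin_sub hn ?_)
      intro z hz
      exact (mem_sep.1 hz).1
    · intro z hz
      rw [hf, mem_img] at hz
      obtain ⟨i, hi, rfl⟩ := hz
      rw [mem_sep] at hi
      exact mem_prod.2 ⟨_, hi.2, _, hBs i hi.1 hi.2, rfl⟩
    · intro x y y' hy hy'
      obtain ⟨i, hi, _, rfl, rfl⟩ := (hfm _ _).1 hy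
      obtain ⟨j, hj, _, e, rfl⟩ := (hfm _ _).1 hy'
      exact (h3 i j hi hj).1 e
    · intro x x' y hx hx'
      obtain ⟨i, hi, _, rfl, rfl⟩ := (hfm _ _).1 hx
      obtain ⟨j, hj, _, rfl, e⟩ := (hfm _ _).1 hx'
      exact (h3 i j hi hj).2 e
    · intro s hs
      have hs' : ∀ z, z ∈ s → ∃ i, i ∈ n ∧ ap t i ∈ (Bs : M) ∧ z = ap t i := by
        intro z hz
        obtain ⟨y, hy⟩ := mem_dm.1 (hs z hz)
        obtain ⟨i, hi, hiB, rfl, _⟩ := (hfm _ _).1 hy
        exact ⟨i, hi, hiB, rfl⟩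
      have key := h4 (sep n fun i => ap t i ∈ s) (fun z hz => (mem_sep.1 hz).1)
      have e1 : imm t (sep n fun i => ap t i ∈ s) = s := by
        apply ext
        intro z
        rw [mem_imm]
        constructor
        · rintro ⟨i, hi, rfl⟩
          exact (mem_sep.1 hi).2
        · intro hz
          obtain ⟨i, hi, _, rfl⟩ := hs' z hz
          exact ⟨i, mem_sep.2 ⟨hi, hz⟩, rfl⟩
      have e2 : imm t' (sep n fun i => ap t i ∈ s) = rim f s := by
        apply ext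
        intro z
        rw [mem_imm, mem_rim]
        constructor
        · rintro ⟨i, hi, rfl⟩
          rw [mem_sep] at hi
          refine ⟨ap t i, hi.2, (hfm _ _).2 ⟨i, hi.1, ?_, rfl, rfl⟩⟩
          obtain ⟨j, hj, hjB, e⟩ := hs' _ hi.2
          rw [e]
          exact hjB
        · rintro ⟨x, hx, hxz⟩
          obtain ⟨i, hi, _, rfl, rfl⟩ := (hfm _ _).1 hxz
          exact ⟨i, mem_sep.2 ⟨hi, hx⟩, rfl⟩
      rw [e1, e2] at key
      exact key.symm
  obtain ⟨U, hfU, hU, hP⟩ := exists_aut f hgood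
  refine ⟨mk U emp one, isAut_mk hU hP, ?_⟩
  intro i hi
  rcases om_split (ht.2 i hi) with e | e | hB
  · rw [e, ap_mk_emp, (h1 i hi).1 e]
  · rw [e, ap_mk_one, (h2 i hi).1 e]
  · rw [ap_mk_Bs hB]
    exact hU.1.1.1.ap_eq (hfU _ ((hfm _ _).2 ⟨i, hi, hB, rfl, rfl⟩))

/-- Finitely many types. -/
theorem fin_types {n : M} (hn : Kfin n) : ∃ R : M, Kfin R ∧ R ⊆ Fn n om ∧
    ∀ t, t ∈ Fn n om → ∃ r, r ∈ R ∧ ∃ g, IsAut g ∧ ∀ i, i ∈ n → ap g (ap r i) = ap t i := by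
  obtain ⟨R, hR, h⟩ := fin_coll (Q := fun τ r => r ∈ Fn n om ∧ tp n r = τ)
    (s := prod (prod (pw n) (pw n)) (prod (pw (prod n n)) (pw (pw n))))
    (kfin_prod (kfin_prod (kfin_pw hn) (kfin_pw hn))
      (kfin_prod (kfin_pw (kfin_prod hn hn)) (kfin_pw (kfin_pw hn))))
  refine ⟨sep R fun r => r ∈ Fn n om, kfin_sub hR fun z hz => (mem_sep.1 hz).1,
    fun z hz => (mem_sep.1 hz).2, ?_⟩
  intro t ht
  obtain ⟨r, hr, hr', e⟩ := h (tp n t) (tp_mem n t) ⟨t, ht, rfl⟩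
  refine ⟨r, mem_sep.2 ⟨hr, hr'⟩, ?_⟩
  exact homog hn (mem_Fn.1 hr') (mem_Fn.1 ht) e

/-- A member of the monoid at which the automorphism is discontinuous. -/
theorem exists_disc : ∃ h : M, HH h ∧ ¬ II h ∧ ap h emp = emp ∧ ∀ F : M, Kfin F → F ⊆ om →
    ∃ h', HH h' ∧ II h' ∧ ap h' emp = emp ∧ ∀ x, x ∈ F → ap h' x = ap h x := by
  obtain ⟨U, _, hU, hP⟩ := exists_emb (fun _ : M => False) emp (by
    refine ⟨kfin_emp, emp_sub _, ?_, ?_, ?_⟩
    · intro x y y' h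
      exact absurd h (not_mem_emp _)
    · intro x x' y h
      exact absurd h (not_mem_emp _)
    · intro s _
      have : rim (emp : M) s = emp := by
        apply ext
        intro z
        rw [mem_rim]
        simp
      rw [this]
      exact ⟨fun h => not_Pf_emp h, fun h => h.elim⟩)
  have hnP : ∀ s, Kfin s → s ⊆ Bs → ¬ Pf (imm (mk U emp emp) s) := by
    intro s hs hsB
    rw [imm_mk hU hsB, hP s hs hsB]
    exact id
  refine ⟨mk U emp emp, ⟨mfun_mk hU emp_mem_om emp_mem_om, ?_, ?_, ?_⟩, ?_, ap_mk_emp, ?_⟩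
  · rw [ap_mk_emp, ap_mk_one]
  · rw [ap_mk_emp]
    exact Or.inl rfl
  · intro s s' hs _ hsB _ _ h
    exact absurd h (hnP s hs hsB)
  · rintro ⟨s, hs, hsB, h⟩
    exact hnP s hs hsB h
  · intro F hF hFo
    have hF'k : Kfin (sep F fun x => x ∈ (Bs : M)) := kfin_sub hF fun z hz => (mem_sep.1 hz).1
    have hF'B : (sep F fun x => x ∈ (Bs : M)) ⊆ Bs := fun z hz => (mem_sep.1 hz).2
    have hF'o := Sub.trans hF'B Bs_sub
    set F' := sep F fun x => x ∈ (Bs : M) with hF'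
    obtain ⟨b, hb, hbF, _⟩ := Pf_ext (S := emp) hF'k hF'o (emp_sub _)
    set f0 := img F' (fun x => op x (ap U x)) with hf0
    have hf0m : ∀ x y, op x y ∈ f0 ↔ x ∈ F' ∧ y = ap U x := by
      intro x y
      rw [hf0, mem_img]
      constructor
      · rintro ⟨z, hz, e⟩
        obtain ⟨rfl, rfl⟩ := op_inj.1 e
        exact ⟨hz, rfl⟩
      · rintro ⟨h1, rfl⟩
        exact ⟨x, h1, rfl⟩
    obtain ⟨U', hfU, hU', hP'⟩ := exists_emb (fun s => Eqn s (ins b F')) f0 (by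
      refine ⟨kfin_img hF'k, ?_, ?_, ?_, ?_⟩
      · intro z hz
        rw [hf0, mem_img] at hz
        obtain ⟨x, hx, rfl⟩ := hz
        exact mem_prod.2 ⟨x, hF'B x hx, _, hU.1.2 x (hF'B x hx), rfl⟩
      · intro x y y' h1 h2
        rw [((hf0m _ _).1 h1).2, ((hf0m _ _).1 h2).2]
      · intro x x' y h1 h2
        obtain ⟨h3, h4⟩ := (hf0m _ _).1 h1
        obtain ⟨h5, h6⟩ := (hf0m _ _).1 h2
        exact hU.2 x (hF'B x h3) x' (hF'B x' h5) (h4.symm.trans h6)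
      · intro s hs
        have hsF : s ⊆ F' := by
          intro z hz
          obtain ⟨y, hy⟩ := mem_dm.1 (hs z hz)
          exact ((hf0m _ _).1 hy).1
        have hsB := Sub.trans hsF hF'B
        have e : rim f0 s = rim U s := by
          apply ext
          intro z
          rw [mem_rim, mem_rim]
          constructor
          · rintro ⟨x, hx, h⟩
            obtain ⟨h1, rfl⟩ := (hf0m _ _).1 h
            exact ⟨x, hx, hU.1.1.op_ap (hF'B x h1)⟩
          · rintro ⟨x, hx, h⟩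
            obtain ⟨_, rfl⟩ := hU.1.1.op_mem.1 h
            exact ⟨x, hx, (hf0m _ _).2 ⟨hsF x hx, rfl⟩⟩
        rw [e]
        constructor
        · intro h
          exact ((hP s (kfin_sub hF'k hsF) hsB).1 h).elim
        · intro h
          exact absurd h.symm (not_eqn_of_sub hF'k hbF hsF))
    have hiff : ∀ s, Kfin s → s ⊆ Bs → (Pf (imm (mk U' emp emp) s) ↔ Eqn s (ins b F')) := by
      intro s hs hsB
      rw [imm_mk hU' hsB]
      exact hP' s hs hsB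
    refine ⟨mk U' emp emp, ⟨mfun_mk hU' emp_mem_om emp_mem_om, ?_, ?_, ?_⟩, ?_, ap_mk_emp, ?_⟩
    · rw [ap_mk_emp, ap_mk_one]
    · rw [ap_mk_emp]
      exact Or.inl rfl
    · intro s s' hs hs' hsB hsB' he h
      rw [hiff s hs hsB] at h
      rw [hiff s' hs' hsB']
      exact he.symm.trans h
    · have h1 : Kfin (ins b F') := kfin_ins hF'k b
      have h2 : ins b F' ⊆ Bs := by
        intro z hz
        rcases mem_ins.1 hz with rfl | hz
        · exact hb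
        · exact hF'B z hz
      exact ⟨_, h1, h2, (hiff _ h1 h2).2 (Eqn.refl _)⟩
    · intro x hx
      rcases om_split (hFo x hx) with rfl | rfl | hxB
      · rw [ap_mk_emp, ap_mk_emp]
      · rw [ap_mk_one, ap_mk_one]
      · rw [ap_mk_Bs hxB, ap_mk_Bs hxB]
        exact hU'.1.1.ap_eq (hfU _ ((hf0m _ _).2 ⟨mem_sep.2 ⟨hx, hxB⟩, rfl⟩))

end Pool.Agent.helper31.ZF
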