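import Pool.Agent.helper31.ZFDef

/-!
# Definability as a class
-/

namespace Pool.Agent.helper31.ZF

universe u

variable {M : Type u} [ZFModel M]

/-- Definable relation (class version). -/
class Dp {n : ℕ} (P : (Fin n → M) → Prop) : Prop where
  out : D P

/-- Definable function (class version). -/
class Fp {n : ℕ} (F : (Fin n → M) → M) : Prop where
  out : DF F

/-- Definable unary predicate. -/
abbrev D1 (P : M → Prop) : Prop := Dp (fun v : Fin 1 → M => P (v 0))

/-- Definable binary predicate. -/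
abbrev D2 (P : M → M → Prop) : Prop := Dp (fun v : Fin 2 → M => P (v 0) (v 1))

/-- Definable ternary predicate. -/
abbrev D3 (P : M → M → M → Prop) : Prop := Dp (fun v : Fin 3 → M => P (v 0) (v 1) (v 2))

/-- Definable unary function. -/
abbrev F1 (F : M → M) : Prop := Fp (fun v : Fin 1 → M => F (v 0))

/-- Definable binary function. -/
abbrev F2 (F : M → M → M) : Prop := Fp (fun v : Fin 2 → M => F (v 0) (v 1))

section inst

variable {n : ℕ}

instance (priority := 2000) instDpConst (c : Prop) : Dp (fun _ : Fin n → M => c) :=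
  ⟨D.constProp c⟩

instance (priority := 2000) instFpConst (c : M) : Fp (fun _ : Fin n → M => c) := ⟨DF.const c⟩

instance (priority := 1900) instFpVar (i : Fin n) : Fp (fun v : Fin n → M => v i) := ⟨DF.var i⟩

instance instDpNot {P : (Fin n → M) → Prop} [h : Dp P] : Dp (fun v => ¬ P v) := ⟨h.out.not⟩

instance instDpAnd {P Q : (Fin n → M) → Prop} [h : Dp P] [h' : Dp Q] :
    Dp (fun v => P v ∧ Q v) := ⟨h.out.and h'.out⟩

instance instDpOr {P Q : (Fin n → M) → Prop} [h : Dp P] [h' : Dp Q] :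
    Dp (fun v => P v ∨ Q v) := ⟨h.out.or h'.out⟩

instance instDpImp {P Q : (Fin n → M) → Prop} [h : Dp P] [h' : Dp Q] :
    Dp (fun v => P v → Q v) := ⟨h.out.imp h'.out⟩

instance instDpIff {P Q : (Fin n → M) → Prop} [h : Dp P] [h' : Dp Q] :
    Dp (fun v => P v ↔ Q v) := ⟨h.out.iff h'.out⟩

instance instDpAll {P : (Fin n → M) → M → Prop}
    [h : Dp (fun w : Fin (n + 1) → M => P (fun i => w i.castSucc) (w (Fin.last n)))] :
    Dp (fun v => ∀ x, P v x) := ⟨D.all h.out⟩

instance instDpEx {P : (Fin n → M) → M → Prop}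
    [h : Dp (fun w : Fin (n + 1) → M => P (fun i => w i.castSucc) (w (Fin.last n)))] :
    Dp (fun v => ∃ x, P v x) := ⟨D.ex h.out⟩

instance instDpExu {P : (Fin n → M) → M → Prop}
    [h : Dp (fun w : Fin (n + 1) → M => P (fun i => w i.castSucc) (w (Fin.last n)))] :
    Dp (fun v => ∃! x, P v x) := ⟨D.exu h.out⟩

instance instDpMem {F G : (Fin n → M) → M} [h : Fp F] [h' : Fp G] :
    Dp (fun v => F v ∈ G v) := ⟨D.mem h.out h'.out⟩

instance instDpEq {F G : (Fin n → M) → M} [h : Fp F] [h' : Fp G] :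
    Dp (fun v => F v = G v) := ⟨D.eq h.out h'.out⟩

instance instDpNe {F G : (Fin n → M) → M} [h : Fp F] [h' : Fp G] :
    Dp (fun v => F v ≠ G v) := ⟨(D.eq h.out h'.out).not⟩

theorem Dp.subst1 {R : M → Prop} (hR : D1 R) (F : (Fin n → M) → M) [h : Fp F] :
    Dp (fun v => R (F v)) := ⟨D.subst1 hR.out h.out⟩

theorem Dp.subst2 {R : M → M → Prop} (hR : D2 R) (F G : (Fin n → M) → M) [h : Fp F]
    [h' : Fp G] : Dp (fun v => R (F v) (G v)) := ⟨D.subst2 hR.out h.out h'.out⟩

theorem Dp.subst3 {R : M → M → M → Prop} (hR : D3 R) (F G H : (Fin n → M) → M) [h : Fp F]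
    [h' : Fp G] [h'' : Fp H] : Dp (fun v => R (F v) (G v) (H v)) :=
  ⟨D.subst3 hR.out h.out h'.out h''.out⟩

theorem Dp.congr {P Q : (Fin n → M) → Prop} (h : Dp P) (e : ∀ v, Q v ↔ P v) : Dp Q :=
  ⟨D.congr h.out e⟩

theorem Fp.op1 {f : M → M} (hf : F1 f) (F : (Fin n → M) → M) [h : Fp F] :
    Fp (fun v => f (F v)) := by
  refine ⟨DF.op1 ?_ h.out⟩
  have := D.reindex hf.out ![(1 : Fin 2), 0]
  refine this.congr fun v => ?_
  simp [Fin.last]

theorem Fp.op2 {f : M → M → M} (hf : F2 f) (F G : (Fin n → M) → M) [h : Fp F] [h' : Fp G] :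
    Fp (fun v => f (F v) (G v)) := by
  refine ⟨DF.op2 ?_ h.out h'.out⟩
  have := D.reindex hf.out ![(1 : Fin 3), 2, 0]
  refine this.congr fun v => ?_
  simp [Fin.last]

theorem Fp.op3 {f : M → M → M → M} (hf : Fp (fun v : Fin 3 → M => f (v 0) (v 1) (v 2)))
    (F G H : (Fin n → M) → M) [h : Fp F] [h' : Fp G] [h'' : Fp H] :
    Fp (fun v => f (F v) (G v) (H v)) := by
  refine ⟨DF.op3 ?_ h.out h'.out h''.out⟩
  have := D.reindex hf.out ![(1 : Fin 4), 2, 3, 0]
  refine this.congr fun v => ?_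
  simp [Fin.last]

/-- A function is definable if its graph is. -/
theorem Fp.of_graph {F : (Fin n → M) → M} {Q : M → (Fin n → M) → Prop}
    (h : Dp (fun w : Fin (n + 1) → M => Q (w (Fin.last n)) (fun i => w i.castSucc)))
    (e : ∀ z v, z = F v ↔ Q z v) : Fp F := ⟨DF.of_graph h.out e⟩

end inst

end Pool.Agent.helper31.ZF
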