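import Pool.Agent.helper31.ZFBuild

/-!
# The monoid of unary functions
-/

namespace Pool.Agent.helper31.ZF

universe u

variable {M : Type u} [ZFModel M]

/-- The image of `s` under the function `m`. -/
noncomputable def imm (m s : M) : M := img s fun x => ap m x

theorem mem_imm {m s y : M} : y ∈ imm m s ↔ ∃ x, x ∈ s ∧ y = ap m x := mem_img

instance instFpImm {n : ℕ} {F G : (Fin n → M) → M} [Fp F] [Fp G] :
    Fp (fun v => imm (F v) (G v)) := Fp.op2 (by unfold imm; infer_instance) F G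

/-- Functions that are injective on `B` into `B`. -/
def Mfun (m : M) : Prop := IsFn m om om ∧ (∀ x, x ∈ (Bs : M) → ap m x ∈ (Bs : M)) ∧
  ∀ x, x ∈ (Bs : M) → ∀ y, y ∈ (Bs : M) → ap m x = ap m y → x = y

instance instDpMfun {n : ℕ} {F : (Fin n → M) → M} [Fp F] :
    Dp (fun v => Mfun (F v)) := Dp.subst1 (by unfold Mfun; infer_instance) F

/-- Embeddings. -/
def NN (m : M) : Prop := Mfun m ∧ ap m emp = emp ∧ ap m one = one ∧
  ∀ s, Kfin s → s ⊆ Bs → (Pf (imm m s) ↔ Pf s)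

instance instDpNN {n : ℕ} {F : (Fin n → M) → M} [Fp F] :
    Dp (fun v => NN (F v)) := Dp.subst1 (by unfold NN; infer_instance) F

/-- The second kind of functions. -/
def HH (m : M) : Prop := Mfun m ∧ ap m emp = ap m one ∧ (ap m emp = emp ∨ ap m emp = one) ∧
  ∀ s s', Kfin s → Kfin s' → s ⊆ Bs → s' ⊆ Bs → Eqn s s' → Pf (imm m s) → Pf (imm m s')

instance instDpHH {n : ℕ} {F : (Fin n → M) → M} [Fp F] :
    Dp (fun v => HH (F v)) := Dp.subst1 (by unfold HH; infer_instance) F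

/-- The invariant. -/
def II (m : M) : Prop := ∃ s, Kfin s ∧ s ⊆ Bs ∧ Pf (imm m s)

instance instDpII {n : ℕ} {F : (Fin n → M) → M} [Fp F] :
    Dp (fun v => II (F v)) := Dp.subst1 (by unfold II; infer_instance) F

theorem emp_ne_one : (emp : M) ≠ one := by
  intro h
  have : (emp : M) ∈ (one : M) := by simp [one]
  rw [← h] at this
  exact not_mem_emp _ this

theorem emp_not_Bs : (emp : M) ∉ (Bs : M) := fun h => (mem_Bs.1 h).2.1 rfl

theorem one_not_Bs : (one : M) ∉ (Bs : M) := fun h => (mem_Bs.1 h).2.2 rfl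

theorem one_mem_om : (one : M) ∈ (om : M) := suc_mem_om emp_mem_om

theorem om_split {x : M} (hx : x ∈ (om : M)) : x = emp ∨ x = one ∨ x ∈ (Bs : M) := by
  by_cases h1 : x = emp
  · exact Or.inl h1
  · by_cases h2 : x = one
    · exact Or.inr (Or.inl h2)
    · exact Or.inr (Or.inr (mem_Bs.2 ⟨hx, h1, h2⟩))

/-- Composition. -/
noncomputable def cmp (m m' : M) : M := lam om fun x => ap m (ap m' x)

instance instFpCmp {n : ℕ} {F G : (Fin n → M) → M} [Fp F] [Fp G] :
    Fp (fun v => cmp (F v) (G v)) := Fp.op2 (by unfold cmp; infer_instance) F G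

theorem ap_cmp {m m' x : M} (hx : x ∈ (om : M)) : ap (cmp m m') x = ap m (ap m' x) := ap_lam hx

theorem imm_cmp {m m' s : M} (hs : s ⊆ Bs) : imm (cmp m m') s = imm m (imm m' s) := by
  apply ext
  intro z
  rw [mem_imm, mem_imm]
  constructor
  · rintro ⟨x, hx, rfl⟩
    exact ⟨ap m' x, mem_imm.2 ⟨x, hx, rfl⟩, ap_cmp (Bs_sub _ (hs x hx))⟩
  · rintro ⟨y, hy, rfl⟩
    obtain ⟨x, hx, rfl⟩ := mem_imm.1 hy
    exact ⟨x, hx, (ap_cmp (Bs_sub _ (hs x hx))).symm⟩

theorem imm_congr {m m' s : M} (h : ∀ x, x ∈ s → ap m x = ap m' x) : imm m s = imm m' s := by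
  apply ext
  intro z
  rw [mem_imm, mem_imm]
  constructor
  · rintro ⟨x, hx, rfl⟩
    exact ⟨x, hx, h x hx⟩
  · rintro ⟨x, hx, rfl⟩
    exact ⟨x, hx, (h x hx).symm⟩

theorem kfin_imm {m s : M} (hs : Kfin s) : Kfin (imm m s) := kfin_img hs

theorem Mfun.imm_sub {m s : M} (h : Mfun m) (hs : s ⊆ Bs) : imm m s ⊆ Bs := by
  intro z hz
  obtain ⟨x, hx, rfl⟩ := mem_imm.1 hz
  exact h.2.1 x (hs x hx)

theorem Mfun.eqn {m s : M} (h : Mfun m) (hs : s ⊆ Bs) : Eqn s (imm m s) :=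
  eqn_img fun x hx y hy e => h.2.2 x (hs x hx) y (hs y hy) e

theorem Mfun.cmp {m m' : M} (h : Mfun m) (h' : Mfun m') : Mfun (cmp m m') := by
  refine ⟨lam_fn fun x hx => h.1.2 _ (h'.1.2 x hx), ?_, ?_⟩
  · intro x hx
    rw [ap_cmp (Bs_sub x hx)]
    exact h.2.1 _ (h'.2.1 x hx)
  · intro x hx y hy e
    rw [ap_cmp (Bs_sub x hx), ap_cmp (Bs_sub y hy)] at e
    exact h'.2.2 x hx y hy (h.2.2 _ (h'.2.1 x hx) _ (h'.2.1 y hy) e)

theorem NN.cmp {m m' : M} (h : NN m) (h' : NN m') : NN (cmp m m') := by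
  refine ⟨h.1.cmp h'.1, ?_, ?_, ?_⟩
  · rw [ap_cmp emp_mem_om, h'.2.1, h.2.1]
  · rw [ap_cmp one_mem_om, h'.2.2.1, h.2.2.1]
  · intro s hs hsB
    rw [imm_cmp hsB, h.2.2.2 _ (kfin_imm hs) (h'.1.imm_sub hsB), h'.2.2.2 s hs hsB]

theorem NN.not_HH {m : M} (h : NN m) : ¬ HH m := by
  intro h'
  have := h'.2.1
  rw [h.2.1, h.2.2.1] at this
  exact emp_ne_one this

theorem NN.cmp_HH {m m' : M} (h : NN m) (h' : HH m') :
    HH (ZF.cmp m m') ∧ (II (ZF.cmp m m') ↔ II m') := by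
  have e0 : ap (ZF.cmp m m') emp = ap m' emp := by
    rw [ap_cmp emp_mem_om]
    rcases h'.2.2.1 with e | e
    · rw [e, h.2.1]
    · rw [e, h.2.2.1]
  have e1 : ap (ZF.cmp m m') one = ap m' emp := by
    rw [ap_cmp one_mem_om, ← h'.2.1]
    rcases h'.2.2.1 with e | e
    · rw [e, h.2.1]
    · rw [e, h.2.2.1]
  have key : ∀ s, Kfin s → s ⊆ Bs → (Pf (imm (ZF.cmp m m') s) ↔ Pf (imm m' s)) := by
    intro s hs hsB
    rw [imm_cmp hsB, h.2.2.2 _ (kfin_imm hs) (h'.1.imm_sub hsB)]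
  refine ⟨⟨h.1.cmp h'.1, e0.trans e1.symm, ?_, ?_⟩, ?_⟩
  · rw [e0]
    exact h'.2.2.1
  · intro s s' hs hs' hsB hsB' he hP
    rw [key s hs hsB] at hP
    rw [key s' hs' hsB']
    exact h'.2.2.2 s s' hs hs' hsB hsB' he hP
  · constructor
    · rintro ⟨s, hs, hsB, hP⟩
      exact ⟨s, hs, hsB, (key s hs hsB).1 hP⟩
    · rintro ⟨s, hs, hsB, hP⟩
      exact ⟨s, hs, hsB, (key s hs hsB).2 hP⟩

/-- The two values of a member of the monoid at the points `0`, `1` are `0` or `1`. -/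
theorem vals {m : M} (h : NN m ∨ HH m) :
    (ap m emp = emp ∨ ap m emp = one) ∧ (ap m one = emp ∨ ap m one = one) := by
  rcases h with h | h
  · exact ⟨Or.inl h.2.1, Or.inr h.2.2.1⟩
  · refine ⟨h.2.2.1, ?_⟩
    rw [← h.2.1]
    exact h.2.2.1

theorem mfun_of {m : M} (h : NN m ∨ HH m) : Mfun m := by
  rcases h with h | h
  · exact h.1
  · exact h.1

theorem HH.const {m x : M} (h : HH m) (hx : x = emp ∨ x = one) : ap m x = ap m emp := by
  rcases hx with rfl | rfl
  · rfl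
  · exact h.2.1.symm

theorem HH.cmp {m m' : M} (h : HH m) (h' : NN m' ∨ HH m') :
    HH (ZF.cmp m m') ∧ (II (ZF.cmp m m') ↔ II m) := by
  have h1 := mfun_of h'
  have e0 : ap (ZF.cmp m m') emp = ap m emp := by
    rw [ap_cmp emp_mem_om]
    exact h.const (vals h').1
  have e1 : ap (ZF.cmp m m') one = ap m emp := by
    rw [ap_cmp one_mem_om]
    exact h.const (vals h').2
  refine ⟨⟨h.1.cmp h1, e0.trans e1.symm, ?_, ?_⟩, ?_⟩
  · rw [e0]
    exact h.2.2.1
  · intro s s' hs hs' hsB hsB' he hP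
    rw [imm_cmp hsB] at hP
    rw [imm_cmp hsB']
    refine h.2.2.2 _ _ (kfin_imm hs) (kfin_imm hs') (h1.imm_sub hsB) (h1.imm_sub hsB') ?_ hP
    exact ((h1.eqn hsB).symm.trans he).trans (h1.eqn hsB')
  · constructor
    · rintro ⟨s, hs, hsB, hP⟩
      rw [imm_cmp hsB] at hP
      exact ⟨_, kfin_imm hs, h1.imm_sub hsB, hP⟩
    · rintro ⟨s, hs, hsB, hP⟩
      refine ⟨s, hs, hsB, ?_⟩
      rw [imm_cmp hsB]
      exact h.2.2.2 _ _ hs (kfin_imm hs) hsB (h1.imm_sub hsB) (h1.eqn hsB) hP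

open Classical in
/-- Exchange of `0` and `1`. -/
noncomputable def sw (y : M) : M := if y = emp then one else if y = one then emp else y

instance instFpSw {n : ℕ} {F : (Fin n → M) → M} [Fp F] :
    Fp (fun v => sw (F v)) := Fp.op1 (by unfold sw; infer_instance) F

theorem sw_emp : sw (emp : M) = one := by
  unfold sw
  rw [if_pos rfl]

theorem sw_one : sw (one : M) = emp := by
  unfold sw
  rw [if_neg emp_ne_one.symm, if_pos rfl]

theorem sw_Bs {x : M} (hx : x ∈ (Bs : M)) : sw x = x := by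
  unfold sw
  rw [if_neg (mem_Bs.1 hx).2.1, if_neg (mem_Bs.1 hx).2.2]

theorem sw_om {x : M} (hx : x ∈ (om : M)) : sw x ∈ (om : M) := by
  rcases om_split hx with rfl | rfl | h
  · rw [sw_emp]; exact one_mem_om
  · rw [sw_one]; exact emp_mem_om
  · rw [sw_Bs h]; exact hx

theorem sw_sw {x : M} (hx : x ∈ (om : M)) : sw (sw x) = x := by
  rcases om_split hx with rfl | rfl | h
  · rw [sw_emp, sw_one]
  · rw [sw_one, sw_emp]
  · rw [sw_Bs h, sw_Bs h]

theorem sw_val {x : M} (hx : x = emp ∨ x = one) : sw x = emp ∨ sw x = one := by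
  rcases hx with rfl | rfl
  · exact Or.inr sw_emp
  · exact Or.inl sw_one

/-- Exchange of the values. -/
noncomputable def swm (m : M) : M := lam om fun x => sw (ap m x)

instance instFpSwm {n : ℕ} {F : (Fin n → M) → M} [Fp F] :
    Fp (fun v => swm (F v)) := Fp.op1 (by unfold swm; infer_instance) F

theorem ap_swm {m x : M} (hx : x ∈ (om : M)) : ap (swm m) x = sw (ap m x) := ap_lam hx

theorem ap_swm_Bs {m x : M} (h : Mfun m) (hx : x ∈ (Bs : M)) : ap (swm m) x = ap m x := by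
  rw [ap_swm (Bs_sub x hx), sw_Bs (h.2.1 x hx)]

theorem HH.swm {m : M} (h : HH m) : HH (swm m) ∧ (II (swm m) ↔ II m) := by
  have key : ∀ s, s ⊆ Bs → imm (ZF.swm m) s = imm m s := fun s hs =>
    imm_congr fun x hx => ap_swm_Bs h.1 (hs x hx)
  refine ⟨⟨⟨lam_fn fun x hx => sw_om (h.1.1.2 x hx), ?_, ?_⟩, ?_, ?_, ?_⟩, ?_⟩
  · intro x hx
    rw [ap_swm_Bs h.1 hx]
    exact h.1.2.1 x hx
  · intro x hx y hy e
    rw [ap_swm_Bs h.1 hx, ap_swm_Bs h.1 hy] at e
    exact h.1.2.2 x hx y hy e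
  · rw [ap_swm emp_mem_om, ap_swm one_mem_om, h.2.1]
  · rw [ap_swm emp_mem_om]
    exact sw_val h.2.2.1
  · intro s s' hs hs' hsB hsB' he hP
    rw [key s hsB] at hP
    rw [key s' hsB']
    exact h.2.2.2 s s' hs hs' hsB hsB' he hP
  · constructor
    · rintro ⟨s, hs, hsB, hP⟩
      rw [key s hsB] at hP
      exact ⟨s, hs, hsB, hP⟩
    · rintro ⟨s, hs, hsB, hP⟩
      refine ⟨s, hs, hsB, ?_⟩
      rw [key s hsB]
      exact hP

theorem swm_swm {m : M} (h : Mfun m) : swm (swm m) = m := by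
  refine fd_ext lam_fd h.1.1 fun x hx => ?_
  rw [ap_swm hx, ap_swm hx, sw_sw (h.1.2 x hx)]

open Classical in
/-- The automorphism of the monoid. -/
noncomputable def ph (m : M) : M := if HH m ∧ II m then swm m else m

instance instFpPh {n : ℕ} {F : (Fin n → M) → M} [Fp F] :
    Fp (fun v => ph (F v)) := Fp.op1 (by unfold ph; infer_instance) F

theorem ph_of {m : M} (h : HH m) (h' : II m) : ph m = swm m := by
  unfold ph
  rw [if_pos ⟨h, h'⟩]

theorem ph_not {m : M} (h : ¬ (HH m ∧ II m)) : ph m = m := by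
  unfold ph
  rw [if_neg h]

theorem ph_mem {m : M} (h : NN m ∨ HH m) : NN (ph m) ∨ HH (ph m) := by
  by_cases h' : HH m ∧ II m
  · rw [ph_of h'.1 h'.2]
    exact Or.inr h'.1.swm.1
  · rw [ph_not h']
    exact h

theorem ph_ph {m : M} : ph (ph m) = m := by
  by_cases h' : HH m ∧ II m
  · rw [ph_of h'.1 h'.2, ph_of h'.1.swm.1 (h'.1.swm.2.2 h'.2), swm_swm h'.1.1]
  · rw [ph_not h', ph_not h']

theorem ap_ph_Bs {m x : M} (h : NN m ∨ HH m) (hx : x ∈ (Bs : M)) : ap (ph m) x = ap m x := by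
  by_cases h' : HH m ∧ II m
  · rw [ph_of h'.1 h'.2, ap_swm_Bs (mfun_of h) hx]
  · rw [ph_not h']

theorem HH.cmp_ph {m m' : M} (h : HH m) (h' : NN m' ∨ HH m') :
    ZF.cmp m (ph m') = ZF.cmp m m' := by
  refine fd_ext lam_fd lam_fd fun x hx => ?_
  rw [ap_cmp hx, ap_cmp hx]
  rcases om_split hx with rfl | rfl | hx'
  · rw [h.const (vals (ph_mem h')).1, h.const (vals h').1]
  · rw [h.const (vals (ph_mem h')).2, h.const (vals h').2]
  · rw [ap_ph_Bs h' hx']

theorem ph_cmp {m m' : M} (h : NN m ∨ HH m) (h' : NN m' ∨ HH m') :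
    ph (cmp m m') = cmp (ph m) (ph m') := by
  rcases h with h | h
  · rw [ph_not (m := m) (fun e => h.not_HH e.1)]
    rcases h' with h' | h'
    · rw [ph_not (m := m') (fun e => h'.not_HH e.1), ph_not (fun e => (h.cmp h').not_HH e.1)]
    · obtain ⟨h1, h2⟩ := h.cmp_HH h'
      by_cases hI : II m'
      · rw [ph_of h1 (h2.2 hI), ph_of h' hI]
        refine fd_ext lam_fd lam_fd fun x hx => ?_
        rw [ap_swm hx, ap_cmp hx, ap_cmp hx, ap_swm hx]
        have hval : ∀ y, y = emp ∨ y = one → sw (ap m y) = ap m (sw y) := by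
          rintro y (rfl | rfl)
          · rw [h.2.1, sw_emp, h.2.2.1]
          · rw [h.2.2.1, sw_one, h.2.1]
        rcases om_split hx with rfl | rfl | hx'
        · exact hval _ h'.2.2.1
        · exact hval _ (vals (Or.inr h')).2
        · rw [sw_Bs (h'.1.2.1 x hx'), sw_Bs (h.1.2.1 _ (h'.1.2.1 x hx'))]
      · rw [ph_not (fun e => hI (h2.1 e.2)), ph_not (fun e => hI e.2)]
  · obtain ⟨h1, h2⟩ := h.cmp h'
    by_cases hI : II m
    · rw [ph_of h1 (h2.2 hI), ph_of h hI, h.swm.1.cmp_ph h']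
      refine fd_ext lam_fd lam_fd fun x hx => ?_
      rw [ap_swm hx, ap_cmp hx, ap_cmp hx, ap_swm ((mfun_of h').1.2 x hx)]
    · rw [ph_not (fun e => hI (h2.1 e.2)), ph_not (m := m) (fun e => hI e.2), h.cmp_ph h']

/-- The identity. -/
noncomputable def idf : M := lam om fun x => x

theorem ap_idf {x : M} (hx : x ∈ (om : M)) : ap idf x = x := ap_lam hx

theorem NN_idf : NN (idf : M) := by
  refine ⟨⟨lam_fn fun x hx => hx, ?_, ?_⟩, ap_idf emp_mem_om, ap_idf one_mem_om, ?_⟩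
  · intro x hx
    rw [ap_idf (Bs_sub x hx)]
    exact hx
  · intro x hx y hy e
    rwa [ap_idf (Bs_sub x hx), ap_idf (Bs_sub y hy)] at e
  · intro s _ hsB
    have : imm idf s = s := by
      apply ext
      intro z
      rw [mem_imm]
      constructor
      · rintro ⟨x, hx, rfl⟩
        rw [ap_idf (Bs_sub _ (hsB x hx))]
        exact hx
      · intro hz
        exact ⟨z, hz, (ap_idf (Bs_sub _ (hsB z hz))).symm⟩
    rw [this]

theorem kfin_pr (x y : M) : Kfin (pr x y) := by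
  have : pr x y = ins x (sg y) := ext fun z => by simp
  rw [this]
  exact kfin_ins (kfin_sg _) _

/-- The monoid is closed. -/
theorem mon_closed {m : M} (hm : IsFn m om om) (h : ∀ A : M, Kfin A → A ⊆ om →
    ∃ m', (NN m' ∨ HH m') ∧ ∀ x, x ∈ A → ap m' x = ap m x) : NN m ∨ HH m := by
  have h01 : Kfin (pr emp one : M) := kfin_pr _ _
  have h01' : pr emp one ⊆ (om : M) := by
    intro z hz
    rcases mem_pr.1 hz with rfl | rfl
    · exact emp_mem_om
    · exact one_mem_om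
  have hM : Mfun m := by
    refine ⟨hm, ?_, ?_⟩
    · intro x hx
      obtain ⟨m', h1, h2⟩ := h (sg x) (kfin_sg x) (by
        intro z hz
        rw [mem_sg.1 hz]
        exact Bs_sub x hx)
      rw [← h2 x (by simp)]
      exact (mfun_of h1).2.1 x hx
    · intro x hx y hy e
      obtain ⟨m', h1, h2⟩ := h (pr x y) (kfin_pr x y) (by
        intro z hz
        rcases mem_pr.1 hz with rfl | rfl
        · exact Bs_sub _ hx
        · exact Bs_sub _ hy)
      refine (mfun_of h1).2.2 x hx y hy ?_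
      rw [h2 x (by simp), h2 y (by simp), e]
  by_cases hc : ap m emp = ap m one
  · -- second kind
    right
    have hk : ∀ A : M, Kfin A → A ⊆ om → ∃ m', HH m' ∧ ∀ x, x ∈ A → ap m' x = ap m x := by
      intro A hA hAo
      obtain ⟨m', h1, h2⟩ := h (un A (pr emp one)) (kfin_un hA h01) (by
        intro z hz
        rcases mem_un.1 hz with hz | hz
        · exact hAo z hz
        · exact h01' z hz)
      refine ⟨m', ?_, fun x hx => h2 x (mem_un.2 (Or.inl hx))⟩
      rcases h1 with h1 | h1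
      · exfalso
        have e1 := h2 emp (by simp)
        have e2 := h2 one (by simp)
        rw [h1.2.1] at e1
        rw [h1.2.2.1] at e2
        exact emp_ne_one ((e1.trans hc).trans e2.symm)
      · exact h1
    refine ⟨hM, hc, ?_, ?_⟩
    · obtain ⟨m', h1, h2⟩ := hk _ h01 h01'
      rw [← h2 emp (by simp)]
      exact h1.2.2.1
    · intro s s' hs hs' hsB hsB' he hP
      obtain ⟨m', h1, h2⟩ := hk (un s s') (kfin_un hs hs') (by
        intro z hz
        rcases mem_un.1 hz with hz | hz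
        · exact Bs_sub _ (hsB z hz)
        · exact Bs_sub _ (hsB' z hz))
      rw [← imm_congr (m := m') (fun x hx => h2 x (mem_un.2 (Or.inl hx)))] at hP
      rw [← imm_congr (m := m') (fun x hx => h2 x (mem_un.2 (Or.inr hx)))]
      exact h1.2.2.2 s s' hs hs' hsB hsB' he hP
  · left
    have hk : ∀ A : M, Kfin A → A ⊆ om → ∃ m', NN m' ∧ ∀ x, x ∈ A → ap m' x = ap m x := by
      intro A hA hAo
      obtain ⟨m', h1, h2⟩ := h (un A (pr emp one)) (kfin_un hA h01) (by
        intro z hz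
        rcases mem_un.1 hz with hz | hz
        · exact hAo z hz
        · exact h01' z hz)
      refine ⟨m', ?_, fun x hx => h2 x (mem_un.2 (Or.inl hx))⟩
      rcases h1 with h1 | h1
      · exact h1
      · exfalso
        apply hc
        rw [← h2 emp (by simp), ← h2 one (by simp)]
        exact h1.2.1
    refine ⟨hM, ?_, ?_, ?_⟩
    · obtain ⟨m', h1, h2⟩ := hk _ h01 h01'
      rw [← h2 emp (by simp)]
      exact h1.2.1
    · obtain ⟨m', h1, h2⟩ := hk _ h01 h01'
      rw [← h2 one (by simp)]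
      exact h1.2.2.1
    · intro s hs hsB
      obtain ⟨m', h1, h2⟩ := hk s hs (fun z hz => Bs_sub _ (hsB z hz))
      rw [← imm_congr (m := m') (fun x hx => h2 x hx)]
      exact h1.2.2.2 s hs hsB

open Classical in
/-- The extension of a function `U : B → B` by two values. -/
noncomputable def mk (U a b : M) : M :=
  lam om fun x => if x = emp then a else if x = one then b else ap U x

section mk

variable {U a b : M}

theorem ap_mk_emp : ap (mk U a b) emp = a := by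
  unfold mk
  rw [ap_lam emp_mem_om, if_pos rfl]

theorem ap_mk_one : ap (mk U a b) one = b := by
  unfold mk
  rw [ap_lam one_mem_om, if_neg emp_ne_one.symm, if_pos rfl]

theorem ap_mk_Bs {x : M} (hx : x ∈ (Bs : M)) : ap (mk U a b) x = ap U x := by
  unfold mk
  rw [ap_lam (Bs_sub x hx), if_neg (mem_Bs.1 hx).2.1, if_neg (mem_Bs.1 hx).2.2]

theorem mfun_mk (hU : IsInj U Bs Bs) (ha : a ∈ (om : M)) (hb : b ∈ (om : M)) :
    Mfun (mk U a b) := by
  refine ⟨⟨lam_fd, ?_⟩, ?_, ?_⟩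
  · intro x hx
    rcases om_split hx with rfl | rfl | hx'
    · rw [ap_mk_emp]; exact ha
    · rw [ap_mk_one]; exact hb
    · rw [ap_mk_Bs hx']; exact Bs_sub _ (hU.1.2 x hx')
  · intro x hx
    rw [ap_mk_Bs hx]
    exact hU.1.2 x hx
  · intro x hx y hy e
    rw [ap_mk_Bs hx, ap_mk_Bs hy] at e
    exact hU.2 x hx y hy e

theorem imm_mk (hU : IsInj U Bs Bs) {s : M} (hs : s ⊆ Bs) : imm (mk U a b) s = rim U s := by
  apply ext
  intro z
  rw [mem_imm, mem_rim]
  constructor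
  · rintro ⟨x, hx, rfl⟩
    refine ⟨x, hx, ?_⟩
    rw [ap_mk_Bs (hs x hx)]
    exact hU.1.1.op_ap (hs x hx)
  · rintro ⟨x, hx, h⟩
    refine ⟨x, hx, ?_⟩
    rw [ap_mk_Bs (hs x hx), hU.1.1.ap_eq h]

end mk

end Pool.Agent.helper31.ZF
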