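import Pool.Agent.helper31.ZFHom

/-!
# Two closed submonoids
-/

namespace Pool.Agent.helper31.ZF

universe u

variable {M : Type u} [ZFModel M]

/-- The set `n` without `0` and `1`. -/
noncomputable def seg (n : M) : M := df n (pr emp one)

instance instFpSeg {n : ℕ} {F : (Fin n → M) → M} [Fp F] :
    Fp (fun v => seg (F v)) := Fp.op1 (by unfold seg; infer_instance) F

theorem mem_seg {n x : M} : x ∈ seg n ↔ x ∈ n ∧ x ≠ emp ∧ x ≠ one := by
  unfold seg
  rw [mem_df, mem_pr, not_or]

theorem seg_sub {n : M} (hn : n ∈ (om : M)) : seg n ⊆ Bs := by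
  intro x hx
  rw [mem_seg] at hx
  exact mem_Bs.2 ⟨om_trans hn hx.1, hx.2⟩

theorem kfin_seg {n : M} (hn : n ∈ (om : M)) : Kfin (seg n) :=
  kfin_sub (kfin_nat n hn) fun _ hx => (mem_seg.1 hx).1

theorem seg_emp : seg (emp : M) = emp := ext fun z => by
  rw [mem_seg]
  simp

theorem mem_one {x : M} : x ∈ (one : M) ↔ x = emp := by
  unfold one
  rw [suc_eq]
  simp

theorem seg_one : seg (one : M) = emp := ext fun z => by
  rw [mem_seg, mem_one]
  constructor
  · rintro ⟨rfl, h, _⟩
    exact absurd rfl h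
  · intro h
    exact absurd h (not_mem_emp z)

theorem seg_suc_one : seg (suc one : M) = emp := ext fun z => by
  rw [mem_seg, suc_eq, mem_ins, mem_one]
  constructor
  · rintro ⟨rfl | rfl, h, h'⟩
    · exact absurd rfl h'
    · exact absurd rfl h
  · intro h
    exact absurd h (not_mem_emp z)

theorem seg_suc {n : M} (h0 : n ≠ emp) (h1 : n ≠ one) : seg (suc n) = ins n (seg n) :=
  ext fun z => by
    rw [mem_seg, suc_eq, mem_ins, mem_ins, mem_seg]
    constructor
    · rintro ⟨rfl | h, h'⟩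
      · exact Or.inl rfl
      · exact Or.inr ⟨h, h'⟩
    · rintro (rfl | h)
      · exact ⟨Or.inl rfl, h0, h1⟩
      · exact ⟨Or.inr h.1, h.2⟩

theorem not_mem_seg (n : M) : n ∉ seg n := fun h => not_mem_self n (mem_seg.1 h).1

/-- Every finite subset of `B` has as many elements as some `seg n`. -/
theorem exists_seg {s : M} (hs : Kfin s) : ∃ n, n ∈ (om : M) ∧ Eqn s (seg n) := by
  have : ∃ n, (n ∈ (om : M) ∧ n ≠ emp ∧ n ≠ one) ∧ Eqn s (seg n) := by
    refine fin_ind (P := fun s => ∃ n, (n ∈ (om : M) ∧ n ≠ emp ∧ n ≠ one) ∧ Eqn s (seg n))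
      ?_ ?_ hs
    · refine ⟨suc one, ⟨suc_mem_om one_mem_om, ?_, ?_⟩, ?_⟩
      · intro h
        have : (one : M) ∈ (suc one : M) := by rw [suc_eq]; simp
        rw [h] at this
        exact not_mem_emp _ this
      · intro h
        have : (one : M) ∈ (suc one : M) := by rw [suc_eq]; simp
        rw [h] at this
        exact not_mem_self _ this
      · rw [seg_suc_one]
        exact Eqn.refl _
    · rintro t _ ⟨n, ⟨hn, h0, h1⟩, he⟩ x hx
      refine ⟨suc n, ⟨suc_mem_om hn, ?_, ?_⟩, ?_⟩
      · intro h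
        have : n ∈ (suc n : M) := by rw [suc_eq]; simp
        rw [h] at this
        exact not_mem_emp _ this
      · intro h
        have : n ∈ (suc n : M) := by rw [suc_eq]; simp
        rw [h, mem_one] at this
        exact h0 this
      · rw [seg_suc h0 h1]
        exact eqn_ins he hx (not_mem_seg n)
  obtain ⟨n, ⟨hn, _⟩, h⟩ := this
  exact ⟨n, hn, h⟩

theorem imm_emp (m : M) : imm m emp = emp := ext fun z => by
  rw [mem_imm]
  simp

/-- If the image of `seg n` is in the family then `n` is not `0`, `1`. -/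
theorem ne_of_Pf {m n : M} (h : Pf (imm m (seg n))) : n ≠ emp ∧ n ≠ one := by
  constructor
  · rintro rfl
    rw [seg_emp, imm_emp] at h
    exact not_Pf_emp h
  · rintro rfl
    rw [seg_one, imm_emp] at h
    exact not_Pf_emp h

/-- The number `n` is the least one such that the image of `seg n` is in the family. -/
def Lst (m n : M) : Prop :=
  n ∈ (om : M) ∧ Pf (imm m (seg n)) ∧ ∀ k, k ∈ n → ¬ Pf (imm m (seg k))

instance instDpLst {n : ℕ} {F G : (Fin n → M) → M} [Fp F] [Fp G] :
    Dp (fun v => Lst (F v) (G v)) := Dp.subst2 (by unfold Lst; infer_instance) F G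

/-- The label condition. -/
def Lbl (m : M) : Prop :=
  ∀ n, Lst m n → (Pf (imm m (seg (suc n))) ↔ ap m emp = one)

instance instDpLbl {n : ℕ} {F : (Fin n → M) → M} [Fp F] :
    Dp (fun v => Lbl (F v)) := Dp.subst1 (by unfold Lbl; infer_instance) F

/-- The same images are in the family. -/
def Same (m m' : M) : Prop := ∀ s, Kfin s → s ⊆ Bs → (Pf (imm m s) ↔ Pf (imm m' s))

theorem Same.symm {m m' : M} (h : Same m m') : Same m' m := fun s hs hsB => (h s hs hsB).symm

theorem Same.II {m m' : M} (h : Same m m') : II m ↔ II m' := by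
  constructor
  · rintro ⟨s, hs, hsB, hP⟩
    exact ⟨s, hs, hsB, (h s hs hsB).1 hP⟩
  · rintro ⟨s, hs, hsB, hP⟩
    exact ⟨s, hs, hsB, (h s hs hsB).2 hP⟩

theorem Same.Lst {m m' n : M} (h : Same m m') : Lst m n ↔ Lst m' n := by
  have key : ∀ {a b : M}, Same a b → ZF.Lst a n → ZF.Lst b n := by
    rintro a b hab ⟨hn, hP, hk⟩
    refine ⟨hn, (hab _ (kfin_seg hn) (seg_sub hn)).1 hP, fun k hkn hP' => ?_⟩
    have hko := om_trans hn hkn
    exact hk k hkn ((hab _ (kfin_seg hko) (seg_sub hko)).2 hP')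
  exact ⟨key h, key h.symm⟩

theorem Same.Lbl {m m' : M} (h : Same m m') (he : ap m emp = ap m' emp) : Lbl m ↔ Lbl m' := by
  have key : ∀ {a b : M}, Same a b → ap a emp = ap b emp → ZF.Lbl a → ZF.Lbl b := by
    intro a b hab e ha n hn
    have := ha n (hab.Lst.2 hn)
    rw [e] at this
    have hso := suc_mem_om hn.1
    rw [← this]
    exact (hab _ (kfin_seg hso) (seg_sub hso)).symm
  exact ⟨key h he, key h.symm he.symm⟩

theorem Same.of_Bs {m m' : M} (h : ∀ x, x ∈ (Bs : M) → ap m x = ap m' x) : Same m m' := by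
  intro s _ hsB
  rw [imm_congr fun x hx => h x (hsB x hx)]

theorem NN.same {m m' : M} (h : NN m) (h' : Mfun m') : Same (ZF.cmp m m') m' := by
  intro s hs hsB
  rw [imm_cmp hsB, h.2.2.2 _ (kfin_imm hs) (h'.imm_sub hsB)]

theorem HH.same {m m' : M} (h : HH m) (h' : Mfun m') : Same (ZF.cmp m m') m := by
  intro s hs hsB
  rw [imm_cmp hsB]
  constructor
  · exact h.2.2.2 _ _ (kfin_imm hs) hs (h'.imm_sub hsB) hsB (h'.eqn hsB).symm
  · exact h.2.2.2 _ _ hs (kfin_imm hs) hsB (h'.imm_sub hsB) (h'.eqn hsB)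

/-- The first kind of members with label `0` unless the invariant fails. -/
def H1 (m : M) : Prop := HH m ∧ (II m → ap m emp = emp)

instance instDpH1 {n : ℕ} {F : (Fin n → M) → M} [Fp F] :
    Dp (fun v => H1 (F v)) := Dp.subst1 (by unfold H1; infer_instance) F

/-- Members with the label condition. -/
def H2 (m : M) : Prop := HH m ∧ Lbl m

instance instDpH2 {n : ℕ} {F : (Fin n → M) → M} [Fp F] :
    Dp (fun v => H2 (F v)) := Dp.subst1 (by unfold H2; infer_instance) F

/-- The first monoid. -/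
def K1 (m : M) : Prop := NN m ∨ H1 m

instance instDpK1 {n : ℕ} {F : (Fin n → M) → M} [Fp F] :
    Dp (fun v => K1 (F v)) := Dp.subst1 (by unfold K1; infer_instance) F

/-- The second monoid. -/
def K2 (m : M) : Prop := NN m ∨ H2 m

instance instDpK2 {n : ℕ} {F : (Fin n → M) → M} [Fp F] :
    Dp (fun v => K2 (F v)) := Dp.subst1 (by unfold K2; infer_instance) F

theorem K1.mem {m : M} (h : K1 m) : NN m ∨ HH m := h.imp_right And.left

theorem K2.mem {m : M} (h : K2 m) : NN m ∨ HH m := h.imp_right And.left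

theorem NN.cmp_emp {m m' : M} (h : NN m) (h' : HH m') : ap (ZF.cmp m m') emp = ap m' emp := by
  rw [ap_cmp emp_mem_om]
  rcases h'.2.2.1 with e | e
  · rw [e, h.2.1]
  · rw [e, h.2.2.1]

theorem HH.cmp_emp {m m' : M} (h : HH m) (h' : NN m' ∨ HH m') :
    ap (ZF.cmp m m') emp = ap m emp := by
  rw [ap_cmp emp_mem_om]
  exact h.const (vals h').1

/-- Definable closed submonoids between the embeddings and the full monoid. -/
structure GoodK (K : M → Prop) : Prop where
  sub : ∀ m, K m → NN m ∨ HH m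
  nn : ∀ m, NN m → K m
  cmp : ∀ m m', K m → K m' → K (ZF.cmp m m')
  closed : ∀ m, IsFn m om om → (∀ A : M, Kfin A → A ⊆ om →
    ∃ m', K m' ∧ ∀ x, x ∈ A → ap m' x = ap m x) → K m

/-- A criterion. -/
theorem goodK_of {H : M → Prop} (h1 : ∀ m, H m → HH m)
    (h2 : ∀ m m', Same m m' → ap m emp = ap m' emp → HH m' → H m → H m')
    (h3 : ∀ m, HH m → (∀ A : M, Kfin A → A ⊆ om →
      ∃ m', H m' ∧ ∀ x, x ∈ A → ap m' x = ap m x) → H m) : GoodK fun m => NN m ∨ H m := by
  refine ⟨fun m h => h.imp_right (h1 m), fun m h => Or.inl h, ?_, ?_⟩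
  · rintro m m' (h | h) h'
    · rcases h' with h' | h'
      · exact Or.inl (h.cmp h')
      · right
        have hH := h1 _ h'
        exact h2 m' _ (h.same hH.1).symm (h.cmp_emp hH).symm (h.cmp_HH hH).1 h'
    · right
      have hH := h1 _ h
      have hm' : NN m' ∨ HH m' := h'.imp_right (h1 m')
      exact h2 m _ (hH.same (mfun_of hm')).symm (hH.cmp_emp hm').symm (hH.cmp hm').1 h
  · intro m hm h
    have h01 : Kfin (pr emp one : M) := kfin_pr _ _
    have h01' : pr emp one ⊆ (om : M) := by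
      intro z hz
      rcases mem_pr.1 hz with rfl | rfl
      · exact emp_mem_om
      · exact one_mem_om
    rcases mon_closed hm (fun A hA hAo => by
      obtain ⟨m', h4, h5⟩ := h A hA hAo
      exact ⟨m', h4.imp_right (h1 m'), h5⟩) with hN | hH
    · exact Or.inl hN
    · refine Or.inr (h3 m hH ?_)
      intro A hA hAo
      obtain ⟨m', h4, h5⟩ := h (un A (pr emp one)) (kfin_un hA h01) (by
        intro z hz
        rcases mem_un.1 hz with hz | hz
        · exact hAo z hz
        · exact h01' z hz)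
      refine ⟨m', ?_, fun x hx => h5 x (mem_un.2 (Or.inl hx))⟩
      rcases h4 with h4 | h4
      · exfalso
        have e1 := h5 emp (by simp)
        have e2 := h5 one (by simp)
        rw [h4.2.1] at e1
        rw [h4.2.2.1] at e2
        exact emp_ne_one ((e1.trans hH.2.1).trans e2.symm)
      · exact h4

theorem goodK1 : GoodK (K1 : M → Prop) := by
  refine goodK_of (H := H1) (fun m h => h.1) ?_ ?_
  · intro m m' hs he hH h
    refine ⟨hH, fun hI => ?_⟩
    rw [← he]
    exact h.2 (hs.II.2 hI)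
  · intro m hH h
    refine ⟨hH, ?_⟩
    rintro ⟨s, hs, hsB, hP⟩
    obtain ⟨m', h1, h2⟩ := h (ins emp s) (kfin_ins hs _) (by
      intro z hz
      rcases mem_ins.1 hz with rfl | hz
      · exact emp_mem_om
      · exact Bs_sub _ (hsB z hz))
    rw [← h2 emp (by simp)]
    refine h1.2 ⟨s, hs, hsB, ?_⟩
    rw [imm_congr (m' := m) fun x hx => h2 x (mem_ins.2 (Or.inr hx))]
    exact hP

theorem goodK2 : GoodK (K2 : M → Prop) := by
  refine goodK_of (H := H2) (fun m h => h.1) ?_ ?_
  · intro m m' hs he hH h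
    exact ⟨hH, (hs.Lbl he).1 h.2⟩
  · intro m hH h
    refine ⟨hH, ?_⟩
    rintro n ⟨hn, hP, hk⟩
    obtain ⟨m', h1, h2⟩ := h (ins emp (suc n)) (kfin_ins (kfin_nat _ (suc_mem_om hn)) _) (by
      intro z hz
      rcases mem_ins.1 hz with rfl | hz
      · exact emp_mem_om
      · exact om_trans (suc_mem_om hn) hz)
    have key : ∀ k, k ⊆ suc n → imm m' (seg k) = imm m (seg k) := by
      intro k hk
      exact imm_congr fun x hx => h2 x (mem_ins.2 (Or.inr (hk x (mem_seg.1 hx).1)))
    have hns : n ⊆ suc n := by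
      intro z hz
      rw [suc_eq]
      exact mem_ins.2 (Or.inr hz)
    have := h1.2 n ⟨hn, by rw [key n hns]; exact hP, fun k hkn => by
      rw [key k fun z hz => hns z (om_trans' hn hkn hz)]
      exact hk k hkn⟩
    rw [key _ (Sub.refl _), h2 emp (by simp)] at this
    exact this

end Pool.Agent.helper31.ZF
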