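import Pool.Agent.helper31.ZFMon2

/-!
# Algebra and topology of the two monoids
-/

namespace Pool.Agent.helper31.ZF

universe u

variable {M : Type u} [ZFModel M]

theorem K2_of {m : M} (h : H2 m) : K2 m := Or.inr h

/-- Extension of a finite part of a member without invariant. -/
theorem exists_ext {x F : M} (hx : HH x) (hI : ¬ II x) (hF : Kfin F) (hFo : F ⊆ om)
    (Q : M → Prop) [hQ : D1 Q] (hQe : ∀ s s', Kfin s → Eqn s s' → Q s → Q s')
    (hQF : ∀ s, s ⊆ sep F (fun x => x ∈ (Bs : M)) → ¬ Q s) :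
    ∃ h', HH h' ∧ (∀ s, Kfin s → s ⊆ Bs → (Pf (imm h' s) ↔ Q s)) ∧ ap h' emp = ap x emp ∧
      ∀ z, z ∈ F → ap h' z = ap x z := by
  have hF'k : Kfin (sep F fun x => x ∈ (Bs : M)) := kfin_sub hF fun z hz => (mem_sep.1 hz).1
  have hF'B : (sep F fun x => x ∈ (Bs : M)) ⊆ Bs := fun z hz => (mem_sep.1 hz).2
  set F' := sep F fun x => x ∈ (Bs : M) with hF'
  set f0 := img F' (fun z => op z (ap x z)) with hf0
  have hf0m : ∀ a b, op a b ∈ f0 ↔ a ∈ F' ∧ b = ap x a := by
    intro a b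
    rw [hf0, mem_img]
    constructor
    · rintro ⟨z, hz, e⟩
      obtain ⟨rfl, rfl⟩ := op_inj.1 e
      exact ⟨hz, rfl⟩
    · rintro ⟨h1, rfl⟩
      exact ⟨a, h1, rfl⟩
  obtain ⟨U, hfU, hU, hP⟩ := exists_emb Q f0 (by
    refine ⟨kfin_img hF'k, ?_, ?_, ?_, ?_⟩
    · intro z hz
      rw [hf0, mem_img] at hz
      obtain ⟨a, ha, rfl⟩ := hz
      exact mem_prod.2 ⟨a, hF'B a ha, _, hx.1.2.1 a (hF'B a ha), rfl⟩
    · intro a b b' h1 h2
      rw [((hf0m _ _).1 h1).2, ((hf0m _ _).1 h2).2]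
    · intro a a' b h1 h2
      obtain ⟨h3, h4⟩ := (hf0m _ _).1 h1
      obtain ⟨h5, h6⟩ := (hf0m _ _).1 h2
      exact hx.1.2.2 a (hF'B a h3) a' (hF'B a' h5) (h4.symm.trans h6)
    · intro s hs
      have hsF : s ⊆ F' := by
        intro z hz
        obtain ⟨y, hy⟩ := mem_dm.1 (hs z hz)
        exact ((hf0m _ _).1 hy).1
      have e : rim f0 s = imm x s := by
        apply ext
        intro z
        rw [mem_rim, mem_imm]
        constructor
        · rintro ⟨a, ha, h⟩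
          exact ⟨a, ha, ((hf0m _ _).1 h).2⟩
        · rintro ⟨a, ha, h⟩
          exact ⟨a, ha, (hf0m _ _).2 ⟨hsF a ha, h⟩⟩
      rw [e]
      constructor
      · intro h
        exact absurd ⟨s, kfin_sub hF'k hsF, Sub.trans hsF hF'B, h⟩ hI
      · intro h
        exact absurd h (hQF s hsF))
  have hiff : ∀ s, Kfin s → s ⊆ Bs →
      (Pf (imm (mk U (ap x emp) (ap x emp)) s) ↔ Q s) := by
    intro s hs hsB
    rw [imm_mk hU hsB]
    exact hP s hs hsB
  have hom : ap x emp ∈ (om : M) := hx.1.1.2 _ emp_mem_om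
  refine ⟨mk U (ap x emp) (ap x emp), ⟨mfun_mk hU hom hom, ?_, ?_, ?_⟩, hiff, ap_mk_emp, ?_⟩
  · rw [ap_mk_emp, ap_mk_one]
  · rw [ap_mk_emp]
    exact hx.2.2.1
  · intro s s' hs hs' hsB hsB' he h
    rw [hiff s hs hsB] at h
    rw [hiff s' hs' hsB']
    exact hQe s s' hs he h
  · intro z hz
    rcases om_split (hFo z hz) with rfl | rfl | hzB
    · rw [ap_mk_emp]
    · rw [ap_mk_one]
      exact hx.2.1
    · rw [ap_mk_Bs hzB]
      exact hU.1.1.ap_eq (hfU _ ((hf0m _ _).2 ⟨mem_sep.2 ⟨hz, hzB⟩, rfl⟩))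

/-- In the second monoid every member without invariant is a limit of members with invariant. -/
theorem approx2 {x F : M} (hx : HH x) (hI : ¬ II x) (hF : Kfin F) (hFo : F ⊆ om) :
    ∃ h', H2 h' ∧ II h' ∧ ∀ z, z ∈ F → ap h' z = ap x z := by
  have hF'k : Kfin (sep F fun x => x ∈ (Bs : M)) := kfin_sub hF fun z hz => (mem_sep.1 hz).1
  have hF'B : (sep F fun x => x ∈ (Bs : M)) ⊆ Bs := fun z hz => (mem_sep.1 hz).2
  obtain ⟨b, hb, hbF, _⟩ := Pf_ext (S := emp) hF'k (Sub.trans hF'B Bs_sub) (emp_sub _)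
  have hsB : ins b (sep F fun x => x ∈ (Bs : M)) ⊆ Bs := by
    intro z hz
    rcases mem_ins.1 hz with rfl | hz
    · exact hb
    · exact hF'B z hz
  have hsk : Kfin (ins b (sep F fun x => x ∈ (Bs : M))) := kfin_ins hF'k b
  generalize hF' : (sep F fun x => x ∈ (Bs : M)) = F' at *
  rcases hx.2.2.1 with hl | hl
  · -- label `0`
    obtain ⟨h', h1, h2, h3, h4⟩ := exists_ext hx hI hF hFo (fun s => Eqn s (ins b F'))
      (fun s s' _ he h => he.symm.trans h) (by
        rw [hF']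
        intro s hs h
        exact not_eqn_of_sub hF'k hbF hs h.symm)
    refine ⟨h', ⟨h1, ?_⟩, ⟨_, hsk, hsB, (h2 _ hsk hsB).2 (Eqn.refl _)⟩, h4⟩
    rintro n ⟨hn, hP, _⟩
    obtain ⟨n0, n1⟩ := ne_of_Pf hP
    have hso := suc_mem_om hn
    rw [h3, hl, h2 _ (kfin_seg hso) (seg_sub hso), seg_suc n0 n1]
    rw [h2 _ (kfin_seg hn) (seg_sub hn)] at hP
    constructor
    · intro h
      exact absurd (h.trans hP.symm)
        (not_eqn_of_sub (kfin_seg hn) (not_mem_seg n) (Sub.refl _))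
    · intro h
      exact absurd h emp_ne_one
  · -- label `1`
    obtain ⟨h', h1, h2, h3, h4⟩ := exists_ext hx hI hF hFo
      (fun s => ¬ ∃ t, t ⊆ F' ∧ Eqn s t)
      (fun s s' _ he h => by
        rintro ⟨t, ht, he'⟩
        exact h ⟨t, ht, he.trans he'⟩) (by
        rw [hF']
        intro s hs h
        exact h ⟨s, hs, Eqn.refl s⟩)
    refine ⟨h', ⟨h1, ?_⟩, ⟨_, hsk, hsB, (h2 _ hsk hsB).2 ?_⟩, h4⟩
    · rintro n ⟨hn, hP, _⟩
      obtain ⟨n0, n1⟩ := ne_of_Pf hP
      have hso := suc_mem_om hn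
      rw [h3, hl, h2 _ (kfin_seg hso) (seg_sub hso), seg_suc n0 n1]
      rw [h2 _ (kfin_seg hn) (seg_sub hn)] at hP
      refine iff_of_true ?_ rfl
      rintro ⟨t, ht, f, hf⟩
      refine hP ⟨img (seg n) (fun z => ap f z), ?_, ?_⟩
      · intro z hz
        obtain ⟨a, ha, rfl⟩ := mem_img.1 hz
        exact ht _ (hf.1.1.2 a (mem_ins.2 (Or.inr ha)))
      · exact eqn_img fun a ha a' ha' e =>
          hf.1.2 a (mem_ins.2 (Or.inr ha)) a' (mem_ins.2 (Or.inr ha')) e
    · rintro ⟨t, ht, he⟩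
      exact not_eqn_of_sub hF'k hbF ht he

/-- Members of the monoid without invariant. -/
theorem exists_free (a : M) (ha : a = emp ∨ a = one) : ∃ h : M, HH h ∧ ¬ II h ∧ ap h emp = a := by
  obtain ⟨h, h1, h2, h3, _⟩ := exists_disc (M := M)
  rcases ha with rfl | rfl
  · exact ⟨h, h1, h2, h3⟩
  · refine ⟨swm h, h1.swm.1, fun h' => h2 (h1.swm.2.1 h'), ?_⟩
    rw [ap_swm emp_mem_om, h3, sw_emp]

theorem II.of_Pf {m s : M} (hs : Kfin s) (hsB : s ⊆ Bs) (h : Pf (imm m s)) : II m :=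
  ⟨s, hs, hsB, h⟩

theorem H1_of {m : M} (h : HH m) (h' : ¬ II m) : H1 m := ⟨h, fun e => absurd e h'⟩

theorem H2_of {m : M} (h : HH m) (h' : ¬ II m) : H2 m :=
  ⟨h, fun _ hn => absurd (II.of_Pf (kfin_seg hn.1) (seg_sub hn.1) hn.2.1) h'⟩

theorem same_swm {m : M} (h : Mfun m) : Same (swm m) m := Same.of_Bs fun _ hx => ap_swm_Bs h hx

theorem not_II_swm {m : M} (h : HH m) (h' : ¬ II m) : ¬ II (swm m) := fun e => h' (h.swm.2.1 e)

theorem swm_ne {m : M} (h : HH m) : swm m ≠ m := by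
  intro e
  have h1 : ap (swm m) emp = ap m emp := by rw [e]
  rw [ap_swm emp_mem_om] at h1
  rcases h.2.2.1 with h2 | h2
  · rw [h2, sw_emp] at h1
    exact emp_ne_one h1.symm
  · rw [h2, sw_one] at h1
    exact emp_ne_one h1

/-- Composition from the left with a member of the second kind only sees the values on `B`. -/
theorem HH.cmp_eq {y a b : M} (hy : HH y) (ha : NN a ∨ HH a) (hb : NN b ∨ HH b)
    (h : ∀ x, x ∈ (Bs : M) → ap a x = ap b x) : ZF.cmp y a = ZF.cmp y b := by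
  refine fd_ext lam_fd lam_fd fun x hx => ?_
  rw [ap_cmp hx, ap_cmp hx]
  rcases om_split hx with rfl | rfl | hx'
  · rw [hy.const (vals ha).1, hy.const (vals hb).1]
  · rw [hy.const (vals ha).2, hy.const (vals hb).2]
  · rw [h x hx']

theorem cmp_inj_Bs {y a b : M} (hy : Mfun y) (ha : Mfun a) (hb : Mfun b)
    (h : ZF.cmp y a = ZF.cmp y b) : ∀ x, x ∈ (Bs : M) → ap a x = ap b x := by
  intro x hx
  have h1 : ap (ZF.cmp y a) x = ap (ZF.cmp y b) x := by rw [h]
  rw [ap_cmp (Bs_sub x hx), ap_cmp (Bs_sub x hx)] at h1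
  exact hy.2.2 _ (ha.2.1 x hx) _ (hb.2.1 x hx) h1

/-- Embeddings are left cancellable. -/
theorem NN.cancel {y a b : M} (hy : NN y) (ha : NN a ∨ HH a) (hb : NN b ∨ HH b)
    (h : ZF.cmp y a = ZF.cmp y b) : a = b := by
  refine fd_ext (mfun_of ha).1.1 (mfun_of hb).1.1 fun x hx => ?_
  have h1 : ap (ZF.cmp y a) x = ap (ZF.cmp y b) x := by rw [h]
  rw [ap_cmp hx, ap_cmp hx] at h1
  have key : ∀ u v : M, (u = emp ∨ u = one) → (v = emp ∨ v = one) → ap y u = ap y v → u = v := by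
    rintro u v (rfl | rfl) (rfl | rfl) e
    · rfl
    · rw [hy.2.1, hy.2.2.1] at e
      exact absurd e emp_ne_one
    · rw [hy.2.1, hy.2.2.1] at e
      exact absurd e.symm emp_ne_one
    · rfl
  rcases om_split hx with rfl | rfl | hx'
  · exact key _ _ (vals ha).1 (vals hb).1 h1
  · exact key _ _ (vals ha).2 (vals hb).2 h1
  · exact hy.1.2.2 _ ((mfun_of ha).2.1 x hx') _ ((mfun_of hb).2.1 x hx') h1

/-- Two embeddings or members of the second kind with the same values on `B` and at `0`. -/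
theorem HH.ext' {a b : M} (ha : HH a) (hb : HH b) (h : ∀ x, x ∈ (Bs : M) → ap a x = ap b x)
    (h0 : ap a emp = ap b emp) : a = b := by
  refine fd_ext ha.1.1.1 hb.1.1.1 fun x hx => ?_
  rcases om_split hx with rfl | rfl | hx'
  · exact h0
  · rw [← ha.2.1, ← hb.2.1, h0]
  · exact h x hx'

theorem NN.ext' {a b : M} (ha : NN a) (hb : NN b) (h : ∀ x, x ∈ (Bs : M) → ap a x = ap b x) :
    a = b := by
  refine fd_ext ha.1.1.1 hb.1.1.1 fun x hx => ?_
  rcases om_split hx with rfl | rfl | hx'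
  · rw [ha.2.1, hb.2.1]
  · rw [ha.2.2.1, hb.2.2.1]
  · exact h x hx'

/-- The family is not determined by the number of elements. -/
theorem exists_inhom : ∃ s s' : M, (Kfin s ∧ s ⊆ Bs ∧ Pf s) ∧ (Kfin s' ∧ s' ⊆ Bs ∧ ¬ Pf s') ∧
    Eqn s s' := by
  obtain ⟨y, hy, _, h1⟩ := Pf_ext (X := (emp : M)) (S := sg emp) kfin_emp (emp_sub _) (by
    intro z hz
    rw [mem_sg.1 hz]
    exact mem_pw.2 (emp_sub _))
  obtain ⟨y', hy', _, h2⟩ := Pf_ext (X := (emp : M)) (S := emp) kfin_emp (emp_sub _) (emp_sub _)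
  refine ⟨ins y emp, ins y' emp, ⟨kfin_ins kfin_emp _, ?_, ?_⟩, ⟨kfin_ins kfin_emp _, ?_, ?_⟩, ?_⟩
  · intro z hz
    rcases mem_ins.1 hz with rfl | hz
    · exact hy
    · exact absurd hz (not_mem_emp z)
  · exact (h1 emp (emp_sub _)).2 (mem_sg.2 rfl)
  · intro z hz
    rcases mem_ins.1 hz with rfl | hz
    · exact hy'
    · exact absurd hz (not_mem_emp z)
  · intro h
    exact not_mem_emp _ ((h2 emp (emp_sub _)).1 h)
  · exact eqn_ins (Eqn.refl _) (not_mem_emp _) (not_mem_emp _)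

/-- An embedding and a member of the second kind differ on `B`. -/
theorem NN.ne_on_Bs {a b : M} (ha : NN a) (hb : HH b) :
    ¬ ∀ x, x ∈ (Bs : M) → ap a x = ap b x := by
  intro h
  obtain ⟨s, s', ⟨h1, h2, h3⟩, ⟨h4, h5, h6⟩, h7⟩ := exists_inhom (M := M)
  have hs := Same.of_Bs h
  have h8 : Pf (imm b s) := (hs s h1 h2).1 ((ha.2.2.2 s h1 h2).2 h3)
  have h9 : Pf (imm b s') := hb.2.2.2 s s' h1 h4 h2 h5 h7 h8
  exact h6 ((ha.2.2.2 s' h4 h5).1 ((hs s' h4 h5).2 h9))

/-- Existence of the least `seg`. -/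
theorem exists_Lst {m : M} (hm : HH m) (h : II m) : ∃ n, Lst m n := by
  obtain ⟨s, hs, hsB, hP⟩ := h
  obtain ⟨n, hn, he⟩ := exists_seg hs
  have hP' : Pf (imm m (seg n)) := hm.2.2.2 s _ hs (kfin_seg hn) hsB (seg_sub hn) he hP
  have := least_spec (P := fun n => Pf (imm m (seg n))) ⟨n, hn, hP'⟩
  exact ⟨_, this.1.1, this.1.2, this.2⟩

theorem Lst.unique {m n k : M} (hn : Lst m n) (hk : Lst m k) : n = k := by
  rcases om_tri hn.1 hk.1 with h | h | h
  · exact absurd hn.2.1 (hk.2.2 n h)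
  · exact h
  · exact absurd hk.2.1 (hn.2.2 k h)

/-- Members of the second kind of the second monoid with invariant are determined by their
values on `B`. -/
theorem H2.eq {a b : M} (ha : H2 a) (hb : H2 b) (hI : II a)
    (h : ∀ x, x ∈ (Bs : M) → ap a x = ap b x) : a = b := by
  refine ha.1.ext' hb.1 h ?_
  have hs : Same a b := Same.of_Bs h
  obtain ⟨n, hn⟩ := exists_Lst ha.1 hI
  have hso := suc_mem_om hn.1
  have h1 := ha.2 n hn
  have h2 := hb.2 n (hs.Lst.1 hn)
  rw [← hs _ (kfin_seg hso) (seg_sub hso)] at h2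
  have h3 : ap a emp = one ↔ ap b emp = one := h1.symm.trans h2
  rcases ha.1.2.2.1 with e | e
  · rcases hb.1.2.2.1 with e' | e'
    · rw [e, e']
    · exact absurd (e.symm.trans (h3.2 e')) emp_ne_one
  · rw [e, h3.1 e]

/-- Algebraic description of the second kind in the second monoid: one direction. -/
theorem exists_twins {y : M} (hy : H2 y) : ∃ a b, K2 a ∧ K2 b ∧ a ≠ b ∧ cmp y a = cmp y b := by
  obtain ⟨h, h1, h2, _⟩ := exists_free (emp : M) (Or.inl rfl)
  refine ⟨swm h, h, Or.inr (H2_of h1.swm.1 (not_II_swm h1 h2)), Or.inr (H2_of h1 h2),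
    swm_ne h1, ?_⟩
  exact hy.1.cmp_eq (Or.inr h1.swm.1) (Or.inr h1) fun x hx => ap_swm_Bs h1.1 hx

/-- Algebraic description of the second kind in the first monoid: the other direction. -/
theorem H1_of_twins {y a b : M} (hy : K1 y) (ha : K1 a) (hb : K1 b) (hab : a ≠ b)
    (h : cmp y a = cmp y b) : H1 y := by
  rcases hy with hy | hy
  · exact absurd (hy.cancel ha.mem hb.mem h) hab
  · exact hy

/-- Members of the first monoid without invariant have a twin. -/
theorem exists_twin1 {x : M} (hx : HH x) (hI : ¬ II x) : ∃ x2, K1 x2 ∧ x2 ≠ x ∧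
    ∀ y, H1 y → cmp y x = cmp y x2 := by
  refine ⟨swm x, Or.inr (H1_of hx.swm.1 (not_II_swm hx hI)), swm_ne hx, ?_⟩
  intro y hy
  exact hy.1.cmp_eq (Or.inr hx) (Or.inr hx.swm.1) fun z hz => (ap_swm_Bs hx.1 hz).symm

/-- A member of the second monoid with a twin has no invariant. -/
theorem of_twin2 {x x2 : M} (hx : K2 x) (hx2 : K2 x2) (hne : x2 ≠ x)
    (h : ∀ y, H2 y → cmp y x = cmp y x2) : HH x ∧ ¬ II x := by
  obtain ⟨y, h1, h2, _⟩ := exists_free (emp : M) (Or.inl rfl)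
  have hB := cmp_inj_Bs h1.1 (mfun_of hx.mem) (mfun_of hx2.mem) (h y (H2_of h1 h2))
  rcases hx with hx | hx
  · exfalso
    rcases hx2 with hx2 | hx2
    · exact hne (hx.ext' hx2 hB).symm
    · exact hx.ne_on_Bs hx2.1 hB
  · refine ⟨hx.1, fun hI => ?_⟩
    rcases hx2 with hx2 | hx2
    · exact hx2.ne_on_Bs hx.1 fun z hz => (hB z hz).symm
    · exact hne (hx.eq hx2 hI hB).symm

/-- In the first monoid label `1` implies that there is no invariant. -/
theorem K1_label {m : M} (h : K1 m) (h0 : ap m emp = one) : HH m ∧ ¬ II m := by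
  rcases h with h | h
  · rw [h.2.1] at h0
    exact absurd h0 emp_ne_one
  · refine ⟨h.1, fun hI => ?_⟩
    rw [h.2 hI] at h0
    exact emp_ne_one h0

/-! ### the isomorphism of the monoids -/

/-- Members whose label is changed. -/
def Chg (m : M) : Prop := HH m ∧ II m ∧ ap m emp = one

instance instDpChg {n : ℕ} {F : (Fin n → M) → M} [Fp F] :
    Dp (fun v => Chg (F v)) := Dp.subst1 (by unfold Chg; infer_instance) F

open Classical in
/-- The isomorphism from the second monoid onto the first monoid. -/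
noncomputable def rho (m : M) : M := if Chg m then swm m else m

theorem rho_of {m : M} (h : Chg m) : rho m = swm m := by
  unfold rho
  rw [if_pos h]

theorem rho_not {m : M} (h : ¬ Chg m) : rho m = m := by
  unfold rho
  rw [if_neg h]

theorem NN.not_Chg {m : M} (h : NN m) : ¬ Chg m := fun e => h.not_HH e.1

theorem rho_K1 {m : M} (h : K2 m) : K1 (rho m) := by
  by_cases hc : Chg m
  · rw [rho_of hc]
    refine Or.inr ⟨hc.1.swm.1, fun _ => ?_⟩
    rw [ap_swm emp_mem_om, hc.2.2, sw_one]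
  · rw [rho_not hc]
    rcases h with h | h
    · exact Or.inl h
    · refine Or.inr ⟨h.1, fun hI => ?_⟩
      rcases h.1.2.2.1 with e | e
      · exact e
      · exact absurd ⟨h.1, hI, e⟩ hc

theorem ap_rho_Bs {m x : M} (h : NN m ∨ HH m) (hx : x ∈ (Bs : M)) : ap (rho m) x = ap m x := by
  by_cases hc : Chg m
  · rw [rho_of hc, ap_swm_Bs (mfun_of h) hx]
  · rw [rho_not hc]

theorem rho_mem {m : M} (h : NN m ∨ HH m) : NN (rho m) ∨ HH (rho m) := by
  by_cases hc : Chg m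
  · rw [rho_of hc]
    exact Or.inr hc.1.swm.1
  · rw [rho_not hc]
    exact h

theorem rho_HH {m : M} (h : HH m) : HH (rho m) := by
  by_cases hc : Chg m
  · rw [rho_of hc]
    exact hc.1.swm.1
  · rw [rho_not hc]
    exact h

theorem rho_inj {m m' : M} (h : K2 m) (h' : K2 m') (e : rho m = rho m') : m = m' := by
  have hB : ∀ x, x ∈ (Bs : M) → ap m x = ap m' x := by
    intro x hx
    rw [← ap_rho_Bs h.mem hx, ← ap_rho_Bs h'.mem hx, e]
  rcases h with h | h
  · rcases h' with h' | h'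
    · exact h.ext' h' hB
    · exact absurd hB (h.ne_on_Bs h'.1)
  · rcases h' with h' | h'
    · exact absurd (fun x hx => (hB x hx).symm) (h'.ne_on_Bs h.1)
    · by_cases hI : II m
      · exact h.eq h' hI hB
      · have hI' : ¬ II m' := fun hI' => hI ((Same.of_Bs hB).II.2 hI')
        rwa [rho_not fun hc => hI hc.2.1, rho_not fun hc => hI' hc.2.1] at e

theorem rho_surj {m : M} (h : K1 m) : ∃ m', K2 m' ∧ rho m' = m := by
  rcases h with h | h
  · exact ⟨m, Or.inl h, rho_not h.not_Chg⟩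
  · by_cases hI : II m
    · obtain ⟨n, hn⟩ := exists_Lst h.1 hI
      by_cases hP : Pf (imm m (seg (suc n)))
      · refine ⟨swm m, Or.inr ⟨h.1.swm.1, ?_⟩, ?_⟩
        · intro k hk
          have hs := same_swm h.1.1
          have hkn : k = n := (hs.Lst.1 hk).unique hn
          subst hkn
          have hso := suc_mem_om hn.1
          rw [hs _ (kfin_seg hso) (seg_sub hso), ap_swm emp_mem_om, h.2 hI, sw_emp]
          exact iff_of_true hP rfl
        · rw [rho_of ⟨h.1.swm.1, h.1.swm.2.2 hI, ?_⟩, swm_swm h.1.1]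
          rw [ap_swm emp_mem_om, h.2 hI, sw_emp]
      · refine ⟨m, Or.inr ⟨h.1, ?_⟩, ?_⟩
        · intro k hk
          have hkn : k = n := hk.unique hn
          subst hkn
          rw [h.2 hI]
          exact iff_of_false hP emp_ne_one
        · exact rho_not fun hc => emp_ne_one ((h.2 hI).symm.trans hc.2.2)
    · exact ⟨m, Or.inr (H2_of h.1 hI), rho_not fun hc => hI hc.2.1⟩

theorem rho_cmp {m m' : M} (h : NN m ∨ HH m) (h' : NN m' ∨ HH m') :
    rho (cmp m m') = cmp (rho m) (rho m') := by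
  rcases h with h | h
  · rw [rho_not (m := m) h.not_Chg]
    rcases h' with h' | h'
    · rw [rho_not (m := m') h'.not_Chg, rho_not (h.cmp h').not_Chg]
    · obtain ⟨h1, h2⟩ := h.cmp_HH h'
      have h3 := h.cmp_emp h'
      by_cases hc : Chg m'
      · rw [rho_of ⟨h1, h2.2 hc.2.1, h3.trans hc.2.2⟩, rho_of hc]
        refine fd_ext lam_fd lam_fd fun x hx => ?_
        rw [ap_swm hx, ap_cmp hx, ap_cmp hx, ap_swm hx]
        have hval : ∀ y, y = emp ∨ y = one → sw (ap m y) = ap m (sw y) := by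
          rintro y (rfl | rfl)
          · rw [h.2.1, sw_emp, h.2.2.1]
          · rw [h.2.2.1, sw_one, h.2.1]
        rcases om_split hx with rfl | rfl | hx'
        · exact hval _ h'.2.2.1
        · exact hval _ (vals (Or.inr h')).2
        · rw [sw_Bs (h'.1.2.1 x hx'), sw_Bs (h.1.2.1 _ (h'.1.2.1 x hx'))]
      · rw [rho_not hc, rho_not fun hc' => hc ⟨h', h2.1 hc'.2.1, h3.symm.trans hc'.2.2⟩]
  · obtain ⟨h1, h2⟩ := h.cmp h'
    have h3 := h.cmp_emp h'
    have h4 : cmp (rho m) (rho m') = cmp (rho m) m' :=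
      (rho_HH h).cmp_eq (rho_mem h') h' fun x hx => ap_rho_Bs h' hx
    rw [h4]
    by_cases hc : Chg m
    · rw [rho_of ⟨h1, h2.2 hc.2.1, h3.trans hc.2.2⟩, rho_of hc]
      refine fd_ext lam_fd lam_fd fun x hx => ?_
      rw [ap_swm hx, ap_cmp hx, ap_cmp hx, ap_swm ((mfun_of h').1.2 x hx)]
    · rw [rho_not hc, rho_not fun hc' => hc ⟨h, h2.1 hc'.2.1, h3.symm.trans hc'.2.2⟩]

end Pool.Agent.helper31.ZF
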