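import Pool.Agent.helper31.ZFFun

/-!
# The natural numbers and recursion in a model of ZF
-/

namespace Pool.Agent.helper31.ZF

universe u

variable {M : Type u} [ZFModel M]

theorem foundation {x : M} (h : ∃ y, y ∈ x) : ∃ y, y ∈ x ∧ ∀ z, z ∈ y → z ∉ x :=
  ZFModel.isZF.foundation x h

theorem not_mem_self (x : M) : x ∉ x := by
  intro h
  obtain ⟨y, hy, hy'⟩ := foundation (x := sg x) ⟨x, by simp⟩
  rw [mem_sg] at hy
  subst hy
  exact hy' y h (by simp)

theorem not_mem_cycle {x y : M} (h : x ∈ y) : y ∉ x := by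
  intro h'
  obtain ⟨z, hz, hz'⟩ := foundation (x := pr x y) ⟨x, by simp⟩
  rcases mem_pr.1 hz with rfl | rfl
  · exact hz' y h' (by simp)
  · exact hz' x h (by simp)

@[simp] theorem mem_suc {x z : M} : z ∈ suc x ↔ z = x ∨ z ∈ x :=
  the_mem (Q := fun z => z = x ∨ z ∈ x) ⟨ins x x, fun z => by simp⟩ z

theorem suc_eq (x : M) : suc x = ins x x := ext fun z => by simp

instance instFpSuc {n : ℕ} {F : (Fin n → M) → M} [Fp F] :
    Fp (fun v => suc (F v)) := Fp.op1 (by unfold suc; infer_instance) F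

instance instDpIsInd {n : ℕ} {F : (Fin n → M) → M} [Fp F] :
    Dp (fun v => IsInd (F v)) := Dp.subst1 (by unfold IsInd; infer_instance) F

theorem exists_ind : ∃ I : M, IsInd I := by
  obtain ⟨w, ⟨e, he, he'⟩, hw⟩ := ZFModel.isZF (M := M).infinity
  have e1 : e = emp := ext fun z => ⟨fun h => absurd h (he' z), fun h => absurd h (not_mem_emp z)⟩
  refine ⟨w, by rw [← e1]; exact he, fun x hx => ?_⟩
  obtain ⟨y, hy, hy'⟩ := hw x hx
  have : suc x = y := ext fun z => by
    rw [mem_suc]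
    exact ⟨fun h => (hy' z).2 h.symm, fun h => ((hy' z).1 h).symm⟩
  rw [this]
  exact hy

theorem mem_om {z : M} : z ∈ (om : M) ↔ ∀ I : M, IsInd I → z ∈ I := by
  refine the_mem ?_ z
  obtain ⟨I, hI⟩ := exists_ind (M := M)
  refine ⟨sep I fun z => ∀ I : M, IsInd I → z ∈ I, fun z => ?_⟩
  rw [mem_sep]
  exact ⟨fun h => h.2, fun h => ⟨h I hI, h⟩⟩

theorem emp_mem_om : emp ∈ (om : M) := mem_om.2 fun _ h => h.1

theorem suc_mem_om {n : M} (h : n ∈ (om : M)) : suc n ∈ (om : M) :=
  mem_om.2 fun I hI => hI.2 n (mem_om.1 h I hI)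

theorem om_ind {P : M → Prop} [D1 P] (h0 : P emp) (hs : ∀ n, n ∈ (om : M) → P n → P (suc n)) :
    ∀ n, n ∈ (om : M) → P n := by
  intro n hn
  have : IsInd (sep om P) := by
    refine ⟨mem_sep.2 ⟨emp_mem_om, h0⟩, fun x hx => ?_⟩
    rw [mem_sep] at hx
    exact mem_sep.2 ⟨suc_mem_om hx.1, hs x hx.1 hx.2⟩
  exact (mem_sep.1 (mem_om.1 hn _ this)).2

theorem om_cases {n : M} (h : n ∈ (om : M)) : n = emp ∨ ∃ k, k ∈ (om : M) ∧ n = suc k := by
  revert n
  apply om_ind
  · exact Or.inl rfl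
  · intro n hn _
    exact Or.inr ⟨n, hn, rfl⟩

theorem om_trans {n m : M} (hn : n ∈ (om : M)) (hm : m ∈ n) : m ∈ (om : M) := by
  revert m
  revert n
  apply om_ind
  · intro m hm
    exact absurd hm (not_mem_emp m)
  · intro n hn ih m hm
    rcases mem_suc.1 hm with rfl | hm
    · exact hn
    · exact ih hm

theorem om_trans' {n m k : M} (hn : n ∈ (om : M)) (hm : m ∈ n) (hk : k ∈ m) : k ∈ n := by
  revert m k
  revert n
  apply om_ind
  · intro m k hm
    exact absurd hm (not_mem_emp m)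
  · intro n hn ih m k hm hk
    rcases mem_suc.1 hm with rfl | hm
    · exact mem_suc.2 (Or.inr hk)
    · exact mem_suc.2 (Or.inr (ih hm hk))

theorem emp_mem_suc {n : M} (hn : n ∈ (om : M)) : emp ∈ suc n := by
  revert n
  apply om_ind
  · simp
  · intro n _ ih
    exact mem_suc.2 (Or.inr ih)

theorem suc_mem_suc {n m : M} (hm : m ∈ (om : M)) (h : n ∈ m) : suc n ∈ suc m := by
  revert n
  revert m
  apply om_ind
  · intro n h
    exact absurd h (not_mem_emp n)
  · intro m _ ih n h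
    rcases mem_suc.1 h with rfl | h
    · simp
    · exact mem_suc.2 (Or.inr (ih h))

theorem om_tri {n m : M} (hn : n ∈ (om : M)) (hm : m ∈ (om : M)) : n ∈ m ∨ n = m ∨ m ∈ n := by
  revert m
  revert n
  apply om_ind
  · intro m hm
    rcases om_cases hm with rfl | ⟨k, hk, rfl⟩
    · exact Or.inr (Or.inl rfl)
    · exact Or.inl (emp_mem_suc hk)
  · intro n hn ih m hm
    rcases ih hm with h | h | h
    · have := suc_mem_suc hm h
      rcases mem_suc.1 this with h1 | h1
      · exact Or.inr (Or.inl h1)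
      · exact Or.inl h1
    · subst h
      exact Or.inr (Or.inr (by simp))
    · exact Or.inr (Or.inr (mem_suc.2 (Or.inr h)))

/-- The least natural number with property `P`. -/
noncomputable def least (P : M → Prop) : M :=
  the fun n => (n ∈ (om : M) ∧ P n) ∧ ∀ m : M, m ∈ n → ¬ P m

theorem least_spec {P : M → Prop} [D1 P] (h : ∃ n, n ∈ (om : M) ∧ P n) :
    (least P ∈ (om : M) ∧ P (least P)) ∧ ∀ m, m ∈ least P → ¬ P m := by
  refine the_spec (P := fun n => (n ∈ (om : M) ∧ P n) ∧ ∀ m, m ∈ n → ¬ P m) ?_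
  obtain ⟨n, hn, hP⟩ := h
  obtain ⟨y, hy, hy'⟩ := foundation (x := sep om P) ⟨n, mem_sep.2 ⟨hn, hP⟩⟩
  rw [mem_sep] at hy
  have hy2 : ∀ m, m ∈ y → ¬ P m := fun m hm hp => hy' m hm (mem_sep.2 ⟨om_trans hy.1 hm, hp⟩)
  refine ⟨y, ⟨hy, hy2⟩, ?_⟩
  rintro z ⟨⟨hz, hPz⟩, hz'⟩
  rcases om_tri hz hy.1 with h | h | h
  · exact absurd hPz (hy2 z h)
  · exact h
  · exact absurd hy.2 (hz' y h)

instance instFpLeast {n : ℕ} {P : (Fin n → M) → M → Prop}
    [h : Dp (fun w : Fin (n + 1) → M => P (fun i => w i.castSucc) (w (Fin.last n)))] :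
    Fp (fun v => least (fun x => P v x)) := by
  unfold least
  have h2 : Dp (fun w : Fin (n + 1 + 1) → M =>
      P (fun i => w i.castSucc.castSucc) (w (Fin.last (n + 1)))) := by
    have := h.reindex (push (fun i : Fin n => i.castSucc.castSucc) (Fin.last (n + 1)))
    refine this.congr fun v => ?_
    simp
  exact instFpThe (P := fun v n => (n ∈ (om : M) ∧ P v n) ∧ ∀ m : M, m ∈ n → ¬ P v m)
    (h := instDpAnd (h := instDpAnd (h' := h))
    (h' := instDpAll (P := fun (w : Fin (n + 1) → M) m => m ∈ w (Fin.last n) →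
      ¬ P (fun i => w i.castSucc) m) (h := instDpImp (h' := instDpNot (h := h2)))))

/-! ### recursion -/

open Classical in
/-- Recursion on the natural numbers. -/
theorem exists_rec (a : M) (G : M → M → M) [hG : F2 G] :
    ∃ f : M, IsFD f om ∧ ap f emp = a ∧ ∀ n, n ∈ (om : M) → ap f (suc n) = G n (ap f n) := by
  have iG : ∀ {n : ℕ} (F H : (Fin n → M) → M) [Fp F] [Fp H], Fp (fun v => G (F v) (H v)) :=
    fun F H => Fp.op2 hG F H
  let Att : M → M → Prop := fun f n =>
    IsFD f (suc n) ∧ ap f emp = a ∧ ∀ k, k ∈ n → ap f (suc k) = G k (ap f k)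
  have iAtt : ∀ {n : ℕ} (F H : (Fin n → M) → M) [Fp F] [Fp H],
      Dp (fun v => Att (F v) (H v)) := fun F H =>
    Dp.subst2 (R := Att) (by simp only [Att]; infer_instance) F H
  -- uniqueness
  have huniq : ∀ n, n ∈ (om : M) → ∀ m, m ∈ (om : M) → ∀ f f', Att f n → Att f' m →
      ∀ k, k ∈ (om : M) → k ∈ suc n → k ∈ suc m → ap f k = ap f' k := by
    intro n hn m hm f f' hf hf'
    apply om_ind
    · intro _ _
      rw [hf.2.1, hf'.2.1]
    · intro k hk ih h1 h2
      have h3 : k ∈ n := by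
        rcases mem_suc.1 h1 with h | h
        · rw [← h]; simp
        · exact om_trans' hn h (by simp)
      have h4 : k ∈ m := by
        rcases mem_suc.1 h2 with h | h
        · rw [← h]; simp
        · exact om_trans' hm h (by simp)
      rw [hf.2.2 k h3, hf'.2.2 k h4, ih (mem_suc.2 (Or.inr h3)) (mem_suc.2 (Or.inr h4))]
  -- existence
  have hex : ∀ n, n ∈ (om : M) → ∃ f, Att f n := by
    apply om_ind
    · refine ⟨lam (suc emp) (fun _ => a), lam_fd, ?_, ?_⟩
      · rw [ap_lam (by simp)]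
      · intro k hk
        exact absurd hk (not_mem_emp k)
    · rintro n hn ⟨f, hf⟩
      have iH : F1 (fun x : M => if x = suc n then G n (ap f n) else ap f x) := inferInstance
      have hlam : ∀ x, x ∈ suc n → ap (lam (suc (suc n))
          (fun x => if x = suc n then G n (ap f n) else ap f x)) x = ap f x := by
        intro x hx
        rw [ap_lam (mem_suc.2 (Or.inr hx)), if_neg]
        rintro rfl
        exact not_mem_self _ hx
      refine ⟨lam (suc (suc n)) (fun x => if x = suc n then G n (ap f n) else ap f x),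
        lam_fd, ?_, ?_⟩
      · rw [hlam _ (emp_mem_suc hn), hf.2.1]
      · intro k hk
        rcases mem_suc.1 hk with rfl | hk
        · rw [hlam k (by simp), ap_lam (by simp), if_pos rfl]
        · rw [hlam k (mem_suc.2 (Or.inr hk)), hlam (suc k) (suc_mem_suc hn hk)]
          exact hf.2.2 k hk
  refine ⟨lam om (fun n => the fun y => ∃ f, Att f n ∧ y = ap f n), lam_fd, ?_, ?_⟩
  · rw [ap_lam emp_mem_om]
    obtain ⟨f, hf⟩ := hex emp emp_mem_om
    apply the_eq
    · exact ⟨f, hf, hf.2.1.symm⟩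
    · rintro y ⟨g, hg, rfl⟩
      exact hg.2.1
  · have key : ∀ n, n ∈ (om : M) → ∀ f, Att f n →
        (the fun y => ∃ f, Att f n ∧ y = ap f n) = ap f n := by
      intro n hn f hf
      apply the_eq
      · exact ⟨f, hf, rfl⟩
      · rintro y ⟨g, hg, rfl⟩
        exact huniq n hn n hn g f hg hf n hn (by simp) (by simp)
    intro n hn
    obtain ⟨f, hf⟩ := hex n hn
    obtain ⟨g, hg⟩ := hex (suc n) (suc_mem_om hn)
    rw [ap_lam (suc_mem_om hn), ap_lam hn, key n hn f hf, key _ (suc_mem_om hn) g hg,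
      hg.2.2 n (by simp), huniq n hn (suc n) (suc_mem_om hn) f g hf hg n hn (by simp) (by simp)]

end Pool.Agent.helper31.ZF
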