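import Mathlib

/-!
# Models of ZF and function clones inside a model of ZF

This file holds only definitions.  First come first-order formulas of the language `{∈}`, their
satisfaction, and models of ZF.  Then, for a model `M` of ZF, the usual notions of set theory are
defined as computed in `M`: all variables range over elements of `M`, and all quantifiers are
quantifiers over `M`.  Last come function clones in the sense of `M`.
-/

namespace Pool.Agent.helper31.ZF

universe u

/-! ### first-order formulas and models of ZF -/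

/-- First-order formulas of the language `{∈}` with free variables `0, …, n-1`. -/
inductive Fml : ℕ → Type
  | mem {n : ℕ} (i j : Fin n) : Fml n
  | eq {n : ℕ} (i j : Fin n) : Fml n
  | neg {n : ℕ} (φ : Fml n) : Fml n
  | and {n : ℕ} (φ ψ : Fml n) : Fml n
  | all {n : ℕ} (φ : Fml (n + 1)) : Fml n

/-- Add a last entry to an assignment. -/
def push {M : Type u} {n : ℕ} (v : Fin n → M) (x : M) : Fin (n + 1) → M :=
  fun i => if h : i.val < n then v ⟨i.val, h⟩ else x

/-- Satisfaction of a formula in the structure `(M, E)` under an assignment `v`; in `all φ` the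
quantified variable is the last one. -/
def Sat {M : Type u} (E : M → M → Prop) {n : ℕ} (φ : Fml n) : (Fin n → M) → Prop :=
  Fml.rec (motive := fun n _ => (Fin n → M) → Prop)
    (fun i j v => E (v i) (v j))
    (fun i j v => v i = v j)
    (fun _ h v => ¬ h v)
    (fun _ _ h h' v => h v ∧ h' v)
    (fun _ h v => ∀ x, h (push v x)) φ

/-- `(M, E)` is a model of Zermelo-Fraenkel set theory (without choice). -/
structure IsModelZF (M : Type u) (E : M → M → Prop) : Prop where
  ext : ∀ x y, (∀ z, E z x ↔ E z y) → x = y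
  foundation : ∀ x, (∃ y, E y x) → ∃ y, E y x ∧ ∀ z, E z y → ¬ E z x
  pairing : ∀ x y, ∃ p, ∀ z, E z p ↔ (z = x ∨ z = y)
  union : ∀ x, ∃ u, ∀ z, E z u ↔ ∃ y, E y x ∧ E z y
  power : ∀ x, ∃ p, ∀ z, E z p ↔ ∀ t, E t z → E t x
  infinity : ∃ w, (∃ e, E e w ∧ ∀ z, ¬ E z e) ∧
    ∀ x, E x w → ∃ y, E y w ∧ ∀ z, E z y ↔ (E z x ∨ z = x)
  separation : ∀ (n : ℕ) (φ : Fml (n + 1)) (p : Fin n → M) (a : M),
    ∃ b, ∀ x, E x b ↔ (E x a ∧ Sat E φ (push p x))
  replacement : ∀ (n : ℕ) (φ : Fml (n + 2)) (p : Fin n → M) (a : M),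
    (∀ x, E x a → ∃! y, Sat E φ (push (push p x) y)) →
    ∃ b, ∀ y, E y b ↔ ∃ x, E x a ∧ Sat E φ (push (push p x) y)

/-- A type `M` with a relation `E` such that `(M, E)` is a model of ZF. -/
class ZFModel (M : Type u) where
  /-- the membership relation of the model -/
  E : M → M → Prop
  isZF : IsModelZF M E

variable {M : Type u} [ZFModel M]

/-- `x ∈ y` means that `x` is an element of `y` in the sense of the model. -/
instance : Membership M M := ⟨fun y x => ZFModel.E x y⟩

/-- `x ⊆ y` in the sense of the model. -/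
instance : HasSubset M := ⟨fun x y => ∀ z, z ∈ x → z ∈ y⟩

/-! ### sets and functions in the model -/

theorem nonempty_model : Nonempty M :=
  ⟨(ZFModel.isZF (M := M)).infinity.choose⟩

open Classical in
/-- The unique element of the model with property `P` (a fixed element of the model if there is
no such unique element). -/
noncomputable def the (P : M → Prop) : M :=
  if h : ∃! x, P x then h.choose else Classical.choice nonempty_model

/-- The empty set. -/
noncomputable def emp : M := the fun e => ∀ z, z ∉ e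

/-- The unordered pair `{x, y}`. -/
noncomputable def pr (x y : M) : M := the fun p => ∀ z, z ∈ p ↔ (z = x ∨ z = y)

/-- The ordered pair `{{x}, {x, y}}`. -/
noncomputable def op (x y : M) : M := pr (pr x x) (pr x y)

/-- The successor `x ∪ {x}`. -/
noncomputable def suc (x : M) : M := the fun y => ∀ z, z ∈ y ↔ (z = x ∨ z ∈ x)

/-- The natural number `1`. -/
noncomputable def one : M := suc emp

/-- Inductive sets. -/
def IsInd (I : M) : Prop := emp ∈ I ∧ ∀ x, x ∈ I → suc x ∈ I

/-- The set `ω` of natural numbers; `n = {0, …, n-1}`. -/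
noncomputable def om : M := the fun W => ∀ z, z ∈ W ↔ ∀ I : M, IsInd I → z ∈ I

/-- The value of a function `f` at `x`. -/
noncomputable def ap (f x : M) : M := the fun y => op x y ∈ f

/-- `f` is a function with domain `A`. -/
def IsFD (f A : M) : Prop :=
  (∀ z, z ∈ f → ∃ x, x ∈ A ∧ ∃ y, z = op x y) ∧ ∀ x, x ∈ A → ∃! y, op x y ∈ f

/-- `f` is a function from `A` to `B`. -/
def IsFn (f A B : M) : Prop := IsFD f A ∧ ∀ x, x ∈ A → ap f x ∈ B

/-- `f` is an injective function from `A` to `B`. -/
def IsInj (f A B : M) : Prop :=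
  IsFn f A B ∧ ∀ x, x ∈ A → ∀ y, y ∈ A → ap f x = ap f y → x = y

/-- `f` is a bijection from `A` onto `B`. -/
def IsBij (f A B : M) : Prop :=
  IsInj f A B ∧ ∀ y, y ∈ B → ∃ x, x ∈ A ∧ ap f x = y

/-- The set of all functions from `A` to `B`. For a natural number `n` of the model, `Fn n Ω` is
the set of `n`-tuples of elements of `Ω`. -/
noncomputable def Fn (A B : M) : M := the fun u => ∀ f, f ∈ u ↔ IsFn f A B

/-- The function `x ↦ F x` on `A`, as a set of ordered pairs. -/
noncomputable def lam (A : M) (F : M → M) : M :=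
  the fun f => ∀ z, z ∈ f ↔ ∃ x, x ∈ A ∧ z = op x (F x)

/-- The inverse of a function. -/
noncomputable def inv (f : M) : M := the fun g => ∀ z, z ∈ g ↔ ∃ x, ∃ y, op x y ∈ f ∧ z = op y x

/-- Finite set: there is a bijection with a natural number. -/
def IsFinite (s : M) : Prop := ∃ n, n ∈ (om : M) ∧ ∃ f, IsBij f n s

/-! ### function clones in the model -/

/-- `f` is an `n`-ary operation on `Ω`, `n ≥ 1`: a function from the set `Fn n Ω` of `n`-tuples
to `Ω`. -/
def IsOp (Ω n f : M) : Prop := n ∈ (om : M) ∧ n ≠ emp ∧ IsFn f (Fn n Ω) Ω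

/-- The `j`-th `n`-ary projection. -/
noncomputable def proj (Ω n j : M) : M := lam (Fn n Ω) fun t => ap t j

/-- `G` is an `n`-tuple of `k`-ary members of `C`. -/
def IsTuple (Ω C n k G : M) : Prop := IsFn G n C ∧ ∀ i, i ∈ n → IsOp Ω k (ap G i)

/-- The composition `t ↦ f (G(0)(t), …, G(n-1)(t))` on `k`-tuples `t`. -/
noncomputable def comp (Ω n k f G : M) : M :=
  lam (Fn k Ω) fun t => ap f (lam n fun i => ap (ap G i) t)

/-- `C` is a function clone on `Ω`. -/
def IsClone (Ω C : M) : Prop :=
  (∀ f, f ∈ C → ∃ n, IsOp Ω n f) ∧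
  (∀ n, n ∈ (om : M) → ∀ j, j ∈ n → proj Ω n j ∈ C) ∧
  ∀ n k f G, f ∈ C → IsOp Ω n f → IsTuple Ω C n k G → comp Ω n k f G ∈ C

/-- `C` is closed in the topology of pointwise convergence: an operation `g` that agrees on every
finite set of tuples with some member of `C` of the same arity is a member of `C`. -/
def IsClosedClone (Ω C : M) : Prop :=
  ∀ n g, IsOp Ω n g → (∀ A, IsFinite A → A ⊆ Fn n Ω →
    ∃ f, f ∈ C ∧ IsOp Ω n f ∧ ∀ t, t ∈ A → ap f t = ap g t) → g ∈ C

/-- The value at `x` of a unary operation `f` (formally a function on `1`-tuples). -/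
noncomputable def act (f x : M) : M := ap f (lam one fun _ => x)

/-- `f` is an invertible unary member of `C`. -/
def IsInvertible (Ω C f : M) : Prop :=
  f ∈ C ∧ IsOp Ω one f ∧ ∃ g, g ∈ C ∧ IsOp Ω one g ∧
    ∀ x, x ∈ Ω → act g (act f x) = x ∧ act f (act g x) = x

/-- `C` is oligomorphic: for every `n` there is a finite set `R` of `n`-tuples such that every
`n`-tuple is in the orbit of a member of `R` under the invertible unary members of `C`. -/
def IsOligomorphic (Ω C : M) : Prop :=
  ∀ n, n ∈ (om : M) → ∃ R, IsFinite R ∧ R ⊆ Fn n Ω ∧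
    ∀ t, t ∈ Fn n Ω → ∃ r, r ∈ R ∧ ∃ f, IsInvertible Ω C f ∧ ∀ i, i ∈ n → act f (ap r i) = ap t i

/-- `φ` is an isomorphism from the clone `C` on `Ω` to the clone `C'` on `Ω'`: a bijection that
preserves arities, projections and composition. -/
def IsCloneIso (Ω C Ω' C' φ : M) : Prop :=
  IsBij φ C C' ∧
  (∀ n f, f ∈ C → IsOp Ω n f → IsOp Ω' n (ap φ f)) ∧
  (∀ n, n ∈ (om : M) → ∀ j, j ∈ n → ap φ (proj Ω n j) = proj Ω' n j) ∧
  ∀ n k f G, f ∈ C → IsOp Ω n f → IsTuple Ω C n k G →
    ap φ (comp Ω n k f G) = comp Ω' n k (ap φ f) (lam n fun i => ap φ (ap G i))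

/-- The arity preserving map `φ` from the clone `C` on `Ω` to operations on `Ω'` is continuous
(for the sum over the arities of the topologies of pointwise convergence). -/
def IsCont (Ω C Ω' φ : M) : Prop :=
  ∀ n f, f ∈ C → IsOp Ω n f → ∀ A', IsFinite A' → A' ⊆ Fn n Ω' →
    ∃ A, IsFinite A ∧ A ⊆ Fn n Ω ∧ ∀ g, g ∈ C → IsOp Ω n g →
      (∀ t, t ∈ A → ap g t = ap f t) → ∀ t, t ∈ A' → ap (ap φ g) t = ap (ap φ f) t

/-- `C` is reconstructible: every isomorphism onto a closed function clone on a countable set is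
a homeomorphism. -/
def IsReconstructible (Ω C : M) : Prop :=
  ∀ Ω' C' φ, (∃ e, IsInj e Ω' (om : M)) → IsClone Ω' C' → IsClosedClone Ω' C' →
    IsCloneIso Ω C Ω' C' φ → IsCont Ω C Ω' φ ∧ IsCont Ω' C' Ω (inv φ)

end Pool.Agent.helper31.ZF
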